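import Pool.Agent.BK.Defs

/-! BK module KERN: two Young-Hölder inequalities for kernels (finite sums, elementary).

Notation: `g x y ≥ 0` symmetric with all rows of `ℓ²` norm `≤ g2` and `ℓ⁴` norm `≤ g4`; `m x y ≥ 0`
symmetric with rows of `ℓ³` norm `≤ m3`; `Z ≥ 0` a vector, `W = ∑ Z⁴`; `B x = g x w ^ 2`.

Proof. (a) interpolation `‖B‖_{12/11} = ‖g_w‖_{24/11}² ≤ g2^{5/3} g4^{1/3}`
(Hölder: `∑ g^{24/11} ≤ (∑ g²)^{10/11} (∑ g⁴)^{1/11}`).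
(b) Young's inequality for a nonnegative kernel `k` with all rows and columns of `ℓ^r` norm `≤ κ`:
`∑ f_x k_xy h_y ≤ ‖f‖_p ‖h‖_q κ` for `1/p + 1/q + 1/r = 2` (write the summand as
`(f^p h^q)^{1/r'} (f^p k^r)^{1/q'} (h^q k^r)^{1/p'}` and use Hölder with three factors).
kern1: `∑_u g_ux Z_u³ ≤ g4 W^{3/4}` (Hölder 4, 4/3), then Young with `(p,q,r) = (12/11, 4/3, 3)`
for `B, Z³, m`.  kern2: Young with `(12/11, 2, 12/7)` for `B, Z², m g`, where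
`‖(m g)_x‖_{12/7} ≤ m3 g4` (Hölder 3, 4 with total exponent 7/12). -/

open Finset

noncomputable section

namespace Pool.Agent.BK

/-- Hölder's inequality with weights `θ, 1 - θ`. -/
private lemma kern_h2 {ι : Type} (s : Finset ι) (a b : ι → ℝ) (ha : ∀ i, 0 ≤ a i)
    (hb : ∀ i, 0 ≤ b i) {θ : ℝ} (h0 : 0 < θ) (h1 : θ < 1) :
    ∑ i ∈ s, a i ^ θ * b i ^ (1 - θ) ≤ (∑ i ∈ s, a i) ^ θ * (∑ i ∈ s, b i) ^ (1 - θ) := by
  have hpq : (1 / θ).HolderConjugate (1 / (1 - θ)) := by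
    rw [Real.holderConjugate_iff]
    constructor
    · rw [lt_div_iff₀ h0]; linarith
    · have : 1 - θ ≠ 0 := by linarith
      simp
  have h := Real.inner_le_Lp_mul_Lq_of_nonneg s (f := fun i => a i ^ θ)
    (g := fun i => b i ^ (1 - θ)) hpq (fun i _ => Real.rpow_nonneg (ha i) _)
    (fun i _ => Real.rpow_nonneg (hb i) _)
  have e1 : ∀ i, (a i ^ θ) ^ (1 / θ) = a i := fun i => by
    rw [← Real.rpow_mul (ha i), mul_one_div_cancel h0.ne', Real.rpow_one]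
  have e2 : ∀ i, (b i ^ (1 - θ)) ^ (1 / (1 - θ)) = b i := fun i => by
    rw [← Real.rpow_mul (hb i), mul_one_div_cancel (by linarith), Real.rpow_one]
  simp only [e1, e2, one_div_one_div] at h
  exact h

/-- Hölder's inequality with three weights. -/
private lemma kern_h3 {ι : Type} (s : Finset ι) (a b c : ι → ℝ) (ha : ∀ i, 0 ≤ a i)
    (hb : ∀ i, 0 ≤ b i) (hc : ∀ i, 0 ≤ c i) {α β γ : ℝ} (h0 : 0 < α) (h1 : 0 < β) (h2 : 0 < γ)
    (hs : α + β + γ = 1) :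
    ∑ i ∈ s, a i ^ α * b i ^ β * c i ^ γ ≤
      (∑ i ∈ s, a i) ^ α * (∑ i ∈ s, b i) ^ β * (∑ i ∈ s, c i) ^ γ := by
  have hα1 : 0 < 1 - α := by linarith
  set θ : ℝ := β / (1 - α) with hθ
  have hθ0 : 0 < θ := div_pos h1 hα1
  have hθ1 : θ < 1 := by rw [hθ, div_lt_one hα1]; linarith
  have eβ : θ * (1 - α) = β := by rw [hθ]; field_simp
  have eγ : (1 - θ) * (1 - α) = γ := by
    have : (1 - θ) * (1 - α) = (1 - α) - θ * (1 - α) := by ring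
    rw [this, eβ]; linarith
  have hsa : 0 ≤ ∑ i ∈ s, a i := sum_nonneg fun i _ => ha i
  have hsb : 0 ≤ ∑ i ∈ s, b i := sum_nonneg fun i _ => hb i
  have hsc : 0 ≤ ∑ i ∈ s, c i := sum_nonneg fun i _ => hc i
  have hd : ∀ i, 0 ≤ b i ^ θ * c i ^ (1 - θ) := fun i =>
    mul_nonneg (Real.rpow_nonneg (hb i) _) (Real.rpow_nonneg (hc i) _)
  have e1 : ∀ i, a i ^ α * b i ^ β * c i ^ γ = a i ^ α * (b i ^ θ * c i ^ (1 - θ)) ^ (1 - α) := by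
    intro i
    rw [Real.mul_rpow (Real.rpow_nonneg (hb i) _) (Real.rpow_nonneg (hc i) _),
      ← Real.rpow_mul (hb i), ← Real.rpow_mul (hc i), eβ, eγ, mul_assoc]
  simp only [e1]
  refine (kern_h2 s a (fun i => b i ^ θ * c i ^ (1 - θ)) ha hd h0 (by linarith)).trans ?_
  rw [mul_assoc]
  refine mul_le_mul_of_nonneg_left ?_ (Real.rpow_nonneg hsa _)
  have h := kern_h2 s b c hb hc hθ0 hθ1
  calc (∑ i ∈ s, b i ^ θ * c i ^ (1 - θ)) ^ (1 - α)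
      ≤ ((∑ i ∈ s, b i) ^ θ * (∑ i ∈ s, c i) ^ (1 - θ)) ^ (1 - α) :=
        Real.rpow_le_rpow (sum_nonneg fun i _ => hd i) h hα1.le
    _ = (∑ i ∈ s, b i) ^ β * (∑ i ∈ s, c i) ^ γ := by
        rw [Real.mul_rpow (Real.rpow_nonneg hsb _) (Real.rpow_nonneg hsc _),
          ← Real.rpow_mul hsb, ← Real.rpow_mul hsc, eβ, eγ]

variable {X : Type} [Fintype X] [DecidableEq X]

/-- Young's inequality for kernels. -/
private lemma kern_young (f h : X → ℝ) (k : X → X → ℝ) (hf : ∀ x, 0 ≤ f x) (hh : ∀ x, 0 ≤ h x)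
    (hk : ∀ x y, 0 ≤ k x y) {p q r κ : ℝ} (hp : 1 < p) (hq : 1 < q) (hr : 1 < r) (hκ : 0 ≤ κ)
    (hpqr : 1 / p + 1 / q + 1 / r = 2) (hrow : ∀ x, ∑ y, k x y ^ r ≤ κ ^ r)
    (hcol : ∀ y, ∑ x, k x y ^ r ≤ κ ^ r) :
    ∑ x, ∑ y, f x * k x y * h y ≤ (∑ x, f x ^ p) ^ (1 / p) * (∑ y, h y ^ q) ^ (1 / q) * κ := by
  have hp0 : 0 < p := by linarith
  have hq0 : 0 < q := by linarith
  have hr0 : 0 < r := by linarith
  have ip : 1 / p < 1 := by rw [div_lt_one hp0]; exact hp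
  have iq : 1 / q < 1 := by rw [div_lt_one hq0]; exact hq
  have ir : 1 / r < 1 := by rw [div_lt_one hr0]; exact hr
  have ip0 : 0 < 1 / p := by positivity
  have iq0 : 0 < 1 / q := by positivity
  have ir0 : 0 < 1 / r := by positivity
  set α : ℝ := 1 - 1 / r with hα
  set β : ℝ := 1 - 1 / q with hβ
  set γ : ℝ := 1 - 1 / p with hγ
  have hα0 : 0 < α := by linarith
  have hβ0 : 0 < β := by linarith
  have hγ0 : 0 < γ := by linarith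
  have hsum : α + β + γ = 1 := by rw [hα, hβ, hγ]; linarith
  have eab : α + β = 1 / p := by linarith
  have eac : α + γ = 1 / q := by linarith
  have ebc : β + γ = 1 / r := by linarith
  set F : ℝ := ∑ x, f x ^ p with hF
  set Q : ℝ := ∑ y, h y ^ q with hQ
  have hF0 : 0 ≤ F := sum_nonneg fun x _ => Real.rpow_nonneg (hf x) _
  have hQ0 : 0 ≤ Q := sum_nonneg fun x _ => Real.rpow_nonneg (hh x) _
  have hK0 : 0 ≤ κ ^ r := Real.rpow_nonneg hκ _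
  have key : ∀ t : X × X, f t.1 * k t.1 t.2 * h t.2 =
      (f t.1 ^ p * h t.2 ^ q) ^ α * (f t.1 ^ p * k t.1 t.2 ^ r) ^ β *
        (h t.2 ^ q * k t.1 t.2 ^ r) ^ γ := by
    intro t
    have A : ∀ (u : ℝ), 0 ≤ u → ∀ (P s₁ s₂ : ℝ), 0 < P → 0 < s₁ → 0 < s₂ → s₁ + s₂ = 1 / P →
        (u ^ P) ^ s₁ * (u ^ P) ^ s₂ = u := by
      intro u hu P s₁ s₂ hP hs1 hs2 hss
      rw [← Real.rpow_add_of_nonneg (Real.rpow_nonneg hu _) hs1.le hs2.le, hss,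
        ← Real.rpow_mul hu, mul_one_div_cancel hP.ne', Real.rpow_one]
    rw [Real.mul_rpow (Real.rpow_nonneg (hf _) _) (Real.rpow_nonneg (hh _) _),
      Real.mul_rpow (Real.rpow_nonneg (hf _) _) (Real.rpow_nonneg (hk _ _) _),
      Real.mul_rpow (Real.rpow_nonneg (hh _) _) (Real.rpow_nonneg (hk _ _) _)]
    have e1 := A (f t.1) (hf _) p α β hp0 hα0 hβ0 eab
    have e2 := A (h t.2) (hh _) q α γ hq0 hα0 hγ0 eac
    have e3 := A (k t.1 t.2) (hk _ _) r β γ hr0 hβ0 hγ0 ebc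
    calc f t.1 * k t.1 t.2 * h t.2
        = ((f t.1 ^ p) ^ α * (f t.1 ^ p) ^ β) * ((k t.1 t.2 ^ r) ^ β * (k t.1 t.2 ^ r) ^ γ) *
            ((h t.2 ^ q) ^ α * (h t.2 ^ q) ^ γ) := by rw [e1, e2, e3]
      _ = _ := by ring
  have hsum2 : ∑ x, ∑ y, f x * k x y * h y = ∑ t : X × X, f t.1 * k t.1 t.2 * h t.2 :=
    (Fintype.sum_prod_type (f := fun t : X × X => f t.1 * k t.1 t.2 * h t.2)).symm
  rw [hsum2]
  simp only [key]
  refine (kern_h3 univ (fun t : X × X => f t.1 ^ p * h t.2 ^ q)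
    (fun t : X × X => f t.1 ^ p * k t.1 t.2 ^ r) (fun t : X × X => h t.2 ^ q * k t.1 t.2 ^ r)
    (fun t => mul_nonneg (Real.rpow_nonneg (hf _) _) (Real.rpow_nonneg (hh _) _))
    (fun t => mul_nonneg (Real.rpow_nonneg (hf _) _) (Real.rpow_nonneg (hk _ _) _))
    (fun t => mul_nonneg (Real.rpow_nonneg (hh _) _) (Real.rpow_nonneg (hk _ _) _))
    hα0 hβ0 hγ0 hsum).trans ?_
  have s1 : ∑ t : X × X, f t.1 ^ p * h t.2 ^ q = F * Q := by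
    rw [Fintype.sum_prod_type, hF, hQ, sum_mul_sum]
  have s2 : ∑ t : X × X, f t.1 ^ p * k t.1 t.2 ^ r ≤ F * κ ^ r := by
    rw [Fintype.sum_prod_type, hF, sum_mul]
    refine sum_le_sum fun x _ => ?_
    show ∑ y, f x ^ p * k x y ^ r ≤ f x ^ p * κ ^ r
    rw [← mul_sum]
    exact mul_le_mul_of_nonneg_left (hrow x) (Real.rpow_nonneg (hf x) _)
  have s3 : ∑ t : X × X, h t.2 ^ q * k t.1 t.2 ^ r ≤ Q * κ ^ r := by
    rw [Fintype.sum_prod_type, sum_comm, hQ, sum_mul]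
    refine sum_le_sum fun y _ => ?_
    show ∑ x, h y ^ q * k x y ^ r ≤ h y ^ q * κ ^ r
    rw [← mul_sum]
    exact mul_le_mul_of_nonneg_left (hcol y) (Real.rpow_nonneg (hh y) _)
  have n2 : 0 ≤ ∑ t : X × X, f t.1 ^ p * k t.1 t.2 ^ r :=
    sum_nonneg fun t _ => mul_nonneg (Real.rpow_nonneg (hf _) _) (Real.rpow_nonneg (hk _ _) _)
  have n3 : 0 ≤ ∑ t : X × X, h t.2 ^ q * k t.1 t.2 ^ r :=
    sum_nonneg fun t _ => mul_nonneg (Real.rpow_nonneg (hh _) _) (Real.rpow_nonneg (hk _ _) _)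
  calc (∑ t : X × X, f t.1 ^ p * h t.2 ^ q) ^ α * (∑ t : X × X, f t.1 ^ p * k t.1 t.2 ^ r) ^ β *
        (∑ t : X × X, h t.2 ^ q * k t.1 t.2 ^ r) ^ γ
      ≤ (F * Q) ^ α * (F * κ ^ r) ^ β * (Q * κ ^ r) ^ γ := by
        rw [s1]
        have b2 := Real.rpow_le_rpow n2 s2 hβ0.le
        have b3 := Real.rpow_le_rpow n3 s3 hγ0.le
        have c1 : 0 ≤ (F * Q) ^ α := Real.rpow_nonneg (mul_nonneg hF0 hQ0) _
        exact mul_le_mul (mul_le_mul_of_nonneg_left b2 c1) b3 (Real.rpow_nonneg n3 _)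
          (mul_nonneg c1 (Real.rpow_nonneg (mul_nonneg hF0 hK0) _))
    _ = (F ^ α * F ^ β) * (Q ^ α * Q ^ γ) * ((κ ^ r) ^ β * (κ ^ r) ^ γ) := by
        rw [Real.mul_rpow hF0 hQ0, Real.mul_rpow hF0 hK0, Real.mul_rpow hQ0 hK0]; ring
    _ = F ^ (1 / p) * Q ^ (1 / q) * κ := by
        rw [← Real.rpow_add_of_nonneg hF0 hα0.le hβ0.le, ← Real.rpow_add_of_nonneg hQ0 hα0.le hγ0.le,
          ← Real.rpow_add_of_nonneg hK0 hβ0.le hγ0.le, eab, eac, ebc, ← Real.rpow_mul hκ,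
          mul_one_div_cancel hr0.ne', Real.rpow_one]

/-- `‖g_w²‖_{12/11} ≤ g2^(5/3) g4^(1/3)`. -/
private lemma kern_B (a : X → ℝ) (ha : ∀ x, 0 ≤ a x) (g2 g4 : ℝ) (h20 : 0 ≤ g2) (h40 : 0 ≤ g4)
    (h2 : ∑ x, a x ^ 2 ≤ g2 ^ 2) (h4 : ∑ x, a x ^ 4 ≤ g4 ^ 4) :
    (∑ x, (a x ^ 2) ^ (12 / 11 : ℝ)) ^ (1 / (12 / 11) : ℝ) ≤
      g2 ^ (5 / 3 : ℝ) * g4 ^ (1 / 3 : ℝ) := by
  have e : ∀ x, (a x ^ 2) ^ (12 / 11 : ℝ) = (a x ^ 2) ^ (10 / 11 : ℝ) *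
      (a x ^ 4) ^ (1 - 10 / 11 : ℝ) := by
    intro x
    have : (a x ^ 4) = (a x ^ 2) ^ (2 : ℝ) := by
      rw [Real.rpow_ofNat]; ring
    rw [this, ← Real.rpow_mul (by positivity), ← Real.rpow_add_of_nonneg (by positivity)
      (by norm_num) (by norm_num)]
    norm_num
  have h := kern_h2 univ (fun x => a x ^ 2) (fun x => a x ^ 4) (fun x => by positivity)
    (fun x => by positivity) (θ := 10 / 11) (by norm_num) (by norm_num)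
  simp only [e]
  have n2 : 0 ≤ ∑ x, a x ^ 2 := sum_nonneg fun x _ => by positivity
  have n4 : 0 ≤ ∑ x, a x ^ 4 := sum_nonneg fun x _ => by positivity
  calc (∑ x, (a x ^ 2) ^ (10 / 11 : ℝ) * (a x ^ 4) ^ (1 - 10 / 11 : ℝ)) ^ (1 / (12 / 11) : ℝ)
      ≤ ((∑ x, a x ^ 2) ^ (10 / 11 : ℝ) * (∑ x, a x ^ 4) ^ (1 - 10 / 11 : ℝ)) ^
          (1 / (12 / 11) : ℝ) := by
        refine Real.rpow_le_rpow (sum_nonneg fun x _ => ?_) h (by norm_num)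
        exact mul_nonneg (Real.rpow_nonneg (by positivity) _) (Real.rpow_nonneg (by positivity) _)
    _ ≤ ((g2 ^ 2) ^ (10 / 11 : ℝ) * (g4 ^ 4) ^ (1 - 10 / 11 : ℝ)) ^ (1 / (12 / 11) : ℝ) := by
        refine Real.rpow_le_rpow (mul_nonneg (Real.rpow_nonneg n2 _) (Real.rpow_nonneg n4 _)) ?_
          (by norm_num)
        exact mul_le_mul (Real.rpow_le_rpow n2 h2 (by norm_num))
          (Real.rpow_le_rpow n4 h4 (by norm_num)) (Real.rpow_nonneg n4 _)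
          (Real.rpow_nonneg (by positivity) _)
    _ = g2 ^ (5 / 3 : ℝ) * g4 ^ (1 / 3 : ℝ) := by
        have a1 : (g2 ^ 2 : ℝ) = g2 ^ (2 : ℝ) := by rw [Real.rpow_ofNat]
        have a2 : (g4 ^ 4 : ℝ) = g4 ^ (4 : ℝ) := by rw [Real.rpow_ofNat]
        rw [a1, a2, ← Real.rpow_mul h20, ← Real.rpow_mul h40,
          Real.mul_rpow (Real.rpow_nonneg h20 _) (Real.rpow_nonneg h40 _),
          ← Real.rpow_mul h20, ← Real.rpow_mul h40]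
        norm_num

theorem kern1 (g m : X → X → ℝ) (Z : X → ℝ) (w : X) (g2 g4 m3 : ℝ)
    (h20 : 0 ≤ g2) (h40 : 0 ≤ g4) (h30 : 0 ≤ m3)
    (hg : ∀ x y, 0 ≤ g x y) (hgs : ∀ x y, g x y = g y x)
    (hm : ∀ x y, 0 ≤ m x y) (hms : ∀ x y, m x y = m y x) (hZ : ∀ x, 0 ≤ Z x)
    (h2 : ∀ x, ∑ y, g x y ^ 2 ≤ g2 ^ 2) (h4 : ∀ x, ∑ y, g x y ^ 4 ≤ g4 ^ 4)
    (h3 : ∀ x, ∑ y, m x y ^ 3 ≤ m3 ^ 3) :
    ∑ x, g x w ^ 2 * (∑ y, m y x * Z y ^ 3) * (∑ u, g u x * Z u ^ 3) ≤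
      m3 * g2 ^ (5 / 3 : ℝ) * g4 ^ (4 / 3 : ℝ) * (∑ y, Z y ^ 4) ^ (3 / 2 : ℝ) := by
  set W : ℝ := ∑ y, Z y ^ 4 with hW
  have hW0 : 0 ≤ W := sum_nonneg fun x _ => by positivity
  -- the inner sum
  have hin : ∀ x, ∑ u, g u x * Z u ^ 3 ≤ g4 * W ^ (3 / 4 : ℝ) := by
    intro x
    have e : ∀ u, g u x * Z u ^ 3 = (g u x ^ 4) ^ (1 / 4 : ℝ) * (Z u ^ 4) ^ (1 - 1 / 4 : ℝ) := by
      intro u
      have a1 : (g u x ^ 4 : ℝ) = g u x ^ (4 : ℝ) := by rw [Real.rpow_ofNat]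
      have a2 : (Z u ^ 4 : ℝ) = Z u ^ (4 : ℝ) := by rw [Real.rpow_ofNat]
      rw [a1, a2, ← Real.rpow_mul (hg u x), ← Real.rpow_mul (hZ u)]
      norm_num
    simp only [e]
    refine (kern_h2 univ (fun u => g u x ^ 4) (fun u => Z u ^ 4) (fun u => by positivity)
      (fun u => by positivity) (θ := 1 / 4) (by norm_num) (by norm_num)).trans ?_
    have c4 : ∑ u, g u x ^ 4 ≤ g4 ^ 4 := by
      have : ∑ u, g u x ^ 4 = ∑ u, g x u ^ 4 := sum_congr rfl fun u _ => by rw [hgs]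
      rw [this]; exact h4 x
    have n4 : 0 ≤ ∑ u, g u x ^ 4 := sum_nonneg fun u _ => by positivity
    have e4 : (g4 ^ 4 : ℝ) ^ (1 / 4 : ℝ) = g4 := by
      rw [← Real.rpow_natCast, ← Real.rpow_mul h40]; norm_num
    have := Real.rpow_le_rpow n4 c4 (by norm_num : (0:ℝ) ≤ 1 / 4)
    rw [e4] at this
    have e5 : (1 - 1 / 4 : ℝ) = 3 / 4 := by norm_num
    rw [e5]
    exact mul_le_mul_of_nonneg_right this (Real.rpow_nonneg hW0 _)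
  -- Young
  have hY := kern_young (fun x => g x w ^ 2) (fun y => Z y ^ 3) (fun x y => m y x)
    (fun x => by positivity) (fun y => pow_nonneg (hZ y) 3) (fun x y => hm y x)
    (p := 12 / 11) (q := 4 / 3) (r := 3) (κ := m3) (by norm_num) (by norm_num) (by norm_num) h30
    (by norm_num)
    (fun x => by
      have : ∀ y, m y x ^ (3 : ℝ) = m x y ^ 3 := fun y => by rw [Real.rpow_ofNat, hms]
      simp only [this]; rw [Real.rpow_ofNat]; exact h3 x)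
    (fun y => by
      have : ∀ x, m y x ^ (3 : ℝ) = m y x ^ 3 := fun x => by rw [Real.rpow_ofNat]
      simp only [this]; rw [Real.rpow_ofNat]; exact h3 y)
  have hB := kern_B (fun x => g x w) (fun x => hg x w) g2 g4 h20 h40
    (by
      have : ∑ x, g x w ^ 2 = ∑ x, g w x ^ 2 := sum_congr rfl fun u _ => by rw [hgs]
      rw [this]; exact h2 w)
    (by
      have : ∑ x, g x w ^ 4 = ∑ x, g w x ^ 4 := sum_congr rfl fun u _ => by rw [hgs]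
      rw [this]; exact h4 w)
  have eZ : ∀ y, (Z y ^ 3) ^ (4 / 3 : ℝ) = Z y ^ 4 := by
    intro y
    rw [← Real.rpow_natCast, ← Real.rpow_mul (hZ y), ← Real.rpow_natCast]
    norm_num
  simp only [eZ] at hY
  have e34 : (1 / (4 / 3) : ℝ) = 3 / 4 := by norm_num
  rw [e34, ← hW] at hY
  have step1 : ∑ x, g x w ^ 2 * (∑ y, m y x * Z y ^ 3) * (∑ u, g u x * Z u ^ 3) ≤
      (∑ x, ∑ y, g x w ^ 2 * m y x * Z y ^ 3) * (g4 * W ^ (3 / 4 : ℝ)) := by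
    rw [sum_mul]
    refine sum_le_sum fun x _ => ?_
    have e : ∑ y, g x w ^ 2 * m y x * Z y ^ 3 = g x w ^ 2 * ∑ y, m y x * Z y ^ 3 := by
      rw [mul_sum]; exact sum_congr rfl fun y _ => by ring
    rw [e]
    exact mul_le_mul_of_nonneg_left (hin x) (mul_nonneg (by positivity)
      (sum_nonneg fun y _ => mul_nonneg (hm y x) (pow_nonneg (hZ y) 3)))
  refine step1.trans ?_
  have hW34 : 0 ≤ W ^ (3 / 4 : ℝ) := Real.rpow_nonneg hW0 _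
  calc (∑ x, ∑ y, g x w ^ 2 * m y x * Z y ^ 3) * (g4 * W ^ (3 / 4 : ℝ))
      ≤ ((∑ x, (g x w ^ 2) ^ (12 / 11 : ℝ)) ^ (1 / (12 / 11) : ℝ) * W ^ (3 / 4 : ℝ) * m3) *
          (g4 * W ^ (3 / 4 : ℝ)) := mul_le_mul_of_nonneg_right hY (mul_nonneg h40 hW34)
    _ ≤ (g2 ^ (5 / 3 : ℝ) * g4 ^ (1 / 3 : ℝ) * W ^ (3 / 4 : ℝ) * m3) *
          (g4 * W ^ (3 / 4 : ℝ)) := by
        refine mul_le_mul_of_nonneg_right ?_ (mul_nonneg h40 hW34)
        exact mul_le_mul_of_nonneg_right (mul_le_mul_of_nonneg_right hB hW34) h30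
    _ = m3 * g2 ^ (5 / 3 : ℝ) * (g4 ^ (1 / 3 : ℝ) * g4) * (W ^ (3 / 4 : ℝ) * W ^ (3 / 4 : ℝ)) := by
        ring
    _ = m3 * g2 ^ (5 / 3 : ℝ) * g4 ^ (4 / 3 : ℝ) * W ^ (3 / 2 : ℝ) := by
        have a1 : g4 ^ (1 / 3 : ℝ) * g4 = g4 ^ (4 / 3 : ℝ) := by
          conv_lhs => rw [← Real.rpow_one g4, ← Real.rpow_mul h40,
            ← Real.rpow_add_of_nonneg h40 (by norm_num) (by norm_num)]
          norm_num
        have a2 : W ^ (3 / 4 : ℝ) * W ^ (3 / 4 : ℝ) = W ^ (3 / 2 : ℝ) := by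
          rw [← Real.rpow_add_of_nonneg hW0 (by norm_num) (by norm_num)]; norm_num
        rw [a1, a2]

theorem kern2 (g m : X → X → ℝ) (Z : X → ℝ) (w : X) (g2 g4 m3 : ℝ)
    (h20 : 0 ≤ g2) (h40 : 0 ≤ g4) (h30 : 0 ≤ m3)
    (hg : ∀ x y, 0 ≤ g x y) (hgs : ∀ x y, g x y = g y x)
    (hm : ∀ x y, 0 ≤ m x y) (hms : ∀ x y, m x y = m y x) (hZ : ∀ x, 0 ≤ Z x)
    (h2 : ∀ x, ∑ y, g x y ^ 2 ≤ g2 ^ 2) (h4 : ∀ x, ∑ y, g x y ^ 4 ≤ g4 ^ 4)
    (h3 : ∀ x, ∑ y, m x y ^ 3 ≤ m3 ^ 3) :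
    ∑ x, ∑ y, m y x * g y x * Z y ^ 2 * g x w ^ 2 ≤
      m3 * g2 ^ (5 / 3 : ℝ) * g4 ^ (4 / 3 : ℝ) * (∑ y, Z y ^ 4) ^ (1 / 2 : ℝ) := by
  set W : ℝ := ∑ y, Z y ^ 4 with hW
  have hW0 : 0 ≤ W := sum_nonneg fun x _ => by positivity
  -- rows of m g
  have hmg : ∀ x, ∑ y, (m x y * g x y) ^ (12 / 7 : ℝ) ≤ (m3 * g4) ^ (12 / 7 : ℝ) := by
    intro x
    have e : ∀ y, (m x y * g x y) ^ (12 / 7 : ℝ) =
        (m x y ^ 3) ^ (4 / 7 : ℝ) * (g x y ^ 4) ^ (1 - 4 / 7 : ℝ) := by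
      intro y
      have a1 : (m x y ^ 3 : ℝ) = m x y ^ (3 : ℝ) := by rw [Real.rpow_ofNat]
      have a2 : (g x y ^ 4 : ℝ) = g x y ^ (4 : ℝ) := by rw [Real.rpow_ofNat]
      rw [a1, a2, ← Real.rpow_mul (hm x y), ← Real.rpow_mul (hg x y),
        Real.mul_rpow (hm x y) (hg x y)]
      norm_num
    simp only [e]
    refine (kern_h2 univ (fun y => m x y ^ 3) (fun y => g x y ^ 4)
      (fun y => pow_nonneg (hm x y) 3) (fun y => pow_nonneg (hg x y) 4) (θ := 4 / 7)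
      (by norm_num) (by norm_num)).trans ?_
    have n3 : 0 ≤ ∑ y, m x y ^ 3 := sum_nonneg fun y _ => pow_nonneg (hm x y) 3
    have n4 : 0 ≤ ∑ y, g x y ^ 4 := sum_nonneg fun y _ => pow_nonneg (hg x y) 4
    have b1 := Real.rpow_le_rpow n3 (h3 x) (by norm_num : (0:ℝ) ≤ 4 / 7)
    have b2 := Real.rpow_le_rpow n4 (h4 x) (by norm_num : (0:ℝ) ≤ 1 - 4 / 7)
    refine (mul_le_mul b1 b2 (Real.rpow_nonneg n4 _) (Real.rpow_nonneg (by positivity) _)).trans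
      (le_of_eq ?_)
    have a1 : (m3 ^ 3 : ℝ) = m3 ^ (3 : ℝ) := by rw [Real.rpow_ofNat]
    have a2 : (g4 ^ 4 : ℝ) = g4 ^ (4 : ℝ) := by rw [Real.rpow_ofNat]
    rw [a1, a2, ← Real.rpow_mul h30, ← Real.rpow_mul h40, Real.mul_rpow h30 h40]
    norm_num
  have hY := kern_young (fun x => g x w ^ 2) (fun y => Z y ^ 2) (fun x y => m y x * g y x)
    (fun x => by positivity) (fun y => by positivity) (fun x y => mul_nonneg (hm y x) (hg y x))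
    (p := 12 / 11) (q := 2) (r := 12 / 7) (κ := m3 * g4) (by norm_num) (by norm_num) (by norm_num)
    (mul_nonneg h30 h40) (by norm_num)
    (fun x => by
      have : ∀ y, (m y x * g y x) ^ (12 / 7 : ℝ) = (m x y * g x y) ^ (12 / 7 : ℝ) := fun y => by
        rw [hms, hgs]
      simp only [this]; exact hmg x)
    (fun y => hmg y)
  have hB := kern_B (fun x => g x w) (fun x => hg x w) g2 g4 h20 h40
    (by
      have : ∑ x, g x w ^ 2 = ∑ x, g w x ^ 2 := sum_congr rfl fun u _ => by rw [hgs]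
      rw [this]; exact h2 w)
    (by
      have : ∑ x, g x w ^ 4 = ∑ x, g w x ^ 4 := sum_congr rfl fun u _ => by rw [hgs]
      rw [this]; exact h4 w)
  have eZ : ∀ y, (Z y ^ 2) ^ (2 : ℝ) = Z y ^ 4 := by
    intro y; rw [Real.rpow_ofNat]; ring
  simp only [eZ] at hY
  rw [← hW] at hY
  have e0 : ∑ x, ∑ y, m y x * g y x * Z y ^ 2 * g x w ^ 2 =
      ∑ x, ∑ y, g x w ^ 2 * (m y x * g y x) * Z y ^ 2 :=
    sum_congr rfl fun x _ => sum_congr rfl fun y _ => by ring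
  rw [e0]
  have hW12 : 0 ≤ W ^ (1 / 2 : ℝ) := Real.rpow_nonneg hW0 _
  calc ∑ x, ∑ y, g x w ^ 2 * (m y x * g y x) * Z y ^ 2
      ≤ (∑ x, (g x w ^ 2) ^ (12 / 11 : ℝ)) ^ (1 / (12 / 11) : ℝ) * W ^ (1 / 2 : ℝ) *
          (m3 * g4) := hY
    _ ≤ (g2 ^ (5 / 3 : ℝ) * g4 ^ (1 / 3 : ℝ)) * W ^ (1 / 2 : ℝ) * (m3 * g4) := by
        refine mul_le_mul_of_nonneg_right ?_ (mul_nonneg h30 h40)
        exact mul_le_mul_of_nonneg_right hB hW12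
    _ = m3 * g2 ^ (5 / 3 : ℝ) * (g4 ^ (1 / 3 : ℝ) * g4) * W ^ (1 / 2 : ℝ) := by ring
    _ = m3 * g2 ^ (5 / 3 : ℝ) * g4 ^ (4 / 3 : ℝ) * W ^ (1 / 2 : ℝ) := by
        have a1 : g4 ^ (1 / 3 : ℝ) * g4 = g4 ^ (4 / 3 : ℝ) := by
          conv_lhs => rw [← Real.rpow_one g4, ← Real.rpow_mul h40,
            ← Real.rpow_add_of_nonneg h40 (by norm_num) (by norm_num)]
          norm_num
        rw [a1]

end Pool.Agent.BK
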