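import Pool.Agent.BK.W1
import Pool.Agent.BK.Kern

/-! BK module W2: the moment inequality (W-lemma).
From `W1`: pointwise in `V`,
`‖∑ Ψ_y (M c)_y‖ ≤ W^(q+1) (∑|Z|⁴)^{3/4} ‖M c‖_4 ≤ W^(q+7/4) m24 ‖c‖_2`,
`‖c‖_2 ≤ C lam² (diagN G g + lam ‖g‖ supN G) rowN 2 G`  (so this is `≤ A2 · W^((q+2) - 1/4)`), and
`C (lam + lam²‖g‖) ∑ |M_yx||G_xw| Dd ≤ C lam² (1 + lam‖g‖) [4(q+1) W^q K1 + 3 W^(q+1) K2]`
with `K1 ≤ m3 g2^{5/3} g4^{4/3} W^{3/2}`, `K2 ≤ m3 g2^{5/3} g4^{4/3} W^{1/2}` (`kern1`, `kern2`),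
so this is `≤ A1 · W^((q+2) - 1/2)`. Young's inequality: for `P = q + 2`,
`A1 W^(P-1/2) ≤ (4 A1)^(2P) + W^P/4`, `A2 W^(P-1/4) ≤ (4 A2)^(4P) + W^P/4`. Hence the claim. -/

open MeasureTheory Finset Matrix

noncomputable section

namespace Pool.Agent.BK

variable {X : Type} [Fintype X] [DecidableEq X]

lemma W2_young1 {a s : ℝ} (ha : 0 ≤ a) (hs : 0 ≤ s) (q : ℕ) :
    a * s ^ (4 * q + 6) ≤ (4 * a) ^ (2 * (q + 2)) + (s ^ 4) ^ (q + 2) / 4 := by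
  have e1 : (s ^ 4) ^ (q + 2) = s ^ 2 * s ^ (4 * q + 6) := by
    rw [← pow_mul, ← pow_add]
    congr 1
    ring
  have e2 : s ^ (4 * q + 6) = (s ^ 2) ^ (2 * q + 3) := by
    rw [← pow_mul]
    congr 1
    ring
  have h0 : 0 ≤ s ^ (4 * q + 6) := pow_nonneg hs _
  rcases le_total (4 * a) (s ^ 2) with h | h
  · have h1 : 4 * a * s ^ (4 * q + 6) ≤ s ^ 2 * s ^ (4 * q + 6) := mul_le_mul_of_nonneg_right h h0
    have h2 : 0 ≤ (4 * a) ^ (2 * (q + 2)) := by positivity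
    rw [e1]
    linarith
  · have h1 : (s ^ 2) ^ (2 * q + 3) ≤ (4 * a) ^ (2 * q + 3) :=
      pow_le_pow_left₀ (by positivity) h _
    have h2 : a * s ^ (4 * q + 6) ≤ 4 * a * (4 * a) ^ (2 * q + 3) := by
      rw [e2]
      exact mul_le_mul (by linarith) h1 (by positivity) (by positivity)
    have h3 : 4 * a * (4 * a) ^ (2 * q + 3) = (4 * a) ^ (2 * (q + 2)) := by
      rw [← pow_succ']
      congr 1
    have h4 : 0 ≤ (s ^ 4) ^ (q + 2) := by positivity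
    linarith

lemma W2_young2 {a s : ℝ} (ha : 0 ≤ a) (hs : 0 ≤ s) (q : ℕ) :
    a * s ^ (4 * q + 7) ≤ (4 * a) ^ (4 * (q + 2)) + (s ^ 4) ^ (q + 2) / 4 := by
  have e1 : (s ^ 4) ^ (q + 2) = s * s ^ (4 * q + 7) := by
    rw [← pow_mul, ← pow_succ']
    congr 1
  have h0 : 0 ≤ s ^ (4 * q + 7) := pow_nonneg hs _
  rcases le_total (4 * a) s with h | h
  · have h1 : 4 * a * s ^ (4 * q + 7) ≤ s * s ^ (4 * q + 7) := mul_le_mul_of_nonneg_right h h0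
    have h2 : 0 ≤ (4 * a) ^ (4 * (q + 2)) := by positivity
    rw [e1]
    linarith
  · have h1 : s ^ (4 * q + 7) ≤ (4 * a) ^ (4 * q + 7) := pow_le_pow_left₀ hs h _
    have h2 : a * s ^ (4 * q + 7) ≤ 4 * a * (4 * a) ^ (4 * q + 7) :=
      mul_le_mul (by linarith) h1 (by positivity) (by positivity)
    have h3 : 4 * a * (4 * a) ^ (4 * q + 7) = (4 * a) ^ (4 * (q + 2)) := by
      rw [← pow_succ']
      congr 1
    have h4 : 0 ≤ (s ^ 4) ^ (q + 2) := by positivity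
    linarith

omit [DecidableEq X] in
/-- Hölder with exponents `4/3` and `4`. -/
lemma W2_holder (a b : X → ℝ) (ha : ∀ y, 0 ≤ a y) (hb : ∀ y, 0 ≤ b y) {s B : ℝ} (hs : 0 ≤ s)
    (hB : 0 ≤ B) (h1 : ∑ y, a y ^ 4 ≤ s ^ 4) (h2 : ∑ y, b y ^ 4 ≤ B ^ 4) :
    ∑ y, a y ^ 3 * b y ≤ s ^ 3 * B := by
  have h3 := Real.inner_le_Lp_mul_Lq (Finset.univ) (fun y => a y ^ 3) b
    (p := 4 / 3) (q := 4) (by constructor <;> norm_num)
  have e1 : ∀ y, |a y ^ 3| ^ (4 / 3 : ℝ) = a y ^ 4 := by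
    intro y
    rw [abs_of_nonneg (pow_nonneg (ha y) 3), ← Real.rpow_natCast (a y) 3, ← Real.rpow_mul (ha y),
      ← Real.rpow_natCast (a y) 4]
    norm_num
  have e2 : ∀ y, |b y| ^ (4 : ℝ) = b y ^ 4 := by
    intro y
    rw [abs_of_nonneg (hb y), ← Real.rpow_natCast (b y) 4]
    norm_num
  simp only [e1, e2] at h3
  refine h3.trans ?_
  have f1 : (∑ y, a y ^ 4) ^ (1 / (4 / 3 : ℝ)) ≤ s ^ 3 := by
    calc (∑ y, a y ^ 4) ^ (1 / (4 / 3 : ℝ)) ≤ (s ^ 4) ^ (1 / (4 / 3 : ℝ)) :=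
          Real.rpow_le_rpow (Finset.sum_nonneg fun y _ => pow_nonneg (ha y) 4) h1 (by norm_num)
      _ = s ^ 3 := by
          rw [← Real.rpow_natCast s 4, ← Real.rpow_mul hs, ← Real.rpow_natCast s 3]
          norm_num
  have f2 : (∑ y, b y ^ 4) ^ (1 / (4 : ℝ)) ≤ B := by
    calc (∑ y, b y ^ 4) ^ (1 / (4 : ℝ)) ≤ (B ^ 4) ^ (1 / (4 : ℝ)) :=
          Real.rpow_le_rpow (Finset.sum_nonneg fun y _ => pow_nonneg (hb y) 4) h2 (by norm_num)
      _ = B := by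
          rw [← Real.rpow_natCast B 4, ← Real.rpow_mul hB]
          norm_num
  exact mul_le_mul f1 f2 (Real.rpow_nonneg (Finset.sum_nonneg fun y _ => pow_nonneg (hb y) 4) _)
    (by positivity)

lemma Wv_nonneg (H M : Matrix X X ℂ) (lam : ℝ) (z : ℂ) (w : X) (V : X → ℝ) :
    0 ≤ Wv H M lam z w V :=
  Finset.sum_nonneg fun y _ => by positivity

/-- The first term. -/
lemma W2_pt1 {ν : Measure ℝ} {R s2 C : ℝ} {τ τ' : ℝ → ℝ} (hν : NiceLaw ν R s2 C τ τ')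
    {H : Matrix X X ℂ} (hH : RS H) {lam : ℝ} (hlam : 0 < lam) {z g : ℂ} (hz : 0 < z.im)
    {m24 : ℝ} (hm240 : 0 ≤ m24) (M : Matrix X X ℂ)
    (hm24 : ∀ c : X → ℂ, ∑ y, ‖(M *ᵥ c) y‖ ^ 4 ≤ m24 ^ 4 * nsq c ^ 2) (w : X) (q : ℕ)
    (V : X → ℝ) {s : ℝ} (hs : 0 ≤ s) (hW : Wv H M lam z w V = s ^ 4) :
    ‖∑ y, Psv H M lam z w q V y * (M *ᵥ cv H lam z g τ τ' w V) y‖ ≤
      (C * lam ^ 2 * m24 * rowN 2 (Gr H (fun x => lam * V x) z) *
        (diagN (Gr H (fun x => lam * V x) z) g +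
          lam * ‖g‖ * supN (Gr H (fun x => lam * V x) z))) * s ^ (4 * q + 7) := by
  set G := Gr H (fun x => lam * V x) z with hG
  have hC := hν.C_pos
  have hg2 := rowN_nonneg 2 G
  have hdn := diagN_nonneg G g
  have hsn := supN_nonneg G
  set B : ℝ := C * lam ^ 2 * (diagN G g + lam * ‖g‖ * supN G) with hBdef
  have hB : 0 ≤ B := by positivity
  have hc : ∀ x, ‖cv H lam z g τ τ' w V x‖ ≤ B * ‖G w x‖ := by
    intro x
    unfold cv
    rw [← hG]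
    have hsym : G x w = G w x := Gr_symm hH _ hz.ne' x w
    have h1 : ‖(lam : ℂ) ^ 2 * τ (V x) * (G x x - g) * G x w‖ ≤
        C * lam ^ 2 * diagN G g * ‖G w x‖ := by
      rw [norm_mul, norm_mul, norm_mul, norm_pow, Complex.norm_real, Complex.norm_real,
        Real.norm_eq_abs, Real.norm_eq_abs, abs_of_pos hlam, hsym]
      have h2 := hν.bdd (V x)
      have h3 := norm_le_diagN G g x
      have h4 : lam ^ 2 * |τ (V x)| * ‖G x x - g‖ ≤ lam ^ 2 * C * diagN G g :=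
        mul_le_mul (mul_le_mul_of_nonneg_left h2 (by positivity)) h3 (norm_nonneg _)
          (by positivity)
      calc lam ^ 2 * |τ (V x)| * ‖G x x - g‖ * ‖G w x‖ ≤ lam ^ 2 * C * diagN G g * ‖G w x‖ :=
            mul_le_mul_of_nonneg_right h4 (norm_nonneg _)
        _ = C * lam ^ 2 * diagN G g * ‖G w x‖ := by ring
    have h5 : ‖(lam : ℂ) ^ 3 * g * τ' (V x) * G x x * G x w‖ ≤
        C * lam ^ 2 * (lam * ‖g‖ * supN G) * ‖G w x‖ := by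
      rw [norm_mul, norm_mul, norm_mul, norm_mul, norm_pow, Complex.norm_real, Complex.norm_real,
        Real.norm_eq_abs, Real.norm_eq_abs, abs_of_pos hlam, hsym]
      have h2 := hν.bdd' (V x)
      have h3 := norm_le_supN G x x
      have h4 : lam ^ 3 * ‖g‖ * |τ' (V x)| * ‖G x x‖ ≤ lam ^ 3 * ‖g‖ * C * supN G :=
        mul_le_mul (mul_le_mul_of_nonneg_left h2 (by positivity)) h3 (norm_nonneg _)
          (by positivity)
      calc lam ^ 3 * ‖g‖ * |τ' (V x)| * ‖G x x‖ * ‖G w x‖ ≤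
            lam ^ 3 * ‖g‖ * C * supN G * ‖G w x‖ :=
            mul_le_mul_of_nonneg_right h4 (norm_nonneg _)
        _ = C * lam ^ 2 * (lam * ‖g‖ * supN G) * ‖G w x‖ := by ring
    refine (norm_sub_le _ _).trans ?_
    rw [hBdef]
    linarith
  have hnsq : nsq (cv H lam z g τ τ' w V) ≤ (B * rowN 2 G) ^ 2 := by
    unfold nsq
    calc ∑ x, ‖cv H lam z g τ τ' w V x‖ ^ 2 ≤ ∑ x, B ^ 2 * ‖G w x‖ ^ 2 := by
          refine Finset.sum_le_sum fun x _ => ?_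
          calc ‖cv H lam z g τ τ' w V x‖ ^ 2 ≤ (B * ‖G w x‖) ^ 2 :=
                pow_le_pow_left₀ (norm_nonneg _) (hc x) 2
            _ = B ^ 2 * ‖G w x‖ ^ 2 := by ring
      _ = B ^ 2 * ∑ x, ‖G w x‖ ^ 2 := by rw [Finset.mul_sum]
      _ ≤ B ^ 2 * rowN 2 G ^ 2 :=
          mul_le_mul_of_nonneg_left (sum_pow_le_rowN (by norm_num) G w) (by positivity)
      _ = (B * rowN 2 G) ^ 2 := by ring
  have hnsq0 : 0 ≤ nsq (cv H lam z g τ τ' w V) := by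
    unfold nsq
    positivity
  have hM4 : ∑ y, ‖(M *ᵥ cv H lam z g τ τ' w V) y‖ ^ 4 ≤ (m24 * (B * rowN 2 G)) ^ 4 := by
    refine (hm24 _).trans ?_
    calc m24 ^ 4 * nsq (cv H lam z g τ τ' w V) ^ 2 ≤ m24 ^ 4 * ((B * rowN 2 G) ^ 2) ^ 2 :=
          mul_le_mul_of_nonneg_left (pow_le_pow_left₀ hnsq0 hnsq 2) (by positivity)
      _ = (m24 * (B * rowN 2 G)) ^ 4 := by ring
  have hhol := W2_holder (fun y => ‖Zv H M lam z w V y‖)
    (fun y => ‖(M *ᵥ cv H lam z g τ τ' w V) y‖) (fun y => norm_nonneg _) (fun y => norm_nonneg _)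
    hs (by positivity : 0 ≤ m24 * (B * rowN 2 G)) (le_of_eq hW) hM4
  calc ‖∑ y, Psv H M lam z w q V y * (M *ᵥ cv H lam z g τ τ' w V) y‖
      ≤ ∑ y, ‖Psv H M lam z w q V y * (M *ᵥ cv H lam z g τ τ' w V) y‖ := norm_sum_le _ _
    _ = ∑ y, (s ^ 4) ^ (q + 1) * (‖Zv H M lam z w V y‖ ^ 3 *
          ‖(M *ᵥ cv H lam z g τ τ' w V) y‖) := by
        refine Finset.sum_congr rfl fun y _ => ?_
        unfold Psv
        rw [hW, norm_mul, norm_mul, norm_mul, norm_pow, norm_pow, Complex.norm_real,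
          Real.norm_eq_abs, abs_of_nonneg (by positivity), RCLike.norm_conj]
        ring
    _ = (s ^ 4) ^ (q + 1) * ∑ y, (‖Zv H M lam z w V y‖ ^ 3 *
          ‖(M *ᵥ cv H lam z g τ τ' w V) y‖) := by rw [Finset.mul_sum]
    _ ≤ (s ^ 4) ^ (q + 1) * (s ^ 3 * (m24 * (B * rowN 2 G))) :=
        mul_le_mul_of_nonneg_left hhol (by positivity)
    _ = _ := by
        rw [hBdef, ← pow_mul, show 4 * q + 7 = 4 * (q + 1) + 3 by ring, pow_add]
        ring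

omit [DecidableEq X] in
lemma W2_rearr (m' g' z' : X → ℝ) (a U c1 c2 l : ℝ) :
    ∑ y, m' y * a * (c1 * z' y ^ 3 * (l * a * U) + c2 * z' y ^ 2 * (l * g' y * a)) =
      l * (c1 * (a ^ 2 * (∑ y, m' y * z' y ^ 3) * U)) +
        l * (c2 * ∑ y, m' y * g' y * z' y ^ 2 * a ^ 2) := by
  simp only [Finset.mul_sum, Finset.sum_mul, ← Finset.sum_add_distrib]
  refine Finset.sum_congr rfl fun y _ => ?_
  ring

/-- The second term. -/
lemma W2_pt2 {C : ℝ} (hC : 0 < C) {H : Matrix X X ℂ} (hH : RS H) {lam : ℝ} (hlam : 0 < lam)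
    {z g ζ : ℂ} (hz : 0 < z.im) (hζ : 0 < ζ.im) {m3 : ℝ} (hm30 : 0 ≤ m3)
    (hm3 : ∀ x, ∑ y, ‖Gr H 0 ζ x y‖ ^ 3 ≤ m3 ^ 3) (w : X) (q : ℕ)
    (V : X → ℝ) {s : ℝ} (hs : 0 ≤ s) (hW : Wv H (Gr H 0 ζ) lam z w V = s ^ 4) :
    C * (lam + lam ^ 2 * ‖g‖) * ∑ x, ∑ y,
        ‖Gr H 0 ζ y x‖ * ‖Gr H (fun x => lam * V x) z x w‖ *
          Dd H (Gr H 0 ζ) lam z w q V x y ≤
      (C * (1 + lam * ‖g‖) * (4 * q + 7) * lam ^ 2 * m3 *
        rowN 2 (Gr H (fun x => lam * V x) z) ^ (5 / 3 : ℝ) *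
        rowN 4 (Gr H (fun x => lam * V x) z) ^ (4 / 3 : ℝ)) * s ^ (4 * q + 6) := by
  set G := Gr H (fun x => lam * V x) z with hG
  set M := Gr H 0 ζ with hM
  have hg2 := rowN_nonneg 2 G
  have hg4 := rowN_nonneg 4 G
  have hgs : ∀ x y, ‖G x y‖ = ‖G y x‖ := fun x y => by rw [hG, Gr_symm hH _ hz.ne' x y]
  have hms : ∀ x y, ‖M x y‖ = ‖M y x‖ := fun x y => by rw [hM, Gr_symm hH _ hζ.ne' x y]
  have hWs : ∑ y, ‖Zv H M lam z w V y‖ ^ 4 = s ^ 4 := hW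
  have hk1 := kern1 (fun x y => ‖G x y‖) (fun x y => ‖M x y‖) (fun y => ‖Zv H M lam z w V y‖) w
    (rowN 2 G) (rowN 4 G) m3 hg2 hg4 hm30 (fun x y => norm_nonneg _) hgs
    (fun x y => norm_nonneg _) hms (fun y => norm_nonneg _)
    (fun x => sum_pow_le_rowN (by norm_num) G x) (fun x => sum_pow_le_rowN (by norm_num) G x) hm3
  have hk2 := kern2 (fun x y => ‖G x y‖) (fun x y => ‖M x y‖) (fun y => ‖Zv H M lam z w V y‖) w
    (rowN 2 G) (rowN 4 G) m3 hg2 hg4 hm30 (fun x y => norm_nonneg _) hgs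
    (fun x y => norm_nonneg _) hms (fun y => norm_nonneg _)
    (fun x => sum_pow_le_rowN (by norm_num) G x) (fun x => sum_pow_le_rowN (by norm_num) G x) hm3
  simp only [hWs] at hk1 hk2
  have e1 : (s ^ 4) ^ (3 / 2 : ℝ) = s ^ 6 := by
    rw [← Real.rpow_natCast s 4, ← Real.rpow_mul hs, ← Real.rpow_natCast s 6]
    norm_num
  have e2 : (s ^ 4) ^ (1 / 2 : ℝ) = s ^ 2 := by
    rw [← Real.rpow_natCast s 4, ← Real.rpow_mul hs, ← Real.rpow_natCast s 2]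
    norm_num
  rw [e1] at hk1
  rw [e2] at hk2
  set A : ℝ := m3 * rowN 2 G ^ (5 / 3 : ℝ) * rowN 4 G ^ (4 / 3 : ℝ) with hA
  have hA0 : 0 ≤ A := by
    have := Real.rpow_nonneg hg2 (5 / 3 : ℝ)
    have := Real.rpow_nonneg hg4 (4 / 3 : ℝ)
    positivity
  have hsum : ∑ x, ∑ y, ‖M y x‖ * ‖G x w‖ * Dd H M lam z w q V x y =
      lam * (4 * (q + 1) * (s ^ 4) ^ q * (∑ x, ‖G x w‖ ^ 2 *
        (∑ y, ‖M y x‖ * ‖Zv H M lam z w V y‖ ^ 3) * (∑ u, ‖G u x‖ * ‖Zv H M lam z w V u‖ ^ 3)) +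
      3 * (s ^ 4) ^ (q + 1) * ∑ x, ∑ y, ‖M y x‖ * ‖G y x‖ * ‖Zv H M lam z w V y‖ ^ 2 *
        ‖G x w‖ ^ 2) := by
    rw [mul_add, Finset.mul_sum, Finset.mul_sum, Finset.mul_sum, Finset.mul_sum,
      ← Finset.sum_add_distrib]
    refine Finset.sum_congr rfl fun x _ => ?_
    have e3 : (∑ u, ‖Zv H M lam z w V u‖ ^ 3 * ‖G u x‖) =
        ∑ u, ‖G u x‖ * ‖Zv H M lam z w V u‖ ^ 3 :=
      Finset.sum_congr rfl fun u _ => mul_comm _ _
    unfold Dd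
    rw [← hG, hW, e3]
    exact W2_rearr (fun y => ‖M y x‖) (fun y => ‖G y x‖) (fun y => ‖Zv H M lam z w V y‖) ‖G x w‖
      (∑ u, ‖G u x‖ * ‖Zv H M lam z w V u‖ ^ 3) (4 * (q + 1) * (s ^ 4) ^ q)
      (3 * (s ^ 4) ^ (q + 1)) lam
  rw [hsum]
  have h1 : 4 * (q + 1) * (s ^ 4) ^ q * (∑ x, ‖G x w‖ ^ 2 *
        (∑ y, ‖M y x‖ * ‖Zv H M lam z w V y‖ ^ 3) * (∑ u, ‖G u x‖ * ‖Zv H M lam z w V u‖ ^ 3)) ≤
      4 * (q + 1) * (s ^ 4) ^ q * (A * s ^ 6) :=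
    mul_le_mul_of_nonneg_left hk1 (by positivity)
  have h2 : 3 * (s ^ 4) ^ (q + 1) * ∑ x, ∑ y, ‖M y x‖ * ‖G y x‖ * ‖Zv H M lam z w V y‖ ^ 2 *
        ‖G x w‖ ^ 2 ≤ 3 * (s ^ 4) ^ (q + 1) * (A * s ^ 2) :=
    mul_le_mul_of_nonneg_left hk2 (by positivity)
  have h3 : C * (lam + lam ^ 2 * ‖g‖) * (lam * (4 * (q + 1) * (s ^ 4) ^ q * (∑ x, ‖G x w‖ ^ 2 *
        (∑ y, ‖M y x‖ * ‖Zv H M lam z w V y‖ ^ 3) * (∑ u, ‖G u x‖ * ‖Zv H M lam z w V u‖ ^ 3)) +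
      3 * (s ^ 4) ^ (q + 1) * ∑ x, ∑ y, ‖M y x‖ * ‖G y x‖ * ‖Zv H M lam z w V y‖ ^ 2 *
        ‖G x w‖ ^ 2)) ≤ C * (lam + lam ^ 2 * ‖g‖) * (lam * (4 * (q + 1) * (s ^ 4) ^ q *
        (A * s ^ 6) + 3 * (s ^ 4) ^ (q + 1) * (A * s ^ 2))) :=
    mul_le_mul_of_nonneg_left (mul_le_mul_of_nonneg_left (add_le_add h1 h2) hlam.le)
      (by positivity)
  refine h3.trans (le_of_eq ?_)
  rw [← pow_mul, ← pow_mul, show 4 * (q + 1) = 4 * q + 4 by ring, pow_add, pow_add]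
  rw [hA]
  ring

theorem wlemma {ν : Measure ℝ} {R s2 C : ℝ} {τ τ' : ℝ → ℝ} (hν : NiceLaw ν R s2 C τ τ')
    {H : Matrix X X ℂ} (hH : RS H) {lam : ℝ} (hlam : 0 < lam) {z g : ℂ} (hz : 0 < z.im)
    (hg : ∀ x, Ex ν (fun V : X → ℝ => Gr H (fun x => lam * V x) z x x) = g)
    (hζ : 0 < (z + (lam ^ 2 * s2 : ℝ) * g).im) {m3 m24 : ℝ} (hm30 : 0 ≤ m3) (hm240 : 0 ≤ m24)
    (hm3 : ∀ x, ∑ y, ‖Gr H 0 (z + (lam ^ 2 * s2 : ℝ) * g) x y‖ ^ 3 ≤ m3 ^ 3)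
    (hm24 : ∀ c : X → ℂ, ∑ y, ‖(Gr H 0 (z + (lam ^ 2 * s2 : ℝ) * g) *ᵥ c) y‖ ^ 4 ≤
      m24 ^ 4 * nsq c ^ 2) (w : X) (q : ℕ) :
    Ex ν (fun V => Wv H (Gr H 0 (z + (lam ^ 2 * s2 : ℝ) * g)) lam z w V ^ (q + 2)) ≤
      2 * Ex ν (fun V : X → ℝ => (4 * (C * (1 + lam * ‖g‖) * (4 * q + 7) * lam ^ 2 * m3 *
        rowN 2 (Gr H (fun x => lam * V x) z) ^ (5 / 3 : ℝ) *
        rowN 4 (Gr H (fun x => lam * V x) z) ^ (4 / 3 : ℝ))) ^ (2 * (q + 2))) +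
      2 * Ex ν (fun V : X → ℝ => (4 * (C * lam ^ 2 * m24 * rowN 2 (Gr H (fun x => lam * V x) z) *
        (diagN (Gr H (fun x => lam * V x) z) g +
          lam * ‖g‖ * supN (Gr H (fun x => lam * V x) z)))) ^ (4 * (q + 2))) := by
  have hW1 := W1 hν hH hlam hz hg hζ w q
  set ζ := z + (lam ^ 2 * s2 : ℝ) * g with hζdef
  set M := Gr H 0 ζ with hM
  have hC := hν.C_pos
  set A1 : (X → ℝ) → ℝ := fun V => C * (1 + lam * ‖g‖) * (4 * q + 7) * lam ^ 2 * m3 *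
        rowN 2 (Gr H (fun x => lam * V x) z) ^ (5 / 3 : ℝ) *
        rowN 4 (Gr H (fun x => lam * V x) z) ^ (4 / 3 : ℝ) with hA1
  set A2 : (X → ℝ) → ℝ := fun V => C * lam ^ 2 * m24 * rowN 2 (Gr H (fun x => lam * V x) z) *
        (diagN (Gr H (fun x => lam * V x) z) g +
          lam * ‖g‖ * supN (Gr H (fun x => lam * V x) z)) with hA2
  have cG := continuous_Gr hH lam hz.ne'
  have c2 := continuous_rowN 2 cG
  have c4 := continuous_rowN 4 cG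
  have cd := continuous_diagN g cG
  have cs := continuous_supN cG
  have cA1 : Continuous A1 := by
    have h1 : Continuous fun V : X → ℝ =>
        rowN 2 (Gr H (fun x => lam * V x) z) ^ (5 / 3 : ℝ) :=
      c2.rpow_const fun V => Or.inr (by norm_num)
    have h2 : Continuous fun V : X → ℝ =>
        rowN 4 (Gr H (fun x => lam * V x) z) ^ (4 / 3 : ℝ) :=
      c4.rpow_const fun V => Or.inr (by norm_num)
    exact (continuous_const.mul h1).mul h2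
  have cA2 : Continuous A2 :=
    (continuous_const.mul c2).mul (cd.add (continuous_const.mul cs))
  have cW : Continuous fun V => Wv H M lam z w V := by
    unfold Wv
    refine continuous_finsetSum _ fun y _ => ?_
    exact ((C1_Gr_sub hH lam hz.ne' M y w).cont.norm).pow 4
  have nA1 : ∀ V, 0 ≤ A1 V := by
    intro V
    have h1 := Real.rpow_nonneg (rowN_nonneg 2 (Gr H (fun x => lam * V x) z)) (5 / 3 : ℝ)
    have h2 := Real.rpow_nonneg (rowN_nonneg 4 (Gr H (fun x => lam * V x) z)) (4 / 3 : ℝ)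
    simp only [hA1]
    positivity
  have nA2 : ∀ V, 0 ≤ A2 V := by
    intro V
    have h1 := rowN_nonneg 2 (Gr H (fun x => lam * V x) z)
    have h2 := diagN_nonneg (Gr H (fun x => lam * V x) z) g
    have h3 := supN_nonneg (Gr H (fun x => lam * V x) z)
    simp only [hA2]
    positivity
  -- the fourth root of `W`
  have hroot : ∀ V, ∃ s : ℝ, 0 ≤ s ∧ Wv H M lam z w V = s ^ 4 := by
    intro V
    refine ⟨Wv H M lam z w V ^ (1 / 4 : ℝ), Real.rpow_nonneg (Wv_nonneg _ _ _ _ _ _) _, ?_⟩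
    rw [← Real.rpow_natCast, ← Real.rpow_mul (Wv_nonneg _ _ _ _ _ _)]
    norm_num
  have hT1 : Ex ν (fun V => ‖∑ y, Psv H M lam z w q V y * (M *ᵥ cv H lam z g τ τ' w V) y‖) ≤
      Ex ν (fun V => (4 * A2 V) ^ (4 * (q + 2)) + Wv H M lam z w V ^ (q + 2) / 4) := by
    unfold Ex
    refine integral_mono_of_nonneg (Filter.Eventually.of_forall fun V => norm_nonneg _)
      (integrable_cont hν (((continuous_const.mul cA2).pow _).add ((cW.pow _).div_const _)))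
      (Filter.Eventually.of_forall fun V => ?_)
    obtain ⟨s, hs, hsW⟩ := hroot V
    have h1 := W2_pt1 hν hH hlam (g := g) hz hm240 M hm24 w q V hs hsW
    have h2 := W2_young2 (nA2 V) hs q
    simp only
    rw [hsW]
    exact h1.trans h2
  have hT2 : Ex ν (fun V => C * (lam + lam ^ 2 * ‖g‖) * ∑ x, ∑ y,
        ‖M y x‖ * ‖Gr H (fun x => lam * V x) z x w‖ * Dd H M lam z w q V x y) ≤
      Ex ν (fun V => (4 * A1 V) ^ (2 * (q + 2)) + Wv H M lam z w V ^ (q + 2) / 4) := by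
    unfold Ex
    refine integral_mono_of_nonneg (Filter.Eventually.of_forall fun V => ?_)
      (integrable_cont hν (((continuous_const.mul cA1).pow _).add ((cW.pow _).div_const _)))
      (Filter.Eventually.of_forall fun V => ?_)
    · have hW0 := Wv_nonneg H M lam z w V
      have hD : ∀ x y, 0 ≤ Dd H M lam z w q V x y := by
        intro x y
        unfold Dd
        positivity
      have hS : 0 ≤ ∑ x, ∑ y, ‖M y x‖ * ‖Gr H (fun x => lam * V x) z x w‖ *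
          Dd H M lam z w q V x y :=
        Finset.sum_nonneg fun x _ => Finset.sum_nonneg fun y _ =>
          mul_nonneg (by positivity) (hD x y)
      simp only [Pi.zero_apply]
      positivity
    · obtain ⟨s, hs, hsW⟩ := hroot V
      have h1 := W2_pt2 hC hH hlam (g := g) hz hζ hm30 hm3 w q V hs hsW
      have h2 := W2_young1 (nA1 V) hs q
      simp only
      rw [hsW]
      exact h1.trans h2
  have i1 : Integrable (fun V : X → ℝ => (4 * A1 V) ^ (2 * (q + 2)))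
      (Measure.pi fun _ : X => ν) := integrable_cont hν ((continuous_const.mul cA1).pow _)
  have i2 : Integrable (fun V : X → ℝ => (4 * A2 V) ^ (4 * (q + 2)))
      (Measure.pi fun _ : X => ν) := integrable_cont hν ((continuous_const.mul cA2).pow _)
  have i3 : Integrable (fun V : X → ℝ => Wv H M lam z w V ^ (q + 2) / 4)
      (Measure.pi fun _ : X => ν) := integrable_cont hν ((cW.pow _).div_const _)
  have e1 : Ex ν (fun V => (4 * A2 V) ^ (4 * (q + 2)) + Wv H M lam z w V ^ (q + 2) / 4) =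
      Ex ν (fun V => (4 * A2 V) ^ (4 * (q + 2))) + Ex ν (fun V => Wv H M lam z w V ^ (q + 2)) / 4 := by
    unfold Ex
    rw [← integral_div]
    exact integral_add i2 i3
  have e2 : Ex ν (fun V => (4 * A1 V) ^ (2 * (q + 2)) + Wv H M lam z w V ^ (q + 2) / 4) =
      Ex ν (fun V => (4 * A1 V) ^ (2 * (q + 2))) + Ex ν (fun V => Wv H M lam z w V ^ (q + 2)) / 4 := by
    unfold Ex
    rw [← integral_div]
    exact integral_add i1 i3
  rw [e1] at hT1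
  rw [e2] at hT2
  linarith

end Pool.Agent.BK
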