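import Pool.Agent.BK.Dom2
import Pool.Agent.BK.W2

/-! BK: definitions for the bootstrap. -/

open MeasureTheory Finset Matrix

noncomputable section

namespace Pool.Agent.BK

/-- `E G_00` at the parameters `π`. -/
def gb (ν : Measure ℝ) (d : ℕ) (π : Par) : ℂ := gbar ν d π.n π.lam π.z

/-- `ζ` at the parameters `π`. -/
def zt (ν : Measure ℝ) (s2 : ℝ) (d : ℕ) (π : Par) : ℂ := zeta ν s2 d π.n π.lam π.z

/-- A priori input: `sup|G| ≺ lam^(-δ)` and `Im E G_00 ≥ lam^δ`. -/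
structure Apr (ν : Measure ℝ) (d : ℕ) (S : Set Par) (δ : ℝ) : Prop where
  ginf : Dom ν d S (ginf d) (-δ)
  im : ∀ π ∈ S, π.lam ^ δ ≤ (gb ν d π).im

/-- Consequences of the a priori input for `ζ`. -/
structure Zok (ν : Measure ℝ) (s2 : ℝ) (d : ℕ) (lo hi κ δ : ℝ) (S : Set Par) : Prop where
  re_lo : ∀ π ∈ S, lo ≤ (zt ν s2 d π).re
  re_hi : ∀ π ∈ S, (zt ν s2 d π).re ≤ hi
  im_lo : ∀ π ∈ S, π.lam ^ (2 + 2 * δ) ≤ (zt ν s2 d π).im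
  im_eta : ∀ π ∈ S, π.eta ≤ (zt ν s2 d π).im
  im_hi : ∀ π ∈ S, (zt ν s2 d π).im ≤ κ
  gb_le : ∀ π ∈ S, ‖gb ν d π‖ ≤ π.lam ^ (-(2 * δ))

/-- Local law on `S`: `sup|G| ≺ 1`, `sup ‖G_x‖_4 ≺ 1`, `X* ≺ lam`, `Im E G_00 ≥ κ`. -/
structure LocL (ν : Measure ℝ) (d : ℕ) (S : Set Par) (κ : ℝ) : Prop where
  ginf : Dom ν d S (ginf d) 0
  g4 : Dom ν d S (gq 4 d) 0
  xst : Dom ν d S (xst ν d) 1
  im : ∀ π ∈ S, κ ≤ (gb ν d π).im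

end Pool.Agent.BK
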