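import Pool.Agent.BK.BW

/-! BK module BP: the bootstrap in `y` and the local law on one scale.

(1) start: `g4⁴ ≤ ginf² · rowN 2 G²` (`rowN_four_le`) gives `g4 ≺ lam^(-(A+3δ)/4)`.
(2) pass: if `g4 ≺ lam^(-y)`, `0 ≤ y ≤ (A+3δ)/4`, then `dom_zst` and
`g4 ≤ rowN 4 M + zst` (Minkowski, `rowN 4 M ≤ rowN 3 M ≤ K lam^(-ε')` by `FreeB.fb12`) give
`g4 ≺ lam^(-max(0, y - δ))`, because both exponents of `dom_zst` are at least `-y + δ`.
Iterate finitely often: `g4 ≺ 1`.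
(3) at `y = 0`: `zst ≺ lam^b`, `b = min (1 - 5/12(A+δ)) (2 - A/2 - 5δ) ≥ δ > 0`;
`ginf ≤ g4` so `ginf ≺ 1`; `xst ≺ lam` (`dom_xst`, `y = 0`);
`|gb - M_00| ≤ E zst ≤ K lam^(δ/2)`, and `Im M_00 ≥ κ` (`hFκ`), so `Im gb ≥ κ/2` for small
`lam`. -/

open MeasureTheory Finset Matrix

noncomputable section

namespace Pool.Agent.BK

private lemma bp_par {lo hi lam0 e1 e2 : ℝ} (hl : lam0 ≤ 1) {π : Par}
    (hπ : π ∈ PS lo hi lam0 e1 e2) :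
    0 < π.lam ∧ π.lam ≤ 1 ∧ 0 < π.eta ∧ π.lam ^ e1 ≤ π.eta ∧
      π.lam ^ (-(40 : ℝ)) ≤ 2 * (π.n : ℝ) + 1 := by
  obtain ⟨h0, h1, h2, h3, -, -, h4, -⟩ := hπ
  exact ⟨h0, h1.trans hl, (Real.rpow_pos_of_pos h0 _).trans_le h4, h4, h2⟩

/-- `Im ζ ≥ lam^(2+2δ)`, so negative powers of `Im ζ` are bounded, and `(Im ζ)^(-10) ≤ 2n+1`. -/
private lemma bp_im {ν : Measure ℝ} {s2 : ℝ} {d : ℕ} {lo' hi' κ : ℝ}
    {lo hi lam0 e1 e2 δ : ℝ} (hl : lam0 ≤ 1) (hδ1 : δ ≤ 1 / 10)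
    (hZ : Zok ν s2 d lo' hi' κ δ (PS lo hi lam0 e1 e2)) {π : Par}
    (hπ : π ∈ PS lo hi lam0 e1 e2) : 0 < (zt ν s2 d π).im ∧
      (∀ s : ℝ, 0 ≤ s → (zt ν s2 d π).im ^ (-s) ≤ π.lam ^ (-((2 + 2 * δ) * s))) ∧
      (zt ν s2 d π).im ^ (-(10 : ℝ)) ≤ 2 * (π.n : ℝ) + 1 := by
  obtain ⟨h0, h1, h2, h3, h4⟩ := bp_par hl hπ
  have hlow := hZ.im_lo π hπ
  have hp : 0 < π.lam ^ (2 + 2 * δ) := Real.rpow_pos_of_pos h0 _
  have key : ∀ s : ℝ, 0 ≤ s → (zt ν s2 d π).im ^ (-s) ≤ π.lam ^ (-((2 + 2 * δ) * s)) := by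
    intro s hs
    have := Real.rpow_le_rpow_of_nonpos hp hlow (neg_nonpos.2 hs)
    rw [← Real.rpow_mul h0.le] at this
    refine this.trans (le_of_eq ?_)
    congr 1
    ring
  refine ⟨hp.trans_le hlow, key, (key 10 (by norm_num)).trans (le_trans ?_ h4)⟩
  exact Real.rpow_le_rpow_of_exponent_ge h0 h1 (by linarith)

private lemma bp_m3 {ν : Measure ℝ} {s2 : ℝ} {d : ℕ} {lo' hi' κ : ℝ} (hF : FreeB d lo' hi')
    (hκ1 : κ ≤ 1) {lo hi lam0 e1 e2 δ : ℝ} (hl : lam0 ≤ 1) (hδ1 : δ ≤ 1 / 10)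
    (hZ : Zok ν s2 d lo' hi' κ δ (PS lo hi lam0 e1 e2)) {ε : ℝ} (hε : 0 < ε) :
    ∃ K : ℝ, 1 ≤ K ∧ ∀ π ∈ PS lo hi lam0 e1 e2, ∀ x,
      ∑ y, ‖Gr (H0 d π.n) 0 (zt ν s2 d π) x y‖ ^ 3 ≤ (K * π.lam ^ (-ε)) ^ 3 := by
  obtain ⟨Cf, hCf, h⟩ := hF.fb12 ε hε
  refine ⟨max 1 Cf, le_max_left _ _, fun π hπ x => ?_⟩
  obtain ⟨h0, h1, h2, h3, h4⟩ := bp_par hl hπ
  obtain ⟨i0, i1, i2⟩ := bp_im hl hδ1 hZ hπ
  refine ((h (zt ν s2 d π) π.n (hZ.re_lo π hπ) (hZ.re_hi π hπ) i0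
    ((hZ.im_hi π hπ).trans hκ1) i2).1 x).trans ?_
  rw [mul_pow]
  have hK : Cf ≤ (max 1 Cf) ^ 3 :=
    (le_max_right _ _).trans (le_self_pow₀ (le_max_left _ _) (by norm_num))
  have hp : (zt ν s2 d π).im ^ (-ε) ≤ (π.lam ^ (-ε)) ^ 3 := by
    refine (i1 ε hε.le).trans ?_
    rw [← Real.rpow_natCast, ← Real.rpow_mul h0.le]
    refine Real.rpow_le_rpow_of_exponent_ge h0 h1 ?_
    push_cast
    nlinarith
  exact mul_le_mul hK hp (Real.rpow_nonneg i0.le _) (by positivity)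

/-- The rows of `M` are `≺ 1`. -/
private lemma bp_M {ν : Measure ℝ} {R s2 C : ℝ} {τ τ' : ℝ → ℝ} (hν : NiceLaw ν R s2 C τ τ')
    {d : ℕ} {lo' hi' κ : ℝ} (hF : FreeB d lo' hi')
    (hκ1 : κ ≤ 1) {lo hi lam0 e1 e2 δ : ℝ} (hl : lam0 ≤ 1) (hδ1 : δ ≤ 1 / 10)
    (hZ : Zok ν s2 d lo' hi' κ δ (PS lo hi lam0 e1 e2)) :
    Dom ν d (PS lo hi lam0 e1 e2)
      (fun π _ => rowN 4 (MM ν s2 d π.n π.lam π.z)) 0 := by
  have hS := good_PS (lo := lo) (hi := hi) (e1 := e1) (e2 := e2) hl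
  refine Dom.of_forall_lt hν hS (fun b hb => ?_)
  obtain ⟨K, hK1, hK⟩ := bp_m3 hF hκ1 hl hδ1 hZ (ε := -b) (by linarith)
  refine Dom.det hν hS (fun π _ => continuous_const) K (fun π hπ V => ?_)
  obtain ⟨h0, h1, h2, h3, h4⟩ := bp_par hl hπ
  rw [abs_of_nonneg (rowN_nonneg 4 _)]
  refine (rowN_anti (q := 3) (r := 4) (by norm_num) (by norm_num) _).trans ?_
  have hp : 0 ≤ K * π.lam ^ b := mul_nonneg (by linarith) (Real.rpow_nonneg h0.le _)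
  refine rowN_le (by norm_num) hp (fun x => ?_)
  have := hK π hπ x
  rw [neg_neg] at this
  exact this

private lemma bp_g2 {ν : Measure ℝ} {R s2 C : ℝ} {τ τ' : ℝ → ℝ} (hν : NiceLaw ν R s2 C τ τ')
    {d : ℕ} {lo hi lam0 e1 e2 A δ : ℝ} (hl : lam0 ≤ 1) (he1 : e1 ≤ A)
    (hA' : Apr ν d (PS lo hi lam0 e1 e2) δ) :
    Dom ν d (PS lo hi lam0 e1 e2) (gq 2 d) (1 / 2 * (-A + -δ)) := by
  have hS := good_PS (lo := lo) (hi := hi) (e1 := e1) (e2 := e2) hl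
  have h1 : Dom ν d (PS lo hi lam0 e1 e2) (fun π V => π.eta⁻¹ * ginf d π V) (-A + -δ) := by
    refine hA'.ginf.det_mul hν hS 1 (fun π => π.eta⁻¹) (fun π hπ => ?_)
    obtain ⟨h0, h1, h2, h3, -⟩ := bp_par hl hπ
    rw [abs_of_pos (inv_pos.2 h2), one_mul, Real.rpow_neg h0.le]
    refine inv_anti₀ (Real.rpow_pos_of_pos h0 _) (le_trans ?_ h3)
    exact Real.rpow_le_rpow_of_exponent_ge h0 h1 he1
  have h2 := h1.rpow hν hS (fun π hπ V => ?_) (s := 1 / 2) (by norm_num)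
  · refine h2.mono hν hS (fun π hπ => ?_) (fun π hπ V => ?_)
    · obtain ⟨h0, -, h2, -, -⟩ := bp_par hl hπ
      exact continuous_rowN 2 (continuous_Gr (RS_H0 d π.n) π.lam (z := π.z) h2.ne')
    · obtain ⟨h0, -, h2, -, -⟩ := bp_par hl hπ
      have h3 := rowN_two_Gr (RS_H0 d π.n) (fun x => π.lam * V x) (z := π.z) h2
      have h4 : 0 ≤ gq 2 d π V := rowN_nonneg _ _
      have h5 : 0 ≤ π.eta⁻¹ * ginf d π V := mul_nonneg (inv_nonneg.2 h2.le) (supN_nonneg _)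
      rw [abs_of_nonneg h4, abs_of_nonneg (Real.rpow_nonneg h5 _), ← Real.sqrt_eq_rpow]
      refine Real.le_sqrt_of_sq_le ?_
      refine h3.trans (le_of_eq ?_)
      rw [div_eq_inv_mul]
      rfl
  · exact mul_nonneg (inv_nonneg.2 (bp_par hl hπ).2.2.1.le) (supN_nonneg _)

/-- Start of the bootstrap. -/
private lemma bp_start {ν : Measure ℝ} {R s2 C : ℝ} {τ τ' : ℝ → ℝ} (hν : NiceLaw ν R s2 C τ τ')
    {d : ℕ} {lo hi lam0 e1 e2 A δ : ℝ} (hl : lam0 ≤ 1) (he1 : e1 ≤ A)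
    (hA' : Apr ν d (PS lo hi lam0 e1 e2) δ) :
    Dom ν d (PS lo hi lam0 e1 e2) (gq 4 d) (-((A + 3 * δ) / 4)) := by
  have hS := good_PS (lo := lo) (hi := hi) (e1 := e1) (e2 := e2) hl
  have h2 := (hA'.ginf.pow hν hS 2).mul hν hS ((bp_g2 hν hl he1 hA').pow hν hS 2)
  have h3 := h2.rpow hν hS (fun π hπ V => by positivity) (s := 1 / 4) (by norm_num)
  have h4 : Dom ν d (PS lo hi lam0 e1 e2) (gq 4 d)
      (1 / 4 * (((2 : ℕ) : ℝ) * -δ + ((2 : ℕ) : ℝ) * (1 / 2 * (-A + -δ)))) := by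
    refine h3.mono hν hS (fun π hπ => ?_) (fun π hπ V => ?_)
    · obtain ⟨h0, -, h2, -, -⟩ := bp_par hl hπ
      exact continuous_rowN 4 (continuous_Gr (RS_H0 d π.n) π.lam (z := π.z) h2.ne')
    · have h5 : 0 ≤ gq 4 d π V := rowN_nonneg _ _
      have h6 : 0 ≤ ginf d π V ^ 2 * gq 2 d π V ^ 2 := by positivity
      rw [abs_of_nonneg h5, abs_of_nonneg (Real.rpow_nonneg h6 _)]
      have h7 : gq 4 d π V ^ 4 ≤ ginf d π V ^ 2 * gq 2 d π V ^ 2 := rowN_four_le _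
      have h8 : gq 4 d π V = (gq 4 d π V ^ 4) ^ (1 / 4 : ℝ) := by
        rw [← Real.rpow_natCast, ← Real.rpow_mul h5]
        norm_num
      rw [h8]
      exact Real.rpow_le_rpow (by positivity) h7 (by norm_num)
  refine h4.weaken hν hS (le_of_eq ?_)
  push_cast
  ring

/-- One pass of the bootstrap. -/
private lemma bp_pass {ν : Measure ℝ} {R s2 C : ℝ} {τ τ' : ℝ → ℝ} (hν : NiceLaw ν R s2 C τ τ')
    {d : ℕ} {lo' hi' κ : ℝ} (hF : FreeB d lo' hi') (hκ1 : κ ≤ 1)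
    {lo hi lam0 e1 e2 A δ : ℝ}
    (hl : lam0 ≤ 1) (he1 : e1 ≤ A) (hA : A < 12 / 5) (hδ : 0 < δ)
    (hδ1 : 20 * δ ≤ 12 / 5 - A) (hδ2 : 30 * δ ≤ 1)
    (hA' : Apr ν d (PS lo hi lam0 e1 e2) δ)
    (hZ : Zok ν s2 d lo' hi' κ δ (PS lo hi lam0 e1 e2)) {y : ℝ} (hy : 0 ≤ y)
    (hy1 : y ≤ (A + 3 * δ) / 4)
    (h4 : Dom ν d (PS lo hi lam0 e1 e2) (gq 4 d) (-y)) :
    Dom ν d (PS lo hi lam0 e1 e2) (zst ν s2 d) (-y + δ) ∧
      Dom ν d (PS lo hi lam0 e1 e2) (gq 4 d) (-(max 0 (y - δ))) := by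
  have hS := good_PS (lo := lo) (hi := hi) (e1 := e1) (e2 := e2) hl
  have hZ1 : Zok ν s2 d lo' hi' 1 δ (PS lo hi lam0 e1 e2) :=
    ⟨hZ.re_lo, hZ.re_hi, hZ.im_lo, hZ.im_eta, fun π hπ => (hZ.im_hi π hπ).trans hκ1, hZ.gb_le⟩
  have hz := dom_zst hν hF hl he1 (by linarith) hδ (by linarith) hA' hZ1 hy h4
  have hz' : Dom ν d (PS lo hi lam0 e1 e2) (zst ν s2 d) (-y + δ) := by
    refine hz.weaken hν hS (le_min ?_ ?_)
    · linarith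
    · linarith
  refine ⟨hz', ?_⟩
  have hM := bp_M hν hF hκ1 hl (by linarith) hZ
  have hle1 : -(max 0 (y - δ)) ≤ 0 := neg_nonpos.2 (le_max_left _ _)
  have hle2 : -(max 0 (y - δ)) ≤ -y + δ := by
    have := le_max_right 0 (y - δ)
    linarith
  have hsum := (hM.weaken hν hS hle1).add hν hS (hz'.weaken hν hS hle2)
  refine hsum.mono hν hS (fun π hπ => h4.1 π hπ) (fun π hπ V => ?_)
  have e1 : 0 ≤ gq 4 d π V := rowN_nonneg _ _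
  have e2 : 0 ≤ rowN 4 (MM ν s2 d π.n π.lam π.z) := rowN_nonneg _ _
  have e3 : 0 ≤ zst ν s2 d π V := rowN_nonneg _ _
  rw [abs_of_nonneg e1, abs_of_nonneg (add_nonneg e2 e3)]
  have e4 := rowN_add_le (q := 4) (by norm_num) (MM ν s2 d π.n π.lam π.z)
    (GG d π.n π.lam π.z V - MM ν s2 d π.n π.lam π.z)
  rw [add_sub_cancel] at e4
  exact e4

/-- The end of the bootstrap: `g4 ≺ 1`. -/
private lemma bp_end {ν : Measure ℝ} {R s2 C : ℝ} {τ τ' : ℝ → ℝ} (hν : NiceLaw ν R s2 C τ τ')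
    {d : ℕ} {lo' hi' κ : ℝ} (hF : FreeB d lo' hi') (hκ1 : κ ≤ 1)
    {lo hi lam0 e1 e2 A δ : ℝ}
    (hl : lam0 ≤ 1) (he1 : e1 ≤ A) (hA : A < 12 / 5) (hA0 : 0 ≤ A) (hδ : 0 < δ)
    (hδ1 : 20 * δ ≤ 12 / 5 - A) (hδ2 : 30 * δ ≤ 1)
    (hA' : Apr ν d (PS lo hi lam0 e1 e2) δ)
    (hZ : Zok ν s2 d lo' hi' κ δ (PS lo hi lam0 e1 e2)) :
    Dom ν d (PS lo hi lam0 e1 e2) (gq 4 d) 0 := by
  have hS := good_PS (lo := lo) (hi := hi) (e1 := e1) (e2 := e2) hl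
  have key : ∀ k : ℕ, Dom ν d (PS lo hi lam0 e1 e2) (gq 4 d)
      (-(max 0 ((A + 3 * δ) / 4 - k * δ))) := by
    intro k
    induction k with
    | zero =>
      refine (bp_start hν hl he1 hA').weaken hν hS (neg_le_neg ?_)
      refine le_trans (le_of_eq ?_) (le_max_right _ _)
      push_cast
      ring
    | succ k ih =>
      have h1 : max 0 ((A + 3 * δ) / 4 - k * δ) ≤ (A + 3 * δ) / 4 := by
        refine max_le (by positivity) ?_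
        have : 0 ≤ (k : ℝ) * δ := by positivity
        linarith
      have h2 := (bp_pass hν hF hκ1 hl he1 hA hδ hδ1 hδ2 hA' hZ (le_max_left _ _) h1 ih).2
      refine h2.weaken hν hS (neg_le_neg ?_)
      refine max_le (le_max_left _ _) ?_
      rw [sub_le_iff_le_add]
      refine max_le ?_ ?_
      · have := le_max_left 0 ((A + 3 * δ) / 4 - ((k + 1 : ℕ) : ℝ) * δ)
        linarith
      · have := le_max_right 0 ((A + 3 * δ) / 4 - ((k + 1 : ℕ) : ℝ) * δ)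
        push_cast at this ⊢
        linarith
  obtain ⟨k, hk⟩ := exists_nat_ge ((A + 3 * δ) / 4 / δ)
  have h1 := key k
  rw [div_le_iff₀ hδ] at hk
  rw [max_eq_left (by linarith), neg_zero] at h1
  exact h1

theorem locL_of_apr {ν : Measure ℝ} {R s2 C : ℝ} {τ τ' : ℝ → ℝ} (hν : NiceLaw ν R s2 C τ τ')
    {d : ℕ} {lo' hi' κ : ℝ} (hF : FreeB d lo' hi') (hκ : 0 < κ) (hκ1 : κ ≤ 1)
    (hFκ : ∀ (ζ : ℂ) (n : ℕ), lo' ≤ ζ.re → ζ.re ≤ hi' → 0 < ζ.im → ζ.im ≤ κ →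
      ζ.im ^ (-(10 : ℝ)) ≤ 2 * n + 1 → ∀ x, κ ≤ (Gr (H0 d n) 0 ζ x x).im)
    {lo hi lam0 e1 e2 A δ : ℝ} (hl0 : 0 < lam0)
    (hl : lam0 ≤ 1) (he1 : e1 ≤ A) (hA : A < 12 / 5) (hA0 : 0 ≤ A) (hδ : 0 < δ)
    (hδ1 : 20 * δ ≤ 12 / 5 - A) (hδ2 : 30 * δ ≤ 1)
    (hA' : Apr ν d (PS lo hi lam0 e1 e2) δ)
    (hZ : Zok ν s2 d lo' hi' κ δ (PS lo hi lam0 e1 e2)) :
    ∃ lam1 : ℝ, 0 < lam1 ∧ lam1 ≤ lam0 ∧ LocL ν d (PS lo hi lam1 e1 e2) (κ / 2) := by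
  have := hν.prob
  have hS := good_PS (lo := lo) (hi := hi) (e1 := e1) (e2 := e2) hl
  have g4 := bp_end hν hF hκ1 hl he1 hA hA0 hδ hδ1 hδ2 hA' hZ
  have g4' : Dom ν d (PS lo hi lam0 e1 e2) (gq 4 d) (-0) := by rwa [neg_zero]
  have hz := (bp_pass hν hF hκ1 hl he1 hA hδ hδ1 hδ2 hA' hZ le_rfl (by positivity) g4').1
  have hx := dom_xst hν hl g4'
  -- the mean of `zst`
  obtain ⟨K, hK, hmean⟩ := hz.mean hν hS (ε := δ / 2) (by linarith)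
  -- the small parameter
  set l1 : ℝ := (κ / 2 / K) ^ (1 / (δ / 2)) with hl1
  have hl1p : 0 < l1 := Real.rpow_pos_of_pos (by positivity) _
  have hsub : PS lo hi (min lam0 l1) e1 e2 ⊆ PS lo hi lam0 e1 e2 := by
    intro π hπ
    obtain ⟨a1, a2, a3⟩ := hπ
    exact ⟨a1, a2.trans (min_le_left _ _), a3⟩
  refine ⟨min lam0 l1, lt_min hl0 hl1p, min_le_left _ _, ?_⟩
  refine ⟨?_, g4.subset hsub, ?_, ?_⟩
  · -- `ginf ≤ g4`
    refine Dom.subset hsub ?_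
    refine g4.mono hν hS (fun π hπ => hA'.ginf.1 π hπ) (fun π hπ V => ?_)
    have e1 : 0 ≤ ginf d π V := supN_nonneg _
    have e2 : 0 ≤ gq 4 d π V := rowN_nonneg _ _
    rw [abs_of_nonneg e1, abs_of_nonneg e2]
    exact supN_le e2 (fun x y => norm_le_rowN (by norm_num) _ x y)
  · refine Dom.subset hsub (hx.weaken hν hS (le_of_eq ?_))
    ring
  · intro π hπ
    have hπ0 := hsub hπ
    obtain ⟨h0, h1, h2, h3, h4⟩ := bp_par hl hπ0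
    obtain ⟨i0, i1, i2⟩ := bp_im hl (by linarith) hZ hπ0
    have hM := hFκ (zt ν s2 d π) π.n (hZ.re_lo π hπ0) (hZ.re_hi π hπ0) i0 (hZ.im_hi π hπ0) i2 0
    -- size of `lam`
    have hlam : K * π.lam ^ (-0 + δ - δ / 2) ≤ κ / 2 := by
      have e1 : π.lam ≤ l1 := hπ.2.1.trans (min_le_right _ _)
      have e2 : π.lam ^ (δ / 2) ≤ κ / 2 / K := by
        calc π.lam ^ (δ / 2) ≤ l1 ^ (δ / 2) := Real.rpow_le_rpow h0.le e1 (by linarith)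
          _ = κ / 2 / K := by
            rw [hl1, ← Real.rpow_mul (by positivity), one_div_mul_cancel (by linarith),
              Real.rpow_one]
      have e3 : -0 + δ - δ / 2 = δ / 2 := by ring
      rw [e3]
      rw [le_div_iff₀ hK] at e2
      linarith
    -- `|gb - M_00| ≤ E zst`
    have cG : Continuous (fun V : Tor d π.n → ℝ => GG d π.n π.lam π.z V 0 0) :=
      (continuous_Gr (X := Tor d π.n) (RS_H0 d π.n) π.lam (z := π.z) h2.ne').matrix_elem 0 0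
    have hdiff : ‖gb ν d π - Gr (H0 d π.n) 0 (zt ν s2 d π) 0 0‖ ≤
        Ex ν (fun V : Tor d π.n → ℝ => |zst ν s2 d π V|) := by
      have e1 : gb ν d π - Gr (H0 d π.n) 0 (zt ν s2 d π) 0 0 =
          Ex ν (fun V : Tor d π.n → ℝ => GG d π.n π.lam π.z V 0 0 -
            Gr (H0 d π.n) 0 (zt ν s2 d π) 0 0) := by
        unfold gb gbar Ex
        rw [integral_sub (integrable_cont hν cG) (integrable_const _), integral_const]
        simp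
      rw [e1]
      unfold Ex
      refine (norm_integral_le_integral_norm _).trans ?_
      refine integral_mono_of_nonneg (Filter.Eventually.of_forall fun V => norm_nonneg _) ?_
        (Filter.Eventually.of_forall fun V => ?_)
      · exact integrable_cont hν (hz.1 π hπ0).abs
      · have e2 := norm_le_rowN (q := 4) (by norm_num)
          (GG d π.n π.lam π.z V - MM ν s2 d π.n π.lam π.z) 0 0
        exact e2.trans (le_abs_self _)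
    have hfin := hdiff.trans ((hmean π hπ0).trans hlam)
    have him := (abs_le.1 ((Complex.abs_im_le_norm _).trans hfin)).1
    rw [Complex.sub_im] at him
    linarith

end Pool.Agent.BK
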