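import Pool.Agent.BK.Res3

/-! BK module TORB: the torus Laplacian and symmetries of the law.

`H0 d n` is real symmetric; `‖H0 c‖ ≤ 4 d ‖c‖`; `H0` is invariant under translations and under
reflections of coordinates; so `G(V)_{x+t, y+t} = G(V(·+t))_{xy}` and `G(V)_{σx, σy} = G(V∘σ)_{xy}`,
and the product measure is invariant under permutations of the sites
(`MeasureTheory.measurePreserving_piCongrLeft` or `Measure.pi_map_...`). Hence
`E f(G_{x+t,y+t})` does not depend on `t` and `E G_xx = gbar`. -/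

open MeasureTheory Finset Matrix

noncomputable section

namespace Pool.Agent.BK

variable {d n : ℕ}

lemma torb_symm (x y : Tor d n) : H0 d n x y = H0 d n y x := by
  unfold H0
  have h1 : (if x = y then 2 * (d : ℂ) else 0) = if y = x then 2 * (d : ℂ) else 0 := by
    simp only [eq_comm]
  rw [h1]
  congr 1
  refine Finset.sum_congr rfl fun j _ => ?_
  have h2 : (y = x + Pi.single j 1) ↔ (x = y - Pi.single j 1) := by
    rw [eq_sub_iff_add_eq, eq_comm]
  have h3 : (y = x - Pi.single j 1) ↔ (x = y + Pi.single j 1) := by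
    rw [eq_sub_iff_add_eq, eq_comm]
  simp only [h2, h3]
  rw [add_comm]

lemma torb_star (x y : Tor d n) : star (H0 d n x y) = H0 d n x y := by
  unfold H0
  change starRingEnd ℂ _ = _
  rw [map_sub, map_sum]
  congr 1
  · split_ifs
    · rw [map_mul, Complex.conj_natCast]
      congr 1
      exact Complex.conj_ofNat 2
    · exact map_zero _
  · refine Finset.sum_congr rfl fun j _ => ?_
    rw [map_add]
    congr 1 <;> split_ifs <;> simp

lemma RS_H0 (d n : ℕ) : RS (H0 d n) where
  herm := by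
    ext x y
    rw [Matrix.conjTranspose_apply, torb_star, torb_symm]
  symm := by
    ext x y
    rw [Matrix.transpose_apply, torb_symm]

lemma torb_mulVec (c : Tor d n → ℂ) :
    H0 d n *ᵥ c = (2 * (d : ℂ)) • c -
      ∑ j : Fin d, ((fun x => c (x + Pi.single j 1)) + fun x => c (x - Pi.single j 1)) := by
  funext x
  rw [Matrix.mulVec, dotProduct, Pi.sub_apply, Finset.sum_apply]
  simp only [H0, sub_mul, Finset.sum_sub_distrib, Finset.sum_mul, add_mul, ite_mul, one_mul,
    zero_mul, Pi.smul_apply, smul_eq_mul, Pi.add_apply]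
  congr 1
  · rw [Finset.sum_ite_eq, if_pos (Finset.mem_univ _)]
  · rw [Finset.sum_comm]
    refine Finset.sum_congr rfl fun j _ => ?_
    rw [Finset.sum_add_distrib, Finset.sum_ite_eq', Finset.sum_ite_eq',
      if_pos (Finset.mem_univ _), if_pos (Finset.mem_univ _)]

lemma torb_nsq_comp (e : Tor d n ≃ Tor d n) (c : Tor d n → ℂ) :
    nsq (fun x => c (e x)) = nsq c := by
  unfold nsq
  exact Equiv.sum_comp e fun x => ‖c x‖ ^ 2

lemma torb_zero : √(nsq (0 : Tor d n → ℂ)) = 0 := by
  have h : nsq (0 : Tor d n → ℂ) = 0 := by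
    unfold nsq
    refine Finset.sum_eq_zero fun x _ => ?_
    rw [Pi.zero_apply, norm_zero]
    norm_num
  rw [h, Real.sqrt_zero]

lemma torb_sum {ι : Type} (s : Finset ι) (f : ι → Tor d n → ℂ) :
    √(nsq (∑ j ∈ s, f j)) ≤ ∑ j ∈ s, √(nsq (f j)) := by
  classical
  induction s using Finset.induction_on with
  | empty => rw [Finset.sum_empty, Finset.sum_empty, torb_zero]
  | insert a s ha ih =>
    rw [Finset.sum_insert ha, Finset.sum_insert ha]
    exact (res2_add _ _).trans (add_le_add le_rfl ih)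

lemma torb_neg (c : Tor d n → ℂ) : nsq (-c) = nsq c := by
  unfold nsq
  refine Finset.sum_congr rfl fun x _ => ?_
  rw [Pi.neg_apply, norm_neg]

lemma nsq_H0_le (c : Tor d n → ℂ) : nsq (H0 d n *ᵥ c) ≤ (4 * d) ^ 2 * nsq c := by
  have h0 : 0 ≤ nsq c := res1_nsq_nonneg c
  have h1 : √(nsq (H0 d n *ᵥ c)) ≤ 4 * d * √(nsq c) := by
    rw [torb_mulVec, sub_eq_add_neg]
    refine (res2_add _ _).trans ?_
    rw [torb_neg, res2_smul]
    have h2 : ‖(2 * (d : ℂ))‖ = 2 * d := by
      rw [norm_mul, Complex.norm_natCast, Complex.norm_ofNat]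
    have h4 : ∀ j ∈ (Finset.univ : Finset (Fin d)),
        √(nsq ((fun x : Tor d n => c (x + Pi.single j 1)) +
          fun x : Tor d n => c (x - Pi.single j 1))) ≤ 2 * √(nsq c) := by
      intro j _
      refine (res2_add _ _).trans (le_of_eq ?_)
      have e1 : nsq (fun x : Tor d n => c (x + Pi.single j 1)) = nsq c :=
        torb_nsq_comp (Equiv.addRight (Pi.single j 1 : Tor d n)) c
      have e2 : nsq (fun x : Tor d n => c (x - Pi.single j 1)) = nsq c :=
        torb_nsq_comp (Equiv.subRight (Pi.single j 1 : Tor d n)) c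
      rw [e1, e2]
      exact (two_mul _).symm
    have h3 := (torb_sum Finset.univ (fun j : Fin d =>
      ((fun x : Tor d n => c (x + Pi.single j 1)) +
        fun x : Tor d n => c (x - Pi.single j 1)))).trans (Finset.sum_le_sum h4)
    rw [Finset.sum_const, Finset.card_univ, Fintype.card_fin, nsmul_eq_mul] at h3
    rw [h2]
    linarith
  have h2 := pow_le_pow_left₀ (Real.sqrt_nonneg _) h1 2
  rw [Real.sq_sqrt (res1_nsq_nonneg _), mul_pow, Real.sq_sqrt h0] at h2
  exact h2

lemma H0_add (t x y : Tor d n) : H0 d n (x + t) (y + t) = H0 d n x y := by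
  unfold H0
  simp only [add_left_inj]
  congr 1
  refine Finset.sum_congr rfl fun j _ => ?_
  have h1 : (y + t = x + t + Pi.single j 1) ↔ (y = x + Pi.single j 1) := by
    rw [add_right_comm, add_left_inj]
  have h2 : (y + t = x + t - Pi.single j 1) ↔ (y = x - Pi.single j 1) := by
    rw [add_sub_right_comm, add_left_inj]
  simp only [h1, h2]

/-- Reflection of the coordinates with sign `-1`. -/
def rfl' (σ : Fin d → ℤˣ) (x : Tor d n) : Tor d n := fun l => (σ l : ℤ) • x l

lemma rfl'_rfl' (σ : Fin d → ℤˣ) (x : Tor d n) : rfl' σ (rfl' σ x) = x := by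
  funext l
  unfold rfl'
  rw [smul_smul]
  have h : ((σ l : ℤ) * (σ l : ℤ)) = 1 := by
    have h1 := Int.units_mul_self (σ l)
    rw [← Units.val_mul, h1, Units.val_one]
  rw [h, one_smul]

lemma torb_rfl_add (σ : Fin d → ℤˣ) (x y : Tor d n) : rfl' σ (x + y) = rfl' σ x + rfl' σ y := by
  funext l
  unfold rfl'
  rw [Pi.add_apply, Pi.add_apply, smul_add]

lemma torb_rfl_inj (σ : Fin d → ℤˣ) {x y : Tor d n} : rfl' σ x = rfl' σ y ↔ x = y :=
  ⟨fun h => by rw [← rfl'_rfl' σ x, h, rfl'_rfl'], fun h => by rw [h]⟩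

lemma torb_rfl_single (σ : Fin d → ℤˣ) (j : Fin d) :
    rfl' σ (Pi.single j 1 : Tor d n) = Pi.single j 1 ∨
      rfl' σ (Pi.single j 1 : Tor d n) = - Pi.single j 1 := by
  rcases Int.units_eq_one_or (σ j) with h | h
  · left
    funext l
    unfold rfl'
    by_cases hl : l = j
    · subst hl
      rw [h]
      simp
    · rw [Pi.single_eq_of_ne hl, smul_zero]
  · right
    funext l
    unfold rfl'
    by_cases hl : l = j
    · subst hl
      rw [h]
      simp
    · rw [Pi.single_eq_of_ne hl, smul_zero, Pi.neg_apply, Pi.single_eq_of_ne hl, neg_zero]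

lemma torb_rfl_iff (σ : Fin d → ℤˣ) (x y e : Tor d n) :
    rfl' σ y = rfl' σ x + e ↔ y = x + rfl' σ e := by
  rw [← torb_rfl_inj σ, torb_rfl_add, rfl'_rfl', rfl'_rfl']

lemma H0_rfl' (σ : Fin d → ℤˣ) (x y : Tor d n) : H0 d n (rfl' σ x) (rfl' σ y) = H0 d n x y := by
  unfold H0
  simp only [torb_rfl_inj]
  congr 1
  refine Finset.sum_congr rfl fun j _ => ?_
  have h1 : (rfl' σ y = rfl' σ x + Pi.single j 1) ↔ (y = x + rfl' σ (Pi.single j 1)) :=
    torb_rfl_iff σ x y _
  have h2 : (rfl' σ y = rfl' σ x - Pi.single j 1) ↔ (y = x - rfl' σ (Pi.single j 1)) := by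
    rw [sub_eq_add_neg, torb_rfl_iff, sub_eq_add_neg]
    have : rfl' σ (- (Pi.single j 1 : Tor d n)) = - rfl' σ (Pi.single j 1) := by
      funext l
      unfold rfl'
      rw [Pi.neg_apply, Pi.neg_apply, smul_neg]
    rw [this]
  simp only [h1, h2]
  rcases torb_rfl_single (n := n) σ j with h | h
  · rw [h]
  · rw [h, sub_neg_eq_add, ← sub_eq_add_neg, add_comm]

lemma torb_Gr_equiv {X : Type} [Fintype X] [DecidableEq X] {H : Matrix X X ℂ} (e : X ≃ X)
    (hH : ∀ x y, H (e x) (e y) = H x y) (v : X → ℝ) (z : ℂ) (x y : X) :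
    Gr H v z (e x) (e y) = Gr H (fun u => v (e u)) z x y := by
  unfold Gr
  have h1 : H + Matrix.diagonal (fun u => ((v (e u) : ℝ) : ℂ)) - z • (1 : Matrix X X ℂ) =
      (H + Matrix.diagonal (fun u => (v u : ℂ)) - z • (1 : Matrix X X ℂ)).submatrix e e := by
    ext i j
    simp only [Matrix.sub_apply, Matrix.add_apply, Matrix.smul_apply, Matrix.submatrix_apply,
      Matrix.diagonal_apply, Matrix.one_apply, e.injective.eq_iff, hH]
  rw [h1, Matrix.inv_submatrix_equiv]
  rfl

lemma GG_add (lam : ℝ) (z : ℂ) (V : Tor d n → ℝ) (t x y : Tor d n) :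
    GG d n lam z V (x + t) (y + t) = GG d n lam z (fun u => V (u + t)) x y :=
  torb_Gr_equiv (Equiv.addRight t) (fun x y => H0_add t x y) (fun x => lam * V x) z x y

/-- The reflection as a permutation. -/
def torb_refl (σ : Fin d → ℤˣ) : Tor d n ≃ Tor d n :=
  ⟨rfl' σ, rfl' σ, rfl'_rfl' σ, rfl'_rfl' σ⟩

lemma GG_rfl' (lam : ℝ) (z : ℂ) (V : Tor d n → ℝ) (σ : Fin d → ℤˣ) (x y : Tor d n) :
    GG d n lam z V (rfl' σ x) (rfl' σ y) = GG d n lam z (fun u => V (rfl' σ u)) x y :=
  torb_Gr_equiv (torb_refl σ) (fun x y => H0_rfl' σ x y) (fun x => lam * V x) z x y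

/-- The expectation is invariant under permutations of the sites. -/
lemma Ex_perm {X : Type} [Fintype X] [DecidableEq X] {E : Type} [NormedAddCommGroup E]
    [NormedSpace ℝ E] (ν : Measure ℝ) [IsProbabilityMeasure ν] (e : X ≃ X) (F : (X → ℝ) → E) :
    Ex ν (fun V => F (fun x => V (e x))) = Ex ν F := by
  unfold Ex
  have h := measurePreserving_piCongrLeft (fun _ : X => ν) e.symm
  have h1 : ∀ V : X → ℝ, MeasurableEquiv.piCongrLeft (fun _ : X => ℝ) e.symm V
      = fun x => V (e x) := by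
    intro V
    funext x
    have h2 := MeasurableEquiv.piCongrLeft_apply_apply (β := fun _ : X => ℝ) e.symm V (e x)
    rwa [e.symm_apply_apply] at h2
  have h3 := h.integral_comp' F
  simp only [h1] at h3
  exact h3

/-- `E G_xx = gbar`. -/
lemma Ex_diag (ν : Measure ℝ) [IsProbabilityMeasure ν] (lam : ℝ) (z : ℂ) (x : Tor d n) :
    Ex ν (fun V : Tor d n → ℝ => GG d n lam z V x x) = gbar ν d n lam z := by
  unfold gbar
  rw [← Ex_perm ν (Equiv.addRight x) (fun V : Tor d n → ℝ => GG d n lam z V 0 0)]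
  congr 1
  funext V
  have h := GG_add lam z V x 0 0
  rw [zero_add] at h
  exact h

/-- Translation invariance of the free resolvent. -/
lemma Gr0_add (ζ : ℂ) (t x y : Tor d n) :
    Gr (H0 d n) 0 ζ (x + t) (y + t) = Gr (H0 d n) 0 ζ x y :=
  torb_Gr_equiv (Equiv.addRight t) (fun x y => H0_add t x y) 0 ζ x y

/-- `Im gbar > 0` and `|Im ...|`: `Im ζ ≥ Im z`. -/
lemma im_gbar_pos {ν : Measure ℝ} {R s2 C : ℝ} {τ τ' : ℝ → ℝ} (hν : NiceLaw ν R s2 C τ τ')
    (lam : ℝ) {z : ℂ} (hz : 0 < z.im) : 0 < (gbar ν d n lam z).im := by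
  have := hν.prob
  unfold gbar Ex
  have hc : Continuous fun V : Tor d n → ℝ => GG d n lam z V 0 0 :=
    (continuous_Gr (RS_H0 d n) lam hz.ne').matrix_elem 0 0
  have hi : Integrable (fun V : Tor d n → ℝ => GG d n lam z V 0 0)
      (Measure.pi fun _ : Tor d n => ν) :=
    Integrable.of_bound hc.aestronglyMeasurable (1 / z.im)
      (ae_of_all _ fun V => norm_Gr_le (RS_H0 d n) _ hz 0 0)
  have h1 := Complex.imCLM.integral_comp_comm hi
  change (∫ V, (GG d n lam z V 0 0).im ∂(Measure.pi fun _ : Tor d n => ν)) = _ at h1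
  change 0 < Complex.imCLM (∫ V, GG d n lam z V 0 0 ∂(Measure.pi fun _ : Tor d n => ν))
  rw [← h1]
  have hpos : ∀ V : Tor d n → ℝ, 0 < (GG d n lam z V 0 0).im := fun V =>
    im_Gr_pos (RS_H0 d n) _ hz 0
  rw [integral_pos_iff_support_of_nonneg (fun V => (hpos V).le) (Complex.imCLM.integrable_comp hi)]
  have h2 : Function.support (fun V : Tor d n → ℝ => (GG d n lam z V 0 0).im) = Set.univ :=
    Set.eq_univ_of_forall fun V => (hpos V).ne'
  rw [h2, measure_univ]
  exact one_pos

end Pool.Agent.BK
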