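import Pool.Agent.BK.BDefs
import Pool.Agent.BK.TorB

/-! BK module BSA: a priori input at the top scale and the step between scales.
Top scale: `ginf ≤ 1/η ≤ lam^(-2δ)` (deterministic, `norm_Gr_le`), and
`Im gb = E Im G_00 ≥ η / B²` with `B = 4d + R + |lo| + |hi| + 1` for potentials with `|V| ≤ R`
(`im_Gr_lower`, `nsq_H0_le`; only almost every `V` matters, `ae_mem_box`), so `Im gb ≥ lam^(3δ)` for
small `lam`: `Apr` with exponent `3δ`.
Step: for `π` in the new set let `π'` have `η' = η lam^(-δ)`; then `π'` is in the old set,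
`ginf π ≤ lam^(-δ) ginf π'` (`supN_up`) and `Im gb π ≥ (lam^δ/4) Im gb π' ≥ lam^(3δ)` (`im_down`, small
`lam`). The law and the probability space of `π` and `π'` are the same (`π'.n = π.n`). -/

open MeasureTheory Finset Matrix

noncomputable section

namespace Pool.Agent.BK

lemma bsa_nsq_nonneg {X : Type} [Fintype X] (c : X → ℂ) : 0 ≤ nsq c :=
  Finset.sum_nonneg fun _ _ => sq_nonneg _

lemma bsa_sqrt_nsq {X : Type} [Fintype X] (c : X → ℂ) :
    √(nsq c) = ‖(WithLp.toLp 2 c : EuclideanSpace ℂ X)‖ := by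
  rw [EuclideanSpace.norm_eq]
  rfl

/-- Triangle inequality for the square root of `nsq`, with explicit bounds. -/
lemma bsa_nsq_three {X : Type} [Fintype X] {a b c w : X → ℂ} {A B C : ℝ} (hA : 0 ≤ A)
    (hB : 0 ≤ B) (hC : 0 ≤ C) (ha : nsq a ≤ A ^ 2 * nsq w) (hb : nsq b ≤ B ^ 2 * nsq w)
    (hc : nsq c ≤ C ^ 2 * nsq w) : nsq (a + b - c) ≤ (A + B + C) ^ 2 * nsq w := by
  have hw := bsa_nsq_nonneg w
  have h1 : ∀ {e : X → ℂ} {K : ℝ}, 0 ≤ K → nsq e ≤ K ^ 2 * nsq w → √(nsq e) ≤ K * √(nsq w) := by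
    intro e K hK he
    calc √(nsq e) ≤ √(K ^ 2 * nsq w) := Real.sqrt_le_sqrt he
      _ = K * √(nsq w) := by
        rw [Real.sqrt_mul (sq_nonneg K), Real.sqrt_sq hK]
  have h2 : √(nsq (a + b - c)) ≤ (A + B + C) * √(nsq w) := by
    have e1 := h1 hA ha
    have e2 := h1 hB hb
    have e3 := h1 hC hc
    rw [bsa_sqrt_nsq] at e1 e2 e3
    rw [bsa_sqrt_nsq]
    have : (WithLp.toLp 2 (a + b - c) : EuclideanSpace ℂ X) =
        WithLp.toLp 2 a + WithLp.toLp 2 b - WithLp.toLp 2 c := rfl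
    rw [this]
    calc _ ≤ ‖(WithLp.toLp 2 a : EuclideanSpace ℂ X) + WithLp.toLp 2 b‖ +
          ‖(WithLp.toLp 2 c : EuclideanSpace ℂ X)‖ := norm_sub_le _ _
      _ ≤ ‖(WithLp.toLp 2 a : EuclideanSpace ℂ X)‖ + ‖(WithLp.toLp 2 b : EuclideanSpace ℂ X)‖ +
          ‖(WithLp.toLp 2 c : EuclideanSpace ℂ X)‖ := by gcongr; exact norm_add_le _ _
      _ ≤ _ := by linarith
  have h3 : 0 ≤ √(nsq (a + b - c)) := Real.sqrt_nonneg _
  calc nsq (a + b - c) = √(nsq (a + b - c)) ^ 2 := (Real.sq_sqrt (bsa_nsq_nonneg _)).symm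
    _ ≤ ((A + B + C) * √(nsq w)) ^ 2 := by gcongr
    _ = (A + B + C) ^ 2 * nsq w := by rw [mul_pow, Real.sq_sqrt hw]

/-- Bound of `H0 + lam V - z`. -/
lemma bsa_op_bound {d n : ℕ} {R lam Z : ℝ} {z : ℂ} (hR : 0 ≤ R) (hl0 : 0 ≤ lam) (hl1 : lam ≤ 1)
    (hz : ‖z‖ ≤ Z) (V : Tor d n → ℝ) (hV : ∀ x, V x ∈ Set.Icc (-R) R) (c : Tor d n → ℂ) :
    nsq ((H0 d n + Matrix.diagonal (fun x => ((lam * V x : ℝ) : ℂ)) -
      z • (1 : Matrix (Tor d n) (Tor d n) ℂ)) *ᵥ c) ≤ (4 * d + R + Z) ^ 2 * nsq c := by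
  rw [Matrix.sub_mulVec, Matrix.add_mulVec]
  refine bsa_nsq_three (by positivity) hR ((norm_nonneg z).trans hz) (nsq_H0_le c) ?_ ?_
  · unfold nsq
    rw [Finset.mul_sum]
    refine Finset.sum_le_sum fun x _ => ?_
    rw [Matrix.mulVec_diagonal, norm_mul, mul_pow]
    have h1 : ‖((lam * V x : ℝ) : ℂ)‖ ≤ R := by
      rw [Complex.norm_real, Real.norm_eq_abs, abs_mul, abs_of_nonneg hl0]
      have := abs_le.2 (hV x)
      calc lam * |V x| ≤ 1 * R := by gcongr
        _ = R := one_mul R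
    gcongr
  · unfold nsq
    rw [Finset.mul_sum]
    refine Finset.sum_le_sum fun x _ => ?_
    rw [Matrix.smul_mulVec, Matrix.one_mulVec, Pi.smul_apply, smul_eq_mul, norm_mul, mul_pow]
    gcongr

lemma bsa_Ex_im {X : Type} [Fintype X] [DecidableEq X] {ν : Measure ℝ} {R s2 C : ℝ}
    {τ τ' : ℝ → ℝ} (hν : NiceLaw ν R s2 C τ τ') {F : (X → ℝ) → ℂ} (hF : Continuous F) :
    (Ex ν F).im = Ex ν (fun V => (F V).im) := by
  unfold Ex
  exact (Complex.imCLM.integral_comp_comm (integrable_cont hν hF)).symm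

lemma bsa_cont_GG {d n : ℕ} (lam : ℝ) {z : ℂ} (hz : z.im ≠ 0) :
    Continuous fun V : Tor d n → ℝ => GG d n lam z V :=
  continuous_Gr (RS_H0 d n) lam hz

lemma bsa_cont_GG00 {d n : ℕ} (lam : ℝ) {z : ℂ} (hz : z.im ≠ 0) :
    Continuous fun V : Tor d n → ℝ => GG d n lam z V 0 0 :=
  (continuous_apply_apply 0 0).comp (bsa_cont_GG lam hz)

lemma bsa_cont_ginf {d : ℕ} (π : Par) (h : π.eta ≠ 0) : Continuous (ginf d π) :=
  continuous_supN (bsa_cont_GG π.lam (z := π.z) h)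

lemma bsa_gb_im {ν : Measure ℝ} {R s2 C : ℝ} {τ τ' : ℝ → ℝ} (hν : NiceLaw ν R s2 C τ τ')
    (d : ℕ) (π : Par) (h : π.eta ≠ 0) :
    (gb ν d π).im = Ex ν (fun V : Tor d π.n → ℝ => (GG d π.n π.lam π.z V 0 0).im) :=
  bsa_Ex_im hν (bsa_cont_GG00 π.lam (z := π.z) h)

lemma bsa_eta_pos {lo hi lam0 e1 e2 : ℝ} {π : Par} (h : π ∈ PS lo hi lam0 e1 e2) :
    0 < π.eta :=
  lt_of_lt_of_le (Real.rpow_pos_of_pos h.1 _) h.2.2.2.2.2.2.1

theorem apr_top {ν : Measure ℝ} {R s2 C : ℝ} {τ τ' : ℝ → ℝ} (hν : NiceLaw ν R s2 C τ τ')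
    (d : ℕ) {lo hi δ : ℝ} (hδ : 0 < δ) (hδ1 : δ ≤ 1) :
    ∃ lam0 : ℝ, 0 < lam0 ∧ lam0 ≤ 1 ∧ Apr ν d (PS lo hi lam0 (2 * δ) δ) (3 * δ) := by
  have := hν.prob
  have hR := hν.R_pos
  have hlo0 : 0 ≤ |lo| := abs_nonneg lo
  have hhi0 : 0 ≤ |hi| := abs_nonneg hi
  set B : ℝ := 4 * d + R + (|lo| + |hi| + 1) with hBdef
  have hB1 : 1 ≤ B := by
    have : (0 : ℝ) ≤ d := Nat.cast_nonneg d
    rw [hBdef]; linarith
  have hB : 0 < B := by linarith
  have hBi : 0 < 1 / B ^ 2 := by positivity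
  have hBi1 : 1 / B ^ 2 ≤ 1 := by
    rw [div_le_one (by positivity)]
    nlinarith
  refine ⟨(1 / B ^ 2) ^ (1 / δ), Real.rpow_pos_of_pos hBi _,
    Real.rpow_le_one hBi.le hBi1 (by positivity), ?_⟩
  set lam0 : ℝ := (1 / B ^ 2) ^ (1 / δ) with hlam0
  have hl1 : lam0 ≤ 1 := Real.rpow_le_one hBi.le hBi1 (by positivity)
  have hlB : lam0 ^ δ = 1 / B ^ 2 := by
    rw [hlam0, ← Real.rpow_mul hBi.le, one_div_mul_cancel hδ.ne', Real.rpow_one]
  refine ⟨?_, ?_⟩
  · refine Dom.det hν (good_PS hl1) (fun π hπ => bsa_cont_ginf π (bsa_eta_pos hπ).ne') 1 ?_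
    intro π hπ V
    have he := bsa_eta_pos hπ
    have hl : 0 < π.lam := hπ.1
    have hll : π.lam ≤ 1 := hπ.2.1.trans hl1
    rw [one_mul]
    have hab : |ginf d π V| = supN (GG d π.n π.lam π.z V) := abs_of_nonneg (supN_nonneg _)
    rw [hab]
    refine supN_le (by positivity) fun x y => ?_
    calc ‖GG d π.n π.lam π.z V x y‖ ≤ 1 / π.z.im :=
          norm_Gr_le (RS_H0 d π.n) _ (z := π.z) he x y
      _ = 1 / π.eta := rfl
      _ ≤ 1 / π.lam ^ (2 * δ) := by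
          have := hπ.2.2.2.2.2.2.1
          have h3 : 0 < π.lam ^ (2 * δ) := Real.rpow_pos_of_pos hl _
          exact one_div_le_one_div_of_le h3 this
      _ = π.lam ^ (-(2 * δ)) := by rw [Real.rpow_neg hl.le, one_div]
      _ ≤ π.lam ^ (-(3 * δ)) :=
          Real.rpow_le_rpow_of_exponent_ge hl hll (by linarith)
  · intro π hπ
    have he := bsa_eta_pos hπ
    have hl : 0 < π.lam := hπ.1
    have hll : π.lam ≤ 1 := hπ.2.1.trans hl1
    have hE : |π.E| ≤ |lo| + |hi| := by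
      rw [abs_le]
      have h1 := hπ.2.2.2.2.1
      have h2 := hπ.2.2.2.2.2.1
      have h3 := neg_abs_le lo
      have h4 := le_abs_self hi
      constructor <;> linarith
    have he1 : π.eta ≤ 1 :=
      hπ.2.2.2.2.2.2.2.trans (Real.rpow_le_one hl.le hll hδ.le)
    have hz3 : ‖π.z‖ ≤ |lo| + |hi| + 1 := by
      refine (Complex.norm_le_abs_re_add_abs_im _).trans ?_
      show |π.E| + |π.eta| ≤ |lo| + |hi| + 1
      rw [abs_of_nonneg he.le]
      linarith
    rw [bsa_gb_im hν d π he.ne']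
    have hc : π.lam ^ (3 * δ) ≤ π.eta / B ^ 2 := by
      have h1 : π.lam ^ δ ≤ 1 / B ^ 2 := by
        rw [← hlB]; exact Real.rpow_le_rpow hl.le hπ.2.1 hδ.le
      have h2 := hπ.2.2.2.2.2.2.1
      calc π.lam ^ (3 * δ) = π.lam ^ (2 * δ) * π.lam ^ δ := by
            rw [← Real.rpow_add hl]; congr 1; ring
        _ ≤ π.eta * (1 / B ^ 2) := by
            gcongr
        _ = π.eta / B ^ 2 := by ring
    refine hc.trans ?_
    have hconst : π.eta / B ^ 2 = ∫ _V : Tor d π.n → ℝ, π.eta / B ^ 2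
        ∂(Measure.pi fun _ : Tor d π.n => ν) := by
      rw [integral_const]
      simp
    rw [hconst]
    unfold Ex
    refine integral_mono_ae (integrable_const _) ?_ ?_
    · exact integrable_cont hν (Complex.continuous_im.comp
        (bsa_cont_GG00 π.lam (z := π.z) he.ne'))
    · filter_upwards [ae_mem_box (X := Tor d π.n) hν] with V hV
      have := im_Gr_lower (RS_H0 d π.n) (fun x => π.lam * V x) (z := π.z) he hB
        (fun c => bsa_op_bound hR.le hl.le hll hz3 V hV c) 0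
      exact this

theorem apr_step {ν : Measure ℝ} {R s2 C : ℝ} {τ τ' : ℝ → ℝ} (hν : NiceLaw ν R s2 C τ τ')
    {d : ℕ} {lo hi δ κ lam0 : ℝ} (hδ : 0 < δ) (hκ : 0 < κ) (hl0 : 0 < lam0) (hl : lam0 ≤ 1)
    {j : ℕ} (h : LocL ν d (PS lo hi lam0 ((j + 1) * δ) (j * δ)) κ) :
    ∃ lam1 : ℝ, 0 < lam1 ∧ lam1 ≤ lam0 ∧
      Apr ν d (PS lo hi lam1 ((j + 2) * δ) ((j + 1) * δ)) (3 * δ) := by
  have := hν.prob
  have hκ4 : 0 < κ / 4 := by positivity
  set lam1 : ℝ := min lam0 ((κ / 4) ^ (1 / (2 * δ))) with hlam1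
  have hp1 : 0 < lam1 := lt_min hl0 (Real.rpow_pos_of_pos hκ4 _)
  have h10 : lam1 ≤ lam0 := min_le_left _ _
  have h11 : lam1 ≤ 1 := h10.trans hl
  refine ⟨lam1, hp1, h10, ?_⟩
  -- the parameter with the larger height
  let up : Par → Par := fun π => ⟨π.lam, π.n, π.E, π.eta * π.lam ^ (-δ)⟩
  have hup : ∀ π ∈ PS lo hi lam1 ((j + 2) * δ) ((j + 1) * δ),
      up π ∈ PS lo hi lam0 ((j + 1) * δ) (j * δ) := by
    intro π hπ
    have hl := hπ.1
    refine ⟨hl, hπ.2.1.trans h10, hπ.2.2.1, hπ.2.2.2.1, hπ.2.2.2.2.1, hπ.2.2.2.2.2.1, ?_, ?_⟩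
    · show π.lam ^ ((j + 1) * δ) ≤ π.eta * π.lam ^ (-δ)
      have h1 : π.lam ^ ((j + 1) * δ) = π.lam ^ ((j + 2) * δ) * π.lam ^ (-δ) := by
        rw [← Real.rpow_add hl]; congr 1; ring
      rw [h1]
      have := hπ.2.2.2.2.2.2.1
      gcongr
    · show π.eta * π.lam ^ (-δ) ≤ π.lam ^ (j * δ)
      have h1 : π.lam ^ (j * δ) = π.lam ^ ((j + 1) * δ) * π.lam ^ (-δ) := by
        rw [← Real.rpow_add hl]; congr 1; ring
      rw [h1]
      have := hπ.2.2.2.2.2.2.2
      gcongr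
  have hratio : ∀ π ∈ PS lo hi lam1 ((j + 2) * δ) ((j + 1) * δ),
      π.eta ≤ π.eta * π.lam ^ (-δ) := by
    intro π hπ
    have he := bsa_eta_pos hπ
    have hl := hπ.1
    have : 1 ≤ π.lam ^ (-δ) :=
      Real.one_le_rpow_of_pos_of_le_one_of_nonpos hl (hπ.2.1.trans h11) (by linarith)
    nlinarith
  have hginf : ∀ π ∈ PS lo hi lam1 ((j + 2) * δ) ((j + 1) * δ), ∀ V : Tor d π.n → ℝ,
      ginf d π V ≤ π.lam ^ (-δ) * ginf d (up π) V := by
    intro π hπ V
    have he := bsa_eta_pos hπ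
    have := supN_up (RS_H0 d π.n) (fun x => π.lam * V x) (z' := π.z) (z := (up π).z) rfl he
      (hratio π hπ)
    refine this.trans (le_of_eq ?_)
    have e1 : (up π).z.im / π.z.im = π.lam ^ (-δ) := by
      show π.eta * π.lam ^ (-δ) / π.eta = π.lam ^ (-δ)
      field_simp
    rw [e1]
    rfl
  refine ⟨⟨fun π hπ => bsa_cont_ginf π (bsa_eta_pos hπ).ne', ?_⟩, ?_⟩
  · intro p ε hε
    obtain ⟨K, hK⟩ := h.ginf.2 p ε hε
    refine ⟨K, fun π hπ => ?_⟩
    have hlp := hπ.1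
    have hl1 := hπ.2.1.trans h11
    have hK' := hK (up π) (hup π hπ)
    have hKn : 0 ≤ K * π.lam ^ ((p : ℝ) * 0 - ε) := by
      refine le_trans ?_ hK'
      exact integral_nonneg fun V => by positivity
    have hK0 : 0 ≤ K := by
      have : 0 < π.lam ^ ((p : ℝ) * 0 - ε) := Real.rpow_pos_of_pos hlp _
      exact nonneg_of_mul_nonneg_left hKn this
    have hcup : Continuous (ginf d (up π)) := bsa_cont_ginf (up π) (bsa_eta_pos (hup π hπ)).ne'
    have hcπ : Continuous (ginf d π) := bsa_cont_ginf π (bsa_eta_pos hπ).ne'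
    calc Ex ν (fun V : Tor d π.n → ℝ => |ginf d π V| ^ p)
        ≤ Ex ν (fun V : Tor d π.n → ℝ => (π.lam ^ (-δ)) ^ p * |ginf d (up π) V| ^ p) := by
          refine Ex_mono hν (by fun_prop) ?_ fun V => ?_
          · exact continuous_const.mul ((continuous_abs.comp hcup).pow p)
          · rw [← mul_pow]
            have h0 : 0 ≤ ginf d π V := supN_nonneg _
            have h0' : 0 ≤ ginf d (up π) V := supN_nonneg _
            rw [abs_of_nonneg h0, abs_of_nonneg h0']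
            exact pow_le_pow_left₀ h0 (hginf π hπ V) p
      _ = (π.lam ^ (-δ)) ^ p * Ex ν (fun V : Tor d π.n → ℝ => |ginf d (up π) V| ^ p) := by
          unfold Ex
          exact integral_const_mul _ _
      _ ≤ (π.lam ^ (-δ)) ^ p * (K * π.lam ^ ((p : ℝ) * 0 - ε)) := by
          gcongr
      _ = K * π.lam ^ ((p : ℝ) * (-δ) - ε) := by
          rw [← Real.rpow_natCast, ← Real.rpow_mul hlp.le, mul_left_comm, ← Real.rpow_add hlp]
          congr 2
          ring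
      _ ≤ K * π.lam ^ ((p : ℝ) * (-(3 * δ)) - ε) := by
          gcongr ?_ * ?_
          refine Real.rpow_le_rpow_of_exponent_ge hlp hl1 ?_
          have : (0 : ℝ) ≤ p * δ := by positivity
          linarith
  · intro π hπ
    have hlp := hπ.1
    have hl1 := hπ.2.1.trans h11
    have he := bsa_eta_pos hπ
    have heu := bsa_eta_pos (hup π hπ)
    have him := h.im (up π) (hup π hπ)
    rw [bsa_gb_im hν d (up π) heu.ne'] at him
    rw [bsa_gb_im hν d π he.ne']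
    have h1 : π.lam ^ (2 * δ) ≤ κ / 4 := by
      have : π.lam ≤ (κ / 4) ^ (1 / (2 * δ)) := hπ.2.1.trans (min_le_right _ _)
      calc π.lam ^ (2 * δ) ≤ ((κ / 4) ^ (1 / (2 * δ))) ^ (2 * δ) :=
            Real.rpow_le_rpow hlp.le this (by positivity)
        _ = κ / 4 := by
            rw [← Real.rpow_mul hκ4.le, one_div_mul_cancel (by positivity), Real.rpow_one]
    calc π.lam ^ (3 * δ) = π.lam ^ δ * π.lam ^ (2 * δ) := by
          rw [← Real.rpow_add hlp]; congr 1; ring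
      _ ≤ π.lam ^ δ * (κ / 4) := by gcongr
      _ = π.lam ^ δ / 4 * κ := by ring
      _ ≤ π.lam ^ δ / 4 * Ex ν (fun V : Tor d π.n → ℝ =>
            (GG d π.n π.lam (up π).z V 0 0).im) := by
          gcongr
      _ = Ex ν (fun V : Tor d π.n → ℝ => π.lam ^ δ / 4 *
            (GG d π.n π.lam (up π).z V 0 0).im) := by
          unfold Ex
          exact (integral_const_mul _ _).symm
      _ ≤ Ex ν (fun V : Tor d π.n → ℝ => (GG d π.n π.lam π.z V 0 0).im) := by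
          refine Ex_mono hν ?_ ?_ fun V => ?_
          · exact continuous_const.mul (Complex.continuous_im.comp
              (bsa_cont_GG00 π.lam (z := (up π).z) heu.ne'))
          · exact Complex.continuous_im.comp (bsa_cont_GG00 π.lam (z := π.z) he.ne')
          · have := im_down (RS_H0 d π.n) (fun x => π.lam * V x) (z' := π.z) (z := (up π).z) rfl he
              (hratio π hπ) 0
            refine le_trans (le_of_eq ?_) this
            have e1 : π.z.im / (4 * (up π).z.im) = π.lam ^ δ / 4 := by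
              show π.eta / (4 * (π.eta * π.lam ^ (-δ))) = π.lam ^ δ / 4
              rw [Real.rpow_neg hlp.le]
              have : π.lam ^ δ ≠ 0 := (Real.rpow_pos_of_pos hlp _).ne'
              field_simp
            rw [e1]
            rfl

end Pool.Agent.BK
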