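import Pool.Agent.BK.BDefs
import Pool.Agent.BK.TorB

/-! BK module BZ: consequences of the a priori input for `ζ = z + lam² s2 gbar` (for small `lam`).
`|gbar| ≤ E ginf ≤ K lam^(-δ-δ/2)` (`Dom.mean`), so `≤ lam^(-2δ)` for small `lam` and
`|ζ - z| ≤ s2 lam^(2-2δ)` is small; `Im ζ = η + lam² s2 Im gbar ≥ η, ≥ s2 lam^(2+δ) ≥ lam^(2+2δ)`,
`Im ζ ≤ lam^e2 + s2 lam^(2-2δ) ≤ κ`. -/

open MeasureTheory Finset Matrix

noncomputable section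

namespace Pool.Agent.BK

private lemma bz_small {a c : ℝ} (ha : 0 < a) (hc : 0 < c) :
    ∃ l1 : ℝ, 0 < l1 ∧ ∀ l : ℝ, 0 < l → l ≤ l1 → l ^ a ≤ c := by
  refine ⟨c ^ (1 / a), Real.rpow_pos_of_pos hc _, fun l h0 h1 => ?_⟩
  calc l ^ a ≤ (c ^ (1 / a)) ^ a := Real.rpow_le_rpow h0.le h1 ha.le
    _ = c := by rw [← Real.rpow_mul hc.le, one_div_mul_cancel ha.ne', Real.rpow_one]

/-- `|E G_00| ≤ E sup |G|`. -/
private lemma bz_gb_le {ν : Measure ℝ} {R s2 C : ℝ} {τ τ' : ℝ → ℝ} (hν : NiceLaw ν R s2 C τ τ')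
    {d : ℕ} {π : Par} (hc : Continuous (ginf d π)) :
    ‖gb ν d π‖ ≤ Ex ν (fun V : Tor d π.n → ℝ => |ginf d π V|) := by
  unfold gb gbar Ex
  refine (norm_integral_le_integral_norm _).trans ?_
  refine integral_mono_of_nonneg (Filter.Eventually.of_forall fun V => norm_nonneg _) ?_
    (Filter.Eventually.of_forall fun V => ?_)
  · exact integrable_cont hν (hc.abs)
  · exact (norm_le_supN _ _ _).trans (le_abs_self _)

theorem zok_of_apr {ν : Measure ℝ} {R s2 C : ℝ} {τ τ' : ℝ → ℝ} (hν : NiceLaw ν R s2 C τ τ')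
    {d : ℕ} {lo hi lo' hi' lam0 e1 e2 δ κ : ℝ} (hl0 : 0 < lam0) (hl : lam0 ≤ 1) (he1 : e1 ≤ 3)
    (he2 : 0 < e2) (hδ : 0 < δ) (hδ1 : δ ≤ 1 / 2) (hlo : lo' < lo) (hhi : hi < hi') (hκ : 0 < κ)
    (h : Apr ν d (PS lo hi lam0 e1 e2) δ) :
    ∃ lam1 : ℝ, 0 < lam1 ∧ lam1 ≤ lam0 ∧ Zok ν s2 d lo' hi' κ δ (PS lo hi lam1 e1 e2) := by
  obtain ⟨K, hK, hmean⟩ := h.ginf.mean hν (good_PS hl) (ε := δ / 2) (by linarith)
  have hs2 := hν.s2_pos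
  obtain ⟨a1, ha1, h1⟩ := bz_small (a := δ / 2) (c := 1 / K) (by linarith) (by positivity)
  obtain ⟨a2, ha2, h2⟩ := bz_small (a := 1) (c := (lo - lo') / s2) one_pos
    (div_pos (by linarith) hs2)
  obtain ⟨a3, ha3, h3⟩ := bz_small (a := 1) (c := (hi' - hi) / s2) one_pos
    (div_pos (by linarith) hs2)
  obtain ⟨a4, ha4, h4⟩ := bz_small (a := 1) (c := (κ / 2) / s2) one_pos
    (div_pos (by linarith) hs2)
  obtain ⟨a5, ha5, h5⟩ := bz_small (a := e2) (c := κ / 2) he2 (by linarith)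
  obtain ⟨a6, ha6, h6⟩ := bz_small (a := δ) (c := s2) hδ hs2
  refine ⟨min lam0 (min a1 (min a2 (min a3 (min a4 (min a5 a6))))), by positivity,
    min_le_left _ _, ?_⟩
  have key : ∀ π ∈ PS lo hi (min lam0 (min a1 (min a2 (min a3 (min a4 (min a5 a6)))))) e1 e2,
      (0 < π.lam ∧ π.lam ≤ 1) ∧ (lo ≤ π.E ∧ π.E ≤ hi) ∧ ‖gb ν d π‖ ≤ π.lam ^ (-(2 * δ)) ∧
      π.lam ^ δ ≤ (gb ν d π).im ∧ (s2 * π.lam ≤ lo - lo' ∧ s2 * π.lam ≤ hi' - hi ∧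
        s2 * π.lam ≤ κ / 2) ∧ π.eta ≤ κ / 2 ∧ π.lam ^ δ ≤ s2 := by
    intro π hπ
    obtain ⟨hp0, hp1, hn1, hn2, hE1, hE2, het1, het2⟩ := hπ
    simp only [le_min_iff] at hp1
    obtain ⟨q0, q1, q2, q3, q4, q5, q6⟩ := hp1
    have hmem : π ∈ PS lo hi lam0 e1 e2 := ⟨hp0, q0, hn1, hn2, hE1, hE2, het1, het2⟩
    have hle1 : π.lam ≤ 1 := q0.trans hl
    have t2 := h2 π.lam hp0 q2
    have t3 := h3 π.lam hp0 q3
    have t4 := h4 π.lam hp0 q4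
    rw [Real.rpow_one, le_div_iff₀ hs2] at t2 t3 t4
    refine ⟨⟨hp0, hle1⟩, ⟨hE1, hE2⟩, ?_, h.im π hmem, ⟨by linarith, by linarith, by linarith⟩,
      het2.trans (h5 π.lam hp0 q5), h6 π.lam hp0 q6⟩
    refine (bz_gb_le hν (h.ginf.1 π hmem)).trans ((hmean π hmem).trans ?_)
    have e1 : π.lam ^ (-δ - δ / 2) = π.lam ^ (δ / 2) * π.lam ^ (-(2 * δ)) := by
      rw [← Real.rpow_add hp0]
      congr 1
      ring
    have hp : 0 < π.lam ^ (-(2 * δ)) := Real.rpow_pos_of_pos hp0 _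
    have h1' := h1 π.lam hp0 q1
    rw [le_div_iff₀ hK] at h1'
    rw [e1]
    calc K * (π.lam ^ (δ / 2) * π.lam ^ (-(2 * δ)))
        = (π.lam ^ (δ / 2) * K) * π.lam ^ (-(2 * δ)) := by ring
      _ ≤ 1 * π.lam ^ (-(2 * δ)) := by gcongr
      _ = π.lam ^ (-(2 * δ)) := one_mul _
  -- size of the shift
  have shift : ∀ π ∈ PS lo hi (min lam0 (min a1 (min a2 (min a3 (min a4 (min a5 a6)))))) e1 e2,
      π.lam ^ 2 * s2 * ‖gb ν d π‖ ≤ s2 * π.lam := by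
    intro π hπ
    obtain ⟨⟨hp0, hp1⟩, -, hg, -⟩ := key π hπ
    have e1 : π.lam ^ 2 * π.lam ^ (-(2 * δ)) ≤ π.lam := by
      rw [← Real.rpow_natCast π.lam 2, ← Real.rpow_add hp0]
      calc π.lam ^ (((2 : ℕ) : ℝ) + -(2 * δ)) ≤ π.lam ^ (1 : ℝ) :=
            Real.rpow_le_rpow_of_exponent_ge hp0 hp1 (by push_cast; linarith)
        _ = π.lam := Real.rpow_one _
    calc π.lam ^ 2 * s2 * ‖gb ν d π‖ ≤ π.lam ^ 2 * s2 * π.lam ^ (-(2 * δ)) := by gcongr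
      _ = s2 * (π.lam ^ 2 * π.lam ^ (-(2 * δ))) := by ring
      _ ≤ s2 * π.lam := by gcongr
  have hre : ∀ π : Par, (zt ν s2 d π).re = π.E + π.lam ^ 2 * s2 * (gb ν d π).re := by
    intro π
    have : zt ν s2 d π = π.z + ((π.lam ^ 2 * s2 : ℝ) : ℂ) * gb ν d π := rfl
    rw [this, Complex.add_re, Complex.re_ofReal_mul]
    rfl
  have him : ∀ π : Par, (zt ν s2 d π).im = π.eta + π.lam ^ 2 * s2 * (gb ν d π).im := by
    intro π
    have : zt ν s2 d π = π.z + ((π.lam ^ 2 * s2 : ℝ) : ℂ) * gb ν d π := rfl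
    rw [this, Complex.add_im, Complex.im_ofReal_mul]
    rfl
  constructor
  · intro π hπ
    obtain ⟨⟨hp0, hp1⟩, ⟨hE1, hE2⟩, hg, hi', ⟨k1, k2, k3⟩, k4, k5⟩ := key π hπ
    have sh := shift π hπ
    have hr := (abs_le.1 (Complex.abs_re_le_norm (gb ν d π))).1
    have : -(π.lam ^ 2 * s2 * ‖gb ν d π‖) ≤ π.lam ^ 2 * s2 * (gb ν d π).re := by
      rw [← mul_neg]
      exact mul_le_mul_of_nonneg_left hr (by positivity)
    rw [hre]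
    linarith
  · intro π hπ
    obtain ⟨⟨hp0, hp1⟩, ⟨hE1, hE2⟩, hg, hi', ⟨k1, k2, k3⟩, k4, k5⟩ := key π hπ
    have sh := shift π hπ
    have hr := (abs_le.1 (Complex.abs_re_le_norm (gb ν d π))).2
    have : π.lam ^ 2 * s2 * (gb ν d π).re ≤ π.lam ^ 2 * s2 * ‖gb ν d π‖ :=
      mul_le_mul_of_nonneg_left hr (by positivity)
    rw [hre]
    linarith
  · intro π hπ
    obtain ⟨⟨hp0, hp1⟩, ⟨hE1, hE2⟩, hg, hi', ⟨k1, k2, k3⟩, k4, k5⟩ := key π hπ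
    have heta : 0 < π.eta := lt_of_lt_of_le (Real.rpow_pos_of_pos hp0 _) hπ.2.2.2.2.2.2.1
    rw [him]
    have e1 : π.lam ^ (2 + 2 * δ) = π.lam ^ 2 * π.lam ^ δ * π.lam ^ δ := by
      rw [← Real.rpow_natCast π.lam 2, ← Real.rpow_add hp0, ← Real.rpow_add hp0]
      congr 1
      push_cast
      ring
    have hp : 0 ≤ π.lam ^ δ := (Real.rpow_pos_of_pos hp0 _).le
    have : π.lam ^ (2 + 2 * δ) ≤ π.lam ^ 2 * s2 * (gb ν d π).im := by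
      rw [e1]
      gcongr
    linarith
  · intro π hπ
    obtain ⟨⟨hp0, hp1⟩, ⟨hE1, hE2⟩, hg, hi', ⟨k1, k2, k3⟩, k4, k5⟩ := key π hπ
    rw [him]
    have : 0 ≤ (gb ν d π).im := (Real.rpow_pos_of_pos hp0 _).le.trans hi'
    have : 0 ≤ π.lam ^ 2 * s2 * (gb ν d π).im := by positivity
    linarith
  · intro π hπ
    obtain ⟨⟨hp0, hp1⟩, ⟨hE1, hE2⟩, hg, hi', ⟨k1, k2, k3⟩, k4, k5⟩ := key π hπ
    have sh := shift π hπ
    have hr := (abs_le.1 (Complex.abs_im_le_norm (gb ν d π))).2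
    have : π.lam ^ 2 * s2 * (gb ν d π).im ≤ π.lam ^ 2 * s2 * ‖gb ν d π‖ :=
      mul_le_mul_of_nonneg_left hr (by positivity)
    rw [him]
    linarith
  · intro π hπ
    exact (key π hπ).2.2.1

end Pool.Agent.BK
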