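import Pool.Agent.BK.BP
import Pool.Agent.BK.BZ
import Pool.Agent.BK.BSa

/-! BK module BS: induction over scales, the local law at `lam^A`, `A < 12/5`.
Scale `j` (`1 ≤ j ≤ J`): `S_j = PS lo hi lam0 ((j+1)δ) (jδ)`, `δ = A/(J+1)`, `J` so large that
`3δ ≤ 1/20`, `20·3δ ≤ 12/5 - A`, `30·3δ ≤ 1`. Claim: for each `1 ≤ j ≤ J` there is `lam0 > 0` with
`Apr` (exponent `3δ`) and `LocL` (`κ/2`, `κ` from `FreeB.fb34`) and `Zok` (with `κ`, `3δ`) on `S_j`.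
`j = 1`: `apr_top`; `Apr` gives `Zok` (`zok_of_apr`) and `LocL` (`locL_of_apr`, `e1 = (j+1)δ ≤ A`); step:
`apr_step`. At `j = J`: `e1 = A`, `e2 = A - δ`. (Restricting to smaller `lam0` is harmless:
`PS lo hi lam1 e1 e2 ⊆ PS lo hi lam0 e1 e2`.) -/

open MeasureTheory Finset Matrix

noncomputable section

namespace Pool.Agent.BK

lemma BS_PS_mono {lo hi lam0 lam1 e1 e2 : ℝ} (h : lam1 ≤ lam0) :
    PS lo hi lam1 e1 e2 ⊆ PS lo hi lam0 e1 e2 := by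
  rintro π ⟨h1, h2, h3, h4, h5, h6, h7, h8⟩
  exact ⟨h1, h2.trans h, h3, h4, h5, h6, h7, h8⟩

lemma BS_Dom_mono {ν : Measure ℝ} {d : ℕ} {S T : Set Par}
    {F : (π : Par) → (Tor d π.n → ℝ) → ℝ} {a : ℝ} (hST : T ⊆ S) (h : Dom ν d S F a) :
    Dom ν d T F a := by
  refine ⟨fun π hπ => h.1 π (hST hπ), fun p ε hε => ?_⟩
  obtain ⟨C, hC⟩ := h.2 p ε hε
  exact ⟨C, fun π hπ => hC π (hST hπ)⟩

lemma BS_Apr_mono {ν : Measure ℝ} {d : ℕ} {S T : Set Par} {δ : ℝ} (hST : T ⊆ S)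
    (h : Apr ν d S δ) : Apr ν d T δ :=
  ⟨BS_Dom_mono hST h.ginf, fun π hπ => h.im π (hST hπ)⟩

lemma BS_LocL_mono {ν : Measure ℝ} {d : ℕ} {S T : Set Par} {κ : ℝ} (hST : T ⊆ S)
    (h : LocL ν d S κ) : LocL ν d T κ :=
  ⟨BS_Dom_mono hST h.ginf, BS_Dom_mono hST h.g4, BS_Dom_mono hST h.xst,
    fun π hπ => h.im π (hST hπ)⟩

lemma BS_Zok_mono {ν : Measure ℝ} {s2 : ℝ} {d : ℕ} {lo hi κ δ : ℝ} {S T : Set Par}
    (hST : T ⊆ S) (h : Zok ν s2 d lo hi κ δ S) : Zok ν s2 d lo hi κ δ T :=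
  ⟨fun π hπ => h.re_lo π (hST hπ), fun π hπ => h.re_hi π (hST hπ),
    fun π hπ => h.im_lo π (hST hπ), fun π hπ => h.im_eta π (hST hπ),
    fun π hπ => h.im_hi π (hST hπ), fun π hπ => h.gb_le π (hST hπ)⟩

/-- Weakening of the constants in `Zok` (here `lam ≤ 1`). -/
lemma BS_Zok_weaken {ν : Measure ℝ} {s2 : ℝ} {d : ℕ} {lo hi κ κ' δ δ' : ℝ} {S : Set Par}
    (hS : ∀ π ∈ S, 0 < π.lam ∧ π.lam ≤ 1) (hκ : κ ≤ κ') (hδ : δ ≤ δ')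
    (h : Zok ν s2 d lo hi κ δ S) : Zok ν s2 d lo hi κ' δ' S := by
  refine ⟨h.re_lo, h.re_hi, fun π hπ => ?_, h.im_eta, fun π hπ => (h.im_hi π hπ).trans hκ,
    fun π hπ => ?_⟩
  · refine le_trans ?_ (h.im_lo π hπ)
    exact Real.rpow_le_rpow_of_exponent_ge (hS π hπ).1 (hS π hπ).2 (by linarith)
  · refine (h.gb_le π hπ).trans ?_
    exact Real.rpow_le_rpow_of_exponent_ge (hS π hπ).1 (hS π hπ).2 (by linarith)

/-- From the a priori input to `Apr ∧ Zok ∧ LocL` on a smaller set. -/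
lemma BS_scale {ν : Measure ℝ} {R s2 C : ℝ} {τ τ' : ℝ → ℝ} (hν : NiceLaw ν R s2 C τ τ')
    {d : ℕ} {lo' hi' κ : ℝ} (hF : FreeB d lo' hi') (hκ : 0 < κ) (hκ1 : κ ≤ 1)
    (hFκ : ∀ (ζ : ℂ) (n : ℕ), lo' ≤ ζ.re → ζ.re ≤ hi' → 0 < ζ.im → ζ.im ≤ κ →
      ζ.im ^ (-(10 : ℝ)) ≤ 2 * n + 1 → ∀ x, κ ≤ (Gr (H0 d n) 0 ζ x x).im)
    {lo hi lam0 e1 e2 A δ : ℝ} (hlo : lo' < lo) (hhi : hi < hi') (hl0 : 0 < lam0)
    (hl : lam0 ≤ 1) (he1 : e1 ≤ A) (he2 : 0 < e2) (hA : A < 12 / 5) (hA0 : 0 ≤ A) (hδ : 0 < δ)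
    (hδ1 : 20 * δ ≤ 12 / 5 - A) (hδ2 : 30 * δ ≤ 1)
    (h : Apr ν d (PS lo hi lam0 e1 e2) δ) :
    ∃ lam1 : ℝ, 0 < lam1 ∧ lam1 ≤ 1 ∧ Zok ν s2 d lo' hi' κ δ (PS lo hi lam1 e1 e2) ∧
      LocL ν d (PS lo hi lam1 e1 e2) (κ / 2) := by
  obtain ⟨lam1, h1, h2, hZ⟩ := zok_of_apr (lo' := lo') (hi' := hi') (κ := κ) hν hl0 hl
    (by linarith) he2 hδ (by linarith) hlo hhi hκ h
  obtain ⟨lam2, h3, h4, hL⟩ := locL_of_apr (lo' := lo') (hi' := hi') (κ := κ) hν hF hκ hκ1 hFκ h1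
    (h2.trans hl) he1 hA hA0 hδ hδ1 hδ2 (BS_Apr_mono (BS_PS_mono h2) h) hZ
  exact ⟨lam2, h3, h4.trans (h2.trans hl), BS_Zok_mono (BS_PS_mono h4) hZ, hL⟩

/-- The local law at height `lam^A`, `A < 12/5`. -/
theorem local_law {ν : Measure ℝ} {R s2 C : ℝ} {τ τ' : ℝ → ℝ} (hν : NiceLaw ν R s2 C τ τ')
    {d : ℕ} {lo' hi' lo hi : ℝ} (hF : FreeB d lo' hi') (hlo : lo' < lo)
    (hhi : hi < hi') {A : ℝ} (hA2 : 2 < A) (hA : A < 12 / 5) :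
    ∃ κ lam0 e2 : ℝ, 0 < κ ∧ 0 < lam0 ∧ lam0 ≤ 1 ∧ 0 < e2 ∧ e2 < A ∧
      LocL ν d (PS lo hi lam0 A e2) κ ∧ Zok ν s2 d lo' hi' 1 (1 / 20) (PS lo hi lam0 A e2) := by
  obtain ⟨κ, hκ, hκ1, hfb⟩ := hF.fb34
  have hFκ : ∀ (ζ : ℂ) (n : ℕ), lo' ≤ ζ.re → ζ.re ≤ hi' → 0 < ζ.im → ζ.im ≤ κ →
      ζ.im ^ (-(10 : ℝ)) ≤ 2 * n + 1 → ∀ x, κ ≤ (Gr (H0 d n) 0 ζ x x).im :=
    fun ζ n h1 h2 h3 h4 h5 => (hfb ζ n h1 h2 h3 h4 h5).1
  -- the number of scales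
  obtain ⟨J, hJ⟩ := exists_nat_gt (300 / (12 / 5 - A))
  have hg : 0 < 12 / 5 - A := by linarith
  have hJ0 : 0 < (J : ℝ) := lt_trans (by positivity) hJ
  have hJ1 : 1 ≤ J := by exact_mod_cast hJ0
  have hJm : 300 < J * (12 / 5 - A) := by rwa [div_lt_iff₀ hg] at hJ
  obtain ⟨δ, hδdef⟩ : ∃ δ : ℝ, δ = A / (J + 1) := ⟨_, rfl⟩
  have hJδ : ((J : ℝ) + 1) * δ = A := by
    rw [hδdef]; field_simp
  have hδ : 0 < δ := by rw [hδdef]; positivity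
  have hδ1 : 20 * (3 * δ) ≤ 12 / 5 - A := by
    have : 60 * δ * (J + 1) ≤ (12 / 5 - A) * (J + 1) := by
      have e1 : 60 * δ * (J + 1) = 60 * A := by rw [← hJδ]; ring
      rw [e1]; nlinarith
    have h2 := le_of_mul_le_mul_right this (by positivity)
    linarith
  have hg1 : 12 / 5 - A < 2 / 5 := by linarith
  have hJ750 : 750 < (J : ℝ) := by nlinarith
  have hδ2 : 30 * (3 * δ) ≤ 1 := by
    have : 90 * δ * (J + 1) ≤ 1 * (J + 1) := by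
      have e1 : 90 * δ * (J + 1) = 90 * A := by rw [← hJδ]; ring
      rw [e1]; nlinarith
    have h2 := le_of_mul_le_mul_right this (by positivity)
    linarith
  have hA0 : 0 ≤ A := by linarith
  -- induction
  have key : ∀ j : ℕ, 1 ≤ j → j ≤ J → ∃ lam0 : ℝ, 0 < lam0 ∧ lam0 ≤ 1 ∧
      Zok ν s2 d lo' hi' κ (3 * δ) (PS lo hi lam0 ((j + 1) * δ) (j * δ)) ∧
      LocL ν d (PS lo hi lam0 ((j + 1) * δ) (j * δ)) (κ / 2) := by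
    intro j hj
    induction j, hj using Nat.le_induction with
    | base =>
      intro _
      obtain ⟨lam0, h0, h1, hApr⟩ := apr_top hν d hδ (by linarith)
      have e1 : (((1 : ℕ) : ℝ) + 1) * δ = 2 * δ := by push_cast; ring
      have e2 : ((1 : ℕ) : ℝ) * δ = δ := by push_cast; ring
      rw [e1, e2]
      refine BS_scale (A := A) hν hF hκ hκ1 hFκ hlo hhi h0 h1 ?_ hδ hA hA0 (by positivity) hδ1 hδ2
        hApr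
      rw [← hJδ]
      nlinarith
    | succ j hj ih =>
      intro hjJ
      obtain ⟨lam0, h0, h1, -, hL⟩ := ih (by omega)
      obtain ⟨lam1, h2, h3, hApr⟩ := apr_step hν hδ (half_pos hκ) h0 h1 hL
      have e1 : (((j + 1 : ℕ) : ℝ) + 1) * δ = (j + 2) * δ := by push_cast; ring
      have e2 : ((j + 1 : ℕ) : ℝ) * δ = (j + 1) * δ := by push_cast; ring
      rw [e1, e2]
      refine BS_scale (A := A) hν hF hκ hκ1 hFκ hlo hhi h2 (h3.trans h1) ?_ (by positivity) hA hA0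
        (by positivity) hδ1 hδ2 hApr
      rw [← hJδ]
      have : ((j : ℝ) + 1) ≤ J := by exact_mod_cast hjJ
      nlinarith
  obtain ⟨lam0, h0, h1, hZ, hL⟩ := key J hJ1 le_rfl
  rw [hJδ] at hZ hL
  refine ⟨κ / 2, lam0, J * δ, half_pos hκ, h0, h1, by positivity, ?_, hL, ?_⟩
  · rw [← hJδ]; linarith
  · refine BS_Zok_weaken ?_ hκ1 (by linarith) hZ
    rintro π ⟨h1', h2', -⟩
    exact ⟨h1', h2'.trans h1⟩

end Pool.Agent.BK
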