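import Pool.Agent.BK.BX

/-! BK module BW: `Z* = sup_w ‖(G - M)e_w‖_4` from `g4 ≺ lam^(-y)`.

Exponents (`A ≥ e1`): `rowN 2 G ≺ lam^(-(A+δ)/2)` (`rowN_two_Gr`, `η ≥ lam^A`, `ginf ≺ lam^(-δ)`);
`m3 ≤ K lam^(-ε')` and `m24 ≤ K lam^(-(1+δ)-ε')` for every `ε' > 0` from `FreeB.fb12` with
`lam^(2+2δ) ≤ Im ζ`, `lam^3 ≤ η ≤ Im ζ` (so `(Im ζ)^(-10) ≤ lam^(-30) ≤ 2n+1`), and
`log (2n+1) ≤ 43 log(1/lam) ≤ K lam^(-ε')`; `lam ‖gb‖ ≤ 1`;
`xst ≺ lam^(1-2y)` (`dom_xst`). In `wlemma` with `P = q+2`: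
`A1 ≺ lam^(2 - 5(A+δ)/6 - 4y/3)`, `A2 ≺ lam^(2 - (1+δ) - (A+δ)/2 + (1 - 2y - 3δ))`
`= lam^(2 - A/2 - 9δ/2 - 2y)` (`lam‖gb‖ ginf ≺ lam^(1-3δ)`), hence
`E (Z_w)^(4P) = E W^P ≤ K (lam^(2P a1 - ε) + lam^(4P a2 - ε))`, uniformly in `w`; `Dom.iSup`.
(Rows and columns agree since `G - M` is symmetric.) -/

open MeasureTheory Finset Matrix

noncomputable section

namespace Pool.Agent.BK

private lemma bw_par {lo hi lam0 e1 e2 : ℝ} (hl : lam0 ≤ 1) {π : Par}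
    (hπ : π ∈ PS lo hi lam0 e1 e2) :
    0 < π.lam ∧ π.lam ≤ 1 ∧ 0 < π.eta ∧ π.lam ^ e1 ≤ π.eta ∧
      π.lam ^ (-(40 : ℝ)) ≤ 2 * (π.n : ℝ) + 1 ∧ 2 * (π.n : ℝ) + 1 ≤ π.lam ^ (-(43 : ℝ)) := by
  obtain ⟨h0, h1, h2, h3, -, -, h4, -⟩ := hπ
  exact ⟨h0, h1.trans hl, (Real.rpow_pos_of_pos h0 _).trans_le h4, h4, h2, h3⟩

/-- `Im ζ ≥ lam^(2+2δ)`, so negative powers of `Im ζ` are bounded, and `(Im ζ)^(-10) ≤ 2n+1`. -/
private lemma bw_im {ν : Measure ℝ} {s2 : ℝ} {d : ℕ} {lo' hi' : ℝ}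
    {lo hi lam0 e1 e2 δ : ℝ} (hl : lam0 ≤ 1) (hδ1 : δ ≤ 1 / 10)
    (hZ : Zok ν s2 d lo' hi' 1 δ (PS lo hi lam0 e1 e2)) {π : Par}
    (hπ : π ∈ PS lo hi lam0 e1 e2) : 0 < (zt ν s2 d π).im ∧
      (∀ s : ℝ, 0 ≤ s → (zt ν s2 d π).im ^ (-s) ≤ π.lam ^ (-((2 + 2 * δ) * s))) ∧
      (zt ν s2 d π).im ^ (-(10 : ℝ)) ≤ 2 * (π.n : ℝ) + 1 := by
  obtain ⟨h0, h1, h2, h3, h4, h5⟩ := bw_par hl hπ
  have hlow := hZ.im_lo π hπ
  have hp : 0 < π.lam ^ (2 + 2 * δ) := Real.rpow_pos_of_pos h0 _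
  have key : ∀ s : ℝ, 0 ≤ s → (zt ν s2 d π).im ^ (-s) ≤ π.lam ^ (-((2 + 2 * δ) * s)) := by
    intro s hs
    have := Real.rpow_le_rpow_of_nonpos hp hlow (neg_nonpos.2 hs)
    rw [← Real.rpow_mul h0.le] at this
    refine this.trans (le_of_eq ?_)
    congr 1
    ring
  refine ⟨hp.trans_le hlow, key, (key 10 (by norm_num)).trans (le_trans ?_ h4)⟩
  exact Real.rpow_le_rpow_of_exponent_ge h0 h1 (by linarith)

private lemma bw_m3 {ν : Measure ℝ} {s2 : ℝ} {d : ℕ} {lo' hi' : ℝ} (hF : FreeB d lo' hi')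
    {lo hi lam0 e1 e2 δ : ℝ} (hl : lam0 ≤ 1) (hδ1 : δ ≤ 1 / 10)
    (hZ : Zok ν s2 d lo' hi' 1 δ (PS lo hi lam0 e1 e2)) {ε : ℝ} (hε : 0 < ε) :
    ∃ K : ℝ, 1 ≤ K ∧ ∀ π ∈ PS lo hi lam0 e1 e2, ∀ x,
      ∑ y, ‖Gr (H0 d π.n) 0 (zt ν s2 d π) x y‖ ^ 3 ≤ (K * π.lam ^ (-ε)) ^ 3 := by
  obtain ⟨Cf, hCf, h⟩ := hF.fb12 ε hε
  refine ⟨max 1 Cf, le_max_left _ _, fun π hπ x => ?_⟩
  obtain ⟨h0, h1, h2, h3, h4, h5⟩ := bw_par hl hπ
  obtain ⟨i0, i1, i2⟩ := bw_im hl hδ1 hZ hπ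
  refine ((h (zt ν s2 d π) π.n (hZ.re_lo π hπ) (hZ.re_hi π hπ) i0 (hZ.im_hi π hπ) i2).1 x).trans ?_
  rw [mul_pow]
  have hK : Cf ≤ (max 1 Cf) ^ 3 :=
    (le_max_right _ _).trans (le_self_pow₀ (le_max_left _ _) (by norm_num))
  have hp : (zt ν s2 d π).im ^ (-ε) ≤ (π.lam ^ (-ε)) ^ 3 := by
    refine (i1 ε hε.le).trans ?_
    rw [← Real.rpow_natCast, ← Real.rpow_mul h0.le]
    refine Real.rpow_le_rpow_of_exponent_ge h0 h1 ?_
    push_cast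
    nlinarith
  exact mul_le_mul hK hp (Real.rpow_nonneg i0.le _) (by positivity)

private lemma bw_m24 {ν : Measure ℝ} {s2 : ℝ} {d : ℕ} {lo' hi' : ℝ} (hF : FreeB d lo' hi')
    {lo hi lam0 e1 e2 δ : ℝ} (hl : lam0 ≤ 1) (hδ1 : δ ≤ 1 / 10)
    (hZ : Zok ν s2 d lo' hi' 1 δ (PS lo hi lam0 e1 e2)) {ε : ℝ} (hε : 0 < ε) :
    ∃ K : ℝ, 1 ≤ K ∧ ∀ π ∈ PS lo hi lam0 e1 e2, ∀ c : Tor d π.n → ℂ,
      ∑ y, ‖(Gr (H0 d π.n) 0 (zt ν s2 d π) *ᵥ c) y‖ ^ 4 ≤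
        (K * π.lam ^ (-(1 + δ) - ε)) ^ 4 * nsq c ^ 2 := by
  obtain ⟨Cf, hCf, h⟩ := hF.fb12 ε hε
  refine ⟨max 1 Cf * (1 + 172 / ε), ?_, fun π hπ c => ?_⟩
  · have : 0 ≤ 172 / ε := by positivity
    nlinarith [le_max_left 1 Cf]
  obtain ⟨h0, h1, h2, h3, h4, h5⟩ := bw_par hl hπ
  obtain ⟨i0, i1, i2⟩ := bw_im hl hδ1 hZ hπ
  refine ((h (zt ν s2 d π) π.n (hZ.re_lo π hπ) (hZ.re_hi π hπ) i0 (hZ.im_hi π hπ) i2).2 c).trans ?_
  refine mul_le_mul_of_nonneg_right ?_ (by positivity)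
  have hn1 : (1 : ℝ) ≤ 2 * (π.n : ℝ) + 1 := by
    have : (0 : ℝ) ≤ π.n := Nat.cast_nonneg _
    linarith
  have hlog : 1 + Real.log (2 * (π.n : ℝ) + 1) ≤ (1 + 172 / ε) * π.lam ^ (-(ε / 4)) := by
    have g1 := Real.log_le_rpow_div (x := 2 * (π.n : ℝ) + 1) (ε := ε / 172) (by linarith)
      (by positivity)
    have g2 : (2 * (π.n : ℝ) + 1) ^ (ε / 172) ≤ π.lam ^ (-(ε / 4)) := by
      refine (Real.rpow_le_rpow (by linarith) h5 (by positivity)).trans (le_of_eq ?_)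
      rw [← Real.rpow_mul h0.le]
      congr 1
      ring
    have g3 : 1 ≤ π.lam ^ (-(ε / 4)) :=
      Real.one_le_rpow_of_pos_of_le_one_of_nonpos h0 h1 (by linarith)
    have g4 : (2 * (π.n : ℝ) + 1) ^ (ε / 172) / (ε / 172) ≤ 172 / ε * π.lam ^ (-(ε / 4)) := by
      rw [div_div_eq_mul_div, mul_comm, ← mul_div_right_comm]
      gcongr
    linarith
  have hlog0 : 0 ≤ 1 + Real.log (2 * (π.n : ℝ) + 1) := by
    have := Real.log_nonneg hn1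
    linarith
  have hK : Cf ≤ (max 1 Cf) ^ 4 :=
    (le_max_right _ _).trans (le_self_pow₀ (le_max_left _ _) (by norm_num))
  have hp : (zt ν s2 d π).im ^ (-2 - ε) ≤ π.lam ^ (-((2 + 2 * δ) * (2 + ε))) := by
    have := i1 (2 + ε) (by linarith)
    rwa [show -(2 + ε) = -2 - ε by ring] at this
  calc Cf * (zt ν s2 d π).im ^ (-2 - ε) * (1 + Real.log (2 * (π.n : ℝ) + 1)) ^ 4
      ≤ (max 1 Cf) ^ 4 * π.lam ^ (-((2 + 2 * δ) * (2 + ε))) *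
        ((1 + 172 / ε) * π.lam ^ (-(ε / 4))) ^ 4 := by gcongr
    _ = (max 1 Cf * (1 + 172 / ε)) ^ 4 * (π.lam ^ (-((2 + 2 * δ) * (2 + ε))) *
        (π.lam ^ (-(ε / 4))) ^ 4) := by ring
    _ ≤ (max 1 Cf * (1 + 172 / ε)) ^ 4 * (π.lam ^ (-(1 + δ) - ε)) ^ 4 := by
        gcongr
        rw [← Real.rpow_natCast, ← Real.rpow_mul h0.le, ← Real.rpow_natCast, ← Real.rpow_mul h0.le,
          ← Real.rpow_add h0]
        refine Real.rpow_le_rpow_of_exponent_ge h0 h1 ?_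
        push_cast
        nlinarith
    _ = (max 1 Cf * (1 + 172 / ε) * π.lam ^ (-(1 + δ) - ε)) ^ 4 := by ring

private lemma bw_g2 {ν : Measure ℝ} {R s2 C : ℝ} {τ τ' : ℝ → ℝ} (hν : NiceLaw ν R s2 C τ τ')
    {d : ℕ} {lo hi lam0 e1 e2 A δ : ℝ} (hl : lam0 ≤ 1) (he1 : e1 ≤ A)
    (hA' : Apr ν d (PS lo hi lam0 e1 e2) δ) :
    Dom ν d (PS lo hi lam0 e1 e2) (gq 2 d) (1 / 2 * (-A + -δ)) := by
  have hS := good_PS (lo := lo) (hi := hi) (e1 := e1) (e2 := e2) hl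
  have h1 : Dom ν d (PS lo hi lam0 e1 e2) (fun π V => π.eta⁻¹ * ginf d π V) (-A + -δ) := by
    refine hA'.ginf.det_mul hν hS 1 (fun π => π.eta⁻¹) (fun π hπ => ?_)
    obtain ⟨h0, h1, h2, h3, -, -⟩ := bw_par hl hπ
    rw [abs_of_pos (inv_pos.2 h2), one_mul, Real.rpow_neg h0.le]
    refine inv_anti₀ (Real.rpow_pos_of_pos h0 _) (le_trans ?_ h3)
    exact Real.rpow_le_rpow_of_exponent_ge h0 h1 he1
  have h2 := h1.rpow hν hS (fun π hπ V => ?_) (s := 1 / 2) (by norm_num)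
  · refine h2.mono hν hS (fun π hπ => ?_) (fun π hπ V => ?_)
    · obtain ⟨h0, -, h2, -, -, -⟩ := bw_par hl hπ
      exact continuous_rowN 2 (continuous_Gr (RS_H0 d π.n) π.lam (z := π.z) h2.ne')
    · obtain ⟨h0, -, h2, -, -, -⟩ := bw_par hl hπ
      have h3 := rowN_two_Gr (RS_H0 d π.n) (fun x => π.lam * V x) (z := π.z) h2
      have h4 : 0 ≤ gq 2 d π V := rowN_nonneg _ _
      have h5 : 0 ≤ π.eta⁻¹ * ginf d π V := mul_nonneg (inv_nonneg.2 h2.le) (supN_nonneg _)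
      rw [abs_of_nonneg h4, abs_of_nonneg (Real.rpow_nonneg h5 _), ← Real.sqrt_eq_rpow]
      refine Real.le_sqrt_of_sq_le ?_
      refine h3.trans (le_of_eq ?_)
      rw [div_eq_inv_mul]
      rfl
  · exact mul_nonneg (inv_nonneg.2 (bw_par hl hπ).2.2.1.le) (supN_nonneg _)

/-- `W_w^(1/4)`. -/
private def bwF (ν : Measure ℝ) (s2 : ℝ) (d : ℕ) (π : Par) (w : Tor d π.n)
    (V : Tor d π.n → ℝ) : ℝ :=
  Wv (H0 d π.n) (Gr (H0 d π.n) 0 (zt ν s2 d π)) π.lam π.z w V ^ (1 / 4 : ℝ)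

private lemma bw_W_nonneg {X : Type} [Fintype X] [DecidableEq X] (H M : Matrix X X ℂ) (lam : ℝ)
    (z : ℂ) (w : X) (V : X → ℝ) : 0 ≤ Wv H M lam z w V :=
  Finset.sum_nonneg fun _ _ => by positivity

private lemma bwF_nonneg (ν : Measure ℝ) (s2 : ℝ) (d : ℕ) (π : Par) (w : Tor d π.n)
    (V : Tor d π.n → ℝ) : 0 ≤ bwF ν s2 d π w V := Real.rpow_nonneg (bw_W_nonneg _ _ _ _ _ _) _

private lemma bwF_cont (ν : Measure ℝ) (s2 : ℝ) (d : ℕ) {π : Par} (hz : 0 < π.eta)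
    (w : Tor d π.n) : Continuous (bwF ν s2 d π w) := by
  unfold bwF Wv Zv
  refine Continuous.rpow_const ?_ (fun _ => Or.inr (by norm_num))
  refine continuous_finsetSum _ (fun y _ => ?_)
  exact ((((continuous_Gr (RS_H0 d π.n) π.lam (z := π.z) hz.ne').sub
    continuous_const).matrix_elem y w).norm).pow 4

private lemma bw_zst_eq (ν : Measure ℝ) (s2 : ℝ) (d : ℕ) {π : Par} (hz : 0 < π.eta)
    (hζ : 0 < (zt ν s2 d π).im) (V : Tor d π.n → ℝ) :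
    zst ν s2 d π V = ⨆ w, |bwF ν s2 d π w V| := by
  unfold zst rowN
  congr 1
  funext w
  rw [abs_of_nonneg (bwF_nonneg ν s2 d π w V)]
  unfold bwF Wv Zv
  norm_num
  congr 1
  refine Finset.sum_congr rfl fun y _ => ?_
  have h1 := Gr_symm (RS_H0 d π.n) (fun x => π.lam * V x) (z := π.z) hz.ne' w y
  have h2 := Gr_symm (RS_H0 d π.n) 0 (z := zt ν s2 d π) hζ.ne' w y
  have h3 : GG d π.n π.lam π.z V w y = Gr (H0 d π.n) (fun x => π.lam * V x) π.z y w := h1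
  have h4 : MM ν s2 d π.n π.lam π.z w y = Gr (H0 d π.n) 0 (zt ν s2 d π) y w := h2
  rw [h3, h4]

theorem dom_zst {ν : Measure ℝ} {R s2 C : ℝ} {τ τ' : ℝ → ℝ} (hν : NiceLaw ν R s2 C τ τ')
    {d : ℕ} {lo' hi' : ℝ} (hF : FreeB d lo' hi') {lo hi lam0 e1 e2 A δ : ℝ}
    (hl : lam0 ≤ 1) (he1 : e1 ≤ A) (hA : A ≤ 3) (hδ : 0 < δ) (hδ1 : δ ≤ 1 / 10)
    (hA' : Apr ν d (PS lo hi lam0 e1 e2) δ)
    (hZ : Zok ν s2 d lo' hi' 1 δ (PS lo hi lam0 e1 e2)) {y : ℝ} (hy : 0 ≤ y)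
    (h4 : Dom ν d (PS lo hi lam0 e1 e2) (gq 4 d) (-y)) :
    Dom ν d (PS lo hi lam0 e1 e2) (zst ν s2 d)
      (min (1 - 5 / 12 * (A + δ) - 2 / 3 * y) (2 - A / 2 - 5 * δ - 2 * y)) := by
  have := hν.prob
  have hC := hν.C_pos
  set S := PS lo hi lam0 e1 e2 with hSdef
  have hS : Good S := good_PS hl
  have hg2 : Dom ν d S (gq 2 d) (1 / 2 * (-A + -δ)) := bw_g2 hν hl he1 hA'
  have hx : Dom ν d S (xst ν d) (1 - 2 * y) := dom_xst hν hl h4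
  -- the two random factors
  have hY1 := (hg2.rpow hν hS (fun π _ V => rowN_nonneg _ _) (s := 5 / 3) (by norm_num)).mul hν hS
    (h4.rpow hν hS (fun π _ V => rowN_nonneg _ _) (s := 4 / 3) (by norm_num))
  have hgi : Dom ν d S (fun π V => (π.lam * ‖gb ν d π‖) * ginf d π V) ((1 - 2 * δ) + -δ) := by
    refine hA'.ginf.det_mul hν hS 1 (fun π => π.lam * ‖gb ν d π‖) (fun π hπ => ?_)
    obtain ⟨h0, h1, -⟩ := bw_par hl hπ
    rw [abs_of_nonneg (by positivity), one_mul, Real.rpow_sub h0, Real.rpow_one, div_eq_mul_inv,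
      ← Real.rpow_neg h0.le]
    exact mul_le_mul_of_nonneg_left (hZ.gb_le π hπ) h0.le
  have hY2 := hg2.mul hν hS ((hx.weaken hν hS (b := 1 - 2 * y - 3 * δ) (by linarith)).add hν hS
    (hgi.weaken hν hS (b := 1 - 2 * y - 3 * δ) (by linarith)))
  obtain ⟨K24, hK24, hm24⟩ := bw_m24 hF hl hδ1 hZ (ε := δ / 2) (by linarith)
  -- passage to the supremum
  have hmain : Dom ν d S (fun π V => ⨆ w, |bwF ν s2 d π w V|)
      (min (1 - 5 / 12 * (A + δ) - 2 / 3 * y) (2 - A / 2 - 5 * δ - 2 * y)) := by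
    refine Dom.iSup hν hS (fun π => Tor d π.n) 1 (43 * d) (fun π hπ => ?_) (bwF ν s2 d)
      (fun π hπ w => bwF_cont ν s2 d (bw_par hl hπ).2.2.1 w) (fun q => ?_)
    · rw [one_mul]; exact card_Tor_le hl π hπ
    refine ⟨4 * (q + 2), by omega, fun ε hε => ?_⟩
    have hP : (0 : ℝ) < (q : ℝ) + 2 := by positivity
    obtain ⟨K3, hK3, hm3⟩ := bw_m3 hF hl hδ1 hZ (ε := ε / (4 * (q + 2))) (by positivity)
    -- the deterministic factors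
    set c1 : Par → ℝ := fun π => 4 * (C * (1 + π.lam * ‖gb ν d π‖) * (4 * q + 7) * π.lam ^ 2 *
      (K3 * π.lam ^ (-(ε / (4 * ((q : ℝ) + 2)))))) with hc1
    set c2 : Par → ℝ := fun π => 4 * (C * π.lam ^ 2 * (K24 * π.lam ^ (-(1 + δ) - δ / 2))) with hc2
    have hlg : ∀ π ∈ S, π.lam * ‖gb ν d π‖ ≤ 1 := by
      intro π hπ
      obtain ⟨h0, h1, -⟩ := bw_par hl hπ
      calc π.lam * ‖gb ν d π‖ ≤ π.lam * π.lam ^ (-(2 * δ)) :=
            mul_le_mul_of_nonneg_left (hZ.gb_le π hπ) h0.le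
        _ = π.lam ^ (1 - 2 * δ) := by
            rw [Real.rpow_sub h0, Real.rpow_one, Real.rpow_neg h0.le, div_eq_mul_inv]
        _ ≤ 1 := Real.rpow_le_one h0.le h1 (by linarith)
    have hD1 := hY1.det_mul hν hS (8 * C * (4 * q + 7) * K3) c1
      (b := 2 - ε / (4 * ((q : ℝ) + 2))) (fun π hπ => by
        obtain ⟨h0, h1, -⟩ := bw_par hl hπ
        have hp := hlg π hπ
        have hp0 : 0 ≤ π.lam * ‖gb ν d π‖ := by positivity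
        rw [hc1]
        simp only
        rw [abs_of_nonneg (by positivity), sub_eq_add_neg, Real.rpow_add h0, Real.rpow_two]
        have h5 : 1 + π.lam * ‖gb ν d π‖ ≤ 2 := by linarith
        calc 4 * (C * (1 + π.lam * ‖gb ν d π‖) * (4 * q + 7) * π.lam ^ 2 *
              (K3 * π.lam ^ (-(ε / (4 * ((q : ℝ) + 2))))))
            ≤ 4 * (C * 2 * (4 * q + 7) * π.lam ^ 2 *
              (K3 * π.lam ^ (-(ε / (4 * ((q : ℝ) + 2)))))) := by gcongr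
          _ = _ := by ring)
    have hD2 := hY2.det_mul hν hS (4 * C * K24) c2 (b := 1 - 3 / 2 * δ) (fun π hπ => by
        obtain ⟨h0, h1, -⟩ := bw_par hl hπ
        rw [hc2]
        simp only
        rw [abs_of_nonneg (by positivity),
          show (1 : ℝ) - 3 / 2 * δ = 2 + (-(1 + δ) - δ / 2) by ring, Real.rpow_add h0,
          Real.rpow_two]
        exact le_of_eq (by ring))
    obtain ⟨L1, hL1⟩ := hD1.2 (2 * (q + 2)) (ε / 2) (by linarith)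
    obtain ⟨L2, hL2⟩ := hD2.2 (4 * (q + 2)) ε hε
    refine ⟨2 * |L1| + 2 * |L2|, fun π hπ w => ?_⟩
    obtain ⟨h0, h1, h2, -, -, -⟩ := bw_par hl hπ
    obtain ⟨i0, -, -⟩ := bw_im hl hδ1 hZ hπ
    have hzt : zt ν s2 d π = π.z + ((π.lam ^ 2 * s2 : ℝ) : ℂ) * gb ν d π := rfl
    have hW := wlemma hν (RS_H0 d π.n) h0 (z := π.z) (g := gb ν d π) h2
      (fun x => Ex_diag ν π.lam π.z x) (by rw [← hzt]; exact i0)
      (m3 := K3 * π.lam ^ (-(ε / (4 * ((q : ℝ) + 2)))))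
      (m24 := K24 * π.lam ^ (-(1 + δ) - δ / 2)) (by positivity) (by positivity)
      (by rw [← hzt]; exact hm3 π hπ) (by rw [← hzt]; exact hm24 π hπ) w q
    rw [← hzt] at hW
    have e0 : Ex ν (fun V : Tor d π.n → ℝ => |bwF ν s2 d π w V| ^ (4 * (q + 2))) =
        Ex ν (fun V => Wv (H0 d π.n) (Gr (H0 d π.n) 0 (zt ν s2 d π)) π.lam π.z w V ^ (q + 2)) := by
      congr 1
      funext V
      rw [abs_of_nonneg (bwF_nonneg ν s2 d π w V), pow_mul]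
      congr 1
      unfold bwF
      rw [← Real.rpow_natCast, ← Real.rpow_mul (bw_W_nonneg _ _ _ _ _ _)]
      norm_num
    rw [e0]
    refine hW.trans ?_
    have hfin : ∀ (L E : ℝ), ((4 * (q + 2) : ℕ) : ℝ) *
        min (1 - 5 / 12 * (A + δ) - 2 / 3 * y) (2 - A / 2 - 5 * δ - 2 * y) - ε ≤ E →
        L * π.lam ^ E ≤ |L| * π.lam ^ (((4 * (q + 2) : ℕ) : ℝ) *
          min (1 - 5 / 12 * (A + δ) - 2 / 3 * y) (2 - A / 2 - 5 * δ - 2 * y) - ε) := by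
      intro L E hE
      refine mul_le_mul (le_abs_self L) (Real.rpow_le_rpow_of_exponent_ge h0 h1 hE)
        (Real.rpow_nonneg h0.le _) (abs_nonneg _)
    have hP4 : (0 : ℝ) ≤ ((4 * (q + 2) : ℕ) : ℝ) := Nat.cast_nonneg _
    have t1 := (hL1 π hπ).trans (hfin L1 _ (by
      have h6 := mul_le_mul_of_nonneg_left (min_le_left (1 - 5 / 12 * (A + δ) - 2 / 3 * y)
        (2 - A / 2 - 5 * δ - 2 * y)) hP4
      refine (sub_le_sub_right h6 ε).trans (le_of_eq ?_)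
      push_cast
      field_simp
      ring))
    have t2 := (hL2 π hπ).trans (hfin L2 _ (by
      have h6 := mul_le_mul_of_nonneg_left (min_le_right (1 - 5 / 12 * (A + δ) - 2 / 3 * y)
        (2 - A / 2 - 5 * δ - 2 * y)) hP4
      refine (sub_le_sub_right h6 ε).trans (le_of_eq ?_)
      push_cast
      ring))
    have q1 : Ex ν (fun V : Tor d π.n → ℝ => (4 * (C * (1 + π.lam * ‖gb ν d π‖) * (4 * q + 7) *
        π.lam ^ 2 * (K3 * π.lam ^ (-(ε / (4 * ((q : ℝ) + 2))))) *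
        rowN 2 (Gr (H0 d π.n) (fun x => π.lam * V x) π.z) ^ (5 / 3 : ℝ) *
        rowN 4 (Gr (H0 d π.n) (fun x => π.lam * V x) π.z) ^ (4 / 3 : ℝ))) ^ (2 * (q + 2))) ≤
        |L1| * π.lam ^ (((4 * (q + 2) : ℕ) : ℝ) *
          min (1 - 5 / 12 * (A + δ) - 2 / 3 * y) (2 - A / 2 - 5 * δ - 2 * y) - ε) := by
      refine le_trans (le_of_eq ?_) t1
      congr 1
      funext V
      rw [Even.pow_abs (by simp)]
      congr 1
      simp only [hc1]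
      unfold gq GG
      ring
    have q2 : Ex ν (fun V : Tor d π.n → ℝ => (4 * (C * π.lam ^ 2 *
        (K24 * π.lam ^ (-(1 + δ) - δ / 2)) *
        rowN 2 (Gr (H0 d π.n) (fun x => π.lam * V x) π.z) *
        (diagN (Gr (H0 d π.n) (fun x => π.lam * V x) π.z) (gb ν d π) +
          π.lam * ‖gb ν d π‖ * supN (Gr (H0 d π.n) (fun x => π.lam * V x) π.z)))) ^
            (4 * (q + 2))) ≤
        |L2| * π.lam ^ (((4 * (q + 2) : ℕ) : ℝ) *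
          min (1 - 5 / 12 * (A + δ) - 2 / 3 * y) (2 - A / 2 - 5 * δ - 2 * y) - ε) := by
      refine le_trans (le_of_eq ?_) t2
      congr 1
      funext V
      rw [Even.pow_abs (by rw [show 4 * (q + 2) = 2 * (2 * (q + 2)) by ring]; simp)]
      congr 1
      simp only [hc2]
      unfold gq xst ginf gb GG
      ring
    calc _ ≤ 2 * (|L1| * π.lam ^ (((4 * (q + 2) : ℕ) : ℝ) *
          min (1 - 5 / 12 * (A + δ) - 2 / 3 * y) (2 - A / 2 - 5 * δ - 2 * y) - ε)) +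
          2 * (|L2| * π.lam ^ (((4 * (q + 2) : ℕ) : ℝ) *
          min (1 - 5 / 12 * (A + δ) - 2 / 3 * y) (2 - A / 2 - 5 * δ - 2 * y) - ε)) :=
          add_le_add (mul_le_mul_of_nonneg_left q1 (by norm_num))
            (mul_le_mul_of_nonneg_left q2 (by norm_num))
      _ = _ := by ring
  refine hmain.mono hν hS (fun π hπ => ?_) (fun π hπ V => ?_)
  · refine continuous_rowN 4 (A := fun V => GG d π.n π.lam π.z V - MM ν s2 d π.n π.lam π.z) ?_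
    exact (continuous_Gr (RS_H0 d π.n) π.lam (z := π.z) (bw_par hl hπ).2.2.1.ne').sub
      continuous_const
  · rw [bw_zst_eq ν s2 d (bw_par hl hπ).2.2.1 (bw_im hl hδ1 hZ hπ).1 V]

end Pool.Agent.BK
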