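import Pool.Agent.BK.Poin

/-! BK module MOM: moments of `F - E F` from the Poincaré inequality.
Real case, `F̃ = F - EF`, `q = 2^j`: apply Poincaré to `F̃^q`:
`E F̃^{2q} ≤ (E F̃^q)² + C q² E[F̃^{2q-2} |∇F|²]`, and by Young
`C q² F̃^{2q-2} |∇F|² ≤ ½ F̃^{2q} + C'_q |∇F|^{2q}`; so `E F̃^{2q} ≤ 2 (E F̃^q)² + 2 C'_q E|∇F|^{2q}`.
Induction on `j` (`(E F̃^q)² ≤ (C_j E |∇F|^q)² ≤ C_j² E|∇F|^{2q}`), starting with `j = 0`:
`E F̃² ≤ C E|∇F|²`. The constant `D` depends on `j` and `C` only. Complex `F`: real and imaginary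
parts (`|F|^{2q} ≤ 2^q (|Re F|^{2q} + |Im F|^{2q})` up to constants). -/

open MeasureTheory Finset

noncomputable section

namespace Pool.Agent.BK

variable {ν : Measure ℝ} {R s2 C : ℝ} {τ τ' : ℝ → ℝ}

/-- Jensen for squares. -/
private lemma mom_sq {X : Type} [Fintype X] [DecidableEq X] (hν : NiceLaw ν R s2 C τ τ')
    {h : (X → ℝ) → ℝ} (hh : Continuous h) :
    Ex ν h ^ 2 ≤ Ex ν (fun V => h V ^ 2) := by
  have := hν.prob
  obtain ⟨m, hm⟩ : ∃ m, m = Ex ν h := ⟨_, rfl⟩
  have h1 : 0 ≤ Ex ν (fun V : X → ℝ => (h V - m) ^ 2) := integral_nonneg (fun V => sq_nonneg _)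
  have i1 : Integrable (fun V : X → ℝ => h V ^ 2) (Measure.pi fun _ : X => ν) :=
    integrable_cont hν (hh.pow 2)
  have i2 : Integrable (fun V : X → ℝ => 2 * m * h V) (Measure.pi fun _ : X => ν) :=
    integrable_cont hν (continuous_const.mul hh)
  have i3 : Integrable (fun _ : X → ℝ => m ^ 2) (Measure.pi fun _ : X => ν) :=
    integrable_const _
  have h2 : Ex ν (fun V : X → ℝ => (h V - m) ^ 2) = Ex ν (fun V => h V ^ 2) - m ^ 2 := by
    unfold Ex
    have e : ∀ V : X → ℝ, (h V - m) ^ 2 = (h V ^ 2 - 2 * m * h V) + m ^ 2 := fun V => by ring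
    simp_rw [e]
    have k1 := integral_add (μ := Measure.pi fun _ : X => ν)
      (f := fun V : X → ℝ => h V ^ 2 - 2 * m * h V) (g := fun _ => m ^ 2) (i1.sub i2) i3
    have k2 := integral_sub (μ := Measure.pi fun _ : X => ν)
      (f := fun V : X → ℝ => h V ^ 2) (g := fun V => 2 * m * h V) i1 i2
    rw [k1, k2, integral_const_mul, integral_const]
    have e3 : ∫ V, h V ∂(Measure.pi fun _ : X => ν) = m := hm.symm
    rw [e3]
    simp
    ring
  rw [← hm]
  linarith

private lemma mom_young {A B c : ℝ} (hA : 0 ≤ A) (hB : 0 ≤ B) (hc : 0 < c) (m : ℕ) :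
    c * (A ^ m * B) ≤ 1 / 2 * A ^ (m + 1) + c * (2 * c) ^ m * B ^ (m + 1) := by
  rcases le_total (2 * c * B) A with h | h
  · have h1 : c * (A ^ m * B) ≤ 1 / 2 * A ^ (m + 1) := by
      have h2 : c * B ≤ 1 / 2 * A := by linarith
      calc c * (A ^ m * B) = A ^ m * (c * B) := by ring
        _ ≤ A ^ m * (1 / 2 * A) := mul_le_mul_of_nonneg_left h2 (pow_nonneg hA m)
        _ = 1 / 2 * A ^ (m + 1) := by ring
    have h3 : 0 ≤ c * (2 * c) ^ m * B ^ (m + 1) := by positivity
    linarith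
  · have h1 : A ^ m ≤ (2 * c * B) ^ m := pow_le_pow_left₀ hA h m
    have h2 : c * (A ^ m * B) ≤ c * (2 * c) ^ m * B ^ (m + 1) := by
      calc c * (A ^ m * B) ≤ c * ((2 * c * B) ^ m * B) := by gcongr
        _ = c * (2 * c) ^ m * B ^ (m + 1) := by
            rw [mul_pow, mul_pow]
            ring
    have h3 : 0 ≤ 1 / 2 * A ^ (m + 1) := by positivity
    linarith

private theorem mom_real (hν : NiceLaw ν R s2 C τ τ') (j : ℕ) : ∃ D : ℝ, 0 < D ∧
    ∀ (X : Type) [Fintype X] [DecidableEq X] (f : (X → ℝ) → ℝ) (f' : X → (X → ℝ) → ℝ),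
      Continuous f → (∀ u, Continuous (f' u)) →
      (∀ (V : X → ℝ) (u : X), HasDerivAt (fun t : ℝ => f (Function.update V u t)) (f' u V) (V u)) →
      Ex ν f = 0 →
      Ex ν (fun V => f V ^ 2 ^ (j + 1)) ≤ D * Ex ν (fun V => (∑ u, f' u V ^ 2) ^ 2 ^ j) := by
  induction j with
  | zero =>
    refine ⟨C, hν.C_pos, ?_⟩
    intro X _ _ f f' hf hf' hd h0
    have h := poinc_real hν hf hf' hd
    rw [h0] at h
    simpa using h
  | succ j ih =>
    obtain ⟨D, hD, ih⟩ := ih
    obtain ⟨N, hN⟩ : ∃ N : ℕ, 2 ^ (j + 1) = N + 1 := by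
      refine ⟨2 ^ (j + 1) - 1, ?_⟩
      have : 0 < 2 ^ (j + 1) := by positivity
      omega
    set c : ℝ := C * ((N + 1 : ℕ) : ℝ) ^ 2 with hc
    have hcp : 0 < c := by
      have := hν.C_pos
      positivity
    refine ⟨2 * (D ^ 2 + c * (2 * c) ^ N), by positivity, ?_⟩
    intro X _ _ f f' hf hf' hd h0
    have := hν.prob
    set g : (X → ℝ) → ℝ := fun V => ∑ u, f' u V ^ 2 with hg
    have hgc : Continuous g := by
      rw [hg]
      exact continuous_finsetSum _ (fun u _ => (hf' u).pow 2)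
    have hg0 : ∀ V, 0 ≤ g V := fun V => Finset.sum_nonneg (fun u _ => sq_nonneg _)
    have h1 := ih X f f' hf hf' hd h0
    -- Poincaré for `f ^ (N+1)`
    have hd2 : ∀ (V : X → ℝ) (u : X), HasDerivAt
        (fun t : ℝ => (fun W => f W ^ (N + 1)) (Function.update V u t))
        ((fun (u : X) (V : X → ℝ) => ((N + 1 : ℕ) : ℝ) * f V ^ N * f' u V) u V) (V u) := by
      intro V u
      have h := (hd V u).pow (N + 1)
      simp only [Function.update_eq_self, Nat.add_sub_cancel] at h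
      exact h
    have h2 := poinc_real hν (F := fun W : X → ℝ => f W ^ (N + 1))
      (F' := fun (u : X) (V : X → ℝ) => ((N + 1 : ℕ) : ℝ) * f V ^ N * f' u V) (hf.pow (N + 1))
      (fun u => (continuous_const.mul (hf.pow N)).mul (hf' u)) hd2
    -- rewrite
    have e1 : (fun V : X → ℝ => (f V ^ (N + 1)) ^ 2) = fun V => f V ^ 2 ^ (j + 1 + 1) := by
      funext V
      rw [← hN, ← pow_mul, ← pow_succ]
    have e2 : (fun V : X → ℝ => f V ^ (N + 1)) = fun V => f V ^ 2 ^ (j + 1) := by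
      funext V
      rw [hN]
    have e3 : (fun V : X → ℝ => ∑ u, (((N + 1 : ℕ) : ℝ) * f V ^ N * f' u V) ^ 2) =
        fun V => ((N + 1 : ℕ) : ℝ) ^ 2 * ((f V ^ 2) ^ N * g V) := by
      funext V
      rw [hg]
      simp only
      rw [Finset.mul_sum, Finset.mul_sum]
      refine Finset.sum_congr rfl (fun u _ => ?_)
      rw [← pow_mul]
      ring
    rw [e1, e2, e3] at h2
    -- Young
    have h3 : C * Ex ν (fun V : X → ℝ => ((N + 1 : ℕ) : ℝ) ^ 2 * ((f V ^ 2) ^ N * g V)) ≤
        1 / 2 * Ex ν (fun V : X → ℝ => f V ^ 2 ^ (j + 1 + 1)) +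
          c * (2 * c) ^ N * Ex ν (fun V : X → ℝ => g V ^ 2 ^ (j + 1)) := by
      have k1 : C * Ex ν (fun V : X → ℝ => ((N + 1 : ℕ) : ℝ) ^ 2 * ((f V ^ 2) ^ N * g V)) =
          Ex ν (fun V : X → ℝ => c * ((f V ^ 2) ^ N * g V)) := by
        unfold Ex
        rw [← integral_const_mul]
        refine integral_congr_ae (Filter.Eventually.of_forall (fun V => ?_))
        simp only [hc]
        ring
      have k2 : 1 / 2 * Ex ν (fun V : X → ℝ => f V ^ 2 ^ (j + 1 + 1)) +
          c * (2 * c) ^ N * Ex ν (fun V : X → ℝ => g V ^ 2 ^ (j + 1)) =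
          Ex ν (fun V : X → ℝ => 1 / 2 * (f V ^ 2) ^ (N + 1) +
            c * (2 * c) ^ N * g V ^ (N + 1)) := by
        unfold Ex
        rw [integral_add, integral_const_mul, integral_const_mul]
        · congr 2
          · refine integral_congr_ae (Filter.Eventually.of_forall (fun V => ?_))
            simp only
            rw [← hN, ← pow_mul, pow_succ' 2 (j + 1)]
          · rw [hN]
        · exact integrable_cont hν (continuous_const.mul ((hf.pow 2).pow (N + 1)))
        · exact integrable_cont hν (continuous_const.mul (hgc.pow (N + 1)))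
      rw [k1, k2]
      refine Ex_mono hν ?_ ?_ ?_
      · exact continuous_const.mul (((hf.pow 2).pow N).mul hgc)
      · exact (continuous_const.mul ((hf.pow 2).pow (N + 1))).add
          (continuous_const.mul (hgc.pow (N + 1)))
      · intro V
        exact mom_young (sq_nonneg (f V)) (hg0 V) hcp N
    -- Jensen
    have h4 : (Ex ν (fun V : X → ℝ => f V ^ 2 ^ (j + 1))) ^ 2 ≤
        D ^ 2 * Ex ν (fun V : X → ℝ => g V ^ 2 ^ (j + 1)) := by
      have m1 : 0 ≤ Ex ν (fun V : X → ℝ => f V ^ 2 ^ (j + 1)) := by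
        refine integral_nonneg (fun V => ?_)
        simp only [Pi.zero_apply]
        rw [pow_succ 2 j, mul_comm, pow_mul]
        positivity
      have m2 : Ex ν (fun V : X → ℝ => g V ^ 2 ^ j) ^ 2 ≤
          Ex ν (fun V : X → ℝ => (g V ^ 2 ^ j) ^ 2) := mom_sq hν (hgc.pow _)
      have m3 : (fun V : X → ℝ => (g V ^ 2 ^ j) ^ 2) = fun V => g V ^ 2 ^ (j + 1) := by
        funext V
        rw [← pow_mul, ← pow_succ]
      rw [m3] at m2
      calc (Ex ν (fun V : X → ℝ => f V ^ 2 ^ (j + 1))) ^ 2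
          ≤ (D * Ex ν (fun V : X → ℝ => g V ^ 2 ^ j)) ^ 2 := pow_le_pow_left₀ m1 h1 2
        _ = D ^ 2 * Ex ν (fun V : X → ℝ => g V ^ 2 ^ j) ^ 2 := by ring
        _ ≤ D ^ 2 * Ex ν (fun V : X → ℝ => g V ^ 2 ^ (j + 1)) :=
            mul_le_mul_of_nonneg_left m2 (sq_nonneg D)
    have e5 : (fun V : X → ℝ => (∑ u, f' u V ^ 2) ^ 2 ^ (j + 1)) = fun V => g V ^ 2 ^ (j + 1) := rfl
    rw [e5]
    nlinarith [h2, h3, h4]

theorem moments (hν : NiceLaw ν R s2 C τ τ') (j : ℕ) : ∃ D : ℝ, 0 < D ∧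
    ∀ (X : Type) [Fintype X] [DecidableEq X] (F : (X → ℝ) → ℂ) (F' : X → (X → ℝ) → ℂ), C1 F F' →
      Ex ν (fun V => ‖F V - Ex ν F‖ ^ 2 ^ (j + 1)) ≤
        D * Ex ν (fun V => (∑ u, ‖F' u V‖ ^ 2) ^ 2 ^ j) := by
  obtain ⟨D, hD, H⟩ := mom_real hν j
  refine ⟨2 ^ (2 ^ j - 1) * (2 * D), by positivity, ?_⟩
  intro X _ _ F F' hF
  have := hν.prob
  obtain ⟨m, hm⟩ : ∃ m, m = Ex ν F := ⟨_, rfl⟩
  rw [← hm]
  have iF : Integrable F (Measure.pi fun _ : X => ν) := integrable_cont hν hF.cont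
  have cre : Continuous (fun V => (F V).re - m.re) :=
    (Complex.continuous_re.comp hF.cont).sub continuous_const
  have cim : Continuous (fun V => (F V).im - m.im) :=
    (Complex.continuous_im.comp hF.cont).sub continuous_const
  have ere : Ex ν (fun V => (F V).re - m.re) = 0 := by
    unfold Ex
    have k := integral_sub (μ := Measure.pi fun _ : X => ν) (f := fun V : X → ℝ => (F V).re)
      (g := fun _ => m.re) iF.re (integrable_const _)
    have h := integral_re iF
    have h2 : ∫ V, (F V).re ∂(Measure.pi fun _ : X => ν) = m.re := by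
      rw [hm]
      exact h
    rw [k, h2]
    simp
  have eim : Ex ν (fun V => (F V).im - m.im) = 0 := by
    unfold Ex
    have k := integral_sub (μ := Measure.pi fun _ : X => ν) (f := fun V : X → ℝ => (F V).im)
      (g := fun _ => m.im) iF.im (integrable_const _)
    have h := integral_im iF
    have h2 : ∫ V, (F V).im ∂(Measure.pi fun _ : X => ν) = m.im := by
      rw [hm]
      exact h
    rw [k, h2]
    simp
  have dre : ∀ (V : X → ℝ) (u : X), HasDerivAt
      (fun t : ℝ => (fun W => (F W).re - m.re) (Function.update V u t)) ((F' u V).re) (V u) := by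
    intro V u
    have h := (Complex.reCLM.hasFDerivAt.comp_hasDerivAt (V u) (hF.deriv V u)).sub_const m.re
    simpa using h
  have dim' : ∀ (V : X → ℝ) (u : X), HasDerivAt
      (fun t : ℝ => (fun W => (F W).im - m.im) (Function.update V u t)) ((F' u V).im) (V u) := by
    intro V u
    have h := (Complex.imCLM.hasFDerivAt.comp_hasDerivAt (V u) (hF.deriv V u)).sub_const m.im
    simpa using h
  have H1 := H X (fun V => (F V).re - m.re) (fun u V => (F' u V).re) cre
    (fun u => Complex.continuous_re.comp (hF.cont' u)) dre ere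
  have H2 := H X (fun V => (F V).im - m.im) (fun u V => (F' u V).im) cim
    (fun u => Complex.continuous_im.comp (hF.cont' u)) dim' eim
  have cF' : Continuous (fun V => (∑ u, ‖F' u V‖ ^ 2) ^ 2 ^ j) :=
    (continuous_finsetSum _ (fun u _ => (hF.cont' u).norm.pow 2)).pow _
  have b1 : Ex ν (fun V => (∑ u, (F' u V).re ^ 2) ^ 2 ^ j) ≤
      Ex ν (fun V => (∑ u, ‖F' u V‖ ^ 2) ^ 2 ^ j) := by
    refine Ex_mono hν ?_ cF' ?_
    · exact (continuous_finsetSum _
        (fun u _ => (Complex.continuous_re.comp (hF.cont' u)).pow 2)).pow _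
    · intro V
      refine pow_le_pow_left₀ (Finset.sum_nonneg (fun u _ => sq_nonneg _)) ?_ _
      refine Finset.sum_le_sum (fun u _ => ?_)
      rw [Complex.sq_norm, Complex.normSq_apply]
      nlinarith [sq_nonneg (F' u V).im]
  have b2 : Ex ν (fun V => (∑ u, (F' u V).im ^ 2) ^ 2 ^ j) ≤
      Ex ν (fun V => (∑ u, ‖F' u V‖ ^ 2) ^ 2 ^ j) := by
    refine Ex_mono hν ?_ cF' ?_
    · exact (continuous_finsetSum _
        (fun u _ => (Complex.continuous_im.comp (hF.cont' u)).pow 2)).pow _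
    · intro V
      refine pow_le_pow_left₀ (Finset.sum_nonneg (fun u _ => sq_nonneg _)) ?_ _
      refine Finset.sum_le_sum (fun u _ => ?_)
      rw [Complex.sq_norm, Complex.normSq_apply]
      nlinarith [sq_nonneg (F' u V).re]
  have key : Ex ν (fun V => ‖F V - m‖ ^ 2 ^ (j + 1)) ≤
      2 ^ (2 ^ j - 1) * (Ex ν (fun V => ((F V).re - m.re) ^ 2 ^ (j + 1)) +
        Ex ν (fun V => ((F V).im - m.im) ^ 2 ^ (j + 1))) := by
    have e : 2 ^ (2 ^ j - 1) * (Ex ν (fun V => ((F V).re - m.re) ^ 2 ^ (j + 1)) +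
        Ex ν (fun V => ((F V).im - m.im) ^ 2 ^ (j + 1))) =
        Ex ν (fun V => (2 : ℝ) ^ (2 ^ j - 1) * (((F V).re - m.re) ^ 2 ^ (j + 1) +
          ((F V).im - m.im) ^ 2 ^ (j + 1))) := by
      unfold Ex
      rw [integral_const_mul, integral_add]
      · exact integrable_cont hν (cre.pow _)
      · exact integrable_cont hν (cim.pow _)
    rw [e]
    refine Ex_mono hν ?_ ?_ ?_
    · exact ((hF.cont.sub continuous_const).norm).pow _
    · exact continuous_const.mul ((cre.pow _).add (cim.pow _))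
    · intro V
      have e1 : ‖F V - m‖ ^ 2 ^ (j + 1) =
          (((F V).re - m.re) ^ 2 + ((F V).im - m.im) ^ 2) ^ 2 ^ j := by
        rw [pow_succ 2 j, mul_comm, pow_mul, Complex.sq_norm, Complex.normSq_apply]
        simp only [Complex.sub_re, Complex.sub_im]
        congr 1
        ring
      have e2 : ∀ a : ℝ, a ^ 2 ^ (j + 1) = (a ^ 2) ^ 2 ^ j := by
        intro a
        rw [pow_succ 2 j, mul_comm, pow_mul]
      rw [e1, e2, e2]
      exact add_pow_le (sq_nonneg _) (sq_nonneg _) _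
  refine key.trans ?_
  rw [mul_assoc]
  refine mul_le_mul_of_nonneg_left ?_ (by positivity)
  have B1 := mul_le_mul_of_nonneg_left b1 hD.le
  have B2 := mul_le_mul_of_nonneg_left b2 hD.le
  linarith

end Pool.Agent.BK
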