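import Pool.Agent.BK.BDefs
import Pool.Agent.BK.Mom
import Pool.Agent.BK.TorB

/-! BK module BX: `X* ≺ lam · (sup‖G_x‖_4)²`.
`moments` for `F = G_xx`, `∂_u G_xx = -lam G_xu G_ux`, so `∑_u |∂_u G_xx|² = lam² ∑_u |G_xu|⁴ ≤
lam² g4⁴`; hence `E|G_xx - gbar|^(2^(j+1)) ≤ D E(lam² g4⁴)^(2^j)`. Then `Dom.iSup` over `x`
(the index set is polynomially large by `card_Tor_le`). -/

open MeasureTheory Finset Matrix

noncomputable section

namespace Pool.Agent.BK

private lemma bx_eta {lo hi lam0 e1 e2 : ℝ} {π : Par} (hπ : π ∈ PS lo hi lam0 e1 e2) :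
    0 < π.z.im :=
  lt_of_lt_of_le (Real.rpow_pos_of_pos hπ.1 e1) hπ.2.2.2.2.2.2.1

theorem dom_xst {ν : Measure ℝ} {R s2 C : ℝ} {τ τ' : ℝ → ℝ} (hν : NiceLaw ν R s2 C τ τ')
    {d : ℕ} {lo hi lam0 e1 e2 : ℝ} (hl : lam0 ≤ 1) {y : ℝ}
    (h4 : Dom ν d (PS lo hi lam0 e1 e2) (gq 4 d) (-y)) :
    Dom ν d (PS lo hi lam0 e1 e2) (xst ν d) (1 - 2 * y) := by
  have := hν.prob
  have hS : Good (PS lo hi lam0 e1 e2) := good_PS hl
  have key : Dom ν d (PS lo hi lam0 e1 e2) (fun π V => ⨆ x : Tor d π.n,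
      |‖GG d π.n π.lam π.z V x x - gbar ν d π.n π.lam π.z‖|) (1 - 2 * y) := by
    refine Dom.iSup hν hS (fun π => Tor d π.n) 1 (43 * d) ?_
      (fun π x V => ‖GG d π.n π.lam π.z V x x - gbar ν d π.n π.lam π.z‖) ?_ ?_
    · intro π hπ
      have h := card_Tor_le (d := d) hl π hπ
      rw [one_mul]
      exact h
    · intro π hπ x
      have hz := (bx_eta hπ).ne'
      have h1 := continuous_Gr (X := Tor d π.n) (RS_H0 d π.n) π.lam hz
      have h2 : Continuous fun V : Tor d π.n → ℝ => GG d π.n π.lam π.z V x x :=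
        (h1.matrix_elem x x)
      exact (h2.sub continuous_const).norm
    · intro p0
      refine ⟨2 ^ (p0 + 1), ?_, ?_⟩
      · exact (Nat.lt_two_pow_self).le.trans (Nat.pow_le_pow_right (by norm_num) (Nat.le_succ p0))
      intro ε hε
      obtain ⟨D, hD, hmom⟩ := moments hν p0
      obtain ⟨C', hC'⟩ := h4.2 (4 * 2 ^ p0) ε hε
      refine ⟨D * C', ?_⟩
      intro π hπ x
      have hz := bx_eta hπ
      have hlam := hπ.1
      have hC1 := C1_Gr (X := Tor d π.n) (RS_H0 d π.n) π.lam hz.ne' x x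
      have h := hmom (Tor d π.n) _ _ hC1
      have hgb : Ex ν (fun V : Tor d π.n → ℝ => Gr (H0 d π.n) (fun x => π.lam * V x) π.z x x) =
          gbar ν d π.n π.lam π.z := Ex_diag ν π.lam π.z x
      rw [hgb] at h
      have e1 : Ex ν (fun V : Tor d π.n → ℝ =>
          |‖GG d π.n π.lam π.z V x x - gbar ν d π.n π.lam π.z‖| ^ 2 ^ (p0 + 1)) =
          Ex ν (fun V : Tor d π.n → ℝ => ‖Gr (H0 d π.n) (fun x => π.lam * V x) π.z x x -
            gbar ν d π.n π.lam π.z‖ ^ 2 ^ (p0 + 1)) := by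
        simp only [abs_norm]
        rfl
      rw [e1]
      refine h.trans ?_
      rw [mul_assoc]
      refine mul_le_mul_of_nonneg_left ?_ hD.le
      -- pointwise bound
      have cgq : Continuous (gq 4 d π) := h4.1 π hπ
      have cG := continuous_Gr (X := Tor d π.n) (RS_H0 d π.n) π.lam hz.ne'
      have b1 : Ex ν (fun V : Tor d π.n → ℝ => (∑ u, ‖-(π.lam : ℂ) *
          Gr (H0 d π.n) (fun x => π.lam * V x) π.z x u *
          Gr (H0 d π.n) (fun x => π.lam * V x) π.z u x‖ ^ 2) ^ 2 ^ p0) ≤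
          Ex ν (fun V : Tor d π.n → ℝ => (π.lam ^ 2) ^ 2 ^ p0 * |gq 4 d π V| ^ (4 * 2 ^ p0)) := by
        refine Ex_mono hν ?_ ?_ ?_
        · refine (continuous_finsetSum _ (fun u _ => ?_)).pow _
          exact (((continuous_const.mul (cG.matrix_elem x u)).mul (cG.matrix_elem u x)).norm).pow 2
        · exact continuous_const.mul (cgq.abs.pow _)
        · intro V
          have e2 : ∑ u, ‖-(π.lam : ℂ) *
              Gr (H0 d π.n) (fun x => π.lam * V x) π.z x u *
              Gr (H0 d π.n) (fun x => π.lam * V x) π.z u x‖ ^ 2 =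
              π.lam ^ 2 * ∑ u, ‖Gr (H0 d π.n) (fun x => π.lam * V x) π.z x u‖ ^ 4 := by
            rw [Finset.mul_sum]
            refine Finset.sum_congr rfl (fun u _ => ?_)
            rw [Gr_symm (RS_H0 d π.n) _ hz.ne' u x, norm_mul, norm_mul, norm_neg,
              Complex.norm_real, Real.norm_eq_abs, abs_of_pos hlam]
            ring
          have e3 : ∑ u, ‖Gr (H0 d π.n) (fun x => π.lam * V x) π.z x u‖ ^ 4 ≤
              |gq 4 d π V| ^ 4 := by
            have h5 := sum_pow_le_rowN (q := 4) (by norm_num) (GG d π.n π.lam π.z V) x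
            have h6 : |gq 4 d π V| = rowN 4 (GG d π.n π.lam π.z V) :=
              abs_of_nonneg (rowN_nonneg 4 _)
            rw [h6]
            exact h5
          rw [e2]
          have e4 : (π.lam ^ 2) ^ 2 ^ p0 * |gq 4 d π V| ^ (4 * 2 ^ p0) =
              (π.lam ^ 2 * |gq 4 d π V| ^ 4) ^ 2 ^ p0 := by
            rw [mul_pow, ← pow_mul |gq 4 d π V|]
          rw [e4]
          refine pow_le_pow_left₀ ?_ ?_ _
          · exact mul_nonneg (sq_nonneg _) (Finset.sum_nonneg (fun u _ => by positivity))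
          · exact mul_le_mul_of_nonneg_left e3 (sq_nonneg _)
      refine b1.trans ?_
      have e5 : Ex ν (fun V : Tor d π.n → ℝ =>
          (π.lam ^ 2) ^ 2 ^ p0 * |gq 4 d π V| ^ (4 * 2 ^ p0)) =
          (π.lam ^ 2) ^ 2 ^ p0 * Ex ν (fun V : Tor d π.n → ℝ => |gq 4 d π V| ^ (4 * 2 ^ p0)) := by
        unfold Ex
        rw [integral_const_mul]
      rw [e5]
      have b2 := mul_le_mul_of_nonneg_left (hC' π hπ)
        (pow_nonneg (sq_nonneg π.lam) (2 ^ p0))
      refine b2.trans (le_of_eq ?_)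
      have e6 : (π.lam ^ 2) ^ 2 ^ p0 = π.lam ^ ((2 * 2 ^ p0 : ℕ) : ℝ) := by
        rw [← pow_mul, Real.rpow_natCast]
      rw [e6, mul_left_comm, ← Real.rpow_add hlam]
      congr 2
      push_cast
      rw [pow_succ]
      ring
  have e : xst ν d = fun π V => ⨆ x : Tor d π.n,
      |‖GG d π.n π.lam π.z V x x - gbar ν d π.n π.lam π.z‖| := by
    funext π V
    simp only [abs_norm]
    rfl
  rw [e]
  exact key

end Pool.Agent.BK
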