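import Pool.Agent.BK.Ker2

/-! BK module BLOCK: the time block integral on `ℤ^d`, `d ≥ 3`:
`|∫_T^{2T} e^{i(E+iγ)t} ∏ kz(t, x_l) dt| ≤ C/T` for `E ≥ b`, `T ≥ 1`. -/

open MeasureTheory Set

noncomputable section

namespace Pool.Agent.BK

lemma block_s1_pos {b : ℝ} (hb : 0 < b) (hb1 : b ≤ 1) : 0 < s1 b := by
  unfold s1
  apply Real.sqrt_pos.2
  nlinarith

lemma block_s1_lt {b : ℝ} (hb : 0 < b) : s1 b < 1 := by
  unfold s1
  rw [Real.sqrt_lt' one_pos]
  have : 0 < (b / 32) ^ 2 := by positivity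
  linarith

lemma block_kz_cont (b x : ℝ) : Continuous (fun t => kz b t x) := by
  unfold kz
  have h1 : Continuous (chi b) := (contDiff_chi b (n := 1)).continuous
  have h2 : Continuous (fun p : ℝ × ℝ => ((chi b p.2 : ℝ) : ℂ)) :=
    Complex.continuous_ofReal.comp (h1.comp continuous_snd)
  have h3 : Continuous (Function.uncurry fun (t θ : ℝ) => (chi b θ : ℂ) *
      Complex.exp (Complex.I * ((x * θ - t * (2 - 2 * Real.cos θ) : ℝ) : ℂ))) := by
    refine h2.mul ?_
    fun_prop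
  have h4 := intervalIntegral.continuous_parametric_intervalIntegral_of_continuous'
    (μ := volume) h3 (-Real.pi) Real.pi
  exact h4.const_smul (1 / (2 * Real.pi) : ℝ)

lemma block_norm_exp {ζ : ℂ} {t : ℝ} (hζ : 0 ≤ ζ.im) (ht : 0 ≤ t) :
    ‖Complex.exp (Complex.I * ζ * (t : ℂ))‖ ≤ 1 := by
  rw [Complex.norm_exp]
  have : (Complex.I * ζ * (t : ℂ)).re = -(ζ.im * t) := by
    simp
  rw [this, Real.exp_le_one_iff]
  have := mul_nonneg hζ ht
  linarith

lemma block_pow {C u : ℝ} (hC : 1 ≤ C) (hu : 0 ≤ u) (hu1 : u ≤ 1) {n k : ℕ} (h : k ≤ n) :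
    (C * u) ^ n ≤ C ^ n * u ^ k := by
  rw [mul_pow]
  exact mul_le_mul_of_nonneg_left (pow_le_pow_of_le_one hu hu1 h) (by positivity)

lemma block_sqrt {T t C : ℝ} (hC : 0 ≤ C) (hT : 1 ≤ T) (ht : T ≤ t) : C / √t ≤ C * (1 / √T) := by
  rw [mul_one_div]
  have h1 : 0 < √T := Real.sqrt_pos.2 (by linarith)
  exact div_le_div_of_nonneg_left hC h1 (Real.sqrt_le_sqrt ht)

lemma block_far {b C : ℝ} {d : ℕ} (hd : 3 ≤ d) (hC : 1 ≤ C)
    (h1 : ∀ t x : ℝ, 1 ≤ t → ‖kz b t x‖ ≤ C / √t)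
    (h2 : ∀ t x : ℝ, 1 ≤ t → 2 * t * s1 b ≤ |x| → ‖kz b t x‖ ≤ C / t)
    {T : ℝ} (hT : 1 ≤ T) {ζ : ℂ} (hζ : 0 ≤ ζ.im) (x : Fin d → ℝ) {t : ℝ} (ht : T ≤ t)
    (hs : 0 < s1 b) (hx : 2 * t * s1 b ≤ ‖x‖) :
    ‖Complex.exp (Complex.I * ζ * (t : ℂ)) * ∏ l, kz b t (x l)‖ ≤ C ^ d / T ^ 2 := by
  have ht1 : 1 ≤ t := hT.trans ht
  have hT0 : 0 < T := by linarith
  obtain ⟨l, hl⟩ : ∃ l, 2 * t * s1 b ≤ |x l| := by
    by_contra h
    push Not at h
    have : ‖x‖ < 2 * t * s1 b := by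
      refine (pi_norm_lt_iff (by positivity)).2 fun l => ?_
      rw [Real.norm_eq_abs]; exact h l
    linarith
  set u : ℝ := 1 / √T with hu
  have hs1 : 1 ≤ √T := by rw [Real.one_le_sqrt]; exact hT
  have hu0 : 0 < u := by positivity
  have hu1 : u ≤ 1 := by rw [hu, div_le_one (by linarith)]; exact hs1
  have huT : u ^ 2 = 1 / T := by
    rw [hu, div_pow, Real.sq_sqrt hT0.le, one_pow]
  rw [norm_mul, norm_prod, ← Finset.mul_prod_erase Finset.univ _ (Finset.mem_univ l)]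
  have e1 : ‖kz b t (x l)‖ ≤ C * u ^ 2 := by
    refine (h2 t (x l) ht1 hl).trans ?_
    rw [huT, mul_one_div]
    exact div_le_div_of_nonneg_left (by linarith) hT0 ht
  have e2 : ∏ j ∈ Finset.univ.erase l, ‖kz b t (x j)‖ ≤ C ^ (d - 1) * u ^ 2 := by
    calc ∏ j ∈ Finset.univ.erase l, ‖kz b t (x j)‖ ≤ ∏ j ∈ Finset.univ.erase l, (C * u) := by
          refine Finset.prod_le_prod (fun _ _ => norm_nonneg _) fun j _ => ?_
          exact (h1 t (x j) ht1).trans (block_sqrt (by linarith) hT ht)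
      _ = (C * u) ^ (d - 1) := by
          rw [Finset.prod_const, Finset.card_erase_of_mem (Finset.mem_univ l), Finset.card_univ,
            Fintype.card_fin]
      _ ≤ C ^ (d - 1) * u ^ 2 := block_pow hC hu0.le hu1 (by omega)
  have e3 : ‖Complex.exp (Complex.I * ζ * (t : ℂ))‖ ≤ 1 := block_norm_exp hζ (by linarith)
  calc _ ≤ 1 * ((C * u ^ 2) * (C ^ (d - 1) * u ^ 2)) := by
        refine mul_le_mul e3 (mul_le_mul e1 e2 ?_ (by positivity)) ?_ zero_le_one
        · exact Finset.prod_nonneg fun _ _ => norm_nonneg _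
        · exact mul_nonneg (norm_nonneg _) (Finset.prod_nonneg fun _ _ => norm_nonneg _)
    _ = C ^ (d - 1 + 1) * (u ^ 2) ^ 2 := by rw [pow_succ]; ring
    _ = C ^ d / T ^ 2 := by
        rw [Nat.sub_add_cancel (by omega), huT, div_pow, one_pow, mul_one_div]

lemma block_near {b C : ℝ} (hb : 0 < b) (hb1 : b ≤ 1) {d : ℕ} (hd : 3 ≤ d) (hC : 1 ≤ C)
    {A A' : ℝ → ℝ → ℂ}
    (h1 : ∀ x t, 1 ≤ t → |x| ≤ 2 * t * s1 b →
      kz b t x = A x t * Complex.exp (Complex.I * (phs x t : ℝ)))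
    (h2 : ∀ x t, 1 ≤ t → |x| ≤ 2 * t * s1 b → HasDerivAt (A x) (A' x t) t ∧ ‖A x t‖ ≤ C / √t ∧
      ‖A' x t‖ ≤ C / (t * √t))
    (h3 : ∀ x, ContinuousOn (A' x) {t | 1 ≤ t ∧ |x| ≤ 2 * t * s1 b})
    {T m : ℝ} (hT : 1 ≤ T) (hm : T ≤ m) (hm2 : m ≤ 2 * T) {ζ : ℂ} (hE : b ≤ ζ.re)
    (hζ : 0 ≤ ζ.im) (x : Fin d → ℝ) (hx : ‖x‖ ≤ 2 * m * s1 b) :
    ‖∫ t in m..(2 * T), Complex.exp (Complex.I * ζ * (t : ℂ)) * ∏ l, kz b t (x l)‖ ≤
      32 * (d + 2) * C ^ d / b / T := by
  classical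
  have hs := block_s1_pos hb hb1
  have hs' := block_s1_lt hb
  have hT0 : 0 < T := by linarith
  set u : ℝ := 1 / √T with hu
  have hs1 : 1 ≤ √T := by rw [Real.one_le_sqrt]; exact hT
  have hu0 : 0 < u := by positivity
  have hu1 : u ≤ 1 := by rw [hu, div_le_one (by linarith)]; exact hs1
  have huT : u ^ 2 = 1 / T := by
    rw [hu, div_pow, Real.sq_sqrt hT0.le, one_pow]
  have huT' : T * u ^ 2 = 1 := by rw [huT]; field_simp
  have hCd : 0 < C ^ d := by positivity
  -- the region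
  have hreg : ∀ t ∈ Icc m (2 * T), 1 ≤ t ∧ T ≤ t ∧ ∀ l, |x l| ≤ 2 * t * s1 b := by
    intro t ht
    have h4 : T ≤ t := hm.trans ht.1
    refine ⟨hT.trans h4, h4, fun l => ?_⟩
    have h5 : |x l| ≤ ‖x‖ := by rw [← Real.norm_eq_abs]; exact norm_le_pi_norm x l
    have h6 : 2 * m * s1 b ≤ 2 * t * s1 b := by
      apply mul_le_mul_of_nonneg_right _ hs.le
      linarith [ht.1]
    linarith
  have hlt : ∀ t ∈ Icc m (2 * T), ∀ l, |x l| < 2 * t := by
    intro t ht l
    obtain ⟨h4, h5, h6⟩ := hreg t ht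
    have h7 := h6 l
    have h8 : 2 * t * s1 b < 2 * t := by nlinarith
    linarith
  -- the amplitude
  set γ : ℝ := ζ.im with hγ
  set g : ℝ → ℂ := fun t => ((Real.exp (-γ * t) : ℝ) : ℂ) * ∏ l, A (x l) t with hgdef
  set g' : ℝ → ℂ := fun t => ((-γ * Real.exp (-γ * t) : ℝ) : ℂ) * ∏ l, A (x l) t +
    ((Real.exp (-γ * t) : ℝ) : ℂ) * ∑ l, (∏ j ∈ Finset.univ.erase l, A (x j) t) * A' (x l) t
    with hg'def
  set Φ : ℝ → ℝ := fun t => ζ.re * t + ∑ l, phs (x l) t with hΦ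
  set Φ' : ℝ → ℝ := fun t => ζ.re + ∑ l, phs' (x l) t with hΦ'
  set Φ'' : ℝ → ℝ := fun t => ∑ l, phs'' (x l) t with hΦ''
  have hcongr : ∫ t in m..(2 * T), Complex.exp (Complex.I * ζ * (t : ℂ)) * ∏ l, kz b t (x l) =
      ∫ t in m..(2 * T), g t * Complex.exp (Complex.I * (Φ t : ℝ)) := by
    apply intervalIntegral.integral_congr
    intro t ht
    rw [uIcc_of_le hm2] at ht
    obtain ⟨h4, h5, h6⟩ := hreg t ht
    simp only [hgdef, hΦ]
    have e1 : ∏ l, kz b t (x l) =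
        (∏ l, A (x l) t) * Complex.exp (Complex.I * ((∑ l, phs (x l) t : ℝ) : ℂ)) := by
      rw [Complex.ofReal_sum, Finset.mul_sum, Complex.exp_sum, ← Finset.prod_mul_distrib]
      exact Finset.prod_congr rfl fun l _ => h1 (x l) t h4 (h6 l)
    have e2 : Complex.exp (Complex.I * ζ * (t : ℂ)) =
        ((Real.exp (-γ * t) : ℝ) : ℂ) * Complex.exp (Complex.I * ((ζ.re * t : ℝ) : ℂ)) := by
      rw [Complex.ofReal_exp, ← Complex.exp_add]
      congr 1
      conv_lhs => rw [← Complex.re_add_im ζ]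
      push_cast
      rw [hγ]
      ring_nf
      rw [Complex.I_sq]
      ring
    rw [e1, e2, Complex.ofReal_add, mul_add, Complex.exp_add]
    ring
  have hgd : ∀ t ∈ Icc m (2 * T), HasDerivAt g (g' t) t := by
    intro t ht
    obtain ⟨h4, h5, h6⟩ := hreg t ht
    have e1 : HasDerivAt (fun t : ℝ => ((Real.exp (-γ * t) : ℝ) : ℂ))
        ((-γ * Real.exp (-γ * t) : ℝ) : ℂ) t := by
      apply HasDerivAt.ofReal_comp
      have := ((hasDerivAt_id t).const_mul (-γ)).exp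
      simpa [mul_comm] using this
    have e2 : HasDerivAt (fun t => ∏ l, A (x l) t)
        (∑ l, (∏ j ∈ Finset.univ.erase l, A (x j) t) • A' (x l) t) t :=
      HasDerivAt.fun_finsetProd fun l _ => (h2 (x l) t h4 (h6 l)).1
    have e3 := e1.mul e2
    simp only [smul_eq_mul] at e3
    exact e3
  have hAn : ∀ t ∈ Icc m (2 * T), ∀ l, ‖A (x l) t‖ ≤ C * u := by
    intro t ht l
    obtain ⟨h4, h5, h6⟩ := hreg t ht
    exact ((h2 (x l) t h4 (h6 l)).2.1).trans (block_sqrt (by linarith) hT h5)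
  have hAn' : ∀ t ∈ Icc m (2 * T), ∀ l, ‖A' (x l) t‖ ≤ C * u ^ 3 := by
    intro t ht l
    obtain ⟨h4, h5, h6⟩ := hreg t ht
    refine ((h2 (x l) t h4 (h6 l)).2.2).trans ?_
    have e1 : C * u ^ 3 = C / (T * √T) := by
      rw [pow_succ, huT, hu]; field_simp
    rw [e1]
    apply div_le_div_of_nonneg_left (by linarith) (by positivity)
    exact mul_le_mul h5 (Real.sqrt_le_sqrt h5) (Real.sqrt_nonneg _) (by linarith)
  have hprod : ∀ t ∈ Icc m (2 * T), ‖∏ l, A (x l) t‖ ≤ C ^ d * u ^ 3 := by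
    intro t ht
    rw [norm_prod]
    calc ∏ l, ‖A (x l) t‖ ≤ ∏ _l : Fin d, (C * u) :=
          Finset.prod_le_prod (fun _ _ => norm_nonneg _) fun j _ => hAn t ht j
      _ = (C * u) ^ d := by rw [Finset.prod_const, Finset.card_univ, Fintype.card_fin]
      _ ≤ _ := block_pow hC hu0.le hu1 hd
  have hsum : ∀ t ∈ Icc m (2 * T),
      ‖∑ l, (∏ j ∈ Finset.univ.erase l, A (x j) t) * A' (x l) t‖ ≤ d * C ^ d * u ^ 5 := by
    intro t ht
    calc _ ≤ ∑ l : Fin d, ‖(∏ j ∈ Finset.univ.erase l, A (x j) t) * A' (x l) t‖ :=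
          norm_sum_le _ _
      _ ≤ ∑ _l : Fin d, C ^ d * u ^ 5 := by
          refine Finset.sum_le_sum fun l _ => ?_
          rw [norm_mul, norm_prod]
          have e2 : ∏ j ∈ Finset.univ.erase l, ‖A (x j) t‖ ≤ C ^ (d - 1) * u ^ 2 := by
            calc ∏ j ∈ Finset.univ.erase l, ‖A (x j) t‖ ≤ ∏ j ∈ Finset.univ.erase l, (C * u) :=
                  Finset.prod_le_prod (fun _ _ => norm_nonneg _) fun j _ => hAn t ht j
              _ = (C * u) ^ (d - 1) := by
                  rw [Finset.prod_const, Finset.card_erase_of_mem (Finset.mem_univ l),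
                    Finset.card_univ, Fintype.card_fin]
              _ ≤ C ^ (d - 1) * u ^ 2 := block_pow hC hu0.le hu1 (by omega)
          calc _ ≤ (C ^ (d - 1) * u ^ 2) * (C * u ^ 3) :=
                mul_le_mul e2 (hAn' t ht l) (norm_nonneg _) (by positivity)
            _ = C ^ (d - 1 + 1) * u ^ 5 := by rw [pow_succ]; ring
            _ = C ^ d * u ^ 5 := by rw [Nat.sub_add_cancel (by omega)]
      _ = d * C ^ d * u ^ 5 := by
          rw [Finset.sum_const, Finset.card_univ, Fintype.card_fin, nsmul_eq_mul]; ring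
  have hexp : ∀ t ∈ Icc m (2 * T), Real.exp (-γ * t) ≤ 1 := by
    intro t ht
    obtain ⟨h4, h5, h6⟩ := hreg t ht
    rw [Real.exp_le_one_iff]
    have := mul_nonneg hζ (by linarith : (0 : ℝ) ≤ t)
    linarith
  have hG0 : ∀ t ∈ Icc m (2 * T), ‖g t‖ ≤ C ^ d * u ^ 3 := by
    intro t ht
    simp only [hgdef]
    rw [norm_mul, Complex.norm_real, Real.norm_eq_abs, abs_of_pos (Real.exp_pos _)]
    calc _ ≤ 1 * (C ^ d * u ^ 3) :=
          mul_le_mul (hexp t ht) (hprod t ht) (norm_nonneg _) zero_le_one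
      _ = _ := one_mul _
  have hAc : ∀ l, ContinuousOn (A (x l)) (Icc m (2 * T)) := fun l t ht => by
    obtain ⟨h4, h5, h6⟩ := hreg t ht
    exact (h2 (x l) t h4 (h6 l)).1.continuousAt.continuousWithinAt
  have hAc' : ∀ l, ContinuousOn (A' (x l)) (Icc m (2 * T)) := fun l =>
    (h3 (x l)).mono fun t ht => ⟨(hreg t ht).1, (hreg t ht).2.2 l⟩
  have hg'c : ContinuousOn g' (Icc m (2 * T)) := by
    simp only [hg'def]
    refine ContinuousOn.add (ContinuousOn.mul ?_ ?_) (ContinuousOn.mul ?_ ?_)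
    · exact (by fun_prop : Continuous fun t : ℝ => ((-γ * Real.exp (-γ * t) : ℝ) : ℂ)).continuousOn
    · exact continuousOn_finsetProd _ fun l _ => hAc l
    · exact (by fun_prop : Continuous fun t : ℝ => ((Real.exp (-γ * t) : ℝ) : ℂ)).continuousOn
    · exact continuousOn_finsetSum _ fun l _ =>
        (continuousOn_finsetProd _ fun j _ => hAc j).mul (hAc' l)
  have hG1 : ∫ t in m..(2 * T), ‖g' t‖ ≤ (1 + d) * C ^ d * u ^ 3 := by
    have e1 : ∀ t ∈ Icc m (2 * T), ‖g' t‖ ≤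
        γ * Real.exp (-γ * t) * (C ^ d * u ^ 3) + d * C ^ d * u ^ 5 := by
      intro t ht
      simp only [hg'def]
      refine (norm_add_le _ _).trans (add_le_add ?_ ?_)
      · rw [norm_mul, Complex.norm_real, Real.norm_eq_abs, neg_mul, abs_neg, abs_of_nonneg
          (mul_nonneg hζ (Real.exp_pos _).le)]
        exact mul_le_mul_of_nonneg_left (hprod t ht) (mul_nonneg hζ (Real.exp_pos _).le)
      · rw [norm_mul, Complex.norm_real, Real.norm_eq_abs, abs_of_pos (Real.exp_pos _)]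
        calc _ ≤ 1 * (d * C ^ d * u ^ 5) :=
              mul_le_mul (hexp t ht) (hsum t ht) (norm_nonneg _) zero_le_one
          _ = _ := one_mul _
    have e2 : ∫ t in m..(2 * T), (γ * Real.exp (-γ * t) * (C ^ d * u ^ 3) + d * C ^ d * u ^ 5) =
        (-(C ^ d * u ^ 3) * Real.exp (-γ * (2 * T)) + d * C ^ d * u ^ 5 * (2 * T)) -
        (-(C ^ d * u ^ 3) * Real.exp (-γ * m) + d * C ^ d * u ^ 5 * m) := by
      apply intervalIntegral.integral_eq_sub_of_hasDerivAt
        (f := fun t => -(C ^ d * u ^ 3) * Real.exp (-γ * t) + d * C ^ d * u ^ 5 * t)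
      · intro t _
        have f1 := ((hasDerivAt_id t).const_mul (-γ)).exp.const_mul (-(C ^ d * u ^ 3))
        have f2 := (hasDerivAt_id t).const_mul (d * C ^ d * u ^ 5)
        have f3 := f1.add f2
        have f4 : -(C ^ d * u ^ 3) * (Real.exp (-γ * id t) * (-γ * 1)) + d * C ^ d * u ^ 5 * 1 =
            γ * Real.exp (-γ * t) * (C ^ d * u ^ 3) + d * C ^ d * u ^ 5 := by
          simp only [id_eq]; ring
        rw [f4] at f3
        exact f3
      · exact (by fun_prop : Continuous fun t : ℝ =>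
          γ * Real.exp (-γ * t) * (C ^ d * u ^ 3) + d * C ^ d * u ^ 5).intervalIntegrable _ _
    calc ∫ t in m..(2 * T), ‖g' t‖
        ≤ ∫ t in m..(2 * T), (γ * Real.exp (-γ * t) * (C ^ d * u ^ 3) + d * C ^ d * u ^ 5) := by
          apply intervalIntegral.integral_mono_on hm2 _ _ e1
          · apply ContinuousOn.intervalIntegrable
            rw [uIcc_of_le hm2]
            exact hg'c.norm
          · exact (by fun_prop : Continuous fun t : ℝ =>
              γ * Real.exp (-γ * t) * (C ^ d * u ^ 3) + d * C ^ d * u ^ 5).intervalIntegrable _ _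
      _ = _ := e2
      _ = (C ^ d * u ^ 3) * (Real.exp (-γ * m) - Real.exp (-γ * (2 * T))) +
          d * C ^ d * u ^ 5 * (2 * T - m) := by ring
      _ ≤ (C ^ d * u ^ 3) * 1 + d * C ^ d * u ^ 5 * T := by
          apply add_le_add
          · apply mul_le_mul_of_nonneg_left _ (by positivity)
            have f1 := hexp m ⟨le_rfl, hm2⟩
            have f2 := Real.exp_pos (-γ * (2 * T))
            linarith
          · apply mul_le_mul_of_nonneg_left _ (by positivity)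
            linarith
      _ = (C ^ d * u ^ 3) * 1 + d * C ^ d * u ^ 3 * (T * u ^ 2) := by ring
      _ = (1 + d) * C ^ d * u ^ 3 := by rw [huT']; ring
  -- the phase
  have hΦd : ∀ t ∈ Icc m (2 * T), HasDerivAt Φ (Φ' t) t := by
    intro t ht
    obtain ⟨h4, h5, h6⟩ := hreg t ht
    have e1 : HasDerivAt (fun t : ℝ => ζ.re * t) ζ.re t := by
      simpa using (hasDerivAt_id t).const_mul ζ.re
    exact e1.add (HasDerivAt.fun_sum fun l _ => hasDerivAt_phs (by linarith) (hlt t ht l))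
  have hΦd' : ∀ t ∈ Icc m (2 * T), HasDerivAt Φ' (Φ'' t) t := by
    intro t ht
    obtain ⟨h4, h5, h6⟩ := hreg t ht
    have e1 : HasDerivAt (fun t => ∑ l, phs' (x l) t) (∑ l, phs'' (x l) t) t :=
      HasDerivAt.fun_sum fun l _ => hasDerivAt_phs' (by linarith) (hlt t ht l)
    exact e1.const_add ζ.re
  have hΦc : ContinuousOn Φ'' (Icc m (2 * T)) :=
    continuousOn_finsetSum _ fun l _ => (continuousOn_phs'' (x l)).mono fun t ht =>
      ⟨by linarith [(hreg t ht).1], hlt t ht l⟩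
  set S2 : ℝ := ∑ l, (x l / (4 * T)) ^ 2 with hS2
  have hΦge : ∀ t ∈ Icc m (2 * T), S2 / T ≤ Φ'' t := by
    intro t ht
    obtain ⟨h4, h5, h6⟩ := hreg t ht
    simp only [hΦ'', hS2]
    rw [Finset.sum_div]
    refine Finset.sum_le_sum fun l _ => ?_
    refine le_trans ?_ (phs''_ge (by linarith) (hlt t ht l))
    have e1 : (x l / (4 * T)) ^ 2 / T = x l ^ 2 / (2 * (2 * T) ^ 3) := by
      field_simp; ring
    rw [e1]
    apply div_le_div_of_nonneg_left (sq_nonneg _) (by positivity)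
    have := pow_le_pow_left₀ (by linarith : 0 ≤ t) ht.2 3
    linarith
  have hS20 : 0 ≤ S2 := Finset.sum_nonneg fun l _ => sq_nonneg _
  rw [hcongr]
  have hbT : 32 * (d + 2) * C ^ d / b / T = 32 * (d + 2) * C ^ d / b * u ^ 2 := by
    rw [huT]; ring
  rw [hbT]
  by_cases hcase : b / 16 ≤ S2
  · have hμ : 0 < b / (16 * T) := by positivity
    have key := vdc2 hm2 hμ hΦd hΦd' hΦc (Or.inl fun t ht => by
      refine le_trans ?_ (hΦge t ht)
      rw [← div_div]
      exact div_le_div_of_nonneg_right hcase hT0.le) hgd hg'c hG0 hG1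
    refine key.trans ?_
    have e1 : √(b / (16 * T)) = √b * u / 4 := by
      rw [Real.sqrt_div hb.le, Real.sqrt_mul (by norm_num), hu]
      rw [show (16 : ℝ) = 4 ^ 2 by norm_num, Real.sqrt_sq (by norm_num)]
      field_simp
    rw [e1]
    have hsb : b ≤ √b := by
      rw [Real.le_sqrt hb.le hb.le]; nlinarith
    have hsb0 : 0 < √b := Real.sqrt_pos.2 hb
    have e2 : 8 * (C ^ d * u ^ 3 + (1 + d) * C ^ d * u ^ 3) / (√b * u / 4) =
        32 * (d + 2) * C ^ d / √b * u ^ 2 := by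
      field_simp; ring
    rw [e2]
    apply mul_le_mul_of_nonneg_right _ (by positivity)
    exact div_le_div_of_nonneg_left (by positivity) hb hsb
  · push Not at hcase
    have hμ : 0 < b / 2 := by positivity
    have key := vdc1 hm2 hμ hΦd hΦd' hΦc (Or.inl fun t ht => by
      refine le_trans ?_ (hΦge t ht)
      positivity) (Or.inl fun t ht => by
      obtain ⟨h4, h5, h6⟩ := hreg t ht
      simp only [hΦ']
      have e1 : ∑ l, (-2 * (4 * (x l / (4 * T)) ^ 2)) ≤ ∑ l, phs' (x l) t := by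
        refine Finset.sum_le_sum fun l _ => ?_
        refine le_trans ?_ (phs'_ge (by linarith) (hlt t ht l))
        have e2 : 4 * (x l / (4 * T)) ^ 2 = x l ^ 2 / (2 * T) ^ 2 := by
          field_simp; ring
        have e3 : (x l / (2 * t)) ^ 2 ≤ 4 * (x l / (4 * T)) ^ 2 := by
          rw [e2, div_pow]
          apply div_le_div_of_nonneg_left (sq_nonneg _) (by positivity)
          exact pow_le_pow_left₀ (by linarith) (by linarith) 2
        linarith
      have e4 : ∑ l, (-2 * (4 * (x l / (4 * T)) ^ 2)) = -8 * S2 := by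
        rw [hS2, Finset.mul_sum]
        exact Finset.sum_congr rfl fun l _ => by ring
      rw [e4] at e1
      linarith) hgd hg'c hG0 hG1
    refine key.trans ?_
    have e2 : 4 * (C ^ d * u ^ 3 + (1 + d) * C ^ d * u ^ 3) / (b / 2) =
        (8 * (d + 2) * C ^ d / b * u ^ 2) * u := by
      field_simp; ring
    rw [e2]
    have e3 : (8 * (d + 2) * C ^ d / b * u ^ 2) * u ≤ (8 * (d + 2) * C ^ d / b * u ^ 2) * 1 :=
      mul_le_mul_of_nonneg_left hu1 (by positivity)
    refine e3.trans ?_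
    have e4 : (0 : ℝ) ≤ (d + 2) * C ^ d / b * u ^ 2 := by positivity
    have e5 : (8 * (d + 2) * C ^ d / b * u ^ 2) * 1 = 8 * ((d + 2) * C ^ d / b * u ^ 2) := by ring
    have e6 : 32 * (d + 2) * C ^ d / b * u ^ 2 = 32 * ((d + 2) * C ^ d / b * u ^ 2) := by ring
    rw [e5, e6]
    linarith

theorem block_line {b : ℝ} (hb : 0 < b) (hb1 : b ≤ 1) {d : ℕ} (hd : 3 ≤ d) :
    ∃ C : ℝ, 0 < C ∧ ∀ (T : ℝ) (ζ : ℂ) (x : Fin d → ℝ), 1 ≤ T → b ≤ ζ.re → 0 ≤ ζ.im →
      ‖∫ t in T..(2 * T), Complex.exp (Complex.I * ζ * (t : ℂ)) * ∏ l, kz b t (x l)‖ ≤ C / T := by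
  obtain ⟨C1, hC1, hk1⟩ := kz_le hb hb1
  obtain ⟨C2, hC2, hk2⟩ := kz_far hb hb1
  obtain ⟨C3, hC3, hk3⟩ := kz_near hb hb1
  choose A A' ha1 ha2 ha3 using hk3
  set C : ℝ := C1 + C2 + C3 + 1 with hC
  have hC' : 1 ≤ C := by linarith
  have hs := block_s1_pos hb hb1
  refine ⟨C ^ d + 32 * (d + 2) * C ^ d / b, by positivity, ?_⟩
  intro T ζ x hT hE hζ
  have hT0 : 0 < T := by linarith
  have h1 : ∀ t x : ℝ, 1 ≤ t → ‖kz b t x‖ ≤ C / √t := fun t x ht =>
    (hk1 t x ht).trans (div_le_div_of_nonneg_right (by linarith) (Real.sqrt_nonneg _))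
  have h2 : ∀ t x : ℝ, 1 ≤ t → 2 * t * s1 b ≤ |x| → ‖kz b t x‖ ≤ C / t := fun t x ht hx =>
    (hk2 t x ht hx).trans (div_le_div_of_nonneg_right (by linarith) (by linarith))
  have h3 : ∀ x t, 1 ≤ t → |x| ≤ 2 * t * s1 b → HasDerivAt (A x) (A' x t) t ∧
      ‖A x t‖ ≤ C / √t ∧ ‖A' x t‖ ≤ C / (t * √t) := fun x t ht hx => by
    obtain ⟨e1, e2, e3⟩ := ha2 x t ht hx
    exact ⟨e1, e2.trans (div_le_div_of_nonneg_right (by linarith) (Real.sqrt_nonneg _)),
      e3.trans (div_le_div_of_nonneg_right (by linarith)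
        (mul_nonneg (by linarith) (Real.sqrt_nonneg _)))⟩
  set F : ℝ → ℂ := fun t => Complex.exp (Complex.I * ζ * (t : ℂ)) * ∏ l, kz b t (x l) with hF
  have hFc : Continuous F := by
    refine Continuous.mul (by fun_prop) ?_
    exact continuous_finsetProd _ fun l _ => block_kz_cont b (x l)
  set m : ℝ := min (2 * T) (max T (‖x‖ / (2 * s1 b))) with hm
  have hm1 : T ≤ m := le_min (by linarith) (le_max_left _ _)
  have hm2 : m ≤ 2 * T := min_le_left _ _
  have hsplit : ∫ t in T..(2 * T), F t = (∫ t in T..m, F t) + ∫ t in m..(2 * T), F t :=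
    (intervalIntegral.integral_add_adjacent_intervals (hFc.intervalIntegrable _ _)
      (hFc.intervalIntegrable _ _)).symm
  have hp1 : ‖∫ t in T..m, F t‖ ≤ C ^ d / T := by
    have e1 : ∀ t ∈ Set.uIoc T m, ‖F t‖ ≤ C ^ d / T ^ 2 := by
      intro t ht
      rw [uIoc_of_le hm1] at ht
      apply block_far hd hC' h1 h2 hT hζ x ht.1.le hs
      have h4 : t ≤ max T (‖x‖ / (2 * s1 b)) := ht.2.trans (min_le_right _ _)
      rcases le_max_iff.1 h4 with h5 | h5
      · linarith [ht.1]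
      · rw [le_div_iff₀ (by positivity)] at h5
        linarith
    refine (intervalIntegral.norm_integral_le_of_norm_le_const e1).trans ?_
    rw [abs_of_nonneg (by linarith)]
    calc C ^ d / T ^ 2 * (m - T) ≤ C ^ d / T ^ 2 * T := by
          apply mul_le_mul_of_nonneg_left _ (by positivity)
          linarith
      _ = C ^ d / T := by field_simp
  have hp2 : ‖∫ t in m..(2 * T), F t‖ ≤ 32 * (d + 2) * C ^ d / b / T := by
    rcases eq_or_lt_of_le hm2 with h4 | h4
    · rw [h4, intervalIntegral.integral_same, norm_zero]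
      positivity
    · refine block_near hb hb1 hd hC' ha1 h3 ha3 hT hm1 hm2 hE hζ x ?_
      have h5 : max T (‖x‖ / (2 * s1 b)) ≤ m := by
        rcases min_choice (2 * T) (max T (‖x‖ / (2 * s1 b))) with h6 | h6
        · rw [← hm] at h6; linarith
        · rw [← hm] at h6; exact h6.ge
      have h6 := (le_max_right _ _).trans h5
      rw [div_le_iff₀ (by positivity)] at h6
      linarith
  rw [hsplit, add_div]
  exact (norm_add_le _ _).trans (add_le_add hp1 hp2)

end Pool.Agent.BK
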