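import Pool.Agent.BK.CDefs

/-! BK module CUR1C: numerology of the chosen momentum `k = kk` and length `s = sk`.
`k = 2π⌈lam^e N/2π⌉/N`, `e = 1 + A/2 - δ1 ∈ [1, 5/2]`, `N = 2n+1 ≥ lam^(-40)`, so
`lam^e ≤ k ≤ lam^e + 2π/N ≤ 2 lam^e`; `s = ⌊π/(3k)⌋ ≥ (π/6) lam^(-e) - 1 ≥ lam^(-e)/4` as `lam^(-e) ≥ 20`. -/

open MeasureTheory Finset Matrix

noncomputable section

namespace Pool.Agent.BK

variable {d n : ℕ}

/-- The chosen momentum is in the right range. -/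
lemma kk_bounds {lo hi lam0 A e2 δ1 : ℝ} (hl : lam0 ≤ 1 / 2) (hA : A ≤ 3) (hA0 : 2 ≤ A)
    (hδ0 : 0 ≤ δ1) (hδ1 : δ1 ≤ 1) {π : Par} (hπ : π ∈ PS lo hi lam0 A e2) :
    π.lam ^ (1 + A / 2 - δ1) ≤ kk A δ1 π ∧ kk A δ1 π ≤ 2 * π.lam ^ (1 + A / 2 - δ1) := by
  obtain ⟨h0, h1, h2, -⟩ := hπ
  set e : ℝ := 1 + A / 2 - δ1 with he
  have he1 : 1 ≤ e := by rw [he]; linarith
  have he2 : e ≤ 5 / 2 := by rw [he]; linarith
  have hl2 : π.lam ≤ 1 / 2 := h1.trans hl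
  have hN : (0 : ℝ) < 2 * π.n + 1 := by positivity
  have hpi : 0 < 2 * Real.pi := by positivity
  have hle : 0 < π.lam ^ e := Real.rpow_pos_of_pos h0 e
  have ha : 0 ≤ π.lam ^ e * (2 * π.n + 1) / (2 * Real.pi) := by positivity
  have hm1 : π.lam ^ e * (2 * π.n + 1) / (2 * Real.pi) ≤ (mk A δ1 π : ℝ) := Nat.le_ceil _
  have hm2 : (mk A δ1 π : ℝ) ≤ π.lam ^ e * (2 * π.n + 1) / (2 * Real.pi) + 1 :=
    (Nat.ceil_lt_add_one ha).le
  have hkk : kk A δ1 π = 2 * Real.pi * (mk A δ1 π : ℝ) / (2 * π.n + 1) := rfl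
  rw [hkk]
  constructor
  · rw [le_div_iff₀ hN]
    rw [div_le_iff₀ hpi] at hm1
    linarith
  · rw [div_le_iff₀ hN]
    -- 2π ≤ lam^e N
    have h3 : 2 * Real.pi ≤ π.lam ^ e * (2 * π.n + 1) := by
      have h4 : π.lam ^ e * π.lam ^ (-(40 : ℝ)) ≤ π.lam ^ e * (2 * π.n + 1) :=
        mul_le_mul_of_nonneg_left h2 hle.le
      have h5 : π.lam ^ e * π.lam ^ (-(40 : ℝ)) = π.lam ^ (-(40 - e)) := by
        rw [← Real.rpow_add h0]
        congr 1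
        ring
      have h6 : π.lam ^ (-(3 : ℝ)) ≤ π.lam ^ (-(40 - e)) :=
        Real.rpow_le_rpow_of_exponent_ge h0 (by linarith) (by linarith)
      have h7 : (8 : ℝ) ≤ π.lam ^ (-(3 : ℝ)) := by
        rw [Real.rpow_neg h0.le, le_inv_comm₀ (by norm_num) (Real.rpow_pos_of_pos h0 _)]
        have h8 : π.lam ^ (3 : ℝ) = π.lam ^ 3 := by
          rw [← Real.rpow_natCast]; norm_num
        rw [h8]
        calc π.lam ^ 3 ≤ (1 / 2) ^ 3 := by gcongr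
          _ = 8⁻¹ := by norm_num
      have h9 := Real.pi_le_four
      rw [h5] at h4
      linarith
    have h10 : 2 * Real.pi * (mk A δ1 π : ℝ) ≤
        2 * Real.pi * (π.lam ^ e * (2 * π.n + 1) / (2 * Real.pi) + 1) :=
      mul_le_mul_of_nonneg_left hm2 hpi.le
    have h11 : 2 * Real.pi * (π.lam ^ e * (2 * π.n + 1) / (2 * Real.pi) + 1) =
        π.lam ^ e * (2 * π.n + 1) + 2 * Real.pi := by
      field_simp
    linarith

/-- The length scale is at least `lam^(-(1+A/2-δ1))/4`. -/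
lemma sk_bounds {lo hi lam0 A e2 δ1 : ℝ} (hl : lam0 ≤ 1 / 20) (hA : A ≤ 3) (hA0 : 2 ≤ A)
    (hδ0 : 0 ≤ δ1) (hδ1 : δ1 ≤ 1) {π : Par} (hπ : π ∈ PS lo hi lam0 A e2) :
    1 ≤ sk A δ1 π ∧ π.lam ^ (-(1 + A / 2 - δ1)) / 4 ≤ sk A δ1 π ∧
      (sk A δ1 π : ℝ) ≤ 2 * π.lam ^ (-(1 + A / 2 - δ1)) := by
  obtain ⟨k1, k2⟩ := kk_bounds (hl.trans (by norm_num)) hA hA0 hδ0 hδ1 hπ
  obtain ⟨h0, h1, -, -⟩ := hπ
  set e : ℝ := 1 + A / 2 - δ1 with he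
  have he1 : 1 ≤ e := by rw [he]; linarith
  have hl2 : π.lam ≤ 1 / 20 := h1.trans hl
  have hle : 0 < π.lam ^ e := Real.rpow_pos_of_pos h0 e
  have hk : 0 < kk A δ1 π := hle.trans_le k1
  have hneg : π.lam ^ (-e) = (π.lam ^ e)⁻¹ := Real.rpow_neg h0.le e
  have hp3 := Real.pi_gt_three
  have hp4 := Real.pi_le_four
  have hpi : 0 < Real.pi := Real.pi_pos
  have hq : 0 ≤ Real.pi / (3 * kk A δ1 π) := by positivity
  have hs1 : (sk A δ1 π : ℝ) ≤ Real.pi / (3 * kk A δ1 π) := Nat.floor_le hq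
  have hs2 : Real.pi / (3 * kk A δ1 π) - 1 ≤ (sk A δ1 π : ℝ) := (Nat.sub_one_lt_floor _).le
  have h20 : (20 : ℝ) ≤ π.lam ^ (-e) := by
    have h3 : π.lam ^ (-(1 : ℝ)) ≤ π.lam ^ (-e) :=
      Real.rpow_le_rpow_of_exponent_ge h0 (by linarith) (by linarith)
    have h4 : (20 : ℝ) ≤ π.lam ^ (-(1 : ℝ)) := by
      rw [Real.rpow_neg_one, le_inv_comm₀ (by norm_num) h0]
      linarith
    linarith
  have hlow : π.lam ^ (-e) / 2 ≤ Real.pi / (3 * kk A δ1 π) := by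
    rw [hneg, le_div_iff₀ (by positivity)]
    have h5 : (π.lam ^ e)⁻¹ * kk A δ1 π ≤ 2 := by
      rw [inv_mul_le_iff₀ hle]
      linarith
    nlinarith
  have hupp : Real.pi / (3 * kk A δ1 π) ≤ 2 * π.lam ^ (-e) := by
    rw [hneg, div_le_iff₀ (by positivity)]
    have h5 : 1 ≤ (π.lam ^ e)⁻¹ * kk A δ1 π := by
      rw [le_inv_mul_iff₀ hle]
      linarith
    nlinarith
  have hs3 : π.lam ^ (-e) / 4 ≤ (sk A δ1 π : ℝ) := by linarith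
  refine ⟨?_, hs3, by linarith⟩
  have h6 : (1 : ℝ) ≤ (sk A δ1 π : ℝ) := by linarith
  exact_mod_cast h6

end Pool.Agent.BK
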