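import Pool.Agent.BK.Defs

/-! BK module C1C: calculus of the class `C1` and integrability for the product measure.
`C1 F F'` is stable under sums, products, conjugation, constants. A continuous function is
integrable for `Measure.pi (fun _ => ν)` because `ν` lives on the compact interval `[-R, R]`
(so the product measure lives on a compact box). -/

open MeasureTheory Finset

noncomputable section

namespace Pool.Agent.BK

variable {X : Type} [Fintype X] [DecidableEq X]

lemma C1.const (c : ℂ) : C1 (fun _ : X → ℝ => c) (fun _ _ => 0) where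
  cont := continuous_const
  cont' := fun _ => continuous_const
  deriv := fun V u => hasDerivAt_const (V u) c

private lemma C1.congr' {F : (X → ℝ) → ℂ} {F' G' : X → (X → ℝ) → ℂ} (hF : C1 F F')
    (h : ∀ u V, F' u V = G' u V) : C1 F G' := by
  have : F' = G' := by
    funext u V
    exact h u V
  exact this ▸ hF

lemma C1.add {F G : (X → ℝ) → ℂ} {F' G' : X → (X → ℝ) → ℂ} (hF : C1 F F') (hG : C1 G G') :
    C1 (fun V => F V + G V) (fun u V => F' u V + G' u V) where
  cont := hF.cont.add hG.cont
  cont' := fun u => (hF.cont' u).add (hG.cont' u)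
  deriv := fun V u => (hF.deriv V u).add (hG.deriv V u)

lemma C1.sub {F G : (X → ℝ) → ℂ} {F' G' : X → (X → ℝ) → ℂ} (hF : C1 F F') (hG : C1 G G') :
    C1 (fun V => F V - G V) (fun u V => F' u V - G' u V) where
  cont := hF.cont.sub hG.cont
  cont' := fun u => (hF.cont' u).sub (hG.cont' u)
  deriv := fun V u => (hF.deriv V u).sub (hG.deriv V u)

lemma C1.mul {F G : (X → ℝ) → ℂ} {F' G' : X → (X → ℝ) → ℂ} (hF : C1 F F') (hG : C1 G G') :
    C1 (fun V => F V * G V) (fun u V => F' u V * G V + F V * G' u V) where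
  cont := hF.cont.mul hG.cont
  cont' := fun u => ((hF.cont' u).mul hG.cont).add (hF.cont.mul (hG.cont' u))
  deriv := fun V u => by
    have h := (hF.deriv V u).mul (hG.deriv V u)
    rw [Function.update_eq_self] at h
    exact h

lemma C1.const_mul {F : (X → ℝ) → ℂ} {F' : X → (X → ℝ) → ℂ} (c : ℂ) (hF : C1 F F') :
    C1 (fun V => c * F V) (fun u V => c * F' u V) where
  cont := continuous_const.mul hF.cont
  cont' := fun u => continuous_const.mul (hF.cont' u)
  deriv := fun V u => (hF.deriv V u).const_mul c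

lemma C1.conj {F : (X → ℝ) → ℂ} {F' : X → (X → ℝ) → ℂ} (hF : C1 F F') :
    C1 (fun V => starRingEnd ℂ (F V)) (fun u V => starRingEnd ℂ (F' u V)) where
  cont := Complex.continuous_conj.comp hF.cont
  cont' := fun u => Complex.continuous_conj.comp (hF.cont' u)
  deriv := fun V u => (hF.deriv V u).star

lemma C1.pow {F : (X → ℝ) → ℂ} {F' : X → (X → ℝ) → ℂ} (hF : C1 F F') (k : ℕ) :
    C1 (fun V => F V ^ k) (fun u V => k * F V ^ (k - 1) * F' u V) := by
  induction k with
  | zero =>
    have h := C1.const (X := X) (1 : ℂ)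
    have h2 : C1 (fun V => F V ^ 0) (fun (_ : X) (_ : X → ℝ) => (0 : ℂ)) := by
      simpa using h
    refine h2.congr' ?_
    intro u V
    simp
  | succ k ih =>
    have h := ih.mul hF
    have h2 : C1 (fun V => F V ^ (k + 1))
        (fun u V => k * F V ^ (k - 1) * F' u V * F V + F V ^ k * F' u V) := by
      simpa [pow_succ] using h
    refine h2.congr' ?_
    intro u V
    rcases Nat.eq_zero_or_pos k with hk | hk
    · subst hk
      simp
    · obtain ⟨j, rfl⟩ := Nat.exists_eq_succ_of_ne_zero hk.ne'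
      simp only [Nat.succ_eq_add_one, Nat.add_sub_cancel]
      push_cast
      ring

lemma C1.sum {ι : Type} (s : Finset ι) {F : ι → (X → ℝ) → ℂ} {F' : ι → X → (X → ℝ) → ℂ}
    (hF : ∀ i ∈ s, C1 (F i) (F' i)) :
    C1 (fun V => ∑ i ∈ s, F i V) (fun u V => ∑ i ∈ s, F' i u V) := by
  classical
  induction s using Finset.induction_on with
  | empty =>
    have h := C1.const (X := X) (0 : ℂ)
    simpa using h
  | insert a s ha ih =>
    have h1 := hF a (Finset.mem_insert_self a s)
    have h2 := ih (fun i hi => hF i (Finset.mem_insert_of_mem hi))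
    have h3 := h1.add h2
    simpa [Finset.sum_insert ha] using h3

/-- The square norm `F conj F` of a `C1` function. -/
lemma C1.normSq {F : (X → ℝ) → ℂ} {F' : X → (X → ℝ) → ℂ} (hF : C1 F F') :
    C1 (fun V => ((‖F V‖ ^ 2 : ℝ) : ℂ))
      (fun u V => ((2 * (starRingEnd ℂ (F V) * F' u V).re : ℝ) : ℂ)) := by
  have h := hF.conj.mul hF
  have e1 : (fun V => ((‖F V‖ ^ 2 : ℝ) : ℂ)) = fun V => starRingEnd ℂ (F V) * F V := by
    funext V
    rw [mul_comm, Complex.mul_conj, Complex.normSq_eq_norm_sq]
  rw [e1]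
  refine h.congr' ?_
  intro u V
  have e2 : starRingEnd ℂ (F' u V) * F V = starRingEnd ℂ (starRingEnd ℂ (F V) * F' u V) := by
    rw [map_mul, Complex.conj_conj, mul_comm]
  rw [e2]
  generalize starRingEnd ℂ (F V) * F' u V = w
  apply Complex.ext
  · simp
    ring
  · simp

section Integr

variable {ν : Measure ℝ} {R s2 C : ℝ} {τ τ' : ℝ → ℝ}

lemma ae_mem_box (hν : NiceLaw ν R s2 C τ τ') :
    ∀ᵐ V ∂(Measure.pi fun _ : X => ν), ∀ x, V x ∈ Set.Icc (-R) R := by
  haveI := hν.prob
  rw [ae_all_iff]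
  intro x
  have h1 : ∀ᵐ t ∂ν, t ∈ Set.Icc (-R) R := by
    rw [ae_iff]
    exact hν.supp
  exact (Measure.tendsto_eval_ae_ae (μ := fun _ : X => ν) (i := x)).eventually h1

lemma integrable_cont (hν : NiceLaw ν R s2 C τ τ') {E : Type} [NormedAddCommGroup E]
    [NormedSpace ℝ E] {F : (X → ℝ) → E} (hF : Continuous F) :
    Integrable F (Measure.pi fun _ : X => ν) := by
  haveI := hν.prob
  have hK : IsCompact (Set.pi Set.univ (fun _ : X => Set.Icc (-R) R)) :=
    isCompact_univ_pi (fun _ => isCompact_Icc)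
  obtain ⟨B, hB⟩ := (hK.image (continuous_norm.comp hF)).isBounded.bddAbove
  have hb : ∀ᵐ V ∂(Measure.pi fun _ : X => ν), ‖F V‖ ≤ B := by
    filter_upwards [ae_mem_box (X := X) hν] with V hV
    exact hB ⟨V, fun x _ => hV x, rfl⟩
  exact Integrable.of_bound hF.aestronglyMeasurable B hb

lemma integrable_bdd_mul (hν : NiceLaw ν R s2 C τ τ') {F : (X → ℝ) → ℂ} (hF : Continuous F)
    {h : ℝ → ℝ} (hm : Measurable h) {B : ℝ} (hb : ∀ v, |h v| ≤ B) (u : X) :
    Integrable (fun V : X → ℝ => (h (V u) : ℂ) * F V) (Measure.pi fun _ : X => ν) := by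
  haveI := hν.prob
  have h1 : Measurable fun V : X → ℝ => (h (V u) : ℂ) :=
    Complex.measurable_ofReal.comp (hm.comp (measurable_pi_apply u))
  refine (integrable_cont hν hF).bdd_mul (c := B) h1.aestronglyMeasurable ?_
  refine Filter.Eventually.of_forall (fun V => ?_)
  rw [Complex.norm_real]
  exact hb _

lemma Ex_mono (hν : NiceLaw ν R s2 C τ τ') {F G : (X → ℝ) → ℝ} (hF : Continuous F)
    (hG : Continuous G) (h : ∀ V, F V ≤ G V) : Ex ν F ≤ Ex ν G :=
  integral_mono (integrable_cont hν hF) (integrable_cont hν hG) h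

end Integr

end Pool.Agent.BK
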