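import Pool.Agent.BK.Res2
import Pool.Agent.BK.C1c

/-! BK module RES3: dependence of the resolvent on the potential.
`∂G_xy/∂V_u = - lam G_xu G_uy` (rank one perturbation: `G(V + t e_u) - G(V) =
 - lam t G(V + t e_u) E_uu G(V)` by the resolvent identity and continuity of `G`). -/

open MeasureTheory Finset Matrix

noncomputable section

namespace Pool.Agent.BK

variable {X : Type} [Fintype X] [DecidableEq X] {H : Matrix X X ℂ} {z : ℂ}

lemma continuous_Gr (hH : RS H) (lam : ℝ) (hz : z.im ≠ 0) :
    Continuous fun V : X → ℝ => Gr H (fun x => lam * V x) z := by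
  have hA : Continuous fun V : X → ℝ =>
      H + Matrix.diagonal (fun x => ((lam * V x : ℝ) : ℂ)) - z • (1 : Matrix X X ℂ) := by
    have h1 : Continuous fun V : X → ℝ => (fun x => ((lam * V x : ℝ) : ℂ)) := by
      refine continuous_pi (fun x => ?_)
      exact Complex.continuous_ofReal.comp (continuous_const.mul (continuous_apply x))
    exact (continuous_const.add h1.matrix_diagonal).sub continuous_const
  have hdet : ∀ V : X → ℝ,
      (H + Matrix.diagonal (fun x => ((lam * V x : ℝ) : ℂ)) - z • (1 : Matrix X X ℂ)).det ≠ 0 := by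
    intro V
    have h2 := Gr_isUnit hH (fun x => lam * V x) hz
    rw [Matrix.isUnit_iff_isUnit_det] at h2
    exact h2.ne_zero
  have hE : (fun V : X → ℝ => Gr H (fun x => lam * V x) z) = fun V : X → ℝ =>
      (H + Matrix.diagonal (fun x => ((lam * V x : ℝ) : ℂ)) - z • (1 : Matrix X X ℂ)).det⁻¹ •
      (H + Matrix.diagonal (fun x => ((lam * V x : ℝ) : ℂ)) - z • (1 : Matrix X X ℂ)).adjugate := by
    funext V
    unfold Gr
    rw [Matrix.inv_def, Ring.inverse_eq_inv']
  rw [hE]
  exact (hA.matrix_det.inv₀ hdet).smul hA.matrix_adjugate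

private lemma res3_hasDerivAt {f φ : ℝ → ℂ} {a : ℝ} (h : ∀ t, f t - f a = ((t - a : ℝ) : ℂ) * φ t)
    (hφ : ContinuousAt φ a) : HasDerivAt f (φ a) a := by
  rw [hasDerivAt_iff_tendsto_slope]
  have h1 : Filter.Tendsto φ (nhdsWithin a {a}ᶜ) (nhds (φ a)) :=
    tendsto_nhdsWithin_of_tendsto_nhds hφ
  refine h1.congr' ?_
  filter_upwards [self_mem_nhdsWithin] with t ht
  have hne : t - a ≠ 0 := sub_ne_zero.mpr ht
  rw [slope_def_module, h t, ← Complex.real_smul, smul_smul, inv_mul_cancel₀ hne, one_smul]

private lemma res3_diff (hH : RS H) (lam : ℝ) (hz : z.im ≠ 0) (V : X → ℝ) (u : X) (t : ℝ)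
    (x y : X) :
    Gr H (fun w => lam * Function.update V u t w) z x y - Gr H (fun w => lam * V w) z x y =
      ((t - V u : ℝ) : ℂ) * (-(lam : ℂ) * Gr H (fun w => lam * Function.update V u t w) z x u *
        Gr H (fun w => lam * V w) z u y) := by
  set V' : X → ℝ := Function.update V u t with hV'
  set A : Matrix X X ℂ :=
    H + Matrix.diagonal (fun x => ((lam * V x : ℝ) : ℂ)) - z • (1 : Matrix X X ℂ) with hA
  set A' : Matrix X X ℂ :=
    H + Matrix.diagonal (fun x => ((lam * V' x : ℝ) : ℂ)) - z • (1 : Matrix X X ℂ) with hA'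
  have h1 : A * Gr H (fun w => lam * V w) z = 1 := mul_Gr hH _ hz
  have h2 : Gr H (fun w => lam * V' w) z * A' = 1 := Gr_mul hH _ hz
  set G := Gr H (fun w => lam * V w) z with hG
  set G' := Gr H (fun w => lam * V' w) z with hG'
  have h3 : G' - G = - (G' * (A' - A) * G) := by
    have e1 : G' * (A' - A) * G = (G' * A') * G - G' * (A * G) := by
      rw [mul_sub, sub_mul, mul_assoc G' A G]
    rw [e1, h1, h2, one_mul, mul_one]
    abel
  have h4 : A' - A = Matrix.diagonal (fun w => if w = u then (lam : ℂ) * ((t - V u : ℝ) : ℂ) else 0) := by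
    rw [hA, hA']
    ext i j
    simp only [Matrix.sub_apply, Matrix.add_apply, Matrix.diagonal_apply]
    by_cases hij : i = j
    · subst hij
      by_cases hiu : i = u
      · subst hiu
        simp only [hV', Function.update_self, if_true]
        push_cast
        ring
      · simp only [hV', Function.update_of_ne hiu, if_true, if_neg hiu]
        ring
    · simp only [if_neg hij]
      ring
  have h5 : (G' - G) x y = - ((G' * (A' - A) * G) x y) := by
    rw [h3]
    rfl
  have h6 : (G' * (A' - A) * G) x y = G' x u * ((lam : ℂ) * ((t - V u : ℝ) : ℂ)) * G u y := by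
    rw [h4, Matrix.mul_apply]
    rw [Finset.sum_eq_single u]
    · rw [Matrix.mul_diagonal, if_pos rfl]
    · intro w _ hw
      rw [Matrix.mul_diagonal, if_neg hw, mul_zero, zero_mul]
    · intro h
      exact absurd (Finset.mem_univ u) h
  rw [Matrix.sub_apply] at h5
  rw [h5, h6]
  ring

lemma C1_Gr (hH : RS H) (lam : ℝ) (hz : z.im ≠ 0) (x y : X) :
    C1 (fun V : X → ℝ => Gr H (fun x => lam * V x) z x y)
      (fun u V => -(lam : ℂ) * Gr H (fun x => lam * V x) z x u * Gr H (fun x => lam * V x) z u y) where
  cont := (continuous_Gr hH lam hz).matrix_elem x y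
  cont' := fun u => (continuous_const.mul ((continuous_Gr hH lam hz).matrix_elem x u)).mul
    ((continuous_Gr hH lam hz).matrix_elem u y)
  deriv := fun V u => by
    have hc : Continuous fun t : ℝ => Function.update V u t := continuous_const.update u continuous_id
    have hφ : Continuous fun t : ℝ =>
        (-(lam : ℂ) * Gr H (fun w => lam * Function.update V u t w) z x u *
        Gr H (fun w => lam * V w) z u y) :=
      (continuous_const.mul (((continuous_Gr hH lam hz).comp hc).matrix_elem x u)).mul
        continuous_const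
    have h := res3_hasDerivAt (f := fun t : ℝ => Gr H (fun w => lam * Function.update V u t w) z x y)
      (φ := fun t : ℝ => (-(lam : ℂ) * Gr H (fun w => lam * Function.update V u t w) z x u *
        Gr H (fun w => lam * V w) z u y)) (a := V u) ?_ hφ.continuousAt
    · simp only [Function.update_eq_self] at h
      exact h
    · intro t
      simp only [Function.update_eq_self]
      exact res3_diff hH lam hz V u t x y

lemma C1_Gr_sub (hH : RS H) (lam : ℝ) (hz : z.im ≠ 0) (M : Matrix X X ℂ) (x y : X) :
    C1 (fun V : X → ℝ => (Gr H (fun x => lam * V x) z - M) x y)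
      (fun u V => -(lam : ℂ) * Gr H (fun x => lam * V x) z x u * Gr H (fun x => lam * V x) z u y) := by
  have h := (C1_Gr hH lam hz x y).sub (C1.const (M x y))
  simp only [sub_zero] at h
  exact h

private lemma res3_iSup {ι : Type} [Fintype ι] {f : ι → (X → ℝ) → ℝ} (hf : ∀ i, Continuous (f i)) :
    Continuous fun V => ⨆ i, f i V := by
  rcases isEmpty_or_nonempty ι with hι | hι
  · simp only [Real.iSup_of_isEmpty]
    exact continuous_const
  · have h1 : (fun V => ⨆ i, f i V) =
        fun V => (Finset.univ : Finset ι).sup' Finset.univ_nonempty (fun i => f i V) := by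
      funext V
      rw [Finset.sup'_univ_eq_ciSup]
    rw [h1]
    exact Continuous.finset_sup'_apply Finset.univ_nonempty (fun i _ => hf i)

lemma continuous_supN {A : (X → ℝ) → Matrix X X ℂ} (hA : Continuous A) :
    Continuous fun V => supN (A V) := by
  unfold supN
  exact res3_iSup (fun p => (hA.matrix_elem p.1 p.2).norm)

lemma continuous_rowN (q : ℕ) {A : (X → ℝ) → Matrix X X ℂ} (hA : Continuous A) :
    Continuous fun V => rowN q (A V) := by
  unfold rowN
  refine res3_iSup (fun x => ?_)
  refine Continuous.rpow_const ?_ (fun _ => Or.inr (by positivity))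
  exact continuous_finset_sum _ (fun y _ => ((hA.matrix_elem x y).norm).pow q)

lemma continuous_diagN (g : ℂ) {A : (X → ℝ) → Matrix X X ℂ} (hA : Continuous A) :
    Continuous fun V => diagN (A V) g := by
  unfold diagN
  exact res3_iSup (fun x => ((hA.matrix_elem x x).sub continuous_const).norm)

end Pool.Agent.BK
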