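import Pool.Agent.BK.Tw1
import Pool.Agent.BK.Res3

/-! BK module NUB: gradient of partial masses.
For a set `O` of sites `f = ∑_{y ∈ O} |G_xy|²` has `∂_v f = -2 lam Re (G_xv w_v)`,
`w_v = ∑_{y ∈ O} G_vy conj(G_xy)`, `‖w‖_2 ≤ rowN 2 G/η`, `‖w‖_∞ ≤ (rowN 2 G)²`, so
`∑_v |∂_v f|² ≤ 4 lam² (∑|G_xv|⁴)^{1/2} (∑|w|⁴)^{1/2} ≤ 4 lam² (rowN 4 G)² (rowN 2 G)³/η`. -/

open MeasureTheory Finset Matrix

noncomputable section

namespace Pool.Agent.BK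

variable {X : Type} [Fintype X] [DecidableEq X] {H : Matrix X X ℂ} {z : ℂ}

theorem C1_mass (hH : RS H) (lam : ℝ) (hz : z.im ≠ 0) (O : Finset X) (x : X) :
    C1 (fun V : X → ℝ => ((∑ y ∈ O, ‖Gr H (fun x => lam * V x) z x y‖ ^ 2 : ℝ) : ℂ))
      (fun v V => ((-2 * lam * (Gr H (fun x => lam * V x) z x v *
        ∑ y ∈ O, Gr H (fun x => lam * V x) z v y *
          starRingEnd ℂ (Gr H (fun x => lam * V x) z x y)).re : ℝ) : ℂ)) := by
  have h := C1.sum O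
    (F := fun y V => ((‖Gr H (fun x => lam * V x) z x y‖ ^ 2 : ℝ) : ℂ))
    (F' := fun y u V => ((2 * (starRingEnd ℂ (Gr H (fun x => lam * V x) z x y) *
      (-(lam : ℂ) * Gr H (fun x => lam * V x) z x u * Gr H (fun x => lam * V x) z u y)).re : ℝ) : ℂ))
    (fun y _ => (C1_Gr hH lam hz x y).normSq)
  have e1 : (fun V : X → ℝ => ((∑ y ∈ O, ‖Gr H (fun x => lam * V x) z x y‖ ^ 2 : ℝ) : ℂ)) =
      fun V => ∑ y ∈ O, ((‖Gr H (fun x => lam * V x) z x y‖ ^ 2 : ℝ) : ℂ) := by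
    funext V
    rw [Complex.ofReal_sum]
  have e2 : (fun v (V : X → ℝ) => ((-2 * lam * (Gr H (fun x => lam * V x) z x v *
        ∑ y ∈ O, Gr H (fun x => lam * V x) z v y *
          starRingEnd ℂ (Gr H (fun x => lam * V x) z x y)).re : ℝ) : ℂ)) =
      fun u V => ∑ y ∈ O, ((2 * (starRingEnd ℂ (Gr H (fun x => lam * V x) z x y) *
      (-(lam : ℂ) * Gr H (fun x => lam * V x) z x u *
        Gr H (fun x => lam * V x) z u y)).re : ℝ) : ℂ) := by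
    funext v V
    rw [← Complex.ofReal_sum]
    congr 1
    rw [Finset.mul_sum, Complex.re_sum, Finset.mul_sum]
    refine Finset.sum_congr rfl fun y _ => ?_
    have e3 : starRingEnd ℂ (Gr H (fun x => lam * V x) z x y) *
      (-(lam : ℂ) * Gr H (fun x => lam * V x) z x v * Gr H (fun x => lam * V x) z v y) =
      ((-lam : ℝ) : ℂ) * (Gr H (fun x => lam * V x) z x v * (Gr H (fun x => lam * V x) z v y *
          starRingEnd ℂ (Gr H (fun x => lam * V x) z x y))) := by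
      push_cast
      ring
    rw [e3, Complex.re_ofReal_mul]
    ring
  rw [e1, e2]
  exact h

theorem grad_mass (hH : RS H) (lam : ℝ) (hz : 0 < z.im) (O : Finset X) (x : X) (V : X → ℝ) :
    ∑ v, ‖((-2 * lam * (Gr H (fun x => lam * V x) z x v *
        ∑ y ∈ O, Gr H (fun x => lam * V x) z v y *
          starRingEnd ℂ (Gr H (fun x => lam * V x) z x y)).re : ℝ) : ℂ)‖ ^ 2 ≤
      4 * lam ^ 2 * rowN 4 (Gr H (fun x => lam * V x) z) ^ 2 *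
        rowN 2 (Gr H (fun x => lam * V x) z) ^ 3 / z.im := by
  set G := Gr H (fun x => lam * V x) z with hG
  set r : X → ℂ := fun v => ∑ y ∈ O, G v y * starRingEnd ℂ (G x y) with hrd
  have hn2 : 0 ≤ rowN 2 G := rowN_nonneg 2 G
  -- sup bound
  have h1 : ∀ v, ‖r v‖ ^ 2 ≤ (rowN 2 G ^ 2) ^ 2 := by
    intro v
    have ha : ‖r v‖ ≤ ∑ y, ‖G v y‖ * ‖G x y‖ := by
      refine (norm_sum_le _ _).trans ?_
      calc ∑ y ∈ O, ‖G v y * starRingEnd ℂ (G x y)‖ = ∑ y ∈ O, ‖G v y‖ * ‖G x y‖ := by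
            refine Finset.sum_congr rfl fun y _ => ?_
            rw [norm_mul, RCLike.norm_conj]
        _ ≤ ∑ y, ‖G v y‖ * ‖G x y‖ :=
            Finset.sum_le_sum_of_subset_of_nonneg (Finset.subset_univ O)
              fun y _ _ => by positivity
    have hb : (∑ y, ‖G v y‖ * ‖G x y‖) ^ 2 ≤ (∑ y, ‖G v y‖ ^ 2) * ∑ y, ‖G x y‖ ^ 2 :=
      Finset.sum_mul_sq_le_sq_mul_sq _ _ _
    have hc : ∀ v, ∑ y, ‖G v y‖ ^ 2 ≤ rowN 2 G ^ 2 := fun v =>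
      sum_pow_le_rowN (by norm_num) G v
    calc ‖r v‖ ^ 2 ≤ (∑ y, ‖G v y‖ * ‖G x y‖) ^ 2 := by gcongr
      _ ≤ (∑ y, ‖G v y‖ ^ 2) * ∑ y, ‖G x y‖ ^ 2 := hb
      _ ≤ rowN 2 G ^ 2 * rowN 2 G ^ 2 := by
        gcongr
        · exact hc v
        · exact hc x
      _ = _ := by ring
  -- l2 bound
  have h2 : ∑ v, ‖r v‖ ^ 2 ≤ (1 / z.im) ^ 2 * rowN 2 G ^ 2 := by
    have h := nsq_Gr_mulVec hH (fun x => lam * V x) hz
      (fun y => if y ∈ O then starRingEnd ℂ (G x y) else 0)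
    rw [← hG] at h
    have e : ∑ v, ‖r v‖ ^ 2 = nsq (G *ᵥ fun y => if y ∈ O then starRingEnd ℂ (G x y) else 0) := by
      unfold nsq
      refine Finset.sum_congr rfl fun v _ => ?_
      have : r v = (G *ᵥ fun y => if y ∈ O then starRingEnd ℂ (G x y) else 0) v := by
        simp only [hrd, Matrix.mulVec, dotProduct, mul_ite, mul_zero, Finset.sum_ite_mem,
          Finset.univ_inter]
      rw [this]
    rw [e]
    refine h.trans ?_
    have : nsq (fun y => if y ∈ O then starRingEnd ℂ (G x y) else 0) ≤ ∑ y, ‖G x y‖ ^ 2 := by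
      unfold nsq
      refine Finset.sum_le_sum fun y _ => ?_
      dsimp only
      split_ifs
      · rw [RCLike.norm_conj]
      · rw [norm_zero, zero_pow two_ne_zero]
        positivity
    have hc : ∑ y, ‖G x y‖ ^ 2 ≤ rowN 2 G ^ 2 := sum_pow_le_rowN (by norm_num) G x
    gcongr
    exact this.trans hc
  have h3 : ∑ v, ‖r v‖ ^ 4 ≤ (rowN 2 G ^ 3 / z.im) ^ 2 := by
    calc ∑ v, ‖r v‖ ^ 4 = ∑ v, ‖r v‖ ^ 2 * ‖r v‖ ^ 2 := by
          refine Finset.sum_congr rfl fun v _ => by ring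
      _ ≤ ∑ v, (rowN 2 G ^ 2) ^ 2 * ‖r v‖ ^ 2 := by
          exact Finset.sum_le_sum fun v _ => mul_le_mul_of_nonneg_right (h1 v) (by positivity)
      _ = (rowN 2 G ^ 2) ^ 2 * ∑ v, ‖r v‖ ^ 2 := by rw [Finset.mul_sum]
      _ ≤ (rowN 2 G ^ 2) ^ 2 * ((1 / z.im) ^ 2 * rowN 2 G ^ 2) := by gcongr
      _ = _ := by field_simp
  have h4 : ∑ v, ‖G x v‖ ^ 4 ≤ (rowN 4 G ^ 2) ^ 2 := by
    have := sum_pow_le_rowN (q := 4) (by norm_num) G x
    calc _ ≤ rowN 4 G ^ 4 := this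
      _ = _ := by ring
  have h5 : (∑ v, ‖r v‖ ^ 2 * ‖G x v‖ ^ 2) ^ 2 ≤
      (rowN 2 G ^ 3 / z.im * rowN 4 G ^ 2) ^ 2 := by
    calc (∑ v, ‖r v‖ ^ 2 * ‖G x v‖ ^ 2) ^ 2 ≤
          (∑ v, (‖r v‖ ^ 2) ^ 2) * ∑ v, (‖G x v‖ ^ 2) ^ 2 :=
          Finset.sum_mul_sq_le_sq_mul_sq _ _ _
      _ = (∑ v, ‖r v‖ ^ 4) * ∑ v, ‖G x v‖ ^ 4 := by
          congr 1 <;> exact Finset.sum_congr rfl fun v _ => by ring
      _ ≤ (rowN 2 G ^ 3 / z.im) ^ 2 * (rowN 4 G ^ 2) ^ 2 := by gcongr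
      _ = _ := by ring
  have h6 : ∑ v, ‖r v‖ ^ 2 * ‖G x v‖ ^ 2 ≤ rowN 2 G ^ 3 / z.im * rowN 4 G ^ 2 :=
    le_of_sq_le_sq h5 (by positivity)
  calc ∑ v, ‖((-2 * lam * (G x v * r v).re : ℝ) : ℂ)‖ ^ 2
      ≤ 4 * lam ^ 2 * ∑ v, ‖r v‖ ^ 2 * ‖G x v‖ ^ 2 := by
        rw [Finset.mul_sum]
        refine Finset.sum_le_sum fun v _ => ?_
        rw [Complex.norm_real, Real.norm_eq_abs, sq_abs]
        have h7 : (G x v * r v).re ^ 2 ≤ (‖G x v‖ * ‖r v‖) ^ 2 := by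
          rw [← norm_mul, ← sq_abs]
          gcongr
          exact Complex.abs_re_le_norm _
        calc (-2 * lam * (G x v * r v).re) ^ 2 = 4 * lam ^ 2 * (G x v * r v).re ^ 2 := by ring
          _ ≤ 4 * lam ^ 2 * (‖G x v‖ * ‖r v‖) ^ 2 := by gcongr
          _ = _ := by ring
    _ ≤ 4 * lam ^ 2 * (rowN 2 G ^ 3 / z.im * rowN 4 G ^ 2) := by gcongr
    _ = _ := by ring

end Pool.Agent.BK
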