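import Pool.Agent.BK.CDefs
import Pool.Agent.BK.TorB

/-! BK module ORTHA: symmetry. For every sign vector `σ`, `E ∑_{y ∈ orthT σ j s} |G_0y|²` is the same
number (reflection invariance `GG_rfl'`, `Ex_perm`), and the sets `orthT σ j s` over all `σ` cover
`{s ≤ |ŷ_j|}`; so each is `≥ 2^{-d} E ∑_{s ≤ |ŷ_j|} |G_0y|²`. -/

open MeasureTheory Finset Matrix

noncomputable section

namespace Pool.Agent.BK

lemma orthA_neg {n : ℕ} (a : ZMod (2 * n + 1)) : (-a).valMinAbs = -a.valMinAbs := by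
  apply ZMod.valMinAbs_neg_of_ne_half
  omega

lemma orthA_smul {n : ℕ} (s : ℤˣ) (a : ZMod (2 * n + 1)) :
    ((s : ℤ) • a).valMinAbs = (s : ℤ) * a.valMinAbs := by
  rcases Int.units_eq_one_or s with h | h
  · rw [h]
    simp
  · rw [h]
    simp [orthA_neg]

lemma orthA_sq (s : ℤˣ) : (s : ℤ) * (s : ℤ) = 1 := by
  rcases Int.units_eq_one_or s with h | h <;> rw [h] <;> simp

/-- the reflection maps orthants to orthants -/
lemma orthA_mem {d n : ℕ} (σ τ : Fin d → ℤˣ) (j : Fin d) (s : ℕ) (y : Tor d n) :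
    rfl' (fun l => σ l * τ l) y ∈ orthT τ j s ↔ y ∈ orthT σ j s := by
  have h : ∀ l, ((τ l : ℤˣ) : ℤ) * (rfl' (fun l => σ l * τ l) y l).valMinAbs =
      (σ l : ℤ) * (y l).valMinAbs := by
    intro l
    unfold rfl'
    rw [orthA_smul, Units.val_mul]
    have := orthA_sq (τ l)
    linear_combination ((σ l : ℤ) * (y l).valMinAbs) * this
  simp only [orthT, Finset.mem_filter, Finset.mem_univ, true_and, h]

/-- the reflection as a permutation -/
def orthAe {d n : ℕ} (σ : Fin d → ℤˣ) : Tor d n ≃ Tor d n where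
  toFun := rfl' σ
  invFun := rfl' σ
  left_inv := rfl'_rfl' σ
  right_inv := rfl'_rfl' σ

lemma orthA_zero {d n : ℕ} (σ : Fin d → ℤˣ) : rfl' σ (0 : Tor d n) = 0 := by
  funext l
  unfold rfl'
  simp

lemma orthA_msT {d : ℕ} (π : Par) (σ τ : Fin d → ℤˣ) (j : Fin d) (s : ℕ) (V : Tor d π.n → ℝ) :
    msT π τ j s V = msT π σ j s (fun u => V (rfl' (fun l => σ l * τ l) u)) := by
  unfold msT
  symm
  refine Finset.sum_bij (fun y _ => rfl' (fun l => σ l * τ l) y) ?_ ?_ ?_ ?_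
  · intro y hy
    exact (orthA_mem σ τ j s y).2 hy
  · intro y _ y' _ h
    have := congrArg (rfl' fun l => σ l * τ l) h
    rwa [rfl'_rfl', rfl'_rfl'] at this
  · intro y hy
    refine ⟨rfl' (fun l => σ l * τ l) y, ?_, rfl'_rfl' _ _⟩
    rw [← orthA_mem σ τ, rfl'_rfl']
    exact hy
  · intro y _
    rw [← GG_rfl', orthA_zero]

lemma orthA_Ex {ν : Measure ℝ} [IsProbabilityMeasure ν] {d : ℕ} (π : Par) (σ τ : Fin d → ℤˣ)
    (j : Fin d) (s : ℕ) : Ex ν (msT π σ j s) = Ex ν (msT π τ j s) := by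
  have h := Ex_perm ν (orthAe (n := π.n) fun l => σ l * τ l) (msT π σ j s)
  rw [← h]
  congr 1
  funext V
  exact (orthA_msT π σ τ j s V).symm

/-- every point of `s ≤ |y_j|` lies in one of the orthants -/
lemma orthA_cover {d n : ℕ} (j : Fin d) (s : ℕ) (y : Tor d n)
    (hy : (s : ℤ) ≤ |(y j).valMinAbs|) : ∃ σ : Fin d → ℤˣ, y ∈ orthT σ j s := by
  refine ⟨fun l => if 0 ≤ (y l).valMinAbs then 1 else -1, ?_⟩
  have h : ∀ l, (((if 0 ≤ (y l).valMinAbs then 1 else -1 : ℤˣ)) : ℤ) * (y l).valMinAbs =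
      |(y l).valMinAbs| := by
    intro l
    split_ifs with h
    · rw [abs_of_nonneg h]
      simp
    · rw [abs_of_neg (not_le.1 h)]
      simp
  simp only [orthT, Finset.mem_filter, Finset.mem_univ, true_and, h]
  exact ⟨fun l => abs_nonneg _, hy⟩

lemma orthA_le {d : ℕ} (π : Par) (j : Fin d) (s : ℕ) (V : Tor d π.n → ℝ) :
    ∑ y ∈ Finset.univ.filter (fun y : Tor d π.n => (s : ℤ) ≤ |(y j).valMinAbs|),
        ‖GG d π.n π.lam π.z V 0 y‖ ^ 2 ≤ ∑ σ : Fin d → ℤˣ, msT π σ j s V := by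
  classical
  unfold msT orthT
  have h1 : ∀ σ : Fin d → ℤˣ, ∑ y ∈ Finset.univ.filter (fun y : Tor d π.n =>
      (∀ l, 0 ≤ (σ l : ℤ) * (y l).valMinAbs) ∧ (s : ℤ) ≤ (σ j : ℤ) * (y j).valMinAbs),
        ‖GG d π.n π.lam π.z V 0 y‖ ^ 2 =
      ∑ y : Tor d π.n, if (∀ l, 0 ≤ (σ l : ℤ) * (y l).valMinAbs) ∧
        (s : ℤ) ≤ (σ j : ℤ) * (y j).valMinAbs then ‖GG d π.n π.lam π.z V 0 y‖ ^ 2 else 0 :=
    fun σ => Finset.sum_filter _ _
  rw [Finset.sum_congr rfl fun σ _ => h1 σ, Finset.sum_comm, Finset.sum_filter]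
  refine Finset.sum_le_sum fun y _ => ?_
  split_ifs with hy
  · obtain ⟨σ, hσ⟩ := orthA_cover j s y hy
    simp only [orthT, Finset.mem_filter, Finset.mem_univ, true_and] at hσ
    refine le_trans (le_of_eq ?_) (Finset.single_le_sum (f := fun σ : Fin d → ℤˣ =>
      if (∀ l, 0 ≤ (σ l : ℤ) * (y l).valMinAbs) ∧
        (s : ℤ) ≤ (σ j : ℤ) * (y j).valMinAbs then ‖GG d π.n π.lam π.z V 0 y‖ ^ 2 else 0)
      (fun σ _ => by positivity) (Finset.mem_univ σ))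
    rw [if_pos hσ]
  · exact Finset.sum_nonneg fun σ _ => by positivity

lemma orthA_cont {d : ℕ} (π : Par) (hη : 0 < π.eta) (y : Tor d π.n) :
    Continuous fun V : Tor d π.n → ℝ => ‖GG d π.n π.lam π.z V 0 y‖ ^ 2 := by
  have hz : π.z.im ≠ 0 := hη.ne'
  have h := (C1_Gr (RS_H0 d π.n) π.lam hz 0 y).cont
  exact (continuous_norm.comp h).pow 2

lemma Ex_msT_ge {ν : Measure ℝ} {R s2 C : ℝ} {τ τ' : ℝ → ℝ} (hν : NiceLaw ν R s2 C τ τ')
    {d : ℕ} (π : Par) (hη : 0 < π.eta) (σ : Fin d → ℤˣ) (j : Fin d) {s : ℕ} (hs : 1 ≤ s) :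
    (2 ^ d : ℝ)⁻¹ * Ex ν (fun V : Tor d π.n → ℝ =>
      ∑ y ∈ Finset.univ.filter (fun y : Tor d π.n => (s : ℤ) ≤ |(y j).valMinAbs|),
        ‖GG d π.n π.lam π.z V 0 y‖ ^ 2) ≤ Ex ν (msT π σ j s) := by
  have := hν.prob
  have hc : ∀ σ : Fin d → ℤˣ, Continuous (msT π σ j s) := fun σ =>
    continuous_finset_sum _ fun y _ => orthA_cont π hη y
  have h1 : Ex ν (fun V : Tor d π.n → ℝ =>
      ∑ y ∈ Finset.univ.filter (fun y : Tor d π.n => (s : ℤ) ≤ |(y j).valMinAbs|),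
        ‖GG d π.n π.lam π.z V 0 y‖ ^ 2) ≤ Ex ν (fun V => ∑ σ : Fin d → ℤˣ, msT π σ j s V) :=
    Ex_mono hν (continuous_finset_sum _ fun y _ => orthA_cont π hη y)
      (continuous_finset_sum _ fun σ _ => hc σ) (orthA_le π j s)
  have h2 : Ex ν (fun V => ∑ σ : Fin d → ℤˣ, msT π σ j s V) = 2 ^ d * Ex ν (msT π σ j s) := by
    unfold Ex
    rw [integral_finset_sum _ fun σ _ => integrable_cont hν (hc σ)]
    have h3 : ∀ σ' : Fin d → ℤˣ, ∫ V, msT π σ' j s V ∂(Measure.pi fun _ : Tor d π.n => ν) =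
        ∫ V, msT π σ j s V ∂(Measure.pi fun _ : Tor d π.n => ν) := fun σ' => orthA_Ex π σ' σ j s
    rw [Finset.sum_congr rfl fun σ' _ => h3 σ', Finset.sum_const, nsmul_eq_mul]
    congr 1
    rw [Finset.card_univ, Fintype.card_fun, Fintype.card_units_int, Fintype.card_fin]
    push_cast
    ring
  rw [h2] at h1
  have h3 : (0 : ℝ) < 2 ^ d := by positivity
  rw [inv_mul_le_iff₀ h3]
  exact h1

end Pool.Agent.BK
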