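import Pool.Agent.BK.Cur3
import Pool.Agent.BK.OrthA
import Pool.Agent.BK.Mom
import Pool.Agent.BK.Cur1c
import Pool.Agent.BK.NuB

/-! BK module ORTH: masses in orthants with high probability.
(1) with `s = sk = ⌊π/(3k)⌋`: for `|ŷ_j| < s`, `cos(kŷ_j) ≥ 1/2`; by `current`
`(19/20) m ≤ ½ (m - m_out) + 2 m_out` with `m = Im gb/η`, so `m_out ≥ (3/10) m ≥ (3/10) κ/η`, and
`Ex_msT_ge` gives `E msT ≥ 2^{-d} (3/10) κ/η ≥ 2^{-d} (3/20) κ lam^(-A)` (`η ≤ 2 lam^A`).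
(2) concentration: `moments` with `C1_mass`, `grad_mass`: gradient²
`≤ 4 lam² rowN4² rowN2³/η ≺ lam^(2 - 5A/2)` (`rowN 2 G ≺ lam^(-A/2)`, `rowN 4 G ≺ 1`), so
`msT - E msT ≺ lam^(1 - 5A/4)` and `1 - 5A/4 > -A`: `Dom.tail`. (To have uniformity in `σ, j` take the
maximum over the finitely many `σ, j`.) Take `c = 2^{-d} (3/40) κ`. -/

open MeasureTheory Finset Matrix

noncomputable section

namespace Pool.Agent.BK

/-- On the set `|ŷ_j| < s` the factor `1 - cos` is at most `1/2`. -/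
lemma orth_cos {d : ℕ} {A δ1 : ℝ} {π : Par} (hk : 0 < kk A δ1 π) (j : Fin d) (y : Tor d π.n)
    (hy : ¬ ((sk A δ1 π : ℤ) ≤ |(y j).valMinAbs|)) :
    1 - Real.cos (kk A δ1 π * ((y j).valMinAbs : ℝ)) ≤ 1 / 2 := by
  have h1 : |((y j).valMinAbs : ℝ)| ≤ (sk A δ1 π : ℝ) := by
    have : |(y j).valMinAbs| ≤ (sk A δ1 π : ℤ) := (not_le.1 hy).le
    exact_mod_cast this
  have hq : 0 ≤ Real.pi / (3 * kk A δ1 π) := by positivity
  have h2 : (sk A δ1 π : ℝ) ≤ Real.pi / (3 * kk A δ1 π) := Nat.floor_le hq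
  have h3 : |kk A δ1 π * ((y j).valMinAbs : ℝ)| ≤ Real.pi / 3 := by
    rw [abs_mul, abs_of_pos hk]
    calc kk A δ1 π * |((y j).valMinAbs : ℝ)| ≤ kk A δ1 π * (Real.pi / (3 * kk A δ1 π)) := by
          gcongr
          exact h1.trans h2
      _ = _ := by field_simp
  have h4 : Real.cos (Real.pi / 3) ≤ Real.cos |kk A δ1 π * ((y j).valMinAbs : ℝ)| :=
    Real.cos_le_cos_of_nonneg_of_le_pi (abs_nonneg _) (by linarith [Real.pi_pos]) h3
  rw [Real.cos_abs, Real.cos_pi_div_three] at h4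
  linarith

/-- lower bound for the mass far away. -/
lemma orth_mean {ν : Measure ℝ} {R s2 C : ℝ} {τ τ' : ℝ → ℝ} (hν : NiceLaw ν R s2 C τ τ')
    {d : ℕ} {A δ1 : ℝ} (π : Par) (hη : 0 < π.eta) (hk : 0 < kk A δ1 π) (hs : 1 ≤ sk A δ1 π)
    (σ : Fin d → ℤˣ) (j : Fin d)
    (hcur : 19 / 20 * ((gb ν d π).im / π.eta) ≤ Ex ν (fun V : Tor d π.n → ℝ =>
        ∑ y, ‖GG d π.n π.lam π.z V 0 y‖ ^ 2 *
          (1 - Real.cos (kk A δ1 π * ((y j).valMinAbs : ℝ))))) :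
    (2 ^ d : ℝ)⁻¹ * (3 / 10 * ((gb ν d π).im / π.eta)) ≤ Ex ν (msT π σ j (sk A δ1 π)) := by
  have hz : 0 < π.z.im := hη
  have hcy : ∀ y : Tor d π.n, Continuous fun V : Tor d π.n → ℝ =>
      ‖GG d π.n π.lam π.z V 0 y‖ ^ 2 := fun y => orthA_cont π hη y
  have hE1 : Ex ν (fun V : Tor d π.n → ℝ => ∑ y, ‖GG d π.n π.lam π.z V 0 y‖ ^ 2) =
      (gb ν d π).im / π.eta := by
    have h1 : (fun V : Tor d π.n → ℝ => ∑ y, ‖GG d π.n π.lam π.z V 0 y‖ ^ 2) =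
        fun V : Tor d π.n → ℝ => π.eta⁻¹ * (GG d π.n π.lam π.z V 0 0).im := by
      funext V
      have h2 : ∑ y, ‖GG d π.n π.lam π.z V 0 y‖ ^ 2 =
          (GG d π.n π.lam π.z V 0 0).im / π.z.im :=
        ward (RS_H0 d π.n) (fun x => π.lam * V x) hz 0
      rw [h2, div_eq_inv_mul]
      rfl
    rw [h1]
    have i3 : Integrable (fun V : Tor d π.n → ℝ => GG d π.n π.lam π.z V 0 0)
        (Measure.pi fun _ : Tor d π.n => ν) :=
      integrable_cont hν ((cur3_continuous_GG d π.n π.lam hz.ne').matrix_elem 0 0)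
    rw [dom1_Ex_mul, div_eq_inv_mul]
    congr 1
    exact integral_im i3
  have hE2 : Ex ν (fun V : Tor d π.n → ℝ =>
        ∑ y, ‖GG d π.n π.lam π.z V 0 y‖ ^ 2 *
          (1 - Real.cos (kk A δ1 π * ((y j).valMinAbs : ℝ)))) ≤
      Ex ν (fun V : Tor d π.n → ℝ => 1 / 2 * ∑ y, ‖GG d π.n π.lam π.z V 0 y‖ ^ 2 +
        3 / 2 * ∑ y ∈ Finset.univ.filter
          (fun y : Tor d π.n => (sk A δ1 π : ℤ) ≤ |(y j).valMinAbs|),
          ‖GG d π.n π.lam π.z V 0 y‖ ^ 2) := by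
    refine Ex_mono hν (continuous_finsetSum _ fun y _ => (hcy y).mul continuous_const)
      ((continuous_const.mul (continuous_finsetSum _ fun y _ => hcy y)).add
        (continuous_const.mul (continuous_finsetSum _ fun y _ => hcy y))) fun V => ?_
    rw [Finset.sum_filter, Finset.mul_sum, Finset.mul_sum, ← Finset.sum_add_distrib]
    refine Finset.sum_le_sum fun y _ => ?_
    have h0 : 0 ≤ ‖GG d π.n π.lam π.z V 0 y‖ ^ 2 := by positivity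
    split_ifs with hy
    · have h1 := Real.neg_one_le_cos (kk A δ1 π * ((y j).valMinAbs : ℝ))
      nlinarith
    · have h1 := orth_cos hk j y hy
      nlinarith
  have hE3 : Ex ν (fun V : Tor d π.n → ℝ => 1 / 2 * ∑ y, ‖GG d π.n π.lam π.z V 0 y‖ ^ 2 +
        3 / 2 * ∑ y ∈ Finset.univ.filter
          (fun y : Tor d π.n => (sk A δ1 π : ℤ) ≤ |(y j).valMinAbs|),
          ‖GG d π.n π.lam π.z V 0 y‖ ^ 2) =
      1 / 2 * Ex ν (fun V : Tor d π.n → ℝ => ∑ y, ‖GG d π.n π.lam π.z V 0 y‖ ^ 2) +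
      3 / 2 * Ex ν (fun V : Tor d π.n → ℝ => ∑ y ∈ Finset.univ.filter
          (fun y : Tor d π.n => (sk A δ1 π : ℤ) ≤ |(y j).valMinAbs|),
          ‖GG d π.n π.lam π.z V 0 y‖ ^ 2) := by
    have h1 := dom1_Ex_add hν (f := fun V : Tor d π.n → ℝ =>
        1 / 2 * ∑ y, ‖GG d π.n π.lam π.z V 0 y‖ ^ 2)
      (g := fun V : Tor d π.n → ℝ => 3 / 2 * ∑ y ∈ Finset.univ.filter
          (fun y : Tor d π.n => (sk A δ1 π : ℤ) ≤ |(y j).valMinAbs|),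
          ‖GG d π.n π.lam π.z V 0 y‖ ^ 2)
      (continuous_const.mul (continuous_finsetSum _ fun y _ => hcy y))
      (continuous_const.mul (continuous_finsetSum _ fun y _ => hcy y))
    exact h1.trans (congrArg₂ (· + ·) (dom1_Ex_mul _ _) (dom1_Ex_mul _ _))
  have h4 := hcur.trans (hE2.trans_eq hE3)
  rw [hE1] at h4
  refine le_trans ?_ (Ex_msT_ge hν π hη σ j hs)
  have h2d : (0 : ℝ) < (2 ^ d : ℝ)⁻¹ := by positivity
  refine mul_le_mul_of_nonneg_left ?_ h2d.le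
  linarith

/-- moments of the fluctuations of partial masses. -/
lemma orth_mom {ν : Measure ℝ} {R s2 C : ℝ} {τ τ' : ℝ → ℝ} (hν : NiceLaw ν R s2 C τ τ') (k : ℕ) :
    ∃ D : ℝ, 0 < D ∧ ∀ (d : ℕ) (π : Par) (_ : 0 < π.eta) (O : Finset (Tor d π.n)),
      Ex ν (fun V : Tor d π.n → ℝ => |(∑ y ∈ O, ‖GG d π.n π.lam π.z V 0 y‖ ^ 2) -
        Ex ν (fun V : Tor d π.n → ℝ => ∑ y ∈ O, ‖GG d π.n π.lam π.z V 0 y‖ ^ 2)| ^ 2 ^ (k + 1)) ≤
      D * Ex ν (fun V : Tor d π.n → ℝ =>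
        (4 * π.lam ^ 2 * gq 4 d π V ^ 2 * gq 2 d π V ^ 3 / π.eta) ^ 2 ^ k) := by
  obtain ⟨D, hD, H⟩ := moments hν k
  refine ⟨D, hD, fun d π hη O => ?_⟩
  have hz : 0 < π.z.im := hη
  have h1 := H (Tor d π.n) _ _ (C1_mass (RS_H0 d π.n) π.lam hz.ne' O 0)
  have hc := cur3_continuous_GG d π.n π.lam hz.ne'
  have e1 : Ex ν (fun V : Tor d π.n → ℝ =>
      ((∑ y ∈ O, ‖GG d π.n π.lam π.z V 0 y‖ ^ 2 : ℝ) : ℂ)) =
      ((Ex ν (fun V : Tor d π.n → ℝ => ∑ y ∈ O, ‖GG d π.n π.lam π.z V 0 y‖ ^ 2) : ℝ) : ℂ) :=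
    integral_complex_ofReal
  have e2 : (fun V : Tor d π.n → ℝ => |(∑ y ∈ O, ‖GG d π.n π.lam π.z V 0 y‖ ^ 2) -
        Ex ν (fun V : Tor d π.n → ℝ => ∑ y ∈ O, ‖GG d π.n π.lam π.z V 0 y‖ ^ 2)| ^ 2 ^ (k + 1)) =
      fun V : Tor d π.n → ℝ => ‖((∑ y ∈ O, ‖GG d π.n π.lam π.z V 0 y‖ ^ 2 : ℝ) : ℂ) -
        Ex ν (fun V : Tor d π.n → ℝ =>
          ((∑ y ∈ O, ‖GG d π.n π.lam π.z V 0 y‖ ^ 2 : ℝ) : ℂ))‖ ^ 2 ^ (k + 1) := by
    funext V
    rw [e1, ← Complex.ofReal_sub, Complex.norm_real, Real.norm_eq_abs]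
  rw [e2]
  refine h1.trans (mul_le_mul_of_nonneg_left ?_ hD.le)
  have c4 : Continuous (gq 4 d π) := continuous_rowN 4 hc
  have c2 : Continuous (gq 2 d π) := continuous_rowN 2 hc
  refine Ex_mono hν ?_ ?_ fun V => ?_
  · refine (continuous_finsetSum _ fun u _ => ?_).pow _
    exact ((C1_mass (RS_H0 d π.n) π.lam hz.ne' O 0).cont' u).norm.pow 2
  · exact ((((continuous_const.mul (c4.pow 2)).mul (c2.pow 3)).div_const _)).pow _
  · exact pow_le_pow_left₀ (Finset.sum_nonneg fun u _ => by positivity)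
      (grad_mass (RS_H0 d π.n) π.lam hz O 0 V) _

/-- uniform concentration of the masses of all orthants. -/
lemma orth_dom {ν : Measure ℝ} {R s2 C : ℝ} {τ τ' : ℝ → ℝ} (hν : NiceLaw ν R s2 C τ τ')
    {d : ℕ} (hd : 0 < d) {lo hi lam0 A e2 δ1 κ : ℝ} (hl : lam0 ≤ 1 / 20)
    (hL : LocL ν d (PS lo hi lam0 A e2) κ) :
    Dom ν d (PS lo hi lam0 A e2) (fun π V => ⨆ i : (Fin d → ℤˣ) × Fin d,
      |msT π i.1 i.2 (sk A δ1 π) V - Ex ν (msT π i.1 i.2 (sk A δ1 π))|) (1 - 5 / 4 * A) := by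
  set S := PS lo hi lam0 A e2 with hSdef
  have hS : Good S := good_PS (hl.trans (by norm_num))
  have hη : ∀ π ∈ S, 0 < π.eta := fun π hπ =>
    (Real.rpow_pos_of_pos hπ.1 _).trans_le hπ.2.2.2.2.2.2.1
  have hcont : ∀ π ∈ S, Continuous fun V : Tor d π.n → ℝ => GG d π.n π.lam π.z V := fun π hπ =>
    cur3_continuous_GG d π.n π.lam (ne_of_gt (hη π hπ) : π.z.im ≠ 0)
  have hηl : ∀ π ∈ S, π.lam ^ A ≤ π.eta := fun π hπ => hπ.2.2.2.2.2.2.1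
  have hgq : ∀ π ∈ S, Continuous (gq 2 d π) := fun π hπ => continuous_rowN 2 (hcont π hπ)
  have dg2 : Dom ν d S (fun π V => gq 2 d π V ^ 2) (-A) := by
    have h1 : Dom ν d S (fun π V => π.eta⁻¹ * ginf d π V) (-A + 0) := by
      refine Dom.det_mul hν hS hL.ginf 1 (fun π => π.eta⁻¹) fun π hπ => ?_
      have h2 := hη π hπ
      rw [abs_of_pos (inv_pos.2 h2), one_mul, Real.rpow_neg hπ.1.le]
      exact inv_anti₀ (Real.rpow_pos_of_pos hπ.1 _) (hηl π hπ)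
    rw [add_zero] at h1
    refine Dom.mono hν hS h1 (fun π hπ => (hgq π hπ).pow 2) fun π hπ V => ?_
    have h2 := rowN_two_Gr (RS_H0 d π.n) (fun x => π.lam * V x) (z := π.z) (hη π hπ)
    have h3 : gq 2 d π V ^ 2 ≤ π.eta⁻¹ * ginf d π V := by
      rw [mul_comm, ← div_eq_mul_inv]; exact h2
    rw [abs_of_nonneg (sq_nonneg _)]
    exact h3.trans (le_abs_self _)
  have dg3 : Dom ν d S (fun π V => gq 2 d π V ^ 3) (3 / 2 * (-A)) := by
    have h1 := Dom.rpow hν hS dg2 (fun π _ V => sq_nonneg _) (s := 3 / 2) (by norm_num)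
    refine Dom.mono hν hS h1 (fun π hπ => (hgq π hπ).pow 3) fun π hπ V => ?_
    have h0 : 0 ≤ gq 2 d π V := rowN_nonneg 2 _
    have e : (gq 2 d π V ^ 2) ^ (3 / 2 : ℝ) = gq 2 d π V ^ 3 := by
      rw [← Real.rpow_natCast, ← Real.rpow_natCast, ← Real.rpow_mul h0]
      norm_num
    rw [e]
  have dB : Dom ν d S (fun π V => 4 * π.lam ^ 2 * gq 4 d π V ^ 2 * gq 2 d π V ^ 3 / π.eta)
      (2 - 5 / 2 * A) := by
    have h1 := Dom.det_mul (b := 2 - A) hν hS ((hL.g4.pow hν hS 2).mul hν hS dg3) 4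
      (fun π => 4 * π.lam ^ 2 / π.eta) fun π hπ => by
        have h0 := hπ.1
        have h2 := hη π hπ
        have h3 := hηl π hπ
        have h4 : 0 < π.lam ^ A := Real.rpow_pos_of_pos h0 _
        rw [abs_of_nonneg (by positivity), Real.rpow_sub h0, Real.rpow_two, ← mul_div_assoc]
        gcongr
    have e : 2 - A + (((2 : ℕ) : ℝ) * 0 + 3 / 2 * (-A)) = 2 - 5 / 2 * A := by
      push_cast
      ring
    rw [e] at h1
    have e2 : (fun (π : Par) (V : Tor d π.n → ℝ) =>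
        4 * π.lam ^ 2 * gq 4 d π V ^ 2 * gq 2 d π V ^ 3 / π.eta) =
        fun (π : Par) (V : Tor d π.n → ℝ) =>
          4 * π.lam ^ 2 / π.eta * (gq 4 d π V ^ 2 * gq 2 d π V ^ 3) := by
      funext π V
      ring
    rw [e2]
    exact h1
  have : Nonempty (Fin d) := ⟨⟨0, hd⟩⟩
  have hcm : ∀ π ∈ S, ∀ i : (Fin d → ℤˣ) × Fin d, Continuous fun V : Tor d π.n → ℝ =>
      msT π i.1 i.2 (sk A δ1 π) V - Ex ν (msT π i.1 i.2 (sk A δ1 π)) := fun π hπ i =>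
    (continuous_finsetSum _ fun y _ => orthA_cont π (hη π hπ) y).sub continuous_const
  refine Dom.iSup hν hS (fun _ => (Fin d → ℤˣ) × Fin d)
    (Fintype.card ((Fin d → ℤˣ) × Fin d) : ℝ) 0 (fun π hπ => by
      rw [neg_zero, Real.rpow_zero, mul_one])
    (fun π i V => msT π i.1 i.2 (sk A δ1 π) V - Ex ν (msT π i.1 i.2 (sk A δ1 π))) hcm ?_
  intro p0
  refine ⟨2 ^ (p0 + 1), ?_, fun ε hε => ?_⟩
  · have h1 : p0 < 2 ^ p0 := Nat.lt_two_pow_self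
    have h2 : 2 ^ p0 ≤ 2 ^ (p0 + 1) := Nat.pow_le_pow_right (by norm_num) (by omega)
    omega
  · obtain ⟨D, hD, hmom⟩ := orth_mom hν p0
    obtain ⟨K, hK⟩ := dB.2 (2 ^ p0) ε hε
    refine ⟨D * K, fun π hπ i => ?_⟩
    have h1 := hmom d π (hη π hπ) (orthT i.1 i.2 (sk A δ1 π))
    have h2 := hK π hπ
    have e1 : (fun V : Tor d π.n → ℝ =>
        (4 * π.lam ^ 2 * gq 4 d π V ^ 2 * gq 2 d π V ^ 3 / π.eta) ^ 2 ^ p0) =
        fun V : Tor d π.n → ℝ =>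
        |4 * π.lam ^ 2 * gq 4 d π V ^ 2 * gq 2 d π V ^ 3 / π.eta| ^ 2 ^ p0 := by
      funext V
      have h3 : 0 ≤ gq 2 d π V := rowN_nonneg 2 _
      have h4 := hη π hπ
      rw [abs_of_nonneg (by positivity)]
    rw [e1] at h1
    refine le_trans h1 ?_
    rw [mul_assoc]
    refine mul_le_mul_of_nonneg_left (h2.trans_eq ?_) hD.le
    congr 2
    push_cast
    rw [pow_succ]
    ring

theorem orth_whp {ν : Measure ℝ} {R s2 C : ℝ} {τ τ' : ℝ → ℝ} (hν : NiceLaw ν R s2 C τ τ')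
    {d : ℕ} {lo' hi' : ℝ} (hF : FreeB d lo' hi') {lo hi lam0 A e2 δ1 κ : ℝ}
    (hl0 : 0 < lam0) (hl : lam0 ≤ 1 / 20) (hA2 : 2 < A) (hA : A < 12 / 5) (hδ1 : 0 < δ1)
    (hδ2 : 2 + 2 * δ1 < A) (hδ3 : 5 / 4 * A + δ1 < 3) (hκ : 0 < κ)
    (hL : LocL ν d (PS lo hi lam0 A e2) κ)
    (hZ : Zok ν s2 d lo' hi' 1 (1 / 20) (PS lo hi lam0 A e2)) :
    ∃ c : ℝ, 0 < c ∧ ∀ m0 : ℝ, ∃ K lam1 : ℝ, 0 < K ∧ 0 < lam1 ∧ lam1 ≤ lam0 ∧
      ∀ π ∈ PS lo hi lam1 A e2, π.eta ≤ 2 * π.lam ^ A → ∀ (σ : Fin d → ℤˣ) (j : Fin d),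
        ((Measure.pi fun _ : Tor d π.n => ν)
          {V | msT π σ j (sk A δ1 π) V < c * π.lam ^ (-A)}).toReal ≤ K * π.lam ^ m0 := by
  have hprob := hν.prob
  rcases Nat.eq_zero_or_pos d with hd0 | hd
  · subst hd0
    exact ⟨1, one_pos, fun m0 => ⟨1, lam0, one_pos, hl0, le_rfl, fun π _ _ σ j => j.elim0⟩⟩
  obtain ⟨lamc, hlc0, hlc1, hcur⟩ := current hν hF hl0 (hl.trans (by norm_num)) hA2 hA hδ1 hδ2
    hδ3 hκ hL hZ
  set c : ℝ := (2 ^ d : ℝ)⁻¹ * (3 / 40) * κ with hc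
  have hc0 : 0 < c := by positivity
  refine ⟨c, hc0, fun m0 => ?_⟩
  set b : ℝ := (1 - 9 / 4 * A) / 2 with hb
  have hb1 : b < 1 - 5 / 4 * A := by rw [hb]; linarith
  have hb2 : 0 < b + A := by rw [hb]; linarith
  have hS : Good (PS lo hi lam0 A e2) := good_PS (hl.trans (by norm_num))
  obtain ⟨K, hK0, hK⟩ := Dom.tail hν hS (orth_dom (δ1 := δ1) hν hd hl hL) hb1 m0
  set l1 : ℝ := c ^ (1 / (b + A)) with hl1
  have hl10 : 0 < l1 := Real.rpow_pos_of_pos hc0 _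
  refine ⟨K, min lamc l1, hK0, lt_min hlc0 hl10, (min_le_left _ _).trans hlc1, ?_⟩
  intro π hπ hη2 σ j
  have hlam := hπ.1
  have hπ0 : π ∈ PS lo hi lam0 A e2 :=
    ⟨hπ.1, hπ.2.1.trans ((min_le_left _ _).trans hlc1), hπ.2.2⟩
  have hπc : π ∈ PS lo hi lamc A e2 := ⟨hπ.1, hπ.2.1.trans (min_le_left _ _), hπ.2.2⟩
  have hlA : 0 < π.lam ^ A := Real.rpow_pos_of_pos hlam _
  have hη : 0 < π.eta := hlA.trans_le hπ0.2.2.2.2.2.2.1
  have hkb := kk_bounds (hl.trans (by norm_num)) (by linarith) hA2.le hδ1.le (by linarith) hπ0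
  have hk : 0 < kk A δ1 π := (Real.rpow_pos_of_pos hlam _).trans_le hkb.1
  have hs := (sk_bounds hl (by linarith) hA2.le hδ1.le (by linarith) hπ0).1
  have hmean := orth_mean hν π hη hk hs σ j (hcur π hπc hη2 j)
  have him := hL.im π hπ0
  have hm2 : 2 * c * π.lam ^ (-A) ≤ Ex ν (msT π σ j (sk A δ1 π)) := by
    refine le_trans ?_ hmean
    have h2d : (0 : ℝ) < (2 ^ d : ℝ)⁻¹ := by positivity
    have h1 : κ / (2 * π.lam ^ A) ≤ (gb ν d π).im / π.eta := by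
      have h3 : 0 ≤ (gb ν d π).im := hκ.le.trans him
      calc κ / (2 * π.lam ^ A) ≤ (gb ν d π).im / (2 * π.lam ^ A) := by gcongr
        _ ≤ (gb ν d π).im / π.eta := by gcongr
    calc 2 * c * π.lam ^ (-A) = (2 ^ d : ℝ)⁻¹ * (3 / 10 * (κ / (2 * π.lam ^ A))) := by
          rw [hc, Real.rpow_neg hlam.le]
          field_simp
          ring
      _ ≤ _ := by gcongr
  have hsmall : π.lam ^ b ≤ c * π.lam ^ (-A) := by
    have h1 : π.lam ≤ l1 := hπ.2.1.trans (min_le_right _ _)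
    have h2 : π.lam ^ (b + A) ≤ c := by
      calc π.lam ^ (b + A) ≤ l1 ^ (b + A) := Real.rpow_le_rpow hlam.le h1 hb2.le
        _ = c := by
          rw [hl1, ← Real.rpow_mul hc0.le, one_div, inv_mul_cancel₀ hb2.ne', Real.rpow_one]
    calc π.lam ^ b = π.lam ^ (b + A) * π.lam ^ (-A) := by
          rw [← Real.rpow_add hlam]
          congr 1
          ring
      _ ≤ c * π.lam ^ (-A) := by
          exact mul_le_mul_of_nonneg_right h2 (Real.rpow_nonneg hlam.le _)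
  refine le_trans (ENNReal.toReal_mono (measure_ne_top _ _) (measure_mono ?_)) (hK π hπ0)
  intro V hV
  simp only [Set.mem_ofPred_eq] at hV ⊢
  refine le_trans ?_ (le_abs_self _)
  refine le_trans ?_ (le_ciSup (f := fun i : (Fin d → ℤˣ) × Fin d =>
    |msT π i.1 i.2 (sk A δ1 π) V - Ex ν (msT π i.1 i.2 (sk A δ1 π))|)
    (Set.finite_range _).bddAbove (σ, j))
  have h5 : c * π.lam ^ (-A) ≤ Ex ν (msT π σ j (sk A δ1 π)) - msT π σ j (sk A δ1 π) V := by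
    linarith
  calc π.lam ^ b ≤ c * π.lam ^ (-A) := hsmall
    _ ≤ Ex ν (msT π σ j (sk A δ1 π)) - msT π σ j (sk A δ1 π) V := h5
    _ ≤ |Ex ν (msT π σ j (sk A δ1 π)) - msT π σ j (sk A δ1 π) V| := le_abs_self _
    _ = _ := abs_sub_comm _ _

end Pool.Agent.BK
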