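import Pool.Agent.BK.Lift
import Pool.Agent.BK.Orth
import Pool.Agent.Helper3.Weak.Chain

/-! BK module BRIDGE: from a good torus event to the hypothesis of `chain_bound`.

(law_bridge) `ω ↦ (r ↦ ω(y + emb r) - m)` maps `PP d μ` to the product of the centred law
(`emb` is injective; `infinitePi` restricted to finitely many coordinates is `Measure.pi`,
`MeasureTheory.Measure.infinitePi_map_...`).
(det_bridge) deterministic: let `V_r = clip(ω(y+emb r)) - m` with torus parameter `E - lam m`;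
`potc M lam ω (y+emb r) = lam V_r + lam m`, so the torus Green functions with `(potc, z)` and
`(lam V, z - lam m)` agree. If `msT π σ j s V ≥ c lam^(-A)` then the part of this mass with some
`|r̂_l| > ρ` is `≤ (2n+1)^d (2/η)² e^{-ηρ/4} ≤ (c/2) lam^(-A)` (`torus_ct`, hypothesis `htail`), so some `r`
in `orthT σ j s` with all `|r̂_l| ≤ ρ` has `|G_0r|² ≥ (c/2) lam^(-A)/(2ρ+1)^d ≥ b²`, and by `lift`
`|green(y + emb r, y)| ≥ b - b/2` (hypothesis `hlift`), so `pl ≤ log(2/b)`. -/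

open MeasureTheory Finset Matrix Pool.Agent.Helper3.Anderson Pool.Agent.Helper3.Weak

noncomputable section

namespace Pool.Agent.BK

/-- The potential on the torus seen from `y`, centred at `m`. -/
def Vof {d : ℕ} (n : ℕ) (m : ℝ) (y : Site d) (ω : Site d → ℝ) : Tor d n → ℝ :=
  fun r => ω (y + emb r) - m

lemma bridge_prj_emb {d n : ℕ} (r : Tor d n) : prj n (emb r) = r := by
  funext l
  simp only [prj, emb]
  exact ZMod.coe_valMinAbs (r l)

lemma bridge_emb_inj {d n : ℕ} : Function.Injective (emb : Tor d n → Site d) := by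
  intro r s h
  rw [← bridge_prj_emb r, ← bridge_prj_emb s, h]

lemma bridge_abs_emb_le {d n : ℕ} (r : Tor d n) (l : Fin d) : |emb r l| ≤ n := by
  have h := ZMod.natAbs_valMinAbs_le (r l)
  have h2 : (2 * n + 1) / 2 = n := by omega
  rw [h2] at h
  have h3 : ((r l).valMinAbs.natAbs : ℤ) = |(r l).valMinAbs| := Int.natCast_natAbs _
  simp only [emb]
  rw [← h3]
  exact_mod_cast h

theorem law_bridge (μ : Measure ℝ) [IsProbabilityMeasure μ] (d n : ℕ) (m : ℝ) (y : Site d) :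
    MeasurePreserving (Vof n m y) (PP d μ)
      (Measure.pi fun _ : Tor d n => μ.map (fun x => x - m)) := by
  classical
  have hm : Measurable (fun x : ℝ => x - m) := by fun_prop
  have hprob : IsProbabilityMeasure (μ.map (fun x => x - m)) :=
    Measure.isProbabilityMeasure_map hm.aemeasurable
  have hV : Measurable (Vof (d := d) n m y) := by
    unfold Vof
    fun_prop
  refine ⟨hV, ?_⟩
  symm
  refine Measure.pi_eq fun s hs => ?_
  rw [Measure.map_apply hV (MeasurableSet.univ_pi hs)]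
  have hset : Vof (d := d) n m y ⁻¹' (Set.univ.pi s) =
      Set.pi ((Finset.univ.image fun r : Tor d n => y + emb r : Finset (Site d)) : Set (Site d))
        (fun x => (fun v : ℝ => v - m) ⁻¹' s (prj n (x - y))) := by
    ext ω
    simp only [Set.mem_preimage, Set.mem_pi, Set.mem_univ, true_implies, Finset.coe_image,
      Finset.coe_univ, Set.image_univ, Set.mem_range, forall_exists_index, forall_apply_eq_imp_iff,
      Vof, add_sub_cancel_left, bridge_prj_emb]
  rw [hset]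
  have h1 := Measure.infinitePi_pi (fun _ : Site d => μ)
    (s := (Finset.univ.image fun r : Tor d n => y + emb r : Finset (Site d)))
    (t := fun x => (fun v : ℝ => v - m) ⁻¹' s (prj n (x - y)))
    (fun i _ => hm (hs _))
  rw [h1, Finset.prod_image]
  · refine Finset.prod_congr rfl fun r _ => ?_
    rw [Measure.map_apply hm (hs r), add_sub_cancel_left, bridge_prj_emb]
  · intro a _ b _ hab
    exact bridge_emb_inj (add_left_cancel hab)

/-- The number of points of the torus with all coordinates at most `ρ`. -/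
lemma bridge_card {d n : ℕ} {ρ : ℝ} (hρ : 0 ≤ ρ) (S : Finset (Tor d n))
    (hS : ∀ r ∈ S, ∀ l, (|emb r l| : ℝ) ≤ ρ) : (S.card : ℝ) ≤ (2 * ρ + 1) ^ d := by
  classical
  have h1 : S.card ≤ (Fintype.piFinset fun _ : Fin d => Finset.Icc (-⌊ρ⌋) ⌊ρ⌋).card := by
    rw [← Finset.card_image_of_injective S bridge_emb_inj]
    refine Finset.card_le_card fun x hx => ?_
    obtain ⟨r, hr, rfl⟩ := Finset.mem_image.1 hx
    rw [Fintype.mem_piFinset]
    intro l
    have h := hS r hr l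
    rw [Finset.mem_Icc]
    have h2 : |emb r l| ≤ ⌊ρ⌋ := by
      rw [Int.le_floor]
      push_cast
      exact h
    exact abs_le.1 h2
  have h2 : (Fintype.piFinset fun _ : Fin d => Finset.Icc (-⌊ρ⌋) ⌊ρ⌋).card =
      (2 * ⌊ρ⌋ + 1).toNat ^ d := by
    rw [Fintype.card_piFinset, Finset.prod_const, Finset.card_univ, Fintype.card_fin, Int.card_Icc]
    congr 2
    ring
  have hf : 0 ≤ ⌊ρ⌋ := Int.floor_nonneg.2 hρ
  have h3 : (((2 * ⌊ρ⌋ + 1).toNat : ℕ) : ℝ) = 2 * (⌊ρ⌋ : ℝ) + 1 := by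
    have h4 : (((2 * ⌊ρ⌋ + 1).toNat : ℕ) : ℤ) = 2 * ⌊ρ⌋ + 1 := Int.toNat_of_nonneg (by omega)
    have h5 : (((2 * ⌊ρ⌋ + 1).toNat : ℕ) : ℝ) = ((((2 * ⌊ρ⌋ + 1).toNat : ℕ) : ℤ) : ℝ) := by norm_cast
    rw [h5, h4]
    push_cast
    ring
  calc (S.card : ℝ) ≤ ((2 * ⌊ρ⌋ + 1).toNat ^ d : ℕ) := by
        rw [← h2]
        exact_mod_cast h1
    _ = (2 * (⌊ρ⌋ : ℝ) + 1) ^ d := by
        push_cast
        rw [h3]
    _ ≤ (2 * ρ + 1) ^ d := by
        refine pow_le_pow_left₀ (by positivity) ?_ d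
        have := Int.floor_le ρ
        linarith

/-- The resolvent with the centred potential and the shifted spectral parameter. -/
lemma bridge_Gr_shift {X : Type} [Fintype X] [DecidableEq X] (H : Matrix X X ℂ) (v : X → ℝ) (a : ℝ)
    (z : ℂ) : Gr H (fun x => v x - a) z = Gr H v (z + (a : ℂ)) := by
  unfold Gr
  congr 1
  ext i j
  by_cases hij : i = j
  · subst hij
    simp
    ring
  · simp [hij]

/-- Far part of the mass. -/
lemma bridge_far {d n : ℕ} (v : Tor d n → ℝ) {z : ℂ} (hz : 0 < z.im) (hz1 : z.im ≤ 1) {ρ : ℝ}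
    (hρ : 0 ≤ ρ) (r : Tor d n) (hr : ¬ ∀ l, (|emb r l| : ℝ) ≤ ρ) :
    ‖Gr (H0 d n) v z r 0‖ ^ 2 ≤ (2 / z.im) ^ 2 * Real.exp (-(z.im / 4 * ρ)) := by
  push Not at hr
  obtain ⟨l, hl⟩ := hr
  have h1 := torus_ct v hz hz1 l r
  have h2 : (|((r l).valMinAbs : ℝ)| : ℝ) = |emb r l| := by
    simp only [emb]
    push_cast
    rfl
  rw [h2] at h1
  have h3 : ‖Gr (H0 d n) v z r 0‖ ≤ 2 / z.im * Real.exp (-(z.im / 8 * ρ)) := by
    refine h1.trans (mul_le_mul_of_nonneg_left (Real.exp_le_exp.2 ?_) (by positivity))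
    have : z.im / 8 * ρ ≤ z.im / 8 * (|emb r l| : ℝ) :=
      mul_le_mul_of_nonneg_left hl.le (by positivity)
    push_cast at this ⊢
    linarith
  calc ‖Gr (H0 d n) v z r 0‖ ^ 2 ≤ (2 / z.im * Real.exp (-(z.im / 8 * ρ))) ^ 2 :=
        pow_le_pow_left₀ (norm_nonneg _) h3 2
    _ = (2 / z.im) ^ 2 * Real.exp (-(z.im / 4 * ρ)) := by
        rw [mul_pow, ← Real.exp_nat_mul]
        congr 2
        push_cast
        ring

theorem det_bridge {d : ℕ} {M m c A ρ b : ℝ} (hM : 0 ≤ M) (π : Par) (hη : 0 < π.eta)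
    (hη1 : π.eta ≤ 1) (hb : 0 < b) (hb1 : b ≤ 1) (hn : 1 ≤ π.n) (hρ : 1 ≤ ρ) (hρn : ρ ≤ π.n)
    (htail : (2 * π.n + 1) ^ d * (2 / π.eta) ^ 2 * Real.exp (-(π.eta / 4 * ρ)) ≤
      c / 2 * π.lam ^ (-A))
    (hlift : 8 * d / π.eta ^ 2 * (2 * π.n + 3) ^ d * Real.exp (-(π.eta / 8 * π.n)) ≤ b / 2)
    (hbm : b ^ 2 * (2 * ρ + 1) ^ d ≤ c / 2 * π.lam ^ (-A))
    (σ : Fin d → ℤˣ) (j : Fin d) (s : ℕ) (y : Site d) (ω : Site d → ℝ)
    (hω : ∀ x, |ω x| ≤ M) (hms : c * π.lam ^ (-A) ≤ msT π σ j s (Vof π.n m y ω)) :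
    ∃ x : Site d, (∀ l, (|x l| : ℝ) ≤ ρ) ∧ (s : ℤ) ≤ (σ j : ℤ) * x j ∧
      (∀ l, 0 ≤ (σ l : ℤ) * x l) ∧
      pl M π.lam (π.z + ((π.lam * m : ℝ) : ℂ)) ω (y + x) y ≤ Real.log (2 / b) := by
  classical
  set z' : ℂ := π.z + ((π.lam * m : ℝ) : ℂ) with hz'
  have hzim : z'.im = π.eta := by
    rw [hz', Complex.add_im, Complex.ofReal_im, add_zero]
    rfl
  have hz0 : 0 < z'.im := by rw [hzim]; exact hη
  have hz1 : z'.im ≤ 1 := by rw [hzim]; exact hη1
  set v : Tor d π.n → ℝ := fun r => potc M π.lam ω (y + emb r) with hv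
  -- the Green functions agree
  have hG : GG d π.n π.lam π.z (Vof π.n m y ω) = Gr (H0 d π.n) v z' := by
    unfold GG
    have h1 : (fun x => π.lam * Vof π.n m y ω x) = fun x => v x - π.lam * m := by
      funext r
      simp only [hv, Vof, potc, clip_of_abs_le (hω _)]
      ring
    rw [h1, bridge_Gr_shift]
  have hsym : ∀ r, Gr (H0 d π.n) v z' 0 r = Gr (H0 d π.n) v z' r 0 := fun r =>
    Gr_symm (RS_H0 d π.n) v hz0.ne' 0 r
  have hms' : msT π σ j s (Vof π.n m y ω) =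
      ∑ r ∈ orthT σ j s, ‖Gr (H0 d π.n) v z' r 0‖ ^ 2 := by
    unfold msT
    refine Finset.sum_congr rfl fun r _ => ?_
    rw [hG, hsym]
  rw [hms'] at hms
  -- a near point with a large Green function
  have hex : ∃ r ∈ orthT (n := π.n) σ j s, (∀ l, (|emb r l| : ℝ) ≤ ρ) ∧
      b ≤ ‖Gr (H0 d π.n) v z' r 0‖ := by
    by_contra hcon
    push Not at hcon
    rw [← Finset.sum_filter_add_sum_filter_not _ (fun r : Tor d π.n => ∀ l, (|emb r l| : ℝ) ≤ ρ)]
      at hms
    set N := (orthT (n := π.n) σ j s).filter (fun r : Tor d π.n => ∀ l, (|emb r l| : ℝ) ≤ ρ) with hN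
    set F := (orthT (n := π.n) σ j s).filter
      (fun r : Tor d π.n => ¬ ∀ l, (|emb r l| : ℝ) ≤ ρ) with hF
    have hNc : (N.card : ℝ) ≤ (2 * ρ + 1) ^ d :=
      bridge_card (by linarith) N fun r hr l => (Finset.mem_filter.1 hr).2 l
    have hnear : ∑ r ∈ N, ‖Gr (H0 d π.n) v z' r 0‖ ^ 2 < b ^ 2 * (2 * ρ + 1) ^ d := by
      rcases N.eq_empty_or_nonempty with h0 | h0
      · rw [h0, Finset.sum_empty]
        positivity
      · calc ∑ r ∈ N, ‖Gr (H0 d π.n) v z' r 0‖ ^ 2 < ∑ _r ∈ N, b ^ 2 := by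
              refine Finset.sum_lt_sum_of_nonempty h0 fun r hr => ?_
              have hr' := Finset.mem_filter.1 hr
              exact pow_lt_pow_left₀ (hcon r hr'.1 hr'.2) (norm_nonneg _) two_ne_zero
          _ = N.card * b ^ 2 := by rw [Finset.sum_const, nsmul_eq_mul]
          _ ≤ (2 * ρ + 1) ^ d * b ^ 2 := mul_le_mul_of_nonneg_right hNc (by positivity)
          _ = b ^ 2 * (2 * ρ + 1) ^ d := mul_comm _ _
    have hFc : (F.card : ℝ) ≤ (2 * π.n + 1) ^ d := by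
      have h1 : F.card ≤ Fintype.card (Tor d π.n) := Finset.card_le_univ F
      have h2 : Fintype.card (Tor d π.n) = (2 * π.n + 1) ^ d := by
        rw [Fintype.card_fun, Fintype.card_fin, ZMod.card]
      rw [h2] at h1
      exact_mod_cast h1
    have hfar : ∑ r ∈ F, ‖Gr (H0 d π.n) v z' r 0‖ ^ 2 ≤
        (2 * π.n + 1) ^ d * (2 / π.eta) ^ 2 * Real.exp (-(π.eta / 4 * ρ)) := by
      calc ∑ r ∈ F, ‖Gr (H0 d π.n) v z' r 0‖ ^ 2
          ≤ ∑ _r ∈ F, (2 / π.eta) ^ 2 * Real.exp (-(π.eta / 4 * ρ)) := by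
            refine Finset.sum_le_sum fun r hr => ?_
            have hr' := Finset.mem_filter.1 hr
            have := bridge_far v hz0 hz1 (by linarith) r hr'.2
            rw [hzim] at this
            exact this
        _ = F.card * ((2 / π.eta) ^ 2 * Real.exp (-(π.eta / 4 * ρ))) := by
            rw [Finset.sum_const, nsmul_eq_mul]
        _ ≤ (2 * π.n + 1) ^ d * ((2 / π.eta) ^ 2 * Real.exp (-(π.eta / 4 * ρ))) :=
            mul_le_mul_of_nonneg_right hFc (by positivity)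
        _ = _ := by ring
    linarith
  obtain ⟨r, hr, hrρ, hrb⟩ := hex
  have hr2 := (Finset.mem_filter.1 hr).2
  refine ⟨emb r, hrρ, hr2.2, hr2.1, ?_⟩
  have hl := lift hn (potc M π.lam ω) (bdd_potc hM ω) hz0 hz1 y (emb r) (bridge_abs_emb_le r)
  rw [bridge_prj_emb, hzim] at hl
  have hg : b / 2 ≤ ‖gc M π.lam z' ω (y + emb r) y‖ := by
    have h1 : ‖Gr (H0 d π.n) v z' r 0‖ - ‖green (potc M π.lam ω) z' (y + emb r) y‖ ≤
        ‖green (potc M π.lam ω) z' (y + emb r) y - Gr (H0 d π.n) v z' r 0‖ := by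
      rw [norm_sub_rev]
      exact norm_sub_norm_le _ _
    have h2 : ‖gc M π.lam z' ω (y + emb r) y‖ = ‖green (potc M π.lam ω) z' (y + emb r) y‖ := rfl
    rw [h2]
    linarith
  unfold pl
  have h2b : 1 ≤ 2 / b := by
    rw [le_div_iff₀ hb]
    linarith
  have hinv : ‖gc M π.lam z' ω (y + emb r) y‖⁻¹ ≤ 2 / b := by
    rw [← inv_div]
    exact inv_anti₀ (by positivity) hg
  rw [Real.posLog]
  refine max_le (Real.log_nonneg h2b) ?_
  refine Real.log_le_log ?_ hinv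
  have : 0 < ‖gc M π.lam z' ω (y + emb r) y‖ := lt_of_lt_of_le (by positivity) hg
  positivity

end Pool.Agent.BK
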