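import Pool.Agent.BK.Defs

/-! BK module DFT1: characters of the torus `(ℤ/(2n+1))^d` and Fourier multipliers, algebra.
Characters `ch q x = ∏_l stdAddChar (q_l x_l)`, orthogonality from `AddChar.sum_mulShift`;
`TF F x y = (2n+1)^{-d} ∑_q F q · ch q (y - x)` is the Fourier multiplier with symbol `F`. -/

open MeasureTheory Finset Matrix

noncomputable section

namespace Pool.Agent.BK

variable {d n : ℕ}

/-- Characters of the torus. -/
def ch (q x : Tor d n) : ℂ := ∏ l, (ZMod.stdAddChar (q l * x l) : ℂ)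

/-- Fourier multiplier with symbol `F`. -/
def TF (F : Tor d n → ℂ) : Matrix (Tor d n) (Tor d n) ℂ := fun x y =>
  (1 / (2 * n + 1 : ℂ) ^ d) * ∑ q, F q * ch q (y - x)

lemma norm_ch (q x : Tor d n) : ‖ch q x‖ = 1 := by
  unfold ch
  rw [norm_prod]
  exact Finset.prod_eq_one fun l _ => AddChar.norm_apply _ _

lemma ch_add (q x y : Tor d n) : ch q (x + y) = ch q x * ch q y := by
  unfold ch
  rw [← Finset.prod_mul_distrib]
  refine Finset.prod_congr rfl fun l _ => ?_
  rw [Pi.add_apply, mul_add, AddChar.map_add_eq_mul]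

lemma ch_add_left (p q x : Tor d n) : ch (p + q) x = ch p x * ch q x := by
  unfold ch
  rw [← Finset.prod_mul_distrib]
  refine Finset.prod_congr rfl fun l _ => ?_
  rw [Pi.add_apply, add_mul, AddChar.map_add_eq_mul]

lemma ch_neg (q x : Tor d n) : ch q (-x) = starRingEnd ℂ (ch q x) := by
  unfold ch
  rw [map_prod]
  refine Finset.prod_congr rfl fun l _ => ?_
  rw [Pi.neg_apply, mul_neg, AddChar.map_neg_eq_conj]

lemma ch_comm (q x : Tor d n) : ch q x = ch x q := by
  unfold ch
  exact Finset.prod_congr rfl fun l _ => by rw [mul_comm (q l) (x l)]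

lemma ch_neg_left (q x : Tor d n) : ch (-q) x = ch q (-x) := by
  unfold ch
  exact Finset.prod_congr rfl fun l _ => by
    rw [Pi.neg_apply, Pi.neg_apply, neg_mul, mul_neg]

lemma sum_ch (x : Tor d n) : ∑ q : Tor d n, ch q x = if x = 0 then (2 * n + 1 : ℂ) ^ d else 0 := by
  have h1 : ∑ q : Tor d n, ch q x =
      ∏ l : Fin d, ∑ t : ZMod (2 * n + 1), (ZMod.stdAddChar (t * x l) : ℂ) := by
    rw [Finset.prod_univ_sum, Fintype.piFinset_univ]
    rfl
  rw [h1]
  have h2 : ∀ l : Fin d, ∑ t : ZMod (2 * n + 1), (ZMod.stdAddChar (t * x l) : ℂ) =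
      if x l = 0 then (2 * n + 1 : ℂ) else 0 := by
    intro l
    have h := AddChar.sum_mulShift (ψ := (ZMod.stdAddChar (N := 2 * n + 1))) (x l)
      (ZMod.isPrimitive_stdAddChar (2 * n + 1))
    rw [h]
    simp [ZMod.card]
  rw [Finset.prod_congr rfl fun l _ => h2 l]
  by_cases hx : x = 0
  · subst hx
    simp
  · rw [if_neg hx]
    obtain ⟨l, hl⟩ := Function.ne_iff.1 hx
    exact Finset.prod_eq_zero (Finset.mem_univ l) (if_neg hl)

/-- `stdAddChar` and the angle: `stdAddChar (q m) = exp(i ang(q) m̂)`. -/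
lemma stdAddChar_eq (q m : ZMod (2 * n + 1)) : (ZMod.stdAddChar (q * m) : ℂ) =
    Complex.exp (Complex.I * (ang n q * (m.valMinAbs : ℝ) : ℝ)) := by
  have h1 : q * m = ((q.valMinAbs * m.valMinAbs : ℤ) : ZMod (2 * n + 1)) := by
    rw [Int.cast_mul, ZMod.coe_valMinAbs, ZMod.coe_valMinAbs]
  rw [h1, ZMod.stdAddChar_coe]
  congr 1
  unfold ang
  push_cast
  ring

lemma TF_mul (F G : Tor d n → ℂ) : TF F * TF G = TF (fun q => F q * G q) := by
  have hN : (2 * n + 1 : ℂ) ^ d ≠ 0 := by
    refine pow_ne_zero _ ?_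
    have : ((2 * n + 1 : ℕ) : ℂ) ≠ 0 := Nat.cast_ne_zero.2 (by omega)
    simpa using this
  ext x z
  rw [Matrix.mul_apply]
  unfold TF
  have key : ∀ q p : Tor d n, ∑ y : Tor d n, ch q (y - x) * ch p (z - y) =
      if q = p then (2 * n + 1 : ℂ) ^ d * ch q (z - x) else 0 := by
    intro q p
    have h1 : ∀ y : Tor d n, ch q (y - x) * ch p (z - y) =
        ch q (-x) * ch p z * ch y (q - p) := by
      intro y
      rw [sub_eq_add_neg y x, sub_eq_add_neg z y, ch_add, ch_add, ch_comm y (q - p),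
        sub_eq_add_neg q p, ch_add_left, ch_neg_left]
      ring
    rw [Finset.sum_congr rfl fun y _ => h1 y, ← Finset.mul_sum, sum_ch]
    by_cases hqp : q = p
    · subst hqp
      rw [if_pos (sub_self q), if_pos rfl, sub_eq_add_neg z x, ch_add]
      ring
    · rw [if_neg (sub_ne_zero.2 hqp), if_neg hqp, mul_zero]
  calc ∑ y : Tor d n, ((1 / (2 * n + 1 : ℂ) ^ d) * ∑ q, F q * ch q (y - x)) *
        ((1 / (2 * n + 1 : ℂ) ^ d) * ∑ p, G p * ch p (z - y))
      = (1 / (2 * n + 1 : ℂ) ^ d) * (1 / (2 * n + 1 : ℂ) ^ d) *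
        ∑ q : Tor d n, ∑ p : Tor d n, F q * G p *
          ∑ y : Tor d n, ch q (y - x) * ch p (z - y) := by
        have h2 : ∀ y : Tor d n, ((1 / (2 * n + 1 : ℂ) ^ d) * ∑ q, F q * ch q (y - x)) *
            ((1 / (2 * n + 1 : ℂ) ^ d) * ∑ p, G p * ch p (z - y)) =
            (1 / (2 * n + 1 : ℂ) ^ d) * (1 / (2 * n + 1 : ℂ) ^ d) *
              ∑ q : Tor d n, ∑ p : Tor d n, F q * G p * (ch q (y - x) * ch p (z - y)) := by
          intro y
          rw [mul_mul_mul_comm, Finset.sum_mul_sum]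
          congr 1
          refine Finset.sum_congr rfl fun q _ => Finset.sum_congr rfl fun p _ => ?_
          ring
        rw [Finset.sum_congr rfl fun y _ => h2 y, ← Finset.mul_sum, Finset.sum_comm]
        congr 1
        refine Finset.sum_congr rfl fun q _ => ?_
        rw [Finset.sum_comm]
        refine Finset.sum_congr rfl fun p _ => ?_
        rw [Finset.mul_sum]
    _ = (1 / (2 * n + 1 : ℂ) ^ d) * ∑ q : Tor d n, F q * G q * ch q (z - x) := by
        have h3 : ∀ q : Tor d n, ∑ p : Tor d n, F q * G p *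
            ∑ y : Tor d n, ch q (y - x) * ch p (z - y) =
            (2 * n + 1 : ℂ) ^ d * (F q * G q * ch q (z - x)) := by
          intro q
          rw [Finset.sum_eq_single q]
          · rw [key, if_pos rfl]
            ring
          · intro p _ hp
            rw [key, if_neg (Ne.symm hp), mul_zero]
          · intro h
            exact absurd (Finset.mem_univ q) h
        rw [Finset.sum_congr rfl fun q _ => h3 q, ← Finset.mul_sum]
        field_simp

lemma TF_one : TF (fun _ : Tor d n => 1) = 1 := by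
  have hN : (2 * n + 1 : ℂ) ^ d ≠ 0 := by
    refine pow_ne_zero _ ?_
    have : ((2 * n + 1 : ℕ) : ℂ) ≠ 0 := Nat.cast_ne_zero.2 (by omega)
    simpa using this
  ext x y
  unfold TF
  simp only [one_mul]
  rw [sum_ch, Matrix.one_apply]
  by_cases h : x = y
  · subst h
    rw [if_pos (sub_self x), if_pos rfl]
    field_simp
  · rw [if_neg (sub_ne_zero.2 (Ne.symm h)), if_neg h, mul_zero]

lemma TF_add (F G : Tor d n → ℂ) : TF F + TF G = TF (fun q => F q + G q) := by
  ext x y
  rw [Matrix.add_apply]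
  unfold TF
  rw [← mul_add, ← Finset.sum_add_distrib]
  congr 1
  exact Finset.sum_congr rfl fun q _ => by ring

lemma TF_smul (c : ℂ) (F : Tor d n → ℂ) : c • TF F = TF (fun q => c * F q) := by
  ext x y
  rw [Matrix.smul_apply]
  unfold TF
  rw [smul_eq_mul, mul_left_comm, Finset.mul_sum]
  congr 1
  exact Finset.sum_congr rfl fun q _ => by ring

lemma TF_sum {ι : Type} (s : Finset ι) (F : ι → Tor d n → ℂ) :
    ∑ i ∈ s, TF (F i) = TF (fun q => ∑ i ∈ s, F i q) := by
  ext x y
  rw [Matrix.sum_apply]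
  unfold TF
  rw [← Finset.mul_sum]
  congr 1
  rw [Finset.sum_comm]
  exact Finset.sum_congr rfl fun q _ => by rw [Finset.sum_mul]

end Pool.Agent.BK
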