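import Pool.Agent.BK.Res1
import Pool.Agent.BK.Dft1

/-! BK module DFT2: Parseval, operator norm of a Fourier multiplier, modulation, and the free
resolvent as a multiplier. (`nsq_TF_mulVec_le`: `TF F` has `(TF F)ᴴ = TF (conj F)`, and `TF F c` has Fourier
transform `F ĉ`; `norm_TF_le`: the entry is an average of numbers of modulus `≤ B`; `Gr_eq_TF`:
`TF (omg - ζ) * TF (1/(omg - ζ)) = TF 1 = 1`.) -/

open MeasureTheory Finset Matrix

noncomputable section

namespace Pool.Agent.BK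

variable {d n : ℕ}

private lemma ch_zero (q : Tor d n) : ch q 0 = 1 := by
  simp [ch]

private lemma card_tor : (Fintype.card (Tor d n) : ℂ) = (2 * n + 1 : ℂ) ^ d := by
  rw [Fintype.card_fun, Fintype.card_fin, ZMod.card]
  push_cast
  ring

private lemma cardR_tor : (Fintype.card (Tor d n) : ℝ) = (2 * n + 1 : ℝ) ^ d := by
  rw [Fintype.card_fun, Fintype.card_fin, ZMod.card]
  push_cast
  ring

private lemma conjTranspose_TF (F : Tor d n → ℂ) :
    (TF F)ᴴ = TF (fun q => starRingEnd ℂ (F q)) := by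
  ext y x
  rw [Matrix.conjTranspose_apply]
  simp only [TF]
  have h : ∀ q : Tor d n, ch q (x - y) = starRingEnd ℂ (ch q (y - x)) := by
    intro q
    rw [← ch_neg, neg_sub]
  rw [star_mul', ← starRingEnd_apply, ← starRingEnd_apply, map_sum]
  congr 1
  · have h2 : (starRingEnd ℂ) 2 = 2 := Complex.conj_ofNat 2
    simp [h2]
  · apply Finset.sum_congr rfl
    intro q _
    rw [map_mul, ← h q]

lemma parseval (F : Tor d n → ℂ) (x : Tor d n) :
    ∑ y, ‖TF F x y‖ ^ 2 = (1 / (2 * n + 1 : ℝ) ^ d) * ∑ q, ‖F q‖ ^ 2 := by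
  have h1 : (TF F * (TF F)ᴴ) x x = ((∑ y, ‖TF F x y‖ ^ 2 : ℝ) : ℂ) := by
    rw [Matrix.mul_apply]
    push_cast
    apply Finset.sum_congr rfl
    intro y _
    rw [Matrix.conjTranspose_apply, ← starRingEnd_apply, Complex.mul_conj, Complex.normSq_eq_norm_sq]
    push_cast
    rfl
  have h2 : (TF F * (TF F)ᴴ) x x =
      (((1 / (2 * n + 1 : ℝ) ^ d) * ∑ q, ‖F q‖ ^ 2 : ℝ) : ℂ) := by
    rw [conjTranspose_TF, TF_mul]
    simp only [TF, sub_self, ch_zero, mul_one]
    push_cast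
    congr 1
    apply Finset.sum_congr rfl
    intro q _
    rw [Complex.mul_conj, Complex.normSq_eq_norm_sq]
    push_cast
    rfl
  exact_mod_cast h1.symm.trans h2

private lemma norm_sq_star (w : ℂ) : ((‖w‖ ^ 2 : ℝ) : ℂ) = star w * w := by
  rw [← starRingEnd_apply, mul_comm ((starRingEnd ℂ) w) w, Complex.mul_conj,
    Complex.normSq_eq_norm_sq]

private lemma nsq_star (c : Tor d n → ℂ) : ((nsq c : ℝ) : ℂ) = star c ⬝ᵥ c := by
  unfold nsq dotProduct
  rw [Complex.ofReal_sum]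
  exact Finset.sum_congr rfl fun y _ => norm_sq_star (c y)

private lemma nsq_TF_eq (F : Tor d n → ℂ) (c : Tor d n → ℂ) :
    ((nsq (TF F *ᵥ c) : ℝ) : ℂ) =
      star c ⬝ᵥ (TF (fun q => ((‖F q‖ ^ 2 : ℝ) : ℂ)) *ᵥ c) := by
  have h1 : ((nsq (TF F *ᵥ c) : ℝ) : ℂ) = star (TF F *ᵥ c) ⬝ᵥ (TF F *ᵥ c) := nsq_star _
  rw [h1, Matrix.star_mulVec, ← Matrix.dotProduct_mulVec, Matrix.mulVec_mulVec, conjTranspose_TF,
    TF_mul]
  congr 2
  congr 1
  funext q
  rw [mul_comm, Complex.mul_conj, Complex.normSq_eq_norm_sq]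

lemma nsq_TF_mulVec_le {F : Tor d n → ℂ} {B : ℝ} (hF : ∀ q, ‖F q‖ ≤ B) (c : Tor d n → ℂ) :
    nsq (TF F *ᵥ c) ≤ B ^ 2 * nsq c := by
  have hB : ∀ q, 0 ≤ B ^ 2 - ‖F q‖ ^ 2 := by
    intro q
    have h1 := hF q
    have h2 := norm_nonneg (F q)
    nlinarith
  set G : Tor d n → ℂ := fun q => ((Real.sqrt (B ^ 2 - ‖F q‖ ^ 2) : ℝ) : ℂ) with hG
  have hGn : ∀ q, ‖G q‖ ^ 2 = B ^ 2 - ‖F q‖ ^ 2 := by
    intro q
    rw [hG]
    simp only
    rw [Complex.norm_real, Real.norm_eq_abs, sq_abs, Real.sq_sqrt (hB q)]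
  have h1 := nsq_TF_eq F c
  have h2 := nsq_TF_eq G c
  have h3 : ((nsq (TF F *ᵥ c) + nsq (TF G *ᵥ c) : ℝ) : ℂ) = ((B ^ 2 * nsq c : ℝ) : ℂ) := by
    push_cast
    rw [h1, h2, ← dotProduct_add, ← Matrix.add_mulVec, TF_add]
    have h4 : (fun q => ((‖F q‖ ^ 2 : ℝ) : ℂ) + ((‖G q‖ ^ 2 : ℝ) : ℂ)) =
        fun q : Tor d n => ((B : ℂ) ^ 2) * (1 : ℂ) := by
      funext q
      rw [hGn]
      push_cast
      ring
    rw [h4, ← TF_smul ((B : ℂ) ^ 2) (fun _ : Tor d n => (1 : ℂ)), TF_one, Matrix.smul_mulVec,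
      Matrix.one_mulVec, dotProduct_smul, smul_eq_mul, nsq_star]
  have h5 : nsq (TF F *ᵥ c) + nsq (TF G *ᵥ c) = B ^ 2 * nsq c := by exact_mod_cast h3
  have h6 : 0 ≤ nsq (TF G *ᵥ c) := by
    unfold nsq
    positivity
  linarith

lemma norm_TF_le {F : Tor d n → ℂ} {B : ℝ} (hF : ∀ q, ‖F q‖ ≤ B) (x y : Tor d n) :
    ‖TF F x y‖ ≤ B := by
  have hM : (0 : ℝ) < (2 * n + 1 : ℝ) ^ d := by positivity
  have h0 : ‖(1 / (2 * n + 1 : ℂ) ^ d)‖ = 1 / (2 * n + 1 : ℝ) ^ d := by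
    rw [norm_div, norm_one, norm_pow]
    congr 2
    have : (2 * (n : ℂ) + 1) = ((2 * (n : ℝ) + 1 : ℝ) : ℂ) := by push_cast; ring
    rw [this, Complex.norm_real, Real.norm_eq_abs, abs_of_pos (by positivity)]
  unfold TF
  rw [norm_mul, h0]
  have h1 : ‖∑ q, F q * ch q (y - x)‖ ≤ (2 * n + 1 : ℝ) ^ d * B := by
    refine (norm_sum_le _ _).trans ?_
    calc ∑ q : Tor d n, ‖F q * ch q (y - x)‖ ≤ ∑ _q : Tor d n, B := by
          apply Finset.sum_le_sum
          intro q _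
          rw [norm_mul, norm_ch, mul_one]
          exact hF q
      _ = (2 * n + 1 : ℝ) ^ d * B := by
          rw [Finset.sum_const, Finset.card_univ, nsmul_eq_mul, cardR_tor]
  calc 1 / (2 * n + 1 : ℝ) ^ d * ‖∑ q, F q * ch q (y - x)‖
      ≤ 1 / (2 * n + 1 : ℝ) ^ d * ((2 * n + 1 : ℝ) ^ d * B) := by gcongr
    _ = B := by field_simp

/-- Modulation is translation of the symbol. -/
lemma TF_mod (F : Tor d n → ℂ) (p x y : Tor d n) :
    starRingEnd ℂ (ch p x) * TF F x y * ch p y = TF (fun q => F (q - p)) x y := by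
  unfold TF
  have hs : ∑ q : Tor d n, F (q - p) * ch q (y - x) =
      ∑ q : Tor d n, F (q + p - p) * ch (q + p) (y - x) :=
    (Fintype.sum_equiv (Equiv.addRight p) _ _ fun q => rfl).symm
  rw [hs, ← ch_neg, Finset.mul_sum, Finset.mul_sum, Finset.sum_mul, Finset.mul_sum]
  apply Finset.sum_congr rfl
  intro q _
  rw [add_sub_cancel_right]
  rw [ch_add_left, sub_eq_add_neg y x, ch_add p y (-x)]
  ring

private lemma two_cos (hn : 0 < n) (q : ZMod (2 * n + 1)) :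
    ((2 * Real.cos (ang n q) : ℝ) : ℂ) =
      (ZMod.stdAddChar (q * 1) : ℂ) + (ZMod.stdAddChar (q * (-1)) : ℂ) := by
  have h1 : ((1 : ZMod (2 * n + 1)).valMinAbs : ℤ) = 1 := by
    have h := ZMod.valMinAbs_natCast_of_le_half (n := 2 * n + 1) (a := 1) (by omega)
    simpa using h
  have h2 := stdAddChar_eq (n := n) q 1
  rw [h1] at h2
  have h3 : (ZMod.stdAddChar (q * (-1)) : ℂ) = starRingEnd ℂ (ZMod.stdAddChar (q * 1) : ℂ) := by
    have := ch_neg (d := 1) (n := n) (fun _ => q) (fun _ => 1)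
    simpa [ch] using this
  rw [h3, h2, ← Complex.exp_conj]
  have h4 : (starRingEnd ℂ) (Complex.I * ((ang n q * ((1 : ℤ) : ℝ) : ℝ) : ℂ)) =
      -(Complex.I * ((ang n q : ℝ) : ℂ)) := by
    rw [map_mul, Complex.conj_I, Complex.conj_ofReal]
    push_cast
    ring
  rw [h4]
  push_cast
  rw [Complex.two_cos]
  congr 2 <;> ring

private lemma ch_single (q : Tor d n) (l : Fin d) (a : ZMod (2 * n + 1)) :
    ch q (Pi.single l a) = (ZMod.stdAddChar (q l * a) : ℂ) := by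
  unfold ch
  rw [Finset.prod_eq_single l]
  · simp
  · intro j _ hj
    simp [Pi.single_eq_of_ne hj]
  · simp

private lemma omg_mul_ch (hn : 0 < n) (q z : Tor d n) :
    (omg q : ℂ) * ch q z = ∑ l : Fin d, (2 * ch q z - ch q (z + Pi.single l 1) -
      ch q (z - Pi.single l 1)) := by
  unfold omg
  push_cast
  rw [Finset.sum_mul]
  apply Finset.sum_congr rfl
  intro l _
  have h := two_cos hn (q l)
  push_cast at h
  have e1 : ch q (z + Pi.single l 1) = ch q z * (ZMod.stdAddChar (q l * 1) : ℂ) := by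
    rw [ch_add, ch_single]
  have e2 : ch q (z - Pi.single l 1) = ch q z * (ZMod.stdAddChar (q l * (-1)) : ℂ) := by
    rw [sub_eq_add_neg, ← Pi.single_neg, ch_add, ch_single]
  rw [e1, e2, sub_mul, h]
  ring

lemma H0_eq (hn : 0 < n) : H0 d n = TF (fun q => (omg q : ℂ)) := by
  ext x y
  have hM : ((2 * n + 1 : ℂ) ^ d) ≠ 0 := by
    apply pow_ne_zero
    exact_mod_cast (by omega : 2 * n + 1 ≠ 0)
  simp only [TF, H0]
  simp_rw [omg_mul_ch hn]
  rw [Finset.sum_comm]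
  simp_rw [Finset.sum_sub_distrib, ← Finset.mul_sum, sum_ch]
  have c1 : (y - x = 0) ↔ (x = y) := by
    rw [sub_eq_zero]
    exact eq_comm
  have c2 : ∀ l : Fin d, (y - x + Pi.single l 1 = 0) ↔ (y = x - Pi.single l 1) := by
    intro l
    constructor
    · intro h
      rw [eq_sub_iff_add_eq, ← sub_eq_zero, ← h]
      abel
    · intro h
      rw [h]
      abel
  have c3 : ∀ l : Fin d, (y - x - Pi.single l 1 = 0) ↔ (y = x + Pi.single l 1) := by
    intro l
    constructor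
    · intro h
      rw [← sub_eq_zero, ← h]
      abel
    · intro h
      rw [h]
      abel
  simp_rw [c1, c2, c3]
  rw [Finset.sum_const, Finset.card_univ, Fintype.card_fin, nsmul_eq_mul, Finset.sum_add_distrib]
  have e1 : ∀ (P : Prop) [Decidable P], (if P then (2 * n + 1 : ℂ) ^ d else 0) =
      (2 * n + 1 : ℂ) ^ d * (if P then 1 else 0) := by
    intro P _
    split_ifs <;> simp
  simp_rw [e1]
  rw [← Finset.mul_sum, ← Finset.mul_sum]
  by_cases hxy : x = y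
  · simp only [hxy, if_true]
    field_simp
    ring
  · simp only [hxy, if_false]
    field_simp
    ring

lemma Gr_eq_TF (hn : 0 < n) {ζ : ℂ} (hζ : 0 < ζ.im) :
    Gr (H0 d n) 0 ζ = TF (fun q => 1 / ((omg q : ℂ) - ζ)) := by
  unfold Gr
  apply Matrix.inv_eq_right_inv
  have h1 : (H0 d n + Matrix.diagonal (fun x : Tor d n => (((0 : Tor d n → ℝ) x : ℝ) : ℂ)) -
      ζ • (1 : Matrix (Tor d n) (Tor d n) ℂ)) = TF (fun q => (omg q : ℂ) - ζ) := by
    rw [H0_eq hn, ← TF_one, TF_smul]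
    have h0 : Matrix.diagonal (fun x : Tor d n => (((0 : Tor d n → ℝ) x : ℝ) : ℂ)) = 0 := by
      simp
    rw [h0, add_zero, sub_eq_add_neg]
    have h2 : -TF (fun _ : Tor d n => ζ * 1) = TF (fun _ : Tor d n => -ζ) := by
      have := TF_smul (d := d) (n := n) (-1) (fun _ => ζ * 1)
      rw [neg_one_smul] at this
      rw [this]
      congr 1
      funext q
      ring
    rw [h2, TF_add]
    congr 1
  rw [h1, TF_mul, ← TF_one]
  congr 1
  funext q
  have hne : (omg q : ℂ) - ζ ≠ 0 := by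
    intro h
    have := congrArg Complex.im h
    simp at this
    linarith
  field_simp

end Pool.Agent.BK
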