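import Pool.Agent.BK.WDefs

/-! BK module W1M: the mean of `G - M`.
Notation: `G = Gr H (lam V) z`, `ζ = z + lam² s2 g`, `M = Gr H 0 ζ`, `g = E G_xx` (all `x`).
`(G-M)_yw = ∑_x M_yx K_x G_xw`, `K_x = -lam V_x - lam² s2 g` (`Gr_expand`). By `ibp` with `F = G_xw`,
`∂_x G_xw = -lam G_xx G_xw`: `E[K_x G_xw] = lam² E[τ_x (G_xx - g) G_xw] + lam² g E[(τ_x - s2) G_xw]` and by
`ibp'` the last term is `-lam³ g E[τ'_x G_xx G_xw]`. So `E[K_x G_xw] = E c_x` (`cv`). -/

open MeasureTheory Finset Matrix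

noncomputable section

namespace Pool.Agent.BK

variable {X : Type} [Fintype X] [DecidableEq X]

/-- Integration by parts for one site. -/
private lemma w1m_site {ν : Measure ℝ} {R s2 C : ℝ} {τ τ' : ℝ → ℝ} (hν : NiceLaw ν R s2 C τ τ')
    {H : Matrix X X ℂ} (hH : RS H) {lam : ℝ} {z g : ℂ} (hz : 0 < z.im) (x w : X) :
    Ex ν (fun V : X → ℝ => (z - (z + (lam ^ 2 * s2 : ℝ) * g) - ((lam * V x : ℝ) : ℂ)) *
      Gr H (fun x => lam * V x) z x w) =
      Ex ν (fun V : X → ℝ => cv H lam z g τ τ' w V x) := by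
  have hG : Continuous fun V : X → ℝ => Gr H (fun x => lam * V x) z := continuous_Gr hH lam hz.ne'
  have hGw : Continuous fun V : X → ℝ => Gr H (fun x => lam * V x) z x w := hG.matrix_elem x w
  have hGG : Continuous fun V : X → ℝ =>
      Gr H (fun x => lam * V x) z x x * Gr H (fun x => lam * V x) z x w :=
    (hG.matrix_elem x x).mul hGw
  have hVx : Continuous fun V : X → ℝ => (V x : ℂ) :=
    Complex.continuous_ofReal.comp (continuous_apply x)
  -- integrability
  have i1 : Integrable (fun V : X → ℝ => (V x : ℂ) * Gr H (fun x => lam * V x) z x w)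
      (Measure.pi fun _ : X => ν) := integrable_cont hν (hVx.mul hGw)
  have i2 : Integrable (fun V : X → ℝ => Gr H (fun x => lam * V x) z x w)
      (Measure.pi fun _ : X => ν) := integrable_cont hν hGw
  have i3 : Integrable (fun V : X → ℝ => (τ (V x) : ℂ) *
      (Gr H (fun x => lam * V x) z x x * Gr H (fun x => lam * V x) z x w))
      (Measure.pi fun _ : X => ν) := integrable_bdd_mul hν hGG hν.meas hν.bdd x
  have i4 : Integrable (fun V : X → ℝ => (τ (V x) : ℂ) * Gr H (fun x => lam * V x) z x w)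
      (Measure.pi fun _ : X => ν) := integrable_bdd_mul hν hGw hν.meas hν.bdd x
  have i5 : Integrable (fun V : X → ℝ => (τ' (V x) : ℂ) *
      (Gr H (fun x => lam * V x) z x x * Gr H (fun x => lam * V x) z x w))
      (Measure.pi fun _ : X => ν) := integrable_bdd_mul hν hGG hν.meas' hν.bdd' x
  -- the two integrations by parts
  have b1 := ibp hν (C1_Gr hH lam hz.ne' x w) x
  have b2 := ibp' hν (C1_Gr hH lam hz.ne' x w) x
  have c1 : Ex ν (fun V : X → ℝ => (V x : ℂ) * Gr H (fun x => lam * V x) z x w) =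
      -(lam : ℂ) * Ex ν (fun V : X → ℝ => (τ (V x) : ℂ) *
        (Gr H (fun x => lam * V x) z x x * Gr H (fun x => lam * V x) z x w)) := by
    rw [b1]
    unfold Ex
    rw [← integral_const_mul]
    congr 1
    funext V
    ring
  have c2 : Ex ν (fun V : X → ℝ => (τ (V x) : ℂ) * Gr H (fun x => lam * V x) z x w) -
      (s2 : ℂ) * Ex ν (fun V : X → ℝ => Gr H (fun x => lam * V x) z x w) =
      -(lam : ℂ) * Ex ν (fun V : X → ℝ => (τ' (V x) : ℂ) *
        (Gr H (fun x => lam * V x) z x x * Gr H (fun x => lam * V x) z x w)) := by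
    have h1 : Ex ν (fun V : X → ℝ => ((τ (V x) - s2 : ℝ) : ℂ) * Gr H (fun x => lam * V x) z x w) =
        Ex ν (fun V : X → ℝ => (τ (V x) : ℂ) * Gr H (fun x => lam * V x) z x w) -
      (s2 : ℂ) * Ex ν (fun V : X → ℝ => Gr H (fun x => lam * V x) z x w) := by
      unfold Ex
      rw [← integral_const_mul, ← integral_sub i4 (i2.const_mul _)]
      congr 1
      funext V
      push_cast
      ring
    rw [← h1, b2]
    unfold Ex
    rw [← integral_const_mul]
    congr 1
    funext V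
    ring
  have l1 : Ex ν (fun V : X → ℝ => (z - (z + (lam ^ 2 * s2 : ℝ) * g) - ((lam * V x : ℝ) : ℂ)) *
      Gr H (fun x => lam * V x) z x w) =
      (-((lam ^ 2 * s2 : ℝ) : ℂ) * g) * Ex ν (fun V : X → ℝ => Gr H (fun x => lam * V x) z x w) -
      (lam : ℂ) * Ex ν (fun V : X → ℝ => (V x : ℂ) * Gr H (fun x => lam * V x) z x w) := by
    unfold Ex
    rw [← integral_const_mul, ← integral_const_mul,
      ← integral_sub (i2.const_mul _) (i1.const_mul _)]
    congr 1
    funext V
    push_cast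
    ring
  have l2 : Ex ν (fun V : X → ℝ => cv H lam z g τ τ' w V x) =
      (lam : ℂ) ^ 2 * Ex ν (fun V : X → ℝ => (τ (V x) : ℂ) *
        (Gr H (fun x => lam * V x) z x x * Gr H (fun x => lam * V x) z x w)) -
      ((lam : ℂ) ^ 2 * g) * Ex ν (fun V : X → ℝ => (τ (V x) : ℂ) *
        Gr H (fun x => lam * V x) z x w) -
      ((lam : ℂ) ^ 3 * g) * Ex ν (fun V : X → ℝ => (τ' (V x) : ℂ) *
        (Gr H (fun x => lam * V x) z x x * Gr H (fun x => lam * V x) z x w)) := by
    have i34 : Integrable (fun V : X → ℝ => (lam : ℂ) ^ 2 * ((τ (V x) : ℂ) *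
        (Gr H (fun x => lam * V x) z x x * Gr H (fun x => lam * V x) z x w)) -
        ((lam : ℂ) ^ 2 * g) * ((τ (V x) : ℂ) * Gr H (fun x => lam * V x) z x w))
        (Measure.pi fun _ : X => ν) := (i3.const_mul _).sub (i4.const_mul _)
    unfold Ex
    rw [← integral_const_mul, ← integral_const_mul, ← integral_const_mul,
      ← integral_sub (i3.const_mul _) (i4.const_mul _),
      ← integral_sub i34 (i5.const_mul _)]
    congr 1
    funext V
    simp only [cv]
    ring
  rw [l1, l2, c1]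
  push_cast
  linear_combination (lam : ℂ) ^ 2 * g * c2

/-- The mean of `G - M` (same computation with `Ψ = 1`): `E (G-M)_yw = (M E c)_y`. -/
theorem mean_sub {ν : Measure ℝ} {R s2 C : ℝ} {τ τ' : ℝ → ℝ} (hν : NiceLaw ν R s2 C τ τ')
    {H : Matrix X X ℂ} (hH : RS H) {lam : ℝ} (hlam : 0 < lam) {z g : ℂ} (hz : 0 < z.im)
    (hg : ∀ x, Ex ν (fun V : X → ℝ => Gr H (fun x => lam * V x) z x x) = g)
    (hζ : 0 < (z + (lam ^ 2 * s2 : ℝ) * g).im) (y w : X) :
    Ex ν (fun V => Zv H (Gr H 0 (z + (lam ^ 2 * s2 : ℝ) * g)) lam z w V y) =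
      (Gr H 0 (z + (lam ^ 2 * s2 : ℝ) * g) *ᵥ
        fun x => Ex ν (fun V => cv H lam z g τ τ' w V x)) y := by
  have hG : Continuous fun V : X → ℝ => Gr H (fun x => lam * V x) z := continuous_Gr hH lam hz.ne'
  have e1 : (fun V : X → ℝ => Zv H (Gr H 0 (z + (lam ^ 2 * s2 : ℝ) * g)) lam z w V y) =
      fun V : X → ℝ => ∑ x, Gr H 0 (z + (lam ^ 2 * s2 : ℝ) * g) y x *
        ((z - (z + (lam ^ 2 * s2 : ℝ) * g) - ((lam * V x : ℝ) : ℂ)) *
          Gr H (fun x => lam * V x) z x w) := by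
    funext V
    unfold Zv
    rw [Gr_expand hH (fun x => lam * V x) hz.ne' hζ.ne', Matrix.mul_apply]
    refine Finset.sum_congr rfl fun x _ => ?_
    rw [Matrix.mul_diagonal]
    ring
  have hcont : ∀ x, Continuous fun V : X → ℝ =>
      ((z - (z + (lam ^ 2 * s2 : ℝ) * g) - ((lam * V x : ℝ) : ℂ)) *
          Gr H (fun x => lam * V x) z x w) := fun x =>
    (continuous_const.sub (Complex.continuous_ofReal.comp
      (continuous_const.mul (continuous_apply x)))).mul (hG.matrix_elem x w)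
  rw [e1]
  simp only [Matrix.mulVec, dotProduct]
  unfold Ex
  rw [integral_finsetSum _ (fun x _ => (integrable_cont hν (hcont x)).const_mul _)]
  refine Finset.sum_congr rfl fun x _ => ?_
  rw [integral_const_mul]
  congr 1
  exact w1m_site hν hH hz x w

end Pool.Agent.BK
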