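import Pool.Agent.BK.Tw1
import Pool.Agent.BK.W1m

/-! BK module NUD: the mean of `n_x = (N Gᴴ)_xx` against `(N Mᴴ)_xx`.
`E n_x - (N Mᴴ)_xx = ∑_y N_xy conj(E(G-M)_xy)`, `E(G-M)_{·x} = M E c` (`mean_sub`, symmetry of `G - M`), so
it is `≤ rho (1/Im ζ) (nsq (E c))^{1/2}` (`nsq_Gr_mulVec`), `nsq (E c) ≤ E (nsq c)` (Jensen) and
`nsq c ≤ (C lam² (diagN + lam‖g‖ supN) rowN 2 G)²`. -/

open MeasureTheory Finset Matrix

noncomputable section

namespace Pool.Agent.BK

variable {X : Type} [Fintype X] [DecidableEq X] {H : Matrix X X ℂ} {z : ℂ}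

/-- Cauchy-Schwarz for a sum of products. -/
lemma NuD_cs (a b : X → ℂ) : ‖∑ x, a x * b x‖ ≤ √(nsq a) * √(nsq b) := by
  have h1 : ‖∑ x, a x * b x‖ ≤ ∑ x, ‖a x‖ * ‖b x‖ := by
    refine (norm_sum_le _ _).trans (le_of_eq ?_)
    exact Finset.sum_congr rfl fun x _ => norm_mul _ _
  have h2 : ∑ x, ‖a x‖ * ‖b x‖ ≤ √(nsq a) * √(nsq b) := by
    rw [← Real.sqrt_mul (by unfold nsq; positivity)]
    refine Real.le_sqrt_of_sq_le ?_
    exact Finset.sum_mul_sq_le_sq_mul_sq _ _ _
  exact h1.trans h2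

/-- Jensen for the square of a continuous function. -/
lemma NuD_jensen {ν : Measure ℝ} {R s2 C : ℝ} {τ τ' : ℝ → ℝ} (hν : NiceLaw ν R s2 C τ τ')
    {F : (X → ℝ) → ℝ} (hF : Continuous F) :
    Ex ν F ≤ √(Ex ν fun V => F V ^ 2) := by
  have := hν.prob
  refine Real.le_sqrt_of_sq_le ?_
  have hi1 := integrable_cont hν hF
  have hi2 : Integrable (fun V : X → ℝ => F V ^ 2) (Measure.pi fun _ : X => ν) :=
    integrable_cont hν (hF.pow 2)
  have hi3 : Integrable (fun V : X → ℝ => 2 * Ex ν F * F V) (Measure.pi fun _ : X => ν) :=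
    hi1.const_mul _
  have hi4 : Integrable (fun V : X → ℝ => F V ^ 2 - 2 * Ex ν F * F V)
      (Measure.pi fun _ : X => ν) := hi2.sub hi3
  have h0 : 0 ≤ ∫ V, (F V - Ex ν F) ^ 2 ∂(Measure.pi fun _ : X => ν) :=
    integral_nonneg fun V => sq_nonneg _
  have h1 : ∫ V, (F V - Ex ν F) ^ 2 ∂(Measure.pi fun _ : X => ν) =
      (Ex ν fun V => F V ^ 2) - Ex ν F ^ 2 := by
    have e : (fun V => (F V - Ex ν F) ^ 2) =
        fun V => F V ^ 2 - (2 * Ex ν F) * F V + Ex ν F ^ 2 := by
      funext V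
      ring
    rw [e, integral_add hi4 (integrable_const _),
      integral_sub hi2 hi3, integral_const_mul, integral_const]
    simp only [probReal_univ, one_smul]
    unfold Ex
    ring
  linarith

theorem nu_sub {ν : Measure ℝ} {R s2 C : ℝ} {τ τ' : ℝ → ℝ} (hν : NiceLaw ν R s2 C τ τ')
    (hH : RS H) {lam : ℝ} (hlam : 0 < lam) {g : ℂ} (hz : 0 < z.im)
    (hg : ∀ x, Ex ν (fun V : X → ℝ => Gr H (fun x => lam * V x) z x x) = g)
    (hζ : 0 < (z + (lam ^ 2 * s2 : ℝ) * g).im) (N : Matrix X X ℂ) {rho : ℝ} (hr : 0 ≤ rho)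
    (hrho : ∀ x, ∑ y, ‖N x y‖ ^ 2 ≤ rho ^ 2) (x : X) :
    ‖Ex ν (fun V : X → ℝ => (N * (Gr H (fun x => lam * V x) z)ᴴ) x x) -
        (N * (Gr H 0 (z + (lam ^ 2 * s2 : ℝ) * g))ᴴ) x x‖ ≤
      rho / (z + (lam ^ 2 * s2 : ℝ) * g).im * (C * lam ^ 2 *
        √(Ex ν (fun V : X → ℝ => ((diagN (Gr H (fun x => lam * V x) z) g +
          lam * ‖g‖ * supN (Gr H (fun x => lam * V x) z)) *
            rowN 2 (Gr H (fun x => lam * V x) z)) ^ 2))) := by
  have := hν.prob
  set ζ := z + (lam ^ 2 * s2 : ℝ) * g with hζd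
  set M := Gr H 0 ζ with hM
  have hC := hν.C_pos
  have hGc := continuous_Gr hH lam hz.ne'
  -- the mean as a sum
  have hZi : ∀ y, Integrable (fun V : X → ℝ => Zv H M lam z x V y)
      (Measure.pi fun _ : X => ν) := fun y =>
    integrable_cont hν (C1_Gr_sub hH lam hz.ne' M y x).cont
  have e1 : (fun V : X → ℝ => (N * (Gr H (fun x => lam * V x) z)ᴴ) x x) =
      fun V => (∑ y, N x y * starRingEnd ℂ (Zv H M lam z x V y)) + (N * Mᴴ) x x := by
    funext V
    simp only [Matrix.mul_apply, Matrix.conjTranspose_apply, Zv, Matrix.sub_apply, map_sub]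
    rw [← Finset.sum_add_distrib]
    refine Finset.sum_congr rfl fun y _ => ?_
    rw [Gr_symm hH _ hz.ne' y x, hM, Gr_symm hH _ hζ.ne' y x]
    simp only [RCLike.star_def]
    ring
  set a : X → ℂ := fun y => Ex ν (fun V => cv H lam z g τ τ' x V y) with ha
  have e2 : Ex ν (fun V : X → ℝ => (N * (Gr H (fun x => lam * V x) z)ᴴ) x x) - (N * Mᴴ) x x =
      ∑ y, N x y * starRingEnd ℂ ((M *ᵥ a) y) := by
    rw [e1]
    unfold Ex
    have hci : ∀ y ∈ Finset.univ, Integrable
        (fun V : X → ℝ => N x y * starRingEnd ℂ (Zv H M lam z x V y))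
        (Measure.pi fun _ : X => ν) := fun y _ =>
      (integrable_cont hν (Complex.continuous_conj.comp
        (C1_Gr_sub hH lam hz.ne' M y x).cont)).const_mul _
    rw [integral_add (integrable_finsetSum _ hci) (integrable_const _), integral_finsetSum _ hci,
      integral_const]
    simp only [probReal_univ, one_smul, add_sub_cancel_right]
    refine Finset.sum_congr rfl fun y _ => ?_
    rw [integral_const_mul, integral_conj]
    have := mean_sub hν hH hlam hz hg hζ y x
    unfold Ex at this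
    rw [this]
    rfl
  rw [e2]
  -- the function K
  set F : (X → ℝ) → ℝ := fun V => (diagN (Gr H (fun x => lam * V x) z) g +
          lam * ‖g‖ * supN (Gr H (fun x => lam * V x) z)) *
            rowN 2 (Gr H (fun x => lam * V x) z) with hF
  have hFc : Continuous F :=
    ((continuous_diagN g hGc).add (continuous_const.mul (continuous_supN hGc))).mul
      (continuous_rowN 2 hGc)
  -- bound of c
  have hcb : ∀ V, √(nsq (cv H lam z g τ τ' x V)) ≤ C * lam ^ 2 * F V := by
    intro V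
    set G := Gr H (fun x => lam * V x) z with hG
    have hd := diagN_nonneg G g
    have hs := supN_nonneg G
    have hrn := rowN_nonneg 2 G
    have hb : ∀ y, ‖cv H lam z g τ τ' x V y‖ ≤
        C * lam ^ 2 * (diagN G g + lam * ‖g‖ * supN G) * ‖G y x‖ := by
      intro y
      have t1 : ‖(lam : ℂ) ^ 2 * τ (V y) * (G y y - g) * G y x‖ ≤
          lam ^ 2 * C * diagN G g * ‖G y x‖ := by
        rw [norm_mul, norm_mul, norm_mul, norm_pow, Complex.norm_real, Complex.norm_real,
          Real.norm_eq_abs, Real.norm_eq_abs, abs_of_pos hlam]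
        have := hν.bdd (V y)
        have := norm_le_diagN G g y
        gcongr
      have t2 : ‖(lam : ℂ) ^ 3 * g * τ' (V y) * G y y * G y x‖ ≤
          lam ^ 3 * ‖g‖ * C * supN G * ‖G y x‖ := by
        rw [norm_mul, norm_mul, norm_mul, norm_mul, norm_pow, Complex.norm_real,
          Complex.norm_real, Real.norm_eq_abs, Real.norm_eq_abs, abs_of_pos hlam]
        have := hν.bdd' (V y)
        have := norm_le_supN G y y
        gcongr
      calc ‖cv H lam z g τ τ' x V y‖ ≤ _ := norm_sub_le _ _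
        _ ≤ _ := add_le_add t1 t2
        _ = _ := by ring
    have hrow : ∑ y, ‖G y x‖ ^ 2 ≤ rowN 2 G ^ 2 := by
      have := sum_pow_le_rowN (q := 2) (by norm_num) G x
      refine le_trans (le_of_eq ?_) this
      refine Finset.sum_congr rfl fun y _ => ?_
      rw [hG, Gr_symm hH _ hz.ne' y x]
    refine Real.sqrt_le_iff.mpr ⟨by rw [hF]; positivity, ?_⟩
    calc nsq (cv H lam z g τ τ' x V) ≤
        ∑ y, (C * lam ^ 2 * (diagN G g + lam * ‖g‖ * supN G) * ‖G y x‖) ^ 2 := by
          unfold nsq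
          exact Finset.sum_le_sum fun y _ => pow_le_pow_left₀ (norm_nonneg _) (hb y) 2
      _ = (C * lam ^ 2 * (diagN G g + lam * ‖g‖ * supN G)) ^ 2 * ∑ y, ‖G y x‖ ^ 2 := by
          rw [Finset.mul_sum]
          exact Finset.sum_congr rfl fun y _ => by ring
      _ ≤ (C * lam ^ 2 * (diagN G g + lam * ‖g‖ * supN G)) ^ 2 * rowN 2 G ^ 2 := by gcongr
      _ = _ := by rw [hF]; ring
  -- integrability of c
  have hci : ∀ y, Integrable (fun V : X → ℝ => cv H lam z g τ τ' x V y)
      (Measure.pi fun _ : X => ν) := by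
    intro y
    have c1 : Continuous fun V : X → ℝ => (lam : ℂ) ^ 2 *
        ((Gr H (fun x => lam * V x) z y y - g) * Gr H (fun x => lam * V x) z y x) :=
      continuous_const.mul (((C1_Gr hH lam hz.ne' y y).cont.sub continuous_const).mul
        (C1_Gr hH lam hz.ne' y x).cont)
    have c2 : Continuous fun V : X → ℝ => (lam : ℂ) ^ 3 * g *
        (Gr H (fun x => lam * V x) z y y * Gr H (fun x => lam * V x) z y x) :=
      continuous_const.mul ((C1_Gr hH lam hz.ne' y y).cont.mul (C1_Gr hH lam hz.ne' y x).cont)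
    have i1 := integrable_bdd_mul hν c1 hν.meas hν.bdd y
    have i2 := integrable_bdd_mul hν c2 hν.meas' hν.bdd' y
    refine (i1.sub i2).congr (Filter.Eventually.of_forall fun V => ?_)
    simp only [cv, Pi.sub_apply]
    ring
  -- the norm of the mean of c
  have hEK : √(nsq a) ≤ Ex ν (fun V => C * lam ^ 2 * F V) := by
    have hKi : Integrable (fun V => C * lam ^ 2 * F V) (Measure.pi fun _ : X => ν) :=
      integrable_cont hν (continuous_const.mul hFc)
    have h1 : (nsq a : ℝ) = ‖∑ y, starRingEnd ℂ (a y) * a y‖ := by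
      have : ∑ y, starRingEnd ℂ (a y) * a y = ((nsq a : ℝ) : ℂ) := by
        unfold nsq
        push_cast
        refine Finset.sum_congr rfl fun y _ => ?_
        rw [mul_comm, Complex.mul_conj, Complex.normSq_eq_norm_sq]
        push_cast
        rfl
      rw [this, Complex.norm_real, Real.norm_eq_abs, abs_of_nonneg]
      unfold nsq
      positivity
    have h2 : ∑ y, starRingEnd ℂ (a y) * a y =
        ∫ V, ∑ y, starRingEnd ℂ (a y) * cv H lam z g τ τ' x V y ∂(Measure.pi fun _ : X => ν) := by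
      rw [integral_finsetSum _ fun y _ => (hci y).const_mul _]
      refine Finset.sum_congr rfl fun y _ => ?_
      rw [integral_const_mul]
      rfl
    have hcn : nsq (fun y => starRingEnd ℂ (a y)) = nsq a := by
      unfold nsq
      exact Finset.sum_congr rfl fun y _ => by rw [RCLike.norm_conj]
    have h3 : ‖∫ V, ∑ y, starRingEnd ℂ (a y) * cv H lam z g τ τ' x V y
        ∂(Measure.pi fun _ : X => ν)‖ ≤
        ∫ V, √(nsq a) * (C * lam ^ 2 * F V) ∂(Measure.pi fun _ : X => ν) := by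
      refine norm_integral_le_of_norm_le (hKi.const_mul _)
        (Filter.Eventually.of_forall fun V => ?_)
      refine (NuD_cs _ _).trans ?_
      rw [hcn]
      exact mul_le_mul_of_nonneg_left (hcb V) (Real.sqrt_nonneg _)
    rw [integral_const_mul, ← h2, ← h1] at h3
    have hn0 : 0 ≤ nsq a := by unfold nsq; positivity
    by_cases h0 : √(nsq a) = 0
    · rw [h0]
      refine integral_nonneg fun V => ?_
      exact le_trans (Real.sqrt_nonneg _) (hcb V)
    · have hpos : 0 < √(nsq a) := lt_of_le_of_ne (Real.sqrt_nonneg _) (Ne.symm h0)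
      have h4 : √(nsq a) * √(nsq a) ≤ √(nsq a) * Ex ν (fun V => C * lam ^ 2 * F V) := by
        rw [Real.mul_self_sqrt hn0]
        exact h3
      exact le_of_mul_le_mul_left h4 hpos
  have hEK2 : Ex ν (fun V => C * lam ^ 2 * F V) ≤ C * lam ^ 2 * √(Ex ν fun V => F V ^ 2) := by
    have : Ex ν (fun V => C * lam ^ 2 * F V) = C * lam ^ 2 * Ex ν F := by
      unfold Ex
      rw [integral_const_mul]
    rw [this]
    exact mul_le_mul_of_nonneg_left (NuD_jensen hν hFc) (by positivity)
  -- the final estimate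
  have hN : √(nsq fun y => N x y) ≤ rho := by
    refine Real.sqrt_le_iff.mpr ⟨hr, ?_⟩
    exact hrho x
  have hMa : √(nsq fun y => starRingEnd ℂ ((M *ᵥ a) y)) ≤ 1 / ζ.im * √(nsq a) := by
    have h := nsq_Gr_mulVec hH (0 : X → ℝ) hζ a
    have hcn : nsq (fun y => starRingEnd ℂ ((M *ᵥ a) y)) = nsq (M *ᵥ a) := by
      unfold nsq
      exact Finset.sum_congr rfl fun y _ => by rw [RCLike.norm_conj]
    rw [hcn]
    have hn0 : 0 ≤ nsq a := by unfold nsq; positivity
    refine Real.sqrt_le_iff.mpr ⟨by positivity, ?_⟩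
    rw [mul_pow, Real.sq_sqrt hn0]
    exact h
  calc ‖∑ y, N x y * starRingEnd ℂ ((M *ᵥ a) y)‖ ≤
      √(nsq fun y => N x y) * √(nsq fun y => starRingEnd ℂ ((M *ᵥ a) y)) := NuD_cs _ _
    _ ≤ rho * (1 / ζ.im * √(nsq a)) := by gcongr
    _ = rho / ζ.im * √(nsq a) := by ring
    _ ≤ rho / ζ.im * (C * lam ^ 2 * √(Ex ν fun V => F V ^ 2)) := by
        have : 0 ≤ rho / ζ.im := div_nonneg hr hζ.le
        exact mul_le_mul_of_nonneg_left (hEK.trans hEK2) this

end Pool.Agent.BK
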