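import Pool.Agent.BK.Tw1

/-! BK module TW2: integration by parts for the current.

`G = Gr H (lam V) z`, `ζ = z + lam² s2 g`, `M = Gr H 0 ζ`, `W = tw u H - H`, `N = tw u M · W`,
`j_x = (tw u G W Gᴴ)_xx`, `s_x = (tw u G Gᴴ)_xx`, `n_x = (N Gᴴ)_xx`, `E n_x = nu` for all `x`.
By `tw_expand`: `j_x = n_x + ∑_u (tw u G)_xu K_u (N Gᴴ)_ux`, `K_u = -lam V_u - lam² s2 g`.
With `F_u = (tw u G)_xu (N Gᴴ)_ux`, `∂_u F_u = -lam G_uu F_u - lam (tw u G)_xu n_u conj(G_xu)`, so by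
`ibp`, `ibp'`:
`E[K_u F_u] = lam² E[τ_u (G_uu - g) F_u] + lam² g E[(τ_u - s2) F_u] + lam² E[τ_u (tw u G)_xu n_u conj G_xu]`,
`E[(τ_u - s2) F_u] = -lam E[τ'_u (G_uu F_u + (tw u G)_xu n_u conj G_xu)]`,
and `E[τ_u (tw u G)_xu conj G_xu] = s2 E[(tw u G)_xu conj G_xu] - lam E[τ'_u (tw u G)_xu conj G_xu (G_uu + conj G_uu)]`
is used for the part `nu` of `n_u = nu + (n_u - nu)`. Sum over `u` with Cauchy-Schwarz:
`∑_u |F_u| ≤ ‖G_x‖_2 ‖N Gᴴ e_x‖_2 ≤ bN (rowN 2 G)²`. -/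

open MeasureTheory Finset Matrix

noncomputable section

namespace Pool.Agent.BK

variable {X : Type} [Fintype X] [DecidableEq X]

section Lin

omit [DecidableEq X]

variable {ν : Measure ℝ} {E : Type} [NormedAddCommGroup E] [NormedSpace ℝ E]

lemma tw2_add {F G : (X → ℝ) → E} (hF : Integrable F (Measure.pi fun _ : X => ν))
    (hG : Integrable G (Measure.pi fun _ : X => ν)) :
    Ex ν (fun V => F V + G V) = Ex ν F + Ex ν G := integral_add hF hG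

lemma tw2_sub {F G : (X → ℝ) → E} (hF : Integrable F (Measure.pi fun _ : X => ν))
    (hG : Integrable G (Measure.pi fun _ : X => ν)) :
    Ex ν (fun V => F V - G V) = Ex ν F - Ex ν G := integral_sub hF hG

lemma tw2_cmul (c : ℂ) (F : (X → ℝ) → ℂ) :
    Ex ν (fun V => c * F V) = c * Ex ν F := integral_const_mul c F

lemma tw2_rmul (c : ℝ) (F : (X → ℝ) → ℝ) :
    Ex ν (fun V => c * F V) = c * Ex ν F := integral_const_mul c F

end Lin

/-- The integration by parts for one site. -/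
lemma tw2_one {ν : Measure ℝ} {R s2 C : ℝ} {τ τ' : ℝ → ℝ} (hν : NiceLaw ν R s2 C τ τ')
    {F P : (X → ℝ) → ℂ} {F' P' : X → (X → ℝ) → ℂ} (hF : C1 F F') (hP : C1 P P') (a : X)
    (lam g nu : ℂ) :
    Ex ν (fun V : X → ℝ => (-lam * (V a : ℂ) - lam ^ 2 * s2 * g) * F V) -
      lam ^ 2 * s2 * nu * Ex ν P =
    Ex ν (fun V : X → ℝ => (τ (V a) : ℂ) * (-lam * F' a V - lam ^ 2 * g * F V -
      lam ^ 2 * nu * P V) + (τ' (V a) : ℂ) * (lam ^ 2 * g * F' a V + lam ^ 2 * nu * P' a V)) := by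
  have h1 := ibp hν hF a
  have h2 := ibp' hν hF a
  have h3 := ibp' hν hP a
  have cF := hF.cont
  have cP := hP.cont
  have cF' := hF.cont' a
  have cP' := hP.cont' a
  have iτ : ∀ {Q : (X → ℝ) → ℂ}, Continuous Q →
      Integrable (fun V : X → ℝ => (τ (V a) : ℂ) * Q V) (Measure.pi fun _ : X => ν) :=
    fun hQ => integrable_bdd_mul hν hQ hν.meas hν.bdd a
  have iτ' : ∀ {Q : (X → ℝ) → ℂ}, Continuous Q →
      Integrable (fun V : X → ℝ => (τ' (V a) : ℂ) * Q V) (Measure.pi fun _ : X => ν) :=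
    fun hQ => integrable_bdd_mul hν hQ hν.meas' hν.bdd' a
  have ic : ∀ {Q : (X → ℝ) → ℂ}, Continuous Q →
      Integrable Q (Measure.pi fun _ : X => ν) := fun hQ => integrable_cont hν hQ
  have cV : Continuous fun V : X → ℝ => ((V a : ℝ) : ℂ) := by fun_prop
  have e1 : Ex ν (fun V : X → ℝ => (-lam * (V a : ℂ) - lam ^ 2 * s2 * g) * F V) =
      -lam * Ex ν (fun V : X → ℝ => (V a : ℂ) * F V) - lam ^ 2 * s2 * g * Ex ν F := by
    have : (fun V : X → ℝ => (-lam * (V a : ℂ) - lam ^ 2 * s2 * g) * F V) =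
        fun V => -lam * ((V a : ℂ) * F V) - lam ^ 2 * s2 * g * F V := by
      funext V; ring
    rw [this, ← tw2_cmul, ← tw2_cmul]
    exact tw2_sub (ic (by fun_prop)) (ic (by fun_prop))
  have e2 : ∀ {Q : (X → ℝ) → ℂ}, Continuous Q →
      Ex ν (fun V : X → ℝ => ((τ (V a) - s2 : ℝ) : ℂ) * Q V) =
        Ex ν (fun V : X → ℝ => (τ (V a) : ℂ) * Q V) - s2 * Ex ν Q := by
    intro Q hQ
    have : (fun V : X → ℝ => ((τ (V a) - s2 : ℝ) : ℂ) * Q V) =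
        fun V => (τ (V a) : ℂ) * Q V - s2 * Q V := by
      funext V; push_cast; ring
    rw [this, ← tw2_cmul]
    exact tw2_sub (iτ hQ) (ic (by fun_prop))
  have e3 : Ex ν (fun V : X → ℝ => (τ (V a) : ℂ) * (-lam * F' a V - lam ^ 2 * g * F V -
      lam ^ 2 * nu * P V)) =
      -lam * Ex ν (fun V : X → ℝ => (τ (V a) : ℂ) * F' a V) -
        lam ^ 2 * g * Ex ν (fun V : X → ℝ => (τ (V a) : ℂ) * F V) -
        lam ^ 2 * nu * Ex ν (fun V : X → ℝ => (τ (V a) : ℂ) * P V) := by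
    have : (fun V : X → ℝ => (τ (V a) : ℂ) * (-lam * F' a V - lam ^ 2 * g * F V -
      lam ^ 2 * nu * P V)) =
        fun V => (-lam * ((τ (V a) : ℂ) * F' a V) - lam ^ 2 * g * ((τ (V a) : ℂ) * F V)) -
          lam ^ 2 * nu * ((τ (V a) : ℂ) * P V) := by
      funext V; ring
    rw [this, ← tw2_cmul, ← tw2_cmul, ← tw2_cmul]
    rw [← tw2_sub ((iτ cF').const_mul _) ((iτ cF).const_mul _)]
    exact tw2_sub (((iτ cF').const_mul _).sub ((iτ cF).const_mul _)) ((iτ cP).const_mul _)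
  have e4 : Ex ν (fun V : X → ℝ => (τ' (V a) : ℂ) * (lam ^ 2 * g * F' a V +
      lam ^ 2 * nu * P' a V)) = lam ^ 2 * g * Ex ν (fun V : X → ℝ => (τ' (V a) : ℂ) * F' a V) +
          lam ^ 2 * nu * Ex ν (fun V : X → ℝ => (τ' (V a) : ℂ) * P' a V) := by
    have : (fun V : X → ℝ => (τ' (V a) : ℂ) * (lam ^ 2 * g * F' a V +
      lam ^ 2 * nu * P' a V)) = fun V => lam ^ 2 * g * ((τ' (V a) : ℂ) * F' a V) +
          lam ^ 2 * nu * ((τ' (V a) : ℂ) * P' a V) := by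
      funext V; ring
    rw [this, ← tw2_cmul, ← tw2_cmul]
    exact tw2_add ((iτ' cF').const_mul _) ((iτ' cP').const_mul _)
  rw [tw2_add (iτ (by fun_prop)) (iτ' (by fun_prop)), e1, e3, e4, h1, ← h2, ← h3, e2 cF, e2 cP]
  ring

section Point

variable {H : Matrix X X ℂ} {z : ℂ}

/-- Derivative of `F_a`. -/
lemma tw2_C1F (hH : RS H) (lam : ℝ) (hz : z.im ≠ 0) (u : X → ℂ) (N : Matrix X X ℂ) (x a : X) :
    ∃ F' : X → (X → ℝ) → ℂ,
      C1 (fun V : X → ℝ => tw u (Gr H (fun x => lam * V x) z) x a *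
        (N * (Gr H (fun x => lam * V x) z)ᴴ) a x) F' ∧
      ∀ V : X → ℝ, F' a V = -(lam : ℂ) * (Gr H (fun x => lam * V x) z a a *
        (tw u (Gr H (fun x => lam * V x) z) x a * (N * (Gr H (fun x => lam * V x) z)ᴴ) a x) +
        (tw u (Gr H (fun x => lam * V x) z) x a *
          starRingEnd ℂ (Gr H (fun x => lam * V x) z x a)) *
          (N * (Gr H (fun x => lam * V x) z)ᴴ) a a) := by
  have hA := ((C1_Gr hH lam hz x a).const_mul (starRingEnd ℂ (u x))).mul (C1.const (u a))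
  have hB := C1.sum (Finset.univ : Finset X) (F := fun b (V : X → ℝ) =>
      N a b * starRingEnd ℂ (Gr H (fun x => lam * V x) z x b))
    (F' := fun b c V => N a b * starRingEnd ℂ (-(lam : ℂ) * Gr H (fun x => lam * V x) z x c *
      Gr H (fun x => lam * V x) z c b)) (fun b _ => (C1_Gr hH lam hz x b).conj.const_mul (N a b))
  have hAB := hA.mul hB
  have e : (fun V : X → ℝ => tw u (Gr H (fun x => lam * V x) z) x a *
      (N * (Gr H (fun x => lam * V x) z)ᴴ) a x) = fun V : X → ℝ =>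
      starRingEnd ℂ (u x) * Gr H (fun x => lam * V x) z x a * u a *
      ∑ b, N a b * starRingEnd ℂ (Gr H (fun x => lam * V x) z x b) := by
    funext V
    simp only [tw, Matrix.mul_apply, Matrix.conjTranspose_apply, Complex.star_def]
  rw [e]
  refine ⟨_, hAB, ?_⟩
  · intro V
    simp only [tw, Matrix.mul_apply, Matrix.conjTranspose_apply, mul_zero, add_zero]
    have h1 : ∑ b, N a b * starRingEnd ℂ (-(lam : ℂ) * Gr H (fun x => lam * V x) z x a *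
        Gr H (fun x => lam * V x) z a b) = -(lam : ℂ) *
        starRingEnd ℂ (Gr H (fun x => lam * V x) z x a) *
        ∑ b, N a b * star (Gr H (fun x => lam * V x) z a b) := by
      rw [Finset.mul_sum]
      refine Finset.sum_congr rfl fun b _ => ?_
      simp only [map_mul, map_neg, Complex.conj_ofReal, Complex.star_def]
      ring
    rw [h1]
    simp only [Complex.star_def]
    ring

/-- Derivative of `P_a`. -/
lemma tw2_C1P (hH : RS H) (lam : ℝ) (hz : z.im ≠ 0) (u : X → ℂ) (x a : X) :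
    ∃ P' : X → (X → ℝ) → ℂ,
      C1 (fun V : X → ℝ => tw u (Gr H (fun x => lam * V x) z) x a *
        starRingEnd ℂ (Gr H (fun x => lam * V x) z x a)) P' ∧
      ∀ V : X → ℝ, P' a V = -(lam : ℂ) * ((Gr H (fun x => lam * V x) z a a +
        starRingEnd ℂ (Gr H (fun x => lam * V x) z a a)) *
        (tw u (Gr H (fun x => lam * V x) z) x a *
          starRingEnd ℂ (Gr H (fun x => lam * V x) z x a))) := by
  have hA := ((C1_Gr hH lam hz x a).const_mul (starRingEnd ℂ (u x))).mul (C1.const (u a))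
  have hB := (C1_Gr hH lam hz x a).conj
  have hAB := hA.mul hB
  have e : (fun V : X → ℝ => tw u (Gr H (fun x => lam * V x) z) x a *
      starRingEnd ℂ (Gr H (fun x => lam * V x) z x a)) = fun V : X → ℝ =>
      starRingEnd ℂ (u x) * Gr H (fun x => lam * V x) z x a * u a *
      starRingEnd ℂ (Gr H (fun x => lam * V x) z x a) := by
    funext V
    simp only [tw]
  rw [e]
  refine ⟨_, hAB, ?_⟩
  · intro V
    simp only [tw, mul_zero, add_zero, map_mul, map_neg, Complex.conj_ofReal]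
    ring

lemma tw2_sumP {u : X → ℂ} (hu : ∀ x, ‖u x‖ = 1) (A : Matrix X X ℂ) (x : X) :
    ∑ a, ‖tw u A x a * starRingEnd ℂ (A x a)‖ ≤ rowN 2 A ^ 2 := by
  refine le_trans (le_of_eq ?_) (sum_pow_le_rowN (q := 2) (by norm_num) A x)
  refine Finset.sum_congr rfl fun a _ => ?_
  rw [norm_mul, norm_tw hu, RCLike.norm_conj]
  ring

lemma tw2_sumF {u : X → ℂ} (hu : ∀ x, ‖u x‖ = 1) (A N : Matrix X X ℂ) {bN : ℝ} (hbN0 : 0 ≤ bN)
    (hbN : ∀ c : X → ℂ, nsq (N *ᵥ c) ≤ bN ^ 2 * nsq c) (x : X) :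
    ∑ a, ‖tw u A x a * (N * Aᴴ) a x‖ ≤ bN * rowN 2 A ^ 2 := by
  have h1 : ∑ y, ‖A x y‖ ^ 2 ≤ rowN 2 A ^ 2 := sum_pow_le_rowN (q := 2) (by norm_num) A x
  have h2 : ∑ a, ‖(N * Aᴴ) a x‖ ^ 2 ≤ bN ^ 2 * ∑ y, ‖A x y‖ ^ 2 := by
    have h3 := hbN (fun b => starRingEnd ℂ (A x b))
    have h4 : nsq (fun b => starRingEnd ℂ (A x b)) = ∑ y, ‖A x y‖ ^ 2 := by
      unfold nsq
      refine Finset.sum_congr rfl fun b _ => ?_
      rw [RCLike.norm_conj]
    rw [h4] at h3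
    exact h3
  have h5 : (∑ a, ‖tw u A x a‖ * ‖(N * Aᴴ) a x‖) ^ 2 ≤ (bN * ∑ y, ‖A x y‖ ^ 2) ^ 2 := by
    refine (Finset.sum_mul_sq_le_sq_mul_sq _ _ _).trans ?_
    simp only [norm_tw hu]
    have h6 : 0 ≤ ∑ y, ‖A x y‖ ^ 2 := by positivity
    calc (∑ y, ‖A x y‖ ^ 2) * ∑ a, ‖(N * Aᴴ) a x‖ ^ 2
        ≤ (∑ y, ‖A x y‖ ^ 2) * (bN ^ 2 * ∑ y, ‖A x y‖ ^ 2) := by gcongr
      _ = _ := by ring
  have h7 : ∑ a, ‖tw u A x a‖ * ‖(N * Aᴴ) a x‖ ≤ bN * ∑ y, ‖A x y‖ ^ 2 :=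
    (pow_le_pow_iff_left₀ (by positivity) (by positivity) (by norm_num : (2 : ℕ) ≠ 0)).mp h5
  simp only [norm_mul]
  exact h7.trans (by gcongr)

/-- Norm bound for one site. -/
lemma tw2_site {lam C tt tt' dG dN0 dNn sG f p : ℝ} (hlam : 0 < lam) {g nu Ga F P na : ℂ}
    (ht : |tt| ≤ C) (ht' : |tt'| ≤ C) (h1 : ‖Ga - g‖ ≤ dG) (h2 : ‖Ga‖ ≤ sG)
    (h3 : ‖na‖ ≤ dN0) (h4 : ‖na - nu‖ ≤ dNn) (h5 : ‖F‖ = f) (h6 : ‖P‖ = p) :
    ‖(tt : ℂ) * (-(lam : ℂ) * (-(lam : ℂ) * (Ga * F + P * na)) - (lam : ℂ) ^ 2 * g * F -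
        (lam : ℂ) ^ 2 * nu * P) + (tt' : ℂ) * ((lam : ℂ) ^ 2 * g * (-(lam : ℂ) *
        (Ga * F + P * na)) + (lam : ℂ) ^ 2 * nu * (-(lam : ℂ) * ((Ga + starRingEnd ℂ Ga) * P)))‖ ≤
      C * lam ^ 2 * (dG * f) + C * lam ^ 3 * ‖g‖ * (sG * f) + C * lam ^ 3 * ‖g‖ * (dN0 * p) +
        2 * C * lam ^ 3 * ‖nu‖ * (sG * p) + C * lam ^ 2 * (dNn * p) := by
  have hC : 0 ≤ C := (abs_nonneg _).trans ht
  have hf : 0 ≤ f := by rw [← h5]; exact norm_nonneg _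
  have hp : 0 ≤ p := by rw [← h6]; exact norm_nonneg _
  have hdG : 0 ≤ dG := (norm_nonneg _).trans h1
  have hsG : 0 ≤ sG := (norm_nonneg _).trans h2
  have hd0 : 0 ≤ dN0 := (norm_nonneg _).trans h3
  have hdn : 0 ≤ dNn := (norm_nonneg _).trans h4
  have e1 : (tt : ℂ) * (-(lam : ℂ) * (-(lam : ℂ) * (Ga * F + P * na)) - (lam : ℂ) ^ 2 * g * F -
        (lam : ℂ) ^ 2 * nu * P) + (tt' : ℂ) * ((lam : ℂ) ^ 2 * g * (-(lam : ℂ) *
        (Ga * F + P * na)) + (lam : ℂ) ^ 2 * nu * (-(lam : ℂ) * ((Ga + starRingEnd ℂ Ga) * P))) =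
      (tt : ℂ) * (lam : ℂ) ^ 2 * ((Ga - g) * F) + (tt : ℂ) * (lam : ℂ) ^ 2 * ((na - nu) * P) +
      (-(tt' : ℂ) * (lam : ℂ) ^ 3 * g * (Ga * F)) + (-(tt' : ℂ) * (lam : ℂ) ^ 3 * g * (na * P)) +
      (-(tt' : ℂ) * (lam : ℂ) ^ 3 * nu * ((Ga + starRingEnd ℂ Ga) * P)) := by ring
  rw [e1]
  have nt : ‖(tt : ℂ)‖ ≤ C := by rw [Complex.norm_real]; exact ht
  have nt' : ‖(tt' : ℂ)‖ ≤ C := by rw [Complex.norm_real]; exact ht'
  have nl : ‖(lam : ℂ)‖ = lam := by rw [Complex.norm_real]; exact abs_of_pos hlam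
  have b1 : ‖(tt : ℂ) * (lam : ℂ) ^ 2 * ((Ga - g) * F)‖ ≤ C * lam ^ 2 * (dG * f) := by
    rw [norm_mul, norm_mul, norm_mul, norm_pow, nl, h5]
    gcongr
  have b2 : ‖(tt : ℂ) * (lam : ℂ) ^ 2 * ((na - nu) * P)‖ ≤ C * lam ^ 2 * (dNn * p) := by
    rw [norm_mul, norm_mul, norm_mul, norm_pow, nl, h6]
    gcongr
  have b3 : ‖-(tt' : ℂ) * (lam : ℂ) ^ 3 * g * (Ga * F)‖ ≤ C * lam ^ 3 * ‖g‖ * (sG * f) := by
    rw [norm_mul, norm_mul, norm_mul, norm_mul, norm_neg, norm_pow, nl, h5]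
    gcongr
  have b4 : ‖-(tt' : ℂ) * (lam : ℂ) ^ 3 * g * (na * P)‖ ≤ C * lam ^ 3 * ‖g‖ * (dN0 * p) := by
    rw [norm_mul, norm_mul, norm_mul, norm_mul, norm_neg, norm_pow, nl, h6]
    gcongr
  have b5 : ‖-(tt' : ℂ) * (lam : ℂ) ^ 3 * nu * ((Ga + starRingEnd ℂ Ga) * P)‖ ≤
      2 * C * lam ^ 3 * ‖nu‖ * (sG * p) := by
    have h7 : ‖Ga + starRingEnd ℂ Ga‖ ≤ 2 * sG := by
      refine (norm_add_le _ _).trans ?_
      rw [RCLike.norm_conj]
      linarith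
    rw [norm_mul, norm_mul, norm_mul, norm_mul, norm_neg, norm_pow, nl, h6]
    calc ‖(tt' : ℂ)‖ * lam ^ 3 * ‖nu‖ * (‖Ga + starRingEnd ℂ Ga‖ * p)
        ≤ C * lam ^ 3 * ‖nu‖ * ((2 * sG) * p) := by gcongr
      _ = _ := by ring
  refine (norm_add_le _ _).trans ?_
  refine (add_le_add ((norm_add_le _ _).trans (add_le_add ((norm_add_le _ _).trans
    (add_le_add (norm_add_le _ _) le_rfl)) le_rfl)) le_rfl).trans ?_
  linarith

end Point

/-- Expansion of the current. -/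
lemma tw2_expand {H : Matrix X X ℂ} {z ζ : ℂ} (hH : RS H) (v : X → ℝ) (hz : z.im ≠ 0)
    (hζ : ζ.im ≠ 0) {u : X → ℂ} (hu : ∀ x, ‖u x‖ = 1) (W : Matrix X X ℂ) (x : X) :
    (tw u (Gr H v z) * W * (Gr H v z)ᴴ) x x = (tw u (Gr H 0 ζ) * W * (Gr H v z)ᴴ) x x +
      ∑ a, (z - ζ - (v a : ℂ)) * (tw u (Gr H v z) x a *
        (tw u (Gr H 0 ζ) * W * (Gr H v z)ᴴ) a x) := by
  have h1 := tw_expand hH v hz hζ hu
  have h2 : tw u (Gr H v z) * W * (Gr H v z)ᴴ = tw u (Gr H 0 ζ) * W * (Gr H v z)ᴴ +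
      tw u (Gr H v z) * (Matrix.diagonal (fun x => z - ζ - (v x : ℂ)) *
        (tw u (Gr H 0 ζ) * W * (Gr H v z)ᴴ)) := by
    conv_lhs => rw [h1]
    simp only [Matrix.add_mul, Matrix.mul_assoc]
  rw [h2, Matrix.add_apply, Matrix.mul_apply]
  congr 1
  refine Finset.sum_congr rfl fun a _ => ?_
  have h3 : (Matrix.diagonal (fun x => z - ζ - (v x : ℂ)) *
      (tw u (Gr H 0 ζ) * W * (Gr H v z)ᴴ)) a x = (z - ζ - (v a : ℂ)) *
      (tw u (Gr H 0 ζ) * W * (Gr H v z)ᴴ) a x := Matrix.diagonal_mul _ _ _ _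
  calc _ = tw u (Gr H v z) x a * (Matrix.diagonal (fun x => z - ζ - (v x : ℂ)) *
      (tw u (Gr H 0 ζ) * W * (Gr H v z)ᴴ)) a x := rfl
    _ = _ := by rw [h3]; ring

theorem twi {ν : Measure ℝ} {R s2 C : ℝ} {τ τ' : ℝ → ℝ} (hν : NiceLaw ν R s2 C τ τ')
    {H : Matrix X X ℂ} (hH : RS H) {lam : ℝ} (hlam : 0 < lam) {z g : ℂ} (hz : 0 < z.im)
    (hg : ∀ x, Ex ν (fun V : X → ℝ => Gr H (fun x => lam * V x) z x x) = g)
    (hζ : 0 < (z + (lam ^ 2 * s2 : ℝ) * g).im) {u : X → ℂ} (hu : ∀ x, ‖u x‖ = 1)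
    (N : Matrix X X ℂ) (hN : N = tw u (Gr H 0 (z + (lam ^ 2 * s2 : ℝ) * g)) * (tw u H - H))
    {bN : ℝ} (hbN0 : 0 ≤ bN) (hbN : ∀ c : X → ℂ, nsq (N *ᵥ c) ≤ bN ^ 2 * nsq c) {nu : ℂ}
    (hnu : ∀ x, Ex ν (fun V : X → ℝ => (N * (Gr H (fun x => lam * V x) z)ᴴ) x x) = nu) (x : X) :
    ‖Ex ν (fun V : X → ℝ => (tw u (Gr H (fun x => lam * V x) z) * (tw u H - H) *
        (Gr H (fun x => lam * V x) z)ᴴ) x x) - nu -
      (lam ^ 2 * s2 : ℝ) * nu * Ex ν (fun V : X → ℝ => (tw u (Gr H (fun x => lam * V x) z) *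
        (Gr H (fun x => lam * V x) z)ᴴ) x x)‖ ≤
      C * lam ^ 2 * bN * Ex ν (fun V : X → ℝ => diagN (Gr H (fun x => lam * V x) z) g *
        rowN 2 (Gr H (fun x => lam * V x) z) ^ 2) +
      C * lam ^ 3 * ‖g‖ * bN * Ex ν (fun V : X → ℝ => supN (Gr H (fun x => lam * V x) z) *
        rowN 2 (Gr H (fun x => lam * V x) z) ^ 2) +
      C * lam ^ 3 * ‖g‖ * Ex ν (fun V : X → ℝ =>
        diagN (N * (Gr H (fun x => lam * V x) z)ᴴ) 0 * rowN 2 (Gr H (fun x => lam * V x) z) ^ 2) +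
      2 * C * lam ^ 3 * ‖nu‖ * Ex ν (fun V : X → ℝ => supN (Gr H (fun x => lam * V x) z) *
        rowN 2 (Gr H (fun x => lam * V x) z) ^ 2) +
      C * lam ^ 2 * Ex ν (fun V : X → ℝ =>
        diagN (N * (Gr H (fun x => lam * V x) z)ᴴ) nu * rowN 2 (Gr H (fun x => lam * V x) z) ^ 2) := by
  choose F' hF hF' using fun a => tw2_C1F hH lam hz.ne' u N x a
  choose P' hP hP' using fun a => tw2_C1P (H := H) hH lam hz.ne' u x a
  set G : (X → ℝ) → Matrix X X ℂ := fun V => Gr H (fun x => lam * V x) z with hGdef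
  have cG : Continuous G := continuous_Gr hH lam hz.ne'
  have cB : Continuous fun V => N * (G V)ᴴ := continuous_const.matrix_mul cG.matrix_conjTranspose
  have cdG : Continuous fun V => diagN (G V) g := continuous_diagN g cG
  have csG : Continuous fun V => supN (G V) := continuous_supN cG
  have crG : Continuous fun V => rowN 2 (G V) := continuous_rowN 2 cG
  have cd0 : Continuous fun V => diagN (N * (G V)ᴴ) 0 := continuous_diagN 0 cB
  have cdn : Continuous fun V => diagN (N * (G V)ᴴ) nu := continuous_diagN nu cB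
  have ic : ∀ {Q : (X → ℝ) → ℂ}, Continuous Q →
      Integrable Q (Measure.pi fun _ : X => ν) := fun hQ => integrable_cont hν hQ
  have ir : ∀ {Q : (X → ℝ) → ℝ}, Continuous Q →
      Integrable Q (Measure.pi fun _ : X => ν) := fun hQ => integrable_cont hν hQ
  have cBe : ∀ a b, Continuous fun V => (N * (G V)ᴴ) a b := fun a b => cB.matrix_elem a b
  -- the integrands
  set F : X → (X → ℝ) → ℂ := fun a V => tw u (G V) x a * (N * (G V)ᴴ) a x with hFdef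
  set P : X → (X → ℝ) → ℂ := fun a V => tw u (G V) x a * starRingEnd ℂ (G V x a) with hPdef
  set T : X → (X → ℝ) → ℂ := fun a V => (τ (V a) : ℂ) * (-(lam : ℂ) * F' a a V -
      (lam : ℂ) ^ 2 * g * F a V - (lam : ℂ) ^ 2 * nu * P a V) +
      (τ' (V a) : ℂ) * ((lam : ℂ) ^ 2 * g * F' a a V + (lam : ℂ) ^ 2 * nu * P' a a V) with hTdef
  have iT : ∀ a, Integrable (T a) (Measure.pi fun _ : X => ν) := by
    intro a
    have c1 := (hF a).cont
    have c2 := (hF a).cont' a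
    have c3 := (hP a).cont
    have c4 := (hP a).cont' a
    refine Integrable.add ?_ ?_
    · exact integrable_bdd_mul hν (F := fun V => -(lam : ℂ) * F' a a V -
        (lam : ℂ) ^ 2 * g * F a V - (lam : ℂ) ^ 2 * nu * P a V)
        ((((continuous_const.mul c2).sub (continuous_const.mul c1))).sub
          (continuous_const.mul c3)) hν.meas hν.bdd a
    · exact integrable_bdd_mul hν (F := fun V => (lam : ℂ) ^ 2 * g * F' a a V +
        (lam : ℂ) ^ 2 * nu * P' a a V)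
        ((continuous_const.mul c2).add (continuous_const.mul c4)) hν.meas' hν.bdd' a
  have hone : ∀ a, Ex ν (fun V : X → ℝ => (-(lam : ℂ) * (V a : ℂ) - (lam : ℂ) ^ 2 * s2 * g) *
      F a V) - (lam : ℂ) ^ 2 * s2 * nu * Ex ν (P a) = Ex ν (T a) := fun a =>
    tw2_one hν (hF a) (hP a) a (lam : ℂ) g nu
  have hj : Ex ν (fun V : X → ℝ => (tw u (G V) * (tw u H - H) * (G V)ᴴ) x x) =
      nu + ∑ a, Ex ν (fun V : X → ℝ => (-(lam : ℂ) * (V a : ℂ) - (lam : ℂ) ^ 2 * s2 * g) *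
      F a V) := by
    have e1 : (fun V : X → ℝ => (tw u (G V) * (tw u H - H) * (G V)ᴴ) x x) = fun V : X → ℝ =>
        (N * (G V)ᴴ) x x + ∑ a, (-(lam : ℂ) * (V a : ℂ) - (lam : ℂ) ^ 2 * s2 * g) * F a V := by
      funext V
      rw [tw2_expand (ζ := z + (lam ^ 2 * s2 : ℝ) * g) hH (fun x => lam * V x) hz.ne' hζ.ne' hu,
        ← hN]
      congr 1
      refine Finset.sum_congr rfl fun a _ => ?_
      congr 1
      push_cast
      ring
    have cK : ∀ a, Continuous fun V : X → ℝ =>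
        (-(lam : ℂ) * (V a : ℂ) - (lam : ℂ) ^ 2 * s2 * g) * F a V := by
      intro a
      have c1 := (hF a).cont
      exact Continuous.mul (by fun_prop) c1
    have e2 : Ex ν (fun V : X → ℝ => ∑ a, (-(lam : ℂ) * (V a : ℂ) - (lam : ℂ) ^ 2 * s2 * g) *
        F a V) = ∑ a, Ex ν (fun V : X → ℝ => (-(lam : ℂ) * (V a : ℂ) - (lam : ℂ) ^ 2 * s2 * g) *
        F a V) := integral_finsetSum _ fun a _ => ic (cK a)
    rw [e1, ← e2, ← hnu x]
    exact tw2_add (ic (cBe x x)) (ic (continuous_finsetSum _ fun a _ => cK a))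
  have hs : Ex ν (fun V : X → ℝ => (tw u (G V) * (G V)ᴴ) x x) = ∑ a, Ex ν (P a) := by
    have e1 : (fun V : X → ℝ => (tw u (G V) * (G V)ᴴ) x x) = fun V : X → ℝ => ∑ a, P a V := by
      funext V
      rw [Matrix.mul_apply]
      rfl
    rw [e1]
    exact integral_finsetSum _ fun a _ => ic (hP a).cont
  have hmain : Ex ν (fun V : X → ℝ => (tw u (G V) * (tw u H - H) * (G V)ᴴ) x x) - nu -
      (lam ^ 2 * s2 : ℝ) * nu * Ex ν (fun V : X → ℝ => (tw u (G V) * (G V)ᴴ) x x) =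
      Ex ν (fun V : X → ℝ => ∑ a, T a V) := by
    have e1 : Ex ν (fun V : X → ℝ => ∑ a, T a V) = ∑ a, Ex ν (T a) :=
      integral_finsetSum _ fun a _ => iT a
    rw [e1, ← Finset.sum_congr rfl fun a _ => hone a, hj, hs, Finset.sum_sub_distrib,
      ← Finset.mul_sum]
    push_cast
    ring
  rw [hmain]
  set bd : (X → ℝ) → ℝ := fun V => C * lam ^ 2 * bN * (diagN (G V) g * rowN 2 (G V) ^ 2) +
      C * lam ^ 3 * ‖g‖ * bN * (supN (G V) * rowN 2 (G V) ^ 2) +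
      C * lam ^ 3 * ‖g‖ * (diagN (N * (G V)ᴴ) 0 * rowN 2 (G V) ^ 2) +
      2 * C * lam ^ 3 * ‖nu‖ * (supN (G V) * rowN 2 (G V) ^ 2) +
      C * lam ^ 2 * (diagN (N * (G V)ᴴ) nu * rowN 2 (G V) ^ 2) with hbd
  have hpt : ∀ V, ‖∑ a, T a V‖ ≤ bd V := by
    intro V
    have h1 : ∀ a, ‖T a V‖ ≤ C * lam ^ 2 * (diagN (G V) g * ‖F a V‖) +
        C * lam ^ 3 * ‖g‖ * (supN (G V) * ‖F a V‖) +
        C * lam ^ 3 * ‖g‖ * (diagN (N * (G V)ᴴ) 0 * ‖P a V‖) +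
        2 * C * lam ^ 3 * ‖nu‖ * (supN (G V) * ‖P a V‖) +
        C * lam ^ 2 * (diagN (N * (G V)ᴴ) nu * ‖P a V‖) := by
      intro a
      have h2 := tw2_site (C := C) hlam (g := g) (nu := nu) (hν.bdd (V a)) (hν.bdd' (V a))
        (norm_le_diagN (G V) g a) (norm_le_supN (G V) a a)
        (by simpa using norm_le_diagN (N * (G V)ᴴ) 0 a) (norm_le_diagN (N * (G V)ᴴ) nu a)
        (F := F a V) (P := P a V) rfl rfl
      have h3 : T a V = (τ (V a) : ℂ) * (-(lam : ℂ) * (-(lam : ℂ) * (G V a a * F a V + P a V *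
          (N * (G V)ᴴ) a a)) - (lam : ℂ) ^ 2 * g * F a V - (lam : ℂ) ^ 2 * nu * P a V) +
          (τ' (V a) : ℂ) * ((lam : ℂ) ^ 2 * g * (-(lam : ℂ) * (G V a a * F a V + P a V *
          (N * (G V)ᴴ) a a)) + (lam : ℂ) ^ 2 * nu * (-(lam : ℂ) * ((G V a a +
          starRingEnd ℂ (G V a a)) * P a V))) := by
        rw [hTdef]
        simp only [hF' a V, hP' a V]
        rfl
      rw [h3]
      exact h2
    have h4 : ∑ a, ‖F a V‖ ≤ bN * rowN 2 (G V) ^ 2 := tw2_sumF hu (G V) N hbN0 hbN x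
    have h5 : ∑ a, ‖P a V‖ ≤ rowN 2 (G V) ^ 2 := tw2_sumP hu (G V) x
    have hC : 0 ≤ C := hν.C_pos.le
    have n1 := diagN_nonneg (G V) g
    have n2 := supN_nonneg (G V)
    have n3 := diagN_nonneg (N * (G V)ᴴ) 0
    have n4 := diagN_nonneg (N * (G V)ᴴ) nu
    calc ‖∑ a, T a V‖ ≤ ∑ a, ‖T a V‖ := norm_sum_le _ _
      _ ≤ ∑ a, (C * lam ^ 2 * (diagN (G V) g * ‖F a V‖) +
        C * lam ^ 3 * ‖g‖ * (supN (G V) * ‖F a V‖) +
        C * lam ^ 3 * ‖g‖ * (diagN (N * (G V)ᴴ) 0 * ‖P a V‖) +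
        2 * C * lam ^ 3 * ‖nu‖ * (supN (G V) * ‖P a V‖) +
        C * lam ^ 2 * (diagN (N * (G V)ᴴ) nu * ‖P a V‖)) := Finset.sum_le_sum fun a _ => h1 a
      _ = C * lam ^ 2 * (diagN (G V) g * ∑ a, ‖F a V‖) +
        C * lam ^ 3 * ‖g‖ * (supN (G V) * ∑ a, ‖F a V‖) +
        C * lam ^ 3 * ‖g‖ * (diagN (N * (G V)ᴴ) 0 * ∑ a, ‖P a V‖) +
        2 * C * lam ^ 3 * ‖nu‖ * (supN (G V) * ∑ a, ‖P a V‖) +
        C * lam ^ 2 * (diagN (N * (G V)ᴴ) nu * ∑ a, ‖P a V‖) := by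
          simp only [Finset.sum_add_distrib, Finset.mul_sum]
      _ ≤ C * lam ^ 2 * (diagN (G V) g * (bN * rowN 2 (G V) ^ 2)) +
        C * lam ^ 3 * ‖g‖ * (supN (G V) * (bN * rowN 2 (G V) ^ 2)) +
        C * lam ^ 3 * ‖g‖ * (diagN (N * (G V)ᴴ) 0 * (rowN 2 (G V) ^ 2)) +
        2 * C * lam ^ 3 * ‖nu‖ * (supN (G V) * (rowN 2 (G V) ^ 2)) +
        C * lam ^ 2 * (diagN (N * (G V)ᴴ) nu * (rowN 2 (G V) ^ 2)) := by gcongr
      _ = bd V := by rw [hbd]; ring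
  have cbd : Continuous bd := by rw [hbd]; fun_prop
  have hfin : ‖Ex ν (fun V : X → ℝ => ∑ a, T a V)‖ ≤ Ex ν bd :=
    norm_integral_le_of_norm_le (ir cbd) (Filter.Eventually.of_forall hpt)
  refine hfin.trans (le_of_eq ?_)
  have c1 : Continuous fun V => diagN (G V) g * rowN 2 (G V) ^ 2 := by fun_prop
  have c2 : Continuous fun V => supN (G V) * rowN 2 (G V) ^ 2 := by fun_prop
  have c3 : Continuous fun V => diagN (N * (G V)ᴴ) 0 * rowN 2 (G V) ^ 2 := by fun_prop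
  have c5 : Continuous fun V => diagN (N * (G V)ᴴ) nu * rowN 2 (G V) ^ 2 := by fun_prop
  rw [← tw2_rmul, ← tw2_rmul, ← tw2_rmul, ← tw2_rmul, ← tw2_rmul,
    ← tw2_add (ir (by fun_prop)) (ir (by fun_prop)), ← tw2_add (ir (by fun_prop)) (ir (by fun_prop)),
    ← tw2_add (ir (by fun_prop)) (ir (by fun_prop)), ← tw2_add (ir (by fun_prop)) (ir (by fun_prop))]

end Pool.Agent.BK
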