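import Pool.Agent.BK.BDefs
import Pool.Agent.BK.NuC
import Pool.Agent.BK.Tw2
import Pool.Agent.BK.Dft

/-! BK: definitions for the current estimate and the orthant masses. -/

open MeasureTheory Finset Matrix

noncomputable section

namespace Pool.Agent.BK

/-- The phase `x ↦ exp(i 2π m x_j/(2n+1))`. -/
def up {d n : ℕ} (j : Fin d) (m : ℕ) (x : Tor d n) : ℂ := ch (Pi.single j (m : ZMod (2 * n + 1))) x

/-- The momentum `k = 2π m/(2n+1)`. -/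
def kof (n m : ℕ) : ℝ := 2 * Real.pi * m / (2 * n + 1)

/-- `N = tw u M (tw u H0 - H0)`, `M = (H0 - ζ)⁻¹`. -/
def NN (d n : ℕ) (ζ : ℂ) (j : Fin d) (m : ℕ) : Matrix (Tor d n) (Tor d n) ℂ :=
  tw (up j m) (Gr (H0 d n) 0 ζ) * (tw (up j m) (H0 d n) - H0 d n)

/-- `E (N Gᴴ)_00`. -/
def nuu (ν : Measure ℝ) (s2 : ℝ) (d : ℕ) (π : Par) (j : Fin d) (m : ℕ) : ℂ :=
  Ex ν fun V : Tor d π.n → ℝ => (NN d π.n (zt ν s2 d π) j m * (GG d π.n π.lam π.z V)ᴴ) 0 0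

/-- The chosen momentum number: `k ∈ [lam^(1+A/2-δ1), 2 lam^(1+A/2-δ1)]`. -/
def mk (A δ1 : ℝ) (π : Par) : ℕ := ⌈π.lam ^ (1 + A / 2 - δ1) * (2 * π.n + 1) / (2 * Real.pi)⌉₊

/-- The chosen momentum. -/
def kk (A δ1 : ℝ) (π : Par) : ℝ := kof π.n (mk A δ1 π)

/-- The length scale `⌊π/(3k)⌋`. -/
def sk (A δ1 : ℝ) (π : Par) : ℕ := ⌊Real.pi / (3 * kk A δ1 π)⌋₊

/-- The part `σ_l y_l ≥ 0`, `σ_j y_j ≥ s` of the torus. -/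
def orthT {d n : ℕ} (σ : Fin d → ℤˣ) (j : Fin d) (s : ℕ) : Finset (Tor d n) :=
  Finset.univ.filter fun y => (∀ l, 0 ≤ (σ l : ℤ) * (y l).valMinAbs) ∧
    (s : ℤ) ≤ (σ j : ℤ) * (y j).valMinAbs

/-- Mass of `|G_0y|²` in `orthT`. -/
def msT {d : ℕ} (π : Par) (σ : Fin d → ℤˣ) (j : Fin d) (s : ℕ) (V : Tor d π.n → ℝ) : ℝ :=
  ∑ y ∈ orthT σ j s, ‖GG d π.n π.lam π.z V 0 y‖ ^ 2

end Pool.Agent.BK
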