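import Pool.Agent.BK.Defs

/-! BK module CNT4: counting lower bound in the whole band.
For `E ∈ [b, 4d-b]`, `0 < γ ≤ κ`, `γ^{-10} ≤ 2n+1`, `d ≥ 1`: at least `κ γ (2n+1)^d` momenta `q` have
`|omg q - E| ≤ γ` and `|sin (ang q_j)| ≥ κ`.
Proof: `E/d ∈ [b/d, 4 - b/d]`. Take `q_l` (`l ≠ j`) with `|2 - 2cos(ang q_l) - E/d| ≤ b/(4d²)`: at least
`c (2n+1)` residues for each `l` (an interval of angles around `arccos(1 - E/(2d))`). Then
`e = E - ∑_{l≠j} ω_l` is within `b/(4d)` of `E/d`, so in `[b/(2d), 4 - b/(2d)]`; let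
`θ_e = arccos(1 - e/2)`, bounded away from `0` and `π`; all residues with
`|ang q_j - θ_e| ≤ min(γ, κ')/2` have `|2cos - 2cos θ_e| ≤ γ` and `sin ≥ κ`, there are at least
`c γ (2n+1)` of them. (Compare `Cnt.lean`, whose statement is the special case of a shorter
window; you may copy from it.) -/

open Finset

noncomputable section

namespace Pool.Agent.BK

lemma cnt4_int (n : ℕ) {α β : ℝ} (hα : 0 ≤ α) (hβ0 : 0 ≤ β) (hβ : β < Real.pi) :
    (2 * n + 1) * (β - α) / (2 * Real.pi) - 1 ≤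
      ((Finset.univ.filter fun m : ZMod (2 * n + 1) => α ≤ ang n m ∧ ang n m ≤ β).card : ℝ) := by
  have hπ := Real.pi_pos
  have hN : (0 : ℝ) < 2 * n + 1 := by positivity
  set a := ⌈(2 * (n : ℝ) + 1) * α / (2 * Real.pi)⌉₊ with ha
  set c := ⌊(2 * (n : ℝ) + 1) * β / (2 * Real.pi)⌋₊ with hc
  have hkn : ∀ k ∈ Finset.Icc a c, k ≤ n := by
    intro k hk
    have h1 : (k : ℝ) ≤ (2 * (n : ℝ) + 1) * β / (2 * Real.pi) :=
      (Nat.cast_le.2 (Finset.mem_Icc.1 hk).2).trans (Nat.floor_le (by positivity))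
    have h2 : 2 * (k : ℝ) < 2 * n + 1 := by
      rw [le_div_iff₀ (by positivity)] at h1
      have h3 : (2 * (n : ℝ) + 1) * β < (2 * n + 1) * Real.pi := mul_lt_mul_of_pos_left hβ hN
      have h4 : Real.pi * (2 * (k : ℝ)) < Real.pi * (2 * n + 1) := by linarith
      exact lt_of_mul_lt_mul_left h4 hπ.le
    have h4 : 2 * k < 2 * n + 1 := by exact_mod_cast h2
    omega
  have hang : ∀ k ∈ Finset.Icc a c, ang n ((k : ℕ) : ZMod (2 * n + 1)) =
      2 * Real.pi * k / (2 * n + 1) := by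
    intro k hk
    unfold ang
    rw [ZMod.valMinAbs_natCast_of_le_half (by have := hkn k hk; omega)]
    simp
  have hsub : (Finset.Icc a c).image (fun k : ℕ => ((k : ℕ) : ZMod (2 * n + 1))) ⊆
      Finset.univ.filter fun m : ZMod (2 * n + 1) => α ≤ ang n m ∧ ang n m ≤ β := by
    intro m hm
    obtain ⟨k, hk, rfl⟩ := Finset.mem_image.1 hm
    rw [Finset.mem_filter, hang k hk]
    refine ⟨Finset.mem_univ _, ?_, ?_⟩
    · have h1 : (2 * (n : ℝ) + 1) * α / (2 * Real.pi) ≤ k :=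
        (Nat.le_ceil _).trans (Nat.cast_le.2 (Finset.mem_Icc.1 hk).1)
      rw [div_le_iff₀ (by positivity)] at h1
      rw [le_div_iff₀ hN]
      linarith
    · have h1 : (k : ℝ) ≤ (2 * (n : ℝ) + 1) * β / (2 * Real.pi) :=
        (Nat.cast_le.2 (Finset.mem_Icc.1 hk).2).trans (Nat.floor_le (by positivity))
      rw [le_div_iff₀ (by positivity)] at h1
      rw [div_le_iff₀ hN]
      linarith
  have hcard := Finset.card_le_card hsub
  rw [Finset.card_image_of_injOn, Nat.card_Icc] at hcard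
  · have h1 : c + 1 ≤ (c + 1 - a) + a := by omega
    have h2 : (c : ℝ) + 1 ≤ ((c + 1 - a : ℕ) : ℝ) + a := by exact_mod_cast h1
    have h3 : ((c + 1 - a : ℕ) : ℝ) ≤ ((Finset.univ.filter fun m : ZMod (2 * n + 1) =>
        α ≤ ang n m ∧ ang n m ≤ β).card : ℝ) := by exact_mod_cast hcard
    have h4 : (2 * (n : ℝ) + 1) * β / (2 * Real.pi) < c + 1 := Nat.lt_floor_add_one _
    have h5 : (a : ℝ) < (2 * (n : ℝ) + 1) * α / (2 * Real.pi) + 1 :=
      Nat.ceil_lt_add_one (by positivity)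
    have h6 : (2 * (n : ℝ) + 1) * (β - α) / (2 * Real.pi) =
      (2 * (n : ℝ) + 1) * β / (2 * Real.pi) - (2 * (n : ℝ) + 1) * α / (2 * Real.pi) := by ring
    rw [h6]
    linarith
  · intro k hk k' hk' h
    have e1 := hang k hk
    have e2 := hang k' hk'
    simp only at h
    rw [h, e2] at e1
    rw [div_left_inj' hN.ne'] at e1
    have : (k : ℝ) = k' := by
      have := mul_left_cancel₀ (by positivity : (2 * Real.pi) ≠ 0) e1
      exact this.symm
    exact_mod_cast this

lemma cnt4_one (n : ℕ) {s e γ : ℝ} (hs : 0 < s) (hs1 : s ≤ 1 / 2) (he : 2 * s ≤ e)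
    (he2 : e ≤ 4 - 2 * s) (hγ : 0 < γ) (hγs : γ ≤ s) (hN : 4 * Real.pi ≤ (2 * n + 1) * γ) :
    γ / (4 * Real.pi) * (2 * n + 1) ≤
      ((Finset.univ.filter fun m : ZMod (2 * n + 1) =>
        |2 - 2 * Real.cos (ang n m) - e| ≤ γ ∧ s / 2 ≤ |Real.sin (ang n m)|).card : ℝ) := by
  have hπ := Real.pi_pos
  set θ := Real.arccos (1 - e / 2) with hθ
  have hcos : Real.cos θ = 1 - e / 2 := Real.cos_arccos (by linarith) (by linarith)
  have hθ0 : 0 ≤ θ := Real.arccos_nonneg _
  have hθ2 : θ ≤ Real.pi := Real.arccos_le_pi _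
  have hsin0 : 0 ≤ Real.sin θ := Real.sin_nonneg_of_nonneg_of_le_pi hθ0 hθ2
  have hsin : s ≤ Real.sin θ := by
    have h1 := Real.sin_sq_add_cos_sq θ
    rw [hcos] at h1
    have h2 : s * (2 - s) ≤ e / 2 * (2 - e / 2) := by
      nlinarith [mul_nonneg (by linarith : 0 ≤ e / 2 - s) (by linarith : 0 ≤ 2 - e / 2 - s)]
    have h3 : s ^ 2 ≤ Real.sin θ ^ 2 := by nlinarith
    exact (pow_le_pow_iff_left₀ hs.le hsin0 (by norm_num)).1 h3
  have hθs : Real.sin θ ≤ θ := Real.sin_le hθ0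
  have hθp : Real.sin θ ≤ Real.pi - θ := by
    rw [← Real.sin_pi_sub]
    exact Real.sin_le (by linarith)
  have h2 := cnt4_int n (α := θ - γ / 2) (β := θ + γ / 2) (by linarith) (by linarith)
    (by linarith)
  have hsub : (Finset.univ.filter fun m : ZMod (2 * n + 1) =>
      θ - γ / 2 ≤ ang n m ∧ ang n m ≤ θ + γ / 2) ⊆
      (Finset.univ.filter fun m : ZMod (2 * n + 1) =>
        |2 - 2 * Real.cos (ang n m) - e| ≤ γ ∧ s / 2 ≤ |Real.sin (ang n m)|) := by
    intro m hm
    rw [Finset.mem_filter] at hm ⊢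
    have hd : |ang n m - θ| ≤ γ / 2 := by
      rw [abs_le]; constructor <;> linarith [hm.2.1, hm.2.2]
    refine ⟨hm.1, ?_, ?_⟩
    · have e1 : 2 - 2 * Real.cos (ang n m) - e = -2 * (Real.cos (ang n m) - Real.cos θ) := by
        rw [hcos]; ring
      rw [e1, abs_mul]
      have h3 := Real.abs_cos_sub_cos_le (ang n m) θ
      have : |(-2 : ℝ)| = 2 := by norm_num
      rw [this]
      linarith
    · have h3 := Real.abs_sin_sub_sin_le (ang n m) θ
      have h4 := (abs_le.1 (h3.trans hd)).1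
      refine le_trans ?_ (le_abs_self _)
      linarith
  have h3 : ((Finset.univ.filter fun m : ZMod (2 * n + 1) =>
      θ - γ / 2 ≤ ang n m ∧ ang n m ≤ θ + γ / 2).card : ℝ)
      ≤ ((Finset.univ.filter fun m : ZMod (2 * n + 1) =>
        |2 - 2 * Real.cos (ang n m) - e| ≤ γ ∧ s / 2 ≤ |Real.sin (ang n m)|).card : ℝ) := by
    exact_mod_cast Finset.card_le_card hsub
  refine le_trans ?_ (h2.trans h3)
  have h5 : 1 ≤ (2 * n + 1) * γ / (4 * Real.pi) := by
    rw [le_div_iff₀ (by positivity)]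
    linarith
  have h6 : (2 * n + 1) * (θ + γ / 2 - (θ - γ / 2)) / (2 * Real.pi) =
      2 * ((2 * n + 1) * γ / (4 * Real.pi)) := by
    field_simp
    ring
  have h7 : γ / (4 * Real.pi) * (2 * n + 1) = (2 * n + 1) * γ / (4 * Real.pi) := by ring
  rw [h6, h7]
  linarith

theorem count_low4 {b : ℝ} (hb : 0 < b) (hb1 : b ≤ 1) {d : ℕ} (hd : 1 ≤ d) :
    ∃ κ : ℝ, 0 < κ ∧ κ ≤ 1 ∧ ∀ (n : ℕ) (E γ : ℝ) (j : Fin d), b ≤ E → E ≤ 4 * d - b → 0 < γ → γ ≤ κ →
      γ ^ (-(10 : ℝ)) ≤ 2 * n + 1 →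
      κ * γ * (2 * n + 1) ^ d ≤ ((Finset.univ.filter fun q : Tor d n =>
        |omg q - E| ≤ γ ∧ κ ≤ |Real.sin (ang n (q j))|).card : ℝ) := by
  have hπ := Real.pi_pos
  have hπ3 := Real.pi_gt_three
  have hπ4 := Real.pi_lt_d2
  have hd0 : (0 : ℝ) < d := by exact_mod_cast hd
  have hd1 : (1 : ℝ) ≤ d := by exact_mod_cast hd
  set δ0 : ℝ := b / (4 * d ^ 2) with hδ0
  have hδpos : 0 < δ0 := by positivity
  have hδ1 : δ0 ≤ 1 / 4 := by
    rw [hδ0, div_le_iff₀ (by positivity)]
    nlinarith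
  have hbd1 : b / d ≤ 1 := by
    rw [div_le_one hd0]
    linarith
  have hbd0 : 0 < b / d := by positivity
  have hδb : δ0 ≤ b / d / 4 := by
    rw [hδ0, div_div, div_le_div_iff_of_pos_left hb (by positivity) (by positivity)]
    nlinarith
  have hδd : d * δ0 = b / d / 4 := by
    rw [hδ0]
    field_simp
  set κ0 : ℝ := (δ0 / (4 * Real.pi)) ^ (d - 1) / (4 * Real.pi) with hκ0
  have hκ0pos : 0 < κ0 := by positivity
  refine ⟨min (δ0 / 16) κ0, lt_min (by positivity) hκ0pos, (min_le_left _ _).trans (by linarith), ?_⟩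
  intro n E γ j hE hE2 hγ hγκ hγN
  set κ := min (δ0 / 16) κ0 with hκ
  have hκ1 : κ ≤ δ0 / 16 := min_le_left _ _
  have hκ2 : κ ≤ κ0 := min_le_right _ _
  have hN : (0 : ℝ) < 2 * n + 1 := by positivity
  have hγ1 : γ ≤ 1 := by linarith
  have hγ2 : γ ≤ δ0 / 16 := hγκ.trans hκ1
  have hγ3 : γ ≤ 1 / 64 := by linarith
  -- `N γ ≥ 64`, `N δ₀ ≥ 16`
  have hNγ : 64 ≤ (2 * n + 1) * γ := by
    have h1 : γ ^ (-(2 : ℝ)) ≤ γ ^ (-(10 : ℝ)) :=
      Real.rpow_le_rpow_of_exponent_ge hγ hγ1 (by norm_num)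
    have h2 : γ ^ (-(2 : ℝ)) = (γ ^ 2)⁻¹ := by
      rw [Real.rpow_neg hγ.le]; norm_num
    have h3 : (γ ^ 2)⁻¹ ≤ 2 * n + 1 := h2 ▸ h1.trans hγN
    have h4 : (γ ^ 2)⁻¹ * γ ≤ (2 * n + 1) * γ := mul_le_mul_of_nonneg_right h3 hγ.le
    have h5 : (γ ^ 2)⁻¹ * γ = γ⁻¹ := by field_simp
    rw [h5] at h4
    refine le_trans ?_ h4
    rw [le_inv_comm₀ (by norm_num) hγ]
    linarith
  have hNγ' : 4 * Real.pi ≤ (2 * n + 1) * γ := by linarith
  have hNδ : 4 * Real.pi ≤ (2 * n + 1) * δ0 := by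
    have : (2 * (n : ℝ) + 1) * γ ≤ (2 * n + 1) * δ0 :=
      mul_le_mul_of_nonneg_left (by linarith) hN.le
    linarith
  classical
  have hE1 : b / d ≤ E / d := div_le_div_of_nonneg_right hE hd0.le
  have hE3 : E / d ≤ 4 - b / d := by
    have : 4 - b / d = (4 * d - b) / d := by
      field_simp
    rw [this]
    exact div_le_div_of_nonneg_right hE2 hd0.le
  set S : Finset (ZMod (2 * n + 1)) := Finset.univ.filter fun m : ZMod (2 * n + 1) =>
        |2 - 2 * Real.cos (ang n m) - E / d| ≤ δ0 with hS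
  have hScard : δ0 / (4 * Real.pi) * (2 * n + 1) ≤ (S.card : ℝ) := by
    refine (cnt4_one n (s := b / d / 2) (e := E / d) (γ := δ0) (by positivity) (by linarith)
      (by linarith) (by linarith) hδpos (by linarith) hNδ).trans ?_
    refine Nat.cast_le.2 (Finset.card_le_card fun m hm => ?_)
    rw [hS]
    exact Finset.mem_filter.2 ⟨Finset.mem_univ _, (Finset.mem_filter.1 hm).2.1⟩
  set A : Finset (Tor d n) := Fintype.piFinset fun l => if l = j then {0} else S with hA
  have hAcard : ((δ0 / (4 * Real.pi)) * (2 * n + 1)) ^ (d - 1) ≤ (A.card : ℝ) := by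
    rw [hA, Fintype.card_piFinset, ← Finset.mul_prod_erase _ _ (Finset.mem_univ j)]
    have h1 : ∀ l ∈ Finset.univ.erase j,
        (if l = j then ({0} : Finset (ZMod (2 * n + 1))) else S).card = S.card := by
      intro l hl
      rw [if_neg (Finset.ne_of_mem_erase hl)]
    rw [Finset.prod_congr rfl h1, Finset.prod_const, Finset.card_erase_of_mem (Finset.mem_univ _),
      Finset.card_univ, Fintype.card_fin]
    simp only [if_true, Finset.card_singleton, one_mul, Nat.cast_pow]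
    exact pow_le_pow_left₀ (by positivity) hScard _
  set B : Tor d n → Finset (ZMod (2 * n + 1)) := fun q =>
    Finset.univ.filter fun m : ZMod (2 * n + 1) =>
      |2 - 2 * Real.cos (ang n m) - (E - ∑ l ∈ Finset.univ.erase j,
        (2 - 2 * Real.cos (ang n (q l))))| ≤ γ ∧ κ ≤ |Real.sin (ang n m)| with hB
  have hBcard : ∀ q ∈ A, γ / (4 * Real.pi) * (2 * n + 1) ≤ ((B q).card : ℝ) := by
    intro q hq
    have hs1 : |∑ l ∈ Finset.univ.erase j, (2 - 2 * Real.cos (ang n (q l)) - E / d)| ≤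
        b / d / 4 := by
      have h1 : ∀ l ∈ Finset.univ.erase j, |2 - 2 * Real.cos (ang n (q l)) - E / d| ≤ δ0 := by
        intro l hl
        have h2 := (Fintype.mem_piFinset.1 hq) l
        rw [if_neg (Finset.ne_of_mem_erase hl), hS, Finset.mem_filter] at h2
        exact h2.2
      refine (Finset.abs_sum_le_sum_abs _ _).trans ((Finset.sum_le_sum h1).trans ?_)
      rw [Finset.sum_const, Finset.card_erase_of_mem (Finset.mem_univ _), Finset.card_univ,
        Fintype.card_fin, nsmul_eq_mul]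
      have h3 : ((d - 1 : ℕ) : ℝ) ≤ d := by exact_mod_cast Nat.sub_le d 1
      calc ((d - 1 : ℕ) : ℝ) * δ0 ≤ d * δ0 := mul_le_mul_of_nonneg_right h3 hδpos.le
        _ = b / d / 4 := hδd
    have hs2 : E - ∑ l ∈ Finset.univ.erase j, (2 - 2 * Real.cos (ang n (q l))) =
        E / d - ∑ l ∈ Finset.univ.erase j, (2 - 2 * Real.cos (ang n (q l)) - E / d) := by
      have gen : ∀ f : Fin d → ℝ, ∑ l ∈ Finset.univ.erase j, (f l - E / d) =
          ∑ l ∈ Finset.univ.erase j, f l - ((d : ℝ) - 1) * (E / d) := by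
        intro f
        rw [Finset.sum_sub_distrib, Finset.sum_const,
          Finset.card_erase_of_mem (Finset.mem_univ _),
          Finset.card_univ, Fintype.card_fin, nsmul_eq_mul, Nat.cast_sub hd, Nat.cast_one]
      have e0 : (d : ℝ) * (E / d) = E := by field_simp
      rw [gen fun l => 2 - 2 * Real.cos (ang n (q l))]
      linear_combination -e0
    have hs3 := abs_le.1 hs1
    refine (cnt4_one n (s := b / d / 4) (γ := γ)
      (e := E - ∑ l ∈ Finset.univ.erase j, (2 - 2 * Real.cos (ang n (q l)))) (by positivity)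
      (by linarith) (by rw [hs2]; linarith) (by rw [hs2]; linarith) hγ (by linarith) hNγ').trans ?_
    refine Nat.cast_le.2 (Finset.card_le_card fun m hm => ?_)
    have hm' := Finset.mem_filter.1 hm
    refine Finset.mem_filter.2 ⟨Finset.mem_univ _, hm'.2.1, le_trans ?_ hm'.2.2⟩
    linarith
  have hcard : (A.sigma B).card ≤ (Finset.univ.filter fun q : Tor d n =>
        |omg q - E| ≤ γ ∧ κ ≤ |Real.sin (ang n (q j))|).card := by
    refine Finset.card_le_card_of_injOn (fun p => Function.update p.1 j p.2) ?_ ?_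
    · intro p hp
      have hp' := Finset.mem_sigma.1 (Finset.mem_coe.1 hp)
      have h2 := hp'.2
      rw [hB, Finset.mem_filter] at h2
      rw [Finset.mem_coe, Finset.mem_filter]
      refine ⟨Finset.mem_univ _, ?_, ?_⟩
      · have e1 : omg (Function.update p.1 j p.2) = 2 - 2 * Real.cos (ang n p.2) +
            ∑ l ∈ Finset.univ.erase j, (2 - 2 * Real.cos (ang n (p.1 l))) := by
          unfold omg
          rw [← Finset.add_sum_erase _ _ (Finset.mem_univ j), Function.update_self]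
          congr 1
          refine Finset.sum_congr rfl fun l hl => ?_
          rw [Function.update_of_ne (Finset.ne_of_mem_erase hl)]
        rw [e1]
        have e2 : 2 - 2 * Real.cos (ang n p.2) +
            ∑ l ∈ Finset.univ.erase j, (2 - 2 * Real.cos (ang n (p.1 l))) - E =
            2 - 2 * Real.cos (ang n p.2) - (E - ∑ l ∈ Finset.univ.erase j,
              (2 - 2 * Real.cos (ang n (p.1 l)))) := by ring
        rw [e2]
        exact h2.2.1
      · simp only [Function.update_self]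
        exact h2.2.2
    · intro p hp p' hp' h
      have hp1 := (Finset.mem_sigma.1 (Finset.mem_coe.1 hp)).1
      have hp1' := (Finset.mem_sigma.1 (Finset.mem_coe.1 hp')).1
      have e2 : p.2 = p'.2 := by
        have := congrFun h j
        simpa using this
      have e1 : p.1 = p'.1 := by
        funext l
        by_cases hl : l = j
        · subst hl
          have h3 := (Fintype.mem_piFinset.1 hp1) l
          have h4 := (Fintype.mem_piFinset.1 hp1') l
          simp only [if_true, Finset.mem_singleton] at h3 h4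
          rw [h3, h4]
        · have := congrFun h l
          simpa [Function.update_of_ne hl] using this
      obtain ⟨p1, p2⟩ := p
      obtain ⟨p1', p2'⟩ := p'
      simp only at e1 e2
      subst e1
      subst e2
      rfl
  have hcard' : ((A.sigma B).card : ℝ) ≤ ((Finset.univ.filter fun q : Tor d n =>
        |omg q - E| ≤ γ ∧ κ ≤ |Real.sin (ang n (q j))|).card : ℝ) := by exact_mod_cast hcard
  refine le_trans ?_ hcard'
  rw [Finset.card_sigma]
  push_cast
  have h5 : (A.card : ℝ) * (γ / (4 * Real.pi) * (2 * n + 1)) ≤ ∑ q ∈ A, ((B q).card : ℝ) := by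
    rw [← nsmul_eq_mul]
    exact Finset.card_nsmul_le_sum A _ _ hBcard
  refine le_trans ?_ h5
  have h6 : ((δ0 / (4 * Real.pi)) * (2 * n + 1)) ^ (d - 1) * (γ / (4 * Real.pi) * (2 * n + 1)) ≤
      (A.card : ℝ) * (γ / (4 * Real.pi) * (2 * n + 1)) :=
    mul_le_mul_of_nonneg_right hAcard (by positivity)
  refine le_trans ?_ h6
  have h7 : ((δ0 / (4 * Real.pi)) * (2 * n + 1)) ^ (d - 1) * (γ / (4 * Real.pi) * (2 * n + 1)) =
      κ0 * γ * (2 * n + 1) ^ d := by
    obtain ⟨d', rfl⟩ : ∃ d', d = d' + 1 := ⟨d - 1, by omega⟩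
    rw [hκ0, Nat.add_sub_cancel, mul_pow, pow_succ]
    ring
  rw [h7]
  have h8 : κ * γ ≤ κ0 * γ := mul_le_mul_of_nonneg_right hκ2 hγ.le
  exact mul_le_mul_of_nonneg_right h8 (by positivity)

end Pool.Agent.BK
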