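import Pool.Agent.BK.Cur1a
import Pool.Agent.BK.TorB
/-! BK module CUR1B: `(N Mᴴ)_00 = -2i Im ζ ∑_y |M_0y|² (1 - cos(k ŷ_j))`: `cur_id` for `v = 0`,
`tw_diag_sum`, `ward`, and `M_{0,-y} = M_{0,y}` (the imaginary part `∑ sin(kŷ_j)|M_0y|²` vanishes).
Translation invariance: `E (N Gᴴ)_xx = nuu`. -/

open MeasureTheory Finset Matrix

noncomputable section

namespace Pool.Agent.BK

variable {d n : ℕ}

lemma Gr0_neg {ζ : ℂ} (hζ : 0 < ζ.im) (y : Tor d n) :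
    Gr (H0 d n) 0 ζ 0 (-y) = Gr (H0 d n) 0 ζ 0 y := by
  have h1 := Gr0_add ζ y 0 (-y)
  rw [zero_add, neg_add_cancel] at h1
  rw [← h1]
  exact Gr_symm (RS_H0 d n) 0 hζ.ne' y 0

lemma cos_neg_coord (j : Fin d) (k : ℝ) (y : Tor d n) :
    Real.cos (k * (((-y) j).valMinAbs : ℝ)) = Real.cos (k * ((y j).valMinAbs : ℝ)) := by
  rw [Pi.neg_apply, ZMod.valMinAbs_neg_of_ne_half (by omega)]
  push_cast
  rw [mul_neg, Real.cos_neg]

lemma sin_neg_coord (j : Fin d) (k : ℝ) (y : Tor d n) :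
    Real.sin (k * (((-y) j).valMinAbs : ℝ)) = -Real.sin (k * ((y j).valMinAbs : ℝ)) := by
  rw [Pi.neg_apply, ZMod.valMinAbs_neg_of_ne_half (by omega)]
  push_cast
  rw [mul_neg, Real.sin_neg]

lemma up_cos_sin (j : Fin d) (m : ℕ) (y : Tor d n) :
    up j m y = (Real.cos (kof n m * ((y j).valMinAbs : ℝ)) : ℝ) +
      (Real.sin (kof n m * ((y j).valMinAbs : ℝ)) : ℝ) * Complex.I := by
  rw [up_eq, mul_comm, Complex.exp_mul_I, ← Complex.ofReal_cos, ← Complex.ofReal_sin]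

/-- The phase averages to its real part. -/
lemma sum_up {ζ : ℂ} (hζ : 0 < ζ.im) (j : Fin d) (m : ℕ) :
    ∑ y, up j m y * (‖Gr (H0 d n) 0 ζ 0 y‖ ^ 2 : ℝ) =
      (∑ y, Real.cos (kof n m * ((y j).valMinAbs : ℝ)) * ‖Gr (H0 d n) 0 ζ 0 y‖ ^ 2 : ℝ) := by
  have hs : ∑ y : Tor d n, Real.sin (kof n m * ((y j).valMinAbs : ℝ)) *
      ‖Gr (H0 d n) 0 ζ 0 y‖ ^ 2 = 0 := by
    set f : Tor d n → ℝ := fun y => Real.sin (kof n m * ((y j).valMinAbs : ℝ)) *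
        ‖Gr (H0 d n) 0 ζ 0 y‖ ^ 2 with hf
    have h1 : ∑ y, f (-y) = ∑ y, f y := Equiv.sum_comp (Equiv.neg (Tor d n)) f
    have h2 : ∀ y, f (-y) = -f y := fun y => by
      simp only [hf]
      rw [sin_neg_coord, Gr0_neg hζ, neg_mul]
    simp only [h2, Finset.sum_neg_distrib] at h1
    linarith
  have h2 : ∀ y : Tor d n, up j m y * (‖Gr (H0 d n) 0 ζ 0 y‖ ^ 2 : ℝ) =
      ((Real.cos (kof n m * ((y j).valMinAbs : ℝ)) * ‖Gr (H0 d n) 0 ζ 0 y‖ ^ 2 : ℝ) : ℂ) +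
      ((Real.sin (kof n m * ((y j).valMinAbs : ℝ)) * ‖Gr (H0 d n) 0 ζ 0 y‖ ^ 2 : ℝ) : ℂ) *
        Complex.I := by
    intro y
    rw [up_cos_sin]
    push_cast
    ring
  rw [Finset.sum_congr rfl fun y _ => h2 y, Finset.sum_add_distrib, ← Finset.sum_mul,
    ← Complex.ofReal_sum, ← Complex.ofReal_sum, hs]
  simp

lemma NN_M {ζ : ℂ} (hζ : 0 < ζ.im) (j : Fin d) (m : ℕ) :
    (NN d n ζ j m * (Gr (H0 d n) 0 ζ)ᴴ) 0 0 = -2 * Complex.I * ζ.im *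
      (∑ y, ‖Gr (H0 d n) 0 ζ 0 y‖ ^ 2 * (1 - Real.cos (kof n m * ((y j).valMinAbs : ℝ))) : ℝ) := by
  have h1 := cur_id (RS_H0 d n) 0 hζ (norm_up j m) 0
  have h2 : (tw (up j m) (Gr (H0 d n) 0 ζ) * (Gr (H0 d n) 0 ζ)ᴴ) 0 0 =
      (∑ y, Real.cos (kof n m * ((y j).valMinAbs : ℝ)) * ‖Gr (H0 d n) 0 ζ 0 y‖ ^ 2 : ℝ) := by
    rw [tw_diag_sum, ← sum_up hζ]
    refine Finset.sum_congr rfl fun y _ => ?_
    rw [up_zero, map_one, one_mul]
  have h3 := ward (RS_H0 d n) 0 hζ (0 : Tor d n)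
  have h4 : (Gr (H0 d n) 0 ζ 0 0).im = ζ.im * ∑ y, ‖Gr (H0 d n) 0 ζ 0 y‖ ^ 2 := by
    rw [h3]
    field_simp
  rw [h2, h4] at h1
  have h5 : (NN d n ζ j m * (Gr (H0 d n) 0 ζ)ᴴ) 0 0 =
      2 * Complex.I * ζ.im * (∑ y, Real.cos (kof n m * ((y j).valMinAbs : ℝ)) *
        ‖Gr (H0 d n) 0 ζ 0 y‖ ^ 2 : ℝ) -
      2 * Complex.I * (ζ.im * ∑ y, ‖Gr (H0 d n) 0 ζ 0 y‖ ^ 2 : ℝ) := by
    rw [← h1]
    unfold NN
    ring
  rw [h5]
  have h6 : ∑ y : Tor d n, ‖Gr (H0 d n) 0 ζ 0 y‖ ^ 2 *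
      (1 - Real.cos (kof n m * ((y j).valMinAbs : ℝ))) =
      ∑ y, ‖Gr (H0 d n) 0 ζ 0 y‖ ^ 2 - ∑ y, Real.cos (kof n m * ((y j).valMinAbs : ℝ)) *
        ‖Gr (H0 d n) 0 ζ 0 y‖ ^ 2 := by
    rw [← Finset.sum_sub_distrib]
    exact Finset.sum_congr rfl fun y _ => by ring
  rw [h6]
  push_cast
  ring

lemma tw_add {A : Matrix (Tor d n) (Tor d n) ℂ} (hA : ∀ t x y, A (x + t) (y + t) = A x y)
    (j : Fin d) (m : ℕ) (t x y : Tor d n) :
    tw (up j m) A (x + t) (y + t) = tw (up j m) A x y := by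
  unfold tw
  have h1 : ∀ a b : Tor d n, up j m (a + b) = up j m a * up j m b := fun a b => ch_add _ _ _
  have h2 : starRingEnd ℂ (up j m t) * up j m t = 1 := by
    rw [← Complex.normSq_eq_conj_mul_self, Complex.normSq_eq_norm_sq, norm_up]
    simp
  rw [hA, h1, h1, map_mul]
  calc starRingEnd ℂ (up j m x) * starRingEnd ℂ (up j m t) * A x y * (up j m y * up j m t)
      = starRingEnd ℂ (up j m x) * A x y * up j m y * (starRingEnd ℂ (up j m t) * up j m t) := by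
        ring
    _ = _ := by rw [h2, mul_one]

lemma NN_add (ζ : ℂ) (j : Fin d) (m : ℕ) (t x y : Tor d n) :
    NN d n ζ j m (x + t) (y + t) = NN d n ζ j m x y := by
  unfold NN
  rw [Matrix.mul_apply, Matrix.mul_apply, ← Equiv.sum_comp (Equiv.addRight t) (fun u =>
    tw (up j m) (Gr (H0 d n) 0 ζ) (x + t) u * (tw (up j m) (H0 d n) - H0 d n) u (y + t))]
  refine Finset.sum_congr rfl fun u _ => ?_
  rw [Equiv.coe_addRight, tw_add (fun t x y => Gr0_add ζ t x y), Matrix.sub_apply,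
    Matrix.sub_apply, tw_add (fun t x y => H0_add t x y), H0_add]

lemma nuu_eq {ν : Measure ℝ} [IsProbabilityMeasure ν] (s2 : ℝ) (π : Par) (j : Fin d) (m : ℕ)
    (x : Tor d π.n) :
    Ex ν (fun V : Tor d π.n → ℝ => (NN d π.n (zt ν s2 d π) j m * (GG d π.n π.lam π.z V)ᴴ) x x) =
      nuu ν s2 d π j m := by
  unfold nuu
  rw [← Ex_perm ν (Equiv.addRight x) (fun V : Tor d π.n → ℝ =>
    (NN d π.n (zt ν s2 d π) j m * (GG d π.n π.lam π.z V)ᴴ) 0 0)]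
  refine congrArg (Ex ν) (funext fun V => ?_)
  rw [Matrix.mul_apply, Matrix.mul_apply, ← Equiv.sum_comp (Equiv.addRight x) (fun u =>
    NN d π.n (zt ν s2 d π) j m x u * (GG d π.n π.lam π.z V)ᴴ u x)]
  refine Finset.sum_congr rfl fun u _ => ?_
  rw [Matrix.conjTranspose_apply, Matrix.conjTranspose_apply, Equiv.coe_addRight]
  have h1 := NN_add (zt ν s2 d π) j m x 0 u
  have h2 := GG_add π.lam π.z V x 0 u
  rw [zero_add] at h1 h2
  rw [h1, h2]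

/-- Real part of the twisted mass. -/
lemma re_tw_mass (j : Fin d) (m : ℕ) (A : Matrix (Tor d n) (Tor d n) ℂ) :
    ((tw (up j m) A * Aᴴ) 0 0).re = ∑ y, Real.cos (kof n m * ((y j).valMinAbs : ℝ)) *
      ‖A 0 y‖ ^ 2 := by
  rw [tw_diag_sum, Complex.re_sum]
  refine Finset.sum_congr rfl fun y _ => ?_
  rw [up_zero, map_one, one_mul, up_cos_sin]
  generalize Real.cos (kof n m * ((y j).valMinAbs : ℝ)) = a
  generalize Real.sin (kof n m * ((y j).valMinAbs : ℝ)) = b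
  generalize ‖A 0 y‖ ^ 2 = c
  simp

end Pool.Agent.BK
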