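import Pool.Agent.BK.Res2
import Pool.Agent.BK.TorB

/-! BK module TORCT: Combes-Thomas bound on the torus.
With `w(x) = |x̂_j|` (1-Lipschitz under the nearest neighbour moves, including the wrap-around
`n → -n`), `α = η/8`, `u(x) = e^{α w(x)} G_x0`: `(H0 + v - z) u = e_0 + r` with
`|r(x)| ≤ 2α (|u(x + e_j)| + |u(x - e_j)|)`, so `‖r‖ ≤ 4α ‖u‖ = (η/2) ‖u‖` and
`η ‖u‖ ≤ ‖(H0 + v - z) u‖ ≤ 1 + (η/2) ‖u‖`. -/

open MeasureTheory Finset Matrix

noncomputable section

namespace Pool.Agent.BK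

lemma torCT_sqrt_add {X : Type} [Fintype X] (a b : X → ℂ) :
    Real.sqrt (nsq (a + b)) ≤ Real.sqrt (nsq a) + Real.sqrt (nsq b) := by
  have := norm_add_le (WithLp.toLp 2 a : EuclideanSpace ℂ X) (WithLp.toLp 2 b)
  simpa [EuclideanSpace.norm_eq, nsq] using this

lemma torCT_vma {m : ℕ} [NeZero m] (a : ZMod m) :
    |(|((a + 1).valMinAbs : ℝ)| - |(a.valMinAbs : ℝ)|)| ≤ 1 := by
  have h1 : ((1 : ZMod m).valMinAbs).natAbs ≤ 1 := by
    have := ZMod.natAbs_min_of_le_div_two m (1 : ZMod m).valMinAbs 1 (by simp)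
      (ZMod.natAbs_valMinAbs_le _)
    simpa using this
  have h2 : ((a + 1).valMinAbs).natAbs ≤ (a.valMinAbs).natAbs + 1 := by
    have h := ZMod.natAbs_valMinAbs_add_le a 1
    have h' := Int.natAbs_add_le a.valMinAbs (1 : ZMod m).valMinAbs
    omega
  have h3 : (a.valMinAbs).natAbs ≤ ((a + 1).valMinAbs).natAbs + 1 := by
    have h := ZMod.natAbs_valMinAbs_add_le (a + 1) (-1)
    have h' := Int.natAbs_add_le (a + 1).valMinAbs (-1 : ZMod m).valMinAbs
    have h'' := ZMod.natAbs_valMinAbs_neg (1 : ZMod m)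
    rw [add_neg_cancel_right] at h
    omega
  have e : ∀ b : ZMod m, |(b.valMinAbs : ℝ)| = (b.valMinAbs.natAbs : ℝ) := fun b => by
    rw [Nat.cast_natAbs, Int.cast_abs]
  rw [e, e, abs_le]
  constructor
  · have : ((a.valMinAbs).natAbs : ℝ) ≤ ((a + 1).valMinAbs).natAbs + 1 := by exact_mod_cast h3
    linarith
  · have : (((a + 1).valMinAbs).natAbs : ℝ) ≤ (a.valMinAbs).natAbs + 1 := by exact_mod_cast h2
    linarith

lemma torCT_exp {α a b : ℝ} (hα : 0 ≤ α) (hα1 : α ≤ 1) (h : |b - a| ≤ 1) :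
    |Real.exp (α * b) - Real.exp (α * a)| ≤ 2 * α * Real.exp (α * b) := by
  have h1 : |α * (a - b)| ≤ α := by
    rw [abs_mul, abs_of_nonneg hα, abs_sub_comm]
    exact mul_le_of_le_one_right hα h
  have h2 := Real.abs_exp_sub_one_le (x := α * (a - b)) (h1.trans hα1)
  have h3 : Real.exp (α * b) - Real.exp (α * a) =
      -(Real.exp (α * b) * (Real.exp (α * (a - b)) - 1)) := by
    rw [mul_sub, mul_one, ← Real.exp_add]
    ring_nf
  rw [h3, abs_neg, abs_mul, abs_of_pos (Real.exp_pos _), mul_comm]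
  apply mul_le_mul_of_nonneg_right _ (Real.exp_pos _).le
  linarith

lemma torCT_shift {d n : ℕ} (u : Tor d n → ℂ) (t : Tor d n) :
    ∑ y, ‖u (y + t)‖ ^ 2 = nsq u := by
  rw [nsq]
  exact Fintype.sum_equiv (Equiv.addRight t) _ _ (fun _ => rfl)

lemma torCT_shift' {d n : ℕ} (u : Tor d n → ℂ) (t : Tor d n) :
    ∑ y, ‖u (y - t)‖ ^ 2 = nsq u := by
  rw [nsq]
  exact Fintype.sum_equiv (Equiv.subRight t) _ _ (fun _ => rfl)

lemma torCT_nsq {d n : ℕ} (u r : Tor d n → ℂ) (α : ℝ) (t : Tor d n)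
    (h : ∀ y, ‖r y‖ ≤ 2 * α * (‖u (y + t)‖ + ‖u (y - t)‖)) : nsq r ≤ (4 * α) ^ 2 * nsq u := by
  calc nsq r ≤ ∑ y, (2 * α) ^ 2 * (2 * ‖u (y + t)‖ ^ 2 + 2 * ‖u (y - t)‖ ^ 2) := by
          apply Finset.sum_le_sum
          intro y _
          calc ‖r y‖ ^ 2 ≤ (2 * α * (‖u (y + t)‖ + ‖u (y - t)‖)) ^ 2 :=
                pow_le_pow_left₀ (norm_nonneg _) (h y) 2
            _ = (2 * α) ^ 2 * (‖u (y + t)‖ + ‖u (y - t)‖) ^ 2 := by ring
            _ ≤ _ := by
              apply mul_le_mul_of_nonneg_left _ (by positivity)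
              nlinarith [sq_nonneg (‖u (y + t)‖ - ‖u (y - t)‖)]
    _ = (4 * α) ^ 2 * nsq u := by
          rw [← Finset.mul_sum, Finset.sum_add_distrib, ← Finset.mul_sum, ← Finset.mul_sum,
            torCT_shift, torCT_shift']
          ring

theorem torus_ct {d n : ℕ} (v : Tor d n → ℝ) {z : ℂ} (hz : 0 < z.im) (hz1 : z.im ≤ 1)
    (j : Fin d) (x : Tor d n) :
    ‖Gr (H0 d n) v z x 0‖ ≤ 2 / z.im * Real.exp (-(z.im / 8 * |((x j).valMinAbs : ℝ)|)) := by
  set η := z.im with hη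
  set α := η / 8 with hα
  have hα0 : 0 ≤ α := by positivity
  have hα1 : α ≤ 1 := by rw [hα]; linarith
  set w : Tor d n → ℝ := fun y => |((y j).valMinAbs : ℝ)| with hw
  set G := Gr (H0 d n) v z with hG
  set A : Matrix (Tor d n) (Tor d n) ℂ :=
    H0 d n + Matrix.diagonal (fun x => (v x : ℂ)) - z • (1 : Matrix (Tor d n) (Tor d n) ℂ) with hA
  set e : Tor d n → ℝ := fun y => Real.exp (α * w y) with he
  have he0 : ∀ y, 0 < e y := fun y => Real.exp_pos _
  set u : Tor d n → ℂ := fun y => (e y : ℂ) * G y 0 with hu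
  have hRS := RS_H0 d n
  have hAG : A * G = 1 := mul_Gr hRS v hz.ne'
  have hGA : G * A = 1 := Gr_mul hRS v hz.ne'
  have hwp : ∀ y : Tor d n, |w (y + Pi.single j 1) - w y| ≤ 1 := fun y => by
    have := torCT_vma (m := 2 * n + 1) (y j)
    simpa [hw] using this
  have hwm : ∀ y : Tor d n, |w (y - Pi.single j 1) - w y| ≤ 1 := fun y => by
    have := hwp (y - Pi.single j 1)
    rw [sub_add_cancel, abs_sub_comm] at this
    exact this
  -- the remainder
  set r : Tor d n → ℂ := fun y => - (((e (y + Pi.single j 1) - e y : ℝ) : ℂ) * G (y + Pi.single j 1) 0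
    + ((e (y - Pi.single j 1) - e y : ℝ) : ℂ) * G (y - Pi.single j 1) 0) with hr
  have key : A *ᵥ u = Pi.single 0 1 + r := by
    funext y
    have h1 : ∑ t, A y t * G t 0 = if y = 0 then 1 else 0 := by
      have := congrFun (congrFun hAG y) 0
      rw [Matrix.mul_apply, Matrix.one_apply] at this
      exact this
    have h2 : (A *ᵥ u) y = (e y : ℂ) * (∑ t, A y t * G t 0) +
        ∑ t, A y t * (((e t - e y : ℝ) : ℂ) * G t 0) := by
      rw [Matrix.mulVec, dotProduct, Finset.mul_sum, ← Finset.sum_add_distrib]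
      apply Finset.sum_congr rfl
      intro t _
      rw [hu]
      push_cast
      ring
    have h3 : ∑ t, A y t * (((e t - e y : ℝ) : ℂ) * G t 0) =
        ∑ t, H0 d n y t * (((e t - e y : ℝ) : ℂ) * G t 0) := by
      apply Finset.sum_congr rfl
      intro t _
      by_cases hty : y = t
      · subst hty; simp
      · rw [hA]
        simp [Matrix.diagonal_apply_ne _ hty, Matrix.one_apply_ne hty]
    have h4 : ∑ t, H0 d n y t * (((e t - e y : ℝ) : ℂ) * G t 0) = r y := by
      have h5 : ∀ t, H0 d n y t * (((e t - e y : ℝ) : ℂ) * G t 0) =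
          (if y = t then (2 * d : ℂ) * (((e t - e y : ℝ) : ℂ) * G t 0) else 0) -
          ∑ l : Fin d, ((if t = y + Pi.single l 1 then (((e t - e y : ℝ) : ℂ) * G t 0) else 0) +
            (if t = y - Pi.single l 1 then (((e t - e y : ℝ) : ℂ) * G t 0) else 0)) := by
        intro t
        rw [H0, sub_mul, Finset.sum_mul]
        congr 1
        · split_ifs <;> simp
        · apply Finset.sum_congr rfl
          intro l _
          rw [add_mul]
          congr 1 <;> split_ifs <;> simp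
      simp_rw [h5]
      rw [Finset.sum_sub_distrib, Finset.sum_ite_eq, Finset.sum_comm]
      simp only [Finset.mem_univ, if_true, sub_self, Complex.ofReal_zero, zero_mul, mul_zero,
        zero_sub, Finset.sum_add_distrib, Finset.sum_ite_eq']
      rw [← Finset.sum_add_distrib, Finset.sum_eq_single j]
      · intro l _ hl
        have h6 : e (y + Pi.single l 1) = e y := by
          simp [he, hw, Pi.single_eq_of_ne (Ne.symm hl)]
        have h7 : e (y - Pi.single l 1) = e y := by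
          simp [he, hw, Pi.single_eq_of_ne (Ne.symm hl)]
        rw [h6, h7]
        simp
      · intro h; exact absurd (Finset.mem_univ j) h
    rw [h2, h1, h3, h4, Pi.add_apply]
    congr 1
    by_cases hy : y = 0
    · subst hy; simp [he, hw]
    · simp [hy]
  have hrb : ∀ y, ‖r y‖ ≤ 2 * α * (‖u (y + Pi.single j 1)‖ + ‖u (y - Pi.single j 1)‖) := by
    intro y
    rw [hr]
    simp only [norm_neg]
    refine (norm_add_le _ _).trans ?_
    rw [mul_add]
    apply add_le_add
    · rw [norm_mul, hu]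
      simp only [norm_mul, Complex.norm_real, Real.norm_eq_abs, abs_of_pos (he0 _)]
      rw [← mul_assoc]
      exact mul_le_mul_of_nonneg_right (torCT_exp hα0 hα1 (hwp y)) (norm_nonneg _)
    · rw [norm_mul, hu]
      simp only [norm_mul, Complex.norm_real, Real.norm_eq_abs, abs_of_pos (he0 _)]
      rw [← mul_assoc]
      exact mul_le_mul_of_nonneg_right (torCT_exp hα0 hα1 (hwm y)) (norm_nonneg _)
  have hnr : nsq r ≤ (4 * α) ^ 2 * nsq u := torCT_nsq u r α (Pi.single j 1) hrb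
  set s := Real.sqrt (nsq u) with hs
  have hnu : 0 ≤ nsq u := Finset.sum_nonneg (fun _ _ => by positivity)
  have hs0 : 0 ≤ s := Real.sqrt_nonneg _
  have hsr : Real.sqrt (nsq r) ≤ η / 2 * s := by
    calc Real.sqrt (nsq r) ≤ Real.sqrt ((4 * α) ^ 2 * nsq u) := Real.sqrt_le_sqrt hnr
      _ = 4 * α * s := by
          rw [Real.sqrt_mul (by positivity), Real.sqrt_sq (by positivity)]
      _ = η / 2 * s := by rw [hα]; ring
  have hs1 : Real.sqrt (nsq (Pi.single 0 1 : Tor d n → ℂ)) = 1 := by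
    have : nsq (Pi.single 0 1 : Tor d n → ℂ) = 1 := by
      rw [nsq, Finset.sum_eq_single 0]
      · simp
      · intro b _ hb; simp [Pi.single_eq_of_ne hb]
      · intro h; exact absurd (Finset.mem_univ _) h
    rw [this, Real.sqrt_one]
  have hsA : Real.sqrt (nsq (A *ᵥ u)) ≤ 1 + η / 2 * s := by
    rw [key]
    refine (torCT_sqrt_add _ _).trans ?_
    rw [hs1]
    linarith
  have hsu : s ≤ 1 / η * Real.sqrt (nsq (A *ᵥ u)) := by
    have h1 : G *ᵥ (A *ᵥ u) = u := by
      rw [Matrix.mulVec_mulVec, hGA, Matrix.one_mulVec]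
    have h2 := nsq_Gr_mulVec hRS v hz (A *ᵥ u)
    rw [← hG, h1] at h2
    calc s ≤ Real.sqrt ((1 / η) ^ 2 * nsq (A *ᵥ u)) := Real.sqrt_le_sqrt h2
      _ = 1 / η * Real.sqrt (nsq (A *ᵥ u)) := by
          rw [Real.sqrt_mul (by positivity), Real.sqrt_sq (by positivity)]
  have hs2 : s ≤ 2 / η := by
    have h1 : s ≤ 1 / η * (1 + η / 2 * s) :=
      hsu.trans (mul_le_mul_of_nonneg_left hsA (by positivity))
    have h2 : 1 / η * (1 + η / 2 * s) = 1 / η + s / 2 := by
      field_simp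
    rw [h2] at h1
    have h3 : 2 / η = 2 * (1 / η) := by ring
    rw [h3]
    linarith
  have hux : ‖u x‖ ≤ s := by
    rw [hs]
    apply Real.le_sqrt_of_sq_le
    exact Finset.single_le_sum (f := fun y => ‖u y‖ ^ 2) (fun _ _ => by positivity)
      (Finset.mem_univ x)
  have hux' : ‖u x‖ = e x * ‖G x 0‖ := by
    rw [hu]
    simp only [norm_mul, Complex.norm_real, Real.norm_eq_abs, abs_of_pos (he0 _)]
  have h5 : e x * ‖G x 0‖ ≤ 2 / η := by rw [← hux']; exact hux.trans hs2
  have h6 : Real.exp (-(α * w x)) * e x = 1 := by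
    rw [he, ← Real.exp_add]; simp
  calc ‖G x 0‖ = Real.exp (-(α * w x)) * (e x * ‖G x 0‖) := by
        rw [← mul_assoc, h6, one_mul]
    _ ≤ Real.exp (-(α * w x)) * (2 / η) := mul_le_mul_of_nonneg_left h5 (Real.exp_pos _).le
    _ = 2 / η * Real.exp (-(α * w x)) := mul_comm _ _

end Pool.Agent.BK
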