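import Pool.Agent.BK.CDefs
import Pool.Agent.BK.TorCT

/-! BK module CUR1A: norm bounds for `W` and `N`.
`W = tw u H0 - H0` has entries `(e^{ik(y_j - x_j)} - 1) H0_xy`, nonzero only for `y = x ± e_j`, of modulus
`|e^{±ik} - 1| ≤ k`; it is hermitian, `‖W c‖ ≤ 2k ‖c‖`.
`N = tw u M W`: `‖N‖ ≤ ‖M‖ ‖W‖ ≤ 2k/Im ζ`; rows: `∑_y |N_xy|² ≤ (2k)² ∑_y |M_xy|² = (2k)² Im M_xx/Im ζ`. -/

open MeasureTheory Finset Matrix

noncomputable section

namespace Pool.Agent.BK

variable {d n : ℕ}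

lemma norm_up (j : Fin d) (m : ℕ) (x : Tor d n) : ‖up j m x‖ = 1 := norm_ch _ _

lemma cur1a_up (j : Fin d) (m : ℕ) (y : Tor d n) :
    up j m y = (ZMod.stdAddChar ((m : ZMod (2 * n + 1)) * y j) : ℂ) := by
  rw [up, ch, Finset.prod_eq_single j]
  · rw [Pi.single_eq_same]
  · intro l _ hl
    rw [Pi.single_eq_of_ne hl, zero_mul, AddChar.map_zero_eq_one]
  · intro h; exact absurd (Finset.mem_univ j) h

lemma up_zero (j : Fin d) (m : ℕ) : up j m (0 : Tor d n) = 1 := by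
  rw [cur1a_up, Pi.zero_apply, mul_zero, AddChar.map_zero_eq_one]

/-- `up j m y = exp(i k ŷ_j)`. -/
lemma up_eq (j : Fin d) (m : ℕ) (y : Tor d n) :
    up j m y = Complex.exp (Complex.I * (kof n m * ((y j).valMinAbs : ℝ) : ℝ)) := by
  have h : (m : ZMod (2 * n + 1)) * y j = (((m : ℤ) * (y j).valMinAbs : ℤ) : ZMod (2 * n + 1)) := by
    rw [Int.cast_mul, ZMod.coe_valMinAbs, Int.cast_natCast]
  rw [cur1a_up, h, ZMod.stdAddChar_coe]
  congr 1
  rw [kof]
  push_cast
  ring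

lemma cur1a_one (n : ℕ) : |(((1 : ZMod (2 * n + 1)).valMinAbs : ℤ) : ℝ)| ≤ 1 := by
  have h := torCT_vma (m := 2 * n + 1) 0
  simpa using h

lemma kof_nonneg (n m : ℕ) : 0 ≤ kof n m := by
  rw [kof]; positivity

lemma cur1a_norm (j : Fin d) (m : ℕ) :
    ‖up j m (Pi.single j 1 : Tor d n) - 1‖ ≤ kof n m := by
  rw [up_eq, Pi.single_eq_same, mul_comm Complex.I]
  have h1 := Real.norm_exp_I_mul_ofReal_sub_one_le (x := kof n m * (((1 : ZMod (2 * n + 1)).valMinAbs : ℤ) : ℝ))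
  rw [mul_comm Complex.I] at h1
  refine h1.trans ?_
  rw [Real.norm_eq_abs, abs_mul, abs_of_nonneg (kof_nonneg n m)]
  exact mul_le_of_le_one_right (kof_nonneg n m) (cur1a_one n)

lemma cur1a_ne (j l : Fin d) (h : j ≠ l) (m : ℕ) : up j m (Pi.single l 1 : Tor d n) = 1 := by
  rw [cur1a_up, Pi.single_eq_of_ne h, mul_zero, AddChar.map_zero_eq_one]

lemma cur1a_H0 (f : Tor d n → ℂ) (y : Tor d n) :
    ∑ t, H0 d n y t * f t = 2 * d * f y -
      ∑ l : Fin d, (f (y + Pi.single l 1) + f (y - Pi.single l 1)) := by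
  have h5 : ∀ t, H0 d n y t * f t = (if y = t then (2 * d : ℂ) * f t else 0) -
      ∑ l : Fin d, ((if t = y + Pi.single l 1 then f t else 0) +
        (if t = y - Pi.single l 1 then f t else 0)) := by
    intro t
    rw [H0, sub_mul, Finset.sum_mul]
    congr 1
    · split_ifs <;> simp
    · apply Finset.sum_congr rfl
      intro l _
      rw [add_mul]
      congr 1 <;> split_ifs <;> simp
  simp_rw [h5]
  rw [Finset.sum_sub_distrib, Finset.sum_ite_eq, Finset.sum_comm]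
  simp only [Finset.mem_univ, if_true, Finset.sum_add_distrib, Finset.sum_ite_eq']

lemma cur1a_conj (j : Fin d) (m : ℕ) (x : Tor d n) :
    starRingEnd ℂ (up j m x) * up j m x = 1 := by
  rw [mul_comm, Complex.mul_conj, Complex.normSq_eq_norm_sq, norm_up]
  simp

lemma cur1a_W (j : Fin d) (m : ℕ) (c : Tor d n → ℂ) (x : Tor d n) :
    ((tw (up j m) (H0 d n) - H0 d n) *ᵥ c) x =
      -((up j m (Pi.single j 1 : Tor d n) - 1) * c (x + Pi.single j 1) +
        (starRingEnd ℂ (up j m (Pi.single j 1 : Tor d n)) - 1) * c (x - Pi.single j 1)) := by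
  have h1 : ((tw (up j m) (H0 d n) - H0 d n) *ᵥ c) x =
      ∑ t, H0 d n x t * ((starRingEnd ℂ (up j m x) * up j m t - 1) * c t) := by
    rw [Matrix.mulVec, dotProduct]
    apply Finset.sum_congr rfl
    intro t _
    rw [Matrix.sub_apply, tw]
    ring
  have h2 : ∀ l : Fin d, starRingEnd ℂ (up j m x) * up j m (x + Pi.single l 1) =
      up j m (Pi.single l 1 : Tor d n) := fun l => by
    have h : up j m (x + Pi.single l 1) = up j m x * up j m (Pi.single l 1 : Tor d n) :=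
      ch_add _ _ _
    rw [h, ← mul_assoc, cur1a_conj, one_mul]
  have h3 : ∀ l : Fin d, starRingEnd ℂ (up j m x) * up j m (x - Pi.single l 1) =
      starRingEnd ℂ (up j m (Pi.single l 1 : Tor d n)) := fun l => by
    have h : up j m (x - Pi.single l 1) =
        up j m x * starRingEnd ℂ (up j m (Pi.single l 1 : Tor d n)) := by
      rw [sub_eq_add_neg]
      exact (ch_add _ _ _).trans (congrArg (fun q => up j m x * q) (ch_neg _ _))
    rw [h, ← mul_assoc, cur1a_conj, one_mul]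
  rw [h1, cur1a_H0]
  simp only [h2, h3]
  rw [cur1a_conj, sub_self, zero_mul, mul_zero, zero_sub, Finset.sum_eq_single j]
  · intro l _ hl
    rw [cur1a_ne j l (Ne.symm hl)]
    simp
  · intro h; exact absurd (Finset.mem_univ j) h

lemma nsq_W (j : Fin d) (m : ℕ) (c : Tor d n → ℂ) :
    nsq ((tw (up j m) (H0 d n) - H0 d n) *ᵥ c) ≤ (2 * kof n m) ^ 2 * nsq c := by
  have h := torCT_nsq c ((tw (up j m) (H0 d n) - H0 d n) *ᵥ c) (kof n m / 2) (Pi.single j 1)
    (fun y => by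
      rw [cur1a_W, norm_neg, mul_div_cancel₀ _ (two_ne_zero), mul_add]
      refine (norm_add_le _ _).trans ?_
      rw [norm_mul, norm_mul]
      have h2 : ‖starRingEnd ℂ (up j m (Pi.single j 1 : Tor d n)) - 1‖ ≤ kof n m := by
        have : starRingEnd ℂ (up j m (Pi.single j 1 : Tor d n)) - 1 =
            starRingEnd ℂ (up j m (Pi.single j 1 : Tor d n) - 1) := by
          rw [map_sub, map_one]
        rw [this, Complex.norm_conj]
        exact cur1a_norm j m
      exact add_le_add (mul_le_mul_of_nonneg_right (cur1a_norm j m) (norm_nonneg _))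
        (mul_le_mul_of_nonneg_right h2 (norm_nonneg _)))
  refine h.trans (le_of_eq ?_)
  ring

lemma nsq_NN {ζ : ℂ} (hζ : 0 < ζ.im) (j : Fin d) (m : ℕ) (c : Tor d n → ℂ) :
    nsq (NN d n ζ j m *ᵥ c) ≤ (2 * kof n m / ζ.im) ^ 2 * nsq c := by
  rw [NN, ← Matrix.mulVec_mulVec]
  have h1 := nsq_tw_mulVec (norm_up j m) (A := Gr (H0 d n) 0 ζ) (B := 1 / ζ.im)
    (fun c => nsq_Gr_mulVec (RS_H0 d n) 0 hζ c) ((tw (up j m) (H0 d n) - H0 d n) *ᵥ c)
  refine h1.trans ?_
  calc (1 / ζ.im) ^ 2 * nsq ((tw (up j m) (H0 d n) - H0 d n) *ᵥ c) ≤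
      (1 / ζ.im) ^ 2 * ((2 * kof n m) ^ 2 * nsq c) :=
        mul_le_mul_of_nonneg_left (nsq_W j m c) (by positivity)
    _ = (2 * kof n m / ζ.im) ^ 2 * nsq c := by ring

lemma row_NN {ζ : ℂ} (hζ : 0 < ζ.im) (j : Fin d) (m : ℕ) (x : Tor d n) :
    ∑ y, ‖NN d n ζ j m x y‖ ^ 2 ≤ (2 * kof n m) ^ 2 * ((Gr (H0 d n) 0 ζ 0 0).im / ζ.im) := by
  set M := Gr (H0 d n) 0 ζ with hM
  set c : Tor d n → ℂ := fun t => starRingEnd ℂ (tw (up j m) M x t) with hc
  have h1 : ∀ y, ‖NN d n ζ j m x y‖ = ‖((tw (up j m) (H0 d n) - H0 d n) *ᵥ c) y‖ := by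
    intro y
    rw [NN, ← hM, Matrix.mul_apply, ← Complex.norm_conj, map_sum, Matrix.mulVec, dotProduct]
    congr 1
    apply Finset.sum_congr rfl
    intro t _
    have h2 : starRingEnd ℂ (H0 d n t y) = H0 d n y t := by
      have := congrFun (congrFun (RS_H0 d n).herm y) t
      rw [Matrix.conjTranspose_apply] at this
      exact this
    rw [map_mul, mul_comm, hc]
    congr 1
    rw [Matrix.sub_apply, Matrix.sub_apply, map_sub, tw, tw, map_mul, map_mul, Complex.conj_conj,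
      h2]
    ring
  have h2 : ∑ y, ‖NN d n ζ j m x y‖ ^ 2 = nsq ((tw (up j m) (H0 d n) - H0 d n) *ᵥ c) := by
    rw [nsq]
    exact Finset.sum_congr rfl fun y _ => by rw [h1]
  have h3 : nsq c = (M 0 0).im / ζ.im := by
    have h4 : M x x = M 0 0 := by
      have := Gr0_add (d := d) (n := n) ζ x 0 0
      rw [zero_add] at this
      exact this
    rw [nsq, ← h4, ← ward (RS_H0 d n) 0 hζ x]
    apply Finset.sum_congr rfl
    intro t _
    rw [hc]
    simp only [Complex.norm_conj]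
    rw [norm_tw (norm_up j m)]
  rw [h2, ← h3]
  exact nsq_W j m c

end Pool.Agent.BK
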