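import Pool.Agent.BK.Cur1
import Pool.Agent.BK.Mom

/-! BK module CUR2: concentration of `n_x = (N Gᴴ)_xx` at the chosen momentum:
`sup_x |n_x - nuu| ≺ lam^(1 - A/4 - δ1)`.
`moments` with `C1_n`, `grad_n`: `rho² = (2k)² Im M_00/Im ζ` (`row_NN`), where `Im ζ ≥ s2 κ lam²` (from
`LocL.im`) and `Im M_00 ≤ |M_00| ≤ 1 + ∑|M|³ ≤ K lam^(-ε)` (`FreeB.fb12`), so
`rho ≤ K k lam^(-1-ε) ≤ K lam^(A/2 - δ1 - ε)`; `rowN 2 G ≺ lam^(-A/2)`, `η⁻¹ ≤ lam^(-A)`, `rowN 4 G ≺ 1`: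
gradient² `≤ lam² rho² rowN2/η rowN4² ≺ lam^(2 + A - 2δ1 - 3A/2) = lam^(2(1 - A/4 - δ1))`.
Then `Dom.iSup` over `x`. -/

open MeasureTheory Finset Matrix

noncomputable section

namespace Pool.Agent.BK

section cur2

variable {ν : Measure ℝ} {R s2 C : ℝ} {τ τ' : ℝ → ℝ} {d : ℕ} {lo' hi' lo hi lam0 A e1 e2 δ1 κ : ℝ}

lemma cur2_eta {π : Par} (hπ : π ∈ PS lo hi lam0 e1 e2) : 0 < π.eta :=
  lt_of_lt_of_le (Real.rpow_pos_of_pos hπ.1 _) hπ.2.2.2.2.2.2.1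

lemma cur2_imz {π : Par} (hs : 0 < s2)
    (hL : LocL ν d (PS lo hi lam0 e1 e2) κ) (hπ : π ∈ PS lo hi lam0 e1 e2) :
    s2 * κ * π.lam ^ 2 ≤ (zt ν s2 d π).im := by
  have h1 : (zt ν s2 d π).im = π.eta + π.lam ^ 2 * s2 * (gb ν d π).im := by
    rw [zt, zeta, Complex.add_im, Complex.im_ofReal_mul]
    rfl
  have h2 := hL.im π hπ
  have h3 := cur2_eta hπ
  have h4 : 0 ≤ π.lam ^ 2 * s2 := by positivity
  rw [h1]
  nlinarith [mul_le_mul_of_nonneg_left h2 h4]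

lemma cur2_M00 (hF : FreeB d lo' hi') (hl : lam0 ≤ 1)
    (hZ : Zok ν s2 d lo' hi' 1 (1 / 20) (PS lo hi lam0 e1 e2)) {ε : ℝ} (hε : 0 < ε) :
    ∃ K : ℝ, 0 < K ∧ ∀ π ∈ PS lo hi lam0 e1 e2,
      ‖Gr (H0 d π.n) 0 (zt ν s2 d π) 0 0‖ ≤ K * π.lam ^ (-ε) := by
  obtain ⟨C, hC, h⟩ := hF.fb12 (ε / (21 / 10)) (by positivity)
  refine ⟨1 + C, by positivity, fun π hπ => ?_⟩
  have hlam : 0 < π.lam := hπ.1
  have hlam1 : π.lam ≤ 1 := hπ.2.1.trans hl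
  have him : π.lam ^ (21 / 10 : ℝ) ≤ (zt ν s2 d π).im := by
    have := hZ.im_lo π hπ
    norm_num at this ⊢
    exact this
  have hp : 0 < π.lam ^ (21 / 10 : ℝ) := Real.rpow_pos_of_pos hlam _
  have him0 : 0 < (zt ν s2 d π).im := hp.trans_le him
  have h10 : (zt ν s2 d π).im ^ (-(10 : ℝ)) ≤ 2 * π.n + 1 := by
    calc (zt ν s2 d π).im ^ (-(10 : ℝ)) ≤ (π.lam ^ (21 / 10 : ℝ)) ^ (-(10 : ℝ)) :=
          Real.rpow_le_rpow_of_nonpos hp him (by norm_num)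
      _ = π.lam ^ (-(21 : ℝ)) := by rw [← Real.rpow_mul hlam.le]; norm_num
      _ ≤ π.lam ^ (-(40 : ℝ)) :=
          Real.rpow_le_rpow_of_exponent_ge hlam hlam1 (by norm_num)
      _ ≤ _ := hπ.2.2.1
  have h1 := (h (zt ν s2 d π) π.n (hZ.re_lo π hπ) (hZ.re_hi π hπ) him0 (hZ.im_hi π hπ) h10).1 0
  have h2 : ‖Gr (H0 d π.n) 0 (zt ν s2 d π) 0 0‖ ^ 3 ≤
      ∑ y, ‖Gr (H0 d π.n) 0 (zt ν s2 d π) 0 y‖ ^ 3 :=
    Finset.single_le_sum (f := fun y => ‖Gr (H0 d π.n) 0 (zt ν s2 d π) 0 y‖ ^ 3)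
      (fun _ _ => by positivity) (Finset.mem_univ (0 : Tor d π.n))
  have h3 : (zt ν s2 d π).im ^ (-(ε / (21 / 10))) ≤ π.lam ^ (-ε) := by
    calc (zt ν s2 d π).im ^ (-(ε / (21 / 10))) ≤ (π.lam ^ (21 / 10 : ℝ)) ^ (-(ε / (21 / 10))) :=
          Real.rpow_le_rpow_of_nonpos hp him (by rw [neg_nonpos]; positivity)
      _ = π.lam ^ (-ε) := by
          rw [← Real.rpow_mul hlam.le]
          congr 1
          field_simp
  have h4 : ∀ t : ℝ, 0 ≤ t → t ≤ 1 + t ^ 3 := fun t ht => by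
    rcases le_total t 1 with h | h
    · have : 0 ≤ t ^ 3 := by positivity
      linarith
    · nlinarith [mul_nonneg (mul_nonneg ht (sub_nonneg.2 h)) (by linarith : (0 : ℝ) ≤ t + 1)]
  have h5 : 1 ≤ π.lam ^ (-ε) := Real.one_le_rpow_of_pos_of_le_one_of_nonpos hlam hlam1
    (by linarith)
  calc ‖Gr (H0 d π.n) 0 (zt ν s2 d π) 0 0‖ ≤ 1 + ‖Gr (H0 d π.n) 0 (zt ν s2 d π) 0 0‖ ^ 3 :=
        h4 _ (norm_nonneg _)
    _ ≤ 1 + C * (zt ν s2 d π).im ^ (-(ε / (21 / 10))) := by linarith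
    _ ≤ π.lam ^ (-ε) + C * π.lam ^ (-ε) :=
        add_le_add h5 (mul_le_mul_of_nonneg_left h3 hC.le)
    _ = (1 + C) * π.lam ^ (-ε) := by ring

/-- The deterministic factor of the gradient. -/
def cur2_c (ν : Measure ℝ) (s2 : ℝ) (d : ℕ) (A δ1 : ℝ) (π : Par) : ℝ :=
  π.lam ^ 2 * ((2 * kk A δ1 π) ^ 2 * ((Gr (H0 d π.n) 0 (zt ν s2 d π) 0 0).im / (zt ν s2 d π).im)) /
    π.eta

lemma cur2_c_le (hs : 0 < s2) (hF : FreeB d lo' hi') (hl : lam0 ≤ 1 / 2) (hA2 : 2 ≤ A) (hA3 : A ≤ 3)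
    (hδ1 : 0 ≤ δ1) (hδ2 : δ1 ≤ 1) (hκ : 0 < κ) (hL : LocL ν d (PS lo hi lam0 A e2) κ)
    (hZ : Zok ν s2 d lo' hi' 1 (1 / 20) (PS lo hi lam0 A e2)) {ε : ℝ} (hε : 0 < ε) :
    ∃ K : ℝ, ∀ π ∈ PS lo hi lam0 A e2,
      |cur2_c ν s2 d A δ1 π| ≤ K * π.lam ^ (2 - 2 * δ1 - ε) := by
  obtain ⟨K, hK, h⟩ := cur2_M00 hF (by linarith : lam0 ≤ 1) hZ hε
  refine ⟨16 * K / (s2 * κ), fun π hπ => ?_⟩
  have hlam : 0 < π.lam := hπ.1
  have hk := kk_bounds hl hA3 hA2 hδ1 hδ2 hπ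
  have hk0 : 0 ≤ kk A δ1 π := kof_nonneg _ _
  have hz := cur2_imz hs hL hπ
  have hz0 : 0 < s2 * κ * π.lam ^ 2 := by positivity
  have hI := im_Gr_pos (RS_H0 d π.n) 0 (hz0.trans_le hz) 0
  have hI2 : (Gr (H0 d π.n) 0 (zt ν s2 d π) 0 0).im ≤ K * π.lam ^ (-ε) :=
    ((le_abs_self _).trans (Complex.abs_im_le_norm _)).trans (h π hπ)
  have he := cur2_eta hπ
  have heta : π.lam ^ A ≤ π.eta := hπ.2.2.2.2.2.2.1
  have hpA : 0 < π.lam ^ A := Real.rpow_pos_of_pos hlam _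
  have h0 : 0 ≤ cur2_c ν s2 d A δ1 π := by
    rw [cur2_c]
    have := hz0.trans_le hz
    positivity
  rw [abs_of_nonneg h0, cur2_c]
  calc π.lam ^ 2 * ((2 * kk A δ1 π) ^ 2 * ((Gr (H0 d π.n) 0 (zt ν s2 d π) 0 0).im /
        (zt ν s2 d π).im)) / π.eta ≤
      π.lam ^ 2 * ((2 * (2 * π.lam ^ (1 + A / 2 - δ1))) ^ 2 *
        ((K * π.lam ^ (-ε)) / (s2 * κ * π.lam ^ 2))) / π.lam ^ A := by
        have h1 : (2 * kk A δ1 π) ^ 2 ≤ (2 * (2 * π.lam ^ (1 + A / 2 - δ1))) ^ 2 :=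
          pow_le_pow_left₀ (by positivity) (mul_le_mul_of_nonneg_left hk.2 (by norm_num)) 2
        have h2 : (Gr (H0 d π.n) 0 (zt ν s2 d π) 0 0).im / (zt ν s2 d π).im ≤
            (K * π.lam ^ (-ε)) / (s2 * κ * π.lam ^ 2) :=
          div_le_div₀ (by positivity) hI2 hz0 hz
        have h3 : 0 ≤ (Gr (H0 d π.n) 0 (zt ν s2 d π) 0 0).im / (zt ν s2 d π).im :=
          div_nonneg hI.le (hz0.trans_le hz).le
        apply div_le_div₀ (by positivity) _ hpA heta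
        apply mul_le_mul_of_nonneg_left _ (by positivity)
        exact mul_le_mul h1 h2 h3 (by positivity)
    _ = 16 * K / (s2 * κ) * ((π.lam ^ (1 + A / 2 - δ1)) ^ 2 * π.lam ^ (-ε) / π.lam ^ A) := by
        field_simp
        ring
    _ = 16 * K / (s2 * κ) * π.lam ^ (2 - 2 * δ1 - ε) := by
        congr 1
        rw [← Real.rpow_natCast, ← Real.rpow_mul hlam.le, ← Real.rpow_add hlam,
          ← Real.rpow_sub hlam]
        congr 1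
        push_cast
        ring

lemma cur2_g2 (hν : NiceLaw ν R s2 C τ τ') (hl : lam0 ≤ 1 / 2)
    (hL : Dom ν d (PS lo hi lam0 A e2) (ginf d) 0) :
    Dom ν d (PS lo hi lam0 A e2) (gq 2 d) (-(A / 2)) := by
  have hG : Good (PS lo hi lam0 A e2) := good_PS (by linarith)
  have h1 := Dom.rpow hν hG hL (fun π _ V => supN_nonneg _) (s := 1 / 2) (by norm_num)
  have h2 := Dom.det_mul (b := -(A / 2)) hν hG h1 1 (fun π => π.eta ^ (-(1 / 2) : ℝ)) (by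
    intro π hπ
    have he := cur2_eta hπ
    have hp : 0 < π.lam ^ A := Real.rpow_pos_of_pos hπ.1 _
    rw [abs_of_nonneg (Real.rpow_nonneg he.le _), one_mul]
    calc π.eta ^ (-(1 / 2) : ℝ) ≤ (π.lam ^ A) ^ (-(1 / 2) : ℝ) :=
          Real.rpow_le_rpow_of_nonpos hp hπ.2.2.2.2.2.2.1 (by norm_num)
      _ = π.lam ^ (-(A / 2)) := by
          rw [← Real.rpow_mul hπ.1.le]
          congr 1
          ring)
  have h3 : -(A / 2) + 1 / 2 * (0 : ℝ) = -(A / 2) := by ring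
  rw [h3] at h2
  refine Dom.mono hν hG h2 (fun π hπ => ?_) (fun π hπ V => ?_)
  · exact continuous_rowN 2 (continuous_Gr (RS_H0 d π.n) π.lam (cur2_eta hπ).ne')
  · have he := cur2_eta hπ
    have h4 := rowN_two_Gr (RS_H0 d π.n) (fun x => π.lam * V x) (z := π.z) he
    change |rowN 2 (GG d π.n π.lam π.z V)| ≤
      |π.eta ^ (-(1 / 2) : ℝ) * supN (GG d π.n π.lam π.z V) ^ (1 / 2 : ℝ)|
    change rowN 2 (GG d π.n π.lam π.z V) ^ 2 ≤ supN (GG d π.n π.lam π.z V) / π.eta at h4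
    have h5 := supN_nonneg (GG d π.n π.lam π.z V)
    rw [abs_of_nonneg (rowN_nonneg _ _), abs_of_nonneg (mul_nonneg (Real.rpow_nonneg he.le _)
      (Real.rpow_nonneg h5 _))]
    apply le_of_sq_le_sq _ (mul_nonneg (Real.rpow_nonneg he.le _) (Real.rpow_nonneg h5 _))
    refine h4.trans (le_of_eq ?_)
    rw [mul_pow, ← Real.rpow_natCast, ← Real.rpow_natCast, ← Real.rpow_mul he.le,
      ← Real.rpow_mul h5]
    norm_num
    rw [Real.rpow_neg_one]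
    ring

lemma cur2_Y (hν : NiceLaw ν R s2 C τ τ') (hF : FreeB d lo' hi') (hl : lam0 ≤ 1 / 2) (hA2 : 2 ≤ A)
    (hA3 : A ≤ 3) (hδ1 : 0 ≤ δ1) (hδ2 : δ1 ≤ 1) (hκ : 0 < κ)
    (hL : LocL ν d (PS lo hi lam0 A e2) κ)
    (hZ : Zok ν s2 d lo' hi' 1 (1 / 20) (PS lo hi lam0 A e2)) :
    Dom ν d (PS lo hi lam0 A e2) (fun π V => cur2_c ν s2 d A δ1 π * (gq 2 d π V * gq 4 d π V ^ 2))
      (2 * (1 - A / 4 - δ1)) := by
  have hG : Good (PS lo hi lam0 A e2) := good_PS (by linarith)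
  apply Dom.of_forall_lt hν hG
  intro b hb
  obtain ⟨K, hK⟩ := cur2_c_le hν.s2_pos hF hl hA2 hA3 hδ1 hδ2 hκ hL hZ
    (ε := 2 * (1 - A / 4 - δ1) - b) (by linarith)
  have h1 := Dom.mul hν hG (cur2_g2 hν hl hL.ginf) (Dom.pow hν hG hL.g4 2)
  have h2 := Dom.det_mul hν hG h1 K _ hK
  convert h2 using 1
  push_cast
  ring

end cur2

theorem dom_nd {ν : Measure ℝ} {R s2 C : ℝ} {τ τ' : ℝ → ℝ} (hν : NiceLaw ν R s2 C τ τ')
    {d : ℕ} {lo' hi' : ℝ} (hF : FreeB d lo' hi') {lo hi lam0 A e2 δ1 κ : ℝ}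
    (hl : lam0 ≤ 1 / 2) (hA2 : 2 < A) (hA3 : A ≤ 3) (hδ1 : 0 < δ1) (hδ2 : δ1 ≤ 1) (hκ : 0 < κ)
    (hL : LocL ν d (PS lo hi lam0 A e2) κ)
    (hZ : Zok ν s2 d lo' hi' 1 (1 / 20) (PS lo hi lam0 A e2)) (j : Fin d) :
    Dom ν d (PS lo hi lam0 A e2) (fun π V => diagN (NN d π.n (zt ν s2 d π) j (mk A δ1 π) *
      (GG d π.n π.lam π.z V)ᴴ) (nuu ν s2 d π j (mk A δ1 π))) (1 - A / 4 - δ1) := by
  have hprob := hν.prob
  have hG : Good (PS lo hi lam0 A e2) := good_PS (by linarith)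
  have hcont : ∀ π ∈ PS lo hi lam0 A e2, Continuous fun V : Tor d π.n → ℝ =>
      NN d π.n (zt ν s2 d π) j (mk A δ1 π) * (GG d π.n π.lam π.z V)ᴴ := fun π hπ => by
    have h1 : Continuous fun V : Tor d π.n → ℝ => GG d π.n π.lam π.z V :=
      continuous_Gr (RS_H0 d π.n) π.lam (cur2_eta hπ).ne'
    exact continuous_const.matrix_mul h1.matrix_conjTranspose
  have hcx : ∀ π ∈ PS lo hi lam0 A e2, ∀ x, Continuous fun V : Tor d π.n → ℝ =>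
      ‖(NN d π.n (zt ν s2 d π) j (mk A δ1 π) * (GG d π.n π.lam π.z V)ᴴ) x x -
        nuu ν s2 d π j (mk A δ1 π)‖ := fun π hπ x =>
    ((((hcont π hπ).matrix_elem x x)).sub continuous_const).norm
  have hY := cur2_Y hν hF hl hA2.le hA3 hδ1.le hδ2 hκ hL hZ
  have hmain := Dom.iSup hν hG (fun π => Tor d π.n) 1 (43 * d)
    (fun π hπ => by rw [one_mul]; exact card_Tor_le (by linarith) π hπ)
    (fun π x V => ‖(NN d π.n (zt ν s2 d π) j (mk A δ1 π) * (GG d π.n π.lam π.z V)ᴴ) x x -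
        nuu ν s2 d π j (mk A δ1 π)‖) hcx (a := 1 - A / 4 - δ1) (by
    intro p0
    refine ⟨2 ^ (p0 + 1), ?_, ?_⟩
    · exact (Nat.lt_two_pow_self (n := p0)).le.trans (Nat.pow_le_pow_right (by norm_num)
        (Nat.le_succ p0))
    intro ε hε
    obtain ⟨D0, hD0, hm⟩ := moments hν p0
    obtain ⟨C1', hC1⟩ := hY.2 (2 ^ p0) ε hε
    refine ⟨D0 * C1', fun π hπ x => ?_⟩
    have he := cur2_eta hπ
    have hlam : 0 < π.lam := hπ.1
    have hz0 : 0 < (zt ν s2 d π).im :=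
      lt_of_lt_of_le (by have := hν.s2_pos; positivity) (cur2_imz hν.s2_pos hL hπ)
    have hC1n := C1_n (RS_H0 d π.n) π.lam (z := π.z) he.ne' (NN d π.n (zt ν s2 d π) j (mk A δ1 π)) x
    have h1 := hm (Tor d π.n) _ _ hC1n
    have h2 : Ex ν (fun V : Tor d π.n → ℝ => (NN d π.n (zt ν s2 d π) j (mk A δ1 π) *
        (Gr (H0 d π.n) (fun x => π.lam * V x) π.z)ᴴ) x x) = nuu ν s2 d π j (mk A δ1 π) :=
      nuu_eq s2 π j (mk A δ1 π) x
    rw [h2] at h1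
    have hI := im_Gr_pos (RS_H0 d π.n) 0 hz0 0
    set rho2 : ℝ := (2 * kk A δ1 π) ^ 2 * ((Gr (H0 d π.n) 0 (zt ν s2 d π) 0 0).im /
      (zt ν s2 d π).im) with hrho2
    have hr0 : 0 ≤ rho2 := by positivity
    have hgrad : ∀ V : Tor d π.n → ℝ, ∑ v, ‖-(π.lam : ℂ) * (NN d π.n (zt ν s2 d π) j (mk A δ1 π) *
        (Gr (H0 d π.n) (fun x => π.lam * V x) π.z)ᴴ) x v *
        starRingEnd ℂ (Gr (H0 d π.n) (fun x => π.lam * V x) π.z x v)‖ ^ 2 ≤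
        cur2_c ν s2 d A δ1 π * (gq 2 d π V * gq 4 d π V ^ 2) := fun V => by
      have h3 := grad_n (RS_H0 d π.n) π.lam (z := π.z) he (NN d π.n (zt ν s2 d π) j (mk A δ1 π))
        (rho := √rho2) (Real.sqrt_nonneg _) (fun y => by
          rw [Real.sq_sqrt hr0]
          exact row_NN hz0 j (mk A δ1 π) y) x V
      refine h3.trans (le_of_eq ?_)
      rw [Real.sq_sqrt hr0, hrho2, cur2_c]
      change _ * _ * rowN 2 (GG d π.n π.lam π.z V) / π.eta * rowN 4 (GG d π.n π.lam π.z V) ^ 2 = _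
      rw [gq, gq]
      ring
    have hexp : ((2 ^ (p0 + 1) : ℕ) : ℝ) * (1 - A / 4 - δ1) - ε =
        ((2 ^ p0 : ℕ) : ℝ) * (2 * (1 - A / 4 - δ1)) - ε := by
      push_cast
      ring
    rw [hexp]
    have h4 := hC1 π hπ
    have h5 : Ex ν (fun V : Tor d π.n → ℝ => |‖(NN d π.n (zt ν s2 d π) j (mk A δ1 π) *
        (GG d π.n π.lam π.z V)ᴴ) x x - nuu ν s2 d π j (mk A δ1 π)‖| ^ 2 ^ (p0 + 1)) =
        Ex ν (fun V : Tor d π.n → ℝ => ‖(NN d π.n (zt ν s2 d π) j (mk A δ1 π) *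
        (Gr (H0 d π.n) (fun x => π.lam * V x) π.z)ᴴ) x x -
          nuu ν s2 d π j (mk A δ1 π)‖ ^ 2 ^ (p0 + 1)) := by
      congr 1
      funext V
      rw [abs_norm]
      rfl
    rw [h5]
    refine h1.trans ?_
    rw [mul_assoc]
    apply mul_le_mul_of_nonneg_left _ hD0.le
    refine le_trans ?_ h4
    apply Ex_mono hν
    · refine Continuous.pow (continuous_finsetSum _ fun u _ => ?_) _
      exact ((hC1n.cont' u).norm).pow 2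
    · exact ((hY.1 π hπ).abs).pow _
    · intro V
      apply pow_le_pow_left₀ (Finset.sum_nonneg fun _ _ => by positivity)
      exact (hgrad V).trans (le_abs_self _))
  refine Dom.mono hν hG hmain (fun π hπ => continuous_diagN _ (hcont π hπ)) (fun π hπ V => ?_)
  apply le_of_eq
  congr 1
  rw [diagN]
  simp only [abs_norm]

end Pool.Agent.BK
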