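import Pool.Agent.BK.Cur2
import Pool.Agent.BK.TorB

/-! BK module CUR3: the current estimate.

Write `g = gb`, `γ = Im ζ`, `k = kk`, `ν = nuu`, `ρ = E (tw u G Gᴴ)_00`, `q = ∑|M_0y|²(1 - cos kŷ_j)`,
`K` constants, `ε > 0` arbitrarily small. `|g| ≤ K lam^(-ε)` (`Dom.mean`), `s2 κ lam² ≤ γ ≤ K lam^(2-ε)`
(`η ≤ 2 lam^A`), `|M_00| ≤ K lam^(-ε)`. Exact identity (`cur_id`, expectation):
`2iη ρ - E j = 2i Im g`. `twi`: `E j = ν + lam² s2 ν ρ + err`. So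
`ρ (2iη - lam² s2 ν) = 2i Im g + ν + err`.
`ν = ν_M + ν'`, `ν_M = -2iγq` (`NN_M`), `|ν'| ≤ K k lam^(-A/2-ε)` (`nu_sub`, `rho ≤ K k lam^(-1-ε)`, `γ ≥ c lam²`,
`E[((xst + lam|g|ginf) rowN2)²]^{1/2} ≤ K lam^(1-A/2-ε)`), `|ν_M| ≤ 4 Im M_00 ≤ K lam^(-ε)`,
`q ≥ κ_F k²/γ³` (`FreeB.fb34`; `k ≤ κ_F γ`, `γ ≤ κ_F` for small `lam` since `1 + A/2 - δ1 > 2`), hence
`γ q ≥ κ_F k²/γ² ≥ |ν'|` for small `lam` and `|2iη - lam² s2 ν| ≥ lam² s2 γ q ≥ c lam² k²/γ²`.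
`err`: the five terms of `twi` are (`bN = 2k/γ`, exponents of `lam` up to `ε`):
`2 + (A/2-1-δ1) + 1 - A = 2 - A/2 - δ1`; the same; `3 - A`; `3 - A`; `2 + (1-A/4-δ1) - A = 3 - 5A/4 - δ1`
(`dom_nd`; `|n_x| ≤ |ν| + |n_x - ν|`), all positive. So `|2i Im g + ν + err| ≤ K lam^(-ε)` and
`η|ρ| ≤ K lam^(-ε) η γ²/(lam² k²) ≤ K lam^(A + 4 - 2 - (2 + A - 2δ1) - ε') = K lam^(2δ1 - ε') ≤ κ/20`.
Finally `E ∑ |G_0y|² (1 - cos kŷ_j) = Im g/η - Re ρ ≥ (19/20) Im g/η` (`ward`, `re_tw_mass`). -/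

open MeasureTheory Finset Matrix Filter Topology

noncomputable section

namespace Pool.Agent.BK

/-! ### Deterministic exponents with an arbitrarily small loss -/

/-- `f ≥ 0` and `f = O(lam^(a-))` on `S`. -/
def Cur3OB (S : Set Par) (f : Par → ℝ) (a : ℝ) : Prop :=
  (∀ π ∈ S, 0 ≤ f π) ∧ ∀ ε : ℝ, 0 < ε → ∃ K : ℝ, 0 < K ∧ ∀ π ∈ S, f π ≤ K * π.lam ^ (a - ε)

section OB

variable {S : Set Par} {f g : Par → ℝ} {a b : ℝ}

lemma Cur3OB.exp (hf : Cur3OB S f a) (h : a = b) : Cur3OB S f b := h ▸ hf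

lemma Cur3OB.nonneg (hf : Cur3OB S f a) {π : Par} (hπ : π ∈ S) : 0 ≤ f π := hf.1 π hπ

lemma Cur3OB.mono (hf : Cur3OB S f a) (h0 : ∀ π ∈ S, 0 ≤ g π) (h : ∀ π ∈ S, g π ≤ f π) :
    Cur3OB S g a :=
  ⟨h0, fun ε hε => by
    obtain ⟨K, hK, hb⟩ := hf.2 ε hε
    exact ⟨K, hK, fun π hπ => (h π hπ).trans (hb π hπ)⟩⟩

lemma Cur3OB.weaken (hS : Good S) (hf : Cur3OB S f a) (hb : b ≤ a) : Cur3OB S f b :=
  ⟨hf.1, fun ε hε => by
    obtain ⟨K, hK, hb'⟩ := hf.2 ε hε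
    refine ⟨K, hK, fun π hπ => (hb' π hπ).trans ?_⟩
    exact mul_le_mul_of_nonneg_left
      (Real.rpow_le_rpow_of_exponent_ge (hS π hπ).1 (hS π hπ).2 (by linarith)) hK.le⟩

lemma Cur3OB.mul (hS : Good S) (hf : Cur3OB S f a) (hg : Cur3OB S g b) :
    Cur3OB S (fun π => f π * g π) (a + b) :=
  ⟨fun π hπ => mul_nonneg (hf.1 π hπ) (hg.1 π hπ), fun ε hε => by
    obtain ⟨K, hK, h1⟩ := hf.2 (ε / 2) (by positivity)
    obtain ⟨L, hL, h2⟩ := hg.2 (ε / 2) (by positivity)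
    refine ⟨K * L, mul_pos hK hL, fun π hπ => ?_⟩
    have hl := (hS π hπ).1
    calc f π * g π ≤ (K * π.lam ^ (a - ε / 2)) * (L * π.lam ^ (b - ε / 2)) :=
          mul_le_mul (h1 π hπ) (h2 π hπ) (hg.1 π hπ) (by positivity)
      _ = K * L * (π.lam ^ (a - ε / 2) * π.lam ^ (b - ε / 2)) := by ring
      _ = K * L * π.lam ^ (a + b - ε) := by
          rw [← Real.rpow_add hl]; congr 2; ring⟩

lemma Cur3OB.add (hf : Cur3OB S f a) (hg : Cur3OB S g a) :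
    Cur3OB S (fun π => f π + g π) a :=
  ⟨fun π hπ => add_nonneg (hf.1 π hπ) (hg.1 π hπ), fun ε hε => by
    obtain ⟨K, hK, h1⟩ := hf.2 ε hε
    obtain ⟨L, hL, h2⟩ := hg.2 ε hε
    refine ⟨K + L, add_pos hK hL, fun π hπ => ?_⟩
    rw [add_mul]
    exact add_le_add (h1 π hπ) (h2 π hπ)⟩

lemma Cur3OB.const_mul {c : ℝ} (hc : 0 ≤ c) (hf : Cur3OB S f a) :
    Cur3OB S (fun π => c * f π) a :=
  ⟨fun π hπ => mul_nonneg hc (hf.1 π hπ), fun ε hε => by
    obtain ⟨K, hK, h1⟩ := hf.2 ε hε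
    refine ⟨(c + 1) * K, by positivity, fun π hπ => ?_⟩
    have h2 : 0 ≤ f π := hf.1 π hπ
    calc c * f π ≤ (c + 1) * f π := by nlinarith
      _ ≤ (c + 1) * (K * π.lam ^ (a - ε)) :=
          mul_le_mul_of_nonneg_left (h1 π hπ) (by positivity)
      _ = _ := by ring⟩

lemma Cur3OB.of_le (hS : Good S) {K : ℝ} (hK : 0 < K) (h0 : ∀ π ∈ S, 0 ≤ f π)
    (h : ∀ π ∈ S, f π ≤ K * π.lam ^ a) : Cur3OB S f a :=
  ⟨h0, fun ε hε => ⟨K, hK, fun π hπ => (h π hπ).trans (mul_le_mul_of_nonneg_left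
      (Real.rpow_le_rpow_of_exponent_ge (hS π hπ).1 (hS π hπ).2 (by linarith)) hK.le)⟩⟩

lemma Cur3OB.sqrt (hS : Good S) (hf : Cur3OB S f a) : Cur3OB S (fun π => √(f π)) (a / 2) :=
  ⟨fun π _ => Real.sqrt_nonneg _, fun ε hε => by
    obtain ⟨K, hK, h1⟩ := hf.2 (2 * ε) (by positivity)
    refine ⟨√K, Real.sqrt_pos.2 hK, fun π hπ => ?_⟩
    have hl := (hS π hπ).1
    have h2 : π.lam ^ (a - 2 * ε) = (π.lam ^ (a / 2 - ε)) ^ 2 := by
      rw [← Real.rpow_natCast, ← Real.rpow_mul hl.le]; congr 1; push_cast; ring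
    calc √(f π) ≤ √(K * π.lam ^ (a - 2 * ε)) := Real.sqrt_le_sqrt (h1 π hπ)
      _ = √K * π.lam ^ (a / 2 - ε) := by
          rw [Real.sqrt_mul hK.le, h2, Real.sqrt_sq (by positivity)]⟩

lemma Cur3OB.sq' (hS : Good S) (hf : Cur3OB S f a) : Cur3OB S (fun π => f π ^ 2) (2 * a) := by
  have h := hf.mul hS hf
  rw [two_mul]
  exact h.mono (fun π _ => sq_nonneg _) (fun π _ => (sq (f π)).le)

/-- A quantity with a positive exponent is small for small `lam`. -/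
lemma Cur3OB.small (hS : Good S) (hf : Cur3OB S f a) (ha : 0 < a) {c : ℝ} (hc : 0 < c) :
    ∀ᶠ l in 𝓝[>] (0 : ℝ), ∀ π ∈ S, π.lam ≤ l → f π ≤ c := by
  obtain ⟨K, hK, h1⟩ := hf.2 (a / 2) (by positivity)
  have h2 : Tendsto (fun l : ℝ => K * l ^ (a / 2)) (𝓝[>] 0) (𝓝 0) := by
    have h3 : Tendsto (fun l : ℝ => K * l ^ (a / 2)) (𝓝 0) (𝓝 (K * 0 ^ (a / 2))) :=
      ((Real.continuousAt_rpow_const 0 (a / 2) (Or.inr (by positivity))).tendsto).const_mul K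
    rw [Real.zero_rpow (by positivity), mul_zero] at h3
    exact h3.mono_left nhdsWithin_le_nhds
  filter_upwards [h2.eventually (gt_mem_nhds hc), self_mem_nhdsWithin] with l hl hl0 π hπ hle
  have hl0' : 0 < l := hl0
  calc f π ≤ K * π.lam ^ (a - a / 2) := h1 π hπ
    _ ≤ K * l ^ (a / 2) := by
        have : a - a / 2 = a / 2 := by ring
        rw [this]
        exact mul_le_mul_of_nonneg_left
          (Real.rpow_le_rpow (hS π hπ).1.le hle (by positivity)) hK.le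
    _ ≤ c := hl.le

end OB

section Expect

variable {ν : Measure ℝ} {R s2 C : ℝ} {τ τ' : ℝ → ℝ} {d : ℕ} {S : Set Par} {a b : ℝ}

lemma cur3_Ex_nonneg {X : Type} [Fintype X] {F : (X → ℝ) → ℝ} (h : ∀ V, 0 ≤ F V) :
    0 ≤ Ex ν F := integral_nonneg h

lemma Cur3OB.of_dom (hν : NiceLaw ν R s2 C τ τ') (hS : Good S)
    {F : (π : Par) → (Tor d π.n → ℝ) → ℝ} (hF : Dom ν d S F a) (h0 : ∀ π V, 0 ≤ F π V) :
    Cur3OB S (fun π => Ex ν (F π)) a :=
  ⟨fun π _ => cur3_Ex_nonneg (h0 π), fun ε hε => by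
    obtain ⟨K, hK, h⟩ := Dom.mean hν hS hF hε
    refine ⟨K, hK, fun π hπ => ?_⟩
    have h1 : (fun V => |F π V|) = F π := funext fun V => abs_of_nonneg (h0 π V)
    have h2 := h π hπ
    rwa [h1] at h2⟩

end Expect

/-! ### Continuity -/

lemma cur3_continuous_tw {X Y : Type} [Fintype X] [DecidableEq X] [TopologicalSpace Y]
    (u : X → ℂ) {A : Y → Matrix X X ℂ} (hA : Continuous A) : Continuous fun V => tw u (A V) := by
  refine continuous_matrix fun i j => ?_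
  exact ((continuous_const.mul (hA.matrix_elem i j)).mul continuous_const)

lemma cur3_continuous_GG (d n : ℕ) (lam : ℝ) {z : ℂ} (hz : z.im ≠ 0) :
    Continuous fun V : Tor d n → ℝ => GG d n lam z V :=
  continuous_Gr (RS_H0 d n) lam hz

/-! ### The exact identity in the mean -/

lemma cur3_identity {ν : Measure ℝ} {R s2 C : ℝ} {τ τ' : ℝ → ℝ} (hν : NiceLaw ν R s2 C τ τ')
    {d : ℕ} (π : Par) (hη : 0 < π.eta) (j : Fin d) (m : ℕ) :
    2 * Complex.I * π.eta * Ex ν (fun V : Tor d π.n → ℝ =>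
        (tw (up j m) (GG d π.n π.lam π.z V) * (GG d π.n π.lam π.z V)ᴴ) 0 0) -
      Ex ν (fun V : Tor d π.n → ℝ => (tw (up j m) (GG d π.n π.lam π.z V) *
        (tw (up j m) (H0 d π.n) - H0 d π.n) * (GG d π.n π.lam π.z V)ᴴ) 0 0) =
      2 * Complex.I * (gb ν d π).im := by
  have hz : 0 < π.z.im := hη
  have hz0 : π.z.im ≠ 0 := hz.ne'
  have hc := cur3_continuous_GG d π.n π.lam hz0
  have hct := cur3_continuous_tw (up j m) hc
  have i1 : Integrable (fun V : Tor d π.n → ℝ =>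
      (tw (up j m) (GG d π.n π.lam π.z V) * (GG d π.n π.lam π.z V)ᴴ) 0 0)
      (Measure.pi fun _ : Tor d π.n => ν) :=
    integrable_cont hν ((hct.matrix_mul hc.matrix_conjTranspose).matrix_elem 0 0)
  have i2 : Integrable (fun V : Tor d π.n → ℝ => (tw (up j m) (GG d π.n π.lam π.z V) *
        (tw (up j m) (H0 d π.n) - H0 d π.n) * (GG d π.n π.lam π.z V)ᴴ) 0 0)
      (Measure.pi fun _ : Tor d π.n => ν) :=
    integrable_cont hν (((hct.matrix_mul continuous_const).matrix_mul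
      hc.matrix_conjTranspose).matrix_elem 0 0)
  have i3 : Integrable (fun V : Tor d π.n → ℝ => GG d π.n π.lam π.z V 0 0)
      (Measure.pi fun _ : Tor d π.n => ν) := integrable_cont hν (hc.matrix_elem 0 0)
  have key : ∀ V : Tor d π.n → ℝ,
      2 * Complex.I * π.eta * (tw (up j m) (GG d π.n π.lam π.z V) *
        (GG d π.n π.lam π.z V)ᴴ) 0 0 - (tw (up j m) (GG d π.n π.lam π.z V) *
        (tw (up j m) (H0 d π.n) - H0 d π.n) * (GG d π.n π.lam π.z V)ᴴ) 0 0 =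
      2 * Complex.I * ((GG d π.n π.lam π.z V 0 0).im : ℂ) := fun V =>
    cur_id (RS_H0 d π.n) (fun x => π.lam * V x) hz (norm_up j m) 0
  have h1 : ∫ V : Tor d π.n → ℝ, (2 * Complex.I * π.eta *
      (tw (up j m) (GG d π.n π.lam π.z V) * (GG d π.n π.lam π.z V)ᴴ) 0 0 -
      (tw (up j m) (GG d π.n π.lam π.z V) *
        (tw (up j m) (H0 d π.n) - H0 d π.n) * (GG d π.n π.lam π.z V)ᴴ) 0 0)
      ∂(Measure.pi fun _ : Tor d π.n => ν) =
      ∫ V : Tor d π.n → ℝ, 2 * Complex.I * ((GG d π.n π.lam π.z V 0 0).im : ℂ)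
      ∂(Measure.pi fun _ : Tor d π.n => ν) := by
    congr 1; funext V; exact key V
  rw [integral_sub (i1.const_mul _) i2, integral_const_mul, integral_const_mul] at h1
  have h2 : ∫ V : Tor d π.n → ℝ, ((GG d π.n π.lam π.z V 0 0).im : ℂ)
      ∂(Measure.pi fun _ : Tor d π.n => ν) = ((gb ν d π).im : ℂ) := by
    rw [integral_complex_ofReal]
    congr 1
    exact integral_im i3
  rw [h2] at h1
  exact h1

/-- The twisted mass. -/
lemma cur3_mass {ν : Measure ℝ} {R s2 C : ℝ} {τ τ' : ℝ → ℝ} (hν : NiceLaw ν R s2 C τ τ')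
    {d : ℕ} (π : Par) (hη : 0 < π.eta) (j : Fin d) (m : ℕ) :
    Ex ν (fun V : Tor d π.n → ℝ => ∑ y, ‖GG d π.n π.lam π.z V 0 y‖ ^ 2 *
        (1 - Real.cos (kof π.n m * ((y j).valMinAbs : ℝ)))) =
      (gb ν d π).im / π.eta - (Ex ν (fun V : Tor d π.n → ℝ =>
        (tw (up j m) (GG d π.n π.lam π.z V) * (GG d π.n π.lam π.z V)ᴴ) 0 0)).re := by
  have hz : 0 < π.z.im := hη
  have hz0 : π.z.im ≠ 0 := hz.ne'
  have hc := cur3_continuous_GG d π.n π.lam hz0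
  have hct := cur3_continuous_tw (up j m) hc
  have i1 : Integrable (fun V : Tor d π.n → ℝ =>
      (tw (up j m) (GG d π.n π.lam π.z V) * (GG d π.n π.lam π.z V)ᴴ) 0 0)
      (Measure.pi fun _ : Tor d π.n => ν) :=
    integrable_cont hν ((hct.matrix_mul hc.matrix_conjTranspose).matrix_elem 0 0)
  have i3 : Integrable (fun V : Tor d π.n → ℝ => GG d π.n π.lam π.z V 0 0)
      (Measure.pi fun _ : Tor d π.n => ν) := integrable_cont hν (hc.matrix_elem 0 0)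
  have key : ∀ V : Tor d π.n → ℝ, ∑ y, ‖GG d π.n π.lam π.z V 0 y‖ ^ 2 *
        (1 - Real.cos (kof π.n m * ((y j).valMinAbs : ℝ))) =
      (GG d π.n π.lam π.z V 0 0).im * π.eta⁻¹ -
        ((tw (up j m) (GG d π.n π.lam π.z V) * (GG d π.n π.lam π.z V)ᴴ) 0 0).re := by
    intro V
    have hw := ward (RS_H0 d π.n) (fun x => π.lam * V x) hz 0
    rw [re_tw_mass]
    have e1 : (GG d π.n π.lam π.z V 0 0).im * π.eta⁻¹ = ∑ y, ‖GG d π.n π.lam π.z V 0 y‖ ^ 2 := by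
      rw [← div_eq_mul_inv]; exact hw.symm
    rw [e1, ← Finset.sum_sub_distrib]
    exact Finset.sum_congr rfl fun y _ => by ring
  have h1 : Ex ν (fun V : Tor d π.n → ℝ => ∑ y, ‖GG d π.n π.lam π.z V 0 y‖ ^ 2 *
        (1 - Real.cos (kof π.n m * ((y j).valMinAbs : ℝ)))) =
      ∫ V : Tor d π.n → ℝ, ((GG d π.n π.lam π.z V 0 0).im * π.eta⁻¹ -
        ((tw (up j m) (GG d π.n π.lam π.z V) * (GG d π.n π.lam π.z V)ᴴ) 0 0).re)
      ∂(Measure.pi fun _ : Tor d π.n => ν) := by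
    unfold Ex
    congr 1; funext V; exact key V
  have j1 : Integrable (fun V : Tor d π.n → ℝ => (GG d π.n π.lam π.z V 0 0).im)
      (Measure.pi fun _ : Tor d π.n => ν) := i3.im
  have j2 : Integrable (fun V : Tor d π.n → ℝ =>
      ((tw (up j m) (GG d π.n π.lam π.z V) * (GG d π.n π.lam π.z V)ᴴ) 0 0).re)
      (Measure.pi fun _ : Tor d π.n => ν) := i1.re
  rw [h1, integral_sub (j1.mul_const _) j2, integral_mul_const, div_eq_mul_inv]
  congr 1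
  · congr 1
    exact integral_im i3
  · exact integral_re i1


/-! ### The integration by parts on the torus -/

lemma cur3_twi {ν : Measure ℝ} {R s2 C : ℝ} {τ τ' : ℝ → ℝ} (hν : NiceLaw ν R s2 C τ τ')
    {d : ℕ} (π : Par) (hlam : 0 < π.lam) (hη : 0 < π.eta) (hζ : 0 < (zt ν s2 d π).im)
    (j : Fin d) (m : ℕ) :
    ‖Ex ν (fun V : Tor d π.n → ℝ => (tw (up j m) (GG d π.n π.lam π.z V) *
        (tw (up j m) (H0 d π.n) - H0 d π.n) * (GG d π.n π.lam π.z V)ᴴ) 0 0) - nuu ν s2 d π j m -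
      ((π.lam ^ 2 * s2 : ℝ) : ℂ) * nuu ν s2 d π j m * Ex ν (fun V : Tor d π.n → ℝ =>
        (tw (up j m) (GG d π.n π.lam π.z V) * (GG d π.n π.lam π.z V)ᴴ) 0 0)‖ ≤
      C * π.lam ^ 2 * (2 * kof π.n m / (zt ν s2 d π).im) *
        Ex ν (fun V : Tor d π.n → ℝ => xst ν d π V * gq 2 d π V ^ 2) +
      C * π.lam ^ 3 * ‖gb ν d π‖ * (2 * kof π.n m / (zt ν s2 d π).im) *
        Ex ν (fun V : Tor d π.n → ℝ => ginf d π V * gq 2 d π V ^ 2) +
      C * π.lam ^ 3 * ‖gb ν d π‖ * Ex ν (fun V : Tor d π.n → ℝ =>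
        diagN (NN d π.n (zt ν s2 d π) j m * (GG d π.n π.lam π.z V)ᴴ) 0 * gq 2 d π V ^ 2) +
      2 * C * π.lam ^ 3 * ‖nuu ν s2 d π j m‖ *
        Ex ν (fun V : Tor d π.n → ℝ => ginf d π V * gq 2 d π V ^ 2) +
      C * π.lam ^ 2 * Ex ν (fun V : Tor d π.n → ℝ =>
        diagN (NN d π.n (zt ν s2 d π) j m * (GG d π.n π.lam π.z V)ᴴ) (nuu ν s2 d π j m) *
          gq 2 d π V ^ 2) := by
  have := hν.prob
  have hz : 0 < π.z.im := hη
  have hk : 0 ≤ kof π.n m := by unfold kof; positivity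
  exact twi hν (RS_H0 d π.n) hlam (z := π.z) (g := gb ν d π) hz
    (fun x => Ex_diag ν π.lam π.z x) hζ (norm_up j m) (NN d π.n (zt ν s2 d π) j m) rfl
    (bN := 2 * kof π.n m / (zt ν s2 d π).im) (by positivity) (nsq_NN hζ j m)
    (nuu_eq s2 π j m) 0

lemma cur3_nu_sub {ν : Measure ℝ} {R s2 C : ℝ} {τ τ' : ℝ → ℝ} (hν : NiceLaw ν R s2 C τ τ')
    {d : ℕ} (π : Par) (hlam : 0 < π.lam) (hη : 0 < π.eta) (hζ : 0 < (zt ν s2 d π).im)
    (j : Fin d) (m : ℕ) :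
    ‖nuu ν s2 d π j m - (NN d π.n (zt ν s2 d π) j m * (MM ν s2 d π.n π.lam π.z)ᴴ) 0 0‖ ≤
      2 * kof π.n m * √((MM ν s2 d π.n π.lam π.z 0 0).im / (zt ν s2 d π).im) /
        (zt ν s2 d π).im * (C * π.lam ^ 2 * √(Ex ν (fun V : Tor d π.n → ℝ =>
          ((xst ν d π V + π.lam * ‖gb ν d π‖ * ginf d π V) * gq 2 d π V) ^ 2))) := by
  have := hν.prob
  have hz : 0 < π.z.im := hη
  have hk : 0 ≤ kof π.n m := by unfold kof; positivity
  have hM : 0 < (MM ν s2 d π.n π.lam π.z 0 0).im := im_Gr_pos (RS_H0 d π.n) 0 hζ 0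
  refine nu_sub hν (RS_H0 d π.n) hlam (z := π.z) (g := gb ν d π) hz
    (fun x => Ex_diag ν π.lam π.z x) hζ (NN d π.n (zt ν s2 d π) j m)
    (rho := 2 * kof π.n m * √((MM ν s2 d π.n π.lam π.z 0 0).im / (zt ν s2 d π).im))
    (by positivity) (fun x => ?_) 0
  rw [mul_pow, Real.sq_sqrt (by positivity)]
  exact row_NN hζ j m x

/-- Bound of the square mean in `cur3_nu_sub`. -/
lemma cur3_sq {ν : Measure ℝ} {R s2 C : ℝ} {τ τ' : ℝ → ℝ} (hν : NiceLaw ν R s2 C τ τ')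
    {d : ℕ} (π : Par) (hη : 0 < π.eta) :
    Ex ν (fun V : Tor d π.n → ℝ =>
          ((xst ν d π V + π.lam * ‖gb ν d π‖ * ginf d π V) * gq 2 d π V) ^ 2) ≤
      2 * Ex ν (fun V : Tor d π.n → ℝ => (xst ν d π V * gq 2 d π V) ^ 2) +
      2 * (π.lam ^ 2 * ‖gb ν d π‖ ^ 2 *
        Ex ν (fun V : Tor d π.n → ℝ => (ginf d π V * gq 2 d π V) ^ 2)) := by
  have hz : 0 < π.z.im := hη
  have hz0 : π.z.im ≠ 0 := hz.ne'
  have hc := cur3_continuous_GG d π.n π.lam hz0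
  have c1 : Continuous (xst ν d π) := continuous_diagN _ hc
  have c2 : Continuous (ginf d π) := continuous_supN hc
  have c3 : Continuous (gq 2 d π) := continuous_rowN 2 hc
  have i1 : Integrable (fun V : Tor d π.n → ℝ => (xst ν d π V * gq 2 d π V) ^ 2)
      (Measure.pi fun _ : Tor d π.n => ν) := integrable_cont hν ((c1.mul c3).pow 2)
  have i2 : Integrable (fun V : Tor d π.n → ℝ => (ginf d π V * gq 2 d π V) ^ 2)
      (Measure.pi fun _ : Tor d π.n => ν) := integrable_cont hν ((c2.mul c3).pow 2)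
  have h1 : Ex ν (fun V : Tor d π.n → ℝ =>
          ((xst ν d π V + π.lam * ‖gb ν d π‖ * ginf d π V) * gq 2 d π V) ^ 2) ≤
      Ex ν (fun V : Tor d π.n → ℝ => 2 * (xst ν d π V * gq 2 d π V) ^ 2 +
        2 * (π.lam ^ 2 * ‖gb ν d π‖ ^ 2) * (ginf d π V * gq 2 d π V) ^ 2) := by
    refine Ex_mono hν (((c1.add (continuous_const.mul c2)).mul c3).pow 2)
      ((continuous_const.mul ((c1.mul c3).pow 2)).add
        (continuous_const.mul ((c2.mul c3).pow 2))) fun V => ?_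
    nlinarith [sq_nonneg (xst ν d π V * gq 2 d π V -
      π.lam * ‖gb ν d π‖ * ginf d π V * gq 2 d π V)]
  refine h1.trans (le_of_eq ?_)
  unfold Ex
  rw [integral_add (i1.const_mul _) (i2.const_mul _), integral_const_mul, integral_const_mul]
  ring

/-- The algebra of the final step. -/
lemma cur3_alg {ρ J nu numn : ℂ} {η y s q e : ℝ} (hη : 0 ≤ η) (hs : 0 ≤ s)
    (h1 : 2 * Complex.I * η * ρ - J = 2 * Complex.I * y)
    (h2 : ‖J - nu - (s : ℂ) * nu * ρ‖ ≤ e)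
    (h3 : numn = -2 * Complex.I * q) (h4 : ‖nu - numn‖ ≤ q) :
    s * q * ‖ρ‖ ≤ 2 * |y| + ‖nu‖ + e := by
  have e1 : ρ * (2 * Complex.I * η - s * nu) =
      2 * Complex.I * y + nu + (J - nu - (s : ℂ) * nu * ρ) := by
    linear_combination h1
  have e2 : s * q ≤ ‖2 * Complex.I * η - s * nu‖ := by
    have e3 : (2 * Complex.I * (η : ℂ) - s * nu).im = 2 * η - s * nu.im := by
      simp
    have e4 : (nu - numn).im = nu.im + 2 * q := by
      rw [h3]; simp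
    have e5 : |(nu - numn).im| ≤ q := (Complex.abs_im_le_norm _).trans h4
    rw [e4] at e5
    have e6 := (abs_le.1 e5).2
    calc s * q ≤ 2 * η - s * nu.im := by nlinarith
      _ ≤ |2 * η - s * nu.im| := le_abs_self _
      _ = |(2 * Complex.I * (η : ℂ) - s * nu).im| := by rw [e3]
      _ ≤ _ := Complex.abs_im_le_norm _
  calc s * q * ‖ρ‖ ≤ ‖2 * Complex.I * η - s * nu‖ * ‖ρ‖ :=
        mul_le_mul_of_nonneg_right e2 (norm_nonneg _)
    _ = ‖ρ * (2 * Complex.I * η - s * nu)‖ := by rw [norm_mul, mul_comm]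
    _ = ‖2 * Complex.I * y + nu + (J - nu - (s : ℂ) * nu * ρ)‖ := by rw [e1]
    _ ≤ ‖2 * Complex.I * (y : ℂ)‖ + ‖nu‖ + ‖J - nu - (s : ℂ) * nu * ρ‖ := norm_add₃_le
    _ ≤ 2 * |y| + ‖nu‖ + e := by
        have : ‖2 * Complex.I * (y : ℂ)‖ = 2 * |y| := by simp
        rw [this]; linarith

/-! ### The main estimate -/

theorem current {ν : Measure ℝ} {R s2 C : ℝ} {τ τ' : ℝ → ℝ} (hν : NiceLaw ν R s2 C τ τ')
    {d : ℕ} {lo' hi' : ℝ} (hF : FreeB d lo' hi') {lo hi lam0 A e2 δ1 κ : ℝ}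
    (hl0 : 0 < lam0) (hl : lam0 ≤ 1 / 2) (hA2 : 2 < A) (hA : A < 12 / 5) (hδ1 : 0 < δ1)
    (hδ2 : 2 + 2 * δ1 < A) (hδ3 : 5 / 4 * A + δ1 < 3) (hκ : 0 < κ)
    (hL : LocL ν d (PS lo hi lam0 A e2) κ)
    (hZ : Zok ν s2 d lo' hi' 1 (1 / 20) (PS lo hi lam0 A e2)) :
    ∃ lam1 : ℝ, 0 < lam1 ∧ lam1 ≤ lam0 ∧ ∀ π ∈ PS lo hi lam1 A e2, π.eta ≤ 2 * π.lam ^ A →
      ∀ j : Fin d, 19 / 20 * ((gb ν d π).im / π.eta) ≤ Ex ν (fun V : Tor d π.n → ℝ =>
        ∑ y, ‖GG d π.n π.lam π.z V 0 y‖ ^ 2 *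
          (1 - Real.cos (kk A δ1 π * ((y j).valMinAbs : ℝ)))) := by
  have hprob := hν.prob
  have hC := hν.C_pos
  have hs2 := hν.s2_pos
  -- the parameter set
  let S : Set Par := {π | π ∈ PS lo hi lam0 A e2 ∧ π.eta ≤ 2 * π.lam ^ A}
  have hsub : S ⊆ PS lo hi lam0 A e2 := fun π h => h.1
  have hlam : ∀ π ∈ S, 0 < π.lam := fun π hπ => hπ.1.1
  have hlam1 : ∀ π ∈ S, π.lam ≤ 1 := fun π hπ => hπ.1.2.1.trans (by linarith)
  have hS : Good S := fun π hπ => ⟨hlam π hπ, hlam1 π hπ⟩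
  have hηl : ∀ π ∈ S, π.lam ^ A ≤ π.eta := fun π hπ => hπ.1.2.2.2.2.2.2.1
  have hη : ∀ π ∈ S, 0 < π.eta := fun π hπ =>
    (Real.rpow_pos_of_pos (hlam π hπ) _).trans_le (hηl π hπ)
  have hN : ∀ π ∈ S, π.lam ^ (-(40 : ℝ)) ≤ 2 * (π.n : ℝ) + 1 := fun π hπ => hπ.1.2.2.1
  have hγeq : ∀ π, (zt ν s2 d π).im = π.eta + π.lam ^ 2 * s2 * (gb ν d π).im := by
    intro π
    have : zt ν s2 d π = π.z + ((π.lam ^ 2 * s2 : ℝ) : ℂ) * gb ν d π := rfl
    rw [this, Complex.add_im, Complex.im_ofReal_mul]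
    rfl
  have hgim : ∀ π ∈ S, κ ≤ (gb ν d π).im := fun π hπ => hL.im π (hsub hπ)
  have hγl : ∀ π ∈ S, s2 * κ * π.lam ^ 2 ≤ (zt ν s2 d π).im := by
    intro π hπ
    rw [hγeq]
    have h1 := hgim π hπ
    have h2 := hη π hπ
    have h3 : π.lam ^ 2 * s2 * κ ≤ π.lam ^ 2 * s2 * (gb ν d π).im :=
      mul_le_mul_of_nonneg_left h1 (by positivity)
    nlinarith
  have hγ0 : ∀ π ∈ S, 0 < (zt ν s2 d π).im := fun π hπ =>
    lt_of_lt_of_le (by have := hlam π hπ; positivity) (hγl π hπ)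
  have hγ1 : ∀ π ∈ S, (zt ν s2 d π).im ≤ 1 := fun π hπ => hZ.im_hi π (hsub hπ)
  have hγN : ∀ π ∈ S, (zt ν s2 d π).im ^ (-(10 : ℝ)) ≤ 2 * (π.n : ℝ) + 1 := by
    intro π hπ
    have h1 := hZ.im_lo π (hsub hπ)
    have h2 := hlam π hπ
    calc (zt ν s2 d π).im ^ (-(10 : ℝ)) ≤ (π.lam ^ ((2 : ℝ) + 2 * (1 / 20))) ^ (-(10 : ℝ)) :=
          Real.rpow_le_rpow_of_nonpos (Real.rpow_pos_of_pos h2 _) h1 (by norm_num)
      _ = π.lam ^ (-(21 : ℝ)) := by
          rw [← Real.rpow_mul h2.le]; norm_num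
      _ ≤ π.lam ^ (-(40 : ℝ)) :=
          Real.rpow_le_rpow_of_exponent_ge h2 (hlam1 π hπ) (by norm_num)
      _ ≤ _ := hN π hπ
  obtain ⟨κF, hκF0, hκF1, hfb⟩ := hF.fb34
  -- deterministic exponents
  let e : ℝ := 1 + A / 2 - δ1
  have hkb : ∀ π ∈ S, π.lam ^ e ≤ kk A δ1 π ∧ kk A δ1 π ≤ 2 * π.lam ^ e := fun π hπ =>
    kk_bounds hl (by linarith) hA2.le hδ1.le (by linarith) (hsub hπ)
  have hk0 : ∀ π ∈ S, 0 < kk A δ1 π := fun π hπ =>
    (Real.rpow_pos_of_pos (hlam π hπ) _).trans_le (hkb π hπ).1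
  have ok : Cur3OB S (fun π => kk A δ1 π) e :=
    Cur3OB.of_le hS two_pos (fun π hπ => (hk0 π hπ).le) fun π hπ => (hkb π hπ).2
  have oki : Cur3OB S (fun π => (kk A δ1 π)⁻¹) (-e) :=
    Cur3OB.of_le hS one_pos (fun π hπ => (inv_pos.2 (hk0 π hπ)).le) fun π hπ => by
      rw [one_mul, Real.rpow_neg (hlam π hπ).le]
      exact inv_anti₀ (Real.rpow_pos_of_pos (hlam π hπ) _) (hkb π hπ).1
  have oη : Cur3OB S (fun π => π.eta) A :=
    Cur3OB.of_le hS two_pos (fun π hπ => (hη π hπ).le) fun π hπ => hπ.2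
  have ol2 : Cur3OB S (fun π => π.lam ^ 2) 2 :=
    Cur3OB.of_le hS one_pos (fun π _ => by positivity) fun π _ => by
      rw [one_mul, Real.rpow_two]
  have ol3 : Cur3OB S (fun π => π.lam ^ 3) 3 :=
    Cur3OB.of_le hS one_pos (fun π hπ => by have := hlam π hπ; positivity) fun π _ => by
      rw [one_mul, ← Real.rpow_natCast]; norm_num
  have oli2 : Cur3OB S (fun π => (π.lam ^ 2)⁻¹) (-2) :=
    Cur3OB.of_le hS one_pos (fun π _ => by positivity) fun π hπ => by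
      rw [one_mul, Real.rpow_neg (hlam π hπ).le, Real.rpow_two]
  -- E|G_00|
  have hcont : ∀ π ∈ S, Continuous fun V : Tor d π.n → ℝ => GG d π.n π.lam π.z V := fun π hπ =>
    cur3_continuous_GG d π.n π.lam (ne_of_gt (hη π hπ) : π.z.im ≠ 0)
  have dginf : Dom ν d S (ginf d) 0 := Dom.subset hsub hL.ginf
  have dxst : Dom ν d S (xst ν d) 1 := Dom.subset hsub hL.xst
  have og : Cur3OB S (fun π => ‖gb ν d π‖) 0 := by
    refine (Cur3OB.of_dom hν hS dginf fun π V => supN_nonneg _).mono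
      (fun π _ => norm_nonneg _) fun π hπ => ?_
    have hc := hcont π hπ
    calc ‖gb ν d π‖ ≤ Ex ν (fun V : Tor d π.n → ℝ => ‖GG d π.n π.lam π.z V 0 0‖) :=
          norm_integral_le_integral_norm _
      _ ≤ Ex ν (ginf d π) := Ex_mono hν (hc.matrix_elem 0 0).norm (continuous_supN hc)
          fun V => norm_le_supN _ 0 0
  have oγ : Cur3OB S (fun π => (zt ν s2 d π).im) 2 := by
    have h1 : Cur3OB S (fun π => s2 * (π.lam ^ 2 * ‖gb ν d π‖)) 2 :=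
      ((ol2.mul hS og).const_mul hs2.le).exp (by ring)
    refine ((oη.weaken hS hA2.le).add h1).mono (fun π hπ => (hγ0 π hπ).le) fun π hπ => ?_
    have h2 : (gb ν d π).im ≤ ‖gb ν d π‖ := (le_abs_self _).trans (Complex.abs_im_le_norm _)
    have h3 : π.lam ^ 2 * s2 * (gb ν d π).im ≤ π.lam ^ 2 * s2 * ‖gb ν d π‖ :=
      mul_le_mul_of_nonneg_left h2 (by positivity)
    show (zt ν s2 d π).im ≤ π.eta + s2 * (π.lam ^ 2 * ‖gb ν d π‖)
    rw [hγeq]
    linarith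
  have oγi : Cur3OB S (fun π => ((zt ν s2 d π).im)⁻¹) (-2) := by
    refine Cur3OB.of_le hS (K := (s2 * κ)⁻¹) (by positivity)
      (fun π hπ => (inv_pos.2 (hγ0 π hπ)).le) fun π hπ => ?_
    have h1 := hlam π hπ
    rw [Real.rpow_neg h1.le, Real.rpow_two, ← mul_inv]
    exact inv_anti₀ (by positivity) (hγl π hπ)
  -- the free resolvent on the diagonal
  have hM0 : ∀ π ∈ S, 0 < (MM ν s2 d π.n π.lam π.z 0 0).im := fun π hπ =>
    im_Gr_pos (RS_H0 d π.n) 0 (hγ0 π hπ) 0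
  have oM : Cur3OB S (fun π => (MM ν s2 d π.n π.lam π.z 0 0).im) 0 := by
    refine ⟨fun π hπ => (hM0 π hπ).le, fun ε hε => ?_⟩
    obtain ⟨K, hK, h12⟩ := hF.fb12 (ε / 2) (by positivity)
    refine ⟨1 + K * (s2 * κ) ^ (-(ε / 2)), by positivity, fun π hπ => ?_⟩
    have h1 := (h12 (zt ν s2 d π) π.n (hZ.re_lo π (hsub hπ)) (hZ.re_hi π (hsub hπ)) (hγ0 π hπ)
      (hγ1 π hπ) (hγN π hπ)).1 0
    have hlm := hlam π hπ
    have h2 : ‖MM ν s2 d π.n π.lam π.z 0 0‖ ^ 3 ≤ ∑ y, ‖Gr (H0 d π.n) 0 (zt ν s2 d π) 0 y‖ ^ 3 :=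
      Finset.single_le_sum (f := fun y => ‖Gr (H0 d π.n) 0 (zt ν s2 d π) 0 y‖ ^ 3)
        (fun y _ => by positivity) (Finset.mem_univ 0)
    have h3 : (zt ν s2 d π).im ^ (-(ε / 2)) ≤ (s2 * κ) ^ (-(ε / 2)) * π.lam ^ (0 - ε) := by
      calc (zt ν s2 d π).im ^ (-(ε / 2)) ≤ (s2 * κ * π.lam ^ 2) ^ (-(ε / 2)) :=
            Real.rpow_le_rpow_of_nonpos (by positivity) (hγl π hπ) (by linarith)
        _ = (s2 * κ) ^ (-(ε / 2)) * (π.lam ^ 2) ^ (-(ε / 2)) :=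
            Real.mul_rpow (by positivity) (by positivity)
        _ = (s2 * κ) ^ (-(ε / 2)) * π.lam ^ (0 - ε) := by
            rw [← Real.rpow_natCast, ← Real.rpow_mul hlm.le]; congr 2; push_cast; ring
    have h4 : (1 : ℝ) ≤ π.lam ^ (0 - ε) :=
      Real.one_le_rpow_of_pos_of_le_one_of_nonpos hlm (hlam1 π hπ) (by linarith)
    have h5 : (MM ν s2 d π.n π.lam π.z 0 0).im ≤ ‖MM ν s2 d π.n π.lam π.z 0 0‖ :=
      (le_abs_self _).trans (Complex.abs_im_le_norm _)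
    have h6 : ‖MM ν s2 d π.n π.lam π.z 0 0‖ ≤ 1 + ‖MM ν s2 d π.n π.lam π.z 0 0‖ ^ 3 := by
      have h0 := norm_nonneg (MM ν s2 d π.n π.lam π.z 0 0)
      nlinarith [sq_nonneg (‖MM ν s2 d π.n π.lam π.z 0 0‖ - 1),
        mul_nonneg h0 (sq_nonneg (‖MM ν s2 d π.n π.lam π.z 0 0‖ - 1))]
    have h7 : ‖MM ν s2 d π.n π.lam π.z 0 0‖ ^ 3 ≤
        K * ((s2 * κ) ^ (-(ε / 2)) * π.lam ^ (0 - ε)) :=
      (h2.trans h1).trans (mul_le_mul_of_nonneg_left h3 hK.le)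
    calc (MM ν s2 d π.n π.lam π.z 0 0).im
        ≤ π.lam ^ (0 - ε) + K * ((s2 * κ) ^ (-(ε / 2)) * π.lam ^ (0 - ε)) := by linarith
      _ = _ := by ring
  -- the row norm
  have hgq : ∀ π ∈ S, Continuous (gq 2 d π) := fun π hπ => continuous_rowN 2 (hcont π hπ)
  have dg2 : Dom ν d S (fun π V => gq 2 d π V ^ 2) (-A) := by
    have h1 : Dom ν d S (fun π V => π.eta⁻¹ * ginf d π V) (-A + 0) := by
      refine Dom.det_mul hν hS dginf 1 (fun π => π.eta⁻¹) fun π hπ => ?_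
      have h2 := hη π hπ
      rw [abs_of_pos (inv_pos.2 h2), one_mul, Real.rpow_neg (hlam π hπ).le]
      exact inv_anti₀ (Real.rpow_pos_of_pos (hlam π hπ) _) (hηl π hπ)
    rw [add_zero] at h1
    refine Dom.mono hν hS h1 (fun π hπ => (hgq π hπ).pow 2) fun π hπ V => ?_
    have h2 := rowN_two_Gr (RS_H0 d π.n) (fun x => π.lam * V x) (z := π.z) (hη π hπ)
    have h3 : gq 2 d π V ^ 2 ≤ π.eta⁻¹ * ginf d π V := by
      rw [mul_comm, ← div_eq_mul_inv]; exact h2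
    rw [abs_of_nonneg (sq_nonneg _)]
    exact h3.trans (le_abs_self _)
  have oT0 : Cur3OB S (fun π => Ex ν (fun V : Tor d π.n → ℝ => gq 2 d π V ^ 2)) (-A) :=
    Cur3OB.of_dom hν hS dg2 fun π V => sq_nonneg _
  have oT1 : Cur3OB S (fun π => Ex ν (fun V : Tor d π.n → ℝ => xst ν d π V * gq 2 d π V ^ 2))
      (1 + -A) :=
    Cur3OB.of_dom hν hS (dxst.mul hν hS dg2) fun π V =>
      mul_nonneg (diagN_nonneg _ _) (sq_nonneg _)
  have oT2 : Cur3OB S (fun π => Ex ν (fun V : Tor d π.n → ℝ => ginf d π V * gq 2 d π V ^ 2))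
      (0 + -A) :=
    Cur3OB.of_dom hν hS (dginf.mul hν hS dg2) fun π V =>
      mul_nonneg (supN_nonneg _) (sq_nonneg _)
  have oQ1 : Cur3OB S (fun π => Ex ν (fun V : Tor d π.n → ℝ => (xst ν d π V * gq 2 d π V) ^ 2))
      (2 - A) := by
    have h1 := (dxst.pow hν hS 2).mul hν hS dg2
    have h2 := Cur3OB.of_dom hν hS h1 fun π V => mul_nonneg (sq_nonneg _) (sq_nonneg _)
    have h3 : (fun π : Par => Ex ν (fun V : Tor d π.n → ℝ => (xst ν d π V * gq 2 d π V) ^ 2)) =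
        fun π : Par => Ex ν (fun V : Tor d π.n → ℝ => xst ν d π V ^ 2 * gq 2 d π V ^ 2) := by
      funext π; congr 1; funext V; ring
    rw [h3]
    exact h2.exp (by push_cast; ring)
  have oQ2 : Cur3OB S (fun π => Ex ν (fun V : Tor d π.n → ℝ => (ginf d π V * gq 2 d π V) ^ 2))
      (-A) := by
    have h1 := (dginf.pow hν hS 2).mul hν hS dg2
    have h2 := Cur3OB.of_dom hν hS h1 fun π V => mul_nonneg (sq_nonneg _) (sq_nonneg _)
    have h3 : (fun π : Par => Ex ν (fun V : Tor d π.n → ℝ => (ginf d π V * gq 2 d π V) ^ 2)) =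
        fun π : Par => Ex ν (fun V : Tor d π.n → ℝ => ginf d π V ^ 2 * gq 2 d π V ^ 2) := by
      funext π; congr 1; funext V; ring
    rw [h3]
    exact h2.exp (by push_cast; ring)
  have key : ∀ j : Fin d, ∀ᶠ l in 𝓝[>] (0 : ℝ), ∀ π ∈ S, π.lam ≤ l →
      19 / 20 * ((gb ν d π).im / π.eta) ≤ Ex ν (fun V : Tor d π.n → ℝ =>
        ∑ y, ‖GG d π.n π.lam π.z V 0 y‖ ^ 2 *
          (1 - Real.cos (kk A δ1 π * ((y j).valMinAbs : ℝ)))) := by
    intro j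
    let nM : Par → ℂ := fun π =>
      (NN d π.n (zt ν s2 d π) j (mk A δ1 π) * (MM ν s2 d π.n π.lam π.z)ᴴ) 0 0
    let nu : Par → ℂ := fun π => nuu ν s2 d π j (mk A δ1 π)
    let q : Par → ℝ := fun π => ∑ y, ‖MM ν s2 d π.n π.lam π.z 0 y‖ ^ 2 *
      (1 - Real.cos (kof π.n (mk A δ1 π) * ((y j).valMinAbs : ℝ)))
    have hq0 : ∀ π, 0 ≤ q π := fun π => Finset.sum_nonneg fun y _ =>
      mul_nonneg (sq_nonneg _) (sub_nonneg.2 (Real.cos_le_one _))
    have hnM : ∀ π ∈ S, nM π = -2 * Complex.I * ((zt ν s2 d π).im * q π : ℝ) := by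
      intro π hπ
      have h1 : nM π = -2 * Complex.I * (zt ν s2 d π).im * (q π : ℝ) := NN_M (hγ0 π hπ) j _
      rw [h1]; push_cast; ring
    -- difference of the two means
    have oD : Cur3OB S (fun π => ‖nu π - nM π‖) (e - A / 2) := by
      have h1 : Cur3OB S (fun π => 2 * Ex ν (fun V : Tor d π.n → ℝ =>
            (xst ν d π V * gq 2 d π V) ^ 2) + 2 * (π.lam ^ 2 * ‖gb ν d π‖ ^ 2 *
            Ex ν (fun V : Tor d π.n → ℝ => (ginf d π V * gq 2 d π V) ^ 2))) (2 - A) :=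
        (oQ1.const_mul (by norm_num)).add
          ((((ol2.mul hS (og.sq' hS)).mul hS oQ2).const_mul (by norm_num)).exp (by ring))
      have h2 : Cur3OB S (fun π => √(Ex ν (fun V : Tor d π.n → ℝ =>
          ((xst ν d π V + π.lam * ‖gb ν d π‖ * ginf d π V) * gq 2 d π V) ^ 2))) (1 - A / 2) :=
        ((h1.sqrt hS).exp (by ring)).mono (fun π _ => Real.sqrt_nonneg _) fun π hπ =>
          Real.sqrt_le_sqrt (cur3_sq hν π (hη π hπ))
      have h3 : Cur3OB S (fun π => √((MM ν s2 d π.n π.lam π.z 0 0).im * ((zt ν s2 d π).im)⁻¹))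
          (-1) := ((oM.mul hS oγi).sqrt hS).exp (by ring)
      have h4 : Cur3OB S (fun π => 2 * (kk A δ1 π *
          √((MM ν s2 d π.n π.lam π.z 0 0).im * ((zt ν s2 d π).im)⁻¹) * ((zt ν s2 d π).im)⁻¹) *
          (C * (π.lam ^ 2 * √(Ex ν (fun V : Tor d π.n → ℝ =>
          ((xst ν d π V + π.lam * ‖gb ν d π‖ * ginf d π V) * gq 2 d π V) ^ 2)))))
          (e - A / 2) :=
        (((((ok.mul hS h3).mul hS oγi).const_mul (by norm_num)).mul hS
          ((ol2.mul hS h2).const_mul hC.le))).exp (by ring)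
      refine h4.mono (fun π _ => norm_nonneg _) fun π hπ => ?_
      have h5 := cur3_nu_sub hν π (hlam π hπ) (hη π hπ) (hγ0 π hπ) j (mk A δ1 π)
      refine h5.trans (le_of_eq ?_)
      show 2 * kk A δ1 π * _ / _ * _ = _
      rw [div_eq_mul_inv ((MM ν s2 d π.n π.lam π.z 0 0).im), div_eq_mul_inv]
      ring
    have onu : Cur3OB S (fun π => ‖nu π‖) 0 := by
      have h1 : Cur3OB S (fun π => ‖nu π - nM π‖ + 4 * (MM ν s2 d π.n π.lam π.z 0 0).im) 0 :=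
        (oD.weaken hS (by show (0 : ℝ) ≤ 1 + A / 2 - δ1 - A / 2; linarith)).add
          (oM.const_mul (by norm_num))
      refine h1.mono (fun π _ => norm_nonneg _) fun π hπ => ?_
      have hγ := hγ0 π hπ
      have h2 : ‖nM π‖ = 2 * ((zt ν s2 d π).im * q π) := by
        rw [hnM π hπ]
        have := hq0 π
        simp [abs_of_nonneg, hγ.le, this]
      have h3 : q π ≤ 2 * ∑ y, ‖MM ν s2 d π.n π.lam π.z 0 y‖ ^ 2 := by
        rw [Finset.mul_sum]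
        refine Finset.sum_le_sum fun y _ => ?_
        have := Real.neg_one_le_cos (kof π.n (mk A δ1 π) * ((y j).valMinAbs : ℝ))
        nlinarith [sq_nonneg ‖MM ν s2 d π.n π.lam π.z 0 y‖]
      have h4 : ∑ y, ‖MM ν s2 d π.n π.lam π.z 0 y‖ ^ 2 =
          (MM ν s2 d π.n π.lam π.z 0 0).im / (zt ν s2 d π).im := ward (RS_H0 d π.n) 0 hγ 0
      rw [h4] at h3
      have h5 : (zt ν s2 d π).im * q π ≤ 2 * (MM ν s2 d π.n π.lam π.z 0 0).im := by
        calc (zt ν s2 d π).im * q π ≤ (zt ν s2 d π).im * (2 * ((MM ν s2 d π.n π.lam π.z 0 0).im /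
              (zt ν s2 d π).im)) := mul_le_mul_of_nonneg_left h3 hγ.le
          _ = _ := by field_simp
      calc ‖nu π‖ = ‖(nu π - nM π) + nM π‖ := by rw [sub_add_cancel]
        _ ≤ ‖nu π - nM π‖ + ‖nM π‖ := norm_add_le _ _
        _ ≤ _ := by rw [h2]; linarith
    -- concentration of n_x
    have dnd : Dom ν d S (fun π V => diagN (NN d π.n (zt ν s2 d π) j (mk A δ1 π) *
        (GG d π.n π.lam π.z V)ᴴ) (nuu ν s2 d π j (mk A δ1 π))) (1 - A / 4 - δ1) :=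
      Dom.subset hsub (dom_nd hν hF hl hA2 (by linarith) hδ1 (by linarith) hκ hL hZ j)
    have oT5 : Cur3OB S (fun π => Ex ν (fun V : Tor d π.n → ℝ =>
        diagN (NN d π.n (zt ν s2 d π) j (mk A δ1 π) * (GG d π.n π.lam π.z V)ᴴ)
          (nuu ν s2 d π j (mk A δ1 π)) * gq 2 d π V ^ 2)) (1 - A / 4 - δ1 + -A) :=
      Cur3OB.of_dom hν hS (dnd.mul hν hS dg2) fun π V =>
        mul_nonneg (diagN_nonneg _ _) (sq_nonneg _)
    have oT3 : Cur3OB S (fun π => Ex ν (fun V : Tor d π.n → ℝ =>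
        diagN (NN d π.n (zt ν s2 d π) j (mk A δ1 π) * (GG d π.n π.lam π.z V)ᴴ) 0 *
          gq 2 d π V ^ 2)) (-A) := by
      have h1 := (oT5.weaken hS (b := -A) (by linarith)).add ((onu.mul hS oT0).exp (zero_add _))
      refine h1.mono (fun π _ => cur3_Ex_nonneg fun V =>
        mul_nonneg (diagN_nonneg _ _) (sq_nonneg _)) fun π hπ => ?_
      have hc := hcont π hπ
      have hNG : Continuous fun V : Tor d π.n → ℝ =>
          NN d π.n (zt ν s2 d π) j (mk A δ1 π) * (GG d π.n π.lam π.z V)ᴴ :=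
        continuous_const.matrix_mul hc.matrix_conjTranspose
      have c1 := continuous_diagN (nuu ν s2 d π j (mk A δ1 π)) hNG
      have c0 := continuous_diagN 0 hNG
      have c2 := (hgq π hπ).pow 2
      have i1 : Integrable (fun V : Tor d π.n → ℝ =>
          diagN (NN d π.n (zt ν s2 d π) j (mk A δ1 π) * (GG d π.n π.lam π.z V)ᴴ)
            (nuu ν s2 d π j (mk A δ1 π)) * gq 2 d π V ^ 2)
          (Measure.pi fun _ : Tor d π.n => ν) := integrable_cont hν (c1.mul c2)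
      have i2 : Integrable (fun V : Tor d π.n → ℝ => gq 2 d π V ^ 2)
          (Measure.pi fun _ : Tor d π.n => ν) := integrable_cont hν c2
      have h2 : Ex ν (fun V : Tor d π.n → ℝ =>
          diagN (NN d π.n (zt ν s2 d π) j (mk A δ1 π) * (GG d π.n π.lam π.z V)ᴴ) 0 *
            gq 2 d π V ^ 2) ≤ Ex ν (fun V : Tor d π.n → ℝ =>
          diagN (NN d π.n (zt ν s2 d π) j (mk A δ1 π) * (GG d π.n π.lam π.z V)ᴴ)
            (nuu ν s2 d π j (mk A δ1 π)) * gq 2 d π V ^ 2 + ‖nu π‖ * gq 2 d π V ^ 2) := by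
        refine Ex_mono hν (c0.mul c2) ((c1.mul c2).add (continuous_const.mul c2)) fun V => ?_
        rw [← add_mul]
        refine mul_le_mul_of_nonneg_right ?_ (sq_nonneg _)
        refine diagN_le (add_nonneg (diagN_nonneg _ _) (norm_nonneg _)) fun x => ?_
        have h3 := norm_le_diagN (NN d π.n (zt ν s2 d π) j (mk A δ1 π) *
          (GG d π.n π.lam π.z V)ᴴ) (nuu ν s2 d π j (mk A δ1 π)) x
        rw [sub_zero]
        calc ‖(NN d π.n (zt ν s2 d π) j (mk A δ1 π) * (GG d π.n π.lam π.z V)ᴴ) x x‖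
            = ‖((NN d π.n (zt ν s2 d π) j (mk A δ1 π) * (GG d π.n π.lam π.z V)ᴴ) x x -
              nuu ν s2 d π j (mk A δ1 π)) + nu π‖ := by
                show _ = ‖_ - nu π + nu π‖
                rw [sub_add_cancel]
          _ ≤ _ := norm_add_le _ _
          _ ≤ _ := by linarith
      refine h2.trans (le_of_eq ?_)
      unfold Ex
      rw [integral_add i1 (i2.const_mul _), integral_const_mul]
    -- the error terms of the integration by parts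
    let err : Par → ℝ := fun π =>
      C * π.lam ^ 2 * (2 * kof π.n (mk A δ1 π) / (zt ν s2 d π).im) *
        Ex ν (fun V : Tor d π.n → ℝ => xst ν d π V * gq 2 d π V ^ 2) +
      C * π.lam ^ 3 * ‖gb ν d π‖ * (2 * kof π.n (mk A δ1 π) / (zt ν s2 d π).im) *
        Ex ν (fun V : Tor d π.n → ℝ => ginf d π V * gq 2 d π V ^ 2) +
      C * π.lam ^ 3 * ‖gb ν d π‖ * Ex ν (fun V : Tor d π.n → ℝ =>
        diagN (NN d π.n (zt ν s2 d π) j (mk A δ1 π) * (GG d π.n π.lam π.z V)ᴴ) 0 *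
          gq 2 d π V ^ 2) +
      2 * C * π.lam ^ 3 * ‖nuu ν s2 d π j (mk A δ1 π)‖ *
        Ex ν (fun V : Tor d π.n → ℝ => ginf d π V * gq 2 d π V ^ 2) +
      C * π.lam ^ 2 * Ex ν (fun V : Tor d π.n → ℝ =>
        diagN (NN d π.n (zt ν s2 d π) j (mk A δ1 π) * (GG d π.n π.lam π.z V)ᴴ)
          (nuu ν s2 d π j (mk A δ1 π)) * gq 2 d π V ^ 2)
    have oerr : Cur3OB S err 0 := by
      have h1 : Cur3OB S (fun π => 2 * C * ((π.lam ^ 2 * (kk A δ1 π * ((zt ν s2 d π).im)⁻¹)) *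
          Ex ν (fun V : Tor d π.n → ℝ => xst ν d π V * gq 2 d π V ^ 2))) 0 :=
        (((ol2.mul hS (ok.mul hS oγi)).mul hS oT1).const_mul (by positivity)).weaken hS
          (by show (0 : ℝ) ≤ 2 + (1 + A / 2 - δ1 + -2) + (1 + -A); linarith)
      have h2 : Cur3OB S (fun π => 2 * C * (((π.lam ^ 3 * ‖gb ν d π‖) *
          (kk A δ1 π * ((zt ν s2 d π).im)⁻¹)) *
          Ex ν (fun V : Tor d π.n → ℝ => ginf d π V * gq 2 d π V ^ 2))) 0 :=
        ((((ol3.mul hS og).mul hS (ok.mul hS oγi)).mul hS oT2).const_mul (by positivity)).weaken hS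
          (by show (0 : ℝ) ≤ 3 + 0 + (1 + A / 2 - δ1 + -2) + (0 + -A); linarith)
      have h3 : Cur3OB S (fun π => C * ((π.lam ^ 3 * ‖gb ν d π‖) *
          Ex ν (fun V : Tor d π.n → ℝ =>
        diagN (NN d π.n (zt ν s2 d π) j (mk A δ1 π) * (GG d π.n π.lam π.z V)ᴴ) 0 *
          gq 2 d π V ^ 2))) 0 :=
        (((ol3.mul hS og).mul hS oT3).const_mul hC.le).weaken hS (by linarith)
      have h4 : Cur3OB S (fun π => 2 * C * ((π.lam ^ 3 * ‖nu π‖) *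
          Ex ν (fun V : Tor d π.n → ℝ => ginf d π V * gq 2 d π V ^ 2))) 0 :=
        (((ol3.mul hS onu).mul hS oT2).const_mul (by positivity)).weaken hS (by linarith)
      have h5 : Cur3OB S (fun π => C * (π.lam ^ 2 * Ex ν (fun V : Tor d π.n → ℝ =>
        diagN (NN d π.n (zt ν s2 d π) j (mk A δ1 π) * (GG d π.n π.lam π.z V)ᴴ)
          (nuu ν s2 d π j (mk A δ1 π)) * gq 2 d π V ^ 2))) 0 :=
        ((ol2.mul hS oT5).const_mul hC.le).weaken hS (by linarith)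
      have h6 := (((h1.add h2).add h3).add h4).add h5
      have h7 : ∀ π, err π = 2 * C * ((π.lam ^ 2 * (kk A δ1 π * ((zt ν s2 d π).im)⁻¹)) *
          Ex ν (fun V : Tor d π.n → ℝ => xst ν d π V * gq 2 d π V ^ 2)) +
          2 * C * (((π.lam ^ 3 * ‖gb ν d π‖) *
          (kk A δ1 π * ((zt ν s2 d π).im)⁻¹)) *
          Ex ν (fun V : Tor d π.n → ℝ => ginf d π V * gq 2 d π V ^ 2)) +
          C * ((π.lam ^ 3 * ‖gb ν d π‖) *
          Ex ν (fun V : Tor d π.n → ℝ =>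
        diagN (NN d π.n (zt ν s2 d π) j (mk A δ1 π) * (GG d π.n π.lam π.z V)ᴴ) 0 *
          gq 2 d π V ^ 2)) + 2 * C * ((π.lam ^ 3 * ‖nu π‖) *
          Ex ν (fun V : Tor d π.n → ℝ => ginf d π V * gq 2 d π V ^ 2)) +
          C * (π.lam ^ 2 * Ex ν (fun V : Tor d π.n → ℝ =>
        diagN (NN d π.n (zt ν s2 d π) j (mk A δ1 π) * (GG d π.n π.lam π.z V)ᴴ)
          (nuu ν s2 d π j (mk A δ1 π)) * gq 2 d π V ^ 2)) := by
        intro π
        show C * π.lam ^ 2 * (2 * kk A δ1 π / (zt ν s2 d π).im) * _ + C * π.lam ^ 3 *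
          ‖gb ν d π‖ * (2 * kk A δ1 π / (zt ν s2 d π).im) * _ + C * π.lam ^ 3 * ‖gb ν d π‖ * _ +
          2 * C * π.lam ^ 3 * ‖nu π‖ * _ + C * π.lam ^ 2 * _ = _
        rw [div_eq_mul_inv]
        ring
      exact h6.mono (fun π hπ => by rw [h7]; exact h6.1 π hπ) fun π _ => (h7 π).le
    -- small quantities
    have s1 := oγ.small hS two_pos hκF0
    have s2' := (ok.mul hS oγi).small hS
      (by show (0 : ℝ) < 1 + A / 2 - δ1 + -2; linarith) hκF0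
    have s3 := ((oD.mul hS (oγ.sq' hS)).mul hS (oki.sq' hS)).small hS
      (by show (0 : ℝ) < 1 + A / 2 - δ1 - A / 2 + 2 * 2 + 2 * -(1 + A / 2 - δ1); linarith) hκF0
    have s4 := ((oη.mul hS (((og.const_mul (c := 2) (by norm_num)).add onu).add oerr)).mul hS
      (((oγ.sq' hS).mul hS oli2).mul hS (oki.sq' hS))).small hS
      (by show (0 : ℝ) < A + 0 + (2 * 2 + -2 + 2 * -(1 + A / 2 - δ1)); linarith)
      (show 0 < s2 * κF * κ / 20 by positivity)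
    filter_upwards [s1, s2', s3, s4] with l hl1 hl2 hl3 hl4 π hπ hle
    have a1 := hl1 π hπ hle
    have a2 := hl2 π hπ hle
    have a3 := hl3 π hπ hle
    have a4 := hl4 π hπ hle
    beta_reduce at a1 a2 a3 a4
    have hγ := hγ0 π hπ
    have hk := hk0 π hπ
    have hlm := hlam π hπ
    have hηp := hη π hπ
    have b1 : kk A δ1 π ≤ κF * (zt ν s2 d π).im := by
      rwa [← div_eq_mul_inv, div_le_iff₀ hγ] at a2
    have b2 : κF * kk A δ1 π ^ 2 / (zt ν s2 d π).im ^ 3 ≤ q π :=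
      (hfb (zt ν s2 d π) π.n (hZ.re_lo π (hsub hπ)) (hZ.re_hi π (hsub hπ)) hγ a1
        (hγN π hπ)).2 j (mk A δ1 π) b1
    have b3 : κF * kk A δ1 π ^ 2 / (zt ν s2 d π).im ^ 2 ≤ (zt ν s2 d π).im * q π := by
      calc κF * kk A δ1 π ^ 2 / (zt ν s2 d π).im ^ 2 =
            (zt ν s2 d π).im * (κF * kk A δ1 π ^ 2 / (zt ν s2 d π).im ^ 3) := by
              field_simp
        _ ≤ _ := mul_le_mul_of_nonneg_left b2 hγ.le
    have b4 : ‖nu π - nM π‖ ≤ (zt ν s2 d π).im * q π := by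
      refine le_trans ?_ b3
      rw [le_div_iff₀ (by positivity)]
      have : ‖nu π - nM π‖ * (zt ν s2 d π).im ^ 2 =
          (‖nu π - nM π‖ * (zt ν s2 d π).im ^ 2 * (kk A δ1 π)⁻¹ ^ 2) * kk A δ1 π ^ 2 := by
        field_simp
      rw [this]
      exact mul_le_mul_of_nonneg_right a3 (by positivity)
    have b5 := cur3_alg (s := π.lam ^ 2 * s2) (e := err π) hηp.le (by positivity)
      (cur3_identity hν π hηp j (mk A δ1 π)) (cur3_twi hν π hlm hηp hγ j (mk A δ1 π))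
      (hnM π hπ) b4
    set ρ := Ex ν (fun V : Tor d π.n → ℝ =>
        (tw (up j (mk A δ1 π)) (GG d π.n π.lam π.z V) * (GG d π.n π.lam π.z V)ᴴ) 0 0) with hρ
    have b6 : |(gb ν d π).im| ≤ ‖gb ν d π‖ := Complex.abs_im_le_norm _
    have b7 : π.lam ^ 2 * s2 * (κF * kk A δ1 π ^ 2 / (zt ν s2 d π).im ^ 2) * ‖ρ‖ ≤
        2 * ‖gb ν d π‖ + ‖nu π‖ + err π := by
      calc _ ≤ π.lam ^ 2 * s2 * ((zt ν s2 d π).im * q π) * ‖ρ‖ :=
            mul_le_mul_of_nonneg_right (mul_le_mul_of_nonneg_left b3 (by positivity))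
              (norm_nonneg _)
        _ ≤ 2 * |(gb ν d π).im| + ‖nu π‖ + err π := b5
        _ ≤ _ := by linarith
    have b8 : π.eta * ‖ρ‖ ≤ κ / 20 := by
      have c1 : s2 * κF * (π.eta * ‖ρ‖) = π.eta * (π.lam ^ 2 * s2 * (κF * kk A δ1 π ^ 2 /
          (zt ν s2 d π).im ^ 2) * ‖ρ‖) * ((zt ν s2 d π).im ^ 2 * (π.lam ^ 2)⁻¹ *
          (kk A δ1 π)⁻¹ ^ 2) := by
        field_simp
      have c2 : s2 * κF * (π.eta * ‖ρ‖) ≤ s2 * κF * κ / 20 := by
        rw [c1]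
        refine le_trans ?_ a4
        refine mul_le_mul_of_nonneg_right (mul_le_mul_of_nonneg_left b7 hηp.le) (by positivity)
      have c3 : s2 * κF * (π.eta * ‖ρ‖) ≤ s2 * κF * (κ / 20) := by linarith
      exact le_of_mul_le_mul_left c3 (by positivity)
    have b9 := cur3_mass hν π hηp j (mk A δ1 π)
    have b10 : Ex ν (fun V : Tor d π.n → ℝ =>
        ∑ y, ‖GG d π.n π.lam π.z V 0 y‖ ^ 2 *
          (1 - Real.cos (kk A δ1 π * ((y j).valMinAbs : ℝ)))) =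
        (gb ν d π).im / π.eta - ρ.re := b9
    rw [b10]
    have b11 : ρ.re ≤ ‖ρ‖ := Complex.re_le_norm ρ
    have b12 : ‖ρ‖ ≤ 1 / 20 * ((gb ν d π).im / π.eta) := by
      rw [← mul_div_assoc, le_div_iff₀ hηp]
      have := hgim π hπ
      nlinarith
    linarith
  have key2 := Filter.eventually_all.2 key
  obtain ⟨l, h1, h3, h2⟩ := (key2.and (Ioc_mem_nhdsGT hl0)).exists
  refine ⟨l, h3, h2, fun π hπ hη2 j => ?_⟩
  exact h1 j π ⟨⟨hπ.1, hπ.2.1.trans h2, hπ.2.2⟩, hη2⟩ hπ.2.1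

end Pool.Agent.BK
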