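import Mathlib

/-!
# BK: beyond the kinetic scale. Definitions

Finite matrices `H` over an index type `X`, the resolvent `Gr H v z` with real potential `v`,
the discrete torus `Tor d n = (ℤ/(2n+1))^d`, product expectation, the class `C1` of functions of the
potential with continuous partial derivatives, the class of single-site laws, and the
`Dom` calculus.
-/

open MeasureTheory Matrix

noncomputable section

namespace Pool.Agent.BK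

section General

variable {X : Type} [Fintype X] [DecidableEq X]

/-- The resolvent `(H + v - z)⁻¹` of a matrix `H` with a real diagonal potential `v`. -/
def Gr (H : Matrix X X ℂ) (v : X → ℝ) (z : ℂ) : Matrix X X ℂ :=
  (H + Matrix.diagonal (fun x => (v x : ℂ)) - z • (1 : Matrix X X ℂ))⁻¹

/-- `H` is real symmetric (hermitian and symmetric). -/
structure RS (H : Matrix X X ℂ) : Prop where
  herm : H.IsHermitian
  symm : H.IsSymm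

/-- Expectation with respect to the product measure of `ν` over `X`. -/
def Ex {E : Type} [NormedAddCommGroup E] [NormedSpace ℝ E] (ν : Measure ℝ) (F : (X → ℝ) → E) : E :=
  ∫ V, F V ∂(Measure.pi fun _ : X => ν)

/-- `F : (X → ℝ) → ℂ` is continuous with continuous partial derivatives `F' u = ∂F/∂V_u`. -/
structure C1 (F : (X → ℝ) → ℂ) (F' : X → (X → ℝ) → ℂ) : Prop where
  cont : Continuous F
  cont' : ∀ u, Continuous (F' u)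
  deriv : ∀ (V : X → ℝ) (u : X),
    HasDerivAt (fun t : ℝ => F (Function.update V u t)) (F' u V) (V u)

/-- Row norm `sup_x (∑_y |A x y|^q)^(1/q)`. -/
def rowN (q : ℕ) (A : Matrix X X ℂ) : ℝ := ⨆ x, (∑ y, ‖A x y‖ ^ q) ^ (1 / (q : ℝ))

/-- `sup_{x,y} |A x y|`. -/
def supN (A : Matrix X X ℂ) : ℝ := ⨆ p : X × X, ‖A p.1 p.2‖

/-- `sup_x |A x x - g|`. -/
def diagN (A : Matrix X X ℂ) (g : ℂ) : ℝ := ⨆ x, ‖A x x - g‖

/-- Square norm `∑_x |c x|²` of a vector. -/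
def nsq (c : X → ℂ) : ℝ := ∑ x, ‖c x‖ ^ 2

end General

/-- Centred single-site laws `ν` supported in `[-R, R]` with variance `s2`, with bounded Stein
kernels `τ` (for `v`) and `τ'` (for `τ - s2`), and with a Poincaré inequality. -/
structure NiceLaw (ν : Measure ℝ) (R s2 C : ℝ) (τ τ' : ℝ → ℝ) : Prop where
  prob : IsProbabilityMeasure ν
  R_pos : 0 < R
  supp : ν (Set.Icc (-R) R)ᶜ = 0
  s2_pos : 0 < s2
  C_pos : 0 < C
  meas : Measurable τ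
  meas' : Measurable τ'
  bdd : ∀ v, |τ v| ≤ C
  bdd' : ∀ v, |τ' v| ≤ C
  stein : ∀ f f' : ℝ → ℂ, (∀ v, HasDerivAt f (f' v) v) → Continuous f' →
    ∫ v, (v : ℂ) * f v ∂ν = ∫ v, (τ v : ℂ) * f' v ∂ν
  stein' : ∀ f f' : ℝ → ℂ, (∀ v, HasDerivAt f (f' v) v) → Continuous f' →
    ∫ v, ((τ v - s2 : ℝ) : ℂ) * f v ∂ν = ∫ v, (τ' v : ℂ) * f' v ∂ν
  poinc : ∀ f f' : ℝ → ℝ, (∀ v, HasDerivAt f (f' v) v) → Continuous f' →
    ∫ v, f v ^ 2 ∂ν - (∫ v, f v ∂ν) ^ 2 ≤ C * ∫ v, f' v ^ 2 ∂ν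

/-! ### The torus -/

/-- The discrete torus `(ℤ/(2n+1))^d`. -/
abbrev Tor (d n : ℕ) : Type := Fin d → ZMod (2 * n + 1)

/-- `-Δ` on the torus. -/
def H0 (d n : ℕ) : Matrix (Tor d n) (Tor d n) ℂ := fun x y =>
  (if x = y then 2 * (d : ℂ) else 0) - ∑ j : Fin d,
    ((if y = x + Pi.single j 1 then (1 : ℂ) else 0) + (if y = x - Pi.single j 1 then (1 : ℂ) else 0))

/-- The angle `2π m/(2n+1)` of a residue `m`, with its representative in `[-n, n]`. -/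
def ang (n : ℕ) (m : ZMod (2 * n + 1)) : ℝ := 2 * Real.pi * (m.valMinAbs : ℝ) / (2 * n + 1)

/-- Dispersion relation `∑ (2 - 2 cos q_l)`. -/
def omg {d n : ℕ} (q : Tor d n) : ℝ := ∑ l, (2 - 2 * Real.cos (ang n (q l)))

/-- The Green function `(H0 + lam V - z)⁻¹` on the torus. -/
def GG (d n : ℕ) (lam : ℝ) (z : ℂ) (V : Tor d n → ℝ) : Matrix (Tor d n) (Tor d n) ℂ :=
  Gr (H0 d n) (fun x => lam * V x) z

/-- `E G_00`. -/
def gbar (ν : Measure ℝ) (d n : ℕ) (lam : ℝ) (z : ℂ) : ℂ :=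
  Ex ν fun V : Tor d n → ℝ => GG d n lam z V 0 0

/-- `ζ = z + lam² s2 E G_00`. -/
def zeta (ν : Measure ℝ) (s2 : ℝ) (d n : ℕ) (lam : ℝ) (z : ℂ) : ℂ :=
  z + (lam ^ 2 * s2 : ℝ) * gbar ν d n lam z

/-- `M = (H0 - ζ)⁻¹`. -/
def MM (ν : Measure ℝ) (s2 : ℝ) (d n : ℕ) (lam : ℝ) (z : ℂ) : Matrix (Tor d n) (Tor d n) ℂ :=
  Gr (H0 d n) 0 (zeta ν s2 d n lam z)

/-- The free bounds in the window `[lo, hi]` (they are proved for `d ≥ 3`, `0 < lo`, `hi < 2`). -/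
structure FreeB (d : ℕ) (lo hi : ℝ) : Prop where
  fb12 : ∀ ε : ℝ, 0 < ε → ∃ C : ℝ, 0 < C ∧ ∀ (ζ : ℂ) (n : ℕ), lo ≤ ζ.re → ζ.re ≤ hi →
    0 < ζ.im → ζ.im ≤ 1 → ζ.im ^ (-(10 : ℝ)) ≤ 2 * n + 1 →
    (∀ x, ∑ y, ‖Gr (H0 d n) 0 ζ x y‖ ^ 3 ≤ C * ζ.im ^ (-ε)) ∧
    (∀ c : Tor d n → ℂ, ∑ y, ‖(Gr (H0 d n) 0 ζ *ᵥ c) y‖ ^ 4 ≤
      C * ζ.im ^ (-2 - ε) * (1 + Real.log (2 * n + 1)) ^ 4 * nsq c ^ 2)
  fb34 : ∃ κ : ℝ, 0 < κ ∧ κ ≤ 1 ∧ ∀ (ζ : ℂ) (n : ℕ), lo ≤ ζ.re → ζ.re ≤ hi →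
    0 < ζ.im → ζ.im ≤ κ → ζ.im ^ (-(10 : ℝ)) ≤ 2 * n + 1 →
    (∀ x, κ ≤ (Gr (H0 d n) 0 ζ x x).im) ∧
    (∀ (j : Fin d) (m : ℕ), 2 * Real.pi * m / (2 * n + 1) ≤ κ * ζ.im →
      κ * (2 * Real.pi * m / (2 * n + 1)) ^ 2 / ζ.im ^ 3 ≤
        ∑ y, ‖Gr (H0 d n) 0 ζ 0 y‖ ^ 2 *
          (1 - Real.cos (2 * Real.pi * m / (2 * n + 1) * ((y j).valMinAbs : ℝ))))

/-! ### Parameters and the `Dom` calculus -/

/-- Parameters: coupling, size, energy, height. -/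
structure Par where
  lam : ℝ
  n : ℕ
  E : ℝ
  eta : ℝ

/-- Spectral parameter `E + i η`. -/
def Par.z (π : Par) : ℂ := ⟨π.E, π.eta⟩

/-- The set of parameters with `0 < lam ≤ lam0`, `2n+1` between `lam^(-40)` and `lam^(-43)`,
energy in `[lo, hi]` and `lam^e1 ≤ η ≤ lam^e2`. -/
def PS (lo hi lam0 e1 e2 : ℝ) : Set Par :=
  {π | 0 < π.lam ∧ π.lam ≤ lam0 ∧ π.lam ^ (-(40 : ℝ)) ≤ 2 * (π.n : ℝ) + 1 ∧
    2 * (π.n : ℝ) + 1 ≤ π.lam ^ (-(43 : ℝ)) ∧ lo ≤ π.E ∧ π.E ≤ hi ∧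
    π.lam ^ e1 ≤ π.eta ∧ π.eta ≤ π.lam ^ e2}

/-- `Dom ν d S F a`: the random variables `F π` (`π ∈ S`) are `O(lam^(a-))` in all moments. -/
def Dom (ν : Measure ℝ) (d : ℕ) (S : Set Par) (F : (π : Par) → (Tor d π.n → ℝ) → ℝ) (a : ℝ) : Prop :=
  (∀ π ∈ S, Continuous (F π)) ∧ ∀ p : ℕ, ∀ ε : ℝ, 0 < ε → ∃ C : ℝ, ∀ π ∈ S,
    Ex ν (fun V : Tor d π.n → ℝ => |F π V| ^ p) ≤ C * π.lam ^ (p * a - ε)

/-- Row `q`-norm of the Green function at the parameters `π`. -/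
def gq (q : ℕ) (d : ℕ) (π : Par) (V : Tor d π.n → ℝ) : ℝ := rowN q (GG d π.n π.lam π.z V)

/-- `sup |G_xy|` at the parameters `π`. -/
def ginf (d : ℕ) (π : Par) (V : Tor d π.n → ℝ) : ℝ := supN (GG d π.n π.lam π.z V)

/-- `X* = sup_x |G_xx - E G_00|`. -/
def xst (ν : Measure ℝ) (d : ℕ) (π : Par) (V : Tor d π.n → ℝ) : ℝ :=
  diagN (GG d π.n π.lam π.z V) (gbar ν d π.n π.lam π.z)

/-- `sup_w ‖(G - M) e_w‖_4`. -/
def zst (ν : Measure ℝ) (s2 : ℝ) (d : ℕ) (π : Par) (V : Tor d π.n → ℝ) : ℝ :=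
  rowN 4 (GG d π.n π.lam π.z V - MM ν s2 d π.n π.lam π.z)

end Pool.Agent.BK
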