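import Pool.Agent.BK.C1c

/-! BK module DOM1: calculus of `Dom` (all moments are `O(lam^(p a - ε))`).
Everything follows from Hölder / Cauchy-Schwarz / Jensen for the probability measure
`Measure.pi (fun _ => ν)` and from monotonicity of `t ↦ lam^t` for `0 < lam ≤ 1`. Random variables
in `Dom` are continuous, hence integrable with all powers (`integrable_cont`). -/

open MeasureTheory Finset

noncomputable section

namespace Pool.Agent.BK

variable {ν : Measure ℝ} {R s2 C : ℝ} {τ τ' : ℝ → ℝ} {d : ℕ} {S : Set Par}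
  {F G : (π : Par) → (Tor d π.n → ℝ) → ℝ} {a b : ℝ}

/-- `0 < lam ≤ 1` on `S`. -/
def Good (S : Set Par) : Prop := ∀ π ∈ S, 0 < π.lam ∧ π.lam ≤ 1

lemma good_PS {lo hi lam0 e1 e2 : ℝ} (h : lam0 ≤ 1) : Good (PS lo hi lam0 e1 e2) :=
  fun _ hπ => ⟨hπ.1, hπ.2.1.trans h⟩

lemma dom1_rpow {l s t : ℝ} (h0 : 0 < l) (h1 : l ≤ 1) (h : s ≤ t) : l ^ t ≤ l ^ s :=
  Real.rpow_le_rpow_of_exponent_ge h0 h1 h

lemma dom1_abs {C t : ℝ} (ht : 0 ≤ t) : C * t ≤ |C| * t :=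
  mul_le_mul_of_nonneg_right (le_abs_self C) ht

lemma dom1_le {l s t C : ℝ} (h0 : 0 < l) (h1 : l ≤ 1) (h : s ≤ t) : C * l ^ t ≤ |C| * l ^ s :=
  (dom1_abs (Real.rpow_nonneg h0.le _)).trans
    (mul_le_mul_of_nonneg_left (dom1_rpow h0 h1 h) (abs_nonneg _))

lemma dom1_cont {X : Type} {f : (X → ℝ) → ℝ} (hf : Continuous f) (p : ℕ) :
    Continuous fun V => |f V| ^ p := hf.abs.pow p

lemma dom1_cc {X : Type} {f : (X → ℝ) → ℝ} (c : ℝ) (hf : Continuous f) :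
    Continuous fun V => c * f V := continuous_const.mul hf

lemma dom1_Ex_add {X : Type} [Fintype X] (hν : NiceLaw ν R s2 C τ τ')
    {f g : (X → ℝ) → ℝ} (hf : Continuous f) (hg : Continuous g) :
    Ex ν (fun V => f V + g V) = Ex ν f + Ex ν g := by
  classical
  exact integral_add (integrable_cont hν hf) (integrable_cont hν hg)

lemma dom1_Ex_mul {X : Type} [Fintype X] (c : ℝ) (f : (X → ℝ) → ℝ) :
    Ex ν (fun V => c * f V) = c * Ex ν f := by
  exact integral_const_mul c f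

lemma dom1_Ex_nonneg {X : Type} [Fintype X] {f : (X → ℝ) → ℝ} (h : ∀ V, 0 ≤ f V) :
    0 ≤ Ex ν f := integral_nonneg h

lemma dom1_Ex_const {X : Type} [Fintype X] (hν : NiceLaw ν R s2 C τ τ') (c : ℝ) :
    Ex ν (fun _ : X → ℝ => c) = c := by
  have := hν.prob
  unfold Ex
  simp

lemma dom1_Ex_mono {X : Type} [Fintype X] (hν : NiceLaw ν R s2 C τ τ')
    {f g : (X → ℝ) → ℝ} (hf : Continuous f) (hg : Continuous g) (h : ∀ V, f V ≤ g V) :
    Ex ν f ≤ Ex ν g := by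
  classical
  exact Ex_mono hν hf hg h

lemma Dom.subset {S' : Set Par} (h : S' ⊆ S) (hF : Dom ν d S F a) : Dom ν d S' F a := by
  refine ⟨fun π hπ => hF.1 π (h hπ), fun p ε hε => ?_⟩
  obtain ⟨K, hK⟩ := hF.2 p ε hε
  exact ⟨K, fun π hπ => hK π (h hπ)⟩

lemma Dom.weaken (hν : NiceLaw ν R s2 C τ τ') (hS : Good S) (hF : Dom ν d S F a) (hb : b ≤ a) :
    Dom ν d S F b := by
  have _ := hν
  refine ⟨hF.1, fun p ε hε => ?_⟩
  obtain ⟨K, hK⟩ := hF.2 p ε hε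
  refine ⟨|K|, fun π hπ => (hK π hπ).trans ?_⟩
  refine dom1_le (hS π hπ).1 (hS π hπ).2 ?_
  have := mul_le_mul_of_nonneg_left hb (Nat.cast_nonneg (α := ℝ) p)
  linarith

/-- Closure: the exponent may be approximated. -/
lemma Dom.of_forall_lt (hν : NiceLaw ν R s2 C τ τ') (hS : Good S)
    (h : ∀ b < a, Dom ν d S F b) : Dom ν d S F a := by
  have _ := hν
  refine ⟨(h (a - 1) (by linarith)).1, fun p ε hε => ?_⟩
  have hp : (0 : ℝ) < (p : ℝ) + 1 := by positivity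
  obtain ⟨K, hK⟩ := (h (a - ε / 2 / (p + 1)) (by
    have : 0 < ε / 2 / ((p : ℝ) + 1) := by positivity
    linarith)).2 p (ε / 2) (half_pos hε)
  refine ⟨|K|, fun π hπ => (hK π hπ).trans ?_⟩
  refine dom1_le (hS π hπ).1 (hS π hπ).2 ?_
  have h1 : (p : ℝ) * (ε / 2 / (p + 1)) ≤ ε / 2 := by
    rw [mul_div_assoc', div_le_iff₀ hp]
    have : 0 ≤ ε / 2 := by positivity
    nlinarith
  linarith

lemma Dom.mono (hν : NiceLaw ν R s2 C τ τ') (hS : Good S) (hF : Dom ν d S F a)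
    (hG : ∀ π ∈ S, Continuous (G π)) (h : ∀ π ∈ S, ∀ V, |G π V| ≤ |F π V|) : Dom ν d S G a := by
  have _ := hS
  refine ⟨hG, fun p ε hε => ?_⟩
  obtain ⟨K, hK⟩ := hF.2 p ε hε
  refine ⟨K, fun π hπ => le_trans ?_ (hK π hπ)⟩
  exact dom1_Ex_mono hν (dom1_cont (hG π hπ) p) (dom1_cont (hF.1 π hπ) p)
    fun V => pow_le_pow_left₀ (abs_nonneg _) (h π hπ V) p

lemma dom1_pow_rpow {l : ℝ} (h0 : 0 < l) (a : ℝ) (p : ℕ) : (l ^ a) ^ p = l ^ ((p : ℝ) * a) := by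
  rw [← Real.rpow_natCast, ← Real.rpow_mul h0.le, mul_comm]

/-- Deterministic bounds. -/
lemma Dom.det (hν : NiceLaw ν R s2 C τ τ') (hS : Good S) (hG : ∀ π ∈ S, Continuous (G π)) (K : ℝ)
    (h : ∀ π ∈ S, ∀ V, |G π V| ≤ K * π.lam ^ a) : Dom ν d S G a := by
  refine ⟨hG, fun p ε hε => ?_⟩
  refine ⟨|K| ^ p, fun π hπ => ?_⟩
  have h0 := (hS π hπ).1
  have h1 := (hS π hπ).2
  have h2 : Ex ν (fun V : Tor d π.n → ℝ => |G π V| ^ p) ≤
      Ex ν (fun _ : Tor d π.n → ℝ => (|K| * π.lam ^ a) ^ p) := by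
    refine dom1_Ex_mono hν (dom1_cont (hG π hπ) p) continuous_const fun V => ?_
    exact pow_le_pow_left₀ (abs_nonneg _)
      ((h π hπ V).trans (dom1_abs (Real.rpow_nonneg h0.le _))) p
  refine h2.trans ?_
  rw [dom1_Ex_const hν, mul_pow, dom1_pow_rpow h0]
  exact mul_le_mul_of_nonneg_left (dom1_rpow h0 h1 (by linarith)) (by positivity)

lemma Dom.add (hν : NiceLaw ν R s2 C τ τ') (hS : Good S) (hF : Dom ν d S F a)
    (hG : Dom ν d S G a) : Dom ν d S (fun π V => F π V + G π V) a := by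
  have _ := hS
  refine ⟨fun π hπ => (hF.1 π hπ).add (hG.1 π hπ), fun p ε hε => ?_⟩
  obtain ⟨K, hK⟩ := hF.2 p ε hε
  obtain ⟨L, hL⟩ := hG.2 p ε hε
  refine ⟨2 ^ (p - 1) * (K + L), fun π hπ => ?_⟩
  have h2 : Ex ν (fun V : Tor d π.n → ℝ => |F π V + G π V| ^ p) ≤
      Ex ν (fun V : Tor d π.n → ℝ => 2 ^ (p - 1) * (|F π V| ^ p + |G π V| ^ p)) := by
    refine dom1_Ex_mono hν (dom1_cont ((hF.1 π hπ).add (hG.1 π hπ)) p)
      (continuous_const.mul ((dom1_cont (hF.1 π hπ) p).add (dom1_cont (hG.1 π hπ) p))) fun V => ?_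
    exact (pow_le_pow_left₀ (abs_nonneg _) (abs_add_le _ _) p).trans
      (add_pow_le (abs_nonneg _) (abs_nonneg _) p)
  refine h2.trans ?_
  rw [dom1_Ex_mul, dom1_Ex_add hν (dom1_cont (hF.1 π hπ) p) (dom1_cont (hG.1 π hπ) p),
    mul_assoc, add_mul]
  exact mul_le_mul_of_nonneg_left (add_le_add (hK π hπ) (hL π hπ)) (by positivity)

lemma Dom.mul (hν : NiceLaw ν R s2 C τ τ') (hS : Good S) (hF : Dom ν d S F a)
    (hG : Dom ν d S G b) : Dom ν d S (fun π V => F π V * G π V) (a + b) := by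
  refine ⟨fun π hπ => (hF.1 π hπ).mul (hG.1 π hπ), fun p ε hε => ?_⟩
  obtain ⟨K, hK⟩ := hF.2 (2 * p) ε hε
  obtain ⟨L, hL⟩ := hG.2 (2 * p) ε hε
  refine ⟨K + L, fun π hπ => ?_⟩
  have h0 := (hS π hπ).1
  set s : ℝ := π.lam ^ ((p : ℝ) * (b - a)) with hs
  set t : ℝ := π.lam ^ ((p : ℝ) * (a - b)) with ht
  have hst : s * t = 1 := by
    rw [hs, ht, ← Real.rpow_add h0]
    have : (p : ℝ) * (b - a) + p * (a - b) = 0 := by ring
    rw [this, Real.rpow_zero]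
  have hs0 : 0 < s := Real.rpow_pos_of_pos h0 _
  have ht0 : 0 < t := Real.rpow_pos_of_pos h0 _
  have h2 : Ex ν (fun V : Tor d π.n → ℝ => |F π V * G π V| ^ p) ≤
      Ex ν (fun V : Tor d π.n → ℝ => s * |F π V| ^ (2 * p) + t * |G π V| ^ (2 * p)) := by
    refine dom1_Ex_mono hν (dom1_cont ((hF.1 π hπ).mul (hG.1 π hπ)) p)
      ((continuous_const.mul (dom1_cont (hF.1 π hπ) _)).add
        (continuous_const.mul (dom1_cont (hG.1 π hπ) _))) fun V => ?_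
    have hx : 0 ≤ |F π V| ^ p := by positivity
    have hy : 0 ≤ |G π V| ^ p := by positivity
    rw [abs_mul, mul_pow, mul_comm 2 p, pow_mul, pow_mul]
    set x : ℝ := |F π V| ^ p
    set y : ℝ := |G π V| ^ p
    have h3 : 0 ≤ s * (x - t * y) ^ 2 := by positivity
    have h4 : s * (x - t * y) ^ 2 = s * x ^ 2 - 2 * (s * t) * (x * y) + (s * t) * (t * y ^ 2) := by
      ring
    rw [h4, hst] at h3
    have h5 := mul_nonneg hx hy
    linarith
  refine h2.trans ?_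
  rw [dom1_Ex_add hν (dom1_cc s (dom1_cont (hF.1 π hπ) (2 * p)))
    (dom1_cc t (dom1_cont (hG.1 π hπ) (2 * p))), dom1_Ex_mul, dom1_Ex_mul, add_mul]
  have h6 := mul_le_mul_of_nonneg_left (hK π hπ) hs0.le
  have h7 := mul_le_mul_of_nonneg_left (hL π hπ) ht0.le
  have h8 : s * (K * π.lam ^ (((2 * p : ℕ) : ℝ) * a - ε)) = K * π.lam ^ ((p : ℝ) * (a + b) - ε) := by
    rw [hs, mul_left_comm, ← Real.rpow_add h0]
    congr 2
    push_cast
    ring
  have h9 : t * (L * π.lam ^ (((2 * p : ℕ) : ℝ) * b - ε)) = L * π.lam ^ ((p : ℝ) * (a + b) - ε) := by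
    rw [ht, mul_left_comm, ← Real.rpow_add h0]
    congr 2
    push_cast
    ring
  rw [h8] at h6
  rw [h9] at h7
  exact add_le_add h6 h7

/-- Multiplication by a deterministic factor of size `lam^b`. -/
lemma Dom.det_mul (hν : NiceLaw ν R s2 C τ τ') (hS : Good S) (hF : Dom ν d S F a) (K : ℝ)
    (c : Par → ℝ) (hc : ∀ π ∈ S, |c π| ≤ K * π.lam ^ b) :
    Dom ν d S (fun π V => c π * F π V) (b + a) := by
  have _ := hν
  refine ⟨fun π hπ => continuous_const.mul (hF.1 π hπ), fun p ε hε => ?_⟩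
  obtain ⟨L, hL⟩ := hF.2 p ε hε
  refine ⟨|K| ^ p * |L|, fun π hπ => ?_⟩
  have h0 := (hS π hπ).1
  have h1 : (fun V : Tor d π.n → ℝ => |c π * F π V| ^ p) = fun V => |c π| ^ p * |F π V| ^ p := by
    funext V
    rw [abs_mul, mul_pow]
  rw [h1, dom1_Ex_mul]
  have h2 : |c π| ^ p ≤ |K| ^ p * π.lam ^ ((p : ℝ) * b) := by
    rw [← dom1_pow_rpow h0, ← mul_pow]
    exact pow_le_pow_left₀ (abs_nonneg _)
      ((hc π hπ).trans (dom1_abs (Real.rpow_nonneg h0.le _))) p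
  have h3 : Ex ν (fun V : Tor d π.n → ℝ => |F π V| ^ p) ≤ |L| * π.lam ^ ((p : ℝ) * a - ε) :=
    (hL π hπ).trans (dom1_abs (Real.rpow_nonneg h0.le _))
  have h4 : 0 ≤ Ex ν (fun V : Tor d π.n → ℝ => |F π V| ^ p) :=
    dom1_Ex_nonneg fun V => by positivity
  refine (mul_le_mul h2 h3 h4 (by positivity)).trans (le_of_eq ?_)
  have h5 : |K| ^ p * π.lam ^ ((p : ℝ) * b) * (|L| * π.lam ^ ((p : ℝ) * a - ε)) =
      |K| ^ p * |L| * (π.lam ^ ((p : ℝ) * b) * π.lam ^ ((p : ℝ) * a - ε)) := by ring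
  rw [h5, ← Real.rpow_add h0]
  congr 2
  ring

lemma Dom.const_mul (hν : NiceLaw ν R s2 C τ τ') (hS : Good S) (c : ℝ) (hF : Dom ν d S F a) :
    Dom ν d S (fun π V => c * F π V) a := by
  have h := Dom.det_mul (b := 0) hν hS hF |c| (fun _ => c) (fun π _ => by simp)
  rwa [zero_add] at h

/-- Real powers of nonnegative variables. -/
lemma Dom.rpow (hν : NiceLaw ν R s2 C τ τ') (hS : Good S) (hF : Dom ν d S F a)
    (h0 : ∀ π ∈ S, ∀ V, 0 ≤ F π V) {s : ℝ} (hs : 0 ≤ s) :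
    Dom ν d S (fun π V => F π V ^ s) (s * a) := by
  have hcont : ∀ π ∈ S, Continuous fun V => F π V ^ s := fun π hπ =>
    (hF.1 π hπ).rpow_const fun V => Or.inr hs
  refine ⟨hcont, fun p ε hε => ?_⟩
  obtain ⟨m, hm⟩ := exists_nat_ge (s * p)
  obtain ⟨K, hK⟩ := hF.2 m ε hε
  refine ⟨1 + |K|, fun π hπ => ?_⟩
  have hl := (hS π hπ).1
  have hl1 := (hS π hπ).2
  set t : ℝ := π.lam ^ a with ht
  have ht0 : 0 < t := Real.rpow_pos_of_pos hl _
  have hsp : 0 ≤ s * p := by positivity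
  have h2 : Ex ν (fun V : Tor d π.n → ℝ => |F π V ^ s| ^ p) ≤
      Ex ν (fun V : Tor d π.n → ℝ => t ^ (s * p) + t ^ (s * p - m) * |F π V| ^ m) := by
    refine dom1_Ex_mono hν (dom1_cont (hcont π hπ) p)
      (continuous_const.add (continuous_const.mul (dom1_cont (hF.1 π hπ) m))) fun V => ?_
    have hx := h0 π hπ V
    have h3 : |F π V ^ s| ^ p = F π V ^ (s * p) := by
      rw [abs_of_nonneg (Real.rpow_nonneg hx _), ← Real.rpow_natCast, ← Real.rpow_mul hx]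
    rw [h3, abs_of_nonneg hx]
    have hpos1 : 0 ≤ t ^ (s * p) := Real.rpow_nonneg ht0.le _
    have hpos2 : 0 ≤ t ^ (s * p - m) * F π V ^ m := by positivity
    rcases le_or_gt (F π V) t with hle | hgt
    · have := Real.rpow_le_rpow hx hle hsp
      linarith
    · have hx0 : 0 < F π V := ht0.trans hgt
      have h4 : F π V ^ (s * p) ≤ t ^ (s * p - m) * F π V ^ m := by
        have h5 : F π V ^ (s * p) = F π V ^ (s * p - m) * F π V ^ m := by
          rw [← Real.rpow_natCast (F π V) m, ← Real.rpow_add hx0, sub_add_cancel]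
        rw [h5]
        refine mul_le_mul_of_nonneg_right ?_ (by positivity)
        exact Real.rpow_le_rpow_of_nonpos ht0 hgt.le (by linarith)
      linarith
  refine h2.trans ?_
  rw [dom1_Ex_add hν continuous_const (dom1_cc (t ^ (s * p - m)) (dom1_cont (hF.1 π hπ) m)),
    dom1_Ex_const hν, dom1_Ex_mul]
  have h6 : t ^ (s * p) ≤ π.lam ^ ((p : ℝ) * (s * a) - ε) := by
    rw [ht, ← Real.rpow_mul hl.le]
    refine dom1_rpow hl hl1 ?_
    have : (p : ℝ) * (s * a) = a * (s * p) := by ring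
    linarith
  have h7 : t ^ (s * p - m) * Ex ν (fun V : Tor d π.n → ℝ => |F π V| ^ m) ≤
      |K| * π.lam ^ ((p : ℝ) * (s * a) - ε) := by
    have h8 : Ex ν (fun V : Tor d π.n → ℝ => |F π V| ^ m) ≤ |K| * π.lam ^ ((m : ℝ) * a - ε) :=
      (hK π hπ).trans (dom1_abs (Real.rpow_nonneg hl.le _))
    refine (mul_le_mul_of_nonneg_left h8 (Real.rpow_nonneg ht0.le _)).trans (le_of_eq ?_)
    rw [ht, ← Real.rpow_mul hl.le, mul_left_comm, ← Real.rpow_add hl]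
    congr 2
    ring
  rw [add_mul, one_mul]
  exact add_le_add h6 h7

lemma Dom.pow (hν : NiceLaw ν R s2 C τ τ') (hS : Good S) (hF : Dom ν d S F a) (k : ℕ) :
    Dom ν d S (fun π V => F π V ^ k) (k * a) := by
  have _ := hν
  have _ := hS
  refine ⟨fun π hπ => (hF.1 π hπ).pow k, fun p ε hε => ?_⟩
  obtain ⟨K, hK⟩ := hF.2 (k * p) ε hε
  refine ⟨K, fun π hπ => ?_⟩
  have h := hK π hπ
  have h1 : (fun V : Tor d π.n → ℝ => |F π V ^ k| ^ p) = fun V => |F π V| ^ (k * p) := by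
    funext V
    rw [abs_pow, pow_mul]
  have h2 : ((k * p : ℕ) : ℝ) * a - ε = (p : ℝ) * (k * a) - ε := by
    push_cast
    ring
  rw [h1, ← h2]
  exact h

/-- First moments. -/
lemma Dom.mean (hν : NiceLaw ν R s2 C τ τ') (hS : Good S) (hF : Dom ν d S F a) {ε : ℝ}
    (hε : 0 < ε) : ∃ K : ℝ, 0 < K ∧ ∀ π ∈ S, Ex ν (fun V => |F π V|) ≤ K * π.lam ^ (a - ε) := by
  have _ := hν
  obtain ⟨K, hK⟩ := hF.2 1 ε hε
  refine ⟨|K| + 1, by positivity, fun π hπ => ?_⟩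
  have h := hK π hπ
  simp only [pow_one, Nat.cast_one, one_mul] at h
  refine h.trans ?_
  have h1 : 0 ≤ π.lam ^ (a - ε) := Real.rpow_nonneg (hS π hπ).1.le _
  have h2 := dom1_abs (C := K) h1
  nlinarith

/-- Tail bound (Markov): `P(|F| ≥ lam^b) ≤ K lam^m` for `b < a` and every `m`. -/
lemma Dom.tail (hν : NiceLaw ν R s2 C τ τ') (hS : Good S) (hF : Dom ν d S F a) (hb : b < a)
    (m : ℝ) : ∃ K : ℝ, 0 < K ∧ ∀ π ∈ S,
      ((Measure.pi fun _ : Tor d π.n => ν) {V | π.lam ^ b ≤ |F π V|}).toReal ≤ K * π.lam ^ m := by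
  obtain ⟨p, hp⟩ := exists_nat_ge ((m + 1) / (a - b))
  have hab : 0 < a - b := by linarith
  rw [div_le_iff₀ hab] at hp
  obtain ⟨K, hK⟩ := hF.2 p 1 one_pos
  refine ⟨|K| + 1, by positivity, fun π hπ => ?_⟩
  have hl := (hS π hπ).1
  have hl1 := (hS π hπ).2
  have := hν.prob
  set t : ℝ := π.lam ^ b with ht
  have ht0 : 0 < t := Real.rpow_pos_of_pos hl _
  have h1 : {V : Tor d π.n → ℝ | t ≤ |F π V|} ⊆ {V | t ^ p ≤ |F π V| ^ p} :=
    fun V hV => pow_le_pow_left₀ ht0.le hV p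
  have h2 := mul_meas_ge_le_integral_of_nonneg
    (μ := Measure.pi fun _ : Tor d π.n => ν) (f := fun V => |F π V| ^ p)
    (Filter.Eventually.of_forall fun V => by positivity)
    (integrable_cont hν (dom1_cont (hF.1 π hπ) p)) (t ^ p)
  have h3 : ((Measure.pi fun _ : Tor d π.n => ν) {V | t ≤ |F π V|}).toReal ≤
      ((Measure.pi fun _ : Tor d π.n => ν) {V | t ^ p ≤ |F π V| ^ p}).toReal :=
    ENNReal.toReal_mono (measure_ne_top _ _) (measure_mono h1)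
  have h4 : t ^ p * ((Measure.pi fun _ : Tor d π.n => ν) {V | t ^ p ≤ |F π V| ^ p}).toReal ≤
      K * π.lam ^ ((p : ℝ) * a - 1) := le_trans h2 (hK π hπ)
  have htp : 0 < t ^ p := by positivity
  have h5 : t ^ p * ((Measure.pi fun _ : Tor d π.n => ν) {V | t ≤ |F π V|}).toReal ≤
      |K| * π.lam ^ ((p : ℝ) * a - 1) :=
    (mul_le_mul_of_nonneg_left h3 htp.le).trans
      (h4.trans (dom1_abs (Real.rpow_nonneg hl.le _)))
  have h6 : |K| * π.lam ^ ((p : ℝ) * a - 1) ≤ t ^ p * ((|K| + 1) * π.lam ^ m) := by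
    have h7 : π.lam ^ ((p : ℝ) * a - 1) ≤ t ^ p * π.lam ^ m := by
      rw [ht, dom1_pow_rpow hl, ← Real.rpow_add hl]
      refine dom1_rpow hl hl1 ?_
      linarith
    have h8 := mul_le_mul_of_nonneg_left h7 (abs_nonneg K)
    have h9 : 0 ≤ t ^ p * π.lam ^ m := by positivity
    nlinarith
  exact le_of_mul_le_mul_left (h5.trans h6) htp

end Pool.Agent.BK
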