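import Pool.Agent.BK.Dom1

/-! BK module DOM2: suprema over polynomially many indices. If moments of `F π i` of arbitrarily high
order are `O(lam^(p a - ε))` uniformly in `i`, then so are all moments of `sup_i |F π i|`:
for given `p, ε` take `P ≥ p` large from the hypothesis, `y = lam^(a - ε/p)`,
`(sup_i |F_i|)^p ≤ y^p + (sup_i |F_i|)^P / y^(P-p) ≤ y^p + ∑_i |F_i|^P / y^(P-p)` with
`#ι ≤ B lam^{-K}`, and `K + ε ≤ ε P/p`. -/

open MeasureTheory Finset

noncomputable section

namespace Pool.Agent.BK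

variable {ν : Measure ℝ} {R s2 C : ℝ} {τ τ' : ℝ → ℝ} {d : ℕ} {S : Set Par} {a : ℝ}

lemma dom2_cont_iSup {X ι : Type} [TopologicalSpace X] [Fintype ι] [Nonempty ι] {f : ι → X → ℝ}
    (hf : ∀ i, Continuous (f i)) : Continuous (fun x => ⨆ i, f i x) := by
  have h : (fun x => ⨆ i, f i x) = fun x => Finset.univ.sup' Finset.univ_nonempty (fun i => f i x) := by
    funext x
    rw [Finset.sup'_univ_eq_ciSup]
  rw [h]
  exact Continuous.finset_sup'_apply Finset.univ_nonempty (fun i _ => hf i)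

lemma dom2_pow_le {M y : ℝ} (hM : 0 ≤ M) (hy : 0 < y) {p P : ℕ} (hpP : p ≤ P) :
    M ^ p ≤ y ^ p + M ^ P / y ^ (P - p) := by
  rcases le_or_gt M y with h | h
  · have h1 : M ^ p ≤ y ^ p := pow_le_pow_left₀ hM h p
    have h2 : 0 ≤ M ^ P / y ^ (P - p) := by positivity
    linarith
  · have h1 : M ^ p ≤ M ^ P / y ^ (P - p) := by
      rw [le_div_iff₀ (by positivity)]
      calc M ^ p * y ^ (P - p) ≤ M ^ p * M ^ (P - p) :=
            mul_le_mul_of_nonneg_left (pow_le_pow_left₀ hy.le h.le _) (by positivity)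
        _ = M ^ P := by rw [← pow_add, Nat.add_sub_cancel' hpP]
    have h2 : 0 ≤ y ^ p := by positivity
    linarith

lemma dom2_sup_pow_le {ι : Type} [Fintype ι] [Nonempty ι] (f : ι → ℝ) (P : ℕ) :
    (⨆ i, |f i|) ^ P ≤ ∑ i, |f i| ^ P := by
  obtain ⟨i, hi⟩ := exists_eq_ciSup_of_finite (f := fun i => |f i|)
  rw [← hi]
  exact Finset.single_le_sum (f := fun i => |f i| ^ P) (fun j _ => by positivity)
    (Finset.mem_univ i)

theorem Dom.iSup (hν : NiceLaw ν R s2 C τ τ') (hS : Good S) (ι : Par → Type)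
    [∀ π, Fintype (ι π)] [∀ π, Nonempty (ι π)] (B K : ℝ)
    (hcard : ∀ π ∈ S, (Fintype.card (ι π) : ℝ) ≤ B * π.lam ^ (-K))
    (F : (π : Par) → ι π → (Tor d π.n → ℝ) → ℝ) (hc : ∀ π ∈ S, ∀ i, Continuous (F π i))
    (h : ∀ p0 : ℕ, ∃ p : ℕ, p0 ≤ p ∧ ∀ ε : ℝ, 0 < ε → ∃ D : ℝ, ∀ π ∈ S, ∀ i,
      Ex ν (fun V : Tor d π.n → ℝ => |F π i V| ^ p) ≤ D * π.lam ^ (p * a - ε)) :
    Dom ν d S (fun π V => ⨆ i, |F π i V|) a := by
  have := hν.prob
  have hcont : ∀ π ∈ S, Continuous (fun V : Tor d π.n → ℝ => ⨆ i, |F π i V|) := fun π hπ =>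
    dom2_cont_iSup (fun i => (hc π hπ i).abs)
  refine ⟨hcont, fun p ε hε => ?_⟩
  rcases Nat.eq_zero_or_pos p with hp | hp
  · subst hp
    refine ⟨1, fun π hπ => ?_⟩
    obtain ⟨l0, l1⟩ := hS π hπ
    have h1 : Ex ν (fun V : Tor d π.n → ℝ => abs (⨆ i, |F π i V|) ^ 0) = 1 := by
      simp [Ex]
    rw [h1, one_mul]
    exact Real.one_le_rpow_of_pos_of_le_one_of_nonpos l0 l1 (by simp; linarith)
  · have hpR : (0 : ℝ) < p := by exact_mod_cast hp
    obtain ⟨P, hP, hD⟩ := h (max p ⌈p * (|K| + ε) / ε⌉₊)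
    obtain ⟨D, hD⟩ := hD ε hε
    have hpP : p ≤ P := (le_max_left _ _).trans hP
    have hPK : |K| + ε ≤ ε * P / p := by
      have h1 : p * (|K| + ε) / ε ≤ P := (Nat.le_ceil _).trans (by
        exact_mod_cast (le_max_right _ _).trans hP)
      rw [div_le_iff₀ hε] at h1
      rw [le_div_iff₀ hpR]
      linarith
    refine ⟨1 + |B| * |D|, fun π hπ => ?_⟩
    obtain ⟨l0, l1⟩ := hS π hπ
    set lam := π.lam with hlam
    set y : ℝ := lam ^ (a - ε / p) with hy
    have hy0 : 0 < y := Real.rpow_pos_of_pos l0 _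
    have hsumc : Continuous (fun V : Tor d π.n → ℝ => ∑ i, |F π i V| ^ P) :=
      continuous_finsetSum _ (fun i _ => ((hc π hπ i).abs).pow P)
    have hup : Ex ν (fun V : Tor d π.n → ℝ => abs (⨆ i, |F π i V|) ^ p) ≤
        Ex ν (fun V : Tor d π.n → ℝ => y ^ p + (∑ i, |F π i V| ^ P) / y ^ (P - p)) := by
      refine Ex_mono hν ((hcont π hπ).abs.pow p) (continuous_const.add (hsumc.div_const _))
        (fun V => ?_)
      have h0 : 0 ≤ ⨆ i, |F π i V| := Real.iSup_nonneg fun i => abs_nonneg _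
      rw [abs_of_nonneg h0]
      refine (dom2_pow_le h0 hy0 hpP).trans ?_
      have := div_le_div_of_nonneg_right (dom2_sup_pow_le (fun i => F π i V) P)
        (by positivity : 0 ≤ y ^ (P - p))
      linarith
    have hval : Ex ν (fun V : Tor d π.n → ℝ => y ^ p + (∑ i, |F π i V| ^ P) / y ^ (P - p)) =
        y ^ p + (∑ i, Ex ν (fun V : Tor d π.n → ℝ => |F π i V| ^ P)) / y ^ (P - p) := by
      have hint : ∀ i, Integrable (fun V : Tor d π.n → ℝ => |F π i V| ^ P)
          (Measure.pi fun _ : Tor d π.n => ν) :=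
        fun i => integrable_cont hν (((hc π hπ i).abs).pow P)
      unfold Ex
      rw [integral_add (integrable_const _) ((integrable_cont hν hsumc).div_const _),
        integral_const, integral_div, integral_finsetSum _ (fun i _ => hint i)]
      simp
    have hsum : (∑ i, Ex ν (fun V : Tor d π.n → ℝ => |F π i V| ^ P)) ≤
        (|B| * lam ^ (-K)) * (|D| * lam ^ (P * a - ε)) := by
      have hl : 0 < lam ^ (P * a - ε) := Real.rpow_pos_of_pos l0 _
      have hl' : 0 < lam ^ (-K) := Real.rpow_pos_of_pos l0 _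
      calc (∑ i, Ex ν (fun V : Tor d π.n → ℝ => |F π i V| ^ P))
          ≤ ∑ _i : ι π, |D| * lam ^ (P * a - ε) := Finset.sum_le_sum (fun i _ =>
            (hD π hπ i).trans (mul_le_mul_of_nonneg_right (le_abs_self D) hl.le))
        _ = (Fintype.card (ι π) : ℝ) * (|D| * lam ^ (P * a - ε)) := by
            rw [Finset.sum_const, Finset.card_univ, nsmul_eq_mul]
        _ ≤ (|B| * lam ^ (-K)) * (|D| * lam ^ (P * a - ε)) := by
            apply mul_le_mul_of_nonneg_right _ (by positivity)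
            exact (hcard π hπ).trans (mul_le_mul_of_nonneg_right (le_abs_self B) hl'.le)
    have hyp : y ^ p = lam ^ (p * a - ε) := by
      rw [hy, ← Real.rpow_natCast, ← Real.rpow_mul l0.le]
      congr 1
      field_simp
    have hyP : y ^ (P - p) = lam ^ ((a - ε / p) * (P - p)) := by
      rw [hy, ← Real.rpow_natCast, ← Real.rpow_mul l0.le, Nat.cast_sub hpP]
    rw [hval] at hup
    refine hup.trans ?_
    have hlast : (|B| * lam ^ (-K)) * (|D| * lam ^ (P * a - ε)) / y ^ (P - p) ≤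
        |B| * |D| * lam ^ (p * a - ε) := by
      rw [hyP]
      have e : (|B| * lam ^ (-K)) * (|D| * lam ^ (P * a - ε)) / lam ^ ((a - ε / p) * (P - p)) =
          |B| * |D| * lam ^ (-K + (P * a - ε) - (a - ε / p) * (P - p)) := by
        rw [Real.rpow_sub l0 (-K + (P * a - ε)) ((a - ε / p) * (P - p)),
          Real.rpow_add l0 (-K) (P * a - ε)]
        ring
      rw [e]
      apply mul_le_mul_of_nonneg_left _ (by positivity)
      apply Real.rpow_le_rpow_of_exponent_ge l0 l1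
      have e2 : -K + (P * a - ε) - (a - ε / p) * (P - p) =
          (p * a - ε) + (ε * P / p - ε - K) := by
        field_simp
        ring
      rw [e2]
      have := le_abs_self K
      linarith
    have hfin : (∑ i, Ex ν (fun V : Tor d π.n → ℝ => |F π i V| ^ P)) / y ^ (P - p) ≤
        |B| * |D| * lam ^ (p * a - ε) :=
      (div_le_div_of_nonneg_right hsum (by positivity)).trans hlast
    rw [hyp]
    linarith

/-- The number of sites is at most polynomial. -/
lemma card_Tor_le {lo hi lam0 e1 e2 : ℝ} (hl : lam0 ≤ 1) (π : Par) (hπ : π ∈ PS lo hi lam0 e1 e2) :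
    (Fintype.card (Tor d π.n) : ℝ) ≤ π.lam ^ (-(43 * d : ℝ)) := by
  obtain ⟨h0, _, _, h1, _⟩ := hπ
  have hc : (Fintype.card (Tor d π.n) : ℝ) = (2 * (π.n : ℝ) + 1) ^ d := by
    rw [Fintype.card_fun, ZMod.card, Fintype.card_fin]
    push_cast
    ring
  rw [hc]
  have h2 : (2 * (π.n : ℝ) + 1) ^ d ≤ (π.lam ^ (-(43 : ℝ))) ^ d :=
    pow_le_pow_left₀ (by positivity) h1 d
  refine h2.trans (le_of_eq ?_)
  rw [← Real.rpow_natCast, ← Real.rpow_mul h0.le]
  congr 1
  ring

end Pool.Agent.BK
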