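import Pool.Agent.BK.Res2

/-! BK module LEV: interpolation between `ℓ¹ → ℓ^∞` (norm `α`) and `ℓ² → ℓ²` (norm `β`) at the midpoint
`ℓ^{4/3} → ℓ⁴`, with a logarithmic loss, by level sets.

Normalise `‖f‖_{4/3} = ‖g‖_{4/3} = 1`, so `|f| ≤ 1`. `f_a = f 1{2^{-a-1} < |f| ≤ 2^{-a}}`, `0 ≤ a < L`,
`f_rem` = the part with `|f| ≤ 2^{-L}`, `2^L ≥ card X`. For the pieces
`|⟨g_b, T f_a⟩| ≤ min(α ‖g_b‖_1‖f_a‖_1, β ‖g_b‖_2 ‖f_a‖_2) ≤ √(αβ) (‖g_b‖_1‖g_b‖_2‖f_a‖_1‖f_a‖_2)^{1/2}` and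
`(‖f_a‖_1 ‖f_a‖_2)^{1/2} ≤ 2^{-a} m_a^{3/4} ≤ 2 ‖f_a‖_{4/3} ≤ 2` (`m_a` = size of the support); the
remainder satisfies `‖f_rem‖_1 ‖f_rem‖_2 ≤ 1`. -/

open Finset Matrix

noncomputable section

namespace Pool.Agent.BK

namespace Lev

variable {X : Type} [Fintype X] [DecidableEq X]

lemma nsq_nonneg (h : X → ℂ) : 0 ≤ nsq h := Finset.sum_nonneg fun _ _ => by positivity

/-- Bound of `‖h‖_1 ‖h‖_2` by the size of the support and the maximum. -/
lemma prod_le (h : X → ℂ) (A : Finset X) (t : ℝ) (ht : 0 ≤ t) (h0 : ∀ x, x ∉ A → h x = 0)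
    (h1 : ∀ x, ‖h x‖ ≤ t) :
    (∑ x, ‖h x‖) * √(nsq h) ≤ (A.card * √A.card) * t ^ 2 := by
  have e1 : ∑ x, ‖h x‖ ≤ A.card * t := by
    rw [← Finset.sum_subset (Finset.subset_univ A) (fun x _ hx => by rw [h0 x hx, norm_zero])]
    calc ∑ x ∈ A, ‖h x‖ ≤ ∑ _x ∈ A, t := Finset.sum_le_sum fun x _ => h1 x
      _ = A.card * t := by rw [Finset.sum_const, nsmul_eq_mul]
  have e2 : nsq h ≤ A.card * t ^ 2 := by
    unfold nsq
    rw [← Finset.sum_subset (Finset.subset_univ A)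
      (fun x _ hx => by rw [h0 x hx, norm_zero]; ring)]
    calc ∑ x ∈ A, ‖h x‖ ^ 2 ≤ ∑ _x ∈ A, t ^ 2 :=
          Finset.sum_le_sum fun x _ => pow_le_pow_left₀ (norm_nonneg _) (h1 x) 2
      _ = A.card * t ^ 2 := by rw [Finset.sum_const, nsmul_eq_mul]
  have e3 : √(nsq h) ≤ √A.card * t := by
    calc √(nsq h) ≤ √(A.card * t ^ 2) := Real.sqrt_le_sqrt e2
      _ = √A.card * t := by
        rw [Real.sqrt_mul (by positivity), Real.sqrt_sq ht]
  calc (∑ x, ‖h x‖) * √(nsq h) ≤ (A.card * t) * (√A.card * t) :=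
        mul_le_mul e1 e3 (Real.sqrt_nonneg _) (by positivity)
    _ = (A.card * √A.card) * t ^ 2 := by ring

/-- The truncation of `f` to `{|f| ≤ s / 2^k}`. -/
def G (f : X → ℂ) (s : ℝ) (k : ℕ) (x : X) : ℂ := if ‖f x‖ ≤ s / 2 ^ k then f x else 0

lemma G_sub (f : X → ℂ) (s : ℝ) (hs : 0 ≤ s) (k : ℕ) (x : X) :
    G f s k x - G f s (k + 1) x =
      if s / 2 ^ (k + 1) < ‖f x‖ ∧ ‖f x‖ ≤ s / 2 ^ k then f x else 0 := by
  have h : s / 2 ^ (k + 1) ≤ s / 2 ^ k := by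
    rw [pow_succ]
    exact div_le_div_of_nonneg_left hs (by positivity)
      (by nlinarith [pow_pos (two_pos : (0:ℝ) < 2) k])
  unfold G
  by_cases h1 : ‖f x‖ ≤ s / 2 ^ (k + 1)
  · rw [if_pos (h1.trans h), if_pos h1, if_neg (by rintro ⟨h2, _⟩; linarith), sub_self]
  · rw [if_neg h1, sub_zero]
    by_cases h2 : ‖f x‖ ≤ s / 2 ^ k
    · rw [if_pos h2, if_pos ⟨not_le.1 h1, h2⟩]
    · rw [if_neg h2, if_neg (fun h3 => h2 h3.2)]

lemma dec (f : X → ℂ) : ∃ (L : ℕ) (F : ℕ → X → ℂ), (∀ x, f x = ∑ a ∈ range L, F a x) ∧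
    (∀ a, (∑ x, ‖F a x‖) * √(nsq (F a)) ≤
      4 * ((∑ x, ‖f x‖ ^ (4 / 3 : ℝ)) ^ (3 / 4 : ℝ)) ^ 2) ∧
    (L : ℝ) ≤ 4 * (1 + Real.log (Fintype.card X)) := by
  set S : ℝ := ∑ x, ‖f x‖ ^ (4 / 3 : ℝ) with hS
  have hlog : 0 ≤ Real.log (Fintype.card X) := Real.log_natCast_nonneg _
  have hS0 : 0 ≤ S := Finset.sum_nonneg fun x _ => by positivity
  rcases hS0.eq_or_lt with h0 | hpos
  · have hf : ∀ x, f x = 0 := by
      intro x
      have := (Finset.sum_eq_zero_iff_of_nonneg (fun x _ => by positivity)).1 h0.symm x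
        (Finset.mem_univ x)
      have h2 : ‖f x‖ = 0 := (Real.rpow_eq_zero (norm_nonneg _) (by norm_num)).1 this
      exact norm_eq_zero.1 h2
    refine ⟨0, fun _ _ => 0, fun x => by simp [hf x], fun a => ?_, ?_⟩
    · simp only [norm_zero, Finset.sum_const_zero, zero_mul]; positivity
    · simp only [Nat.cast_zero]; positivity
  · set s : ℝ := S ^ (3 / 4 : ℝ) with hs
    have hs0 : 0 < s := Real.rpow_pos_of_pos hpos _
    have hsS : s ^ (4 / 3 : ℝ) = S := by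
      rw [hs, ← Real.rpow_mul hS0]; norm_num
    have hle : ∀ x, ‖f x‖ ≤ s := by
      intro x
      have h1 : ‖f x‖ ^ (4 / 3 : ℝ) ≤ S :=
        Finset.single_le_sum (f := fun x => ‖f x‖ ^ (4 / 3 : ℝ)) (fun x _ => by positivity)
          (Finset.mem_univ x)
      have h2 := Real.rpow_le_rpow (by positivity) h1 (by norm_num : (0:ℝ) ≤ 3 / 4)
      rw [← Real.rpow_mul (norm_nonneg _)] at h2
      norm_num at h2
      exact h2
    have hne : Nonempty X := by
      by_contra hcon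
      rw [not_nonempty_iff] at hcon
      rw [hS, Finset.univ_eq_empty, Finset.sum_empty] at hpos
      exact lt_irrefl _ hpos
    set n : ℕ := Fintype.card X with hn
    have hn1 : 1 ≤ n := Fintype.card_pos
    have hn1' : (1 : ℝ) ≤ n := by exact_mod_cast hn1
    set L : ℕ := Nat.clog 2 n with hL
    have hnL : (n : ℝ) ≤ 2 ^ L := by exact_mod_cast Nat.le_pow_clog (by norm_num) n
    refine ⟨L + 1, fun a x => if a < L then G f s a x - G f s (a + 1) x else G f s L x,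
      ?_, ?_, ?_⟩
    · intro x
      rw [Finset.sum_range_succ]
      simp only []
      rw [if_neg (lt_irrefl L),
        Finset.sum_congr rfl (fun a ha => if_pos (Finset.mem_range.1 ha)),
        Finset.sum_range_sub']
      have : G f s 0 x = f x := by
        unfold G; rw [if_pos]; simpa using hle x
      rw [this]; ring
    · intro a
      by_cases ha : a < L
      · simp only [if_pos ha]
        have key := prod_le (fun x => G f s a x - G f s (a + 1) x)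
          (Finset.univ.filter fun x => s / 2 ^ (a + 1) < ‖f x‖) (s / 2 ^ a) (by positivity)
          (by
            intro x hx
            rw [Finset.mem_filter] at hx
            rw [G_sub f s hs0.le, if_neg (fun h => hx ⟨Finset.mem_univ x, h.1⟩)])
          (by
            intro x
            rw [G_sub f s hs0.le]
            split_ifs with h
            · exact h.2
            · rw [norm_zero]; positivity)
        refine key.trans ?_
        set A := Finset.univ.filter fun x => s / 2 ^ (a + 1) < ‖f x‖ with hA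
        have h1 : (A.card : ℝ) * (s / 2 ^ (a + 1)) ^ (4 / 3 : ℝ) ≤ S := by
          calc (A.card : ℝ) * (s / 2 ^ (a + 1)) ^ (4 / 3 : ℝ)
              = ∑ _x ∈ A, (s / 2 ^ (a + 1)) ^ (4 / 3 : ℝ) := by
                rw [Finset.sum_const, nsmul_eq_mul]
            _ ≤ ∑ x ∈ A, ‖f x‖ ^ (4 / 3 : ℝ) := by
                refine Finset.sum_le_sum fun x hx => ?_
                exact Real.rpow_le_rpow (by positivity) (Finset.mem_filter.1 hx).2.le (by norm_num)
            _ ≤ S := Finset.sum_le_sum_of_subset_of_nonneg (Finset.subset_univ _)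
                (fun x _ _ => by positivity)
        have h2 : (A.card : ℝ) ≤ ((2 : ℝ) ^ (a + 1)) ^ (4 / 3 : ℝ) := by
          rw [Real.div_rpow hs0.le (by positivity), hsS, mul_div_assoc', div_le_iff₀ (by positivity),
            mul_comm] at h1
          exact le_of_mul_le_mul_left h1 hpos
        have h3 : (A.card : ℝ) * √A.card ≤ ((2 : ℝ) ^ (a + 1)) ^ 2 := by
          have e : (A.card : ℝ) * √A.card = (A.card : ℝ) ^ (3 / 2 : ℝ) := by
            rw [Real.sqrt_eq_rpow]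
            rcases (Nat.cast_nonneg (α := ℝ) A.card).eq_or_lt with h | h
            · rw [← h]; norm_num
            · nth_rewrite 1 [← Real.rpow_one (A.card : ℝ)]
              rw [← Real.rpow_add h]; norm_num
          rw [e]
          calc (A.card : ℝ) ^ (3 / 2 : ℝ) ≤ (((2 : ℝ) ^ (a + 1)) ^ (4 / 3 : ℝ)) ^ (3 / 2 : ℝ) :=
                Real.rpow_le_rpow (by positivity) h2 (by norm_num)
            _ = ((2 : ℝ) ^ (a + 1)) ^ 2 := by
                rw [← Real.rpow_mul (by positivity), ← Real.rpow_natCast]; norm_num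
        calc (A.card * √A.card) * (s / 2 ^ a) ^ 2 ≤ ((2 : ℝ) ^ (a + 1)) ^ 2 * (s / 2 ^ a) ^ 2 :=
              mul_le_mul_of_nonneg_right h3 (by positivity)
          _ = 4 * s ^ 2 := by
              field_simp
              ring
      · simp only [if_neg ha]
        have key := prod_le (fun x => G f s L x) Finset.univ (s / 2 ^ L) (by positivity)
          (fun x hx => absurd (Finset.mem_univ x) hx)
          (by
            intro x
            simp only [G]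
            split_ifs with h
            · exact h
            · rw [norm_zero]; positivity)
        refine key.trans ?_
        rw [Finset.card_univ, ← hn]
        have h1 : √(n : ℝ) ≤ n := by
          rw [Real.sqrt_le_left (by positivity)]; nlinarith
        calc ((n : ℝ) * √n) * (s / 2 ^ L) ^ 2 ≤ ((2 : ℝ) ^ L * 2 ^ L) * (s / 2 ^ L) ^ 2 := by
              refine mul_le_mul_of_nonneg_right ?_ (by positivity)
              exact mul_le_mul hnL (h1.trans hnL) (Real.sqrt_nonneg _) (by positivity)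
          _ = s ^ 2 := by field_simp
          _ ≤ 4 * s ^ 2 := by nlinarith [sq_nonneg s]
    · rcases hn1.eq_or_lt with h1 | h1
      · have : L = 0 := by rw [hL, ← h1]; simp
        rw [this]; push_cast; linarith
      · -- 2^(L-1) < n
        have hL1 : 2 ^ (L - 1) < n := by
          have := Nat.pow_pred_clog_lt_self (b := 2) (by norm_num) h1
          simpa [hL] using this
        have hLpos : 1 ≤ L := Nat.clog_pos (by norm_num) h1
        have h2 : ((L - 1 : ℕ) : ℝ) * Real.log 2 ≤ Real.log n := by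
          rw [← Real.log_pow]
          exact Real.log_le_log (by positivity) (by exact_mod_cast hL1.le)
        have h3 : ((L - 1 : ℕ) : ℝ) = L - 1 := by rw [Nat.cast_sub hLpos]; simp
        rw [h3] at h2
        have h4 : (0.6931471803 : ℝ) < Real.log 2 := Real.log_two_gt_d9
        have h5 : (1 : ℝ) ≤ L := by exact_mod_cast hLpos
        push_cast
        nlinarith
  
lemma norm_B_le1 (T : Matrix X X ℂ) (α : ℝ) (hT : ∀ x y, ‖T x y‖ ≤ α)
    (f g : X → ℂ) : ‖∑ x, g x * (T *ᵥ f) x‖ ≤ α * ((∑ x, ‖f x‖) * ∑ x, ‖g x‖) := by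
  calc ‖∑ x, g x * (T *ᵥ f) x‖ ≤ ∑ x, ‖g x * (T *ᵥ f) x‖ := norm_sum_le _ _
    _ ≤ ∑ x, ‖g x‖ * (α * ∑ y, ‖f y‖) := by
        refine Finset.sum_le_sum fun x _ => ?_
        rw [norm_mul]
        refine mul_le_mul_of_nonneg_left ?_ (norm_nonneg _)
        rw [Matrix.mulVec, dotProduct]
        calc ‖∑ y, T x y * f y‖ ≤ ∑ y, ‖T x y * f y‖ := norm_sum_le _ _
          _ ≤ ∑ y, α * ‖f y‖ := by
              refine Finset.sum_le_sum fun y _ => ?_
              rw [norm_mul]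
              exact mul_le_mul_of_nonneg_right (hT x y) (norm_nonneg _)
          _ = α * ∑ y, ‖f y‖ := by rw [Finset.mul_sum]
    _ = α * ((∑ x, ‖f x‖) * ∑ x, ‖g x‖) := by rw [← Finset.sum_mul]; ring

lemma norm_B_le2 (T : Matrix X X ℂ) (β : ℝ) (hβ : 0 ≤ β)
    (hT : ∀ c : X → ℂ, nsq (T *ᵥ c) ≤ β ^ 2 * nsq c) (f g : X → ℂ) :
    ‖∑ x, g x * (T *ᵥ f) x‖ ≤ β * (√(nsq f) * √(nsq g)) := by
  calc ‖∑ x, g x * (T *ᵥ f) x‖ ≤ ∑ x, ‖g x‖ * ‖(T *ᵥ f) x‖ := by
        refine (norm_sum_le _ _).trans (Finset.sum_le_sum fun x _ => ?_)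
        rw [norm_mul]
    _ ≤ √(∑ x, ‖g x‖ ^ 2) * √(∑ x, ‖(T *ᵥ f) x‖ ^ 2) := Real.sum_mul_le_sqrt_mul_sqrt _ _ _
    _ ≤ √(nsq g) * (β * √(nsq f)) := by
        refine mul_le_mul_of_nonneg_left ?_ (Real.sqrt_nonneg _)
        calc √(∑ x, ‖(T *ᵥ f) x‖ ^ 2) ≤ √(β ^ 2 * nsq f) := Real.sqrt_le_sqrt (hT f)
          _ = β * √(nsq f) := by rw [Real.sqrt_mul (by positivity), Real.sqrt_sq hβ]
    _ = β * (√(nsq f) * √(nsq g)) := by ring

/-- One pair of pieces. -/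
lemma piece (T : Matrix X X ℂ) (α β : ℝ) (hα : 0 ≤ α) (hβ : 0 ≤ β) (hT : ∀ x y, ‖T x y‖ ≤ α)
    (hT2 : ∀ c : X → ℂ, nsq (T *ᵥ c) ≤ β ^ 2 * nsq c) (f g : X → ℂ) (s t : ℝ) (hs : 0 ≤ s)
    (ht : 0 ≤ t) (hf : (∑ x, ‖f x‖) * √(nsq f) ≤ 4 * s ^ 2)
    (hg : (∑ x, ‖g x‖) * √(nsq g) ≤ 4 * t ^ 2) :
    ‖∑ x, g x * (T *ᵥ f) x‖ ≤ 4 * √(α * β) * s * t := by
  have h1 := norm_B_le1 T α hT f g
  have h2 := norm_B_le2 T β hβ hT2 f g
  have h0 := norm_nonneg (∑ x, g x * (T *ᵥ f) x)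
  have hf1 : 0 ≤ ∑ x, ‖f x‖ := Finset.sum_nonneg fun _ _ => norm_nonneg _
  have hg1 : 0 ≤ ∑ x, ‖g x‖ := Finset.sum_nonneg fun _ _ => norm_nonneg _
  have hf2 : 0 ≤ √(nsq f) := Real.sqrt_nonneg _
  have hg2 : 0 ≤ √(nsq g) := Real.sqrt_nonneg _
  refine abs_le_of_sq_le_sq' ?_ (by positivity) |>.2
  calc ‖∑ x, g x * (T *ᵥ f) x‖ ^ 2
      ≤ (α * ((∑ x, ‖f x‖) * ∑ x, ‖g x‖)) * (β * (√(nsq f) * √(nsq g))) := by
        rw [sq]; exact mul_le_mul h1 h2 h0 (by positivity)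
    _ = (α * β) * (((∑ x, ‖f x‖) * √(nsq f)) * ((∑ x, ‖g x‖) * √(nsq g))) := by ring
    _ ≤ (α * β) * ((4 * s ^ 2) * (4 * t ^ 2)) := by
        refine mul_le_mul_of_nonneg_left ?_ (by positivity)
        exact mul_le_mul hf hg (by positivity) (by positivity)
    _ = (4 * √(α * β) * s * t) ^ 2 := by
        rw [mul_pow, mul_pow, mul_pow, Real.sq_sqrt (by positivity)]; ring

end Lev

theorem lev : ∃ C : ℝ, 0 < C ∧ ∀ (X : Type) [Fintype X] [DecidableEq X] (T : Matrix X X ℂ)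
    (α β : ℝ), 0 ≤ α → 0 ≤ β → (∀ x y, ‖T x y‖ ≤ α) → (∀ c : X → ℂ, nsq (T *ᵥ c) ≤ β ^ 2 * nsq c) →
    ∀ f g : X → ℂ, ‖∑ x, g x * (T *ᵥ f) x‖ ≤
      C * √(α * β) * (1 + Real.log (Fintype.card X)) ^ 2 *
        (∑ x, ‖f x‖ ^ (4 / 3 : ℝ)) ^ (3 / 4 : ℝ) * (∑ x, ‖g x‖ ^ (4 / 3 : ℝ)) ^ (3 / 4 : ℝ) := by
  refine ⟨64, by norm_num, ?_⟩
  intro X _ _ T α β hα hβ hT hT2 f g
  obtain ⟨L, F, hF, hF2, hL⟩ := Lev.dec f
  obtain ⟨M, K, hK, hK2, hM⟩ := Lev.dec g
  set s : ℝ := (∑ x, ‖f x‖ ^ (4 / 3 : ℝ)) ^ (3 / 4 : ℝ) with hs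
  set t : ℝ := (∑ x, ‖g x‖ ^ (4 / 3 : ℝ)) ^ (3 / 4 : ℝ) with ht
  have hs0 : 0 ≤ s := by positivity
  have ht0 : 0 ≤ t := by positivity
  have e : ∑ x, g x * (T *ᵥ f) x =
      ∑ b ∈ range M, ∑ a ∈ range L, ∑ x, K b x * (T *ᵥ (F a)) x := by
    have e1 : f = ∑ a ∈ range L, F a := by
      funext x; rw [hF x, Finset.sum_apply]
    have e2 : ∀ x, (T *ᵥ f) x = ∑ a ∈ range L, (T *ᵥ (F a)) x := by
      intro x
      rw [e1, Matrix.mulVec_sum, Finset.sum_apply]
    calc ∑ x, g x * (T *ᵥ f) x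
        = ∑ x, ∑ b ∈ range M, ∑ a ∈ range L, K b x * (T *ᵥ (F a)) x := by
          refine Finset.sum_congr rfl fun x _ => ?_
          rw [e2 x, hK x, Finset.sum_mul_sum]
      _ = ∑ b ∈ range M, ∑ a ∈ range L, ∑ x, K b x * (T *ᵥ (F a)) x := by
          rw [Finset.sum_comm]
          refine Finset.sum_congr rfl fun b _ => ?_
          rw [Finset.sum_comm]
  rw [e]
  have hlog : 0 ≤ Real.log (Fintype.card X) := Real.log_natCast_nonneg _
  calc ‖∑ b ∈ range M, ∑ a ∈ range L, ∑ x, K b x * (T *ᵥ (F a)) x‖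
      ≤ ∑ b ∈ range M, ∑ a ∈ range L, ‖∑ x, K b x * (T *ᵥ (F a)) x‖ := by
        refine (norm_sum_le _ _).trans (Finset.sum_le_sum fun b _ => norm_sum_le _ _)
    _ ≤ ∑ _b ∈ range M, ∑ _a ∈ range L, 4 * √(α * β) * s * t := by
        refine Finset.sum_le_sum fun b _ => Finset.sum_le_sum fun a _ => ?_
        exact Lev.piece T α β hα hβ hT hT2 (F a) (K b) s t hs0 ht0 (hF2 a) (hK2 b)
    _ = (M * L) * (4 * √(α * β) * s * t) := by
        rw [Finset.sum_const, Finset.sum_const, Finset.card_range, Finset.card_range,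
          nsmul_eq_mul, nsmul_eq_mul]; ring
    _ ≤ ((4 * (1 + Real.log (Fintype.card X))) * (4 * (1 + Real.log (Fintype.card X)))) *
          (4 * √(α * β) * s * t) := by
        refine mul_le_mul_of_nonneg_right ?_ (by positivity)
        exact mul_le_mul hM hL (by positivity) (by positivity)
    _ = 64 * √(α * β) * (1 + Real.log (Fintype.card X)) ^ 2 * s * t := by ring

end Pool.Agent.BK
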