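import Pool.Agent.BK.Ker1
import Pool.Agent.BK.Dft1

/-! BK module SBP: summation by parts on the cycle. With `f(θ) = chi(θ) e^{-itω(θ)}`, `2π`-periodic,
`(e^{iθ₁m} - 1) ∑_q f(θ_q) e^{i m θ_q} = ∑_q (f(θ_{q-1}) - f(θ_q)) e^{imθ_q}` (`θ₁ = 2π/(2n+1)`),
`|f(θ_{q-1}) - f(θ_q)| ≤ C(1+t)/(2n+1)` and `|e^{2πi m̂/(2n+1)} - 1| ≥ 4|m̂|/(2n+1)` (`|m̂| ≤ n`). -/

open MeasureTheory Set

noncomputable section

namespace Pool.Agent.BK

/-- The cutoff is Lipschitz. -/
lemma sbp_chi_lip {b : ℝ} (hb : 0 < b) :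
    ∃ K : ℝ, 0 ≤ K ∧ ∀ x y : ℝ, |chi b x - chi b y| ≤ K * |x - y| := by
  set R : ℝ := (1 + b / 16) / (b / 16) with hR
  have hS : ContDiff ℝ (1 : ℕ∞) Real.smoothTransition := Real.smoothTransition.contDiff
  have hSd : Differentiable ℝ Real.smoothTransition := hS.differentiable (by norm_num)
  have hSc : Continuous (deriv Real.smoothTransition) := hS.continuous_deriv (by norm_num)
  obtain ⟨M, hM⟩ := (isCompact_Icc (a := -R) (b := R)).exists_bound_of_continuousOn hSc.continuousOn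
  have hR0 : 0 ≤ R := by positivity
  have hM0 : 0 ≤ M := (norm_nonneg _).trans (hM 0 ⟨by linarith, hR0⟩)
  have hlip : ∀ u ∈ Icc (-R) R, ∀ v ∈ Icc (-R) R,
      |Real.smoothTransition u - Real.smoothTransition v| ≤ M * |u - v| := by
    intro u hu v hv
    have := (convex_Icc (-R) R).norm_image_sub_le_of_norm_deriv_le (f := Real.smoothTransition)
      (C := M) (fun x _ => hSd x) (fun x hx => hM x hx) hv hu
    simpa [Real.norm_eq_abs] using this
  have hmem : ∀ x : ℝ, (Real.cos x - b / 16) / (b / 16) ∈ Icc (-R) R := by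
    intro x
    have h1 := Real.neg_one_le_cos x
    have h2 := Real.cos_le_one x
    have hb' : (0 : ℝ) < b / 16 := by positivity
    constructor
    · rw [hR, ← neg_div]
      exact div_le_div_of_nonneg_right (by linarith) hb'.le
    · rw [hR]
      exact div_le_div_of_nonneg_right (by linarith) hb'.le
  refine ⟨M / (b / 16), by positivity, fun x y => ?_⟩
  have h := hlip _ (hmem x) _ (hmem y)
  have h3 := Real.abs_cos_sub_cos_le x y
  have hb' : (0 : ℝ) < b / 16 := by positivity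
  have e : (Real.cos x - b / 16) / (b / 16) - (Real.cos y - b / 16) / (b / 16)
      = (Real.cos x - Real.cos y) / (b / 16) := by ring
  rw [e, abs_div, abs_of_pos hb'] at h
  calc |chi b x - chi b y| ≤ M * (|Real.cos x - Real.cos y| / (b / 16)) := h
    _ ≤ M * (|x - y| / (b / 16)) := by gcongr
    _ = M / (b / 16) * |x - y| := by ring

/-- The symbol of the kernel. -/
def sbpF (b t θ : ℝ) : ℂ :=
  (chi b θ : ℂ) * Complex.exp (Complex.I * ((-(t * (2 - 2 * Real.cos θ)) : ℝ) : ℂ))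

lemma sbpF_periodic (b t θ : ℝ) (k : ℤ) : sbpF b t (θ + k * (2 * Real.pi)) = sbpF b t θ := by
  have : Real.cos (θ + k * (2 * Real.pi)) = Real.cos θ := Real.cos_add_int_mul_two_pi θ k
  unfold sbpF chi
  rw [this]

lemma sbp_exp_sub (a c : ℝ) : ‖Complex.exp (Complex.I * (a : ℂ)) -
    Complex.exp (Complex.I * (c : ℂ))‖ ≤ |a - c| := by
  have h : Complex.exp (Complex.I * (a : ℂ)) - Complex.exp (Complex.I * (c : ℂ))
      = Complex.exp (Complex.I * (c : ℂ)) * (Complex.exp (Complex.I * ((a - c : ℝ) : ℂ)) - 1) := by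
    rw [mul_sub, ← Complex.exp_add, mul_one]
    congr 2
    push_cast
    ring
  rw [h, norm_mul]
  have h1 : ‖Complex.exp (Complex.I * (c : ℂ))‖ = 1 := by
    rw [mul_comm]; exact Complex.norm_exp_ofReal_mul_I c
  rw [h1, one_mul]
  exact (Real.norm_exp_I_mul_ofReal_sub_one_le (x := a - c))

lemma sbpF_lip {b K : ℝ} (hK : ∀ x y : ℝ, |chi b x - chi b y| ≤ K * |x - y|) {t : ℝ}
    (ht : 0 ≤ t) (x y : ℝ) : ‖sbpF b t x - sbpF b t y‖ ≤ (K + 2 * t) * |x - y| := by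
  set ex := Complex.exp (Complex.I * ((-(t * (2 - 2 * Real.cos x)) : ℝ) : ℂ)) with hex
  set ey := Complex.exp (Complex.I * ((-(t * (2 - 2 * Real.cos y)) : ℝ) : ℂ)) with hey
  have e : sbpF b t x - sbpF b t y = ((chi b x - chi b y : ℝ) : ℂ) * ex +
      (chi b y : ℂ) * (ex - ey) := by
    simp only [sbpF, ← hex, ← hey]
    push_cast
    ring
  have h1 : ‖ex‖ = 1 := by
    rw [hex, mul_comm]; exact Complex.norm_exp_ofReal_mul_I _
  have h2 : ‖ex - ey‖ ≤ 2 * t * |x - y| := by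
    refine (sbp_exp_sub _ _).trans ?_
    have e2 : -(t * (2 - 2 * Real.cos x)) - -(t * (2 - 2 * Real.cos y))
        = 2 * t * (Real.cos x - Real.cos y) := by ring
    rw [e2, abs_mul, abs_of_nonneg (by positivity : 0 ≤ 2 * t)]
    exact mul_le_mul_of_nonneg_left (Real.abs_cos_sub_cos_le x y) (by positivity)
  rw [e]
  refine (norm_add_le _ _).trans ?_
  rw [norm_mul, norm_mul, h1, mul_one, Complex.norm_real, Complex.norm_real, Real.norm_eq_abs,
    Real.norm_eq_abs, abs_of_nonneg (chi_nonneg b y)]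
  have h3 := hK x y
  have h4 : chi b y * ‖ex - ey‖ ≤ 1 * (2 * t * |x - y|) :=
    mul_le_mul (chi_le_one b y) h2 (norm_nonneg _) zero_le_one
  linarith

lemma sbp_ang_sub (n : ℕ) (q : ZMod (2 * n + 1)) :
    ∃ k : ℤ, ang n (q - 1) = ang n q - 2 * Real.pi / (2 * n + 1) + k * (2 * Real.pi) := by
  have h : (((q - 1).valMinAbs : ℤ) : ZMod (2 * n + 1)) = ((q.valMinAbs - 1 : ℤ) : ZMod (2 * n + 1)) := by
    simp [ZMod.coe_valMinAbs]
  rw [ZMod.intCast_eq_intCast_iff_dvd_sub] at h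
  obtain ⟨k, hk⟩ := h
  refine ⟨-k, ?_⟩
  have hk' : (((q - 1).valMinAbs : ℤ) : ℝ) = (q.valMinAbs : ℝ) - 1 - (2 * n + 1) * k := by
    have : (q - 1).valMinAbs = q.valMinAbs - 1 - (2 * n + 1) * k := by
      push_cast at hk
      linarith
    rw [this]
    push_cast
    ring
  have hN : (2 * (n : ℝ) + 1) ≠ 0 := by positivity
  unfold ang
  rw [hk']
  push_cast
  field_simp
  ring

lemma sbp_sum {n : ℕ} (f : ZMod (2 * n + 1) → ℂ) (m : ZMod (2 * n + 1)) :
    (ZMod.stdAddChar m - 1) * ∑ q, f q * ZMod.stdAddChar (q * m) =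
      ∑ q, (f (q - 1) - f q) * ZMod.stdAddChar (q * m) := by
  have h1 : ∑ q, f (q - 1) * (ZMod.stdAddChar (q * m) : ℂ) =
      ∑ q, f q * (ZMod.stdAddChar m * ZMod.stdAddChar (q * m)) := by
    refine (Fintype.sum_equiv (Equiv.addRight (1 : ZMod (2 * n + 1))) _ _ ?_).symm
    intro q
    simp only [Equiv.coe_addRight, add_sub_cancel_right]
    rw [add_mul, one_mul, AddChar.map_add_eq_mul, mul_comm (ZMod.stdAddChar m : ℂ)]
  simp only [sub_mul, Finset.sum_sub_distrib]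
  rw [h1, one_mul, Finset.mul_sum]
  congr 1
  refine Finset.sum_congr rfl fun q _ => ?_
  ring

lemma sbp_char_low {n : ℕ} (m : ZMod (2 * n + 1)) :
    4 * |(m.valMinAbs : ℝ)| / (2 * n + 1) ≤ ‖(ZMod.stdAddChar m : ℂ) - 1‖ := by
  have e : (ZMod.stdAddChar m : ℂ) =
      Complex.exp (Complex.I * ((2 * Real.pi * (m.valMinAbs : ℝ) / (2 * n + 1) : ℝ) : ℂ)) := by
    conv_lhs => rw [← ZMod.coe_valMinAbs m]
    rw [ZMod.stdAddChar_coe]
    congr 1
    push_cast
    ring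
  rw [e, Complex.norm_exp_I_mul_ofReal_sub_one, Real.norm_eq_abs, abs_mul, abs_two]
  have hN : (0 : ℝ) < 2 * n + 1 := by positivity
  set u : ℝ := Real.pi * |(m.valMinAbs : ℝ)| / (2 * n + 1) with hu
  have hm : |(m.valMinAbs : ℝ)| ≤ n := by
    have h1 := ZMod.natAbs_valMinAbs_le m
    have h2 : (2 * n + 1) / 2 = n := by omega
    rw [h2] at h1
    have h3 : |(m.valMinAbs : ℝ)| = ((m.valMinAbs.natAbs : ℕ) : ℝ) := by
      rw [Nat.cast_natAbs, Int.cast_abs]
    rw [h3]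
    exact_mod_cast h1
  have hu0 : 0 ≤ u := by positivity
  have hu1 : u ≤ Real.pi / 2 := by
    rw [hu, div_le_iff₀ hN]
    nlinarith [Real.pi_pos]
  have habs : |Real.sin (2 * Real.pi * (m.valMinAbs : ℝ) / (2 * n + 1) / 2)| = Real.sin u := by
    have hs : 0 ≤ Real.sin u := Real.sin_nonneg_of_nonneg_of_le_pi hu0
      (by linarith [Real.pi_pos])
    rcases abs_cases (m.valMinAbs : ℝ) with ⟨h, _⟩ | ⟨h, _⟩
    · have : 2 * Real.pi * (m.valMinAbs : ℝ) / (2 * n + 1) / 2 = u := by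
        rw [hu, h]; field_simp
      rw [this, abs_of_nonneg hs]
    · have : 2 * Real.pi * (m.valMinAbs : ℝ) / (2 * n + 1) / 2 = -u := by
        rw [hu, h]; field_simp
      rw [this, Real.sin_neg, abs_neg, abs_of_nonneg hs]
  rw [habs]
  have h5 := Real.mul_le_sin hu0 hu1
  have h6 : 2 / Real.pi * u = 2 * |(m.valMinAbs : ℝ)| / (2 * n + 1) := by
    rw [hu]; field_simp
  rw [h6] at h5
  have h7 : 4 * |(m.valMinAbs : ℝ)| / (2 * n + 1) = 2 * (2 * |(m.valMinAbs : ℝ)| / (2 * n + 1)) := by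
    ring
  rw [h7]
  linarith

theorem sbp {b : ℝ} (hb : 0 < b) (hb1 : b ≤ 1) :
    ∃ C : ℝ, 0 < C ∧ ∀ (n : ℕ) (t : ℝ) (m : ZMod (2 * n + 1)), 0 ≤ t →
      ‖kn b n t m‖ * |(m.valMinAbs : ℝ)| ≤ C * (1 + t) := by
  obtain ⟨K, hK0, hK⟩ := sbp_chi_lip hb
  refine ⟨(K + 2) * Real.pi, by positivity, fun n t m ht => ?_⟩
  have hN : (0 : ℝ) < 2 * n + 1 := by positivity
  set S : ℂ := ∑ q : ZMod (2 * n + 1), sbpF b t (ang n q) * ZMod.stdAddChar (q * m) with hS
  have ekn : kn b n t m = (1 / (2 * n + 1) : ℝ) • S := by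
    unfold kn
    congr 1
    refine Finset.sum_congr rfl fun q _ => ?_
    rw [stdAddChar_eq, sbpF, mul_assoc, ← Complex.exp_add]
    congr 2
    push_cast
    ring
  have h1 : ‖(ZMod.stdAddChar m : ℂ) - 1‖ * ‖S‖ ≤ (K + 2 * t) * (2 * Real.pi) := by
    rw [← norm_mul, hS, sbp_sum (fun q => sbpF b t (ang n q)) m]
    refine (norm_sum_le _ _).trans ?_
    have hb2 : ∀ q ∈ (Finset.univ : Finset (ZMod (2 * n + 1))),
        ‖(sbpF b t (ang n (q - 1)) - sbpF b t (ang n q)) * (ZMod.stdAddChar (q * m) : ℂ)‖ ≤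
          (K + 2 * t) * (2 * Real.pi / (2 * n + 1)) := by
      intro q _
      have hc : ‖(ZMod.stdAddChar (q * m) : ℂ)‖ = 1 := by
        rw [ZMod.stdAddChar_apply]; exact Circle.norm_coe _
      rw [norm_mul, hc, mul_one]
      obtain ⟨k, hk⟩ := sbp_ang_sub n q
      rw [hk, sbpF_periodic]
      refine (sbpF_lip hK ht _ _).trans ?_
      have : |ang n q - 2 * Real.pi / (2 * n + 1) - ang n q| = 2 * Real.pi / (2 * n + 1) := by
        rw [sub_sub_cancel_left, abs_neg, abs_of_pos (by positivity)]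
      rw [this]
    refine (Finset.sum_le_sum hb2).trans ?_
    rw [Finset.sum_const, Finset.card_univ, ZMod.card, nsmul_eq_mul]
    push_cast
    rw [show ((2 * (n : ℝ) + 1)) * ((K + 2 * t) * (2 * Real.pi / (2 * n + 1))) =
      (K + 2 * t) * (2 * Real.pi) by field_simp]
  have h2 := sbp_char_low m
  have h3 : 4 * |(m.valMinAbs : ℝ)| / (2 * n + 1) * ‖S‖ ≤ (K + 2 * t) * (2 * Real.pi) :=
    (mul_le_mul_of_nonneg_right h2 (norm_nonneg _)).trans h1
  rw [ekn, norm_smul, Real.norm_eq_abs, abs_of_pos (by positivity)]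
  have e3 : 1 / (2 * (n : ℝ) + 1) * ‖S‖ * |(m.valMinAbs : ℝ)| =
      (4 * |(m.valMinAbs : ℝ)| / (2 * n + 1) * ‖S‖) / 4 := by ring
  rw [e3]
  have h4 : (K + 2 * t) * (2 * Real.pi) / 4 ≤ (K + 2) * Real.pi * (1 + t) := by
    have : (K + 2 * t) * (2 * Real.pi) / 4 = (K / 2 + t) * Real.pi := by ring
    rw [this]
    nlinarith [Real.pi_pos, mul_nonneg hK0 ht, mul_nonneg (mul_nonneg hK0 ht) Real.pi_pos.le,
      mul_nonneg hK0 Real.pi_pos.le, mul_nonneg ht Real.pi_pos.le]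
  linarith

end Pool.Agent.BK
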