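import Pool.Agent.BK.RiemA
import Pool.Agent.BK.Sbp

/-! BK module KNLE: uniform bound for the kernel on the cycle. For `|t| ≤ 2T`, `T⁴ ≤ 2n+1`, `T ≥ 1`: if
`|m̂| ≤ 4T²` use `riem` (error `≤ C T²/(2n+1) ≤ C/T²`) and `kz_le` (for `|t| ≥ 1`), otherwise `sbp`
(`≤ C(1+2T)/(4T²)`); `kn` at `-t` is the conjugate of `kn` at `t, -m` (`kn_neg`); for `|t| ≤ 1` use
`‖kn‖ ≤ 1`. -/

open MeasureTheory Set

noncomputable section

namespace Pool.Agent.BK

lemma riem_sqrt_div {C t : ℝ} (hC : 0 ≤ C) (ht : 1 ≤ t) : C / √t ≤ 2 * C / √(1 + t) := by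
  have h0 : 0 < √t := Real.sqrt_pos.2 (by linarith)
  have h1 : 0 < √(1 + t) := Real.sqrt_pos.2 (by linarith)
  have h2 : √(1 + t) ≤ 2 * √t := by
    rw [show (2 : ℝ) * √t = √(4 * t) by
      rw [Real.sqrt_mul (by norm_num), show (4 : ℝ) = 2 ^ 2 by norm_num,
        Real.sqrt_sq (by norm_num)]]
    exact Real.sqrt_le_sqrt (by linarith)
  rw [div_le_div_iff₀ h0 h1]
  calc C * √(1 + t) ≤ C * (2 * √t) := mul_le_mul_of_nonneg_left h2 hC
    _ = 2 * C * √t := by ring

lemma riem_inv_le {T t : ℝ} (hT : 1 ≤ T) (ht : 1 ≤ t) (htT : t ≤ 2 * T) : 1 / T ≤ 2 / √t := by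
  have h0 : 0 < √t := Real.sqrt_pos.2 (by linarith)
  rw [div_le_div_iff₀ (by linarith) h0]
  have h1 : √t ≤ t := by
    rw [Real.sqrt_le_left (by linarith)]
    nlinarith
  linarith

theorem riem_pos {b : ℝ} (hb : 0 < b) (hb1 : b ≤ 1) :
    ∃ C : ℝ, 0 < C ∧ ∀ (n : ℕ) (T t : ℝ) (m : ZMod (2 * n + 1)), 1 ≤ T → T ^ 4 ≤ 2 * n + 1 →
      0 ≤ t → t ≤ 2 * T → ‖kn b n t m‖ ≤ C / √(1 + t) := by
  obtain ⟨C1, hC1, h1⟩ := riem hb hb1
  obtain ⟨C2, hC2, h2⟩ := sbp hb hb1
  obtain ⟨C3, hC3, h3⟩ := kz_le hb hb1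
  refine ⟨2 * (1 + C3 + 14 * C1 + 2 * C2), by positivity, ?_⟩
  intro n T t m hT hTn ht0 htT
  rcases le_or_gt t 1 with ht | ht
  · refine (kn_one b n t m).trans ?_
    have hs : 0 < √(1 + t) := Real.sqrt_pos.2 (by linarith)
    rw [le_div_iff₀ hs, one_mul]
    have h4 : √(1 + t) ≤ 2 := by
      rw [Real.sqrt_le_left (by norm_num)]
      linarith
    linarith
  · have hst : 0 < √t := Real.sqrt_pos.2 (by linarith)
    have hinv := riem_inv_le hT ht.le htT
    have hmain : ‖kn b n t m‖ ≤ (1 + C3 + 14 * C1 + 2 * C2) / √t := by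
      have hn : (0 : ℝ) < 2 * n + 1 := by positivity
      rcases le_or_gt |(m.valMinAbs : ℝ)| (4 * T ^ 2) with hm | hm
      · have h4 := h1 n t m ht0
        have h5 := h3 t (m.valMinAbs : ℝ) ht.le
        have h6 : ‖kn b n t m‖ ≤ ‖kn b n t m - kz b t (m.valMinAbs : ℝ)‖ +
            ‖kz b t (m.valMinAbs : ℝ)‖ := by
          have := norm_add_le (kn b n t m - kz b t (m.valMinAbs : ℝ)) (kz b t (m.valMinAbs : ℝ))
          simpa using this
        have h7 : C1 * (1 + t + |(m.valMinAbs : ℝ)|) / (2 * n + 1) ≤ 14 * C1 / √t := by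
          have h8 : 1 + t + |(m.valMinAbs : ℝ)| ≤ 7 * T ^ 2 := by nlinarith
          have h9 : C1 * (1 + t + |(m.valMinAbs : ℝ)|) / (2 * n + 1) ≤
              C1 * (7 * T ^ 2) / T ^ 4 := by
            apply div_le_div₀ (by positivity) (mul_le_mul_of_nonneg_left h8 hC1.le)
              (by positivity) hTn
          have h10 : C1 * (7 * T ^ 2) / T ^ 4 = 7 * C1 * (1 / T) * (1 / T) := by
            field_simp
          have h11 : 1 / T ≤ 1 := by
            rw [div_le_one (by linarith)]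
            exact hT
          have h12 : 0 < 1 / T := by positivity
          have h13 : 7 * C1 * (1 / T) * (1 / T) ≤ 7 * C1 * (2 / √t) * 1 := by
            apply mul_le_mul _ h11 h12.le (by positivity)
            apply mul_le_mul_of_nonneg_left hinv (by positivity)
          calc C1 * (1 + t + |(m.valMinAbs : ℝ)|) / (2 * n + 1) ≤ C1 * (7 * T ^ 2) / T ^ 4 := h9
            _ = 7 * C1 * (1 / T) * (1 / T) := h10
            _ ≤ 7 * C1 * (2 / √t) * 1 := h13
            _ = 14 * C1 / √t := by ring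
        have h14 : C3 / √t + 14 * C1 / √t ≤ (1 + C3 + 14 * C1 + 2 * C2) / √t := by
          rw [← add_div]
          apply div_le_div_of_nonneg_right _ hst.le
          linarith
        linarith
      · have h4 := h2 n t m ht0
        have h5 : ‖kn b n t m‖ * (4 * T ^ 2) ≤ C2 * (1 + t) :=
          (mul_le_mul_of_nonneg_left hm.le (norm_nonneg _)).trans h4
        have h6 : ‖kn b n t m‖ ≤ C2 * (1 / T) := by
          have h7 : C2 * (1 + t) ≤ C2 * (4 * T) := mul_le_mul_of_nonneg_left (by linarith) hC2.le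
          have h8 : ‖kn b n t m‖ * (4 * T ^ 2) ≤ C2 * (4 * T) := h5.trans h7
          rw [mul_one_div, le_div_iff₀ (by linarith)]
          nlinarith
        have h9 : C2 * (1 / T) ≤ C2 * (2 / √t) := mul_le_mul_of_nonneg_left hinv hC2.le
        have h10 : C2 * (2 / √t) ≤ (1 + C3 + 14 * C1 + 2 * C2) / √t := by
          rw [← mul_div_assoc]
          apply div_le_div_of_nonneg_right _ hst.le
          linarith
        linarith
    refine hmain.trans ?_
    exact riem_sqrt_div (by positivity) ht.le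

theorem kn_le {b : ℝ} (hb : 0 < b) (hb1 : b ≤ 1) :
    ∃ C : ℝ, 0 < C ∧ ∀ (n : ℕ) (T t : ℝ) (m : ZMod (2 * n + 1)), 1 ≤ T → T ^ 4 ≤ 2 * n + 1 →
      |t| ≤ 2 * T → ‖kn b n t m‖ ≤ C / √(1 + |t|) := by
  obtain ⟨C, hC, h⟩ := riem_pos hb hb1
  refine ⟨C, hC, fun n T t m hT hTn ht => ?_⟩
  rcases le_or_gt 0 t with h0 | h0
  · rw [abs_of_nonneg h0] at ht ⊢
    exact h n T t m hT hTn h0 ht
  · rw [abs_of_neg h0] at ht ⊢
    have h1 : kn b n t m = starRingEnd ℂ (kn b n (-t) (-m)) := by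
      rw [← kn_neg, neg_neg]
    rw [h1, Complex.norm_conj]
    exact h n T (-t) (-m) hT hTn (by linarith) ht

end Pool.Agent.BK
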