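import Pool.Agent.BK.Block
import Pool.Agent.BK.Riem

/-! BK module TORK: time block on the torus.
(blk_le) `|blk| ≤ C/T` for `T⁴ ≤ 2n+1`, `ζ.re ≥ b`, `d ≥ 3`. If some coordinate has `|x̂_l| > 4T²`:
`|kn(x_l)| ≤ C/T` (`sbp`), the others `≤ C/√T` (`kn_le`), so the integrand is `≤ C T^{-1-(d-1)/2} ≤ C/T²`.
Otherwise replace every `kn` by `kz` (`riem`: error `≤ C T²/(2n+1)` per factor, all factors are
`≤ 1` in norm), total error `≤ C T · T²/(2n+1) ≤ C/T`, and use `block_line`. -/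

open MeasureTheory Set

noncomputable section

namespace Pool.Agent.BK

lemma blkK_prod {ι : Type} [DecidableEq ι] (s : Finset ι) (f g : ι → ℂ) (e : ℝ)
    (hf : ∀ i, ‖f i‖ ≤ 1) (hg : ∀ i, ‖g i‖ ≤ 1) (h : ∀ i, ‖f i - g i‖ ≤ e) :
    ‖∏ i ∈ s, f i - ∏ i ∈ s, g i‖ ≤ s.card * e := by
  induction s using Finset.induction_on with
  | empty => simp
  | insert a s ha ih =>
    rw [Finset.prod_insert ha, Finset.prod_insert ha, Finset.card_insert_of_notMem ha]
    have e1 : f a * ∏ i ∈ s, f i - g a * ∏ i ∈ s, g i =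
        (f a - g a) * ∏ i ∈ s, f i + g a * (∏ i ∈ s, f i - ∏ i ∈ s, g i) := by ring
    rw [e1]
    refine (norm_add_le _ _).trans ?_
    rw [norm_mul, norm_mul]
    have h1 : ‖∏ i ∈ s, f i‖ ≤ 1 := by
      rw [norm_prod]
      exact Finset.prod_le_one (fun i _ => norm_nonneg _) (fun i _ => hf i)
    have he : 0 ≤ e := (norm_nonneg _).trans (h a)
    have h2 : ‖f a - g a‖ * ‖∏ i ∈ s, f i‖ ≤ e * 1 :=
      mul_le_mul (h a) h1 (norm_nonneg _) he
    have h3 : ‖g a‖ * ‖∏ i ∈ s, f i - ∏ i ∈ s, g i‖ ≤ 1 * (s.card * e) :=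
      mul_le_mul (hg a) ih (norm_nonneg _) zero_le_one
    push_cast
    linarith

lemma blkK_cont (b x : ℝ) : Continuous fun t => kz b t x := by
  have h1 : Continuous (chi b) := (contDiff_chi b (n := 1)).continuous
  have h2 : Continuous fun t : ℝ => ∫ θ in (-Real.pi)..Real.pi,
      (chi b θ : ℂ) * Complex.exp (Complex.I * ((x * θ - t * (2 - 2 * Real.cos θ) : ℝ) : ℂ)) := by
    refine intervalIntegral.continuous_parametric_intervalIntegral_of_continuous' ?_ _ _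
    simp only [Function.uncurry_def]
    fun_prop
  exact h2.const_smul (1 / (2 * Real.pi) : ℝ)

lemma blkK_exp {ζ : ℂ} (hζ : 0 ≤ ζ.im) {t : ℝ} (ht : 0 ≤ t) :
    ‖Complex.exp (Complex.I * ζ * (t : ℂ))‖ ≤ 1 := by
  rw [Complex.norm_exp]
  have : (Complex.I * ζ * (t : ℂ)).re = -(ζ.im * t) := by
    simp [Complex.mul_re, Complex.mul_im]
  rw [this, Real.exp_le_one_iff]
  nlinarith [mul_nonneg hζ ht]

/-- Case of one large coordinate. -/
lemma blkK_far {b : ℝ} (hb : 0 < b) (hb1 : b ≤ 1) {d : ℕ} (hd : 3 ≤ d) :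
    ∃ C : ℝ, 0 < C ∧ ∀ (n : ℕ) (T : ℝ) (x : Tor d n) (l0 : Fin d) (t : ℝ), 1 ≤ T →
      T ^ 4 ≤ 2 * n + 1 → 4 * T ^ 2 < |((x l0).valMinAbs : ℝ)| → T ≤ t → t ≤ 2 * T →
      ‖∏ l, kn b n t (x l)‖ ≤ C / T ^ 2 := by
  obtain ⟨C1, hC1, h1⟩ := sbp hb hb1
  obtain ⟨C2, hC2, h2⟩ := kn_le hb hb1
  refine ⟨C1 * C2 ^ (d - 1), by positivity, ?_⟩
  intro n T x l0 t hT hTn hx htT ht2
  have hT0 : 0 < T := by linarith
  have ht0 : 0 ≤ t := by linarith
  have hsT : 0 < √T := Real.sqrt_pos.2 hT0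
  have hsT1 : 1 ≤ √T := by
    rw [Real.one_le_sqrt]; exact hT
  have hl0 : ‖kn b n t (x l0)‖ ≤ C1 / T := by
    have h3 := h1 n t (x l0) ht0
    have h4 : ‖kn b n t (x l0)‖ * (4 * T ^ 2) ≤ C1 * (3 * T) := by
      refine (mul_le_mul_of_nonneg_left hx.le (norm_nonneg _)).trans (h3.trans ?_)
      exact mul_le_mul_of_nonneg_left (by linarith) hC1.le
    rw [le_div_iff₀ hT0]
    have h5 : ‖kn b n t (x l0)‖ * T * (4 * T) ≤ C1 * (4 * T) := by nlinarith
    exact le_of_mul_le_mul_right h5 (by positivity)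
  have hl : ∀ l, ‖kn b n t (x l)‖ ≤ C2 / √T := by
    intro l
    refine (h2 n T t (x l) hT hTn (by rw [abs_of_nonneg ht0]; exact ht2)).trans ?_
    refine div_le_div_of_nonneg_left hC2.le hsT ?_
    exact Real.sqrt_le_sqrt (by rw [abs_of_nonneg ht0]; linarith)
  rw [norm_prod, ← Finset.mul_prod_erase _ _ (Finset.mem_univ l0)]
  have hP : ∏ l ∈ Finset.univ.erase l0, ‖kn b n t (x l)‖ ≤ C2 ^ (d - 1) / T := by
    refine (Finset.prod_le_prod (fun i _ => norm_nonneg _) (fun i _ => hl i)).trans ?_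
    rw [Finset.prod_const, Finset.card_erase_of_mem (Finset.mem_univ _), Finset.card_univ,
      Fintype.card_fin, div_pow]
    refine div_le_div_of_nonneg_left (by positivity) hT0 ?_
    calc T = √T ^ 2 := (Real.sq_sqrt hT0.le).symm
      _ ≤ √T ^ (d - 1) := pow_le_pow_right₀ hsT1 (by omega)
  calc ‖kn b n t (x l0)‖ * ∏ l ∈ Finset.univ.erase l0, ‖kn b n t (x l)‖
      ≤ (C1 / T) * (C2 ^ (d - 1) / T) :=
        mul_le_mul hl0 hP (Finset.prod_nonneg fun i _ => norm_nonneg _) (by positivity)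
    _ = C1 * C2 ^ (d - 1) / T ^ 2 := by
        field_simp

/-- Case of no large coordinate. -/
lemma blkK_near {b : ℝ} (hb : 0 < b) (hb1 : b ≤ 1) (d : ℕ) :
    ∃ C : ℝ, 0 < C ∧ ∀ (n : ℕ) (T : ℝ) (x : Tor d n) (t : ℝ), 1 ≤ T →
      T ^ 4 ≤ 2 * n + 1 → (∀ l, |((x l).valMinAbs : ℝ)| ≤ 4 * T ^ 2) → T ≤ t → t ≤ 2 * T →
      ‖∏ l, kn b n t (x l) - ∏ l, kz b t ((x l).valMinAbs : ℝ)‖ ≤ C / T ^ 2 := by
  obtain ⟨C1, hC1, h1⟩ := riem hb hb1
  refine ⟨(d + 1) * (7 * C1), by positivity, ?_⟩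
  intro n T x t hT hTn hx htT ht2
  have hT0 : 0 < T := by linarith
  have ht0 : 0 ≤ t := by linarith
  have hn : (0 : ℝ) < 2 * n + 1 := by positivity
  have hT2 : T ≤ T ^ 2 := by nlinarith
  have hT3 : 1 ≤ T ^ 2 := by nlinarith
  have h3 : ∀ l, ‖kn b n t (x l) - kz b t ((x l).valMinAbs : ℝ)‖ ≤ 7 * C1 / T ^ 2 := by
    intro l
    refine (h1 n t (x l) ht0).trans ?_
    have h4 : C1 * (1 + t + |((x l).valMinAbs : ℝ)|) ≤ 7 * C1 * T ^ 2 := by
      have := hx l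
      have h5 : 1 + t + |((x l).valMinAbs : ℝ)| ≤ 7 * T ^ 2 := by linarith
      nlinarith
    rw [div_le_div_iff₀ hn (by positivity)]
    calc C1 * (1 + t + |((x l).valMinAbs : ℝ)|) * T ^ 2 ≤ 7 * C1 * T ^ 2 * T ^ 2 :=
          mul_le_mul_of_nonneg_right h4 (by positivity)
      _ = 7 * C1 * T ^ 4 := by ring
      _ ≤ 7 * C1 * (2 * n + 1) := mul_le_mul_of_nonneg_left hTn (by positivity)
  refine (blkK_prod Finset.univ _ _ _ (fun i => kn_one b n t (x i))
    (fun i => kz_one b t _) h3).trans ?_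
  rw [Finset.card_univ, Fintype.card_fin]
  have e : ((d : ℝ) + 1) * (7 * C1) / T ^ 2 = ((d : ℝ) + 1) * (7 * C1 / T ^ 2) := by ring
  rw [e]
  exact mul_le_mul_of_nonneg_right (by linarith) (by positivity)

theorem blk_le {b : ℝ} (hb : 0 < b) (hb1 : b ≤ 1) {d : ℕ} (hd : 3 ≤ d) :
    ∃ C : ℝ, 0 < C ∧ ∀ (n : ℕ) (T : ℝ) (ζ : ℂ) (x : Tor d n), 1 ≤ T → T ^ 4 ≤ 2 * n + 1 →
      b ≤ ζ.re → 0 ≤ ζ.im → ‖blk b ζ T x‖ ≤ C / T := by
  obtain ⟨C1, hC1, h1⟩ := blkK_far hb hb1 hd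
  obtain ⟨C2, hC2, h2⟩ := blkK_near hb hb1 d
  obtain ⟨C3, hC3, h3⟩ := block_line hb hb1 hd
  refine ⟨C1 + C2 + C3, by positivity, ?_⟩
  intro n T ζ x hT hTn hre him
  have hT0 : 0 < T := by linarith
  have hle : T ≤ 2 * T := by linarith
  have hcn : Continuous fun t : ℝ => Complex.exp (Complex.I * ζ * (t : ℂ)) *
      ∏ l, kn b n t (x l) := by
    have : Continuous fun t : ℝ => ∏ l, kn b n t (x l) :=
      continuous_finsetProd _ fun l _ => continuous_kn b n (x l)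
    fun_prop
  have hcz : Continuous fun t : ℝ => Complex.exp (Complex.I * ζ * (t : ℂ)) *
      ∏ l, kz b t ((x l).valMinAbs : ℝ) := by
    have : Continuous fun t : ℝ => ∏ l, kz b t ((x l).valMinAbs : ℝ) :=
      continuous_finsetProd _ fun l _ => blkK_cont b _
    fun_prop
  by_cases hx : ∃ l0, 4 * T ^ 2 < |((x l0).valMinAbs : ℝ)|
  · obtain ⟨l0, hl0⟩ := hx
    have h4 : ‖blk b ζ T x‖ ≤ C1 / T ^ 2 * |2 * T - T| := by
      refine intervalIntegral.norm_integral_le_of_norm_le_const ?_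
      intro t ht
      rw [Set.uIoc_of_le hle] at ht
      rw [norm_mul]
      calc _ ≤ 1 * (C1 / T ^ 2) :=
            mul_le_mul (blkK_exp him (by linarith [ht.1]))
              (h1 n T x l0 t hT hTn hl0 ht.1.le ht.2) (norm_nonneg _) zero_le_one
        _ = C1 / T ^ 2 := one_mul _
    refine h4.trans ?_
    rw [show |2 * T - T| = T by rw [show 2 * T - T = T by ring, abs_of_pos hT0]]
    rw [show C1 / T ^ 2 * T = C1 / T by field_simp]
    exact div_le_div_of_nonneg_right (by linarith) hT0.le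
  · push Not at hx
    have h4 : ‖blk b ζ T x - ∫ t in T..(2 * T), Complex.exp (Complex.I * ζ * (t : ℂ)) *
        ∏ l, kz b t ((x l).valMinAbs : ℝ)‖ ≤ C2 / T ^ 2 * |2 * T - T| := by
      unfold blk
      rw [← intervalIntegral.integral_sub (hcn.intervalIntegrable _ _)
        (hcz.intervalIntegrable _ _)]
      refine intervalIntegral.norm_integral_le_of_norm_le_const ?_
      intro t ht
      rw [Set.uIoc_of_le hle] at ht
      rw [← mul_sub, norm_mul]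
      calc _ ≤ 1 * (C2 / T ^ 2) :=
            mul_le_mul (blkK_exp him (by linarith [ht.1]))
              (h2 n T x t hT hTn hx ht.1.le ht.2) (norm_nonneg _) zero_le_one
        _ = C2 / T ^ 2 := one_mul _
    rw [show |2 * T - T| = T by rw [show 2 * T - T = T by ring, abs_of_pos hT0]] at h4
    rw [show C2 / T ^ 2 * T = C2 / T by field_simp] at h4
    have h5 := h3 T ζ (fun l => ((x l).valMinAbs : ℝ)) hT hre him
    have h6 : ‖blk b ζ T x‖ ≤ C2 / T + C3 / T := by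
      refine le_trans ?_ (add_le_add h4 h5)
      have := norm_add_le (blk b ζ T x - ∫ t in T..(2 * T), Complex.exp (Complex.I * ζ * (t : ℂ)) *
        ∏ l, kz b t ((x l).valMinAbs : ℝ)) (∫ t in T..(2 * T),
          Complex.exp (Complex.I * ζ * (t : ℂ)) * ∏ l, kz b t ((x l).valMinAbs : ℝ))
      rwa [sub_add_cancel] at this
    refine h6.trans ?_
    rw [← add_div]
    exact div_le_div_of_nonneg_right (by linarith) hT0.le

end Pool.Agent.BK
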