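import Pool.Agent.BK.FBa
import Pool.Agent.BK.TorK
import Pool.Agent.BK.TorB
import Pool.Agent.BK.Lev

/-! BK module FBC: `‖M c‖_4⁴ ≤ C γ^{-2-ε} (1 + log(2n+1))⁴ ‖c‖_2⁴` for the free resolvent `M`.
Choose `J` with `2^J ≤ γ^{-2} < 2^{J+1}`; `M = TF Rsym + ∑_{j<J} M_j`, `M_j = TF (i Chi fblk ζ 2^j)`,
`|M_j(x,y)| ≤ C 2^{-j}` (`TF_blk`, `blk_le`: `T = 2^j ≤ γ^{-2}`, `T⁴ ≤ γ^{-8} ≤ 2n+1`), `‖M_j‖ ≤ 2^j`
(`|Chi fblk| ≤ 2^j`, `nsq_TF_mulVec_le`). `lev` for `M_j` (`α = C 2^{-j}, β = 2^j`) and for `TF Rsym`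
(`α = β = C`), summed over `j`:
`|⟨g, M f⟩| ≤ Λ ‖f‖_{4/3}‖g‖_{4/3}`, `Λ = C (J+2)(1 + log (2n+1)^d)²`. Then by `nsq_Gr_eq`
`γ ‖M g‖² = Im⟨g, M g⟩ ≤ Λ ‖g‖²_{4/3}`, and by duality (`g_y = |v_y|² conj(v_y)`, `v = M c`, `M` symmetric)
`‖M c‖_4⁴ = ∑ g_y (M c)_y = ∑ (M g)_y c_y ≤ ‖M g‖_2 ‖c‖_2 ≤ (Λ/γ)^{1/2} ‖g‖_{4/3} ‖c‖_2` with
`‖g‖_{4/3} = ‖M c‖_4³`, so `‖M c‖_4⁴ ≤ (Λ/γ)² ‖c‖_2⁴`, and `(J+2)² ≤ C γ^{-ε}`. -/

open MeasureTheory Finset Matrix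

noncomputable section

namespace Pool.Agent.BK

/-- the `4/3`-norm -/
def n43 {X : Type} [Fintype X] (f : X → ℂ) : ℝ := (∑ x, ‖f x‖ ^ (4 / 3 : ℝ)) ^ (3 / 4 : ℝ)

lemma n43_nonneg {X : Type} [Fintype X] (f : X → ℂ) : 0 ≤ n43 f :=
  Real.rpow_nonneg (Finset.sum_nonneg fun _ _ => Real.rpow_nonneg (norm_nonneg _) _) _

lemma norm_fblk_le {d n : ℕ} {ζ : ℂ} (hζ : 0 ≤ ζ.im) {T : ℝ} (hT : 0 ≤ T) (q : Tor d n) :
    ‖fblk ζ T q‖ ≤ T := by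
  unfold fblk
  have h := intervalIntegral.norm_integral_le_of_norm_le_const (a := T) (b := 2 * T) (C := 1)
    (f := fun t : ℝ => Complex.exp (Complex.I * (ζ - (omg q : ℂ)) * (t : ℂ))) (by
      intro t ht
      rw [Set.uIoc_of_le (by linarith)] at ht
      rw [Complex.norm_exp]
      apply Real.exp_le_one_iff.2
      have : (Complex.I * (ζ - (omg q : ℂ)) * (t : ℂ)).re = -(ζ.im * t) := by
        simp
      rw [this]
      have : 0 ≤ ζ.im * t := mul_nonneg hζ (hT.trans ht.1.le)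
      linarith)
  rw [show 2 * T - T = T by ring, abs_of_nonneg hT, one_mul] at h
  exact h

/-- duality argument -/
lemma four_of_dual {X : Type} [Fintype X] [DecidableEq X] (M : Matrix X X ℂ)
    (hs : ∀ x y, M x y = M y x) {γ Λ : ℝ} (hγ : 0 < γ)
    (h : ∀ g : X → ℂ, γ * nsq (M *ᵥ g) ≤ Λ * n43 g ^ 2) (c : X → ℂ) :
    ∑ y, ‖(M *ᵥ c) y‖ ^ 4 ≤ (Λ / γ) ^ 2 * nsq c ^ 2 := by
  set v := M *ᵥ c with hv
  set S := ∑ y, ‖v y‖ ^ 4 with hS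
  have hS0 : 0 ≤ S := Finset.sum_nonneg fun _ _ => by positivity
  have hnc : 0 ≤ nsq c := Finset.sum_nonneg fun _ _ => by positivity
  rcases hS0.eq_or_lt with h0 | hSpos
  · rw [← h0]
    positivity
  let g : X → ℂ := fun y => ((‖v y‖ ^ 2 : ℝ) : ℂ) * starRingEnd ℂ (v y)
  have hg1 : ∀ y, ‖g y‖ = ‖v y‖ ^ 3 := by
    intro y
    simp only [g, norm_mul, Complex.norm_real, RCLike.norm_conj]
    rw [Real.norm_eq_abs, abs_of_nonneg (by positivity)]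
    ring
  have hg2 : n43 g ^ 2 = S ^ (3 / 2 : ℝ) := by
    unfold n43
    have : ∀ y, ‖g y‖ ^ (4 / 3 : ℝ) = ‖v y‖ ^ 4 := by
      intro y
      rw [hg1, ← Real.rpow_natCast, ← Real.rpow_mul (norm_nonneg _), ← Real.rpow_natCast]
      norm_num
    simp only [this]
    rw [← hS, ← Real.rpow_natCast, ← Real.rpow_mul hS0]
    norm_num
  have hpair : (S : ℂ) = ∑ x, (M *ᵥ g) x * c x := by
    have h1 : (S : ℂ) = ∑ y, g y * v y := by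
      rw [hS]
      push_cast
      refine Finset.sum_congr rfl fun y _ => ?_
      simp only [g]
      rw [mul_assoc, ← Complex.normSq_eq_conj_mul_self, Complex.normSq_eq_norm_sq]
      push_cast
      ring
    rw [h1, hv]
    simp only [Matrix.mulVec, dotProduct, Finset.mul_sum, Finset.sum_mul]
    rw [Finset.sum_comm]
    refine Finset.sum_congr rfl fun x _ => Finset.sum_congr rfl fun y _ => ?_
    rw [hs y x]
    ring
  have hCS : S ^ 2 ≤ nsq (M *ᵥ g) * nsq c := by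
    have h1 : S ≤ ∑ x, ‖(M *ᵥ g) x‖ * ‖c x‖ := by
      calc S = ‖(S : ℂ)‖ := by rw [Complex.norm_real, Real.norm_eq_abs, abs_of_nonneg hS0]
        _ = ‖∑ x, (M *ᵥ g) x * c x‖ := by rw [hpair]
        _ ≤ ∑ x, ‖(M *ᵥ g) x * c x‖ := norm_sum_le _ _
        _ = _ := Finset.sum_congr rfl fun x _ => norm_mul _ _
    calc S ^ 2 ≤ (∑ x, ‖(M *ᵥ g) x‖ * ‖c x‖) ^ 2 := by gcongr
      _ ≤ _ := Finset.sum_mul_sq_le_sq_mul_sq _ _ _
  have h2 : nsq (M *ᵥ g) ≤ Λ / γ * S ^ (3 / 2 : ℝ) := by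
    have := h g
    rw [hg2] at this
    rw [div_mul_eq_mul_div, le_div_iff₀ hγ]
    linarith
  have h3 : S ^ 2 ≤ (Λ / γ * nsq c) * S ^ (3 / 2 : ℝ) := by
    refine hCS.trans ?_
    calc nsq (M *ᵥ g) * nsq c ≤ (Λ / γ * S ^ (3 / 2 : ℝ)) * nsq c := by gcongr
      _ = _ := by ring
  have h4 : S ^ (1 / 2 : ℝ) ≤ Λ / γ * nsq c := by
    have hp : 0 < S ^ (3 / 2 : ℝ) := Real.rpow_pos_of_pos hSpos _
    have h5 : S ^ 2 = S ^ (1 / 2 : ℝ) * S ^ (3 / 2 : ℝ) := by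
      rw [← Real.rpow_add hSpos, ← Real.rpow_natCast]
      norm_num
    rw [h5] at h3
    exact le_of_mul_le_mul_right h3 hp
  have h6 : S = (S ^ (1 / 2 : ℝ)) ^ 2 := by
    rw [← Real.rpow_natCast, ← Real.rpow_mul hS0]
    norm_num
  rw [h6, ← mul_pow]
  exact pow_le_pow_left₀ (Real.rpow_nonneg hS0 _) h4 2

/-- the logarithmic loss -/
lemma J_le {ε : ℝ} (hε : 0 < ε) : ∃ C : ℝ, 0 < C ∧ ∀ (γ : ℝ) (J : ℕ), 0 < γ →
    (2 : ℝ) ^ J ≤ γ ^ (-(2 : ℝ)) → ((J : ℝ) + 1) ^ 2 ≤ C * γ ^ (-ε) := by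
  set a := ε / 2 * Real.log 2 with ha
  have hapos : 0 < a := by
    have := Real.log_pos (by norm_num : (1 : ℝ) < 2)
    positivity
  refine ⟨4 / a ^ 2 + 2, by positivity, fun γ J hγ hJ => ?_⟩
  have h1 : Real.exp (a * J) ≤ γ ^ (-ε) := by
    have e1 : Real.exp (a * J) = ((2 : ℝ) ^ J) ^ (ε / 2) := by
      rw [← Real.rpow_natCast, ← Real.rpow_mul (by norm_num), Real.rpow_def_of_pos (by norm_num), ha]
      congr 1
      ring
    have e2 : γ ^ (-ε) = (γ ^ (-(2 : ℝ))) ^ (ε / 2) := by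
      rw [← Real.rpow_mul hγ.le]
      congr 1
      ring
    rw [e1, e2]
    exact Real.rpow_le_rpow (by positivity) hJ (by positivity)
  have h2 : 1 + a * J + (a * J) ^ 2 / 2 ≤ Real.exp (a * J) :=
    Real.quadratic_le_exp_of_nonneg (by positivity)
  have h3 : ((J : ℝ) + 1) ^ 2 ≤ 2 * (J : ℝ) ^ 2 + 2 := by nlinarith [sq_nonneg ((J : ℝ) - 1)]
  have h4 : (J : ℝ) ^ 2 ≤ 2 / a ^ 2 * Real.exp (a * J) := by
    rw [div_mul_eq_mul_div, le_div_iff₀ (by positivity)]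
    have : 0 ≤ a * J := by positivity
    nlinarith
  have h5 : 1 ≤ Real.exp (a * J) := Real.one_le_exp (by positivity)
  calc ((J : ℝ) + 1) ^ 2 ≤ 2 * (J : ℝ) ^ 2 + 2 := h3
    _ ≤ 2 * (2 / a ^ 2 * Real.exp (a * J)) + 2 * Real.exp (a * J) := by gcongr; linarith
    _ = (4 / a ^ 2 + 2) * Real.exp (a * J) := by ring
    _ ≤ _ := by gcongr

theorem fb24 {b : ℝ} (hb : 0 < b) (hb1 : b ≤ 1) {d : ℕ} (hd : 3 ≤ d) {ε : ℝ} (hε : 0 < ε) :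
    ∃ C : ℝ, 0 < C ∧ ∀ (ζ : ℂ) (n : ℕ), b ≤ ζ.re → ζ.re ≤ 2 - b →
      0 < ζ.im → ζ.im ≤ 1 → ζ.im ^ (-(10 : ℝ)) ≤ 2 * n + 1 →
      ∀ c : Tor d n → ℂ, ∑ y, ‖(Gr (H0 d n) 0 ζ *ᵥ c) y‖ ^ 4 ≤
        C * ζ.im ^ (-2 - ε) * (1 + Real.log (2 * n + 1)) ^ 4 * nsq c ^ 2 := by
  obtain ⟨C0, hC0, hblk⟩ := blk_le hb hb1 hd
  obtain ⟨C1, hC1, hR⟩ := Rsym_le hb hb1 d
  obtain ⟨CL, hCL, hlev⟩ := lev
  obtain ⟨CJ, hCJ, hJ⟩ := J_le hε
  set K : ℝ := CL * (√C0 + C1) * (d + 1) ^ 2 with hK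
  have hKpos : 0 < K := by positivity
  refine ⟨K ^ 2 * CJ + 1, by positivity, fun ζ n h1 h2 h3 h4 h5 c => ?_⟩
  set γ := ζ.im with hγ
  set L := Real.log (2 * n + 1) with hL
  have hL0 : 0 ≤ L := Real.log_nonneg (by linarith [(Nat.cast_nonneg n : (0 : ℝ) ≤ n)])
  have hnc : 0 ≤ nsq c := Finset.sum_nonneg fun _ _ => by positivity
  rcases Nat.eq_zero_or_pos n with hn | hn
  · -- the torus is a point
    have hγ1 : γ = 1 := by
      refine le_antisymm h4 ?_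
      by_contra hlt
      push Not at hlt
      have : 1 < γ ^ (-(10 : ℝ)) := Real.one_lt_rpow_of_pos_of_lt_one_of_neg h3 hlt (by norm_num)
      rw [hn, Nat.cast_zero, mul_zero, zero_add] at h5
      linarith
    have h6 : nsq (Gr (H0 d n) 0 ζ *ᵥ c) ≤ (1 / ζ.im) ^ 2 * nsq c :=
      nsq_Gr_mulVec (RS_H0 d n) 0 h3 c
    rw [← hγ, hγ1] at h6
    have h7 : ∑ y, ‖(Gr (H0 d n) 0 ζ *ᵥ c) y‖ ^ 4 ≤ nsq (Gr (H0 d n) 0 ζ *ᵥ c) ^ 2 := by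
      unfold nsq
      have : ∀ y, ‖(Gr (H0 d n) 0 ζ *ᵥ c) y‖ ^ 4 = (‖(Gr (H0 d n) 0 ζ *ᵥ c) y‖ ^ 2) ^ 2 :=
        fun y => by ring
      simp only [this]
      exact Finset.sum_sq_le_sq_sum_of_nonneg (fun _ _ => by positivity)
    have h8 : nsq (Gr (H0 d n) 0 ζ *ᵥ c) ^ 2 ≤ nsq c ^ 2 := by
      have h9 : 0 ≤ nsq (Gr (H0 d n) 0 ζ *ᵥ c) := Finset.sum_nonneg fun _ _ => by positivity
      have : nsq (Gr (H0 d n) 0 ζ *ᵥ c) ≤ nsq c := by simpa using h6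
      gcongr
    refine h7.trans (h8.trans ?_)
    rw [hγ1, Real.one_rpow, mul_one]
    have : (1 : ℝ) ≤ (K ^ 2 * CJ + 1) * (1 + L) ^ 4 := by
      have h10 : (1 : ℝ) ≤ (1 + L) ^ 4 := one_le_pow₀ (by linarith)
      have h11 : (1 : ℝ) ≤ K ^ 2 * CJ + 1 := by
        have : 0 ≤ K ^ 2 * CJ := by positivity
        linarith
      nlinarith
    nlinarith [sq_nonneg (nsq c)]
  -- choice of `J`
  have hγ2 : 1 ≤ γ ^ (-(2 : ℝ)) := Real.one_le_rpow_of_pos_of_le_one_of_nonpos h3 h4 (by norm_num)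
  obtain ⟨J, hJ1, hJ2⟩ := exists_nat_pow_near hγ2 (by norm_num : (1 : ℝ) < 2)
  have hM : Gr (H0 d n) 0 ζ = TF (Rsym b ζ J) +
      ∑ j ∈ Finset.range J, TF (fun q => Complex.I * (Chi b q : ℂ) * fblk ζ (2 ^ j) q) := by
    rw [Gr_eq_TF hn h3, TF_sum, TF_add]
    congr 1
    funext q
    unfold Rsym
    ring
  have hcard : Real.log (Fintype.card (Tor d n)) = d * L := by
    rw [Fintype.card_fun, Fintype.card_fin, ZMod.card, hL]
    push_cast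
    rw [Real.log_pow]
  have hcd : (1 + Real.log (Fintype.card (Tor d n))) ^ 2 ≤ ((d + 1) * (1 + L)) ^ 2 := by
    rw [hcard]
    have : (0 : ℝ) ≤ d := Nat.cast_nonneg d
    apply pow_le_pow_left₀ (by positivity)
    nlinarith
  have hpow : γ ^ (-(8 : ℝ)) ≤ 2 * n + 1 := by
    refine le_trans ?_ h5
    exact Real.rpow_le_rpow_of_exponent_ge h3 h4 (by norm_num)
  -- the bilinear bound
  have hj : ∀ j ∈ Finset.range J, ∀ f g : Tor d n → ℂ,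
      ‖∑ x, g x * (TF (fun q => Complex.I * (Chi b q : ℂ) * fblk ζ (2 ^ j) q) *ᵥ f) x‖ ≤
        CL * √C0 * ((d + 1) * (1 + L)) ^ 2 * n43 f * n43 g := by
    intro j hj f g
    have hjJ := Finset.mem_range.1 hj
    have hT1 : (1 : ℝ) ≤ 2 ^ j := one_le_pow₀ (by norm_num)
    have hTJ : (2 : ℝ) ^ j ≤ γ ^ (-(2 : ℝ)) :=
      le_trans (pow_le_pow_right₀ (by norm_num) hjJ.le) hJ1
    have hT4 : ((2 : ℝ) ^ j) ^ 4 ≤ 2 * n + 1 := by
      refine le_trans ?_ hpow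
      have : γ ^ (-(8 : ℝ)) = (γ ^ (-(2 : ℝ))) ^ 4 := by
        rw [← Real.rpow_natCast, ← Real.rpow_mul h3.le]
        norm_num
      rw [this]
      gcongr
    have hsym : ∀ q : Tor d n, ‖Complex.I * (Chi b q : ℂ) * fblk ζ (2 ^ j) q‖ ≤ 2 ^ j := by
      intro q
      rw [norm_mul, norm_mul, Complex.norm_I, one_mul, Complex.norm_real, Real.norm_eq_abs,
        abs_of_nonneg (Chi_nonneg b q)]
      calc Chi b q * ‖fblk ζ (2 ^ j) q‖ ≤ 1 * 2 ^ j :=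
            mul_le_mul (Chi_le_one b q) (norm_fblk_le h3.le (by positivity) q) (norm_nonneg _)
              zero_le_one
        _ = 2 ^ j := one_mul _
    have hl := hlev (Tor d n) (TF (fun q => Complex.I * (Chi b q : ℂ) * fblk ζ (2 ^ j) q))
      (C0 / 2 ^ j) (2 ^ j) (by positivity) (by positivity) (fun x y => by
        rw [TF_blk, norm_mul, Complex.norm_I, one_mul]
        exact hblk n _ ζ _ hT1 hT4 h1 h3.le) (fun c => nsq_TF_mulVec_le hsym c) f g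
    rw [show C0 / 2 ^ j * 2 ^ j = C0 by field_simp] at hl
    refine hl.trans ?_
    have := n43_nonneg f
    have := n43_nonneg g
    change CL * √C0 * (1 + Real.log (Fintype.card (Tor d n))) ^ 2 * n43 f * n43 g ≤ _
    gcongr
  have h0 : ∀ f g : Tor d n → ℂ, ‖∑ x, g x * (TF (Rsym b ζ J) *ᵥ f) x‖ ≤
        CL * C1 * ((d + 1) * (1 + L)) ^ 2 * n43 f * n43 g := by
    intro f g
    have hsym : ∀ q : Tor d n, ‖Rsym b ζ J q‖ ≤ C1 := fun q => hR n ζ J q h1 h2 h3 h4 hJ2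
    have hl := hlev (Tor d n) (TF (Rsym b ζ J)) C1 C1 hC1.le hC1.le
      (fun x y => norm_TF_le hsym x y) (fun c => nsq_TF_mulVec_le hsym c) f g
    rw [Real.sqrt_mul_self hC1.le] at hl
    refine hl.trans ?_
    have := n43_nonneg f
    have := n43_nonneg g
    change CL * C1 * (1 + Real.log (Fintype.card (Tor d n))) ^ 2 * n43 f * n43 g ≤ _
    gcongr
  set Λ : ℝ := K * (J + 1) * (1 + L) ^ 2 with hΛ
  have hbil : ∀ f g : Tor d n → ℂ, ‖∑ x, g x * (Gr (H0 d n) 0 ζ *ᵥ f) x‖ ≤ Λ * n43 f * n43 g := by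
    intro f g
    have e1 : ∑ x, g x * (Gr (H0 d n) 0 ζ *ᵥ f) x = ∑ x, g x * (TF (Rsym b ζ J) *ᵥ f) x +
        ∑ j ∈ Finset.range J, ∑ x, g x *
          (TF (fun q => Complex.I * (Chi b q : ℂ) * fblk ζ (2 ^ j) q) *ᵥ f) x := by
      rw [hM, Matrix.add_mulVec, Matrix.sum_mulVec, Finset.sum_comm, ← Finset.sum_add_distrib]
      refine Finset.sum_congr rfl fun x _ => ?_
      rw [Pi.add_apply, Finset.sum_apply, mul_add, Finset.mul_sum]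
    rw [e1]
    refine (norm_add_le _ _).trans ?_
    have e2 : ‖∑ j ∈ Finset.range J, ∑ x, g x *
        (TF (fun q => Complex.I * (Chi b q : ℂ) * fblk ζ (2 ^ j) q) *ᵥ f) x‖ ≤
        J * (CL * √C0 * ((d + 1) * (1 + L)) ^ 2 * n43 f * n43 g) := by
      refine (norm_sum_le _ _).trans ?_
      refine (Finset.sum_le_sum fun j hj' => hj j hj' f g).trans ?_
      rw [Finset.sum_const, Finset.card_range, nsmul_eq_mul]
    refine (add_le_add (h0 f g) e2).trans ?_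
    have n1 := n43_nonneg f
    have n2 := n43_nonneg g
    rw [hΛ, hK]
    have hJ0 : (0 : ℝ) ≤ J := Nat.cast_nonneg J
    have hs : 0 ≤ √C0 := Real.sqrt_nonneg _
    set P := ((d : ℝ) + 1) ^ 2 * (1 + L) ^ 2 * n43 f * n43 g with hP
    have hP0 : 0 ≤ P := by positivity
    have e3 : CL * C1 * ((d + 1) * (1 + L)) ^ 2 * n43 f * n43 g +
        J * (CL * √C0 * ((d + 1) * (1 + L)) ^ 2 * n43 f * n43 g) = CL * (C1 + J * √C0) * P := by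
      rw [hP]
      ring
    have e4 : CL * (√C0 + C1) * (d + 1) ^ 2 * (J + 1) * (1 + L) ^ 2 * n43 f * n43 g =
        CL * ((√C0 + C1) * (J + 1)) * P := by
      rw [hP]
      ring
    rw [e3, e4]
    gcongr
    nlinarith [mul_nonneg hC1.le hJ0]
  have hΛ0 : 0 ≤ Λ := by positivity
  have key := four_of_dual (Gr (H0 d n) 0 ζ)
    (fun x y => Gr_symm (RS_H0 d n) 0 h3.ne' x y) h3 (fun g => by
      rw [nsq_Gr_eq (RS_H0 d n) 0 h3 g]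
      refine (le_abs_self _).trans ((Complex.abs_im_le_norm _).trans ?_)
      refine (hbil g (fun x => starRingEnd ℂ (g x))).trans ?_
      have : n43 (fun x => starRingEnd ℂ (g x)) = n43 g := by
        unfold n43
        simp only [RCLike.norm_conj]
      rw [this]
      apply le_of_eq
      ring) c
  refine key.trans ?_
  have hJC := hJ γ J h3 hJ1
  have e5 : (Λ / γ) ^ 2 = K ^ 2 * ((J : ℝ) + 1) ^ 2 * (1 + L) ^ 4 * γ ^ (-(2 : ℝ)) := by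
    rw [hΛ, Real.rpow_neg h3.le, show γ ^ (2 : ℝ) = γ ^ 2 from by exact_mod_cast Real.rpow_natCast γ 2]
    field_simp
  have e6 : γ ^ (-2 - ε) = γ ^ (-(2 : ℝ)) * γ ^ (-ε) := by
    rw [← Real.rpow_add h3]
    congr 1
  rw [e5, e6]
  have hg0 : 0 < γ ^ (-(2 : ℝ)) := Real.rpow_pos_of_pos h3 _
  have hg1 : 0 < γ ^ (-ε) := Real.rpow_pos_of_pos h3 _
  calc K ^ 2 * ((J : ℝ) + 1) ^ 2 * (1 + L) ^ 4 * γ ^ (-(2 : ℝ)) * nsq c ^ 2
      ≤ K ^ 2 * (CJ * γ ^ (-ε)) * (1 + L) ^ 4 * γ ^ (-(2 : ℝ)) * nsq c ^ 2 := by gcongr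
    _ = K ^ 2 * CJ * (γ ^ (-(2 : ℝ)) * γ ^ (-ε)) * (1 + L) ^ 4 * nsq c ^ 2 := by ring
    _ ≤ (K ^ 2 * CJ + 1) * (γ ^ (-(2 : ℝ)) * γ ^ (-ε)) * (1 + L) ^ 4 * nsq c ^ 2 := by
        gcongr
        linarith

end Pool.Agent.BK
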