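import Pool.Agent.BK.Cnt
import Pool.Agent.BK.Dft
import Pool.Agent.BK.FB12

/-! BK module FB34: lower bounds for the free resolvent, and `FreeB`.
`M = TF (1/(omg - ζ))`. (im) `Im M_xx = (2n+1)^{-d} ∑_q γ/((omg q - E)² + γ²) ≥ κ/2` by `count_low`
(each counted `q` contributes at least `1/(2γ)`).
(mass) with `k = 2πm/(2n+1)` and `p = Pi.single j m`, `cos(k ŷ_j) = Re ch p y`:
`∑_y |M_0y|² (1 - cos(kŷ_j)) = ½ ∑_y |M_0y - M_0y ch p y|² = ½ (2n+1)^{-d} ∑_q |F(q) - F(q-p)|²`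
(`TF_mod`, `parseval`), `F(q) - F(q-p) = (omg(q-p) - omg q) F(q) F(q-p)`. For the `q` of `count_low`
(`|omg q - E| ≤ γ`, `|sin ang q_j| ≥ κ₀`) and `k ≤ κ₀ γ/...`: `|omg(q-p) - omg q| = |4 sin(θ - k/2) sin(k/2)|
≥ c κ₀ k` and `≤ 2k ≤ 2γ`, `|F(q)|² ≥ 1/(2γ²)`, `|F(q-p)|² ≥ 1/(10γ²)`: total `≥ κ k²/γ³`. -/

open MeasureTheory Finset Matrix

noncomputable section

namespace Pool.Agent.BK

/-- `cos (ang (q - m))` is `cos (ang q - ang m)`. -/
lemma fb34_cos_ang_sub (n : ℕ) (q m : ZMod (2 * n + 1)) :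
    Real.cos (ang n (q - m)) = Real.cos (ang n q - ang n m) := by
  have h1 : (((q - m).valMinAbs : ℤ) : ZMod (2 * n + 1)) =
      ((q.valMinAbs - m.valMinAbs : ℤ) : ZMod (2 * n + 1)) := by
    push_cast
    rfl
  rw [ZMod.intCast_eq_intCast_iff_dvd_sub] at h1
  obtain ⟨c, hc⟩ := h1
  have h2 : (q.valMinAbs : ℝ) - (m.valMinAbs : ℝ) = ((q - m).valMinAbs : ℝ) + (2 * n + 1) * (c : ℝ) := by
    have := congrArg (fun t : ℤ => (t : ℝ)) hc
    push_cast at this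
    linarith
  have h3 : ang n q - ang n m = ang n (q - m) + (c : ℝ) * (2 * Real.pi) := by
    unfold ang
    have h4 : (2 * (n : ℝ) + 1) ≠ 0 := by positivity
    field_simp
    linear_combination h2
  rw [h3]
  exact (Real.cos_add_int_mul_two_pi _ _).symm

/-- The angle of a small natural number. -/
lemma fb34_ang_nat (n m : ℕ) (hm : m ≤ n) :
    ang n (m : ZMod (2 * n + 1)) = 2 * Real.pi * m / (2 * n + 1) := by
  unfold ang
  rw [ZMod.valMinAbs_natCast_of_le_half (by omega)]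
  push_cast
  rfl

/-- The angle of a difference, only one coordinate changes. -/
lemma fb34_omg_sub {d n : ℕ} (q : Tor d n) (j : Fin d) (m : ZMod (2 * n + 1)) :
    omg (q - Pi.single j m) - omg q =
      2 * Real.cos (ang n (q j)) - 2 * Real.cos (ang n (q j) - ang n m) := by
  unfold omg
  rw [← Finset.sum_sub_distrib, Finset.sum_eq_single j]
  · simp only [Pi.sub_apply, Pi.single_eq_same]
    rw [fb34_cos_ang_sub]
    ring
  · intro l _ hl
    simp [Pi.sub_apply, Pi.single_eq_of_ne hl]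
  · simp

/-- Lower bound for the change of the dispersion relation. -/
lemma fb34_low {θ k c : ℝ} (hc1 : c ≤ 1) (hk0 : 0 ≤ k) (hkc : k ≤ c)
    (hs : c ≤ |Real.sin θ|) :
    c * k / 2 ≤ |2 * Real.cos θ - 2 * Real.cos (θ - k)| := by
  have h1 : 2 * Real.cos θ - 2 * Real.cos (θ - k) =
      -(4 * (Real.sin (θ - k / 2) * Real.sin (k / 2))) := by
    have h2 := Real.cos_sub_cos θ (θ - k)
    have h3 : (θ + (θ - k)) / 2 = θ - k / 2 := by ring
    have h4 : (θ - (θ - k)) / 2 = k / 2 := by ring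
    rw [h3, h4] at h2
    linarith
  rw [h1, abs_neg, abs_mul, abs_mul]
  have h5 : c / 2 ≤ |Real.sin (θ - k / 2)| := by
    have h6 : |Real.sin θ - Real.sin (θ - k / 2)| ≤ k / 2 := by
      have h7 := Real.sin_sub_sin θ (θ - k / 2)
      rw [h7, abs_mul, abs_mul]
      have h8 : |Real.sin ((θ - (θ - k / 2)) / 2)| ≤ k / 4 := by
        have h9 : (θ - (θ - k / 2)) / 2 = k / 4 := by ring
        rw [h9]
        exact (Real.abs_sin_le_abs).trans (by rw [abs_of_nonneg (by linarith)])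
      have h10 : |Real.cos ((θ + (θ - k / 2)) / 2)| ≤ 1 := Real.abs_cos_le_one _
      have h11 : |(2 : ℝ)| = 2 := abs_of_pos (by norm_num)
      rw [h11]
      have h12 := abs_nonneg (Real.sin ((θ - (θ - k / 2)) / 2))
      nlinarith
    have h13 := abs_sub_abs_le_abs_sub (Real.sin θ) (Real.sin (θ - k / 2))
    linarith
  have h14 : k / Real.pi ≤ |Real.sin (k / 2)| := by
    have h15 := Real.mul_le_sin (x := k / 2) (by linarith)
      (by have := Real.pi_gt_three; linarith)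
    have h16 : 2 / Real.pi * (k / 2) = k / Real.pi := by ring
    rw [h16] at h15
    exact h15.trans (le_abs_self _)
  have h17 : |(4 : ℝ)| = 4 := abs_of_pos (by norm_num)
  rw [h17]
  have h18 : k / 4 ≤ k / Real.pi := by
    have := Real.pi_lt_four
    have := Real.pi_pos
    gcongr
  have h19 : 0 ≤ c := hk0.trans hkc
  have h20 : c / 2 * (k / 4) ≤ |Real.sin (θ - k / 2)| * |Real.sin (k / 2)| := by
    apply mul_le_mul h5 (h18.trans h14) (by linarith) (abs_nonneg _)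
  linarith

lemma fb34_up {θ k : ℝ} (hk0 : 0 ≤ k) :
    |2 * Real.cos θ - 2 * Real.cos (θ - k)| ≤ 2 * k := by
  have h1 : 2 * Real.cos θ - 2 * Real.cos (θ - k) =
      -(4 * (Real.sin (θ - k / 2) * Real.sin (k / 2))) := by
    have h2 := Real.cos_sub_cos θ (θ - k)
    have h3 : (θ + (θ - k)) / 2 = θ - k / 2 := by ring
    have h4 : (θ - (θ - k)) / 2 = k / 2 := by ring
    rw [h3, h4] at h2
    linarith
  rw [h1, abs_neg, abs_mul, abs_mul]
  have h5 : |Real.sin (θ - k / 2)| ≤ 1 := Real.abs_sin_le_one _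
  have h6 : |Real.sin (k / 2)| ≤ k / 2 := by
    exact (Real.abs_sin_le_abs).trans (by rw [abs_of_nonneg (by linarith)])
  have h7 : |(4 : ℝ)| = 4 := abs_of_pos (by norm_num)
  rw [h7]
  have h8 := abs_nonneg (Real.sin (k / 2))
  nlinarith

/-- `‖1/(w - ζ)‖² = 1/((w - E)² + γ²)`. -/
lemma fb34_norm_inv (w : ℝ) (ζ : ℂ) :
    ‖1 / ((w : ℂ) - ζ)‖ ^ 2 = 1 / ((w - ζ.re) ^ 2 + ζ.im ^ 2) := by
  rw [norm_div, norm_one, div_pow, one_pow, ← Complex.normSq_eq_norm_sq, Complex.normSq_apply]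
  simp only [Complex.sub_re, Complex.ofReal_re, Complex.sub_im, Complex.ofReal_im, zero_sub]
  congr 1
  ring

lemma fb34_im_inv (w : ℝ) (ζ : ℂ) :
    (1 / ((w : ℂ) - ζ)).im = ζ.im / ((w - ζ.re) ^ 2 + ζ.im ^ 2) := by
  rw [one_div, Complex.inv_im, Complex.normSq_apply]
  simp only [Complex.sub_re, Complex.ofReal_re, Complex.sub_im, Complex.ofReal_im, zero_sub]
  congr 1
  · ring
  · ring

lemma fb34_ch_zero {d n : ℕ} (q : Tor d n) : ch q 0 = 1 := by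
  simp [ch]

lemma fb34_TF_diag {d n : ℕ} (F : Tor d n → ℂ) (x : Tor d n) :
    TF F x x = (1 / (2 * n + 1 : ℂ) ^ d) * ∑ q, F q := by
  unfold TF
  simp [fb34_ch_zero]

/-- The difference of two values of the symbol. -/
lemma fb34_diff {w w' γ k c : ℝ} {ζ : ℂ} (hγ : 0 < γ) (hζ : ζ.im = γ) (hk0 : 0 ≤ k) (hkγ : k ≤ γ)
    (hc : 0 ≤ c) (h1 : |w - ζ.re| ≤ γ) (h2 : c * k / 2 ≤ |w' - w|) (h3 : |w' - w| ≤ 2 * k) :
    c ^ 2 * k ^ 2 / (80 * γ ^ 4) ≤ ‖1 / ((w : ℂ) - ζ) - 1 / ((w' : ℂ) - ζ)‖ ^ 2 := by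
  have hne : ∀ v : ℝ, (v : ℂ) - ζ ≠ 0 := by
    intro v hv
    have := congrArg Complex.im hv
    simp at this
    linarith
  have h4 : 1 / ((w : ℂ) - ζ) - 1 / ((w' : ℂ) - ζ) =
      ((w' - w : ℝ) : ℂ) * (1 / ((w : ℂ) - ζ)) * (1 / ((w' : ℂ) - ζ)) := by
    have h5 := hne w
    have h6 := hne w'
    push_cast
    field_simp
    ring
  rw [h4, norm_mul, norm_mul, mul_pow, mul_pow, fb34_norm_inv, fb34_norm_inv, Complex.norm_real,
    Real.norm_eq_abs, hζ]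
  have h7 : (w - ζ.re) ^ 2 + γ ^ 2 ≤ 2 * γ ^ 2 := by
    have := sq_le_sq' (abs_le.mp h1).1 (abs_le.mp h1).2
    linarith
  have h8 : (w' - ζ.re) ^ 2 + γ ^ 2 ≤ 10 * γ ^ 2 := by
    have h9 : |w' - ζ.re| ≤ 3 * γ := by
      have : w' - ζ.re = (w' - w) + (w - ζ.re) := by ring
      rw [this]
      exact (abs_add_le _ _).trans (by linarith)
    have := sq_le_sq' (abs_le.mp h9).1 (abs_le.mp h9).2
    nlinarith
  have h10 : 0 < (w - ζ.re) ^ 2 + γ ^ 2 := by positivity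
  have h11 : 0 < (w' - ζ.re) ^ 2 + γ ^ 2 := by positivity
  have h12 : 1 / (2 * γ ^ 2) ≤ 1 / ((w - ζ.re) ^ 2 + γ ^ 2) := one_div_le_one_div_of_le h10 h7
  have h13 : 1 / (10 * γ ^ 2) ≤ 1 / ((w' - ζ.re) ^ 2 + γ ^ 2) := one_div_le_one_div_of_le h11 h8
  have h14 : (c * k / 2) ^ 2 ≤ |w' - w| ^ 2 := by
    have : 0 ≤ c * k / 2 := by positivity
    gcongr
  calc c ^ 2 * k ^ 2 / (80 * γ ^ 4) = (c * k / 2) ^ 2 * (1 / (2 * γ ^ 2)) * (1 / (10 * γ ^ 2)) := by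
        field_simp
        ring
    _ ≤ _ := by gcongr

/-- The two lower bounds from a counting lower bound in a window `[lo, hi]`. -/
theorem fb_low_of_count {lo hi c : ℝ} (hc0 : 0 < c) (hc1 : c ≤ 1) {d : ℕ} (hd : 1 ≤ d)
    (hcnt : ∀ (n : ℕ) (E γ : ℝ) (j : Fin d), lo ≤ E → E ≤ hi → 0 < γ → γ ≤ c →
      γ ^ (-(10 : ℝ)) ≤ 2 * n + 1 →
      c * γ * (2 * n + 1) ^ d ≤ ((Finset.univ.filter fun q : Tor d n =>
        |omg q - E| ≤ γ ∧ c ≤ |Real.sin (ang n (q j))|).card : ℝ)) :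
    ∃ κ : ℝ, 0 < κ ∧ κ ≤ 1 ∧ ∀ (ζ : ℂ) (n : ℕ), lo ≤ ζ.re → ζ.re ≤ hi →
    0 < ζ.im → ζ.im ≤ κ → ζ.im ^ (-(10 : ℝ)) ≤ 2 * n + 1 →
    (∀ x, κ ≤ (Gr (H0 d n) 0 ζ x x).im) ∧
    (∀ (j : Fin d) (m : ℕ), 2 * Real.pi * m / (2 * n + 1) ≤ κ * ζ.im →
      κ * (2 * Real.pi * m / (2 * n + 1)) ^ 2 / ζ.im ^ 3 ≤
        ∑ y, ‖Gr (H0 d n) 0 ζ 0 y‖ ^ 2 *
          (1 - Real.cos (2 * Real.pi * m / (2 * n + 1) * ((y j).valMinAbs : ℝ)))) := by
  refine ⟨c ^ 3 / 160, by positivity, ?_, ?_⟩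
  · have : c ^ 3 ≤ 1 := pow_le_one₀ hc0.le hc1
    linarith
  intro ζ n hE1 hE2 hγ hγκ hn
  have hc3 : c ^ 3 ≤ c := by
    have : c ^ 3 ≤ c ^ 1 := pow_le_pow_of_le_one hc0.le hc1 (by norm_num)
    simpa using this
  have hκc : c ^ 3 / 160 ≤ c := by linarith
  have hγc : ζ.im ≤ c := hγκ.trans hκc
  have hγ1 : ζ.im ≤ 1 / 160 := hγκ.trans (by linarith)
  have hn0 : 0 < n := by
    rcases Nat.eq_zero_or_pos n with h | h
    · exfalso
      subst h
      have h1 : (1 : ℝ) < ζ.im ^ (-(10 : ℝ)) :=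
        Real.one_lt_rpow_of_pos_of_lt_one_of_neg hγ (by linarith) (by norm_num)
      simp only [Nat.cast_zero, mul_zero, zero_add] at hn
      linarith
    · exact h
  rw [Gr_eq_TF hn0 hγ]
  set F : Tor d n → ℂ := fun q => 1 / ((omg q : ℂ) - ζ) with hF
  have hN : (0 : ℝ) < (2 * n + 1 : ℝ) ^ d := by positivity
  refine ⟨fun x => ?_, fun j m hm => ?_⟩
  · rw [fb34_TF_diag]
    have h1 : (1 / (2 * n + 1 : ℂ) ^ d) = ((1 / (2 * n + 1 : ℝ) ^ d : ℝ) : ℂ) := by push_cast; rfl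
    rw [h1, Complex.im_ofReal_mul, Complex.im_sum]
    have h2 : ∀ q : Tor d n, (F q).im = ζ.im / ((omg q - ζ.re) ^ 2 + ζ.im ^ 2) := fun q =>
      fb34_im_inv _ _
    simp only [h2]
    set S := Finset.univ.filter fun q : Tor d n =>
      |omg q - ζ.re| ≤ ζ.im ∧ c ≤ |Real.sin (ang n (q ⟨0, by omega⟩))| with hS
    have h3 : c * ζ.im * (2 * n + 1) ^ d ≤ (S.card : ℝ) :=
      hcnt n ζ.re ζ.im ⟨0, by omega⟩ hE1 hE2 hγ hγc hn
    have h4 : (S.card : ℝ) * (1 / (2 * ζ.im)) ≤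
        ∑ q : Tor d n, ζ.im / ((omg q - ζ.re) ^ 2 + ζ.im ^ 2) := by
      have h5 : (S.card : ℝ) * (1 / (2 * ζ.im)) ≤
          ∑ q ∈ S, ζ.im / ((omg q - ζ.re) ^ 2 + ζ.im ^ 2) := by
        rw [← nsmul_eq_mul]
        refine Finset.card_nsmul_le_sum _ _ _ fun q hq => ?_
        have h6 := (Finset.mem_filter.mp hq).2.1
        have h7 : (omg q - ζ.re) ^ 2 ≤ ζ.im ^ 2 := sq_le_sq' (abs_le.mp h6).1 (abs_le.mp h6).2
        rw [div_le_div_iff₀ (by positivity) (by positivity)]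
        nlinarith
      refine h5.trans (Finset.sum_le_sum_of_subset_of_nonneg (Finset.subset_univ _) ?_)
      intro q _ _
      positivity
    have h8 : c / 2 * (2 * n + 1 : ℝ) ^ d ≤
        ∑ q : Tor d n, ζ.im / ((omg q - ζ.re) ^ 2 + ζ.im ^ 2) := by
      refine le_trans ?_ h4
      have h9 : c / 2 * (2 * n + 1 : ℝ) ^ d =
          (c * ζ.im * (2 * n + 1) ^ d) * (1 / (2 * ζ.im)) := by
        field_simp
      rw [h9]
      gcongr
    have h10 : c ^ 3 / 160 ≤ c / 2 := by linarith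
    refine h10.trans ?_
    rw [one_div, ← div_eq_inv_mul, le_div_iff₀ hN]
    exact h8
  · set k : ℝ := 2 * Real.pi * m / (2 * n + 1) with hk
    have hk0 : 0 ≤ k := by positivity
    have hkγ : k ≤ ζ.im := by
      refine hm.trans ?_
      have : c ^ 3 / 160 * ζ.im ≤ 1 * ζ.im := by
        apply mul_le_mul_of_nonneg_right _ hγ.le
        linarith
      linarith
    have hkc : k ≤ c := hkγ.trans hγc
    have hmn : m ≤ n := by
      by_contra hmn
      push Not at hmn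
      have h1 : (n : ℝ) + 1 ≤ m := by exact_mod_cast hmn
      have h2 : 2 * Real.pi * m ≤ k * (2 * n + 1) := by
        rw [hk]; field_simp; exact le_refl _
      have h3 : k ≤ 1 := by linarith
      have h4 : k * (2 * (n : ℝ) + 1) ≤ 1 * (2 * n + 1) := by
        apply mul_le_mul_of_nonneg_right h3 (by positivity)
      have h5 := Real.pi_gt_three
      have h6 : (0 : ℝ) ≤ n := Nat.cast_nonneg n
      nlinarith
    set p : Tor d n := Pi.single j (m : ZMod (2 * n + 1)) with hp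
    have hchp : ∀ y : Tor d n, ‖1 - ch p y‖ ^ 2 =
        2 * (1 - Real.cos (k * ((y j).valMinAbs : ℝ))) := by
      intro y
      have h1 : ch p y = Complex.exp (Complex.I * ((k * ((y j).valMinAbs : ℝ) : ℝ) : ℂ)) := by
        unfold ch
        rw [Finset.prod_eq_single j]
        · rw [hp, Pi.single_eq_same, stdAddChar_eq, fb34_ang_nat n m hmn]
        · intro l _ hl
          rw [hp, Pi.single_eq_of_ne hl]
          simp
        · simp
      rw [h1, ← Complex.normSq_eq_norm_sq, Complex.normSq_apply]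
      simp only [Complex.sub_re, Complex.one_re, Complex.sub_im, Complex.one_im, zero_sub]
      rw [mul_comm Complex.I, Complex.exp_ofReal_mul_I_re, Complex.exp_ofReal_mul_I_im]
      have h2 := Real.sin_sq_add_cos_sq (k * ((y j).valMinAbs : ℝ))
      nlinarith
    have hdiff : ∀ y : Tor d n, ‖TF F 0 y‖ ^ 2 * (1 - Real.cos (k * ((y j).valMinAbs : ℝ))) =
        1 / 2 * ‖TF (fun q => F q - F (q - p)) 0 y‖ ^ 2 := by
      intro y
      have h1 := TF_mod F p 0 y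
      rw [fb34_ch_zero, map_one, one_mul] at h1
      have h2 : TF (fun q => F q - F (q - p)) 0 y = TF F 0 y * (1 - ch p y) := by
        have h3 := TF_add F (fun q => (-1 : ℂ) * F (q - p))
        have h4 := TF_smul (-1 : ℂ) (fun q : Tor d n => F (q - p))
        rw [← h4] at h3
        have h5 := congrFun (congrFun h3 0) y
        rw [Matrix.add_apply, Matrix.smul_apply, ← h1] at h5
        have h6 : (fun q => F q + (-1 : ℂ) * F (q - p)) = fun q => F q - F (q - p) := by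
          funext q; ring
        rw [h6] at h5
        rw [← h5, smul_eq_mul]
        ring
      rw [h2, norm_mul, mul_pow, hchp]
      ring
    simp only [hdiff]
    rw [← Finset.mul_sum, parseval]
    set S := Finset.univ.filter fun q : Tor d n =>
      |omg q - ζ.re| ≤ ζ.im ∧ c ≤ |Real.sin (ang n (q j))| with hS
    have h3 : c * ζ.im * (2 * n + 1) ^ d ≤ (S.card : ℝ) :=
      hcnt n ζ.re ζ.im j hE1 hE2 hγ hγc hn
    have h4 : (S.card : ℝ) * (c ^ 2 * k ^ 2 / (80 * ζ.im ^ 4)) ≤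
        ∑ q : Tor d n, ‖F q - F (q - p)‖ ^ 2 := by
      have h5 : (S.card : ℝ) * (c ^ 2 * k ^ 2 / (80 * ζ.im ^ 4)) ≤
          ∑ q ∈ S, ‖F q - F (q - p)‖ ^ 2 := by
        rw [← nsmul_eq_mul]
        refine Finset.card_nsmul_le_sum _ _ _ fun q hq => ?_
        have h6 := (Finset.mem_filter.mp hq).2
        have h7 := fb34_omg_sub q j (m : ZMod (2 * n + 1))
        rw [fb34_ang_nat n m hmn, ← hk, ← hp] at h7
        have h8 := fb34_low hc1 hk0 hkc h6.2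
        have h9 := fb34_up (θ := ang n (q j)) hk0
        rw [← h7] at h8 h9
        exact fb34_diff hγ rfl hk0 hkγ hc0.le h6.1 h8 h9
      refine h5.trans (Finset.sum_le_sum_of_subset_of_nonneg (Finset.subset_univ _) ?_)
      intro q _ _
      positivity
    have h10 : c * ζ.im * (2 * n + 1) ^ d * (c ^ 2 * k ^ 2 / (80 * ζ.im ^ 4)) ≤
        ∑ q : Tor d n, ‖F q - F (q - p)‖ ^ 2 := by
      refine le_trans ?_ h4
      gcongr
    calc c ^ 3 / 160 * k ^ 2 / ζ.im ^ 3 = 1 / 2 * (1 / (2 * n + 1 : ℝ) ^ d *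
          (c * ζ.im * (2 * n + 1) ^ d * (c ^ 2 * k ^ 2 / (80 * ζ.im ^ 4)))) := by
          field_simp
          ring
      _ ≤ _ := by gcongr

theorem fb_low {b : ℝ} (hb : 0 < b) (hb1 : b ≤ 1) {d : ℕ} (hd : 1 ≤ d) :
    ∃ κ : ℝ, 0 < κ ∧ κ ≤ 1 ∧ ∀ (ζ : ℂ) (n : ℕ), b ≤ ζ.re → ζ.re ≤ 2 - b →
    0 < ζ.im → ζ.im ≤ κ → ζ.im ^ (-(10 : ℝ)) ≤ 2 * n + 1 →
    (∀ x, κ ≤ (Gr (H0 d n) 0 ζ x x).im) ∧
    (∀ (j : Fin d) (m : ℕ), 2 * Real.pi * m / (2 * n + 1) ≤ κ * ζ.im →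
      κ * (2 * Real.pi * m / (2 * n + 1)) ^ 2 / ζ.im ^ 3 ≤
        ∑ y, ‖Gr (H0 d n) 0 ζ 0 y‖ ^ 2 *
          (1 - Real.cos (2 * Real.pi * m / (2 * n + 1) * ((y j).valMinAbs : ℝ)))) := by
  obtain ⟨c, hc0, hc1, hcnt⟩ := count_low hb hb1 hd
  exact fb_low_of_count hc0 hc1 hd hcnt

theorem freeB {b : ℝ} (hb : 0 < b) (hb1 : b ≤ 1) {d : ℕ} (hd : 3 ≤ d) : FreeB d b (2 - b) := by
  refine ⟨fun ε hε => ?_, fb_low hb hb1 (by omega)⟩
  obtain ⟨C, hC, h3⟩ := fb3 hb hb1 hd hε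
  obtain ⟨C', hC', h24⟩ := fb24 hb hb1 hd hε
  refine ⟨max C C', lt_max_of_lt_left hC, fun ζ n h1 h2 h4 h5 h6 => ⟨fun x => ?_, fun c => ?_⟩⟩
  · refine (h3 ζ n h1 h2 h4 h5 h6 x).trans ?_
    exact mul_le_mul_of_nonneg_right (le_max_left _ _) (Real.rpow_nonneg h4.le _)
  · refine (h24 ζ n h1 h2 h4 h5 h6 c).trans ?_
    have h7 : 0 ≤ ζ.im ^ (-2 - ε) := Real.rpow_nonneg h4.le _
    have h8 : 0 ≤ nsq c ^ 2 := sq_nonneg _
    have h9 : (0 : ℝ) ≤ (1 + Real.log (2 * n + 1)) ^ 4 := by positivity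
    gcongr
    exact le_max_right _ _

end Pool.Agent.BK
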