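import Pool.Agent.BK.Ker1

/-! BK module RIEMA: the kernel on the cycle as a Riemann sum.
`kn` is a Riemann sum (nodes `ang q = 2π q̂/(2n+1)`, `q̂ ∈ [-n, n]`, mesh `2π/(2n+1)`, the
intervals `ang q ± π/(2n+1)` tile `[-π, π]`) of the integral `kz`, whose integrand has derivative
`≤ C(1 + t + |m̂|)`. `kn_neg`: `valMinAbs (-m) = - valMinAbs m` for odd modulus. -/

open MeasureTheory Set

noncomputable section

namespace Pool.Agent.BK

/-- The integrand. -/
def riemG (b t x θ : ℝ) : ℂ :=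
  (chi b θ : ℂ) * Complex.exp (Complex.I * ((x * θ - t * (2 - 2 * Real.cos θ) : ℝ) : ℂ))

lemma riemA_norm_exp (r : ℝ) : ‖Complex.exp (Complex.I * (r : ℂ))‖ = 1 := by
  rw [mul_comm]; exact Complex.norm_exp_ofReal_mul_I r

lemma riemA_norm (b t x θ : ℝ) : ‖riemG b t x θ‖ ≤ 1 := by
  unfold riemG
  rw [norm_mul, riemA_norm_exp, mul_one, Complex.norm_real, Real.norm_eq_abs,
    abs_of_nonneg (chi_nonneg b θ)]
  exact chi_le_one b θ

lemma kn_eq (b : ℝ) (n : ℕ) (t : ℝ) (m : ZMod (2 * n + 1)) : kn b n t m =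
    (1 / (2 * n + 1) : ℝ) • ∑ q : ZMod (2 * n + 1), riemG b t (m.valMinAbs : ℝ) (ang n q) := by
  unfold kn riemG
  congr 1
  refine Finset.sum_congr rfl fun q _ => ?_
  rw [mul_comm (ang n q)]

lemma kn_one (b : ℝ) (n : ℕ) (t : ℝ) (m : ZMod (2 * n + 1)) : ‖kn b n t m‖ ≤ 1 := by
  rw [kn_eq, norm_smul]
  have h1 : ‖∑ q : ZMod (2 * n + 1), riemG b t (m.valMinAbs : ℝ) (ang n q)‖ ≤ 2 * n + 1 := by
    refine (norm_sum_le _ _).trans ?_
    refine (Finset.sum_le_sum fun q _ => riemA_norm b t _ (ang n q)).trans ?_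
    rw [Finset.sum_const, Finset.card_univ, ZMod.card]
    simp
  have h2 : (0 : ℝ) < 2 * n + 1 := by positivity
  rw [Real.norm_eq_abs, abs_of_pos (by positivity)]
  calc 1 / (2 * n + 1) * ‖∑ q : ZMod (2 * n + 1), riemG b t (m.valMinAbs : ℝ) (ang n q)‖
      ≤ 1 / (2 * n + 1) * (2 * n + 1) := by gcongr
    _ = 1 := by field_simp

lemma continuous_kn (b : ℝ) (n : ℕ) (m : ZMod (2 * n + 1)) : Continuous fun t => kn b n t m := by
  have h : Continuous fun t : ℝ => ∑ q : ZMod (2 * n + 1),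
    (chi b (ang n q) : ℂ) * Complex.exp (Complex.I *
      ((ang n q * (m.valMinAbs : ℝ) - t * (2 - 2 * Real.cos (ang n q)) : ℝ) : ℂ)) := by
    refine continuous_finsetSum (M := ℂ) _ fun q _ => ?_
    fun_prop
  exact h.const_smul (1 / (2 * n + 1) : ℝ)

lemma kn_neg (b : ℝ) (n : ℕ) (t : ℝ) (m : ZMod (2 * n + 1)) :
    kn b n (-t) m = starRingEnd ℂ (kn b n t (-m)) := by
  have hm : (-m).valMinAbs = -m.valMinAbs := by
    apply ZMod.valMinAbs_neg_of_ne_half
    omega
  unfold kn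
  rw [hm, Complex.real_smul, Complex.real_smul, map_mul, Complex.conj_ofReal, map_sum]
  congr 1
  refine Finset.sum_congr rfl fun q _ => ?_
  rw [map_mul, Complex.conj_ofReal, ← Complex.exp_conj, map_mul, Complex.conj_I,
    Complex.conj_ofReal]
  congr 2
  push_cast
  ring

lemma riemA_cont (b t x : ℝ) : Continuous (riemG b t x) := by
  unfold riemG chi
  have : Continuous Real.smoothTransition := Real.smoothTransition.continuous
  fun_prop

/-- `smoothTransition` is Lipschitz on bounded intervals. -/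
lemma riemA_st (R : ℝ) : ∃ K : ℝ, 0 ≤ K ∧ ∀ u ∈ Icc (-R) R, ∀ v ∈ Icc (-R) R,
    |Real.smoothTransition u - Real.smoothTransition v| ≤ K * |u - v| := by
  have h1 : ContDiff ℝ 1 Real.smoothTransition := Real.smoothTransition.contDiff (n := 1)
  have h2 : Continuous (deriv Real.smoothTransition) := h1.continuous_deriv le_rfl
  obtain ⟨K, hK⟩ := (isCompact_Icc (a := -R) (b := R)).exists_bound_of_continuousOn
    h2.continuousOn
  refine ⟨max K 0, le_max_right _ _, fun u hu v hv => ?_⟩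
  have h3 := (convex_Icc (-R) R).norm_image_sub_le_of_norm_deriv_le (f := Real.smoothTransition)
    (fun x _ => (h1.differentiable one_ne_zero) x) (fun x hx => (hK x hx).trans (le_max_left _ 0))
    hv hu
  simpa [Real.norm_eq_abs] using h3

/-- The cutoff is Lipschitz. -/
lemma riemA_chi {b : ℝ} (hb : 0 < b) : ∃ K : ℝ, 0 ≤ K ∧ ∀ θ θ' : ℝ,
    |chi b θ - chi b θ'| ≤ K * |θ - θ'| := by
  obtain ⟨K, hK0, hK⟩ := riemA_st ((1 + b / 16) / (b / 16))
  refine ⟨K / (b / 16), by positivity, fun θ θ' => ?_⟩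
  have hb' : 0 < b / 16 := by positivity
  have hmem : ∀ θ : ℝ, (Real.cos θ - b / 16) / (b / 16) ∈
      Icc (-((1 + b / 16) / (b / 16))) ((1 + b / 16) / (b / 16)) := by
    intro θ
    have c1 := Real.cos_le_one θ
    have c2 := Real.neg_one_le_cos θ
    constructor
    · rw [← neg_div]
      gcongr
      linarith
    · gcongr
      linarith
  have h1 := hK _ (hmem θ) _ (hmem θ')
  unfold chi
  refine h1.trans ?_
  have h2 : (Real.cos θ - b / 16) / (b / 16) - (Real.cos θ' - b / 16) / (b / 16) =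
      (Real.cos θ - Real.cos θ') / (b / 16) := by ring
  rw [h2, abs_div, abs_of_pos hb', div_mul_eq_mul_div, mul_div_assoc']
  exact div_le_div_of_nonneg_right
    (mul_le_mul_of_nonneg_left (Real.abs_cos_sub_cos_le θ θ') hK0) hb'.le

lemma riemA_exp (u v : ℝ) : ‖Complex.exp (Complex.I * (u : ℂ)) -
    Complex.exp (Complex.I * (v : ℂ))‖ ≤ |u - v| := by
  have h : Complex.exp (Complex.I * (u : ℂ)) - Complex.exp (Complex.I * (v : ℂ)) =
      Complex.exp (Complex.I * (v : ℂ)) *
        (Complex.exp (Complex.I * ((u - v : ℝ) : ℂ)) - 1) := by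
    rw [mul_sub, ← Complex.exp_add, mul_one]
    congr 2
    push_cast
    ring
  rw [h, norm_mul, riemA_norm_exp, one_mul]
  exact Real.norm_exp_I_mul_ofReal_sub_one_le

lemma riemA_lip {b K : ℝ} (hK : ∀ θ θ' : ℝ, |chi b θ - chi b θ'| ≤ K * |θ - θ'|)
    {t : ℝ} (ht : 0 ≤ t) (x θ θ' : ℝ) :
    ‖riemG b t x θ - riemG b t x θ'‖ ≤ (K + |x| + 2 * t) * |θ - θ'| := by
  have h : riemG b t x θ - riemG b t x θ' =
      ((chi b θ - chi b θ' : ℝ) : ℂ) *
        Complex.exp (Complex.I * ((x * θ - t * (2 - 2 * Real.cos θ) : ℝ) : ℂ)) +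
      (chi b θ' : ℂ) * (Complex.exp (Complex.I * ((x * θ - t * (2 - 2 * Real.cos θ) : ℝ) : ℂ)) -
        Complex.exp (Complex.I * ((x * θ' - t * (2 - 2 * Real.cos θ') : ℝ) : ℂ))) := by
    unfold riemG
    rw [Complex.ofReal_sub (chi b θ)]
    ring
  rw [h]
  refine (norm_add_le _ _).trans ?_
  rw [norm_mul, norm_mul, riemA_norm_exp, mul_one, Complex.norm_real, Real.norm_eq_abs,
    Complex.norm_real, Real.norm_eq_abs, abs_of_nonneg (chi_nonneg b θ')]
  have h1 := riemA_exp (x * θ - t * (2 - 2 * Real.cos θ)) (x * θ' - t * (2 - 2 * Real.cos θ'))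
  have h2 : |(x * θ - t * (2 - 2 * Real.cos θ)) - (x * θ' - t * (2 - 2 * Real.cos θ'))| ≤
      (|x| + 2 * t) * |θ - θ'| := by
    have h3 : (x * θ - t * (2 - 2 * Real.cos θ)) - (x * θ' - t * (2 - 2 * Real.cos θ')) =
        x * (θ - θ') + 2 * t * (Real.cos θ - Real.cos θ') := by ring
    rw [h3]
    refine (abs_add_le _ _).trans ?_
    rw [abs_mul, abs_mul, abs_of_nonneg (show 0 ≤ 2 * t by linarith), add_mul]
    have h4 := mul_le_mul_of_nonneg_left (Real.abs_cos_sub_cos_le θ θ') (show 0 ≤ 2 * t by linarith)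
    linarith
  have h5 : chi b θ' * ‖Complex.exp (Complex.I * ((x * θ - t * (2 - 2 * Real.cos θ) : ℝ) : ℂ)) -
        Complex.exp (Complex.I * ((x * θ' - t * (2 - 2 * Real.cos θ') : ℝ) : ℂ))‖ ≤
      1 * ((|x| + 2 * t) * |θ - θ'|) :=
    mul_le_mul (chi_le_one b θ') (h1.trans h2) (norm_nonneg _) zero_le_one
  have h6 := hK θ θ'
  nlinarith [h5, h6]

/-- The sum over the cycle as a sum over a range. -/
lemma riemA_sum (n : ℕ) (f : ℤ → ℂ) : ∑ q : ZMod (2 * n + 1), f q.valMinAbs =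
    ∑ j ∈ Finset.range (2 * n + 1), f ((j : ℤ) - n) := by
  symm
  refine Finset.sum_bij' (fun j _ => (((j : ℤ) - n : ℤ) : ZMod (2 * n + 1)))
    (fun q _ => (q.valMinAbs + n).toNat) ?_ ?_ ?_ ?_ ?_
  · intro j _
    exact Finset.mem_univ _
  · intro q _
    have h := ZMod.valMinAbs_mem_Ioc q
    rw [Set.mem_Ioc] at h
    rw [Finset.mem_range]
    omega
  · intro j hj
    rw [Finset.mem_range] at hj
    have h : ((((j : ℤ) - n : ℤ) : ZMod (2 * n + 1))).valMinAbs = (j : ℤ) - n := by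
      rw [ZMod.valMinAbs_spec]
      refine ⟨rfl, ?_⟩
      rw [Set.mem_Ioc]
      push_cast
      omega
    simp only [h]
    omega
  · intro q _
    have h := ZMod.valMinAbs_mem_Ioc q
    rw [Set.mem_Ioc] at h
    have h2 : ((q.valMinAbs + n).toNat : ℤ) - n = q.valMinAbs := by omega
    simp only [h2]
    exact ZMod.coe_valMinAbs q
  · intro j hj
    rw [Finset.mem_range] at hj
    have h : ((((j : ℤ) - n : ℤ) : ZMod (2 * n + 1))).valMinAbs = (j : ℤ) - n := by
      rw [ZMod.valMinAbs_spec]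
      refine ⟨rfl, ?_⟩
      rw [Set.mem_Ioc]
      push_cast
      omega
    rw [h]

theorem riem {b : ℝ} (hb : 0 < b) (hb1 : b ≤ 1) :
    ∃ C : ℝ, 0 < C ∧ ∀ (n : ℕ) (t : ℝ) (m : ZMod (2 * n + 1)), 0 ≤ t →
      ‖kn b n t m - kz b t (m.valMinAbs : ℝ)‖ ≤ C * (1 + t + |(m.valMinAbs : ℝ)|) / (2 * n + 1) := by
  obtain ⟨K, hK0, hK⟩ := riemA_chi hb
  refine ⟨2 * Real.pi * (K + 2), by positivity, fun n t m ht => ?_⟩
  set x : ℝ := (m.valMinAbs : ℝ) with hx
  set L : ℝ := K + |x| + 2 * t with hL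
  have hL0 : 0 ≤ L := by positivity
  have hN : (0 : ℝ) < 2 * n + 1 := by positivity
  set h : ℝ := 2 * Real.pi / (2 * n + 1) with hh
  have hh0 : 0 < h := by positivity
  have hNh : (2 * n + 1) * h = 2 * Real.pi := by rw [hh]; field_simp
  have hpi : 0 < 2 * Real.pi := by positivity
  let a : ℕ → ℝ := fun k => -Real.pi + k * h
  have ha0 : a 0 = -Real.pi := by simp [a]
  have haN : a (2 * n + 1) = Real.pi := by
    simp only [a]
    push_cast
    rw [hNh]
    ring
  have hint := intervalIntegral.sum_integral_adjacent_intervals (f := riemG b t x)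
    (μ := volume) (a := a) (n := 2 * n + 1)
    (fun k _ => (riemA_cont b t x).intervalIntegrable _ _)
  rw [ha0, haN] at hint
  have hsum : ∑ q : ZMod (2 * n + 1), riemG b t x (ang n q) =
      ∑ j ∈ Finset.range (2 * n + 1), riemG b t x (a j + h / 2) := by
    have h1 := riemA_sum n (fun z => riemG b t x (2 * Real.pi * (z : ℝ) / (2 * n + 1)))
    have h2 : ∑ q : ZMod (2 * n + 1), riemG b t x (ang n q) =
        ∑ q : ZMod (2 * n + 1), riemG b t x (2 * Real.pi * ((q.valMinAbs : ℤ) : ℝ) / (2 * n + 1)) :=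
      rfl
    rw [h2, h1]
    refine Finset.sum_congr rfl fun j _ => ?_
    congr 1
    simp only [a, hh]
    push_cast
    field_simp
    ring
  have hcell : ∀ j : ℕ, ‖h • riemG b t x (a j + h / 2) - ∫ θ in a j..a (j + 1), riemG b t x θ‖ ≤
      L * h * h := by
    intro j
    have hab : a (j + 1) - a j = h := by
      simp only [a]
      push_cast
      ring
    have h1 : h • riemG b t x (a j + h / 2) =
        ∫ θ in a j..a (j + 1), riemG b t x (a j + h / 2) := by
      rw [intervalIntegral.integral_const, hab]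
    rw [h1, ← intervalIntegral.integral_sub (by simp)
      ((riemA_cont b t x).intervalIntegrable _ _)]
    refine (intervalIntegral.norm_integral_le_of_norm_le_const (C := L * h) ?_).trans ?_
    · intro θ hθ
      rw [Set.uIoc_of_le (by linarith)] at hθ
      refine (riemA_lip hK ht x _ _).trans ?_
      have h3 : |a j + h / 2 - θ| ≤ h := by
        rw [abs_le]
        constructor
        · linarith [hθ.2]
        · linarith [hθ.1]
      exact mul_le_mul_of_nonneg_left h3 hL0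
    · rw [hab, abs_of_pos hh0]
  have htot : ‖h • ∑ q : ZMod (2 * n + 1), riemG b t x (ang n q) -
      ∫ θ in (-Real.pi)..Real.pi, riemG b t x θ‖ ≤ (2 * n + 1) * (L * h * h) := by
    rw [hsum, ← hint, Finset.smul_sum, ← Finset.sum_sub_distrib]
    refine (norm_sum_le _ _).trans ((Finset.sum_le_sum fun j _ => hcell j).trans ?_)
    rw [Finset.sum_const, Finset.card_range, nsmul_eq_mul]
    push_cast
    exact le_refl _
  have hkz : kz b t x = (1 / (2 * Real.pi) : ℝ) • ∫ θ in (-Real.pi)..Real.pi, riemG b t x θ := rfl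
  have hkn : kn b n t m = (1 / (2 * Real.pi) : ℝ) • (h • ∑ q : ZMod (2 * n + 1),
      riemG b t x (ang n q)) := by
    rw [kn_eq, smul_smul]
    congr 1
    rw [hh]
    field_simp
  rw [hkn, hkz, ← smul_sub, norm_smul, Real.norm_eq_abs, abs_of_pos (by positivity)]
  calc 1 / (2 * Real.pi) * ‖h • ∑ q : ZMod (2 * n + 1), riemG b t x (ang n q) -
      ∫ θ in (-Real.pi)..Real.pi, riemG b t x θ‖
      ≤ 1 / (2 * Real.pi) * ((2 * n + 1) * (L * h * h)) := by gcongr
    _ = L * h * ((2 * n + 1) * h / (2 * Real.pi)) := by ring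
    _ = L * h := by rw [hNh, div_self hpi.ne', mul_one]
    _ = 2 * Real.pi * L / (2 * n + 1) := by rw [hh]; ring
    _ ≤ 2 * Real.pi * (K + 2) * (1 + t + |x|) / (2 * n + 1) := by
        have h7 : L ≤ (K + 2) * (1 + t + |x|) := by
          rw [hL]
          nlinarith [abs_nonneg x, mul_nonneg hK0 ht, mul_nonneg hK0 (abs_nonneg x)]
        have h8 : 2 * Real.pi * L ≤ 2 * Real.pi * (K + 2) * (1 + t + |x|) := by
          rw [mul_assoc (2 * Real.pi)]
          exact mul_le_mul_of_nonneg_left h7 hpi.le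
        exact div_le_div_of_nonneg_right h8 hN.le

end Pool.Agent.BK
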