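import Pool.Agent.BK.KDefs4
import Pool.Agent.BK.RiemA
import Pool.Agent.BK.Sbp

/-! BK module K4R: the full kernel on the cycle: Riemann sum and summation by parts. Same proofs as
`RiemA.lean` and `Sbp.lean` with the cutoff `chi` replaced by `1` (for integer `m` the integrand is
`2π`-periodic). -/

open MeasureTheory Set

noncomputable section

namespace Pool.Agent.BK

/-- The integrand. -/
def k4rG (t x θ : ℝ) : ℂ :=
  Complex.exp (Complex.I * ((x * θ - t * (2 - 2 * Real.cos θ) : ℝ) : ℂ))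

lemma k4r_eq (n : ℕ) (t : ℝ) (m : ZMod (2 * n + 1)) : knf n t m =
    (1 / (2 * n + 1) : ℝ) • ∑ q : ZMod (2 * n + 1), k4rG t (m.valMinAbs : ℝ) (ang n q) := by
  unfold knf k4rG
  congr 1
  refine Finset.sum_congr rfl fun q _ => ?_
  rw [mul_comm (ang n q)]

lemma knf_one (n : ℕ) (t : ℝ) (m : ZMod (2 * n + 1)) : ‖knf n t m‖ ≤ 1 := by
  rw [k4r_eq, norm_smul]
  have h1 : ‖∑ q : ZMod (2 * n + 1), k4rG t (m.valMinAbs : ℝ) (ang n q)‖ ≤ 2 * n + 1 := by
    refine (norm_sum_le _ _).trans ?_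
    refine (Finset.sum_le_sum fun q _ => (riemA_norm_exp _).le).trans ?_
    rw [Finset.sum_const, Finset.card_univ, ZMod.card]
    simp
  have h2 : (0 : ℝ) < 2 * n + 1 := by positivity
  rw [Real.norm_eq_abs, abs_of_pos (by positivity)]
  calc 1 / (2 * n + 1) * ‖∑ q : ZMod (2 * n + 1), k4rG t (m.valMinAbs : ℝ) (ang n q)‖
      ≤ 1 / (2 * n + 1) * (2 * n + 1) := by gcongr
    _ = 1 := by field_simp

lemma continuous_knf (n : ℕ) (m : ZMod (2 * n + 1)) : Continuous fun t => knf n t m := by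
  have h : Continuous fun t : ℝ => ∑ q : ZMod (2 * n + 1), Complex.exp (Complex.I *
      ((ang n q * (m.valMinAbs : ℝ) - t * (2 - 2 * Real.cos (ang n q)) : ℝ) : ℂ)) := by
    refine continuous_finsetSum (M := ℂ) _ fun q _ => ?_
    fun_prop
  exact h.const_smul (1 / (2 * n + 1) : ℝ)

lemma knf_neg (n : ℕ) (t : ℝ) (m : ZMod (2 * n + 1)) :
    knf n (-t) m = starRingEnd ℂ (knf n t (-m)) := by
  have hm : (-m).valMinAbs = -m.valMinAbs := by
    apply ZMod.valMinAbs_neg_of_ne_half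
    omega
  unfold knf
  rw [hm, Complex.real_smul, Complex.real_smul, map_mul, Complex.conj_ofReal, map_sum]
  congr 1
  refine Finset.sum_congr rfl fun q _ => ?_
  rw [← Complex.exp_conj, map_mul, Complex.conj_I, Complex.conj_ofReal]
  congr 1
  push_cast
  ring

lemma k4r_cont (t x : ℝ) : Continuous (k4rG t x) := by
  unfold k4rG
  fun_prop

lemma k4r_lip {t : ℝ} (ht : 0 ≤ t) (x θ θ' : ℝ) :
    ‖k4rG t x θ - k4rG t x θ'‖ ≤ (|x| + 2 * t) * |θ - θ'| := by
  have h1 := riemA_exp (x * θ - t * (2 - 2 * Real.cos θ)) (x * θ' - t * (2 - 2 * Real.cos θ'))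
  refine h1.trans ?_
  have h3 : (x * θ - t * (2 - 2 * Real.cos θ)) - (x * θ' - t * (2 - 2 * Real.cos θ')) =
      x * (θ - θ') + 2 * t * (Real.cos θ - Real.cos θ') := by ring
  rw [h3]
  refine (abs_add_le _ _).trans ?_
  rw [abs_mul, abs_mul, abs_of_nonneg (show 0 ≤ 2 * t by linarith), add_mul]
  have h4 := mul_le_mul_of_nonneg_left (Real.abs_cos_sub_cos_le θ θ') (show 0 ≤ 2 * t by linarith)
  linarith

theorem riem_f : ∃ C : ℝ, 0 < C ∧ ∀ (n : ℕ) (t : ℝ) (m : ZMod (2 * n + 1)), 0 ≤ t →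
      ‖knf n t m - kf t m.valMinAbs‖ ≤ C * (1 + t + |(m.valMinAbs : ℝ)|) / (2 * n + 1) := by
  refine ⟨2 * Real.pi * 2, by positivity, fun n t m ht => ?_⟩
  set x : ℝ := (m.valMinAbs : ℝ) with hx
  set L : ℝ := |x| + 2 * t with hL
  have hL0 : 0 ≤ L := by positivity
  have hN : (0 : ℝ) < 2 * n + 1 := by positivity
  set h : ℝ := 2 * Real.pi / (2 * n + 1) with hh
  have hh0 : 0 < h := by positivity
  have hNh : (2 * n + 1) * h = 2 * Real.pi := by rw [hh]; field_simp
  have hpi : 0 < 2 * Real.pi := by positivity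
  let a : ℕ → ℝ := fun k => -Real.pi + k * h
  have ha0 : a 0 = -Real.pi := by simp [a]
  have haN : a (2 * n + 1) = Real.pi := by
    simp only [a]
    push_cast
    rw [hNh]
    ring
  have hint := intervalIntegral.sum_integral_adjacent_intervals (f := k4rG t x)
    (μ := volume) (a := a) (n := 2 * n + 1)
    (fun k _ => (k4r_cont t x).intervalIntegrable _ _)
  rw [ha0, haN] at hint
  have hsum : ∑ q : ZMod (2 * n + 1), k4rG t x (ang n q) =
      ∑ j ∈ Finset.range (2 * n + 1), k4rG t x (a j + h / 2) := by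
    have h1 := riemA_sum n (fun z => k4rG t x (2 * Real.pi * (z : ℝ) / (2 * n + 1)))
    have h2 : ∑ q : ZMod (2 * n + 1), k4rG t x (ang n q) =
        ∑ q : ZMod (2 * n + 1), k4rG t x (2 * Real.pi * ((q.valMinAbs : ℤ) : ℝ) / (2 * n + 1)) :=
      rfl
    rw [h2, h1]
    refine Finset.sum_congr rfl fun j _ => ?_
    congr 1
    simp only [a, hh]
    push_cast
    field_simp
    ring
  have hcell : ∀ j : ℕ, ‖h • k4rG t x (a j + h / 2) - ∫ θ in a j..a (j + 1), k4rG t x θ‖ ≤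
      L * h * h := by
    intro j
    have hab : a (j + 1) - a j = h := by
      simp only [a]
      push_cast
      ring
    have h1 : h • k4rG t x (a j + h / 2) =
        ∫ θ in a j..a (j + 1), k4rG t x (a j + h / 2) := by
      rw [intervalIntegral.integral_const, hab]
    rw [h1, ← intervalIntegral.integral_sub (by simp)
      ((k4r_cont t x).intervalIntegrable _ _)]
    refine (intervalIntegral.norm_integral_le_of_norm_le_const (C := L * h) ?_).trans ?_
    · intro θ hθ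
      rw [Set.uIoc_of_le (by linarith)] at hθ
      refine (k4r_lip ht x _ _).trans ?_
      have h3 : |a j + h / 2 - θ| ≤ h := by
        rw [abs_le]
        constructor
        · linarith [hθ.2]
        · linarith [hθ.1]
      exact mul_le_mul_of_nonneg_left h3 hL0
    · rw [hab, abs_of_pos hh0]
  have htot : ‖h • ∑ q : ZMod (2 * n + 1), k4rG t x (ang n q) -
      ∫ θ in (-Real.pi)..Real.pi, k4rG t x θ‖ ≤ (2 * n + 1) * (L * h * h) := by
    rw [hsum, ← hint, Finset.smul_sum, ← Finset.sum_sub_distrib]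
    refine (norm_sum_le _ _).trans ((Finset.sum_le_sum fun j _ => hcell j).trans ?_)
    rw [Finset.sum_const, Finset.card_range, nsmul_eq_mul]
    push_cast
    exact le_refl _
  have hkz : kf t m.valMinAbs = (1 / (2 * Real.pi) : ℝ) • ∫ θ in (-Real.pi)..Real.pi, k4rG t x θ :=
    rfl
  have hkn : knf n t m = (1 / (2 * Real.pi) : ℝ) • (h • ∑ q : ZMod (2 * n + 1),
      k4rG t x (ang n q)) := by
    rw [k4r_eq, smul_smul]
    congr 1
    rw [hh]
    field_simp
  rw [hkn, hkz, ← smul_sub, norm_smul, Real.norm_eq_abs, abs_of_pos (by positivity)]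
  calc 1 / (2 * Real.pi) * ‖h • ∑ q : ZMod (2 * n + 1), k4rG t x (ang n q) -
      ∫ θ in (-Real.pi)..Real.pi, k4rG t x θ‖
      ≤ 1 / (2 * Real.pi) * ((2 * n + 1) * (L * h * h)) := by gcongr
    _ = L * h * ((2 * n + 1) * h / (2 * Real.pi)) := by ring
    _ = L * h := by rw [hNh, div_self hpi.ne', mul_one]
    _ = 2 * Real.pi * L / (2 * n + 1) := by rw [hh]; ring
    _ ≤ 2 * Real.pi * 2 * (1 + t + |x|) / (2 * n + 1) := by
        have h7 : L ≤ 2 * (1 + t + |x|) := by
          rw [hL]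
          nlinarith [abs_nonneg x]
        have h8 : 2 * Real.pi * L ≤ 2 * Real.pi * 2 * (1 + t + |x|) := by
          rw [mul_assoc (2 * Real.pi)]
          exact mul_le_mul_of_nonneg_left h7 hpi.le
        exact div_le_div_of_nonneg_right h8 hN.le

/-- The symbol of the kernel. -/
def k4rF (t θ : ℝ) : ℂ :=
  Complex.exp (Complex.I * ((-(t * (2 - 2 * Real.cos θ)) : ℝ) : ℂ))

lemma k4rF_periodic (t θ : ℝ) (k : ℤ) : k4rF t (θ + k * (2 * Real.pi)) = k4rF t θ := by
  have : Real.cos (θ + k * (2 * Real.pi)) = Real.cos θ := Real.cos_add_int_mul_two_pi θ k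
  unfold k4rF
  rw [this]

lemma k4rF_lip {t : ℝ} (ht : 0 ≤ t) (x y : ℝ) : ‖k4rF t x - k4rF t y‖ ≤ 2 * t * |x - y| := by
  refine (sbp_exp_sub _ _).trans ?_
  have e2 : -(t * (2 - 2 * Real.cos x)) - -(t * (2 - 2 * Real.cos y))
      = 2 * t * (Real.cos x - Real.cos y) := by ring
  rw [e2, abs_mul, abs_of_nonneg (by positivity : 0 ≤ 2 * t)]
  exact mul_le_mul_of_nonneg_left (Real.abs_cos_sub_cos_le x y) (by positivity)

theorem sbp_f : ∃ C : ℝ, 0 < C ∧ ∀ (n : ℕ) (t : ℝ) (m : ZMod (2 * n + 1)), 0 ≤ t →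
      ‖knf n t m‖ * |(m.valMinAbs : ℝ)| ≤ C * (1 + t) := by
  refine ⟨Real.pi, by positivity, fun n t m ht => ?_⟩
  have hN : (0 : ℝ) < 2 * n + 1 := by positivity
  set S : ℂ := ∑ q : ZMod (2 * n + 1), k4rF t (ang n q) * ZMod.stdAddChar (q * m) with hS
  have ekn : knf n t m = (1 / (2 * n + 1) : ℝ) • S := by
    unfold knf
    congr 1
    refine Finset.sum_congr rfl fun q _ => ?_
    rw [stdAddChar_eq, k4rF, ← Complex.exp_add]
    congr 1
    push_cast
    ring
  have h1 : ‖(ZMod.stdAddChar m : ℂ) - 1‖ * ‖S‖ ≤ 2 * t * (2 * Real.pi) := by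
    rw [← norm_mul, hS, sbp_sum (fun q => k4rF t (ang n q)) m]
    refine (norm_sum_le _ _).trans ?_
    have hb2 : ∀ q ∈ (Finset.univ : Finset (ZMod (2 * n + 1))),
        ‖(k4rF t (ang n (q - 1)) - k4rF t (ang n q)) * (ZMod.stdAddChar (q * m) : ℂ)‖ ≤
          2 * t * (2 * Real.pi / (2 * n + 1)) := by
      intro q _
      have hc : ‖(ZMod.stdAddChar (q * m) : ℂ)‖ = 1 := by
        rw [ZMod.stdAddChar_apply]; exact Circle.norm_coe _
      rw [norm_mul, hc, mul_one]
      obtain ⟨k, hk⟩ := sbp_ang_sub n q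
      rw [hk, k4rF_periodic]
      refine (k4rF_lip ht _ _).trans ?_
      have : |ang n q - 2 * Real.pi / (2 * n + 1) - ang n q| = 2 * Real.pi / (2 * n + 1) := by
        rw [sub_sub_cancel_left, abs_neg, abs_of_pos (by positivity)]
      rw [this]
    refine (Finset.sum_le_sum hb2).trans ?_
    rw [Finset.sum_const, Finset.card_univ, ZMod.card, nsmul_eq_mul]
    push_cast
    rw [show ((2 * (n : ℝ) + 1)) * (2 * t * (2 * Real.pi / (2 * n + 1))) =
      2 * t * (2 * Real.pi) by field_simp]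
  have h2 := sbp_char_low m
  have h3 : 4 * |(m.valMinAbs : ℝ)| / (2 * n + 1) * ‖S‖ ≤ 2 * t * (2 * Real.pi) :=
    (mul_le_mul_of_nonneg_right h2 (norm_nonneg _)).trans h1
  rw [ekn, norm_smul, Real.norm_eq_abs, abs_of_pos (by positivity)]
  have e3 : 1 / (2 * (n : ℝ) + 1) * ‖S‖ * |(m.valMinAbs : ℝ)| =
      (4 * |(m.valMinAbs : ℝ)| / (2 * n + 1) * ‖S‖) / 4 := by ring
  rw [e3]
  have h4 : 2 * t * (2 * Real.pi) / 4 ≤ Real.pi * (1 + t) := by
    nlinarith [Real.pi_pos, mul_nonneg ht Real.pi_pos.le]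
  linarith

end Pool.Agent.BK
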