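import Pool.Agent.BK.K4P
import Pool.Agent.BK.K4R

/-! BK module K4B: time blocks of the full kernel on the torus, `d ≥ 4`.

(knf_int) `∫_T^{2T} |knf|⁴ dt ≤ C (1 + log T)/T` for `T ≥ 1`, `T⁴ ≤ 2n+1`: if `|m̂| ≤ 4T²`, `riem_f` (error
`≤ C T²/(2n+1) ≤ C/T²`) and `∫_T^{2T} |kf|⁴ ≤ C ∫_T^{2T} t^{-1} (1 + |2t - |m̂||)^{-1} dt ≤ C (1 + log T)/T`
(for `t ∈ [T, 2T]` replace `|m̂|/2` by its projection to `[T, 2T]`, split there); if `|m̂| > 4T²`,
`sbp_f` gives `|knf| ≤ C/T`.
(blkf_le) `∏_l |knf(x_l)| ≤ (max_l |knf(x_l)|)^4 ≤ ∑_l |knf(x_l)|⁴`, `|e^{iζt}| ≤ 1`. -/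

open MeasureTheory Set

noncomputable section

namespace Pool.Agent.BK

namespace K4B

lemma cont_inv (c : ℝ) : Continuous fun s : ℝ => 1 / (1 + 2 * |c - s|) := by
  refine Continuous.div continuous_const (by fun_prop) ?_
  intro s
  positivity

/-- `∫_t^B (1 + 2|t - s|)^{-1} ds ≤ log (1 + 2 (B - t))`. -/
lemma int_right (t B : ℝ) (hB : t ≤ B) :
    ∫ s in t..B, 1 / (1 + 2 * |t - s|) ≤ Real.log (1 + 2 * (B - t)) := by
  have hd : ∀ s ∈ uIcc t B, HasDerivAt (fun s : ℝ => Real.log (1 + 2 * (s - t)) / 2)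
      (1 / (1 + 2 * (s - t))) s := by
    intro s hs
    rw [uIcc_of_le hB] at hs
    have hp : 0 < 1 + 2 * (s - t) := by linarith [hs.1]
    have h1 : HasDerivAt (fun s : ℝ => 1 + 2 * (s - t)) 2 s := by
      simpa using (((hasDerivAt_id s).sub_const t).const_mul 2).const_add 1
    have h2 := (h1.log hp.ne').div_const 2
    have h3 : 1 / (1 + 2 * (s - t)) = 2 / (1 + 2 * (s - t)) / 2 := by
      rw [div_div, div_eq_div_iff hp.ne' (by positivity)]
      ring
    rw [h3]
    exact h2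
  have hc : ContinuousOn (fun s : ℝ => 1 / (1 + 2 * (s - t))) (uIcc t B) := by
    rw [uIcc_of_le hB]
    refine ContinuousOn.div continuousOn_const (by fun_prop) ?_
    intro s hs
    have hp : 0 < 1 + 2 * (s - t) := by linarith [hs.1]
    exact hp.ne'
  have he : ∫ s in t..B, 1 / (1 + 2 * |t - s|) = ∫ s in t..B, 1 / (1 + 2 * (s - t)) := by
    refine intervalIntegral.integral_congr fun s hs => ?_
    rw [uIcc_of_le hB] at hs
    have : |t - s| = s - t := by
      rw [abs_sub_comm]; exact abs_of_nonneg (by linarith [hs.1])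
    simp only [this]
  rw [he, intervalIntegral.integral_eq_sub_of_hasDerivAt hd hc.intervalIntegrable]
  have : 0 ≤ Real.log (1 + 2 * (B - t)) := Real.log_nonneg (by linarith)
  simp
  linarith

lemma int_left (A t : ℝ) (hA : A ≤ t) :
    ∫ s in A..t, 1 / (1 + 2 * |t - s|) ≤ Real.log (1 + 2 * (t - A)) := by
  have h := intervalIntegral.integral_comp_sub_left
    (a := A) (b := t) (fun s : ℝ => 1 / (1 + 2 * |t - s|)) (2 * t)
  have h1 : (fun x : ℝ => 1 / (1 + 2 * |t - (2 * t - x)|)) =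
      fun x : ℝ => 1 / (1 + 2 * |t - x|) := by
    funext x
    have : t - (2 * t - x) = x - t := by ring
    rw [this, abs_sub_comm]
  rw [h1] at h
  rw [h, show 2 * t - t = t by ring]
  have := int_right t (2 * t - A) (by linarith)
  rwa [show 2 * t - A - t = t - A by ring] at this

lemma int_all {T c : ℝ} (hT : 1 ≤ T) (h1 : T ≤ c) (h2 : c ≤ 2 * T) :
    ∫ s in T..(2 * T), 1 / (1 + 2 * |c - s|) ≤ 4 * (1 + Real.log T) := by
  rw [← intervalIntegral.integral_add_adjacent_intervals ((cont_inv c).intervalIntegrable T c)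
    ((cont_inv c).intervalIntegrable c (2 * T))]
  have e1 := int_left T c h1
  have e2 := int_right c (2 * T) h2
  have hl : Real.log (3 * T) ≤ 2 * (1 + Real.log T) := by
    rw [Real.log_mul (by norm_num) (by positivity)]
    have h3 : Real.log 3 ≤ 2 := by
      have := Real.log_le_sub_one_of_pos (show (0 : ℝ) < 3 by norm_num)
      linarith
    have h4 : 0 ≤ Real.log T := Real.log_nonneg hT
    linarith
  have e3 : Real.log (1 + 2 * (c - T)) ≤ Real.log (3 * T) :=
    Real.log_le_log (by linarith) (by linarith)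
  have e4 : Real.log (1 + 2 * (2 * T - c)) ≤ Real.log (3 * T) :=
    Real.log_le_log (by linarith) (by linarith)
  linarith

/-- `∫_T^{2T} (1 + |2t - M|)^{-1} dt ≤ 4 (1 + log T)`. -/
lemma int_M {T : ℝ} (M : ℝ) (hT : 1 ≤ T) :
    ∫ s in T..(2 * T), 1 / (1 + |2 * s - M|) ≤ 4 * (1 + Real.log T) := by
  set c : ℝ := max T (min (M / 2) (2 * T)) with hc
  have hc1 : T ≤ c := le_max_left _ _
  have hc2 : c ≤ 2 * T := max_le (by linarith) (min_le_right _ _)
  refine le_trans ?_ (int_all hT hc1 hc2)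
  refine intervalIntegral.integral_mono_on (by linarith) ?_ ((cont_inv c).intervalIntegrable _ _) ?_
  · refine Continuous.intervalIntegrable ?_ _ _
    refine Continuous.div continuous_const (by fun_prop) ?_
    intro s
    positivity
  · intro s hs
    refine one_div_le_one_div_of_le (by positivity) ?_
    have : 2 * |c - s| ≤ |2 * s - M| := by
      rcases le_total (M / 2) T with h | h
      · have h' : c = T := by
          rw [hc]; exact max_eq_left (le_trans (min_le_left _ _) h)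
        rw [h', abs_of_nonpos (by linarith [hs.1]), abs_of_nonneg (by linarith [hs.1])]
        linarith
      · rcases le_total (M / 2) (2 * T) with h3 | h3
        · have h' : c = M / 2 := by
            rw [hc, min_eq_left h3, max_eq_right h]
          rw [h', ← abs_two, ← abs_mul, abs_two, abs_sub_comm]
          apply le_of_eq
          congr 1
          ring
        · have h' : c = 2 * T := by
            rw [hc, min_eq_right h3, max_eq_right (by linarith)]
          rw [h', abs_of_nonneg (by linarith [hs.2]), abs_of_nonpos (by linarith [hs.2])]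
          linarith
    linarith

lemma rpow_quarter {x : ℝ} (hx : 0 < x) : (x ^ (-(1 / 4 : ℝ))) ^ 4 = 1 / x := by
  rw [← Real.rpow_natCast, ← Real.rpow_mul hx.le]
  norm_num
  rw [Real.rpow_neg_one]

lemma pow4_add {a b : ℝ} : (a + b) ^ 4 ≤ 8 * a ^ 4 + 8 * b ^ 4 := by
  nlinarith [sq_nonneg (a - b), sq_nonneg (a ^ 2 - b ^ 2), sq_nonneg (a * (a - b)),
    sq_nonneg (b * (a - b)), sq_nonneg (a ^ 2 - 2 * a * b + b ^ 2)]

lemma norm_exp_le {ζ : ℂ} (hζ : 0 ≤ ζ.im) {t : ℝ} (ht : 0 ≤ t) :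
    ‖Complex.exp (Complex.I * ζ * (t : ℂ))‖ ≤ 1 := by
  rw [Complex.norm_exp]
  have : (Complex.I * ζ * (t : ℂ)).re = -(ζ.im * t) := by simp
  rw [this]
  exact Real.exp_le_one_iff.mpr (by have := mul_nonneg hζ ht; linarith)

lemma prod_le_sum {d : ℕ} (hd : 4 ≤ d) (a : Fin d → ℝ) (h0 : ∀ l, 0 ≤ a l) (h1 : ∀ l, a l ≤ 1) :
    ∏ l, a l ≤ ∑ l, a l ^ 4 := by
  have : Nonempty (Fin d) := ⟨⟨0, by omega⟩⟩
  obtain ⟨i, hi⟩ := Finite.exists_max a
  calc ∏ l, a l ≤ ∏ _l : Fin d, a i := Finset.prod_le_prod (fun l _ => h0 l) fun l _ => hi l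
    _ = a i ^ d := by simp
    _ ≤ a i ^ 4 := pow_le_pow_of_le_one (h0 i) (h1 i) hd
    _ ≤ _ := Finset.single_le_sum (f := fun l => a l ^ 4)
        (fun l _ => pow_nonneg (h0 l) 4) (Finset.mem_univ i)

end K4B

open K4B in
theorem knf_int : ∃ C : ℝ, 0 < C ∧ ∀ (n : ℕ) (T : ℝ) (m : ZMod (2 * n + 1)), 1 ≤ T →
    T ^ 4 ≤ 2 * n + 1 → ∫ t in T..(2 * T), ‖knf n t m‖ ^ 4 ≤ C * (1 + Real.log T) / T := by
  obtain ⟨CK, hCK, hk⟩ := kf_le
  obtain ⟨CR, hCR, hr⟩ := riem_f
  obtain ⟨CS, hCS, hs⟩ := sbp_f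
  refine ⟨32 * CK ^ 4 + 8 * (7 * CR) ^ 4 + CS ^ 4, by positivity, ?_⟩
  intro n T m hT hT4
  have hT0 : 0 < T := by linarith
  have hT2 : T ≤ 2 * T := by linarith
  have hlog : 0 ≤ Real.log T := Real.log_nonneg hT
  have hN : (0 : ℝ) < 2 * n + 1 := by positivity
  have hci : IntervalIntegrable (fun t => ‖knf n t m‖ ^ 4) volume T (2 * T) :=
    ((continuous_knf n m).norm.pow 4).intervalIntegrable _ _
  set M : ℝ := |(m.valMinAbs : ℝ)| with hM
  rcases le_or_gt M (4 * T ^ 2) with hM4 | hM4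
  · -- the main case
    have hpt : ∀ t ∈ Icc T (2 * T), ‖knf n t m‖ ^ 4 ≤
        8 * CK ^ 4 / T * (1 / (1 + |2 * t - M|)) + 8 * (7 * CR) ^ 4 / T ^ 8 := by
      intro t ht
      have ht1 : 1 ≤ t := hT.trans ht.1
      have ht0 : 0 < t := by linarith
      have e1 := hr n t m (by linarith)
      have e2 := hk t m.valMinAbs ht1
      rw [← hM] at e2
      have e3 : CR * (1 + t + M) / (2 * n + 1) ≤ 7 * CR / T ^ 2 := by
        rw [div_le_div_iff₀ hN (by positivity)]
        have h1 : 1 + t + M ≤ 7 * T ^ 2 := by nlinarith [ht.2]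
        calc CR * (1 + t + M) * T ^ 2 ≤ CR * (7 * T ^ 2) * T ^ 2 := by gcongr
          _ = 7 * CR * T ^ 4 := by ring
          _ ≤ 7 * CR * (2 * n + 1) := by gcongr
      have e4 : ‖knf n t m‖ ≤ ‖kf t m.valMinAbs‖ + 7 * CR / T ^ 2 := by
        have : ‖knf n t m‖ ≤ ‖kf t m.valMinAbs‖ + ‖knf n t m - kf t m.valMinAbs‖ := by
          have := norm_add_le (kf t m.valMinAbs) (knf n t m - kf t m.valMinAbs)
          simpa using this
        linarith [e1.trans e3]
      have e5 : ‖kf t m.valMinAbs‖ ^ 4 ≤ CK ^ 4 / T * (1 / (1 + |2 * t - M|)) := by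
        have h1 := pow_le_pow_left₀ (norm_nonneg _) e2 4
        rw [mul_pow, mul_pow, rpow_quarter ht0, rpow_quarter (by positivity)] at h1
        refine h1.trans ?_
        have h2 : 1 / t ≤ 1 / T := one_div_le_one_div_of_le hT0 ht.1
        calc CK ^ 4 * (1 / t) * (1 / (1 + |2 * t - M|)) ≤
            CK ^ 4 * (1 / T) * (1 / (1 + |2 * t - M|)) := by gcongr
          _ = _ := by ring
      have e6 : (7 * CR / T ^ 2) ^ 4 = (7 * CR) ^ 4 / T ^ 8 := by
        rw [div_pow]; ring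
      calc ‖knf n t m‖ ^ 4 ≤ (‖kf t m.valMinAbs‖ + 7 * CR / T ^ 2) ^ 4 :=
            pow_le_pow_left₀ (norm_nonneg _) e4 4
        _ ≤ 8 * ‖kf t m.valMinAbs‖ ^ 4 + 8 * (7 * CR / T ^ 2) ^ 4 := pow4_add
        _ ≤ 8 * (CK ^ 4 / T * (1 / (1 + |2 * t - M|))) + 8 * ((7 * CR) ^ 4 / T ^ 8) := by
            rw [e6]; gcongr
        _ = _ := by ring
    have hcM : Continuous fun t : ℝ => 1 / (1 + |2 * t - M|) := by
      refine Continuous.div continuous_const (by fun_prop) ?_
      intro s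
      positivity
    have hmono := intervalIntegral.integral_mono_on hT2 hci
      (g := fun t => 8 * CK ^ 4 / T * (1 / (1 + |2 * t - M|)) + 8 * (7 * CR) ^ 4 / T ^ 8)
      (((hcM.const_mul _).add continuous_const).intervalIntegrable _ _) hpt
    rw [intervalIntegral.integral_add ((hcM.const_mul _).intervalIntegrable _ _)
      (continuous_const.intervalIntegrable _ _), intervalIntegral.integral_const_mul,
      intervalIntegral.integral_const] at hmono
    refine hmono.trans ?_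
    have f1 := int_M M hT
    have f2 : 8 * CK ^ 4 / T * ∫ s in T..(2 * T), 1 / (1 + |2 * s - M|) ≤
        8 * CK ^ 4 / T * (4 * (1 + Real.log T)) := by gcongr
    have f3 : (2 * T - T) • (8 * (7 * CR) ^ 4 / T ^ 8) ≤ 8 * (7 * CR) ^ 4 * (1 + Real.log T) / T := by
      rw [smul_eq_mul, show 2 * T - T = T by ring, ← mul_div_assoc,
        div_le_div_iff₀ (by positivity) hT0]
      have h1 : T * T ≤ T ^ 8 := by
        calc T * T = T ^ 2 := by ring
          _ ≤ T ^ 8 := pow_le_pow_right₀ hT (by norm_num)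
      have h2 : T ^ 8 ≤ (1 + Real.log T) * T ^ 8 := by
        nlinarith [pow_pos hT0 8]
      calc T * (8 * (7 * CR) ^ 4) * T = 8 * (7 * CR) ^ 4 * (T * T) := by ring
        _ ≤ 8 * (7 * CR) ^ 4 * ((1 + Real.log T) * T ^ 8) :=
            mul_le_mul_of_nonneg_left (h1.trans h2) (by positivity)
        _ = _ := by ring
    calc _ ≤ 8 * CK ^ 4 / T * (4 * (1 + Real.log T)) + 8 * (7 * CR) ^ 4 * (1 + Real.log T) / T :=
          add_le_add f2 f3
      _ = (32 * CK ^ 4 + 8 * (7 * CR) ^ 4) * (1 + Real.log T) / T := by ring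
      _ ≤ _ := by
          have h0 : 0 ≤ CS ^ 4 := by positivity
          have h1 : 32 * CK ^ 4 + 8 * (7 * CR) ^ 4 ≤ 32 * CK ^ 4 + 8 * (7 * CR) ^ 4 + CS ^ 4 := by
            linarith
          exact div_le_div_of_nonneg_right (mul_le_mul_of_nonneg_right h1 (by linarith)) hT0.le
  · -- far away: summation by parts
    have hpt : ∀ t ∈ Icc T (2 * T), ‖knf n t m‖ ^ 4 ≤ CS ^ 4 / T ^ 4 := by
      intro t ht
      have e1 := hs n t m (by linarith [ht.1])
      have e2 : ‖knf n t m‖ ≤ CS / T := by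
        rw [le_div_iff₀ hT0]
        have h1 : ‖knf n t m‖ * (4 * T ^ 2) ≤ CS * (1 + t) :=
          (mul_le_mul_of_nonneg_left hM4.le (norm_nonneg _)).trans e1
        have h2 : CS * (1 + t) ≤ CS * (3 * T) := by gcongr; linarith [ht.2]
        have h3 : ‖knf n t m‖ * (4 * T ^ 2) ≤ CS * (3 * T) := h1.trans h2
        have h4 : ‖knf n t m‖ * T * (4 * T) ≤ CS * (4 * T) := by
          calc ‖knf n t m‖ * T * (4 * T) = ‖knf n t m‖ * (4 * T ^ 2) := by ring
            _ ≤ CS * (3 * T) := h3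
            _ ≤ CS * (4 * T) := by gcongr; norm_num
        exact le_of_mul_le_mul_right h4 (by positivity)
      calc ‖knf n t m‖ ^ 4 ≤ (CS / T) ^ 4 := pow_le_pow_left₀ (norm_nonneg _) e2 4
        _ = _ := div_pow _ _ _
    have hmono := intervalIntegral.integral_mono_on hT2 hci
      (g := fun _ => CS ^ 4 / T ^ 4) (continuous_const.intervalIntegrable _ _) hpt
    rw [intervalIntegral.integral_const] at hmono
    refine hmono.trans ?_
    rw [smul_eq_mul, show 2 * T - T = T by ring, ← mul_div_assoc,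
      div_le_div_iff₀ (by positivity) hT0]
    have h1 : T * T ≤ T ^ 4 := by
      calc T * T = T ^ 2 := by ring
        _ ≤ T ^ 4 := pow_le_pow_right₀ hT (by norm_num)
    have h2 : T ^ 4 ≤ (1 + Real.log T) * T ^ 4 := by
      nlinarith [pow_pos hT0 4]
    calc T * CS ^ 4 * T = CS ^ 4 * (T * T) := by ring
      _ ≤ CS ^ 4 * ((1 + Real.log T) * T ^ 4) :=
          mul_le_mul_of_nonneg_left (h1.trans h2) (by positivity)
      _ ≤ (32 * CK ^ 4 + 8 * (7 * CR) ^ 4 + CS ^ 4) * ((1 + Real.log T) * T ^ 4) := by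
          gcongr
          have : 0 ≤ 32 * CK ^ 4 + 8 * (7 * CR) ^ 4 := by positivity
          linarith
      _ = _ := by ring

open K4B in
theorem blkf_le {d : ℕ} (hd : 4 ≤ d) :
    ∃ C : ℝ, 0 < C ∧ ∀ (n : ℕ) (T : ℝ) (ζ : ℂ) (x : Tor d n), 1 ≤ T → T ^ 4 ≤ 2 * n + 1 →
      0 ≤ ζ.im → ‖blkf ζ T x‖ ≤ C * (1 + Real.log T) / T := by
  obtain ⟨C, hC, hint⟩ := knf_int
  have hd0 : (0 : ℝ) < d := by exact_mod_cast (show 0 < d by omega)
  refine ⟨d * C, by positivity, ?_⟩
  intro n T ζ x hT hT4 hζ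
  have hT2 : T ≤ 2 * T := by linarith
  have hc4 : ∀ l : Fin d, Continuous fun t : ℝ => ‖knf n t (x l)‖ ^ 4 := fun l =>
    (continuous_knf n (x l)).norm.pow 4
  have h1 : ‖blkf ζ T x‖ ≤ ∫ t in T..(2 * T), ∑ l, ‖knf n t (x l)‖ ^ 4 := by
    unfold blkf
    refine intervalIntegral.norm_integral_le_of_norm_le hT2 ?_
      ((continuous_finsetSum _ fun l _ => hc4 l).intervalIntegrable _ _)
    refine Filter.Eventually.of_forall fun t ht => ?_
    rw [norm_mul, norm_prod]
    have ht0 : 0 ≤ t := by linarith [ht.1]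
    calc ‖Complex.exp (Complex.I * ζ * (t : ℂ))‖ * ∏ l, ‖knf n t (x l)‖ ≤
        1 * ∏ l, ‖knf n t (x l)‖ :=
          mul_le_mul_of_nonneg_right (norm_exp_le hζ ht0)
            (Finset.prod_nonneg fun l _ => norm_nonneg _)
      _ = ∏ l, ‖knf n t (x l)‖ := one_mul _
      _ ≤ _ := prod_le_sum hd _ (fun l => norm_nonneg _) fun l => knf_one n t (x l)
  rw [intervalIntegral.integral_finsetSum fun l _ => (hc4 l).intervalIntegrable _ _] at h1
  refine h1.trans ?_
  calc ∑ l, ∫ t in T..(2 * T), ‖knf n t (x l)‖ ^ 4 ≤ ∑ _l : Fin d, C * (1 + Real.log T) / T :=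
        Finset.sum_le_sum fun l _ => hint n T (x l) hT hT4
    _ = _ := by simp; ring

end Pool.Agent.BK
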