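import Pool.Agent.BK.Riem

/-! BK module TORL2:
`(2n+1)^{-d} ∑_q Chi(q) |fblk(q)|² = ∬_{[T,2T]²} e^{iζt} conj(e^{iζs}) ∏_l kn(t-s, 0) dt ds`
(finite sums and integrals commute; `kn b n u 0 = (2n+1)^{-1} ∑_q chi(ang q) e^{-iu(2-2cos ang q)}`)
`≤ ∬ ∏ |kn(t-s,0)| ≤ T ∫_{-T}^{T} C (1+|u|)^{-3/2} du ≤ C T`, by `kn_le` for `|u| ≤ T` and `‖kn‖ ≤ 1` for
the remaining `d - 3` factors. -/

open MeasureTheory Set

noncomputable section

namespace Pool.Agent.BK

namespace TorL2

/-- The one-dimensional kernel at the origin is a sum over the cycle. -/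
lemma kn_zero (b : ℝ) (n : ℕ) (u : ℝ) : kn b n u 0 = ∑ q : ZMod (2 * n + 1),
    ((1 / (2 * n + 1) * chi b (ang n q) : ℝ) : ℂ) *
      Complex.exp (-(Complex.I * ((2 - 2 * Real.cos (ang n q) : ℝ) : ℂ) * (u : ℂ))) := by
  unfold kn
  rw [Finset.smul_sum]
  refine Finset.sum_congr rfl fun q _ => ?_
  rw [ZMod.valMinAbs_zero, Complex.real_smul]
  have h : (Complex.I * ((ang n q * ((0 : ℤ) : ℝ) - u * (2 - 2 * Real.cos (ang n q)) : ℝ) : ℂ)) =
      -(Complex.I * ((2 - 2 * Real.cos (ang n q) : ℝ) : ℂ) * (u : ℂ)) := by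
    push_cast
    ring
  rw [h]
  push_cast
  ring

/-- The weighted sum of the phases over the dual torus is the product of the kernels. -/
lemma sum_phase {d n : ℕ} (b u : ℝ) :
    ∑ q : Tor d n, ((1 / (2 * n + 1 : ℝ) ^ d * Chi b q : ℝ) : ℂ) *
      Complex.exp (-(Complex.I * (omg q : ℂ) * (u : ℂ))) = kn b n u 0 ^ d := by
  have h1 : kn b n u 0 ^ d = ∏ _l : Fin d, kn b n u 0 := by simp
  rw [h1]
  simp_rw [kn_zero]
  rw [Finset.prod_univ_sum, Fintype.piFinset_univ]
  refine Finset.sum_congr rfl fun q _ => ?_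
  rw [Finset.prod_mul_distrib, ← Complex.exp_sum]
  congr 1
  · rw [← Complex.ofReal_prod, Finset.prod_mul_distrib]
    simp [Chi]
  · congr 1
    rw [omg, Complex.ofReal_sum, Finset.mul_sum, Finset.sum_mul, Finset.sum_neg_distrib]

lemma norm_exp_le {ζ : ℂ} (hζ : 0 ≤ ζ.im) {t : ℝ} (ht : 0 ≤ t) :
    ‖Complex.exp (Complex.I * ζ * (t : ℂ))‖ ≤ 1 := by
  rw [Complex.norm_exp]
  have : (Complex.I * ζ * (t : ℂ)).re = -(ζ.im * t) := by simp
  rw [this]
  exact Real.exp_le_one_iff.mpr (by have := mul_nonneg hζ ht; linarith)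

/-- `∫_T^{2T} (1+|t-s|)^{-3/2} ds ≤ 4`. -/
lemma int_right (t B : ℝ) (hB : t ≤ B) :
    ∫ s in t..B, 1 / √(1 + |t - s|) ^ 3 ≤ 2 := by
  have hd : ∀ s ∈ uIcc t B, HasDerivAt (fun s : ℝ => -(2 / √(1 + (s - t))))
      (1 / √(1 + (s - t)) ^ 3) s := by
    intro s hs
    rw [uIcc_of_le hB] at hs
    have hp : 0 < 1 + (s - t) := by linarith [hs.1]
    have h1 : HasDerivAt (fun s : ℝ => 1 + (s - t)) 1 s := by
      simpa using ((hasDerivAt_id s).sub_const t).const_add 1
    have h2 := h1.sqrt hp.ne'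
    have h3 := ((hasDerivAt_const s (2 : ℝ)).div h2 (Real.sqrt_pos.mpr hp).ne').neg
    have hs0 : √(1 + (s - t)) ≠ 0 := (Real.sqrt_pos.mpr hp).ne'
    have h4 : 1 / √(1 + (s - t)) ^ 3 =
        -((0 * √(1 + (s - t)) - 2 * (1 / (2 * √(1 + (s - t))))) / √(1 + (s - t)) ^ 2) := by
      field_simp
      ring
    rw [h4]
    exact h3
  have hc : ContinuousOn (fun s : ℝ => 1 / √(1 + (s - t)) ^ 3) (uIcc t B) := by
    rw [uIcc_of_le hB]
    refine ContinuousOn.div continuousOn_const (by fun_prop) ?_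
    intro s hs
    have hp : 0 < 1 + (s - t) := by linarith [hs.1]
    exact pow_ne_zero _ (Real.sqrt_pos.mpr hp).ne'
  have he : ∫ s in t..B, 1 / √(1 + |t - s|) ^ 3 = ∫ s in t..B, 1 / √(1 + (s - t)) ^ 3 := by
    refine intervalIntegral.integral_congr fun s hs => ?_
    rw [uIcc_of_le hB] at hs
    have : |t - s| = s - t := by
      rw [abs_sub_comm]; exact abs_of_nonneg (by linarith [hs.1])
    simp only [this]
  rw [he, intervalIntegral.integral_eq_sub_of_hasDerivAt hd hc.intervalIntegrable]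
  have : 0 ≤ 2 / √(1 + (B - t)) := by positivity
  simp
  linarith

lemma int_left (A t : ℝ) (hA : A ≤ t) :
    ∫ s in A..t, 1 / √(1 + |t - s|) ^ 3 ≤ 2 := by
  have h := intervalIntegral.integral_comp_sub_left
    (a := A) (b := t) (fun s : ℝ => 1 / √(1 + |t - s|) ^ 3) (2 * t)
  have h1 : (fun x : ℝ => 1 / √(1 + |t - (2 * t - x)|) ^ 3) =
      fun x : ℝ => 1 / √(1 + |t - x|) ^ 3 := by
    funext x
    have : t - (2 * t - x) = x - t := by ring
    rw [this, abs_sub_comm]
  rw [h1] at h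
  rw [h, show 2 * t - t = t by ring]
  exact int_right t (2 * t - A) (by linarith)

lemma int_all {A B t : ℝ} (hA : A ≤ t) (hB : t ≤ B) :
    ∫ s in A..B, 1 / √(1 + |t - s|) ^ 3 ≤ 4 := by
  have hc : Continuous fun s : ℝ => 1 / √(1 + |t - s|) ^ 3 := by
    refine Continuous.div continuous_const (by fun_prop) ?_
    intro s
    have hp : 0 < 1 + |t - s| := by positivity
    exact pow_ne_zero _ (Real.sqrt_pos.mpr hp).ne'
  rw [← intervalIntegral.integral_add_adjacent_intervals (hc.intervalIntegrable A t)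
    (hc.intervalIntegrable t B)]
  linarith [int_left A t hA, int_right t B hB]

end TorL2

open TorL2 in
theorem sum_fblk_le {b : ℝ} (hb : 0 < b) (hb1 : b ≤ 1) {d : ℕ} (hd : 3 ≤ d) :
    ∃ C : ℝ, 0 < C ∧ ∀ (n : ℕ) (T : ℝ) (ζ : ℂ), 1 ≤ T → T ^ 4 ≤ 2 * n + 1 → 0 ≤ ζ.im →
      (1 / (2 * n + 1 : ℝ) ^ d) * ∑ q : Tor d n, Chi b q * ‖fblk ζ T q‖ ^ 2 ≤ C * T := by
  obtain ⟨C, hC, hkn⟩ := kn_le hb hb1
  refine ⟨C ^ 3 * 4, by positivity, ?_⟩
  intro n T ζ hT hT4 hζ
  have hT2 : T ≤ 2 * T := by linarith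
  set F : Tor d n → ℝ → ℂ := fun q t => Complex.exp (Complex.I * (ζ - (omg q : ℂ)) * (t : ℂ))
    with hF
  have hFc : ∀ q, Continuous (F q) := fun q => by rw [hF]; fun_prop
  set c : Tor d n → ℂ := fun q => ((1 / (2 * n + 1 : ℝ) ^ d * Chi b q : ℝ) : ℂ) with hc
  -- the kernel
  have hK : ∀ t s : ℝ, ∑ q, c q * (starRingEnd ℂ (F q s) * F q t) =
      Complex.exp (Complex.I * ζ * (t : ℂ)) * starRingEnd ℂ (Complex.exp (Complex.I * ζ * (s : ℂ))) *
        kn b n (t - s) 0 ^ d := by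
    intro t s
    rw [← sum_phase, Finset.mul_sum]
    refine Finset.sum_congr rfl fun q _ => ?_
    have : starRingEnd ℂ (F q s) * F q t = Complex.exp (Complex.I * ζ * (t : ℂ)) *
        starRingEnd ℂ (Complex.exp (Complex.I * ζ * (s : ℂ))) *
        Complex.exp (-(Complex.I * (omg q : ℂ) * ((t - s : ℝ) : ℂ))) := by
      simp only [hF, ← Complex.exp_conj, map_mul, map_sub, Complex.conj_I, Complex.conj_ofReal,
        ← Complex.exp_add]
      congr 1
      push_cast
      ring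
    rw [this, hc]
    ring
  have hKle : ∀ t ∈ Icc T (2 * T), ∀ s ∈ Icc T (2 * T),
      ‖∑ q, c q * (starRingEnd ℂ (F q s) * F q t)‖ ≤ C ^ 3 * (1 / √(1 + |t - s|) ^ 3) := by
    intro t ht s hs
    rw [hK, norm_mul, norm_mul, RCLike.norm_conj, norm_pow]
    have e1 := norm_exp_le hζ (t := t) (by linarith [ht.1])
    have e2 := norm_exp_le hζ (t := s) (by linarith [hs.1])
    have habs : |t - s| ≤ 2 * T := by
      rw [abs_le]; constructor <;> linarith [ht.1, ht.2, hs.1, hs.2]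
    have e3 := hkn n T (t - s) 0 hT hT4 habs
    have e4 := kn_one b n (t - s) 0
    have e5 : ‖kn b n (t - s) 0‖ ^ d ≤ ‖kn b n (t - s) 0‖ ^ 3 :=
      pow_le_pow_of_le_one (norm_nonneg _) e4 hd
    have e6 : ‖kn b n (t - s) 0‖ ^ 3 ≤ (C / √(1 + |t - s|)) ^ 3 :=
      pow_le_pow_left₀ (norm_nonneg _) e3 3
    have e7 : (C / √(1 + |t - s|)) ^ 3 = C ^ 3 * (1 / √(1 + |t - s|) ^ 3) := by
      rw [div_pow]; ring
    have e8 : ‖Complex.exp (Complex.I * ζ * (t : ℂ))‖ * ‖Complex.exp (Complex.I * ζ * (s : ℂ))‖ ≤ 1 :=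
      mul_le_one₀ e1 (norm_nonneg _) e2
    calc _ ≤ 1 * ‖kn b n (t - s) 0‖ ^ d :=
          mul_le_mul_of_nonneg_right e8 (by positivity)
      _ ≤ _ := by rw [one_mul, ← e7]; exact e5.trans e6
  have hfb : ∀ q, fblk ζ T q = ∫ t in T..(2 * T), F q t := fun q => rfl
  -- inner integral
  have hin : ∀ t ∈ Icc T (2 * T), ‖∑ q, c q * (starRingEnd ℂ (fblk ζ T q) * F q t)‖ ≤ C ^ 3 * 4 := by
    intro t ht
    have h1 : ∑ q, c q * (starRingEnd ℂ (fblk ζ T q) * F q t) =
        ∫ s in T..(2 * T), ∑ q, c q * (starRingEnd ℂ (F q s) * F q t) := by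
      rw [intervalIntegral.integral_finsetSum]
      · refine Finset.sum_congr rfl fun q _ => ?_
        rw [intervalIntegral.integral_const_mul, intervalIntegral.integral_mul_const, hfb]
        congr 2
        rw [intervalIntegral.integral_of_le hT2, intervalIntegral.integral_of_le hT2]
        exact (integral_conj).symm
      · intro q _
        refine Continuous.intervalIntegrable ?_ _ _
        have := hFc q
        fun_prop
    rw [h1]
    have hcont : Continuous fun s : ℝ => C ^ 3 * (1 / √(1 + |t - s|) ^ 3) := by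
      refine continuous_const.mul (Continuous.div continuous_const (by fun_prop) ?_)
      intro s
      have hp : 0 < 1 + |t - s| := by positivity
      exact pow_ne_zero _ (Real.sqrt_pos.mpr hp).ne'
    have h2 : ‖∫ s in T..(2 * T), ∑ q, c q * (starRingEnd ℂ (F q s) * F q t)‖ ≤
        ∫ s in T..(2 * T), C ^ 3 * (1 / √(1 + |t - s|) ^ 3) := by
      refine intervalIntegral.norm_integral_le_of_norm_le hT2 ?_ (hcont.intervalIntegrable _ _)
      refine Filter.Eventually.of_forall fun s hs => ?_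
      exact hKle t ht s (Ioc_subset_Icc_self hs)
    refine h2.trans ?_
    rw [intervalIntegral.integral_const_mul]
    exact mul_le_mul_of_nonneg_left (int_all ht.1 ht.2) (by positivity)
  -- outer integral
  have hout : ((1 / (2 * n + 1 : ℝ) ^ d * ∑ q : Tor d n, Chi b q * ‖fblk ζ T q‖ ^ 2 : ℝ) : ℂ) =
      ∫ t in T..(2 * T), ∑ q, c q * (starRingEnd ℂ (fblk ζ T q) * F q t) := by
    rw [intervalIntegral.integral_finsetSum]
    · rw [Finset.mul_sum, Complex.ofReal_sum]
      refine Finset.sum_congr rfl fun q _ => ?_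
      rw [intervalIntegral.integral_const_mul, intervalIntegral.integral_const_mul, ← hfb]
      have : starRingEnd ℂ (fblk ζ T q) * fblk ζ T q = ((‖fblk ζ T q‖ ^ 2 : ℝ) : ℂ) := by
        rw [mul_comm, Complex.mul_conj, Complex.normSq_eq_norm_sq]
      rw [this, hc]
      push_cast
      ring
    · intro q _
      refine Continuous.intervalIntegrable ?_ _ _
      have := hFc q
      fun_prop
  have hfin : ‖∫ t in T..(2 * T), ∑ q, c q * (starRingEnd ℂ (fblk ζ T q) * F q t)‖ ≤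
      C ^ 3 * 4 * |2 * T - T| := by
    refine intervalIntegral.norm_integral_le_of_norm_le_const fun t ht => ?_
    rw [uIoc_of_le hT2] at ht
    exact hin t (Ioc_subset_Icc_self ht)
  have habs : |2 * T - T| = T := by
    rw [show 2 * T - T = T by ring]; exact abs_of_nonneg (by linarith)
  rw [← hout, Complex.norm_real, habs] at hfin
  exact (le_abs_self _).trans hfin

end Pool.Agent.BK
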