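import Pool.Agent.BK.K4P
import Pool.Agent.BK.K4R
import Pool.Agent.BK.TorL2

/-! BK module K4L: `(2n+1)^{-d} ∑_q |fblk(q)|² ≤ C T`, `d ≥ 3`, as `TorL2.lean` with `chi = 1`:
`= ∬_{[T,2T]²} e^{iζt} conj(e^{iζs}) ∏_l knf(t-s, 0) dt ds` and `|knf n u 0| ≤ C/√(1+|u|)` for `|u| ≤ 2T`,
`T⁴ ≤ 2n+1` (`kf_le` at `m = 0` for `|u| ≥ 1`, `riem_f`, `knf_neg`, `knf_one`). -/

open MeasureTheory Set

noncomputable section

namespace Pool.Agent.BK

namespace K4L

lemma kf_zero {C t : ℝ} (ht : 1 ≤ t) (hC : 0 ≤ C)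
    (h : ‖kf t 0‖ ≤ C * t ^ (-(1 / 4 : ℝ)) *
      (1 + abs (2 * t - abs (((0 : ℤ) : ℤ) : ℝ))) ^ (-(1 / 4 : ℝ))) : ‖kf t 0‖ ≤ C / √t := by
  have h0 : (0 : ℝ) < t := by linarith
  refine h.trans ?_
  have e1 : (1 + abs (2 * t - abs (((0 : ℤ) : ℤ) : ℝ))) ^ (-(1 / 4 : ℝ)) ≤ t ^ (-(1 / 4 : ℝ)) := by
    refine Real.rpow_le_rpow_of_nonpos h0 ?_ (by norm_num)
    simp only [Int.cast_zero, abs_zero, sub_zero]
    rw [abs_of_nonneg (by linarith)]
    linarith
  have e2 : t ^ (-(1 / 4 : ℝ)) * t ^ (-(1 / 4 : ℝ)) = 1 / √t := by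
    have e3 : 1 / √t = t ^ (-(1 / 2 : ℝ)) := by
      rw [Real.sqrt_eq_rpow, Real.rpow_neg h0.le, ← one_div]
    rw [← Real.rpow_add h0, e3]
    norm_num
  calc C * t ^ (-(1 / 4 : ℝ)) * (1 + abs (2 * t - abs (((0 : ℤ) : ℤ) : ℝ))) ^ (-(1 / 4 : ℝ))
      ≤ C * t ^ (-(1 / 4 : ℝ)) * t ^ (-(1 / 4 : ℝ)) := by
        refine mul_le_mul_of_nonneg_left e1 ?_
        exact mul_nonneg hC (Real.rpow_nonneg h0.le _)
    _ = C / √t := by rw [mul_assoc, e2, mul_one_div]

/-- The one-dimensional kernel at the origin is a sum over the cycle. -/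
lemma knf_zero (n : ℕ) (u : ℝ) : knf n u 0 = ∑ q : ZMod (2 * n + 1),
    ((1 / (2 * n + 1) : ℝ) : ℂ) *
      Complex.exp (-(Complex.I * ((2 - 2 * Real.cos (ang n q) : ℝ) : ℂ) * (u : ℂ))) := by
  unfold knf
  rw [Finset.smul_sum]
  refine Finset.sum_congr rfl fun q _ => ?_
  rw [ZMod.valMinAbs_zero, Complex.real_smul]
  have h : (Complex.I * ((ang n q * ((0 : ℤ) : ℝ) - u * (2 - 2 * Real.cos (ang n q)) : ℝ) : ℂ)) =
      -(Complex.I * ((2 - 2 * Real.cos (ang n q) : ℝ) : ℂ) * (u : ℂ)) := by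
    push_cast
    ring
  rw [h]

/-- The sum of the phases over the dual torus is the product of the kernels. -/
lemma sum_phase {d n : ℕ} (u : ℝ) :
    ∑ q : Tor d n, ((1 / (2 * n + 1 : ℝ) ^ d : ℝ) : ℂ) *
      Complex.exp (-(Complex.I * (omg q : ℂ) * (u : ℂ))) = knf n u 0 ^ d := by
  have h1 : knf n u 0 ^ d = ∏ _l : Fin d, knf n u 0 := by simp
  rw [h1]
  simp_rw [knf_zero]
  rw [Finset.prod_univ_sum, Fintype.piFinset_univ]
  refine Finset.sum_congr rfl fun q _ => ?_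
  rw [Finset.prod_mul_distrib, ← Complex.exp_sum]
  congr 1
  · rw [← Complex.ofReal_prod]
    simp
  · congr 1
    rw [omg, Complex.ofReal_sum, Finset.mul_sum, Finset.sum_mul, Finset.sum_neg_distrib]

end K4L

theorem knf_zero_le : ∃ C : ℝ, 0 < C ∧ ∀ (n : ℕ) (T u : ℝ), 1 ≤ T → T ^ 4 ≤ 2 * n + 1 →
    |u| ≤ 2 * T → ‖knf n u 0‖ ≤ C / √(1 + |u|) := by
  obtain ⟨C1, hC1, h1⟩ := kf_le
  obtain ⟨C2, hC2, h2⟩ := riem_f
  have hpos : ∀ (n : ℕ) (T t : ℝ), 1 ≤ T → T ^ 4 ≤ 2 * n + 1 → 0 ≤ t → t ≤ 2 * T →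
      ‖knf n t 0‖ ≤ 2 * (1 + C1 + 6 * C2) / √(1 + t) := by
    intro n T t hT hTn ht0 htT
    rcases le_or_gt t 1 with ht | ht
    · refine (knf_one n t 0).trans ?_
      have hs : 0 < √(1 + t) := Real.sqrt_pos.2 (by linarith)
      rw [le_div_iff₀ hs, one_mul]
      have h4 : √(1 + t) ≤ 2 := by
        rw [Real.sqrt_le_left (by norm_num)]
        linarith
      linarith
    · have hst : 0 < √t := Real.sqrt_pos.2 (by linarith)
      have hinv := riem_inv_le hT ht.le htT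
      have h3 := h2 n t 0 ht0
      rw [ZMod.valMinAbs_zero] at h3
      have h4 : ‖kf t 0‖ ≤ C1 / √t := K4L.kf_zero ht.le hC1.le (h1 t 0 ht.le)
      have h5 : ‖knf n t 0‖ ≤ ‖knf n t 0 - kf t 0‖ + ‖kf t 0‖ := by
        have := norm_add_le (knf n t 0 - kf t 0) (kf t 0)
        simpa using this
      have h6 : C2 * (1 + t + |((0 : ℤ) : ℝ)|) / (2 * n + 1) ≤ 6 * C2 / √t := by
        have hT4 : T ≤ T ^ 4 := le_self_pow₀ hT (by norm_num)
        have h8 : 1 + t + |((0 : ℤ) : ℝ)| ≤ 3 * T := by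
          rw [Int.cast_zero, abs_zero]
          linarith
        have h9 : C2 * (1 + t + |((0 : ℤ) : ℝ)|) / (2 * n + 1) ≤ C2 * (3 * T) / T ^ 4 := by
          apply div_le_div₀ (by positivity) (mul_le_mul_of_nonneg_left h8 hC2.le)
            (by positivity) hTn
        have h10 : C2 * (3 * T) / T ^ 4 ≤ 3 * C2 * (1 / T) := by
          rw [div_le_iff₀ (by positivity)]
          have h11 : 3 * C2 * (1 / T) * T ^ 4 = 3 * C2 * T ^ 3 := by
            field_simp
          rw [h11]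
          have h12 : T ≤ T ^ 3 := le_self_pow₀ hT (by norm_num)
          nlinarith
        calc C2 * (1 + t + |((0 : ℤ) : ℝ)|) / (2 * n + 1) ≤ 3 * C2 * (1 / T) := h9.trans h10
          _ ≤ 3 * C2 * (2 / √t) := mul_le_mul_of_nonneg_left hinv (by positivity)
          _ = 6 * C2 / √t := by ring
      have h7 : ‖knf n t 0‖ ≤ (1 + C1 + 6 * C2) / √t := by
        have h14 : C1 / √t + 6 * C2 / √t ≤ (1 + C1 + 6 * C2) / √t := by
          rw [← add_div]
          apply div_le_div_of_nonneg_right _ hst.le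
          linarith
        linarith
      exact h7.trans (riem_sqrt_div (by positivity) ht.le)
  refine ⟨2 * (1 + C1 + 6 * C2), by positivity, ?_⟩
  intro n T u hT hTn hu
  rcases le_or_gt 0 u with h0 | h0
  · rw [abs_of_nonneg h0] at hu ⊢
    exact hpos n T u hT hTn h0 hu
  · rw [abs_of_neg h0] at hu ⊢
    have h3 : knf n u 0 = starRingEnd ℂ (knf n (-u) 0) := by
      have := knf_neg n (-u) 0
      rwa [neg_neg, neg_zero] at this
    rw [h3, Complex.norm_conj]
    exact hpos n T (-u) hT hTn (by linarith) hu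

open K4L in
theorem sum_fblkf_le {d : ℕ} (hd : 3 ≤ d) :
    ∃ C : ℝ, 0 < C ∧ ∀ (n : ℕ) (T : ℝ) (ζ : ℂ), 1 ≤ T → T ^ 4 ≤ 2 * n + 1 → 0 ≤ ζ.im →
      (1 / (2 * n + 1 : ℝ) ^ d) * ∑ q : Tor d n, ‖fblk ζ T q‖ ^ 2 ≤ C * T := by
  obtain ⟨C, hC, hkn⟩ := knf_zero_le
  refine ⟨C ^ 3 * 4, by positivity, ?_⟩
  intro n T ζ hT hT4 hζ
  have hT2 : T ≤ 2 * T := by linarith
  set F : Tor d n → ℝ → ℂ := fun q t => Complex.exp (Complex.I * (ζ - (omg q : ℂ)) * (t : ℂ))
    with hF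
  have hFc : ∀ q, Continuous (F q) := fun q => by rw [hF]; fun_prop
  set c : Tor d n → ℂ := fun _ => ((1 / (2 * n + 1 : ℝ) ^ d : ℝ) : ℂ) with hc
  -- the kernel
  have hK : ∀ t s : ℝ, ∑ q, c q * (starRingEnd ℂ (F q s) * F q t) =
      Complex.exp (Complex.I * ζ * (t : ℂ)) * starRingEnd ℂ (Complex.exp (Complex.I * ζ * (s : ℂ))) *
        knf n (t - s) 0 ^ d := by
    intro t s
    rw [← K4L.sum_phase, Finset.mul_sum]
    refine Finset.sum_congr rfl fun q _ => ?_
    have : starRingEnd ℂ (F q s) * F q t = Complex.exp (Complex.I * ζ * (t : ℂ)) *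
        starRingEnd ℂ (Complex.exp (Complex.I * ζ * (s : ℂ))) *
        Complex.exp (-(Complex.I * (omg q : ℂ) * ((t - s : ℝ) : ℂ))) := by
      simp only [hF, ← Complex.exp_conj, map_mul, map_sub, Complex.conj_I, Complex.conj_ofReal,
        ← Complex.exp_add]
      congr 1
      push_cast
      ring
    rw [this, hc]
    ring
  have hKle : ∀ t ∈ Icc T (2 * T), ∀ s ∈ Icc T (2 * T),
      ‖∑ q, c q * (starRingEnd ℂ (F q s) * F q t)‖ ≤ C ^ 3 * (1 / √(1 + |t - s|) ^ 3) := by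
    intro t ht s hs
    rw [hK, norm_mul, norm_mul, RCLike.norm_conj, norm_pow]
    have e1 := TorL2.norm_exp_le hζ (t := t) (by linarith [ht.1])
    have e2 := TorL2.norm_exp_le hζ (t := s) (by linarith [hs.1])
    have habs : |t - s| ≤ 2 * T := by
      rw [abs_le]; constructor <;> linarith [ht.1, ht.2, hs.1, hs.2]
    have e3 := hkn n T (t - s) hT hT4 habs
    have e4 := knf_one n (t - s) 0
    have e5 : ‖knf n (t - s) 0‖ ^ d ≤ ‖knf n (t - s) 0‖ ^ 3 :=
      pow_le_pow_of_le_one (norm_nonneg _) e4 hd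
    have e6 : ‖knf n (t - s) 0‖ ^ 3 ≤ (C / √(1 + |t - s|)) ^ 3 :=
      pow_le_pow_left₀ (norm_nonneg _) e3 3
    have e7 : (C / √(1 + |t - s|)) ^ 3 = C ^ 3 * (1 / √(1 + |t - s|) ^ 3) := by
      rw [div_pow]; ring
    have e8 : ‖Complex.exp (Complex.I * ζ * (t : ℂ))‖ * ‖Complex.exp (Complex.I * ζ * (s : ℂ))‖ ≤ 1 :=
      mul_le_one₀ e1 (norm_nonneg _) e2
    calc _ ≤ 1 * ‖knf n (t - s) 0‖ ^ d :=
          mul_le_mul_of_nonneg_right e8 (by positivity)
      _ ≤ _ := by rw [one_mul, ← e7]; exact e5.trans e6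
  have hfb : ∀ q, fblk ζ T q = ∫ t in T..(2 * T), F q t := fun q => rfl
  -- inner integral
  have hin : ∀ t ∈ Icc T (2 * T), ‖∑ q, c q * (starRingEnd ℂ (fblk ζ T q) * F q t)‖ ≤ C ^ 3 * 4 := by
    intro t ht
    have h1 : ∑ q, c q * (starRingEnd ℂ (fblk ζ T q) * F q t) =
        ∫ s in T..(2 * T), ∑ q, c q * (starRingEnd ℂ (F q s) * F q t) := by
      rw [intervalIntegral.integral_finsetSum]
      · refine Finset.sum_congr rfl fun q _ => ?_
        rw [intervalIntegral.integral_const_mul, intervalIntegral.integral_mul_const, hfb]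
        congr 2
        rw [intervalIntegral.integral_of_le hT2, intervalIntegral.integral_of_le hT2]
        exact (integral_conj).symm
      · intro q _
        refine Continuous.intervalIntegrable ?_ _ _
        have := hFc q
        fun_prop
    rw [h1]
    have hcont : Continuous fun s : ℝ => C ^ 3 * (1 / √(1 + |t - s|) ^ 3) := by
      refine continuous_const.mul (Continuous.div continuous_const (by fun_prop) ?_)
      intro s
      have hp : 0 < 1 + |t - s| := by positivity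
      exact pow_ne_zero _ (Real.sqrt_pos.mpr hp).ne'
    have h2 : ‖∫ s in T..(2 * T), ∑ q, c q * (starRingEnd ℂ (F q s) * F q t)‖ ≤
        ∫ s in T..(2 * T), C ^ 3 * (1 / √(1 + |t - s|) ^ 3) := by
      refine intervalIntegral.norm_integral_le_of_norm_le hT2 ?_ (hcont.intervalIntegrable _ _)
      refine Filter.Eventually.of_forall fun s hs => ?_
      exact hKle t ht s (Ioc_subset_Icc_self hs)
    refine h2.trans ?_
    rw [intervalIntegral.integral_const_mul]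
    exact mul_le_mul_of_nonneg_left (TorL2.int_all ht.1 ht.2) (by positivity)
  -- outer integral
  have hout : ((1 / (2 * n + 1 : ℝ) ^ d * ∑ q : Tor d n, ‖fblk ζ T q‖ ^ 2 : ℝ) : ℂ) =
      ∫ t in T..(2 * T), ∑ q, c q * (starRingEnd ℂ (fblk ζ T q) * F q t) := by
    rw [intervalIntegral.integral_finsetSum]
    · rw [Finset.mul_sum, Complex.ofReal_sum]
      refine Finset.sum_congr rfl fun q _ => ?_
      rw [intervalIntegral.integral_const_mul, intervalIntegral.integral_const_mul, ← hfb]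
      have : starRingEnd ℂ (fblk ζ T q) * fblk ζ T q = ((‖fblk ζ T q‖ ^ 2 : ℝ) : ℂ) := by
        rw [mul_comm, Complex.mul_conj, Complex.normSq_eq_norm_sq]
      rw [this, hc]
      push_cast
      ring
    · intro q _
      refine Continuous.intervalIntegrable ?_ _ _
      have := hFc q
      fun_prop
  have hfin : ‖∫ t in T..(2 * T), ∑ q, c q * (starRingEnd ℂ (fblk ζ T q) * F q t)‖ ≤
      C ^ 3 * 4 * |2 * T - T| := by
    refine intervalIntegral.norm_integral_le_of_norm_le_const fun t ht => ?_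
    rw [uIoc_of_le hT2] at ht
    exact hin t (Ioc_subset_Icc_self ht)
  have habs : |2 * T - T| = T := by
    rw [show 2 * T - T = T by ring]; exact abs_of_nonneg (by linarith)
  rw [← hout, Complex.norm_real, habs] at hfin
  exact (le_abs_self _).trans hfin

end Pool.Agent.BK
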