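import Pool.Agent.BK.FBa
import Pool.Agent.BK.FBc
import Pool.Agent.BK.K4B
import Pool.Agent.BK.K4L
import Pool.Agent.BK.Lev

/-! BK module FB4: the upper bounds for the free resolvent for `d ≥ 4`, at all real parts of `ζ`.
Same proofs as `FBa.lean`, `FBb.lean`, `FBc.lean` with `Chi` replaced by `1` (copy and simplify):
`1/(omg - ζ) = R + ∑_{j<J} i fblk ζ 2^j`, `R = (1 - e^{i(ζ-omg)})/(omg-ζ) + e^{i(ζ-omg)2^J}/(omg-ζ)`, bounded;
`TF (i fblk ζ T)` has entries `i blkf ζ T (y - x)`; `|M_j| ≤ C (1+j) 2^{-j}` (`blkf_le`), `‖M_j‖ ≤ 2^j`,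
`∑_y |M_j|² ≤ C 2^j` (`sum_fblkf_le`). The extra factor `1 + j` is harmless. -/

open MeasureTheory Finset Matrix

noncomputable section

namespace Pool.Agent.BK

/-- the product of the full one-dimensional kernels as a sum over the dual torus -/
lemma FB4_prod_knf {d n : ℕ} (t : ℝ) (x : Tor d n) :
    ∏ l, knf n t (x l) = (1 / (2 * n + 1 : ℂ) ^ d) * ∑ q : Tor d n,
      Complex.exp (-(Complex.I * (omg q : ℂ)) * (t : ℂ)) * ch q x := by
  have h1 : ∀ l, knf n t (x l) = (1 / (2 * n + 1 : ℂ)) * ∑ q : ZMod (2 * n + 1),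
      (Complex.exp (-(Complex.I * ((2 - 2 * Real.cos (ang n q) : ℝ) : ℂ))
        * (t : ℂ)) * (ZMod.stdAddChar (q * x l) : ℂ)) := by
    intro l
    unfold knf
    rw [Complex.real_smul]
    congr 1
    · push_cast
      rfl
    · refine Finset.sum_congr rfl fun q _ => ?_
      rw [stdAddChar_eq, ← Complex.exp_add]
      congr 1
      push_cast
      ring
  simp only [h1]
  rw [Finset.prod_mul_distrib, Finset.prod_const, Finset.card_univ, Fintype.card_fin,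
    Finset.prod_univ_sum, Fintype.piFinset_univ]
  congr 1
  · rw [one_div, one_div, inv_pow]
  · refine Finset.sum_congr rfl fun q _ => ?_
    rw [Finset.prod_mul_distrib, ← Complex.exp_sum]
    unfold ch omg
    push_cast
    congr 2
    rw [← Finset.sum_mul, Finset.sum_neg_distrib, ← Finset.mul_sum]

lemma TF_blkf {d n : ℕ} (T : ℝ) (ζ : ℂ) (x y : Tor d n) :
    TF (fun q => Complex.I * fblk ζ T q) x y = Complex.I * blkf ζ T (y - x) := by
  unfold TF blkf fblk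
  simp only [FB4_prod_knf]
  have h2 : ∀ q : Tor d n, IntervalIntegrable (fun t : ℝ => (1 / (2 * n + 1 : ℂ) ^ d) *
      (ch q (y - x) *
        Complex.exp (Complex.I * (ζ - (omg q : ℂ)) * (t : ℂ)))) volume T (2 * T) := by
    intro q
    apply Continuous.intervalIntegrable
    fun_prop
  have h3 : ∀ t : ℝ, Complex.exp (Complex.I * ζ * (t : ℂ)) * ((1 / (2 * n + 1 : ℂ) ^ d) *
      ∑ q : Tor d n, Complex.exp (-(Complex.I * (omg q : ℂ)) * (t : ℂ)) *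
        ch q (y - x)) = ∑ q : Tor d n, (1 / (2 * n + 1 : ℂ) ^ d) * (ch q (y - x) *
          Complex.exp (Complex.I * (ζ - (omg q : ℂ)) * (t : ℂ))) := by
    intro t
    rw [Finset.mul_sum, Finset.mul_sum]
    refine Finset.sum_congr rfl fun q _ => ?_
    have : Complex.exp (Complex.I * (ζ - (omg q : ℂ)) * (t : ℂ)) =
        Complex.exp (Complex.I * ζ * (t : ℂ)) *
          Complex.exp (-(Complex.I * (omg q : ℂ)) * (t : ℂ)) := by
      rw [← Complex.exp_add]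
      congr 1
      ring
    rw [this]
    ring
  simp only [h3]
  rw [intervalIntegral.integral_finsetSum (fun q _ => h2 q), Finset.mul_sum, Finset.mul_sum]
  refine Finset.sum_congr rfl fun q _ => ?_
  rw [intervalIntegral.integral_const_mul, intervalIntegral.integral_const_mul]
  ring

/-- The remainder symbol. -/
def FB4_R {d n : ℕ} (ζ : ℂ) (J : ℕ) (q : Tor d n) : ℂ :=
  1 / ((omg q : ℂ) - ζ) - ∑ j ∈ Finset.range J, Complex.I * fblk ζ (2 ^ j) q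

theorem FB4_R_le {d n : ℕ} (ζ : ℂ) (J : ℕ) (q : Tor d n)
    (h3 : 0 < ζ.im) (h5 : ζ.im ^ (-(2 : ℝ)) < 2 ^ (J + 1)) : ‖FB4_R ζ J q‖ ≤ 3 := by
  set γ := ζ.im with hγ
  set a : ℂ := Complex.I * (ζ - (omg q : ℂ)) with ha
  have hre : a.re = -γ := by
    simp [ha, hγ]
  have hne : (omg q : ℂ) - ζ ≠ 0 := by
    intro h
    have := congrArg Complex.im h
    simp at this
    linarith
  have ha0 : a ≠ 0 := by
    rw [ha]
    refine mul_ne_zero Complex.I_ne_zero (fun h => hne ?_)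
    rw [← neg_sub, h, neg_zero]
  have hnorm : ‖a‖ = ‖(omg q : ℂ) - ζ‖ := by
    rw [ha, norm_mul, Complex.norm_I, one_mul, norm_sub_rev]
  have hint : ∫ t in (1 : ℝ)..(2 ^ J), Complex.exp (a * (t : ℂ)) =
      (Complex.exp (a * ((2 ^ J : ℝ) : ℂ)) - Complex.exp a) / a := by
    rw [integral_exp_mul_complex ha0]
    simp
  have hR : FB4_R ζ J q = (1 - Complex.exp a) / ((omg q : ℂ) - ζ) +
      Complex.exp (a * ((2 ^ J : ℝ) : ℂ)) / ((omg q : ℂ) - ζ) := by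
    unfold FB4_R
    rw [← Finset.mul_sum, sum_fblk, ← ha, hint]
    have h6 : Complex.I * ((Complex.exp (a * ((2 ^ J : ℝ) : ℂ)) - Complex.exp a) / a) =
        -((Complex.exp (a * ((2 ^ J : ℝ) : ℂ)) - Complex.exp a) / ((omg q : ℂ) - ζ)) := by
      have h7 : a = -(Complex.I * ((omg q : ℂ) - ζ)) := by rw [ha]; ring
      rw [h7]
      field_simp
    rw [h6]
    field_simp
    ring
  have hγle : γ ≤ ‖(omg q : ℂ) - ζ‖ := by
    have := Complex.abs_im_le_norm ((omg q : ℂ) - ζ)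
    simp only [Complex.sub_im, Complex.ofReal_im, zero_sub, abs_neg] at this
    exact (le_abs_self _).trans this
  have hpos : 0 < ‖(omg q : ℂ) - ζ‖ := norm_pos_iff.2 hne
  have t2 : ‖(1 - Complex.exp a) / ((omg q : ℂ) - ζ)‖ ≤ 1 := by
    rw [norm_div, div_le_one hpos, ← hnorm]
    exact norm_exp_sub_one_le_of_re (by rw [hre]; linarith)
  have t3 : ‖Complex.exp (a * ((2 ^ J : ℝ) : ℂ)) / ((omg q : ℂ) - ζ)‖ ≤ 2 := by
    rw [norm_div, Complex.norm_exp]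
    have hre2 : (a * ((2 ^ J : ℝ) : ℂ)).re = -(γ * 2 ^ J) := by
      rw [Complex.mul_re, Complex.ofReal_re, Complex.ofReal_im, mul_zero, sub_zero, hre]
      ring
    rw [hre2]
    set u := 1 / (2 * γ) with hu
    have hupos : 0 < u := by positivity
    have hγJ : u ≤ γ * 2 ^ J := by
      have h8 : γ ^ (-(2 : ℝ)) = 1 / γ ^ 2 := by
        rw [Real.rpow_neg h3.le, one_div]
        congr 1
        exact_mod_cast Real.rpow_natCast γ 2
      rw [h8, show (2 : ℝ) ^ (J + 1) = 2 ^ J * 2 by ring, div_lt_iff₀ (by positivity)] at h5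
      rw [hu, div_le_iff₀ (by positivity)]
      nlinarith
    have hexp : Real.exp (-(γ * 2 ^ J)) ≤ 1 / u := by
      have h9 : u ≤ Real.exp (γ * 2 ^ J) :=
        hγJ.trans ((by linarith : γ * 2 ^ J ≤ γ * 2 ^ J + 1).trans (Real.add_one_le_exp _))
      rw [Real.exp_neg, ← one_div]
      exact one_div_le_one_div_of_le hupos h9
    calc Real.exp (-(γ * 2 ^ J)) / ‖(omg q : ℂ) - ζ‖
        ≤ (1 / u) / γ := div_le_div₀ (by positivity) hexp h3 hγle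
      _ = 2 := by
          rw [hu]
          field_simp
  rw [hR]
  exact (norm_add_le _ _).trans (by linarith)

/-- choice of the number of scales and decomposition of the resolvent -/
lemma FB4_split {d n : ℕ} (hn : 0 < n) {ζ : ℂ} (h3 : 0 < ζ.im) (h4 : ζ.im ≤ 1)
    (h5 : ζ.im ^ (-(10 : ℝ)) ≤ 2 * n + 1) : ∃ J : ℕ, (2 : ℝ) ^ J ≤ ζ.im ^ (-(2 : ℝ)) ∧
      (∀ j < J, ((2 : ℝ) ^ j) ^ 4 ≤ 2 * n + 1) ∧ (∀ q : Tor d n, ‖FB4_R ζ J q‖ ≤ 3) ∧
      Gr (H0 d n) 0 ζ = TF (FB4_R ζ J) +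
        ∑ j ∈ Finset.range J, TF (fun q : Tor d n => Complex.I * fblk ζ (2 ^ j) q) := by
  set γ := ζ.im with hγ
  have hγ2 : 1 ≤ γ ^ (-(2 : ℝ)) := Real.one_le_rpow_of_pos_of_le_one_of_nonpos h3 h4 (by norm_num)
  obtain ⟨J, hJ1, hJ2⟩ := exists_nat_pow_near hγ2 (by norm_num : (1 : ℝ) < 2)
  have hpow : γ ^ (-(8 : ℝ)) ≤ 2 * n + 1 := by
    refine le_trans ?_ h5
    exact Real.rpow_le_rpow_of_exponent_ge h3 h4 (by norm_num)
  refine ⟨J, hJ1, fun j hj => ?_, fun q => FB4_R_le ζ J q h3 hJ2, ?_⟩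
  · have hTJ : (2 : ℝ) ^ j ≤ γ ^ (-(2 : ℝ)) :=
      le_trans (pow_le_pow_right₀ (by norm_num) hj.le) hJ1
    refine le_trans ?_ hpow
    have : γ ^ (-(8 : ℝ)) = (γ ^ (-(2 : ℝ))) ^ 4 := by
      rw [← Real.rpow_natCast, ← Real.rpow_mul h3.le]
      norm_num
    rw [this]
    gcongr
  · rw [Gr_eq_TF hn h3, TF_sum, TF_add]
    congr 1
    funext q
    unfold FB4_R
    ring

/-- entries of the pieces -/
lemma FB4_entry {d : ℕ} {C0 : ℝ} (hC0 : 0 < C0)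
    (hblk : ∀ (n : ℕ) (T : ℝ) (ζ : ℂ) (x : Tor d n), 1 ≤ T → T ^ 4 ≤ 2 * n + 1 →
      0 ≤ ζ.im → ‖blkf ζ T x‖ ≤ C0 * (1 + Real.log T) / T) {n : ℕ} {ζ : ℂ} (h3 : 0 < ζ.im)
    {J j : ℕ} (hj : j < J) (hT4 : ((2 : ℝ) ^ j) ^ 4 ≤ 2 * n + 1) (x y : Tor d n) :
    ‖TF (fun q : Tor d n => Complex.I * fblk ζ (2 ^ j) q) x y‖ ≤ C0 * (J + 1) / 2 ^ j := by
  rw [TF_blkf, norm_mul, Complex.norm_I, one_mul]
  refine (hblk n _ ζ _ (one_le_pow₀ (by norm_num)) hT4 h3.le).trans ?_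
  have h1 : Real.log ((2 : ℝ) ^ j) ≤ j := by
    rw [Real.log_pow]
    have h2 : Real.log 2 ≤ 1 := by
      have := Real.log_two_lt_d9
      linarith
    calc (j : ℝ) * Real.log 2 ≤ j * 1 := mul_le_mul_of_nonneg_left h2 (Nat.cast_nonneg j)
      _ = j := mul_one _
  have h2 : (j : ℝ) ≤ J := by exact_mod_cast hj.le
  have h6 : 1 + Real.log ((2 : ℝ) ^ j) ≤ J + 1 := by linarith
  exact div_le_div_of_nonneg_right (mul_le_mul_of_nonneg_left h6 hC0.le) (by positivity)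

/-- the torus is a point or `n` is positive -/
lemma FB4_zero {n : ℕ} {γ : ℝ} (hn : n = 0) (h3 : 0 < γ) (h4 : γ ≤ 1)
    (h5 : γ ^ (-(10 : ℝ)) ≤ 2 * n + 1) : γ = 1 := by
  refine le_antisymm h4 ?_
  by_contra hlt
  push Not at hlt
  have : 1 < γ ^ (-(10 : ℝ)) := Real.one_lt_rpow_of_pos_of_lt_one_of_neg h3 hlt (by norm_num)
  rw [hn, Nat.cast_zero, mul_zero, zero_add] at h5
  linarith

theorem fb3f {d : ℕ} (hd : 4 ≤ d) {ε : ℝ} (hε : 0 < ε) :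
    ∃ C : ℝ, 0 < C ∧ ∀ (ζ : ℂ) (n : ℕ),
      0 < ζ.im → ζ.im ≤ 1 → ζ.im ^ (-(10 : ℝ)) ≤ 2 * n + 1 →
      ∀ x, ∑ y, ‖Gr (H0 d n) 0 ζ x y‖ ^ 3 ≤ C * ζ.im ^ (-ε) := by
  obtain ⟨C0, hC0, hblk⟩ := blkf_le hd
  obtain ⟨C1, hC1, hsum⟩ := sum_fblkf_le (d := d) (by omega)
  obtain ⟨CJ, hCJ, hJ⟩ := J_le (ε := ε / 2) (by positivity)
  refine ⟨(27 + C0 * C1) * CJ ^ 2 + 1, by positivity, fun ζ n h3 h4 h5 x => ?_⟩
  set γ := ζ.im with hγ
  have hg1 : 1 ≤ γ ^ (-ε) := Real.one_le_rpow_of_pos_of_le_one_of_nonpos h3 h4 (by linarith)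
  rcases Nat.eq_zero_or_pos n with hn | hn
  · have hγ1 : γ = 1 := FB4_zero hn h3 h4 h5
    have hle : ∀ y, ‖Gr (H0 d n) 0 ζ x y‖ ≤ 1 := by
      intro y
      have := norm_Gr_le (RS_H0 d n) 0 h3 x y
      rw [← hγ, hγ1] at this
      simpa using this
    have h6 : ∑ y, ‖Gr (H0 d n) 0 ζ x y‖ ^ 3 ≤ ∑ y, ‖Gr (H0 d n) 0 ζ x y‖ ^ 2 :=
      Finset.sum_le_sum fun y _ => pow_le_pow_of_le_one (norm_nonneg _) (hle y) (by norm_num)
    rw [ward (RS_H0 d n) 0 h3 x, ← hγ, hγ1, div_one] at h6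
    have h7 : (Gr (H0 d n) 0 ζ x x).im ≤ 1 :=
      ((le_abs_self _).trans (Complex.abs_im_le_norm _)).trans (hle x)
    have h8 : 0 ≤ (27 + C0 * C1) * CJ ^ 2 := by positivity
    rw [hγ1, Real.one_rpow, mul_one]
    linarith
  obtain ⟨J, hJ1, hJT, hR, hM⟩ := FB4_split (d := d) hn h3 h4 h5
  -- bound of the third moments of the pieces
  have hN : (0 : ℝ) < (2 * n + 1 : ℝ) ^ d := by positivity
  have hcardR : (Fintype.card (Tor d n) : ℝ) = (2 * n + 1 : ℝ) ^ d := by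
    rw [Fintype.card_fun, Fintype.card_fin, ZMod.card]
    push_cast
    ring
  have hRsum : ∑ y, ‖TF (FB4_R ζ J) x y‖ ^ 3 ≤ 27 := by
    have e1 : ∑ y, ‖TF (FB4_R ζ J) x y‖ ^ 3 ≤ 3 * ∑ y, ‖TF (FB4_R ζ J) x y‖ ^ 2 := by
      rw [Finset.mul_sum]
      refine Finset.sum_le_sum fun y _ => ?_
      rw [pow_succ' _ 2]
      exact mul_le_mul_of_nonneg_right (norm_TF_le hR x y) (by positivity)
    have e2 : ∑ y, ‖TF (FB4_R ζ J) x y‖ ^ 2 ≤ 9 := by
      rw [parseval]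
      have e3 : ∑ q : Tor d n, ‖FB4_R ζ J q‖ ^ 2 ≤ (2 * n + 1 : ℝ) ^ d * 9 := by
        calc ∑ q : Tor d n, ‖FB4_R ζ J q‖ ^ 2 ≤ ∑ _q : Tor d n, (9 : ℝ) := by
              refine Finset.sum_le_sum fun q _ => ?_
              have := pow_le_pow_left₀ (norm_nonneg _) (hR q) 2
              linarith
          _ = (2 * n + 1 : ℝ) ^ d * 9 := by
              rw [Finset.sum_const, Finset.card_univ, nsmul_eq_mul, hcardR]
      calc (1 / (2 * n + 1 : ℝ) ^ d) * ∑ q : Tor d n, ‖FB4_R ζ J q‖ ^ 2 ≤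
          (1 / (2 * n + 1 : ℝ) ^ d) * ((2 * n + 1 : ℝ) ^ d * 9) :=
            mul_le_mul_of_nonneg_left e3 (by positivity)
        _ = 9 := by field_simp
    linarith
  have hjsum : ∀ j ∈ Finset.range J,
      ∑ y, ‖TF (fun q : Tor d n => Complex.I * fblk ζ (2 ^ j) q) x y‖ ^ 3 ≤
        C0 * C1 * (J + 1) := by
    intro j hj
    have hj' := Finset.mem_range.1 hj
    have e0 := FB4_entry hC0 hblk h3 hj' (hJT j hj') x
    have e1 : ∑ y, ‖TF (fun q : Tor d n => Complex.I * fblk ζ (2 ^ j) q) x y‖ ^ 3 ≤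
        C0 * (J + 1) / 2 ^ j *
          ∑ y, ‖TF (fun q : Tor d n => Complex.I * fblk ζ (2 ^ j) q) x y‖ ^ 2 := by
      rw [Finset.mul_sum]
      refine Finset.sum_le_sum fun y _ => ?_
      rw [pow_succ' _ 2]
      exact mul_le_mul_of_nonneg_right (e0 y) (by positivity)
    have e2 : ∑ y, ‖TF (fun q : Tor d n => Complex.I * fblk ζ (2 ^ j) q) x y‖ ^ 2 ≤
        C1 * 2 ^ j := by
      rw [parseval]
      have := hsum n (2 ^ j) ζ (one_le_pow₀ (by norm_num)) (hJT j hj') h3.le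
      refine le_trans (le_of_eq ?_) this
      congr 1
      refine Finset.sum_congr rfl fun q _ => ?_
      rw [norm_mul, Complex.norm_I, one_mul]
    refine e1.trans ?_
    calc C0 * (J + 1) / 2 ^ j *
          ∑ y, ‖TF (fun q : Tor d n => Complex.I * fblk ζ (2 ^ j) q) x y‖ ^ 2
        ≤ C0 * (J + 1) / 2 ^ j * (C1 * 2 ^ j) := mul_le_mul_of_nonneg_left e2 (by positivity)
      _ = C0 * C1 * (J + 1) := by field_simp
  -- Minkowski by the power mean inequality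
  have hpt : ∀ y, ‖Gr (H0 d n) 0 ζ x y‖ ^ 3 ≤ ((J : ℝ) + 1) ^ 2 * (‖TF (FB4_R ζ J) x y‖ ^ 3 +
      ∑ j ∈ Finset.range J, ‖TF (fun q : Tor d n => Complex.I * fblk ζ (2 ^ j) q) x y‖ ^ 3) := by
    intro y
    let f : ℕ → ℝ := fun i => if i < J then
      ‖TF (fun q : Tor d n => Complex.I * fblk ζ (2 ^ i) q) x y‖ else ‖TF (FB4_R ζ J) x y‖
    have hf0 : ∀ i ∈ Finset.range (J + 1), 0 ≤ f i := by
      intro i _
      simp only [f]
      split_ifs <;> exact norm_nonneg _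
    have hfs : ∀ k : ℕ, ∑ i ∈ Finset.range (J + 1), f i ^ k = ‖TF (FB4_R ζ J) x y‖ ^ k +
        ∑ j ∈ Finset.range J, ‖TF (fun q : Tor d n => Complex.I * fblk ζ (2 ^ j) q) x y‖ ^ k := by
      intro k
      rw [Finset.sum_range_succ, add_comm]
      congr 1
      · simp [f]
      · refine Finset.sum_congr rfl fun j hj => ?_
        simp only [f]
        rw [if_pos (Finset.mem_range.1 hj)]
    have h6 : ‖Gr (H0 d n) 0 ζ x y‖ ≤ ∑ i ∈ Finset.range (J + 1), f i := by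
      have := hfs 1
      simp only [pow_one] at this
      rw [this, hM, Matrix.add_apply, Matrix.sum_apply]
      exact (norm_add_le _ _).trans (add_le_add le_rfl (norm_sum_le _ _))
    have h7 := pow_sum_div_card_le_sum_pow hf0 2
    rw [Finset.card_range, div_le_iff₀ (by positivity)] at h7
    have h8 : ‖Gr (H0 d n) 0 ζ x y‖ ^ 3 ≤ (∑ i ∈ Finset.range (J + 1), f i) ^ (2 + 1) :=
      pow_le_pow_left₀ (norm_nonneg _) h6 3
    refine h8.trans (h7.trans (le_of_eq ?_))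
    rw [hfs (2 + 1)]
    push_cast
    ring
  have hJ0 : (0 : ℝ) ≤ J := Nat.cast_nonneg J
  have htot : ∑ y, ‖Gr (H0 d n) 0 ζ x y‖ ^ 3 ≤
      ((J : ℝ) + 1) ^ 2 * (27 + J * (C0 * C1 * (J + 1))) := by
    refine (Finset.sum_le_sum fun y _ => hpt y).trans ?_
    rw [← Finset.mul_sum, Finset.sum_add_distrib, Finset.sum_comm]
    refine mul_le_mul_of_nonneg_left (add_le_add hRsum ?_) (by positivity)
    refine (Finset.sum_le_sum hjsum).trans ?_
    rw [Finset.sum_const, Finset.card_range, nsmul_eq_mul]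
  refine htot.trans ?_
  have hJC := hJ γ J h3 hJ1
  have e3 : ((J : ℝ) + 1) ^ 2 * (27 + J * (C0 * C1 * (J + 1))) ≤
      (27 + C0 * C1) * (((J : ℝ) + 1) ^ 2) ^ 2 := by
    have h6 : 27 + J * (C0 * C1 * (J + 1)) ≤ (27 + C0 * C1) * ((J : ℝ) + 1) ^ 2 := by
      have h7 : 0 < C0 * C1 := mul_pos hC0 hC1
      nlinarith [mul_nonneg h7.le hJ0, mul_nonneg hJ0 hJ0]
    calc ((J : ℝ) + 1) ^ 2 * (27 + J * (C0 * C1 * (J + 1))) ≤
        ((J : ℝ) + 1) ^ 2 * ((27 + C0 * C1) * ((J : ℝ) + 1) ^ 2) :=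
          mul_le_mul_of_nonneg_left h6 (by positivity)
      _ = _ := by ring
  have e4 : (((J : ℝ) + 1) ^ 2) ^ 2 ≤ CJ ^ 2 * γ ^ (-ε) := by
    have h6 := pow_le_pow_left₀ (by positivity) hJC 2
    have h7 : (CJ * γ ^ (-(ε / 2))) ^ 2 = CJ ^ 2 * γ ^ (-ε) := by
      rw [mul_pow, ← Real.rpow_natCast (γ ^ (-(ε / 2))), ← Real.rpow_mul h3.le]
      congr 2
      push_cast
      ring
    rw [h7] at h6
    exact h6
  calc ((J : ℝ) + 1) ^ 2 * (27 + J * (C0 * C1 * (J + 1))) ≤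
      (27 + C0 * C1) * (((J : ℝ) + 1) ^ 2) ^ 2 := e3
    _ ≤ (27 + C0 * C1) * (CJ ^ 2 * γ ^ (-ε)) := mul_le_mul_of_nonneg_left e4 (by positivity)
    _ ≤ ((27 + C0 * C1) * CJ ^ 2 + 1) * γ ^ (-ε) := by nlinarith

theorem fb24f {d : ℕ} (hd : 4 ≤ d) {ε : ℝ} (hε : 0 < ε) :
    ∃ C : ℝ, 0 < C ∧ ∀ (ζ : ℂ) (n : ℕ),
      0 < ζ.im → ζ.im ≤ 1 → ζ.im ^ (-(10 : ℝ)) ≤ 2 * n + 1 →
      ∀ c : Tor d n → ℂ, ∑ y, ‖(Gr (H0 d n) 0 ζ *ᵥ c) y‖ ^ 4 ≤
        C * ζ.im ^ (-2 - ε) * (1 + Real.log (2 * n + 1)) ^ 4 * nsq c ^ 2 := by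
  obtain ⟨C0, hC0, hblk⟩ := blkf_le hd
  obtain ⟨CL, hCL, hlev⟩ := lev
  obtain ⟨CJ, hCJ, hJ⟩ := J_le (ε := ε / 2) (by positivity)
  set K : ℝ := CL * (√C0 + 3) * (d + 1) ^ 2 with hK
  have hKpos : 0 < K := by positivity
  refine ⟨K ^ 2 * CJ ^ 2 + 1, by positivity, fun ζ n h3 h4 h5 c => ?_⟩
  set γ := ζ.im with hγ
  set L := Real.log (2 * n + 1) with hL
  have hL0 : 0 ≤ L := Real.log_nonneg (by linarith [(Nat.cast_nonneg n : (0 : ℝ) ≤ n)])
  have hnc : 0 ≤ nsq c := Finset.sum_nonneg fun _ _ => by positivity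
  rcases Nat.eq_zero_or_pos n with hn | hn
  · -- the torus is a point
    have hγ1 : γ = 1 := FB4_zero hn h3 h4 h5
    have h6 : nsq (Gr (H0 d n) 0 ζ *ᵥ c) ≤ (1 / ζ.im) ^ 2 * nsq c :=
      nsq_Gr_mulVec (RS_H0 d n) 0 h3 c
    rw [← hγ, hγ1] at h6
    have h7 : ∑ y, ‖(Gr (H0 d n) 0 ζ *ᵥ c) y‖ ^ 4 ≤ nsq (Gr (H0 d n) 0 ζ *ᵥ c) ^ 2 := by
      unfold nsq
      have : ∀ y, ‖(Gr (H0 d n) 0 ζ *ᵥ c) y‖ ^ 4 = (‖(Gr (H0 d n) 0 ζ *ᵥ c) y‖ ^ 2) ^ 2 :=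
        fun y => by ring
      simp only [this]
      exact Finset.sum_sq_le_sq_sum_of_nonneg (fun _ _ => by positivity)
    have h8 : nsq (Gr (H0 d n) 0 ζ *ᵥ c) ^ 2 ≤ nsq c ^ 2 := by
      have h9 : 0 ≤ nsq (Gr (H0 d n) 0 ζ *ᵥ c) := Finset.sum_nonneg fun _ _ => by positivity
      have : nsq (Gr (H0 d n) 0 ζ *ᵥ c) ≤ nsq c := by simpa using h6
      gcongr
    refine h7.trans (h8.trans ?_)
    rw [hγ1, Real.one_rpow, mul_one]
    have : (1 : ℝ) ≤ (K ^ 2 * CJ ^ 2 + 1) * (1 + L) ^ 4 := by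
      have h10 : (1 : ℝ) ≤ (1 + L) ^ 4 := one_le_pow₀ (by linarith)
      have h11 : (1 : ℝ) ≤ K ^ 2 * CJ ^ 2 + 1 := by
        have : 0 ≤ K ^ 2 * CJ ^ 2 := by positivity
        linarith
      nlinarith
    nlinarith [sq_nonneg (nsq c)]
  obtain ⟨J, hJ1, hJT, hR, hM⟩ := FB4_split (d := d) hn h3 h4 h5
  have hJ0 : (0 : ℝ) ≤ J := Nat.cast_nonneg J
  have hcard : Real.log (Fintype.card (Tor d n)) = d * L := by
    rw [Fintype.card_fun, Fintype.card_fin, ZMod.card, hL]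
    push_cast
    rw [Real.log_pow]
  have hcd : (1 + Real.log (Fintype.card (Tor d n))) ^ 2 ≤ ((d + 1) * (1 + L)) ^ 2 := by
    rw [hcard]
    have : (0 : ℝ) ≤ d := Nat.cast_nonneg d
    apply pow_le_pow_left₀ (by positivity)
    nlinarith
  -- the bilinear bound
  have hj : ∀ j ∈ Finset.range J, ∀ f g : Tor d n → ℂ,
      ‖∑ x, g x * (TF (fun q : Tor d n => Complex.I * fblk ζ (2 ^ j) q) *ᵥ f) x‖ ≤
        CL * (√C0 * (J + 1)) * ((d + 1) * (1 + L)) ^ 2 * n43 f * n43 g := by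
    intro j hj f g
    have hjJ := Finset.mem_range.1 hj
    have hsym : ∀ q : Tor d n, ‖Complex.I * fblk ζ (2 ^ j) q‖ ≤ 2 ^ j := by
      intro q
      rw [norm_mul, Complex.norm_I, one_mul]
      exact norm_fblk_le h3.le (by positivity) q
    have hl := hlev (Tor d n) (TF (fun q : Tor d n => Complex.I * fblk ζ (2 ^ j) q))
      (C0 * (J + 1) / 2 ^ j) (2 ^ j) (by positivity) (by positivity)
      (FB4_entry hC0 hblk h3 hjJ (hJT j hjJ)) (fun c => nsq_TF_mulVec_le hsym c) f g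
    rw [show C0 * (J + 1) / 2 ^ j * 2 ^ j = C0 * ((J : ℝ) + 1) by field_simp,
      Real.sqrt_mul hC0.le] at hl
    refine hl.trans ?_
    have := n43_nonneg f
    have := n43_nonneg g
    have hsq : √((J : ℝ) + 1) ≤ J + 1 := by
      rw [Real.sqrt_le_left (by positivity)]
      nlinarith
    have hcc : 0 ≤ Real.log (Fintype.card (Tor d n)) := by
      rw [hcard]
      positivity
    change CL * (√C0 * √((J : ℝ) + 1)) * (1 + Real.log (Fintype.card (Tor d n))) ^ 2 *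
      n43 f * n43 g ≤ _
    gcongr
  have h0 : ∀ f g : Tor d n → ℂ, ‖∑ x, g x * (TF (FB4_R ζ J) *ᵥ f) x‖ ≤
        CL * 3 * ((d + 1) * (1 + L)) ^ 2 * n43 f * n43 g := by
    intro f g
    have hl := hlev (Tor d n) (TF (FB4_R ζ J)) 3 3 (by norm_num) (by norm_num)
      (fun x y => norm_TF_le hR x y) (fun c => nsq_TF_mulVec_le hR c) f g
    rw [Real.sqrt_mul_self (by norm_num)] at hl
    refine hl.trans ?_
    have := n43_nonneg f
    have := n43_nonneg g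
    change CL * 3 * (1 + Real.log (Fintype.card (Tor d n))) ^ 2 * n43 f * n43 g ≤ _
    gcongr
  set Λ : ℝ := K * (J + 1) ^ 2 * (1 + L) ^ 2 with hΛ
  have hbil : ∀ f g : Tor d n → ℂ, ‖∑ x, g x * (Gr (H0 d n) 0 ζ *ᵥ f) x‖ ≤ Λ * n43 f * n43 g := by
    intro f g
    have e1 : ∑ x, g x * (Gr (H0 d n) 0 ζ *ᵥ f) x = ∑ x, g x * (TF (FB4_R ζ J) *ᵥ f) x +
        ∑ j ∈ Finset.range J, ∑ x, g x *
          (TF (fun q : Tor d n => Complex.I * fblk ζ (2 ^ j) q) *ᵥ f) x := by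
      rw [hM, Matrix.add_mulVec, Matrix.sum_mulVec, Finset.sum_comm, ← Finset.sum_add_distrib]
      refine Finset.sum_congr rfl fun x _ => ?_
      rw [Pi.add_apply, Finset.sum_apply, mul_add, Finset.mul_sum]
    rw [e1]
    refine (norm_add_le _ _).trans ?_
    have e2 : ‖∑ j ∈ Finset.range J, ∑ x, g x *
        (TF (fun q : Tor d n => Complex.I * fblk ζ (2 ^ j) q) *ᵥ f) x‖ ≤
        J * (CL * (√C0 * (J + 1)) * ((d + 1) * (1 + L)) ^ 2 * n43 f * n43 g) := by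
      refine (norm_sum_le _ _).trans ?_
      refine (Finset.sum_le_sum fun j hj' => hj j hj' f g).trans ?_
      rw [Finset.sum_const, Finset.card_range, nsmul_eq_mul]
    refine (add_le_add (h0 f g) e2).trans ?_
    have n1 := n43_nonneg f
    have n2 := n43_nonneg g
    rw [hΛ, hK]
    have hs : 0 ≤ √C0 := Real.sqrt_nonneg _
    set P := ((d : ℝ) + 1) ^ 2 * (1 + L) ^ 2 * n43 f * n43 g with hP
    have hP0 : 0 ≤ P := by positivity
    have e3 : CL * 3 * ((d + 1) * (1 + L)) ^ 2 * n43 f * n43 g +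
        J * (CL * (√C0 * (J + 1)) * ((d + 1) * (1 + L)) ^ 2 * n43 f * n43 g) =
        CL * (3 + J * (J + 1) * √C0) * P := by
      rw [hP]
      ring
    have e4 : CL * (√C0 + 3) * (d + 1) ^ 2 * (J + 1) ^ 2 * (1 + L) ^ 2 * n43 f * n43 g =
        CL * ((√C0 + 3) * (J + 1) ^ 2) * P := by
      rw [hP]
      ring
    rw [e3, e4]
    gcongr
    nlinarith [mul_nonneg hs hJ0, mul_nonneg hJ0 hJ0]
  have hΛ0 : 0 ≤ Λ := by positivity
  have key := four_of_dual (Gr (H0 d n) 0 ζ)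
    (fun x y => Gr_symm (RS_H0 d n) 0 h3.ne' x y) h3 (fun g => by
      rw [nsq_Gr_eq (RS_H0 d n) 0 h3 g]
      refine (le_abs_self _).trans ((Complex.abs_im_le_norm _).trans ?_)
      refine (hbil g (fun x => starRingEnd ℂ (g x))).trans ?_
      have : n43 (fun x => starRingEnd ℂ (g x)) = n43 g := by
        unfold n43
        simp only [RCLike.norm_conj]
      rw [this]
      apply le_of_eq
      ring_nf) c
  refine key.trans ?_
  have hJC := hJ γ J h3 hJ1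
  have e5 : (Λ / γ) ^ 2 = K ^ 2 * (((J : ℝ) + 1) ^ 2) ^ 2 * (1 + L) ^ 4 * γ ^ (-(2 : ℝ)) := by
    rw [hΛ, Real.rpow_neg h3.le, show γ ^ (2 : ℝ) = γ ^ 2 from by exact_mod_cast Real.rpow_natCast γ 2]
    field_simp
  have e6 : γ ^ (-2 - ε) = γ ^ (-(2 : ℝ)) * γ ^ (-ε) := by
    rw [← Real.rpow_add h3]
    congr 1
  have e7 : (((J : ℝ) + 1) ^ 2) ^ 2 ≤ CJ ^ 2 * γ ^ (-ε) := by
    have h6 := pow_le_pow_left₀ (by positivity) hJC 2
    have h7 : (CJ * γ ^ (-(ε / 2))) ^ 2 = CJ ^ 2 * γ ^ (-ε) := by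
      rw [mul_pow, ← Real.rpow_natCast (γ ^ (-(ε / 2))), ← Real.rpow_mul h3.le]
      congr 2
      push_cast
      ring
    rw [h7] at h6
    exact h6
  rw [e5, e6]
  have hg0 : 0 < γ ^ (-(2 : ℝ)) := Real.rpow_pos_of_pos h3 _
  have hg1 : 0 < γ ^ (-ε) := Real.rpow_pos_of_pos h3 _
  calc K ^ 2 * (((J : ℝ) + 1) ^ 2) ^ 2 * (1 + L) ^ 4 * γ ^ (-(2 : ℝ)) * nsq c ^ 2
      ≤ K ^ 2 * (CJ ^ 2 * γ ^ (-ε)) * (1 + L) ^ 4 * γ ^ (-(2 : ℝ)) * nsq c ^ 2 := by gcongr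
    _ = K ^ 2 * CJ ^ 2 * (γ ^ (-(2 : ℝ)) * γ ^ (-ε)) * (1 + L) ^ 4 * nsq c ^ 2 := by ring
    _ ≤ (K ^ 2 * CJ ^ 2 + 1) * (γ ^ (-(2 : ℝ)) * γ ^ (-ε)) * (1 + L) ^ 4 * nsq c ^ 2 := by
        gcongr
        linarith

end Pool.Agent.BK
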