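import Pool.Agent.BK.Cnt4
import Pool.Agent.BK.FB4
import Pool.Agent.BK.FB34

/-! BK module FB344: `FreeB d b (4d - b)` for `d ≥ 4`.
`fb_low4` has the same proof as `fb_low` in `FB34.lean`, with `count_low4` in place of `count_low` (the
upper end of the window is only used through the count). -/

open MeasureTheory Finset Matrix

noncomputable section

namespace Pool.Agent.BK

theorem fb_low4 {b : ℝ} (hb : 0 < b) (hb1 : b ≤ 1) {d : ℕ} (hd : 1 ≤ d) :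
    ∃ κ : ℝ, 0 < κ ∧ κ ≤ 1 ∧ ∀ (ζ : ℂ) (n : ℕ), b ≤ ζ.re → ζ.re ≤ 4 * d - b →
    0 < ζ.im → ζ.im ≤ κ → ζ.im ^ (-(10 : ℝ)) ≤ 2 * n + 1 →
    (∀ x, κ ≤ (Gr (H0 d n) 0 ζ x x).im) ∧
    (∀ (j : Fin d) (m : ℕ), 2 * Real.pi * m / (2 * n + 1) ≤ κ * ζ.im →
      κ * (2 * Real.pi * m / (2 * n + 1)) ^ 2 / ζ.im ^ 3 ≤
        ∑ y, ‖Gr (H0 d n) 0 ζ 0 y‖ ^ 2 *
          (1 - Real.cos (2 * Real.pi * m / (2 * n + 1) * ((y j).valMinAbs : ℝ)))) := by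
  obtain ⟨c, hc0, hc1, h⟩ := count_low4 hb hb1 hd
  exact fb_low_of_count hc0 hc1 hd h

theorem freeB4 {b : ℝ} (hb : 0 < b) (hb1 : b ≤ 1) {d : ℕ} (hd : 4 ≤ d) :
    FreeB d b (4 * d - b) := by
  refine ⟨fun ε hε => ?_, fb_low4 hb hb1 (by omega)⟩
  obtain ⟨C, hC, h3⟩ := fb3f hd hε
  obtain ⟨C', hC', h24⟩ := fb24f hd hε
  refine ⟨max C C', lt_max_of_lt_left hC, fun ζ n _ _ h4 h5 h6 => ⟨fun x => ?_, fun c => ?_⟩⟩
  · refine (h3 ζ n h4 h5 h6 x).trans ?_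
    exact mul_le_mul_of_nonneg_right (le_max_left _ _) (Real.rpow_nonneg h4.le _)
  · refine (h24 ζ n h4 h5 h6 c).trans ?_
    have h7 : 0 ≤ ζ.im ^ (-2 - ε) := Real.rpow_nonneg h4.le _
    have h8 : 0 ≤ nsq c ^ 2 := sq_nonneg _
    have h9 : (0 : ℝ) ≤ (1 + Real.log (2 * n + 1)) ^ 4 := by
      have : 0 ≤ Real.log (2 * (n : ℝ) + 1) := Real.log_nonneg (by linarith [n.cast_nonneg (α := ℝ)])
      positivity
    gcongr
    exact le_max_right _ _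

end Pool.Agent.BK
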