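import Mathlib

/-! BK module VDC: van der Corput's first and second derivative tests with an amplitude.

vdc1: `∫ g e^{iψ} = ∫ (g/(iψ')) (e^{iψ})'`, integrate by parts; `∫ |ψ''|/ψ'^2 ≤ 1/μ` because `ψ'` is
monotone of one sign. Bound `(3 G0 + G1)/μ`.
vdc2: `ψ'` is monotone with slope at least `μ` (in absolute value), so `{|ψ'| < √μ}` is an interval
of length `≤ 2/√μ` (trivial bound there), apply vdc1 on the (at most) two remaining intervals:
total `≤ 2 G0/√μ + 2 (3 G0 + G1)/√μ ≤ 8 (G0 + G1)/√μ`. -/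

open MeasureTheory Set

noncomputable section

namespace Pool.Agent.BK

/-- Integral of `|ψ''|/ψ'^2` for monotone `ψ'` bounded away from `0`. -/
lemma vdc_var {a b μ : ℝ} (hab : a ≤ b) (hμ : 0 < μ) {ψ' ψ'' : ℝ → ℝ}
    (hψ' : ∀ t ∈ Icc a b, HasDerivAt ψ' (ψ'' t) t)
    (hψ'' : ContinuousOn ψ'' (Icc a b))
    (hs : (∀ t ∈ Icc a b, 0 ≤ ψ'' t) ∨ (∀ t ∈ Icc a b, ψ'' t ≤ 0))
    (hμ' : (∀ t ∈ Icc a b, μ ≤ ψ' t) ∨ (∀ t ∈ Icc a b, ψ' t ≤ -μ)) :
    ∫ t in a..b, |ψ'' t| / ψ' t ^ 2 ≤ 1 / μ := by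
  have hne : ∀ t ∈ Icc a b, ψ' t ≠ 0 := by
    intro t ht
    rcases hμ' with h | h
    · have := h t ht; linarith
    · have := h t ht; intro h0; linarith
  have hc : ContinuousOn ψ' (Icc a b) := fun t ht => (hψ' t ht).continuousAt.continuousWithinAt
  have hd : ∀ t ∈ Icc a b, HasDerivAt (fun t => (ψ' t)⁻¹) (-ψ'' t / ψ' t ^ 2) t := by
    intro t ht
    exact (hψ' t ht).inv (hne t ht)
  have hI : IntervalIntegrable (fun t => -ψ'' t / ψ' t ^ 2) volume a b := by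
    apply ContinuousOn.intervalIntegrable
    rw [uIcc_of_le hab]
    exact hψ''.neg.div (hc.pow 2) fun t ht => pow_ne_zero _ (hne t ht)
  have hFTC : ∫ t in a..b, -ψ'' t / ψ' t ^ 2 = (ψ' b)⁻¹ - (ψ' a)⁻¹ := by
    apply intervalIntegral.integral_eq_sub_of_hasDerivAt _ hI
    intro t ht
    rw [uIcc_of_le hab] at ht
    exact hd t ht
  have hinv : |(ψ' b)⁻¹ - (ψ' a)⁻¹| ≤ 1 / μ := by
    have ha : a ∈ Icc a b := left_mem_Icc.2 hab
    have hb : b ∈ Icc a b := right_mem_Icc.2 hab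
    rcases hμ' with h | h
    · have h1 := h a ha
      have h2 := h b hb
      have e1 : (ψ' a)⁻¹ ≤ 1 / μ := by rw [← one_div]; exact one_div_le_one_div_of_le hμ h1
      have e2 : (ψ' b)⁻¹ ≤ 1 / μ := by rw [← one_div]; exact one_div_le_one_div_of_le hμ h2
      have e3 : 0 < (ψ' a)⁻¹ := inv_pos.2 (by linarith)
      have e4 : 0 < (ψ' b)⁻¹ := inv_pos.2 (by linarith)
      rw [abs_le]
      constructor <;> linarith
    · have h1 := h a ha
      have h2 := h b hb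
      have e1 : (-ψ' a)⁻¹ ≤ 1 / μ := by
        rw [← one_div]; exact one_div_le_one_div_of_le hμ (by linarith)
      have e2 : (-ψ' b)⁻¹ ≤ 1 / μ := by
        rw [← one_div]; exact one_div_le_one_div_of_le hμ (by linarith)
      have e3 : 0 < (-ψ' a)⁻¹ := inv_pos.2 (by linarith)
      have e4 : 0 < (-ψ' b)⁻¹ := inv_pos.2 (by linarith)
      rw [inv_neg] at e1 e2 e3 e4
      rw [abs_le]
      constructor <;> linarith
  rcases hs with hs | hs
  · have : ∫ t in a..b, |ψ'' t| / ψ' t ^ 2 = -∫ t in a..b, -ψ'' t / ψ' t ^ 2 := by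
      rw [← intervalIntegral.integral_neg]
      apply intervalIntegral.integral_congr
      intro t ht
      rw [uIcc_of_le hab] at ht
      simp only
      rw [abs_of_nonneg (hs t ht)]
      ring
    rw [this, hFTC]
    have := abs_le.1 hinv
    linarith [this.1]
  · have : ∫ t in a..b, |ψ'' t| / ψ' t ^ 2 = ∫ t in a..b, -ψ'' t / ψ' t ^ 2 := by
      apply intervalIntegral.integral_congr
      intro t ht
      rw [uIcc_of_le hab] at ht
      simp only
      rw [abs_of_nonpos (hs t ht)]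
    rw [this, hFTC]
    have := abs_le.1 hinv
    linarith [this.2]

lemma vdc1_sharp {a b μ G0 G1 : ℝ} (hab : a ≤ b) (hμ : 0 < μ) {ψ ψ' ψ'' : ℝ → ℝ} {g g' : ℝ → ℂ}
    (hψ : ∀ t ∈ Icc a b, HasDerivAt ψ (ψ' t) t) (hψ' : ∀ t ∈ Icc a b, HasDerivAt ψ' (ψ'' t) t)
    (hψ'' : ContinuousOn ψ'' (Icc a b))
    (hs : (∀ t ∈ Icc a b, 0 ≤ ψ'' t) ∨ (∀ t ∈ Icc a b, ψ'' t ≤ 0))
    (hμ' : (∀ t ∈ Icc a b, μ ≤ ψ' t) ∨ (∀ t ∈ Icc a b, ψ' t ≤ -μ))
    (hg : ∀ t ∈ Icc a b, HasDerivAt g (g' t) t) (hg' : ContinuousOn g' (Icc a b))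
    (hG0 : ∀ t ∈ Icc a b, ‖g t‖ ≤ G0) (hG1 : ∫ t in a..b, ‖g' t‖ ≤ G1) :
    ‖∫ t in a..b, g t * Complex.exp (Complex.I * (ψ t : ℝ))‖ ≤ (3 * G0 + G1) / μ := by
  have hG00 : 0 ≤ G0 := (norm_nonneg _).trans (hG0 a (left_mem_Icc.2 hab))
  have habs : ∀ t ∈ Icc a b, μ ≤ |ψ' t| := by
    intro t ht
    rcases hμ' with h | h
    · exact (h t ht).trans (le_abs_self _)
    · have := h t ht
      exact (by linarith : μ ≤ -ψ' t).trans (neg_le_abs _)
  have hne : ∀ t ∈ Icc a b, ψ' t ≠ 0 := by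
    intro t ht h0
    have := habs t ht
    rw [h0, abs_zero] at this
    linarith
  have hne' : ∀ t ∈ Icc a b, Complex.I * (ψ' t : ℂ) ≠ 0 := fun t ht =>
    mul_ne_zero Complex.I_ne_zero (Complex.ofReal_ne_zero.2 (hne t ht))
  have hcψ : ContinuousOn ψ (Icc a b) := fun t ht => (hψ t ht).continuousAt.continuousWithinAt
  have hcψ' : ContinuousOn ψ' (Icc a b) := fun t ht => (hψ' t ht).continuousAt.continuousWithinAt
  have hcg : ContinuousOn g (Icc a b) := fun t ht => (hg t ht).continuousAt.continuousWithinAt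
  have hce : ContinuousOn (fun t => Complex.exp (Complex.I * (ψ t : ℝ))) (Icc a b) :=
    (continuousOn_const.mul (Complex.continuous_ofReal.comp_continuousOn hcψ)).cexp
  have hcI : ContinuousOn (fun t => Complex.I * (ψ' t : ℂ)) (Icc a b) :=
    continuousOn_const.mul (Complex.continuous_ofReal.comp_continuousOn hcψ')
  have hcI2 : ContinuousOn (fun t => Complex.I * (ψ'' t : ℂ)) (Icc a b) :=
    continuousOn_const.mul (Complex.continuous_ofReal.comp_continuousOn hψ'')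
  -- the derivative of `h e`
  have hde : ∀ t ∈ Icc a b, HasDerivAt (fun t => Complex.exp (Complex.I * (ψ t : ℝ)))
      (Complex.exp (Complex.I * (ψ t : ℝ)) * (Complex.I * (ψ' t : ℂ))) t := by
    intro t ht
    have h1 : HasDerivAt (fun t => Complex.I * ((ψ t : ℝ) : ℂ)) (Complex.I * (ψ' t : ℂ)) t :=
      (HasDerivAt.ofReal_comp (hψ t ht)).const_mul Complex.I
    exact h1.cexp
  have hdI : ∀ t ∈ Icc a b, HasDerivAt (fun t => Complex.I * ((ψ' t : ℝ) : ℂ))
      (Complex.I * (ψ'' t : ℂ)) t := fun t ht =>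
    (HasDerivAt.ofReal_comp (hψ' t ht)).const_mul Complex.I
  set h' : ℝ → ℂ := fun t =>
    (g' t * (Complex.I * (ψ' t : ℂ)) - g t * (Complex.I * (ψ'' t : ℂ))) /
      (Complex.I * (ψ' t : ℂ)) ^ 2 with hh'
  have hdh : ∀ t ∈ Icc a b, HasDerivAt (fun t => g t / (Complex.I * ((ψ' t : ℝ) : ℂ))) (h' t) t :=
    fun t ht => (hg t ht).div (hdI t ht) (hne' t ht)
  have hch' : ContinuousOn h' (Icc a b) :=
    ((hg'.mul hcI).sub (hcg.mul hcI2)).div (hcI.pow 2) fun t ht => pow_ne_zero _ (hne' t ht)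
  have hF : ∀ t ∈ Icc a b, HasDerivAt
      (fun t => g t / (Complex.I * ((ψ' t : ℝ) : ℂ)) * Complex.exp (Complex.I * (ψ t : ℝ)))
      (h' t * Complex.exp (Complex.I * (ψ t : ℝ)) +
        g t * Complex.exp (Complex.I * (ψ t : ℝ))) t := by
    intro t ht
    have h1 := (hdh t ht).mul (hde t ht)
    have e1 : g t * Complex.exp (Complex.I * (ψ t : ℝ)) =
        g t / (Complex.I * ((ψ' t : ℝ) : ℂ)) *
          (Complex.exp (Complex.I * (ψ t : ℝ)) * (Complex.I * (ψ' t : ℂ))) := by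
      have h3 := hne' t ht
      rw [div_mul_eq_mul_div, eq_div_iff h3]
      ring
    rw [e1]
    exact h1
  have hI1 : IntervalIntegrable (fun t => h' t * Complex.exp (Complex.I * (ψ t : ℝ))) volume a b := by
    apply ContinuousOn.intervalIntegrable
    rw [uIcc_of_le hab]
    exact hch'.mul hce
  have hI2 : IntervalIntegrable (fun t => g t * Complex.exp (Complex.I * (ψ t : ℝ))) volume a b := by
    apply ContinuousOn.intervalIntegrable
    rw [uIcc_of_le hab]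
    exact hcg.mul hce
  have hFTC := intervalIntegral.integral_eq_sub_of_hasDerivAt (a := a) (b := b)
    (fun t ht => hF t (by rwa [uIcc_of_le hab] at ht)) (hI1.add hI2)
  rw [intervalIntegral.integral_add hI1 hI2] at hFTC
  have hkey : ∫ t in a..b, g t * Complex.exp (Complex.I * (ψ t : ℝ)) =
      g b / (Complex.I * ((ψ' b : ℝ) : ℂ)) * Complex.exp (Complex.I * (ψ b : ℝ)) -
      g a / (Complex.I * ((ψ' a : ℝ) : ℂ)) * Complex.exp (Complex.I * (ψ a : ℝ)) -
      ∫ t in a..b, h' t * Complex.exp (Complex.I * (ψ t : ℝ)) := by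
    rw [← hFTC]; ring
  have hexp : ∀ t, ‖Complex.exp (Complex.I * (ψ t : ℝ))‖ = 1 := by
    intro t
    rw [mul_comm]
    exact Complex.norm_exp_ofReal_mul_I _
  have hbd : ∀ t ∈ Icc a b, ‖g t / (Complex.I * ((ψ' t : ℝ) : ℂ)) *
      Complex.exp (Complex.I * (ψ t : ℝ))‖ ≤ G0 / μ := by
    intro t ht
    rw [norm_mul, hexp, mul_one, norm_div, norm_mul, Complex.norm_I, one_mul, Complex.norm_real,
      Real.norm_eq_abs]
    have := hG0 t ht
    have := habs t ht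
    gcongr
  have hb3 : ‖∫ t in a..b, h' t * Complex.exp (Complex.I * (ψ t : ℝ))‖ ≤ (G0 + G1) / μ := by
    have hIg : IntervalIntegrable (fun t => ‖g' t‖) volume a b := by
      apply ContinuousOn.intervalIntegrable
      rw [uIcc_of_le hab]
      exact hg'.norm
    have hIv : IntervalIntegrable (fun t => |ψ'' t| / ψ' t ^ 2) volume a b := by
      apply ContinuousOn.intervalIntegrable
      rw [uIcc_of_le hab]
      exact hψ''.abs.div (hcψ'.pow 2) fun t ht => pow_ne_zero _ (hne t ht)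
    have h1 : ∀ t ∈ Icc a b, ‖h' t * Complex.exp (Complex.I * (ψ t : ℝ))‖ ≤
        ‖g' t‖ * (1 / μ) + G0 * (|ψ'' t| / ψ' t ^ 2) := by
      intro t ht
      rw [norm_mul, hexp, mul_one]
      have hn := hne t ht
      have e1 : h' t = g' t / (Complex.I * (ψ' t : ℂ)) -
          g t * (Complex.I * (ψ'' t : ℂ)) / (Complex.I * (ψ' t : ℂ)) ^ 2 := by
        have := hne' t ht
        rw [hh']
        simp only
        field_simp
      rw [e1]
      refine (norm_sub_le _ _).trans ?_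
      gcongr
      · rw [norm_div, norm_mul, Complex.norm_I, one_mul, Complex.norm_real, Real.norm_eq_abs,
          div_eq_mul_one_div]
        have := habs t ht
        gcongr
      · rw [norm_div, norm_mul, norm_mul, norm_pow, norm_mul, Complex.norm_I, one_mul, one_mul,
          Complex.norm_real, Complex.norm_real, Real.norm_eq_abs, Real.norm_eq_abs, sq_abs,
          mul_div_assoc]
        have := hG0 t ht
        gcongr
    calc ‖∫ t in a..b, h' t * Complex.exp (Complex.I * (ψ t : ℝ))‖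
        ≤ ∫ t in a..b, ‖h' t * Complex.exp (Complex.I * (ψ t : ℝ))‖ :=
          intervalIntegral.norm_integral_le_integral_norm hab
      _ ≤ ∫ t in a..b, (‖g' t‖ * (1 / μ) + G0 * (|ψ'' t| / ψ' t ^ 2)) :=
          intervalIntegral.integral_mono_on hab hI1.norm
            ((hIg.mul_const _).add (hIv.const_mul _)) h1
      _ = (∫ t in a..b, ‖g' t‖) * (1 / μ) + G0 * ∫ t in a..b, |ψ'' t| / ψ' t ^ 2 := by
          rw [intervalIntegral.integral_add (hIg.mul_const _) (hIv.const_mul _),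
            intervalIntegral.integral_mul_const, intervalIntegral.integral_const_mul]
      _ ≤ G1 * (1 / μ) + G0 * (1 / μ) := by
          have := vdc_var hab hμ hψ' hψ'' hs hμ'
          gcongr
      _ = (G0 + G1) / μ := by ring
  rw [hkey]
  calc _ ≤ G0 / μ + G0 / μ + (G0 + G1) / μ := by
        refine (norm_sub_le _ _).trans ?_
        gcongr
        exact (norm_sub_le _ _).trans
          (add_le_add (hbd b (right_mem_Icc.2 hab)) (hbd a (left_mem_Icc.2 hab)))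
    _ = (3 * G0 + G1) / μ := by ring

theorem vdc1 {a b μ G0 G1 : ℝ} (hab : a ≤ b) (hμ : 0 < μ) {ψ ψ' ψ'' : ℝ → ℝ} {g g' : ℝ → ℂ}
    (hψ : ∀ t ∈ Icc a b, HasDerivAt ψ (ψ' t) t) (hψ' : ∀ t ∈ Icc a b, HasDerivAt ψ' (ψ'' t) t)
    (hψ'' : ContinuousOn ψ'' (Icc a b))
    (hs : (∀ t ∈ Icc a b, 0 ≤ ψ'' t) ∨ (∀ t ∈ Icc a b, ψ'' t ≤ 0))
    (hμ' : (∀ t ∈ Icc a b, μ ≤ ψ' t) ∨ (∀ t ∈ Icc a b, ψ' t ≤ -μ))
    (hg : ∀ t ∈ Icc a b, HasDerivAt g (g' t) t) (hg' : ContinuousOn g' (Icc a b))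
    (hG0 : ∀ t ∈ Icc a b, ‖g t‖ ≤ G0) (hG1 : ∫ t in a..b, ‖g' t‖ ≤ G1) :
    ‖∫ t in a..b, g t * Complex.exp (Complex.I * (ψ t : ℝ))‖ ≤ 4 * (G0 + G1) / μ := by
  have hG00 : 0 ≤ G0 := (norm_nonneg _).trans (hG0 a (left_mem_Icc.2 hab))
  have hG10 : 0 ≤ G1 := by
    refine le_trans ?_ hG1
    exact intervalIntegral.integral_nonneg hab fun t _ => norm_nonneg _
  refine (vdc1_sharp hab hμ hψ hψ' hψ'' hs hμ' hg hg' hG0 hG1).trans ?_
  gcongr
  linarith

lemma vdc_cut {a b l : ℝ} (hab : a ≤ b) {f : ℝ → ℝ} (hc : ContinuousOn f (Icc a b))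
    (hm : ∀ s ∈ Icc a b, ∀ t ∈ Icc a b, s ≤ t → f s ≤ f t) :
    ∃ c ∈ Icc a b, (c = a ∨ ∀ t ∈ Icc a c, f t ≤ l) ∧ (c = b ∨ ∀ t ∈ Icc c b, l ≤ f t) := by
  by_cases h1 : f b ≤ l
  · exact ⟨b, right_mem_Icc.2 hab, Or.inr fun t ht =>
      (hm t ht b (right_mem_Icc.2 hab) ht.2).trans h1, Or.inl rfl⟩
  by_cases h2 : l ≤ f a
  · exact ⟨a, left_mem_Icc.2 hab, Or.inl rfl, Or.inr fun t ht =>
      h2.trans (hm a (left_mem_Icc.2 hab) t ht ht.1)⟩
  push Not at h1 h2
  obtain ⟨c, hc1, hc2⟩ := intermediate_value_Icc hab hc ⟨h2.le, h1.le⟩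
  refine ⟨c, hc1, Or.inr fun t ht => ?_, Or.inr fun t ht => ?_⟩
  · rw [← hc2]
    exact hm t ⟨ht.1, ht.2.trans hc1.2⟩ c hc1 ht.2
  · rw [← hc2]
    exact hm c hc1 t ⟨hc1.1.trans ht.1, ht.2⟩ ht.1

lemma vdc2_pos {a b μ G0 G1 : ℝ} (hab : a ≤ b) (hμ : 0 < μ) {ψ ψ' ψ'' : ℝ → ℝ} {g g' : ℝ → ℂ}
    (hψ : ∀ t ∈ Icc a b, HasDerivAt ψ (ψ' t) t) (hψ' : ∀ t ∈ Icc a b, HasDerivAt ψ' (ψ'' t) t)
    (hψ'' : ContinuousOn ψ'' (Icc a b))
    (hs : ∀ t ∈ Icc a b, μ ≤ ψ'' t)
    (hg : ∀ t ∈ Icc a b, HasDerivAt g (g' t) t) (hg' : ContinuousOn g' (Icc a b))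
    (hG0 : ∀ t ∈ Icc a b, ‖g t‖ ≤ G0) (hG1 : ∫ t in a..b, ‖g' t‖ ≤ G1) :
    ‖∫ t in a..b, g t * Complex.exp (Complex.I * (ψ t : ℝ))‖ ≤ 8 * (G0 + G1) / √μ := by
  have hG00 : 0 ≤ G0 := (norm_nonneg _).trans (hG0 a (left_mem_Icc.2 hab))
  have hG10 : 0 ≤ G1 := by
    refine le_trans ?_ hG1
    exact intervalIntegral.integral_nonneg hab fun t _ => norm_nonneg _
  have hρ : 0 < √μ := Real.sqrt_pos.2 hμ
  have hρ2 : √μ * √μ = μ := Real.mul_self_sqrt hμ.le
  have hcψ : ContinuousOn ψ (Icc a b) := fun t ht => (hψ t ht).continuousAt.continuousWithinAt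
  have hcψ' : ContinuousOn ψ' (Icc a b) := fun t ht => (hψ' t ht).continuousAt.continuousWithinAt
  have hcg : ContinuousOn g (Icc a b) := fun t ht => (hg t ht).continuousAt.continuousWithinAt
  have hce : ContinuousOn (fun t => Complex.exp (Complex.I * (ψ t : ℝ))) (Icc a b) :=
    (continuousOn_const.mul (Complex.continuous_ofReal.comp_continuousOn hcψ)).cexp
  -- slope
  have hslope : ∀ s ∈ Icc a b, ∀ t ∈ Icc a b, s ≤ t → μ * (t - s) ≤ ψ' t - ψ' s := by
    intro s hs1 t ht1 hst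
    have h1 : ∫ u in s..t, ψ'' u = ψ' t - ψ' s := by
      apply intervalIntegral.integral_eq_sub_of_hasDerivAt
      · intro u hu
        rw [uIcc_of_le hst] at hu
        exact hψ' u ⟨hs1.1.trans hu.1, hu.2.trans ht1.2⟩
      · apply ContinuousOn.intervalIntegrable
        rw [uIcc_of_le hst]
        exact hψ''.mono (Icc_subset_Icc hs1.1 ht1.2)
    rw [← h1]
    have h2 : ∫ _u in s..t, μ = μ * (t - s) := by
      rw [intervalIntegral.integral_const, smul_eq_mul, mul_comm]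
    rw [← h2]
    apply intervalIntegral.integral_mono_on hst
    · exact intervalIntegrable_const
    · apply ContinuousOn.intervalIntegrable
      rw [uIcc_of_le hst]
      exact hψ''.mono (Icc_subset_Icc hs1.1 ht1.2)
    · intro u hu
      exact hs u ⟨hs1.1.trans hu.1, hu.2.trans ht1.2⟩
  have hmono : ∀ s ∈ Icc a b, ∀ t ∈ Icc a b, s ≤ t → ψ' s ≤ ψ' t := by
    intro s hs1 t ht1 hst
    have := hslope s hs1 t ht1 hst
    have h2 : 0 ≤ μ * (t - s) := mul_nonneg hμ.le (by linarith)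
    linarith
  obtain ⟨c1, hc1, hc1a, hc1b⟩ := vdc_cut (l := -√μ) hab hcψ' hmono
  have hsub1 : Icc c1 b ⊆ Icc a b := Icc_subset_Icc_left hc1.1
  obtain ⟨c2, hc2, hc2a, hc2b⟩ := vdc_cut (l := √μ) hc1.2 (hcψ'.mono hsub1)
    fun s hs1 t ht1 => hmono s (hsub1 hs1) t (hsub1 ht1)
  have hc2' : c2 ∈ Icc a b := hsub1 hc2
  have hsuba : Icc a c1 ⊆ Icc a b := Icc_subset_Icc_right hc1.2
  have hsubb : Icc c2 b ⊆ Icc a b := Icc_subset_Icc_left hc2'.1
  have hsubm : Icc c1 c2 ⊆ Icc a b := Icc_subset_Icc hc1.1 hc2'.2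
  -- pieces of the integral of g'
  have hIg : ∀ s t, s ≤ t → Icc s t ⊆ Icc a b →
      IntervalIntegrable (fun t => ‖g' t‖) volume s t := by
    intro s t hst hsub
    apply ContinuousOn.intervalIntegrable
    rw [uIcc_of_le hst]
    exact (hg'.mono hsub).norm
  have hIF : ∀ s t, s ≤ t → Icc s t ⊆ Icc a b →
      IntervalIntegrable (fun t => g t * Complex.exp (Complex.I * (ψ t : ℝ))) volume s t := by
    intro s t hst hsub
    apply ContinuousOn.intervalIntegrable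
    rw [uIcc_of_le hst]
    exact (hcg.mul hce).mono hsub
  have hG1' : (∫ t in a..c1, ‖g' t‖) + ∫ t in c2..b, ‖g' t‖ ≤ G1 := by
    have e1 := intervalIntegral.integral_add_adjacent_intervals (hIg a c1 hc1.1 hsuba)
      (hIg c1 c2 hc2.1 hsubm)
    have e2 := intervalIntegral.integral_add_adjacent_intervals
      ((hIg a c1 hc1.1 hsuba).trans (hIg c1 c2 hc2.1 hsubm)) (hIg c2 b hc2.2 hsubb)
    have e3 : 0 ≤ ∫ t in c1..c2, ‖g' t‖ :=
      intervalIntegral.integral_nonneg hc2.1 fun t _ => norm_nonneg _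
    linarith
  have hA : ‖∫ t in a..c1, g t * Complex.exp (Complex.I * (ψ t : ℝ))‖ ≤
      (3 * G0 + ∫ t in a..c1, ‖g' t‖) / √μ := by
    rcases hc1a with h | h
    · rw [h]
      simp only [intervalIntegral.integral_same, norm_zero]
      positivity
    · exact vdc1_sharp hc1.1 hρ (fun t ht => hψ t (hsuba ht)) (fun t ht => hψ' t (hsuba ht))
        (hψ''.mono hsuba) (Or.inl fun t ht => hμ.le.trans (hs t (hsuba ht))) (Or.inr h)
        (fun t ht => hg t (hsuba ht)) (hg'.mono hsuba) (fun t ht => hG0 t (hsuba ht)) le_rfl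
  have hB : ‖∫ t in c2..b, g t * Complex.exp (Complex.I * (ψ t : ℝ))‖ ≤
      (3 * G0 + ∫ t in c2..b, ‖g' t‖) / √μ := by
    rcases hc2b with h | h
    · rw [h]
      simp only [intervalIntegral.integral_same, norm_zero]
      positivity
    · exact vdc1_sharp hc2.2 hρ (fun t ht => hψ t (hsubb ht)) (fun t ht => hψ' t (hsubb ht))
        (hψ''.mono hsubb) (Or.inl fun t ht => hμ.le.trans (hs t (hsubb ht))) (Or.inl h)
        (fun t ht => hg t (hsubb ht)) (hg'.mono hsubb) (fun t ht => hG0 t (hsubb ht)) le_rfl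
  have hlen : c2 - c1 ≤ 2 / √μ := by
    rcases eq_or_lt_of_le hc2.1 with h | h
    · rw [← h, sub_self]
      positivity
    · have h1 : -√μ ≤ ψ' c1 := by
        rcases hc1b with h' | h'
        · exact absurd h' (by intro h''; rw [h''] at h; exact absurd hc2.2 (not_le.2 h))
        · exact h' c1 (left_mem_Icc.2 hc1.2)
      have h2 : ψ' c2 ≤ √μ := by
        rcases hc2a with h' | h'
        · exact absurd h' h.ne'
        · exact h' c2 (right_mem_Icc.2 hc2.1)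
      have h3 := hslope c1 hc1 c2 hc2' hc2.1
      rw [le_div_iff₀ hρ]
      by_contra h4
      push Not at h4
      nlinarith
  have hM : ‖∫ t in c1..c2, g t * Complex.exp (Complex.I * (ψ t : ℝ))‖ ≤ 2 * G0 / √μ := by
    have h1 : ‖∫ t in c1..c2, g t * Complex.exp (Complex.I * (ψ t : ℝ))‖ ≤ G0 * |c2 - c1| := by
      apply intervalIntegral.norm_integral_le_of_norm_le_const
      intro t ht
      rw [uIoc_of_le hc2.1] at ht
      rw [norm_mul]
      have e1 : ‖Complex.exp (Complex.I * (ψ t : ℝ))‖ = 1 := by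
        rw [mul_comm]
        exact Complex.norm_exp_ofReal_mul_I _
      rw [e1, mul_one]
      exact hG0 t (hsubm ⟨ht.1.le, ht.2⟩)
    rw [abs_of_nonneg (by linarith [hc2.1])] at h1
    calc _ ≤ G0 * (c2 - c1) := h1
      _ ≤ G0 * (2 / √μ) := by gcongr
      _ = 2 * G0 / √μ := by ring
  have hsplit : ∫ t in a..b, g t * Complex.exp (Complex.I * (ψ t : ℝ)) =
      (∫ t in a..c1, g t * Complex.exp (Complex.I * (ψ t : ℝ))) +
      (∫ t in c1..c2, g t * Complex.exp (Complex.I * (ψ t : ℝ))) +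
      ∫ t in c2..b, g t * Complex.exp (Complex.I * (ψ t : ℝ)) := by
    rw [intervalIntegral.integral_add_adjacent_intervals (hIF a c1 hc1.1 hsuba)
      (hIF c1 c2 hc2.1 hsubm), intervalIntegral.integral_add_adjacent_intervals
      ((hIF a c1 hc1.1 hsuba).trans (hIF c1 c2 hc2.1 hsubm)) (hIF c2 b hc2.2 hsubb)]
  rw [hsplit]
  refine (norm_add_le _ _).trans ?_
  refine (add_le_add (norm_add_le _ _) le_rfl).trans ?_
  refine (add_le_add (add_le_add hA hM) hB).trans ?_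
  rw [← add_div, ← add_div]
  gcongr
  linarith

theorem vdc2 {a b μ G0 G1 : ℝ} (hab : a ≤ b) (hμ : 0 < μ) {ψ ψ' ψ'' : ℝ → ℝ} {g g' : ℝ → ℂ}
    (hψ : ∀ t ∈ Icc a b, HasDerivAt ψ (ψ' t) t) (hψ' : ∀ t ∈ Icc a b, HasDerivAt ψ' (ψ'' t) t)
    (hψ'' : ContinuousOn ψ'' (Icc a b))
    (hs : (∀ t ∈ Icc a b, μ ≤ ψ'' t) ∨ (∀ t ∈ Icc a b, ψ'' t ≤ -μ))
    (hg : ∀ t ∈ Icc a b, HasDerivAt g (g' t) t) (hg' : ContinuousOn g' (Icc a b))
    (hG0 : ∀ t ∈ Icc a b, ‖g t‖ ≤ G0) (hG1 : ∫ t in a..b, ‖g' t‖ ≤ G1) :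
    ‖∫ t in a..b, g t * Complex.exp (Complex.I * (ψ t : ℝ))‖ ≤ 8 * (G0 + G1) / √μ := by
  rcases hs with hs | hs
  · exact vdc2_pos hab hμ hψ hψ' hψ'' hs hg hg' hG0 hG1
  · -- conjugate
    have h1 := vdc2_pos (ψ := fun t => -ψ t) (ψ' := fun t => -ψ' t) (ψ'' := fun t => -ψ'' t)
      (g := fun t => starRingEnd ℂ (g t)) (g' := fun t => starRingEnd ℂ (g' t))
      (G0 := G0) (G1 := G1) hab hμ (fun t ht => (hψ t ht).neg) (fun t ht => (hψ' t ht).neg) hψ''.neg
      (fun t ht => by have := hs t ht; linarith)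
      (fun t ht => (hg t ht).star) (by exact continuous_star.comp_continuousOn hg')
      (fun t ht => by rw [RCLike.norm_conj]; exact hG0 t ht)
      (by simpa only [RCLike.norm_conj] using hG1)
    have h2 : ∫ t in a..b, starRingEnd ℂ (g t) * Complex.exp (Complex.I * ((-ψ t : ℝ) : ℝ)) =
        starRingEnd ℂ (∫ t in a..b, g t * Complex.exp (Complex.I * (ψ t : ℝ))) := by
      have h3 : starRingEnd ℂ (∫ t in a..b, g t * Complex.exp (Complex.I * (ψ t : ℝ))) =
          ∫ t in a..b, starRingEnd ℂ (g t * Complex.exp (Complex.I * (ψ t : ℝ))) := by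
        rw [intervalIntegral.integral_of_le hab, intervalIntegral.integral_of_le hab]
        exact integral_conj.symm
      rw [h3]
      apply intervalIntegral.integral_congr
      intro t _
      simp only [map_mul, ← Complex.exp_conj, Complex.conj_I, Complex.conj_ofReal]
      congr 2
      push_cast
      ring
    rw [h2, RCLike.norm_conj] at h1
    exact h1

end Pool.Agent.BK
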