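import Pool.Agent.BK.KDefs
import Pool.Agent.BK.Vdc

/-! BK module KER1: elementary facts on the cutoff and bounds for the one-dimensional kernel `kz`.

`chi b` is smooth, `0 ≤ chi ≤ 1`, even, supported in `{cos θ ≥ b/16}`, i.e. (in `[-π, π]`) in
`[-θ₁, θ₁]`, `θ₁ = arccos(b/16) < π/2`, so `kz` is an integral over `[-θ₁, θ₁]`. The phase
`ψ(θ) = xθ - t(2 - 2cos θ)` has `ψ' = x - 2t sin θ`, `ψ'' = -2t cos θ ≤ -t b/8` there.
(kz_le) vdc2 with `μ = t b/8`. (kz_far) if `|x| ≥ 2 t s₁` then `|ψ'| ≥ 2t(s₁ - √(1-(b/16)²)) ≥ c t` and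
vdc1 applies. The constants depend on `b` only. (kz_one) trivial bound `1`. -/

open MeasureTheory Set

noncomputable section

namespace Pool.Agent.BK

lemma contDiff_chi (b : ℝ) {n : ℕ∞} : ContDiff ℝ n (chi b) := by
  unfold chi
  exact Real.smoothTransition.contDiff.comp
    ((Real.contDiff_cos.sub contDiff_const).div_const _)

lemma chi_nonneg (b θ : ℝ) : 0 ≤ chi b θ := Real.smoothTransition.nonneg _

lemma chi_le_one (b θ : ℝ) : chi b θ ≤ 1 := Real.smoothTransition.le_one _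

lemma chi_zero {b θ : ℝ} (hb : 0 < b) (h : Real.cos θ ≤ b / 16) : chi b θ = 0 := by
  refine Real.smoothTransition.zero_of_nonpos ?_
  exact div_nonpos_of_nonpos_of_nonneg (by linarith) (by positivity)

lemma chi_one {b θ : ℝ} (hb : 0 < b) (h : b / 8 ≤ Real.cos θ) : chi b θ = 1 := by
  refine Real.smoothTransition.one_of_one_le ?_
  rw [le_div_iff₀ (by positivity)]
  linarith

/-- The phase. -/
def Ker1_psi (t x θ : ℝ) : ℝ := x * θ - t * (2 - 2 * Real.cos θ)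

lemma Ker1_psi_deriv (t x θ : ℝ) :
    HasDerivAt (Ker1_psi t x) (x - 2 * t * Real.sin θ) θ := by
  have h1 : HasDerivAt (fun θ : ℝ => x * θ - t * (2 - 2 * Real.cos θ))
      (x * 1 - t * (0 - 2 * (-Real.sin θ))) θ :=
    ((hasDerivAt_id θ).const_mul x).sub
      (((hasDerivAt_const θ (2 : ℝ)).sub ((Real.hasDerivAt_cos θ).const_mul 2)).const_mul t)
  have e : x * 1 - t * (0 - 2 * (-Real.sin θ)) = x - 2 * t * Real.sin θ := by ring
  rw [e] at h1
  exact h1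

lemma Ker1_psi_deriv2 (t x θ : ℝ) :
    HasDerivAt (fun θ : ℝ => x - 2 * t * Real.sin θ) (-(2 * t * Real.cos θ)) θ := by
  have h1 : HasDerivAt (fun θ : ℝ => x - 2 * t * Real.sin θ) (0 - 2 * t * Real.cos θ) θ :=
    (hasDerivAt_const θ x).sub ((Real.hasDerivAt_sin θ).const_mul (2 * t))
  have e : 0 - 2 * t * Real.cos θ = -(2 * t * Real.cos θ) := by ring
  rw [e] at h1
  exact h1

/-- The endpoint `θ₁ = arccos (b/16)`. -/
def Ker1_th (b : ℝ) : ℝ := Real.arccos (b / 16)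

lemma Ker1_th_nonneg (b : ℝ) : 0 ≤ Ker1_th b := Real.arccos_nonneg _

lemma Ker1_th_le (b : ℝ) : Ker1_th b ≤ Real.pi := Real.arccos_le_pi _

lemma Ker1_cos_th {b : ℝ} (hb : 0 < b) (hb1 : b ≤ 1) : Real.cos (Ker1_th b) = b / 16 :=
  Real.cos_arccos (by linarith) (by linarith)

/-- `cos θ ≥ b/16` on `[-θ₁, θ₁]`. -/
lemma Ker1_cos_ge {b : ℝ} (hb : 0 < b) (hb1 : b ≤ 1) {θ : ℝ}
    (h : θ ∈ Icc (-Ker1_th b) (Ker1_th b)) : b / 16 ≤ Real.cos θ := by
  rw [← Ker1_cos_th hb hb1, ← Real.cos_abs θ]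
  exact Real.cos_le_cos_of_nonneg_of_le_pi (abs_nonneg _) (Ker1_th_le b) (abs_le.2 ⟨h.1, h.2⟩)

lemma Ker1_cos_le {b : ℝ} (hb : 0 < b) (hb1 : b ≤ 1) {θ : ℝ} (h : Ker1_th b ≤ |θ|)
    (h2 : |θ| ≤ Real.pi) : Real.cos θ ≤ b / 16 := by
  rw [← Ker1_cos_th hb hb1, ← Real.cos_abs θ]
  exact Real.cos_le_cos_of_nonneg_of_le_pi (Ker1_th_nonneg b) h2 h

/-- Reduction of the domain of integration to `[-θ₁, θ₁]`. -/
lemma Ker1_cut {b : ℝ} (hb : 0 < b) (hb1 : b ≤ 1) {g F : ℝ → ℂ} (hg : Continuous g)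
    (hF : Continuous F) (hs : ∀ θ, Real.cos θ ≤ b / 16 → g θ = 0) :
    ∫ θ in (-Real.pi)..Real.pi, g θ * F θ = ∫ θ in (-Ker1_th b)..(Ker1_th b), g θ * F θ := by
  have hc : Continuous fun θ => g θ * F θ := hg.mul hF
  have hi : ∀ a c : ℝ, IntervalIntegrable (fun θ => g θ * F θ) volume a c :=
    fun a c => hc.intervalIntegrable a c
  have h0 := Ker1_th_nonneg b
  have h1 := Ker1_th_le b
  rw [← intervalIntegral.integral_add_adjacent_intervals (hi (-Real.pi) (-Ker1_th b))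
      (hi (-Ker1_th b) Real.pi),
    ← intervalIntegral.integral_add_adjacent_intervals (hi (-Ker1_th b) (Ker1_th b))
      (hi (Ker1_th b) Real.pi)]
  have e1 : ∫ θ in (-Real.pi)..(-Ker1_th b), g θ * F θ = 0 := by
    rw [intervalIntegral.integral_congr (g := fun _ => (0 : ℂ))]
    · simp
    · intro θ hθ
      rw [uIcc_of_le (by linarith)] at hθ
      have h2 : |θ| = -θ := abs_of_nonpos (by linarith [hθ.2])
      have := hs θ (Ker1_cos_le hb hb1 (by rw [h2]; linarith [hθ.2]) (by rw [h2]; linarith [hθ.1]))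
      simp [this]
  have e2 : ∫ θ in (Ker1_th b)..Real.pi, g θ * F θ = 0 := by
    rw [intervalIntegral.integral_congr (g := fun _ => (0 : ℂ))]
    · simp
    · intro θ hθ
      rw [uIcc_of_le (by linarith)] at hθ
      have h2 : |θ| = θ := abs_of_nonneg (by linarith [hθ.1])
      have := hs θ (Ker1_cos_le hb hb1 (by rw [h2]; exact hθ.1) (by rw [h2]; exact hθ.2))
      simp [this]
  rw [e1, e2]
  simp

/-- `∫ ‖g'‖` over `[-θ₁, θ₁]`. -/
lemma Ker1_G1 {b G : ℝ} {g' : ℝ → ℂ}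
    (hG : ∀ θ ∈ Icc (-Real.pi) Real.pi, ‖g' θ‖ ≤ G) :
    ∫ θ in (-Ker1_th b)..(Ker1_th b), ‖g' θ‖ ≤ 2 * Real.pi * G := by
  have h0 := Ker1_th_nonneg b
  have h1 := Ker1_th_le b
  have hG0 : 0 ≤ G := (norm_nonneg _).trans (hG 0 ⟨by linarith [Real.pi_pos], Real.pi_pos.le⟩)
  have h2 : ‖∫ θ in (-Ker1_th b)..(Ker1_th b), ‖g' θ‖‖ ≤ G * |Ker1_th b - -Ker1_th b| := by
    refine intervalIntegral.norm_integral_le_of_norm_le_const fun θ hθ => ?_
    rw [uIoc_of_le (by linarith)] at hθ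
    rw [norm_norm]
    exact hG θ ⟨by linarith [hθ.1], by linarith [hθ.2]⟩
  have h3 : |Ker1_th b - -Ker1_th b| ≤ 2 * Real.pi := by
    rw [abs_of_nonneg (by linarith)]; linarith
  calc _ ≤ ‖∫ θ in (-Ker1_th b)..(Ker1_th b), ‖g' θ‖‖ := Real.le_norm_self _
    _ ≤ G * |Ker1_th b - -Ker1_th b| := h2
    _ ≤ G * (2 * Real.pi) := by gcongr
    _ = _ := by ring

lemma Ker1_exp_cont (t x : ℝ) : Continuous fun θ : ℝ =>
    Complex.exp (Complex.I * ((x * θ - t * (2 - 2 * Real.cos θ) : ℝ) : ℂ)) := by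
  fun_prop

lemma kz_one (b t x : ℝ) : ‖kz b t x‖ ≤ 1 := by
  unfold kz
  have hpi := Real.pi_pos
  have h1 : ‖∫ θ in (-Real.pi)..Real.pi,
      (chi b θ : ℂ) * Complex.exp (Complex.I * ((x * θ - t * (2 - 2 * Real.cos θ) : ℝ) : ℂ))‖ ≤
      1 * |Real.pi - -Real.pi| := by
    refine intervalIntegral.norm_integral_le_of_norm_le_const fun θ _ => ?_
    rw [norm_mul, mul_comm Complex.I, Complex.norm_exp_ofReal_mul_I, mul_one, Complex.norm_real,
      Real.norm_of_nonneg (chi_nonneg _ _)]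
    exact chi_le_one _ _
  rw [norm_smul, Real.norm_of_nonneg (by positivity)]
  rw [abs_of_nonneg (by linarith)] at h1
  calc _ ≤ 1 / (2 * Real.pi) * (1 * (Real.pi - -Real.pi)) := by gcongr
    _ = 1 := by field_simp; ring

/-- A general amplitude version: `∫ g(θ) e^{iψ(θ)} dθ` over `[-π, π]` for `C¹` amplitudes supported in
`{cos θ ≥ b/16}`. -/
theorem osc_le {b : ℝ} (hb : 0 < b) (hb1 : b ≤ 1) :
    ∃ C : ℝ, 0 < C ∧ ∀ (t x G : ℝ) (g g' : ℝ → ℂ), 1 ≤ t → (∀ θ, HasDerivAt g (g' θ) θ) →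
      Continuous g' → (∀ θ, Real.cos θ ≤ b / 16 → g θ = 0) → (∀ θ ∈ Icc (-Real.pi) Real.pi, ‖g θ‖ ≤ G) →
      (∀ θ ∈ Icc (-Real.pi) Real.pi, ‖g' θ‖ ≤ G) →
      ‖∫ θ in (-Real.pi)..Real.pi, g θ *
        Complex.exp (Complex.I * ((x * θ - t * (2 - 2 * Real.cos θ) : ℝ) : ℂ))‖ ≤ C * G / √t := by
  have hpi := Real.pi_pos
  refine ⟨8 * (1 + 2 * Real.pi) / √(b / 8), by positivity, ?_⟩
  intro t x G g g' ht hg hg' hs hG hG'
  have ht0 : 0 < t := by linarith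
  have h0 := Ker1_th_nonneg b
  have h1 := Ker1_th_le b
  have hgc : Continuous g := continuous_iff_continuousAt.2 fun θ => (hg θ).continuousAt
  rw [Ker1_cut hb hb1 hgc (Ker1_exp_cont t x) hs]
  have hv := vdc2 (a := -Ker1_th b) (b := Ker1_th b) (μ := t * b / 8) (G0 := G)
    (G1 := 2 * Real.pi * G) (by linarith) (by positivity)
    (ψ := Ker1_psi t x) (ψ' := fun θ => x - 2 * t * Real.sin θ)
    (ψ'' := fun θ => -(2 * t * Real.cos θ)) (g := g) (g' := g')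
    (fun θ _ => Ker1_psi_deriv t x θ) (fun θ _ => Ker1_psi_deriv2 t x θ)
    (by fun_prop) (Or.inr fun θ hθ => by
      have := Ker1_cos_ge hb hb1 hθ
      nlinarith)
    (fun θ _ => hg θ) hg'.continuousOn
    (fun θ hθ => hG θ ⟨by linarith [hθ.1], by linarith [hθ.2]⟩)
    (Ker1_G1 hG')
  have e : √(t * b / 8) = √t * √(b / 8) := by
    rw [← Real.sqrt_mul ht0.le]; congr 1; ring
  rw [e] at hv
  have hst : 0 < √t := Real.sqrt_pos.2 ht0
  have hsb : 0 < √(b / 8) := Real.sqrt_pos.2 (by positivity)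
  have e2 : 8 * (G + 2 * Real.pi * G) / (√t * √(b / 8)) =
      8 * (1 + 2 * Real.pi) / √(b / 8) * G / √t := by
    field_simp
  rw [e2] at hv
  exact hv

/-- The amplitude version of the far bound. -/
theorem Ker1_far {b : ℝ} (hb : 0 < b) (hb1 : b ≤ 1) :
    ∃ C : ℝ, 0 < C ∧ ∀ (t x G : ℝ) (g g' : ℝ → ℂ), 1 ≤ t → 2 * t * s1 b ≤ |x| →
      (∀ θ, HasDerivAt g (g' θ) θ) →
      Continuous g' → (∀ θ, Real.cos θ ≤ b / 16 → g θ = 0) → (∀ θ ∈ Icc (-Real.pi) Real.pi, ‖g θ‖ ≤ G) →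
      (∀ θ ∈ Icc (-Real.pi) Real.pi, ‖g' θ‖ ≤ G) →
      ‖∫ θ in (-Real.pi)..Real.pi, g θ *
        Complex.exp (Complex.I * ((x * θ - t * (2 - 2 * Real.cos θ) : ℝ) : ℂ))‖ ≤ C * G / t := by
  have hpi := Real.pi_pos
  -- the gap
  obtain ⟨c, hc⟩ : ∃ c : ℝ, c = s1 b - √(1 - (b / 16) ^ 2) := ⟨_, rfl⟩
  have hc0 : 0 < c := by
    rw [hc, s1, sub_pos]
    refine Real.sqrt_lt_sqrt ?_ ?_
    · nlinarith
    · nlinarith
  refine ⟨4 * (1 + 2 * Real.pi) / (2 * c), by positivity, ?_⟩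
  intro t x G g g' ht hx hg hg' hs hG hG'
  have ht0 : 0 < t := by linarith
  have h0 := Ker1_th_nonneg b
  have h1 := Ker1_th_le b
  have hgc : Continuous g := continuous_iff_continuousAt.2 fun θ => (hg θ).continuousAt
  rw [Ker1_cut hb hb1 hgc (Ker1_exp_cont t x) hs]
  have hsin : ∀ θ ∈ Icc (-Ker1_th b) (Ker1_th b), |Real.sin θ| ≤ √(1 - (b / 16) ^ 2) := by
    intro θ hθ
    have h2 := Ker1_cos_ge hb hb1 hθ
    refine Real.abs_le_sqrt ?_
    have h3 := Real.sin_sq_add_cos_sq θ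
    nlinarith
  have hv := vdc1 (a := -Ker1_th b) (b := Ker1_th b) (μ := t * (2 * c)) (G0 := G)
    (G1 := 2 * Real.pi * G) (by linarith) (by positivity)
    (ψ := Ker1_psi t x) (ψ' := fun θ => x - 2 * t * Real.sin θ)
    (ψ'' := fun θ => -(2 * t * Real.cos θ)) (g := g) (g' := g')
    (fun θ _ => Ker1_psi_deriv t x θ) (fun θ _ => Ker1_psi_deriv2 t x θ)
    (by fun_prop) (Or.inr fun θ hθ => by
      have := Ker1_cos_ge hb hb1 hθ
      have h2 : 0 ≤ Real.cos θ := by linarith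
      have h3 : 0 ≤ 2 * t * Real.cos θ := by positivity
      linarith)
    (by
      rcases le_or_gt 0 x with hx0 | hx0
      · left
        intro θ hθ
        rw [abs_of_nonneg hx0] at hx
        have h2 := le_trans (le_abs_self _) (hsin θ hθ)
        rw [hc]
        nlinarith
      · right
        intro θ hθ
        rw [abs_of_neg hx0] at hx
        have h2 := le_trans (neg_abs_le _ |> fun h => neg_le.1 h) (hsin θ hθ)
        rw [hc]
        nlinarith)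
    (fun θ _ => hg θ) hg'.continuousOn
    (fun θ hθ => hG θ ⟨by linarith [hθ.1], by linarith [hθ.2]⟩)
    (Ker1_G1 hG')
  have e2 : 4 * (G + 2 * Real.pi * G) / (t * (2 * c)) =
      4 * (1 + 2 * Real.pi) / (2 * c) * G / t := by
    field_simp
  rw [e2] at hv
  exact hv

/-- Data of the amplitude `chi`. -/
lemma Ker1_chi_data (b : ℝ) (hb : 0 < b) : ∃ G : ℝ, 0 < G ∧
    (∀ θ, HasDerivAt (fun θ => (chi b θ : ℂ)) ((deriv (chi b) θ : ℝ) : ℂ) θ) ∧
    Continuous (fun θ => ((deriv (chi b) θ : ℝ) : ℂ)) ∧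
    (∀ θ, Real.cos θ ≤ b / 16 → (chi b θ : ℂ) = 0) ∧
    (∀ θ ∈ Icc (-Real.pi) Real.pi, ‖(chi b θ : ℂ)‖ ≤ G) ∧
    (∀ θ ∈ Icc (-Real.pi) Real.pi, ‖((deriv (chi b) θ : ℝ) : ℂ)‖ ≤ G) := by
  have hd : Differentiable ℝ (chi b) :=
    (contDiff_chi b (n := 1)).differentiable (by norm_num)
  have hcd : Continuous (deriv (chi b)) := (contDiff_chi b (n := 1)).continuous_deriv (by norm_num)
  have hcd' : Continuous (fun θ => ((deriv (chi b) θ : ℝ) : ℂ)) :=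
    Complex.continuous_ofReal.comp hcd
  obtain ⟨K, hK⟩ := isCompact_Icc.exists_bound_of_continuousOn
    (s := Icc (-Real.pi) Real.pi) hcd'.continuousOn
  refine ⟨max 1 K, by positivity, fun θ => (hd θ).hasDerivAt.ofReal_comp, hcd', ?_, ?_, ?_⟩
  · intro θ h
    rw [chi_zero hb h]; simp
  · intro θ _
    rw [Complex.norm_real, Real.norm_of_nonneg (chi_nonneg _ _)]
    exact (chi_le_one _ _).trans (le_max_left _ _)
  · intro θ h
    exact (hK θ h).trans (le_max_right _ _)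

theorem kz_le {b : ℝ} (hb : 0 < b) (hb1 : b ≤ 1) :
    ∃ C : ℝ, 0 < C ∧ ∀ t x : ℝ, 1 ≤ t → ‖kz b t x‖ ≤ C / √t := by
  obtain ⟨C, hC, h⟩ := osc_le hb hb1
  obtain ⟨G, hG, h1, h2, h3, h4, h5⟩ := Ker1_chi_data b hb
  have hpi := Real.pi_pos
  refine ⟨1 / (2 * Real.pi) * (C * G), by positivity, fun t x ht => ?_⟩
  have h6 := h t x G _ _ ht h1 h2 h3 h4 h5
  unfold kz
  rw [norm_smul, Real.norm_of_nonneg (by positivity), mul_div_assoc]
  gcongr

theorem kz_far {b : ℝ} (hb : 0 < b) (hb1 : b ≤ 1) :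
    ∃ C : ℝ, 0 < C ∧ ∀ t x : ℝ, 1 ≤ t → 2 * t * s1 b ≤ |x| → ‖kz b t x‖ ≤ C / t := by
  obtain ⟨C, hC, h⟩ := Ker1_far hb hb1
  obtain ⟨G, hG, h1, h2, h3, h4, h5⟩ := Ker1_chi_data b hb
  have hpi := Real.pi_pos
  refine ⟨1 / (2 * Real.pi) * (C * G), by positivity, fun t x ht hx => ?_⟩
  have h6 := h t x G _ _ ht hx h1 h2 h3 h4 h5
  unfold kz
  rw [norm_smul, Real.norm_of_nonneg (by positivity), mul_div_assoc]
  gcongr

end Pool.Agent.BK
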