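import Pool.Agent.BK.Dft
import Pool.Agent.BK.Ker1

/-! BK module FBA: decomposition of the symbol of the free resolvent into time blocks.
(TF_blk) `TF (i Chi fblk ζ T)` has entries `i blk ζ T (y - x)`: interchange of a finite sum and an
integral; `∏_l kn b n t (x_l) = (2n+1)^{-d} ∑_q Chi(q) e^{-i t omg q} ch q x` (`stdAddChar_eq`).
(Rsym_le) with `2^J > γ^{-2}/2`, `γ = Im ζ ∈ (0, 1]`, `b ≤ Re ζ ≤ 2 - b`:
`i ∫_a^c e^{i(ζ-omg)t} dt = (e^{i(ζ-omg)a} - e^{i(ζ-omg)c})/(omg - ζ)`, so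
`Rsym = (1 - Chi)/(omg - ζ) + Chi (1 - e^{i(ζ-omg)})/(omg - ζ) + Chi e^{i(ζ-omg)2^J}/(omg - ζ)`:
where `Chi < 1` some `cos(ang q_l) < b/8`, so `omg ≥ 2 - b/4` and `|omg - ζ| ≥ 3b/4`; the second term is
`Chi · i∫_0^1 e^{i(ζ-omg)t} dt`, of modulus `≤ 1`; the third is `≤ e^{-γ 2^J}/γ ≤ e^{-1/(2γ)}/γ ≤ C`. -/

open MeasureTheory Finset Matrix

noncomputable section

namespace Pool.Agent.BK

/-- the product of the one-dimensional kernels as a sum over the dual torus -/
lemma prod_kn {d n : ℕ} (b t : ℝ) (x : Tor d n) :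
    ∏ l, kn b n t (x l) = (1 / (2 * n + 1 : ℂ) ^ d) * ∑ q : Tor d n, (Chi b q : ℂ) *
      Complex.exp (-(Complex.I * (omg q : ℂ)) * (t : ℂ)) * ch q x := by
  have h1 : ∀ l, kn b n t (x l) = (1 / (2 * n + 1 : ℂ)) * ∑ q : ZMod (2 * n + 1),
      ((chi b (ang n q) : ℂ) * Complex.exp (-(Complex.I * ((2 - 2 * Real.cos (ang n q) : ℝ) : ℂ))
        * (t : ℂ)) * (ZMod.stdAddChar (q * x l) : ℂ)) := by
    intro l
    unfold kn
    rw [Complex.real_smul]
    congr 1
    · push_cast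
      rfl
    · refine Finset.sum_congr rfl fun q _ => ?_
      rw [stdAddChar_eq, mul_assoc, ← Complex.exp_add]
      congr 2
      push_cast
      ring
  simp only [h1]
  rw [Finset.prod_mul_distrib, Finset.prod_const, Finset.card_univ, Fintype.card_fin,
    Finset.prod_univ_sum, Fintype.piFinset_univ]
  congr 1
  · rw [one_div, one_div, inv_pow]
  · refine Finset.sum_congr rfl fun q _ => ?_
    rw [Finset.prod_mul_distrib, Finset.prod_mul_distrib, ← Complex.exp_sum]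
    unfold Chi ch omg
    push_cast
    congr 3
    rw [← Finset.sum_mul, Finset.sum_neg_distrib, ← Finset.mul_sum]

lemma TF_blk {d n : ℕ} (b T : ℝ) (ζ : ℂ) (x y : Tor d n) :
    TF (fun q => Complex.I * (Chi b q : ℂ) * fblk ζ T q) x y = Complex.I * blk b ζ T (y - x) := by
  unfold TF blk fblk
  simp only [prod_kn]
  have h2 : ∀ q : Tor d n, IntervalIntegrable (fun t : ℝ => (1 / (2 * n + 1 : ℂ) ^ d) *
      ((Chi b q : ℂ) * ch q (y - x) *
        Complex.exp (Complex.I * (ζ - (omg q : ℂ)) * (t : ℂ)))) volume T (2 * T) := by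
    intro q
    apply Continuous.intervalIntegrable
    fun_prop
  have h3 : ∀ t : ℝ, Complex.exp (Complex.I * ζ * (t : ℂ)) * ((1 / (2 * n + 1 : ℂ) ^ d) *
      ∑ q : Tor d n, (Chi b q : ℂ) * Complex.exp (-(Complex.I * (omg q : ℂ)) * (t : ℂ)) *
        ch q (y - x)) = ∑ q : Tor d n, (1 / (2 * n + 1 : ℂ) ^ d) * ((Chi b q : ℂ) * ch q (y - x) *
          Complex.exp (Complex.I * (ζ - (omg q : ℂ)) * (t : ℂ))) := by
    intro t
    rw [Finset.mul_sum, Finset.mul_sum]
    refine Finset.sum_congr rfl fun q _ => ?_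
    have : Complex.exp (Complex.I * (ζ - (omg q : ℂ)) * (t : ℂ)) =
        Complex.exp (Complex.I * ζ * (t : ℂ)) *
          Complex.exp (-(Complex.I * (omg q : ℂ)) * (t : ℂ)) := by
      rw [← Complex.exp_add]
      congr 1
      ring
    rw [this]
    ring
  simp only [h3]
  rw [intervalIntegral.integral_finsetSum (fun q _ => h2 q), Finset.mul_sum, Finset.mul_sum]
  refine Finset.sum_congr rfl fun q _ => ?_
  rw [intervalIntegral.integral_const_mul, intervalIntegral.integral_const_mul]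
  ring

/-- The remainder symbol. -/
def Rsym (b : ℝ) {d n : ℕ} (ζ : ℂ) (J : ℕ) (q : Tor d n) : ℂ :=
  1 / ((omg q : ℂ) - ζ) - ∑ j ∈ Finset.range J, Complex.I * (Chi b q : ℂ) * fblk ζ (2 ^ j) q

lemma Chi_nonneg (b : ℝ) {d n : ℕ} (q : Tor d n) : 0 ≤ Chi b q :=
  Finset.prod_nonneg fun _ _ => chi_nonneg _ _

lemma Chi_le_one (b : ℝ) {d n : ℕ} (q : Tor d n) : Chi b q ≤ 1 :=
  Finset.prod_le_one (fun _ _ => chi_nonneg _ _) fun _ _ => chi_le_one _ _

lemma norm_exp_sub_one_le_of_re {a : ℂ} (ha : a.re ≤ 0) : ‖1 - Complex.exp a‖ ≤ ‖a‖ := by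
  have h := (convex_halfSpace_re_le (0 : ℝ)).norm_image_sub_le_of_norm_hasDerivWithin_le
    (f := Complex.exp) (f' := Complex.exp) (C := 1) (x := a) (y := 0)
    (fun x _ => (Complex.hasDerivAt_exp x).hasDerivWithinAt)
    (fun x hx => by
      rw [Complex.norm_exp]
      exact Real.exp_le_one_iff.2 hx) ha (by simp)
  simpa using h

lemma sum_fblk {d n : ℕ} (ζ : ℂ) (J : ℕ) (q : Tor d n) :
    ∑ j ∈ Finset.range J, fblk ζ (2 ^ j) q =
      ∫ t in (1 : ℝ)..(2 ^ J), Complex.exp (Complex.I * (ζ - (omg q : ℂ)) * (t : ℂ)) := by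
  induction J with
  | zero => simp
  | succ J ih =>
    rw [Finset.sum_range_succ, ih]
    unfold fblk
    rw [show (2 : ℝ) * 2 ^ J = 2 ^ (J + 1) by ring]
    apply intervalIntegral.integral_add_adjacent_intervals
    · apply Continuous.intervalIntegrable
      fun_prop
    · apply Continuous.intervalIntegrable
      fun_prop

theorem Rsym_le {b : ℝ} (hb : 0 < b) (hb1 : b ≤ 1) (d : ℕ) :
    ∃ C : ℝ, 0 < C ∧ ∀ (n : ℕ) (ζ : ℂ) (J : ℕ) (q : Tor d n), b ≤ ζ.re → ζ.re ≤ 2 - b →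
      0 < ζ.im → ζ.im ≤ 1 → ζ.im ^ (-(2 : ℝ)) < 2 ^ (J + 1) → ‖Rsym b ζ J q‖ ≤ C := by
  refine ⟨4 / (3 * b) + 1 + 2, by positivity, fun n ζ J q h1 h2 h3 h4 h5 => ?_⟩
  set γ := ζ.im with hγ
  set a : ℂ := Complex.I * (ζ - (omg q : ℂ)) with ha
  have hre : a.re = -γ := by
    simp [ha, hγ]
  have hne : (omg q : ℂ) - ζ ≠ 0 := by
    intro h
    have := congrArg Complex.im h
    simp at this
    linarith
  have ha0 : a ≠ 0 := by
    rw [ha]
    refine mul_ne_zero Complex.I_ne_zero (fun h => hne ?_)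
    rw [← neg_sub, h, neg_zero]
  have hnorm : ‖a‖ = ‖(omg q : ℂ) - ζ‖ := by
    rw [ha, norm_mul, Complex.norm_I, one_mul, norm_sub_rev]
  have hint : ∫ t in (1 : ℝ)..(2 ^ J), Complex.exp (a * (t : ℂ)) =
      (Complex.exp (a * ((2 ^ J : ℝ) : ℂ)) - Complex.exp a) / a := by
    rw [integral_exp_mul_complex ha0]
    simp
  have hR : Rsym b ζ J q = (1 - (Chi b q : ℂ)) / ((omg q : ℂ) - ζ) +
      (Chi b q : ℂ) * (1 - Complex.exp a) / ((omg q : ℂ) - ζ) +
      (Chi b q : ℂ) * Complex.exp (a * ((2 ^ J : ℝ) : ℂ)) / ((omg q : ℂ) - ζ) := by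
    unfold Rsym
    rw [← Finset.mul_sum, sum_fblk, ← ha, hint]
    have h6 : Complex.I * (Chi b q : ℂ) *
        ((Complex.exp (a * ((2 ^ J : ℝ) : ℂ)) - Complex.exp a) / a) =
        -((Chi b q : ℂ) * (Complex.exp (a * ((2 ^ J : ℝ) : ℂ)) - Complex.exp a) /
          ((omg q : ℂ) - ζ)) := by
      have h7 : a = -(Complex.I * ((omg q : ℂ) - ζ)) := by rw [ha]; ring
      rw [h7]
      field_simp
    rw [h6]
    field_simp
    ring
  have hC0 := Chi_nonneg b q
  have hC1 := Chi_le_one b q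
  have hγle : γ ≤ ‖(omg q : ℂ) - ζ‖ := by
    have := Complex.abs_im_le_norm ((omg q : ℂ) - ζ)
    simp only [Complex.sub_im, Complex.ofReal_im, zero_sub, abs_neg] at this
    exact (le_abs_self _).trans this
  have hpos : 0 < ‖(omg q : ℂ) - ζ‖ := norm_pos_iff.2 hne
  -- first term
  have t1 : ‖(1 - (Chi b q : ℂ)) / ((omg q : ℂ) - ζ)‖ ≤ 4 / (3 * b) := by
    by_cases hc : Chi b q = 1
    · rw [hc]
      simp only [Complex.ofReal_one, sub_self, zero_div, norm_zero]
      positivity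
    · obtain ⟨l, hl⟩ : ∃ l, chi b (ang n (q l)) ≠ 1 := by
        by_contra hcon
        push Not at hcon
        exact hc (by unfold Chi; exact Finset.prod_eq_one fun l _ => hcon l)
      have hcos : Real.cos (ang n (q l)) < b / 8 := by
        by_contra hcon
        exact hl (chi_one hb (not_lt.1 hcon))
      have hom : 2 - b / 4 ≤ omg q := by
        have : (2 - 2 * Real.cos (ang n (q l))) ≤ omg q :=
          Finset.single_le_sum (f := fun l => (2 - 2 * Real.cos (ang n (q l))))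
            (fun i _ => by linarith [Real.cos_le_one (ang n (q i))]) (Finset.mem_univ l)
        linarith
      have hge : 3 * b / 4 ≤ ‖(omg q : ℂ) - ζ‖ := by
        have := Complex.abs_re_le_norm ((omg q : ℂ) - ζ)
        simp only [Complex.sub_re, Complex.ofReal_re] at this
        refine le_trans ?_ ((le_abs_self _).trans this)
        linarith
      rw [norm_div]
      have hn1 : ‖1 - (Chi b q : ℂ)‖ ≤ 1 := by
        rw [← Complex.ofReal_one, ← Complex.ofReal_sub, Complex.norm_real, Real.norm_eq_abs,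
          abs_of_nonneg (by linarith)]
        linarith
      calc ‖1 - (Chi b q : ℂ)‖ / ‖(omg q : ℂ) - ζ‖ ≤ 1 / (3 * b / 4) := by
            apply div_le_div₀ (by norm_num) hn1 (by positivity) hge
        _ = 4 / (3 * b) := by field_simp
  have nChi : ‖(Chi b q : ℂ)‖ ≤ 1 := by
    rw [Complex.norm_real, Real.norm_eq_abs, abs_of_nonneg hC0]
    exact hC1
  have t2 : ‖(Chi b q : ℂ) * (1 - Complex.exp a) / ((omg q : ℂ) - ζ)‖ ≤ 1 := by
    rw [norm_div, norm_mul, div_le_one hpos, ← hnorm]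
    calc ‖(Chi b q : ℂ)‖ * ‖1 - Complex.exp a‖ ≤ 1 * ‖a‖ :=
          mul_le_mul nChi (norm_exp_sub_one_le_of_re (by rw [hre]; linarith)) (norm_nonneg _)
            zero_le_one
      _ = ‖a‖ := one_mul _
  have t3 : ‖(Chi b q : ℂ) * Complex.exp (a * ((2 ^ J : ℝ) : ℂ)) / ((omg q : ℂ) - ζ)‖ ≤ 2 := by
    rw [norm_div, norm_mul, Complex.norm_exp]
    have hre2 : (a * ((2 ^ J : ℝ) : ℂ)).re = -(γ * 2 ^ J) := by
      rw [Complex.mul_re, Complex.ofReal_re, Complex.ofReal_im, mul_zero, sub_zero, hre]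
      ring
    rw [hre2]
    set u := 1 / (2 * γ) with hu
    have hupos : 0 < u := by positivity
    have hγJ : u ≤ γ * 2 ^ J := by
      have h8 : γ ^ (-(2 : ℝ)) = 1 / γ ^ 2 := by
        rw [Real.rpow_neg h3.le, one_div]
        congr 1
        exact_mod_cast Real.rpow_natCast γ 2
      rw [h8, show (2 : ℝ) ^ (J + 1) = 2 ^ J * 2 by ring, div_lt_iff₀ (by positivity)] at h5
      rw [hu, div_le_iff₀ (by positivity)]
      nlinarith
    have hexp : Real.exp (-(γ * 2 ^ J)) ≤ 1 / u := by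
      have h9 : u ≤ Real.exp (γ * 2 ^ J) :=
        hγJ.trans ((by linarith : γ * 2 ^ J ≤ γ * 2 ^ J + 1).trans (Real.add_one_le_exp _))
      rw [Real.exp_neg, ← one_div]
      exact one_div_le_one_div_of_le hupos h9
    calc ‖(Chi b q : ℂ)‖ * Real.exp (-(γ * 2 ^ J)) / ‖(omg q : ℂ) - ζ‖
        ≤ (1 * (1 / u)) / γ := by
          apply div_le_div₀ (by positivity) _ h3 hγle
          exact mul_le_mul nChi hexp (Real.exp_pos _).le zero_le_one
      _ = 2 := by
          rw [hu]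
          field_simp
  rw [hR]
  refine (norm_add_le _ _).trans (add_le_add ((norm_add_le _ _).trans (add_le_add t1 t2)) t3)

end Pool.Agent.BK
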