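import Pool.Agent.BK.FBa
import Pool.Agent.BK.TorK
import Pool.Agent.BK.TorL2

/-! BK module FBB: `∑_y |M_xy|³ ≤ C γ^{-ε}` for the free resolvent `M = TF (1/(omg - ζ))` (`Gr_eq_TF`).
Choose `J` with `2^J ≤ γ^{-2} < 2^{J+1}`; `M = TF Rsym + ∑_{j<J} M_j`, `M_j = TF (i Chi fblk ζ 2^j)`,
`|M_j(x,y)| = |blk ζ 2^j (y-x)| ≤ C 2^{-j}` (`TF_blk`, `blk_le`: `T = 2^j ≤ γ^{-2}`, `T⁴ ≤ γ^{-8} ≤ 2n+1`),
`∑_y |M_j(x,y)|² = (2n+1)^{-d} ∑ Chi² |fblk|² ≤ C 2^j` (`parseval`, `0 ≤ Chi ≤ 1`, `sum_fblk_le`), hence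
`∑_y|M_j|³ ≤ C`; `∑_y |TF Rsym|³ ≤ sup · ∑|.|² ≤ C³` (`norm_TF_le`, `parseval`). Power mean inequality:
`∑|M|³ ≤ C (J+1)³ ≤ C_ε γ^{-ε}` as `J ≤ 2 log₂(1/γ)`. -/

open MeasureTheory Finset Matrix

noncomputable section

namespace Pool.Agent.BK

/-- a pointwise bound and a square bound give a cube bound -/
private lemma fbb_cube {ι : Type} [Fintype ι] (f : ι → ℂ) {A B : ℝ} (hf : ∀ y, ‖f y‖ ≤ A)
    (hf2 : ∑ y, ‖f y‖ ^ 2 ≤ B) (hA : 0 ≤ A) : ∑ y, ‖f y‖ ^ 3 ≤ A * B := by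
  calc ∑ y, ‖f y‖ ^ 3 ≤ ∑ y, A * ‖f y‖ ^ 2 := by
        refine Finset.sum_le_sum fun y _ => ?_
        have : ‖f y‖ ^ 3 = ‖f y‖ * ‖f y‖ ^ 2 := by ring
        rw [this]
        exact mul_le_mul_of_nonneg_right (hf y) (by positivity)
    _ = A * ∑ y, ‖f y‖ ^ 2 := by rw [Finset.mul_sum]
    _ ≤ A * B := mul_le_mul_of_nonneg_left hf2 hA

/-- power mean inequality for cubes of norms of sums -/
private lemma fbb_pm (f : ℕ → ℂ) (N : ℕ) :
    ‖∑ j ∈ Finset.range N, f j‖ ^ 3 ≤ (N : ℝ) ^ 2 * ∑ j ∈ Finset.range N, ‖f j‖ ^ 3 := by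
  rcases Nat.eq_zero_or_pos N with h0 | h0
  · subst h0
    simp
  · have h1 := pow_sum_div_card_le_sum_pow (s := Finset.range N) (f := fun j => ‖f j‖)
      (fun i _ => norm_nonneg _) 2
    rw [Finset.card_range, div_le_iff₀ (by positivity)] at h1
    calc ‖∑ j ∈ Finset.range N, f j‖ ^ 3 ≤ (∑ j ∈ Finset.range N, ‖f j‖) ^ 3 :=
          pow_le_pow_left₀ (norm_nonneg _) (norm_sum_le _ _) 3
      _ ≤ _ := by rw [mul_comm]; exact h1

private lemma TF_sum' {d n : ℕ} (F : ℕ → Tor d n → ℂ) (N : ℕ) (x y : Tor d n) :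
    TF (fun q => ∑ j ∈ Finset.range N, F j q) x y = ∑ j ∈ Finset.range N, TF (F j) x y := by
  unfold TF
  rw [← Finset.mul_sum]
  congr 1
  rw [Finset.sum_comm]
  refine Finset.sum_congr rfl fun q _ => ?_
  rw [Finset.sum_mul]

private lemma fbb_n0 {d : ℕ} {ζ : ℂ} (h1 : 0 < ζ.im) (h2 : ζ.im ≤ 1)
    (h3 : ζ.im ^ (-(10 : ℝ)) ≤ 2 * ((0 : ℕ) : ℝ) + 1) (x : Tor d 0) :
    ∑ y, ‖Gr (H0 d 0) 0 ζ x y‖ ^ 3 ≤ 1 := by
  have him : ζ.im = 1 := by
    by_contra hne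
    have hlt : ζ.im < 1 := lt_of_le_of_ne h2 hne
    have : 1 < ζ.im ^ (-(10 : ℝ)) := Real.one_lt_rpow_of_pos_of_lt_one_of_neg h1 hlt (by norm_num)
    rw [Nat.cast_zero, mul_zero, zero_add] at h3
    exact absurd h3 (not_le.2 this)
  have : Subsingleton (ZMod (2 * 0 + 1)) := by
    show Subsingleton (ZMod 1)
    infer_instance
  have hss : Subsingleton (Tor d 0) := inferInstance
  have hζ0 : ζ ≠ 0 := by
    intro h
    rw [h] at h1
    simp at h1
  have hH : H0 d 0 = 0 := by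
    ext a c
    have hac : a = c := Subsingleton.elim _ _
    unfold H0
    subst hac
    have e1 : ∀ j : Fin d, a = a + Pi.single j 1 := fun j => Subsingleton.elim _ _
    have e2 : ∀ j : Fin d, a = a - Pi.single j 1 := fun j => Subsingleton.elim _ _
    have e3 : ∀ j : Fin d, ((if a = a + Pi.single j 1 then (1 : ℂ) else 0) +
        (if a = a - Pi.single j 1 then (1 : ℂ) else 0)) = 2 := by
      intro j
      rw [if_pos (e1 j), if_pos (e2 j)]
      norm_num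
    simp only [if_true, e3]
    simp
    ring
  have hG : Gr (H0 d 0) 0 ζ = (-ζ⁻¹) • (1 : Matrix (Tor d 0) (Tor d 0) ℂ) := by
    unfold Gr
    rw [hH]
    apply Matrix.inv_eq_right_inv
    have h0 : Matrix.diagonal (fun x : Tor d 0 => (((0 : Tor d 0 → ℝ) x : ℝ) : ℂ)) = 0 := by
      simp
    rw [h0, zero_add, zero_sub, Matrix.neg_mul, Matrix.smul_mul, Matrix.one_mul, smul_smul]
    rw [mul_neg, mul_inv_cancel₀ hζ0]
    simp
  have hn : 1 ≤ ‖ζ‖ := by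
    have := Complex.abs_im_le_norm ζ
    rw [him, abs_one] at this
    exact this
  have hle : ∀ y, ‖Gr (H0 d 0) 0 ζ x y‖ ^ 3 ≤ 1 := by
    intro y
    have hxy : x = y := Subsingleton.elim _ _
    rw [hG, Matrix.smul_apply, hxy, Matrix.one_apply_eq, smul_eq_mul, mul_one, norm_neg, norm_inv]
    exact pow_le_one₀ (by positivity) (inv_le_one_of_one_le₀ hn)
  have hcard : Fintype.card (Tor d 0) ≤ 1 := Fintype.card_le_one_iff_subsingleton.2 hss
  calc ∑ y, ‖Gr (H0 d 0) 0 ζ x y‖ ^ 3 ≤ ∑ _y : Tor d 0, (1 : ℝ) :=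
        Finset.sum_le_sum fun y _ => hle y
    _ = Fintype.card (Tor d 0) := by simp
    _ ≤ 1 := by exact_mod_cast hcard

theorem fb3 {b : ℝ} (hb : 0 < b) (hb1 : b ≤ 1) {d : ℕ} (hd : 3 ≤ d) {ε : ℝ} (hε : 0 < ε) :
    ∃ C : ℝ, 0 < C ∧ ∀ (ζ : ℂ) (n : ℕ), b ≤ ζ.re → ζ.re ≤ 2 - b →
      0 < ζ.im → ζ.im ≤ 1 → ζ.im ^ (-(10 : ℝ)) ≤ 2 * n + 1 →
      ∀ x, ∑ y, ‖Gr (H0 d n) 0 ζ x y‖ ^ 3 ≤ C * ζ.im ^ (-ε) := by
  obtain ⟨C1, hC1, hblk⟩ := blk_le hb hb1 hd
  obtain ⟨C2, hC2, hsum⟩ := sum_fblk_le hb hb1 hd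
  obtain ⟨C3, hC3, hR⟩ := Rsym_le hb hb1 d
  set C4 : ℝ := C1 * C2 + C3 ^ 3 with hC4
  have hC4p : 0 < C4 := by positivity
  set K : ℝ := 1 + 2 / Real.log 2 * (3 / ε) with hK
  have hlog2 : 0 < Real.log 2 := Real.log_pos (by norm_num)
  have hKp : 1 ≤ K := by
    rw [hK]
    have : 0 ≤ 2 / Real.log 2 * (3 / ε) := by positivity
    linarith
  refine ⟨C4 * K ^ 3 + 1, by positivity, ?_⟩
  intro ζ n h1 h2 h3 h4 h5 x
  set γ := ζ.im with hγ
  have hge1 : 1 ≤ γ ^ (-ε) := Real.one_le_rpow_of_pos_of_le_one_of_nonpos h3 h4 (by linarith)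
  rcases Nat.eq_zero_or_pos n with hn0 | hn
  · subst hn0
    have := fbb_n0 (d := d) h3 h4 h5 x
    refine this.trans ?_
    have : 1 ≤ C4 * K ^ 3 + 1 := by
      have : 0 ≤ C4 * K ^ 3 := by positivity
      linarith
    calc (1 : ℝ) = 1 * 1 := by ring
      _ ≤ _ := mul_le_mul this hge1 zero_le_one (by linarith)
  -- the number of blocks
  have hg2 : 1 ≤ γ ^ (-(2 : ℝ)) :=
    Real.one_le_rpow_of_pos_of_le_one_of_nonpos h3 h4 (by norm_num)
  obtain ⟨J, hJ1, hJ2⟩ := exists_nat_pow_near hg2 (by norm_num : (1 : ℝ) < 2)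
  have hn1 : (1 : ℝ) ≤ 2 * n + 1 := by
    have : (0 : ℝ) ≤ n := Nat.cast_nonneg n
    linarith
  have hTn : ∀ j ∈ Finset.range J, ((2 : ℝ) ^ j) ^ 4 ≤ 2 * n + 1 := by
    intro j hj
    have hj' : j ≤ J := (Finset.mem_range.1 hj).le
    have e1 : (2 : ℝ) ^ j ≤ γ ^ (-(2 : ℝ)) :=
      (pow_le_pow_right₀ (by norm_num) hj').trans hJ1
    calc ((2 : ℝ) ^ j) ^ 4 ≤ (γ ^ (-(2 : ℝ))) ^ 4 := pow_le_pow_left₀ (by positivity) e1 4
      _ = γ ^ (-(8 : ℝ)) := by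
          rw [← Real.rpow_natCast, ← Real.rpow_mul h3.le]
          norm_num
      _ ≤ γ ^ (-(10 : ℝ)) := Real.rpow_le_rpow_of_exponent_ge h3 h4 (by norm_num)
      _ ≤ _ := h5
  -- the pieces
  set F : ℕ → Tor d n → ℂ := fun j q =>
    if j < J then Complex.I * (Chi b q : ℂ) * fblk ζ (2 ^ j) q else Rsym b ζ J q with hF
  have hsplit : (fun q : Tor d n => 1 / ((omg q : ℂ) - ζ)) =
      fun q => ∑ j ∈ Finset.range (J + 1), F j q := by
    funext q
    rw [Finset.sum_range_succ]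
    have e1 : ∑ j ∈ Finset.range J, F j q =
        ∑ j ∈ Finset.range J, Complex.I * (Chi b q : ℂ) * fblk ζ (2 ^ j) q := by
      refine Finset.sum_congr rfl fun j hj => ?_
      rw [hF]
      simp only
      rw [if_pos (Finset.mem_range.1 hj)]
    rw [e1]
    have e2 : F J q = Rsym b ζ J q := by
      rw [hF]
      simp only
      rw [if_neg (lt_irrefl J)]
    rw [e2]
    unfold Rsym
    ring
  have hM : ∀ y, Gr (H0 d n) 0 ζ x y = ∑ j ∈ Finset.range (J + 1), TF (F j) x y := by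
    intro y
    rw [Gr_eq_TF hn h3, hsplit, TF_sum']
  -- bound of the pieces
  have hpiece : ∀ j ∈ Finset.range (J + 1), ∑ y, ‖TF (F j) x y‖ ^ 3 ≤ C4 := by
    intro j hj
    rcases lt_or_ge j J with hjJ | hjJ
    · have hFj : F j = fun q => Complex.I * (Chi b q : ℂ) * fblk ζ (2 ^ j) q := by
        funext q
        rw [hF]
        simp only
        rw [if_pos hjJ]
      have hT1 : (1 : ℝ) ≤ 2 ^ j := one_le_pow₀ (by norm_num)
      have hT4 := hTn j (Finset.mem_range.2 hjJ)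
      have a1 : ∀ y, ‖TF (F j) x y‖ ≤ C1 / 2 ^ j := by
        intro y
        rw [hFj, TF_blk, norm_mul, Complex.norm_I, one_mul]
        exact hblk n (2 ^ j) ζ (y - x) hT1 hT4 h1 h3.le
      have a2 : ∑ y, ‖TF (F j) x y‖ ^ 2 ≤ C2 * 2 ^ j := by
        rw [parseval]
        refine le_trans ?_ (hsum n (2 ^ j) ζ hT1 hT4 h3.le)
        refine mul_le_mul_of_nonneg_left ?_ (by positivity)
        refine Finset.sum_le_sum fun q _ => ?_
        rw [hFj]
        simp only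
        rw [norm_mul, norm_mul, Complex.norm_I, one_mul, Complex.norm_real, Real.norm_eq_abs,
          abs_of_nonneg (Chi_nonneg b q), mul_pow]
        refine mul_le_mul_of_nonneg_right ?_ (by positivity)
        have c0 := Chi_nonneg b q
        have c1 := Chi_le_one b q
        nlinarith
      have a3 := fbb_cube (fun y => TF (F j) x y) a1 a2 (by positivity)
      refine a3.trans ?_
      have : C1 / 2 ^ j * (C2 * 2 ^ j) = C1 * C2 := by
        field_simp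
      rw [this, hC4]
      have : 0 ≤ C3 ^ 3 := by positivity
      linarith
    · have hFj : F j = fun q => Rsym b ζ J q := by
        funext q
        rw [hF]
        simp only
        rw [if_neg (not_lt.2 hjJ)]
      have b0 : ∀ q : Tor d n, ‖Rsym b ζ J q‖ ≤ C3 := fun q => hR n ζ J q h1 h2 h3 h4 hJ2
      have b1 : ∀ y, ‖TF (F j) x y‖ ≤ C3 := by
        intro y
        rw [hFj]
        exact norm_TF_le b0 x y
      have b2 : ∑ y, ‖TF (F j) x y‖ ^ 2 ≤ C3 ^ 2 := by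
        rw [parseval, hFj]
        have hN : (0 : ℝ) < (2 * n + 1 : ℝ) ^ d := by positivity
        have hcard : (Fintype.card (Tor d n) : ℝ) = (2 * n + 1 : ℝ) ^ d := by
          rw [Fintype.card_fun, Fintype.card_fin, ZMod.card]
          push_cast
          ring
        calc 1 / (2 * n + 1 : ℝ) ^ d * ∑ q : Tor d n, ‖Rsym b ζ J q‖ ^ 2
            ≤ 1 / (2 * n + 1 : ℝ) ^ d * ∑ _q : Tor d n, C3 ^ 2 := by
              refine mul_le_mul_of_nonneg_left ?_ (by positivity)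
              exact Finset.sum_le_sum fun q _ => pow_le_pow_left₀ (norm_nonneg _) (b0 q) 2
          _ = C3 ^ 2 := by
              rw [Finset.sum_const, Finset.card_univ, nsmul_eq_mul, hcard]
              field_simp
      have b3 := fbb_cube (fun y => TF (F j) x y) b1 b2 hC3.le
      refine b3.trans ?_
      have : C3 * C3 ^ 2 = C3 ^ 3 := by ring
      rw [this, hC4]
      have : 0 ≤ C1 * C2 := by positivity
      linarith
  -- sum
  have hmain : ∑ y, ‖Gr (H0 d n) 0 ζ x y‖ ^ 3 ≤ C4 * ((J : ℝ) + 1) ^ 3 := by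
    calc ∑ y, ‖Gr (H0 d n) 0 ζ x y‖ ^ 3
        ≤ ∑ y, ((J + 1 : ℕ) : ℝ) ^ 2 * ∑ j ∈ Finset.range (J + 1), ‖TF (F j) x y‖ ^ 3 := by
          refine Finset.sum_le_sum fun y _ => ?_
          rw [hM y]
          exact fbb_pm _ _
      _ = ((J + 1 : ℕ) : ℝ) ^ 2 * ∑ j ∈ Finset.range (J + 1), ∑ y, ‖TF (F j) x y‖ ^ 3 := by
          rw [← Finset.mul_sum, Finset.sum_comm]
      _ ≤ ((J + 1 : ℕ) : ℝ) ^ 2 * ∑ _j ∈ Finset.range (J + 1), C4 := by
          refine mul_le_mul_of_nonneg_left (Finset.sum_le_sum hpiece) (by positivity)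
      _ = C4 * ((J : ℝ) + 1) ^ 3 := by
          rw [Finset.sum_const, Finset.card_range, nsmul_eq_mul]
          push_cast
          ring
  -- number of blocks
  have hJle : (J : ℝ) + 1 ≤ K * γ ^ (-(ε / 3)) := by
    have hge3 : 1 ≤ γ ^ (-(ε / 3)) :=
      Real.one_le_rpow_of_pos_of_le_one_of_nonpos h3 h4 (by linarith)
    have l1 : (J : ℝ) * Real.log 2 ≤ 2 * Real.log (1 / γ) := by
      have := Real.log_le_log (by positivity) hJ1
      rw [Real.log_pow, Real.log_rpow h3] at this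
      rw [one_div, Real.log_inv]
      linarith
    have l2 : Real.log (1 / γ) ≤ (1 / γ) ^ (ε / 3) / (ε / 3) :=
      Real.log_le_rpow_div (by positivity) (by positivity)
    have l3 : (1 / γ) ^ (ε / 3) = γ ^ (-(ε / 3)) := by
      rw [one_div, Real.inv_rpow h3.le, Real.rpow_neg h3.le]
    rw [l3] at l2
    have l4 : (J : ℝ) ≤ 2 / Real.log 2 * (3 / ε) * γ ^ (-(ε / 3)) := by
      have : (J : ℝ) ≤ 2 * (γ ^ (-(ε / 3)) / (ε / 3)) / Real.log 2 := by
        rw [le_div_iff₀ hlog2]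
        linarith
      refine this.trans (le_of_eq ?_)
      field_simp
    rw [hK, add_mul, one_mul]
    linarith
  have hcube : ((J : ℝ) + 1) ^ 3 ≤ K ^ 3 * γ ^ (-ε) := by
    calc ((J : ℝ) + 1) ^ 3 ≤ (K * γ ^ (-(ε / 3))) ^ 3 :=
          pow_le_pow_left₀ (by positivity) hJle 3
      _ = K ^ 3 * γ ^ (-ε) := by
          rw [mul_pow, ← Real.rpow_natCast (γ ^ (-(ε / 3))), ← Real.rpow_mul h3.le]
          congr 2
          push_cast
          ring
  calc ∑ y, ‖Gr (H0 d n) 0 ζ x y‖ ^ 3 ≤ C4 * ((J : ℝ) + 1) ^ 3 := hmain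
    _ ≤ C4 * (K ^ 3 * γ ^ (-ε)) := mul_le_mul_of_nonneg_left hcube hC4p.le
    _ = C4 * K ^ 3 * γ ^ (-ε) := by ring
    _ ≤ (C4 * K ^ 3 + 1) * γ ^ (-ε) := by
        have : 0 ≤ γ ^ (-ε) := by positivity
        nlinarith

end Pool.Agent.BK
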