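import Pool.Agent.BK.FinA
import Pool.Agent.Helper3.Weak.Final

/-! BK module FIN: energy windows and the final statement.
`pt_all` gives `A`. Cover `[E0 - δ, E0 + δ]` (`δ ≥ lam^(2+2κ) ≥ lam^A`) by `m = ⌈δ/lam^A⌉` intervals
`[E_i - lam^A, E_i + lam^A]` with centres `E_i = E0 - δ + (2i+1)δ/m` in the window; apply `avg_LL` with
`(ε, lam^A)` to each: `ε + lam^A ∈ [lam^A, 2 lam^A]`; `LL_le_sum`, `LL_unique`. Total
`≤ m · 2π lam^A · lam^(2+κ)/7 · |x|₁ ≤ 2δ · 2π/7 · lam^(2+κ) |x|₁`. See `Weak.core` in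
`Pool/Agent/Helper3/Weak/Final.lean` for the same assembly. -/

open MeasureTheory Finset Matrix Pool.Agent.Helper3.Anderson Pool.Agent.Helper3.Weak
open scoped NNReal

noncomputable section

namespace Pool.Agent.BK

lemma fin_goodLaw {μ : Measure ℝ} [IsProbabilityMeasure μ] (hF : FatDensity μ) :
    ∃ (M : ℝ) (K : ℝ≥0), GoodLaw μ M K := by
  obtain ⟨α, β, c1, c2, hαβ, hc1, ρ, hρ, hb, hμ⟩ := hF
  apply goodLaw_of
  · refine ⟨|α| + |β|, ?_⟩
    rw [hμ]
    apply withDensity_absolutelyContinuous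
    rw [Measure.restrict_apply measurableSet_Icc.compl]
    have h1 : (Set.Icc (-(|α| + |β|)) (|α| + |β|))ᶜ ∩ Set.Icc α β = ∅ := by
      ext t
      simp only [Set.mem_inter_iff, Set.mem_compl_iff, Set.mem_Icc, Set.mem_empty_iff_false,
        iff_false, not_and, not_le]
      intro h2 h3
      by_contra h4
      push Not at h4
      have h5 := neg_abs_le α
      have h6 := abs_nonneg α
      have h7 := le_abs_self β
      have h8 := abs_nonneg β
      have h9 := h2 (by linarith)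
      linarith
    rw [h1, measure_empty]
  · refine ⟨c2.toNNReal, ?_⟩
    rw [hμ]
    have h1 : (volume.restrict (Set.Icc α β)).withDensity (fun x => ENNReal.ofReal (ρ x)) ≤
        (volume.restrict (Set.Icc α β)).withDensity (fun _ => ENNReal.ofReal c2) := by
      apply withDensity_mono
      filter_upwards [ae_restrict_mem measurableSet_Icc] with t ht
      exact ENNReal.ofReal_le_ofReal (hb t ht).2
    refine h1.trans ?_
    rw [withDensity_const]
    intro s
    have h2 : (volume.restrict (Set.Icc α β)) s ≤ volume s := Measure.restrict_apply_le _ _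
    calc (ENNReal.ofReal c2 • volume.restrict (Set.Icc α β)) s
        = ENNReal.ofReal c2 * (volume.restrict (Set.Icc α β)) s := rfl
      _ ≤ ENNReal.ofReal c2 * volume s := by gcongr
      _ = (c2.toNNReal • volume) s := rfl

lemma fin_cover {E0 δ r : ℝ} {m : ℕ} (hm : 0 < m) (hδ : 0 < δ) (hr : δ / m ≤ r) :
    Set.Icc (E0 - δ) (E0 + δ) ⊆
      ⋃ i : Fin m, Set.Icc (E0 - δ + (2 * (i : ℕ) + 1) * δ / m - r)
        (E0 - δ + (2 * (i : ℕ) + 1) * δ / m + r) := by
  intro y hy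
  have hm' : (0 : ℝ) < m := by exact_mod_cast hm
  obtain ⟨hy1, hy2⟩ := hy
  set t : ℝ := (y - (E0 - δ)) * m / (2 * δ) with ht
  have ht0 : 0 ≤ t := by
    rw [ht]
    have : 0 ≤ y - (E0 - δ) := by linarith
    positivity
  have htm : t ≤ m := by
    rw [ht, div_le_iff₀ (by positivity)]
    nlinarith
  have hyt : y = E0 - δ + 2 * t * δ / m := by
    rw [ht]
    field_simp
    ring
  have key : ∃ i : ℕ, i < m ∧ (i : ℝ) ≤ t ∧ t ≤ i + 1 := by
    by_cases h : t < m
    · refine ⟨⌊t⌋₊, (Nat.floor_lt ht0).2 h, Nat.floor_le ht0, (Nat.lt_floor_add_one t).le⟩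
    · have h1 : t = m := le_antisymm htm (not_lt.1 h)
      obtain ⟨k, rfl⟩ := Nat.exists_eq_succ_of_ne_zero hm.ne'
      refine ⟨k, Nat.lt_succ_self k, ?_, ?_⟩
      · rw [h1]; push_cast; linarith
      · rw [h1]; push_cast; linarith
  obtain ⟨i, him1, hi1, hi2⟩ := key
  rw [Set.mem_iUnion]
  refine ⟨⟨i, him1⟩, ?_⟩
  have hdm : 0 < δ / m := by positivity
  have h1 : y - (E0 - δ + (2 * (i : ℝ) + 1) * δ / m) = (2 * (t - i) - 1) * (δ / m) := by
    rw [hyt]
    ring
  simp only [Set.mem_Icc]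
  constructor <;> nlinarith

theorem main {μ : Measure ℝ} [IsProbabilityMeasure μ] (hF : FatDensity μ) {d : ℕ} (hd : 3 ≤ d)
    {a κ : ℝ} (ha : 0 < a) (hκ : 0 < κ) (hκ1 : κ < 1 / 5) :
    ∃ lam0 : ℝ, 0 < lam0 ∧ ∀ lam : ℝ, 0 < lam → lam ≤ lam0 → ∀ E0 ε δ : ℝ,
      a ≤ E0 - δ → E0 + δ ≤ 2 - a → 0 < ε → ε ≤ lam ^ (12 / 5 : ℝ) → lam ^ (2 + 2 * κ) ≤ δ →
      ∀ L : ℝ → Site d → ℝ, (∀ E : ℝ, IsLyapunovNorm d μ lam (E + ε * Complex.I) (L E)) →
      ∀ x : Site d, IntervalIntegrable (fun E => L E x) volume (E0 - δ) (E0 + δ) ∧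
        (2 * δ)⁻¹ * ∫ E in (E0 - δ)..(E0 + δ), L E x ≤ lam ^ (2 + κ) * ∑ j, |(x j : ℝ)| := by
  obtain ⟨M, K, hμ⟩ := fin_goodLaw hF
  obtain ⟨A, lam1, hA1, hA2, hl0, hl1, hpt⟩ := pt_all hF hμ hd (a := min a 1) (κ := κ)
    (lt_min ha one_pos) (min_le_right _ _) hκ hκ1
  refine ⟨lam1, hl0, ?_⟩
  intro lam hlam hlam1 E0 ε δ hE1 hE2 hε hε2 hδ L hL x
  have hlam1' : lam ≤ 1 := hlam1.trans hl1
  set r : ℝ := lam ^ A with hr
  have hr0 : 0 < r := Real.rpow_pos_of_pos hlam A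
  have hεr : ε ≤ r := hε2.trans (Real.rpow_le_rpow_of_exponent_ge hlam hlam1' hA2.le)
  have hε1 : ε ≤ 1 := hε2.trans (Real.rpow_le_one hlam.le hlam1' (by norm_num))
  have hrδ : r ≤ δ := (Real.rpow_le_rpow_of_exponent_ge hlam hlam1' hA1.le).trans hδ
  have hδ0 : 0 < δ := hr0.trans_le hrδ
  set m : ℕ := ⌈δ / r⌉₊ with hm
  have hm0 : 0 < m := Nat.ceil_pos.2 (by positivity)
  have hm' : (0 : ℝ) < m := by exact_mod_cast hm0
  have hm1 : δ / m ≤ r := by
    rw [div_le_iff₀ hm', ← div_le_iff₀' hr0]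
    exact Nat.le_ceil _
  have hm2 : (m : ℝ) * r ≤ 2 * δ := by
    have h1 : (m : ℝ) < δ / r + 1 := Nat.ceil_lt_add_one (by positivity)
    have h2 : (m : ℝ) * r ≤ (δ / r + 1) * r := by gcongr
    have h3 : (δ / r + 1) * r = δ + r := by field_simp
    linarith
  set X : ℝ := ∑ j, |(x j : ℝ)| with hX
  have hX0 : 0 ≤ X := Finset.sum_nonneg fun j _ => abs_nonneg _
  have hB0 : 0 < lam ^ (2 + κ) := Real.rpow_pos_of_pos hlam _
  have hLeq : ∀ E : ℝ, L E x = LL μ M lam K ((E : ℂ) + ε * Complex.I) hμ hlam (him hε E) x := by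
    intro E
    rw [LL_unique hμ hlam (him hε E) (hL E)]
  have hmeasL : Measurable fun E => L E x := by
    have h1 : (fun E => L E x) = fun E : ℝ =>
        LL μ M lam K ((E : ℂ) + ε * Complex.I) hμ hlam (him hε E) x := funext hLeq
    rw [h1]
    exact measurable_LL hμ hlam hε x
  have hLnn : ∀ E, 0 ≤ L E x := by
    intro E
    rw [hLeq]
    exact LL_nonneg hμ hlam (him hε E) x
  have hone : ∀ E1 : ℝ, E0 - δ ≤ E1 → E1 ≤ E0 + δ →
      ∫⁻ E in Set.Icc (E1 - r) (E1 + r), ENNReal.ofReal (L E x) ≤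
        ENNReal.ofReal (2 * Real.pi * r * (lam ^ (2 + κ) / 7 * X)) := by
    intro E1 h1 h2
    have h3 := avg_LL hμ hlam hε hε1 hr0 E1 x
    have h4 : ∀ j : Fin d, LL μ M lam K ((E1 : ℂ) + ((ε + r : ℝ) : ℂ) * Complex.I) hμ hlam
        (him' hε hr0 E1) (Pi.single j 1) ≤ lam ^ (2 + κ) / 7 := by
      intro j
      refine hpt lam hlam hlam1 E1 (ε + r) ?_ ?_ ?_ ?_ _ j
      · have := min_le_left a 1
        linarith
      · have := min_le_left a 1
        linarith
      · linarith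
      · linarith
    have h5 := LL_le_sum hμ hlam (him' hε hr0 E1) _ h4 x
    calc ∫⁻ E in Set.Icc (E1 - r) (E1 + r), ENNReal.ofReal (L E x)
        = ∫⁻ E in Set.Icc (E1 - r) (E1 + r), ENNReal.ofReal
          (LL μ M lam K ((E : ℂ) + ε * Complex.I) hμ hlam (him hε E) x) := by
          simp only [hLeq]
      _ ≤ _ := h3
      _ ≤ _ := by
          apply ENNReal.ofReal_le_ofReal
          have := Real.pi_pos
          gcongr
  have hbound : ∫⁻ E in Set.Icc (E0 - δ) (E0 + δ), ENNReal.ofReal (L E x) ≤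
      ENNReal.ofReal (2 * δ * (lam ^ (2 + κ) * X)) := by
    calc ∫⁻ E in Set.Icc (E0 - δ) (E0 + δ), ENNReal.ofReal (L E x)
        ≤ ∫⁻ E in ⋃ i : Fin m, Set.Icc (E0 - δ + (2 * (i : ℕ) + 1) * δ / m - r)
          (E0 - δ + (2 * (i : ℕ) + 1) * δ / m + r), ENNReal.ofReal (L E x) :=
          lintegral_mono_set (fin_cover hm0 hδ0 hm1)
      _ ≤ ∑' i : Fin m, ∫⁻ E in Set.Icc (E0 - δ + (2 * (i : ℕ) + 1) * δ / m - r)
          (E0 - δ + (2 * (i : ℕ) + 1) * δ / m + r), ENNReal.ofReal (L E x) :=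
          lintegral_iUnion_le _ _
      _ = ∑ i : Fin m, ∫⁻ E in Set.Icc (E0 - δ + (2 * (i : ℕ) + 1) * δ / m - r)
          (E0 - δ + (2 * (i : ℕ) + 1) * δ / m + r), ENNReal.ofReal (L E x) := tsum_fintype _
      _ ≤ ∑ _i : Fin m, ENNReal.ofReal (2 * Real.pi * r * (lam ^ (2 + κ) / 7 * X)) := by
          refine Finset.sum_le_sum fun i _ => hone _ ?_ ?_
          · have : (0 : ℝ) ≤ (2 * ((i : ℕ) : ℝ) + 1) * δ / m := by positivity
            linarith
          · have h1 : ((i : ℕ) : ℝ) + 1 ≤ m := by exact_mod_cast i.2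
            have h2 : (2 * ((i : ℕ) : ℝ) + 1) * δ / m ≤ 2 * δ := by
              rw [div_le_iff₀ hm']
              nlinarith
            linarith
      _ = ENNReal.ofReal (m * (2 * Real.pi * r * (lam ^ (2 + κ) / 7 * X))) := by
          rw [Finset.sum_const, Finset.card_univ, Fintype.card_fin, nsmul_eq_mul,
            ENNReal.ofReal_mul hm'.le, ENNReal.ofReal_natCast]
      _ ≤ _ := by
          apply ENNReal.ofReal_le_ofReal
          have h1 : 2 * Real.pi / 7 ≤ 1 := by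
            have := Real.pi_lt_d2
            linarith
          calc (m : ℝ) * (2 * Real.pi * r * (lam ^ (2 + κ) / 7 * X))
              = (m * r) * (2 * Real.pi / 7) * (lam ^ (2 + κ) * X) := by ring
            _ ≤ (2 * δ) * 1 * (lam ^ (2 + κ) * X) := by
                have := Real.pi_pos
                gcongr
            _ = 2 * δ * (lam ^ (2 + κ) * X) := by ring
  have hInt : IntegrableOn (fun E => L E x) (Set.Icc (E0 - δ) (E0 + δ)) := by
    refine ⟨hmeasL.aestronglyMeasurable, ?_⟩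
    rw [hasFiniteIntegral_iff_ofReal (Filter.Eventually.of_forall hLnn)]
    exact lt_of_le_of_lt hbound ENNReal.ofReal_lt_top
  have hle : E0 - δ ≤ E0 + δ := by linarith
  refine ⟨?_, ?_⟩
  · rw [intervalIntegrable_iff_integrableOn_Icc_of_le hle]
    exact hInt
  · have h1 : ∫ E in (E0 - δ)..(E0 + δ), L E x ≤ 2 * δ * (lam ^ (2 + κ) * X) := by
      rw [intervalIntegral.integral_of_le hle, ← integral_Icc_eq_integral_Ioc,
        integral_eq_lintegral_of_nonneg_ae (Filter.Eventually.of_forall hLnn)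
          hmeasL.aestronglyMeasurable]
      exact ENNReal.toReal_le_of_le_ofReal (by positivity) hbound
    calc (2 * δ)⁻¹ * ∫ E in (E0 - δ)..(E0 + δ), L E x
        ≤ (2 * δ)⁻¹ * (2 * δ * (lam ^ (2 + κ) * X)) := by gcongr
      _ = lam ^ (2 + κ) * X := by field_simp

end Pool.Agent.BK
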