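import Pool.Agent.BK.Pt1

/-! BK module FINA: combine `exists_niceLaw`, `freeB` (`b = a/4`), `local_law` (`lo = a/2`,
`hi = 2 - a/2`, `lo' = a/4`, `hi' = 2 - a/4`), `orth_whp`, `pt1`. Given `κ < 1/5` choose
`A ∈ (2 + 2κ, 12/5)` and `δ1` small: `κ < A/2 - 1 - δ1`, `2 + 2δ1 < A`, `5A/4 + δ1 < 3`. For small `lam`,
`|lam ∫ t dμ| ≤ a/2`. -/

open MeasureTheory Finset Matrix Pool.Agent.Helper3.Anderson Pool.Agent.Helper3.Weak
open scoped NNReal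

noncomputable section

namespace Pool.Agent.BK

private theorem PS_mono {lo hi lam0 lam1 e1 e2 : ℝ} (h : lam1 ≤ lam0) :
    PS lo hi lam1 e1 e2 ⊆ PS lo hi lam0 e1 e2 := by
  rintro π ⟨h1, h2, h3⟩
  exact ⟨h1, h2.trans h, h3⟩

private theorem Dom_mono {ν : Measure ℝ} {d : ℕ} {S S' : Set Par} (h : S' ⊆ S)
    {F : (π : Par) → (Tor d π.n → ℝ) → ℝ} {a : ℝ} (hF : Dom ν d S F a) : Dom ν d S' F a := by
  refine ⟨fun π hπ => hF.1 π (h hπ), fun p ε hε => ?_⟩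
  obtain ⟨C, hC⟩ := hF.2 p ε hε
  exact ⟨C, fun π hπ => hC π (h hπ)⟩

private theorem LocL_mono {ν : Measure ℝ} {d : ℕ} {S S' : Set Par} (h : S' ⊆ S) {κ : ℝ}
    (hL : LocL ν d S κ) : LocL ν d S' κ :=
  ⟨Dom_mono h hL.ginf, Dom_mono h hL.g4, Dom_mono h hL.xst, fun π hπ => hL.im π (h hπ)⟩

private theorem Zok_mono {ν : Measure ℝ} {s2 : ℝ} {d : ℕ} {lo hi κ δ : ℝ} {S S' : Set Par}
    (h : S' ⊆ S) (hZ : Zok ν s2 d lo hi κ δ S) : Zok ν s2 d lo hi κ δ S' :=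
  ⟨fun π hπ => hZ.re_lo π (h hπ), fun π hπ => hZ.re_hi π (h hπ), fun π hπ => hZ.im_lo π (h hπ),
    fun π hπ => hZ.im_eta π (h hπ), fun π hπ => hZ.im_hi π (h hπ), fun π hπ => hZ.gb_le π (h hπ)⟩

theorem pt_all {μ : Measure ℝ} [IsProbabilityMeasure μ] (hF : FatDensity μ) {M : ℝ} {K : ℝ≥0}
    (hμ : GoodLaw μ M K) {d : ℕ} (hd : 3 ≤ d) {a κ : ℝ} (ha : 0 < a) (ha1 : a ≤ 1) (hκ : 0 < κ)
    (hκ1 : κ < 1 / 5) : ∃ A lam1 : ℝ, 2 + 2 * κ < A ∧ A < 12 / 5 ∧ 0 < lam1 ∧ lam1 ≤ 1 ∧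
      ∀ (lam : ℝ) (hlam : 0 < lam), lam ≤ lam1 →
      ∀ E η : ℝ, a ≤ E → E ≤ 2 - a → lam ^ A ≤ η →
        η ≤ 2 * lam ^ A → ∀ (hz0 : 0 < ((E : ℂ) + η * Complex.I).im) (j : Fin d),
          LL μ M lam K ((E : ℂ) + η * Complex.I) hμ hlam hz0 (Pi.single j 1) ≤
            lam ^ (2 + κ) / 7 := by
  obtain ⟨R, s2, C, τ, τ', hν⟩ := exists_niceLaw μ hF
  have hFB : FreeB d (a / 4) (2 - a / 4) := freeB (by linarith) (by linarith) hd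
  have hA0 : (2 : ℝ) < 11 / 5 + κ := by linarith
  have hA1 : 11 / 5 + κ < (12 : ℝ) / 5 := by linarith
  obtain ⟨κ', lam0, e2, hκ', hlam0, hlam01, he20, he2, hL, hZ⟩ :=
    local_law hν (lo := a / 2) (hi := 2 - a / 2) hFB (by linarith) (by linarith) hA0 hA1
  have hmin : min lam0 (1 / 20) ≤ lam0 := min_le_left _ _
  have hmin0 : 0 < min lam0 (1 / 20 : ℝ) := lt_min hlam0 (by norm_num)
  have hsub := PS_mono (lo := a / 2) (hi := 2 - a / 2) (e1 := 11 / 5 + κ) (e2 := e2) hmin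
  have hδ : 0 < (1 / 5 - κ) / 4 := by linarith
  obtain ⟨c, hc, hT⟩ := orth_whp hν hFB hmin0 (min_le_right _ _) hA0 hA1 hδ (by linarith)
    (by linarith) hκ' (LocL_mono hsub hL) (Zok_mono hsub hZ)
  obtain ⟨lam1, hlam1, hlam11, h1⟩ := pt1 (κ := κ) hμ (by omega : 1 ≤ d) hmin0 hA0 hA1 he2 hδ
    (by linarith) hκ hc (by linarith) (by linarith) hT
  set m : ℝ := ∫ t, t ∂μ with hm
  have hm0 : 0 < 1 + |m| := by positivity
  refine ⟨11 / 5 + κ, min lam1 (a / 2 / (1 + |m|)), by linarith, hA1, lt_min hlam1 (by positivity),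
    (min_le_left _ _).trans hlam11, ?_⟩
  intro lam hlam hle E η hE1 hE2 hη1 hη2 hz0 j
  have h2 : lam * (1 + |m|) ≤ a / 2 := by
    have := hle.trans (min_le_right _ _)
    rwa [le_div_iff₀ hm0] at this
  have h3 : |lam * m| ≤ a / 2 := by
    rw [abs_mul, abs_of_pos hlam]
    nlinarith
  have h4 := abs_le.1 h3
  exact h1 lam hlam (hle.trans (min_le_left _ _)) E η (by linarith [h4.2]) (by linarith [h4.1])
    hη1 hη2 hz0 j

end Pool.Agent.BK
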