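import Pool.Agent.Helper3.Anderson.FinalA
import Pool.Agent.Helper3.Weak.Reflect

/-! BK module SYM: the symmetry `E → 4d - E`.
With `U = (-1)^{x_1+...+x_d}`: `U (-Δ) U = 4d + Δ`, so if `ψ` is the `ℓ²` solution of
`(-Δ + V - z)ψ = δ_y` then `-(−1)^{x-y} ψ` solves `(-Δ - V - (4d - z)) φ = δ_y`; complex conjugation gives
`|Green V z x y| = |Green (-V) (4d - conj z) x y|` (uniqueness of the `ℓ²` solution; for bounded `V`, or
via `randGreen` almost surely). The law of `-ω` is the product of `μ.map (-·)`. Hence a Lyapunov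
norm for `(μ, z)` is one for `(μ.map (-·), 4d - conj z)`. (`μ` with compact support, so that almost every
`ω` is bounded and Green functions exist; see `ae_rand_eq`, `green` in Helper3/Anderson.) -/

open MeasureTheory Filter Topology Pool.Agent.Helper3.Anderson
open scoped ENNReal

noncomputable section

namespace Pool.Agent.BK

/-- The alternating sign `(-1)^(x_1 + ... + x_d)`. -/
def symU {d : ℕ} (x : Site d) : ℂ := (-1) ^ (∑ i, x i)

lemma symU_sq {d : ℕ} (x : Site d) : symU x * symU x = 1 := by
  unfold symU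
  rw [← mul_zpow]
  simp

lemma symU_norm {d : ℕ} (x : Site d) : ‖symU x‖ = 1 := by
  unfold symU
  rw [norm_zpow]
  simp

lemma symU_conj {d : ℕ} (x : Site d) : starRingEnd ℂ (symU x) = symU x := by
  unfold symU
  rw [map_zpow₀]
  simp

lemma symU_add {d : ℕ} (x : Site d) (j : Fin d) :
    symU (x + Pi.single j 1) = - symU x := by
  unfold symU
  have h : ∑ i, (x + (Pi.single j (1 : ℤ) : Site d)) i = (∑ i, x i) + 1 := by
    simp only [Pi.add_apply, Finset.sum_add_distrib, Finset.sum_pi_single', Finset.mem_univ,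
      if_true]
  rw [h, zpow_add_one₀ (by norm_num)]
  ring

lemma symU_sub {d : ℕ} (x : Site d) (j : Fin d) :
    symU (x - Pi.single j 1) = - symU x := by
  have h := symU_add (x - Pi.single j 1) j
  rw [sub_add_cancel] at h
  rw [h, neg_neg]

/-- The reflected Green function. -/
lemma sym_isGreen {d : ℕ} {V : Site d → ℝ} {z : ℂ} {y : Site d} {ψ : Site d → ℂ}
    (h : IsGreen V z y ψ) :
    IsGreen (fun x => -V x) (4 * d - starRingEnd ℂ z) y
      (fun x => -(symU y * symU x * starRingEnd ℂ (ψ x))) := by
  obtain ⟨hm, he⟩ := h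
  constructor
  · have h2 : 0 < (2 : ℝ≥0∞).toReal := by norm_num
    have hs : Summable (fun x => ‖ψ x‖ ^ (2 : ℝ≥0∞).toReal) := hm.summable h2
    refine memℓp_gen ?_
    refine hs.congr fun x => ?_
    rw [norm_neg, norm_mul, norm_mul, symU_norm, symU_norm, one_mul, one_mul, RCLike.norm_conj]
  · intro x
    have h1 := congrArg (starRingEnd ℂ) (he x)
    have hl : lap (fun x => -(symU y * symU x * starRingEnd ℂ (ψ x))) x =
        symU y * symU x * (starRingEnd ℂ (lap ψ x) + 4 * d * starRingEnd ℂ (ψ x)) := by
      unfold lap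
      simp only [symU_add, symU_sub, map_sum, map_add, map_sub]
      have h3 : (4 * d * starRingEnd ℂ (ψ x) : ℂ) =
          ∑ j : Fin d, 4 * starRingEnd ℂ (ψ x) := by
        rw [Finset.sum_const, Finset.card_univ, Fintype.card_fin, nsmul_eq_mul]
        ring
      rw [h3, ← Finset.sum_add_distrib, Finset.mul_sum]
      refine Finset.sum_congr rfl fun j _ => ?_
      ring
    rw [hl]
    have h4 : symU y * symU x * (if x = y then (1 : ℂ) else 0) = if x = y then 1 else 0 := by
      split_ifs with hxy
      · rw [hxy, symU_sq, mul_one]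
      · rw [mul_zero]
    rw [← h4]
    have h5 : (starRingEnd ℂ) (if x = y then (1 : ℂ) else 0) = if x = y then (1 : ℂ) else 0 := by
      split_ifs <;> simp
    rw [h5, map_sub, map_add, map_neg, map_mul, map_mul, Complex.conj_ofReal] at h1
    rw [← h1]
    push_cast
    ring

lemma sym_green {d : ℕ} {V : Site d → ℝ} (hV : Bdd V) {z : ℂ} (hz : 0 < z.im) (x y : Site d) :
    ‖Green (fun x => -V x) (4 * d - starRingEnd ℂ z) x y‖ = ‖Green V z x y‖ := by
  have hz' : 0 < (4 * (d : ℂ) - starRingEnd ℂ z).im := by
    have : (4 * (d : ℂ) - starRingEnd ℂ z).im = z.im := by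
      simp
    rw [this]
    exact hz
  have hV' : Bdd (fun x => -V x) := by
    obtain ⟨M, hM⟩ := hV
    exact ⟨M, fun x => by rw [abs_neg]; exact hM x⟩
  have hex : IsGreen V z y (fun w => green V z w y) := by
    refine ⟨?_, fun w => ?_⟩
    · have : (fun w => green V z w y) = fun w => res V hV z (dl y) w := by
        funext w
        exact green_eq V hV z w y
      rw [this]
      exact lp.memℓp _
    · exact green_equation V hV hz w y
  have h1 := isGreen_unique _ hV' hz' (sym_isGreen hex) x
  rw [Green_eq_green _ hV' hz', Green_eq_green _ hV hz, ← h1, norm_neg, norm_mul, norm_mul,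
    symU_norm, symU_norm, one_mul, one_mul, RCLike.norm_conj]

theorem lyap_symm {d : ℕ} {μ : Measure ℝ} [IsProbabilityMeasure μ] (hμ : BoundedDensity μ)
    (lam : ℝ) {z : ℂ} (hz : 0 < z.im) {L : Site d → ℝ} (hL : IsLyapunovNorm d μ lam z L)
    [IsProbabilityMeasure (μ.map (fun x => -x))] :
    IsLyapunovNorm d (μ.map (fun x => -x)) lam (4 * d - starRingEnd ℂ z) L where
  pos := hL.pos
  add_le := hL.add_le
  zsmul := hL.zsmul
  tendsto := by
    intro x
    obtain ⟨M, hM⟩ := hμ.supp
    have hmap : siteLaw d (μ.map (fun x => -x)) =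
        (siteLaw d μ).map (MeasurableEquiv.neg (Site d → ℝ)) := by
      unfold siteLaw
      have := Measure.infinitePi_map_pi (μ := fun _ : Site d => μ)
        (f := fun _ (x : ℝ) => -x) (fun _ => measurable_neg)
      exact this.symm
    refine (hL.tendsto x).congr fun n => ?_
    rw [hmap, MeasureTheory.integral_map_equiv]
    refine integral_congr_ae ?_
    have h2 := ae_bdd (d := d) hM
    have h3 : siteLaw d μ = PP d μ := rfl
    rw [h3]
    filter_upwards [h2] with ω w2
    have hb : Bdd (fun w => lam * ω w) := by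
      refine ⟨|lam| * M, fun w => ?_⟩
      rw [abs_mul]
      gcongr
      exact w2 w
    have h4 := sym_green hb hz (n • x) 0
    have h5 : randGreen lam (4 * d - starRingEnd ℂ z) (n • x) 0
        ((MeasurableEquiv.neg (Site d → ℝ)) ω) =
        Green (fun w => -(lam * ω w)) (4 * d - starRingEnd ℂ z) (n • x) 0 := by
      unfold randGreen
      congr 1
      funext w
      exact mul_neg lam (ω w)
    rw [h5, h4]
    rfl

end Pool.Agent.BK
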