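import Pool.Agent.BK.Fin
import Pool.Agent.BK.FB344
import Pool.Agent.BK.Sym

/-! BK: general energy windows. The bound of `Fin.lean` for every window with the free bounds
`FreeB`, the whole spectrum for `d ≥ 4`, and the upper end of the spectrum by symmetry. -/

open MeasureTheory Finset Matrix Pool.Agent.Helper3.Anderson Pool.Agent.Helper3.Weak
open scoped NNReal

noncomputable section

namespace Pool.Agent.BK

lemma fing_PS_mono {lo hi lam0 lam1 e1 e2 : ℝ} (h : lam1 ≤ lam0) :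
    PS lo hi lam1 e1 e2 ⊆ PS lo hi lam0 e1 e2 := by
  rintro π ⟨h1, h2, h3⟩
  exact ⟨h1, h2.trans h, h3⟩

lemma fing_Dom_mono {ν : Measure ℝ} {d : ℕ} {S S' : Set Par} (h : S' ⊆ S)
    {F : (π : Par) → (Tor d π.n → ℝ) → ℝ} {a : ℝ} (hF : Dom ν d S F a) : Dom ν d S' F a := by
  refine ⟨fun π hπ => hF.1 π (h hπ), fun p ε hε => ?_⟩
  obtain ⟨C, hC⟩ := hF.2 p ε hε
  exact ⟨C, fun π hπ => hC π (h hπ)⟩

lemma fing_LocL_mono {ν : Measure ℝ} {d : ℕ} {S S' : Set Par} (h : S' ⊆ S) {κ : ℝ}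
    (hL : LocL ν d S κ) : LocL ν d S' κ :=
  ⟨fing_Dom_mono h hL.ginf, fing_Dom_mono h hL.g4, fing_Dom_mono h hL.xst,
    fun π hπ => hL.im π (h hπ)⟩

lemma fing_Zok_mono {ν : Measure ℝ} {s2 : ℝ} {d : ℕ} {lo hi κ δ : ℝ} {S S' : Set Par}
    (h : S' ⊆ S) (hZ : Zok ν s2 d lo hi κ δ S) : Zok ν s2 d lo hi κ δ S' :=
  ⟨fun π hπ => hZ.re_lo π (h hπ), fun π hπ => hZ.re_hi π (h hπ), fun π hπ => hZ.im_lo π (h hπ),
    fun π hπ => hZ.im_eta π (h hπ), fun π hπ => hZ.im_hi π (h hπ), fun π hπ => hZ.gb_le π (h hπ)⟩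

/-- The pointwise bound at height `lam^A` for every window with the free bounds. -/
theorem pt_gen {μ : Measure ℝ} [IsProbabilityMeasure μ] (hF : FatDensity μ) {M : ℝ} {K : ℝ≥0}
    (hμ : GoodLaw μ M K) {d : ℕ} (hd : 1 ≤ d) {lo' hi' lo hi κ : ℝ} (hFB : FreeB d lo' hi')
    (hlo : lo' < lo) (hhi : hi < hi') (hκ : 0 < κ) (hκ1 : κ < 1 / 5) :
    ∃ A lam1 : ℝ, 2 + 2 * κ < A ∧ A < 12 / 5 ∧ 0 < lam1 ∧ lam1 ≤ 1 ∧
      ∀ (lam : ℝ) (hlam : 0 < lam), lam ≤ lam1 →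
      ∀ E η : ℝ, lo ≤ E → E ≤ hi → lam ^ A ≤ η →
        η ≤ 2 * lam ^ A → ∀ (hz0 : 0 < ((E : ℂ) + η * Complex.I).im) (j : Fin d),
          LL μ M lam K ((E : ℂ) + η * Complex.I) hμ hlam hz0 (Pi.single j 1) ≤
            lam ^ (2 + κ) / 7 := by
  obtain ⟨R, s2, C, τ, τ', hν⟩ := exists_niceLaw μ hF
  have hA0 : (2 : ℝ) < 11 / 5 + κ := by linarith
  have hA1 : 11 / 5 + κ < (12 : ℝ) / 5 := by linarith
  obtain ⟨lo1, hlo1⟩ : ∃ lo1 : ℝ, lo1 = (lo' + lo) / 2 := ⟨_, rfl⟩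
  obtain ⟨hi1, hhi1⟩ : ∃ hi1 : ℝ, hi1 = (hi + hi') / 2 := ⟨_, rfl⟩
  obtain ⟨κ', lam0, e2, hκ', hlam0, hlam01, he20, he2, hL, hZ⟩ :=
    local_law hν (lo := lo1) (hi := hi1) hFB (by linarith) (by linarith) hA0 hA1
  have hmin : min lam0 (1 / 20) ≤ lam0 := min_le_left _ _
  have hmin0 : 0 < min lam0 (1 / 20 : ℝ) := lt_min hlam0 (by norm_num)
  have hsub := fing_PS_mono (lo := lo1) (hi := hi1) (e1 := 11 / 5 + κ) (e2 := e2) hmin
  have hδ : 0 < (1 / 5 - κ) / 4 := by linarith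
  obtain ⟨c, hc, hT⟩ := orth_whp hν hFB hmin0 (min_le_right _ _) hA0 hA1 hδ (by linarith)
    (by linarith) hκ' (fing_LocL_mono hsub hL) (fing_Zok_mono hsub hZ)
  obtain ⟨lam1, hlam1, hlam11, h1⟩ := pt1_gen (κ := κ) hμ hd hmin0 hA0 hA1 he2 hδ
    (by linarith) hκ hc hT
  set m : ℝ := ∫ t, t ∂μ with hm
  have hm0 : 0 < 1 + |m| := by positivity
  obtain ⟨g, hg⟩ : ∃ g : ℝ, g = min (lo - lo1) (hi1 - hi) := ⟨_, rfl⟩
  have hg1 : g ≤ lo - lo1 := hg ▸ min_le_left _ _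
  have hg2 : g ≤ hi1 - hi := hg ▸ min_le_right _ _
  have hg0 : 0 < g := by
    rw [hg]
    exact lt_min (by linarith) (by linarith)
  refine ⟨11 / 5 + κ, min lam1 (g / (1 + |m|)), by linarith, hA1, lt_min hlam1 (by positivity),
    (min_le_left _ _).trans hlam11, ?_⟩
  intro lam hlam hle E η hE1 hE2 hη1 hη2 hz0 j
  have h2 : lam * (1 + |m|) ≤ g := by
    have := hle.trans (min_le_right _ _)
    rwa [le_div_iff₀ hm0] at this
  have h3 : |lam * m| ≤ g := by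
    rw [abs_mul, abs_of_pos hlam]
    nlinarith
  have h4 := abs_le.1 h3
  exact h1 lam hlam (hle.trans (min_le_left _ _)) E η (by linarith [h4.2]) (by linarith [h4.1])
    hη1 hη2 hz0 j

/-- The averaged bound for every window with the free bounds. -/
theorem main_gen {μ : Measure ℝ} [IsProbabilityMeasure μ] (hF : FatDensity μ) {d : ℕ} (hd : 1 ≤ d)
    {lo' hi' lo hi κ : ℝ} (hFB : FreeB d lo' hi') (hlo : lo' < lo) (hhi : hi < hi') (hκ : 0 < κ)
    (hκ1 : κ < 1 / 5) :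
    ∃ lam0 : ℝ, 0 < lam0 ∧ ∀ lam : ℝ, 0 < lam → lam ≤ lam0 → ∀ E0 ε δ : ℝ,
      lo ≤ E0 - δ → E0 + δ ≤ hi → 0 < ε → ε ≤ lam ^ (12 / 5 : ℝ) → lam ^ (2 + 2 * κ) ≤ δ →
      ∀ L : ℝ → Site d → ℝ, (∀ E : ℝ, IsLyapunovNorm d μ lam (E + ε * Complex.I) (L E)) →
      ∀ x : Site d, IntervalIntegrable (fun E => L E x) volume (E0 - δ) (E0 + δ) ∧
        (2 * δ)⁻¹ * ∫ E in (E0 - δ)..(E0 + δ), L E x ≤ lam ^ (2 + κ) * ∑ j, |(x j : ℝ)| := by
  obtain ⟨M, K, hμ⟩ := fin_goodLaw hF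
  obtain ⟨A, lam1, hA1, hA2, hl0, hl1, hpt⟩ := pt_gen hF hμ hd hFB hlo hhi hκ hκ1
  refine ⟨lam1, hl0, ?_⟩
  intro lam hlam hlam1 E0 ε δ hE1 hE2 hε hε2 hδ L hL x
  have hlam1' : lam ≤ 1 := hlam1.trans hl1
  set r : ℝ := lam ^ A with hr
  have hr0 : 0 < r := Real.rpow_pos_of_pos hlam A
  have hεr : ε ≤ r := hε2.trans (Real.rpow_le_rpow_of_exponent_ge hlam hlam1' hA2.le)
  have hε1 : ε ≤ 1 := hε2.trans (Real.rpow_le_one hlam.le hlam1' (by norm_num))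
  have hrδ : r ≤ δ := (Real.rpow_le_rpow_of_exponent_ge hlam hlam1' hA1.le).trans hδ
  have hδ0 : 0 < δ := hr0.trans_le hrδ
  set m : ℕ := ⌈δ / r⌉₊ with hm
  have hm0 : 0 < m := Nat.ceil_pos.2 (by positivity)
  have hm' : (0 : ℝ) < m := by exact_mod_cast hm0
  have hm1 : δ / m ≤ r := by
    rw [div_le_iff₀ hm', ← div_le_iff₀' hr0]
    exact Nat.le_ceil _
  have hm2 : (m : ℝ) * r ≤ 2 * δ := by
    have h1 : (m : ℝ) < δ / r + 1 := Nat.ceil_lt_add_one (by positivity)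
    have h2 : (m : ℝ) * r ≤ (δ / r + 1) * r := by gcongr
    have h3 : (δ / r + 1) * r = δ + r := by field_simp
    linarith
  set X : ℝ := ∑ j, |(x j : ℝ)| with hX
  have hX0 : 0 ≤ X := Finset.sum_nonneg fun j _ => abs_nonneg _
  have hB0 : 0 < lam ^ (2 + κ) := Real.rpow_pos_of_pos hlam _
  have hLeq : ∀ E : ℝ, L E x = LL μ M lam K ((E : ℂ) + ε * Complex.I) hμ hlam (him hε E) x := by
    intro E
    rw [LL_unique hμ hlam (him hε E) (hL E)]
  have hmeasL : Measurable fun E => L E x := by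
    have h1 : (fun E => L E x) = fun E : ℝ =>
        LL μ M lam K ((E : ℂ) + ε * Complex.I) hμ hlam (him hε E) x := funext hLeq
    rw [h1]
    exact measurable_LL hμ hlam hε x
  have hLnn : ∀ E, 0 ≤ L E x := by
    intro E
    rw [hLeq]
    exact LL_nonneg hμ hlam (him hε E) x
  have hone : ∀ E1 : ℝ, E0 - δ ≤ E1 → E1 ≤ E0 + δ →
      ∫⁻ E in Set.Icc (E1 - r) (E1 + r), ENNReal.ofReal (L E x) ≤
        ENNReal.ofReal (2 * Real.pi * r * (lam ^ (2 + κ) / 7 * X)) := by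
    intro E1 h1 h2
    have h3 := avg_LL hμ hlam hε hε1 hr0 E1 x
    have h4 : ∀ j : Fin d, LL μ M lam K ((E1 : ℂ) + ((ε + r : ℝ) : ℂ) * Complex.I) hμ hlam
        (him' hε hr0 E1) (Pi.single j 1) ≤ lam ^ (2 + κ) / 7 := by
      intro j
      refine hpt lam hlam hlam1 E1 (ε + r) ?_ ?_ ?_ ?_ _ j
      · linarith
      · linarith
      · linarith
      · linarith
    have h5 := LL_le_sum hμ hlam (him' hε hr0 E1) _ h4 x
    calc ∫⁻ E in Set.Icc (E1 - r) (E1 + r), ENNReal.ofReal (L E x)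
        = ∫⁻ E in Set.Icc (E1 - r) (E1 + r), ENNReal.ofReal
          (LL μ M lam K ((E : ℂ) + ε * Complex.I) hμ hlam (him hε E) x) := by
          simp only [hLeq]
      _ ≤ _ := h3
      _ ≤ _ := by
          apply ENNReal.ofReal_le_ofReal
          have := Real.pi_pos
          gcongr
  have hbound : ∫⁻ E in Set.Icc (E0 - δ) (E0 + δ), ENNReal.ofReal (L E x) ≤
      ENNReal.ofReal (2 * δ * (lam ^ (2 + κ) * X)) := by
    calc ∫⁻ E in Set.Icc (E0 - δ) (E0 + δ), ENNReal.ofReal (L E x)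
        ≤ ∫⁻ E in ⋃ i : Fin m, Set.Icc (E0 - δ + (2 * (i : ℕ) + 1) * δ / m - r)
          (E0 - δ + (2 * (i : ℕ) + 1) * δ / m + r), ENNReal.ofReal (L E x) :=
          lintegral_mono_set (fin_cover hm0 hδ0 hm1)
      _ ≤ ∑' i : Fin m, ∫⁻ E in Set.Icc (E0 - δ + (2 * (i : ℕ) + 1) * δ / m - r)
          (E0 - δ + (2 * (i : ℕ) + 1) * δ / m + r), ENNReal.ofReal (L E x) :=
          lintegral_iUnion_le _ _
      _ = ∑ i : Fin m, ∫⁻ E in Set.Icc (E0 - δ + (2 * (i : ℕ) + 1) * δ / m - r)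
          (E0 - δ + (2 * (i : ℕ) + 1) * δ / m + r), ENNReal.ofReal (L E x) := tsum_fintype _
      _ ≤ ∑ _i : Fin m, ENNReal.ofReal (2 * Real.pi * r * (lam ^ (2 + κ) / 7 * X)) := by
          refine Finset.sum_le_sum fun i _ => hone _ ?_ ?_
          · have : (0 : ℝ) ≤ (2 * ((i : ℕ) : ℝ) + 1) * δ / m := by positivity
            linarith
          · have h1 : ((i : ℕ) : ℝ) + 1 ≤ m := by exact_mod_cast i.2
            have h2 : (2 * ((i : ℕ) : ℝ) + 1) * δ / m ≤ 2 * δ := by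
              rw [div_le_iff₀ hm']
              nlinarith
            linarith
      _ = ENNReal.ofReal (m * (2 * Real.pi * r * (lam ^ (2 + κ) / 7 * X))) := by
          rw [Finset.sum_const, Finset.card_univ, Fintype.card_fin, nsmul_eq_mul,
            ENNReal.ofReal_mul hm'.le, ENNReal.ofReal_natCast]
      _ ≤ _ := by
          apply ENNReal.ofReal_le_ofReal
          have h1 : 2 * Real.pi / 7 ≤ 1 := by
            have := Real.pi_lt_d2
            linarith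
          calc (m : ℝ) * (2 * Real.pi * r * (lam ^ (2 + κ) / 7 * X))
              = (m * r) * (2 * Real.pi / 7) * (lam ^ (2 + κ) * X) := by ring
            _ ≤ (2 * δ) * 1 * (lam ^ (2 + κ) * X) := by
                have := Real.pi_pos
                gcongr
            _ = 2 * δ * (lam ^ (2 + κ) * X) := by ring
  have hInt : IntegrableOn (fun E => L E x) (Set.Icc (E0 - δ) (E0 + δ)) := by
    refine ⟨hmeasL.aestronglyMeasurable, ?_⟩
    rw [hasFiniteIntegral_iff_ofReal (Filter.Eventually.of_forall hLnn)]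
    exact lt_of_le_of_lt hbound ENNReal.ofReal_lt_top
  have hle : E0 - δ ≤ E0 + δ := by linarith
  refine ⟨?_, ?_⟩
  · rw [intervalIntegrable_iff_integrableOn_Icc_of_le hle]
    exact hInt
  · have h1 : ∫ E in (E0 - δ)..(E0 + δ), L E x ≤ 2 * δ * (lam ^ (2 + κ) * X) := by
      rw [intervalIntegral.integral_of_le hle, ← integral_Icc_eq_integral_Ioc,
        integral_eq_lintegral_of_nonneg_ae (Filter.Eventually.of_forall hLnn)
          hmeasL.aestronglyMeasurable]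
      exact ENNReal.toReal_le_of_le_ofReal (by positivity) hbound
    calc (2 * δ)⁻¹ * ∫ E in (E0 - δ)..(E0 + δ), L E x
        ≤ (2 * δ)⁻¹ * (2 * δ * (lam ^ (2 + κ) * X)) := by gcongr
      _ = lam ^ (2 + κ) * X := by field_simp

end Pool.Agent.BK
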