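import Pool.Agent.BK.FinG

/-! BK: the upper end of the spectrum, by the symmetry `E → 4d - E`, and the final statement. -/

open MeasureTheory Finset Matrix Pool.Agent.Helper3.Anderson Pool.Agent.Helper3.Weak
open scoped NNReal

noncomputable section

namespace Pool.Agent.BK

lemma fins_boundedDensity {μ : Measure ℝ} [IsProbabilityMeasure μ] (hF : FatDensity μ) :
    BoundedDensity μ := by
  obtain ⟨α, β, c1, c2, hαβ, hc1, ρ, hρ, hb, hμ⟩ := hF
  constructor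
  · refine ⟨|α| + |β|, ?_⟩
    rw [hμ]
    apply withDensity_absolutelyContinuous
    rw [Measure.restrict_apply measurableSet_Icc.compl]
    have h1 : (Set.Icc (-(|α| + |β|)) (|α| + |β|))ᶜ ∩ Set.Icc α β = ∅ := by
      ext t
      simp only [Set.mem_inter_iff, Set.mem_compl_iff, Set.mem_Icc, Set.mem_empty_iff_false,
        iff_false, not_and, not_le]
      intro h2 h3
      by_contra h4
      push Not at h4
      have h5 := neg_abs_le α
      have h6 := abs_nonneg α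
      have h7 := le_abs_self β
      have h8 := abs_nonneg β
      have h9 := h2 (by linarith)
      linarith
    rw [h1, measure_empty]
  · refine ⟨c2.toNNReal, ?_⟩
    rw [hμ]
    have h1 : (volume.restrict (Set.Icc α β)).withDensity (fun x => ENNReal.ofReal (ρ x)) ≤
        (volume.restrict (Set.Icc α β)).withDensity (fun _ => ENNReal.ofReal c2) := by
      apply withDensity_mono
      filter_upwards [ae_restrict_mem measurableSet_Icc] with t ht
      exact ENNReal.ofReal_le_ofReal (hb t ht).2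
    refine h1.trans ?_
    rw [withDensity_const]
    intro s
    have h2 : (volume.restrict (Set.Icc α β)) s ≤ volume s := Measure.restrict_apply_le _ _
    calc (ENNReal.ofReal c2 • volume.restrict (Set.Icc α β)) s
        = ENNReal.ofReal c2 * (volume.restrict (Set.Icc α β)) s := rfl
      _ ≤ ENNReal.ofReal c2 * volume s := by gcongr
      _ = (c2.toNNReal • volume) s := rfl

lemma FatDensity.neg {μ : Measure ℝ} (hF : FatDensity μ) : FatDensity (μ.map (fun x => -x)) := by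
  obtain ⟨α, β, c1, c2, hαβ, hc1, ρ, hρ, hb, hμ⟩ := hF
  refine ⟨-β, -α, c1, c2, by linarith, hc1, fun x => ρ (-x), hρ.comp measurable_neg,
    fun x hx => hb (-x) ⟨by linarith [hx.2], by linarith [hx.1]⟩, ?_⟩
  have hm : Measurable (fun x : ℝ => -x) := measurable_neg
  ext s hs
  rw [Measure.map_apply hm hs, hμ, withDensity_apply _ (hm hs), withDensity_apply _ hs,
    ← lintegral_indicator hs, ← lintegral_indicator (hm hs),
    ← lintegral_indicator measurableSet_Icc, ← lintegral_indicator measurableSet_Icc]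
  have hneg : MeasurePreserving (fun x : ℝ => -x) volume volume :=
    Measure.measurePreserving_neg volume
  rw [← hneg.lintegral_comp]
  · refine lintegral_congr fun x => ?_
    by_cases h1 : -x ∈ Set.Icc α β
    · have h1' : x ∈ Set.Icc (-β) (-α) := ⟨by linarith [h1.2], by linarith [h1.1]⟩
      rw [Set.indicator_of_mem h1, Set.indicator_of_mem h1']
      by_cases h2 : x ∈ s
      · rw [Set.indicator_of_mem (show -x ∈ (fun x : ℝ => -x) ⁻¹' s by
          simpa only [Set.mem_preimage, neg_neg] using h2), Set.indicator_of_mem h2]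
      · rw [Set.indicator_of_notMem (show -x ∉ (fun x : ℝ => -x) ⁻¹' s by
          simpa only [Set.mem_preimage, neg_neg] using h2), Set.indicator_of_notMem h2]
    · have h1' : x ∉ Set.Icc (-β) (-α) := by
        rintro ⟨h3, h4⟩
        exact h1 ⟨by linarith, by linarith⟩
      rw [Set.indicator_of_notMem h1, Set.indicator_of_notMem h1']
  · refine Measurable.indicator (Measurable.indicator ?_ (hm hs)) measurableSet_Icc
    exact ENNReal.measurable_ofReal.comp hρ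

/-- The averaged bound in the reflected window. -/
theorem main_refl {μ : Measure ℝ} [IsProbabilityMeasure μ] (hF : FatDensity μ) {d : ℕ} (hd : 1 ≤ d)
    {lo' hi' lo hi κ : ℝ} (hFB : FreeB d lo' hi') (hlo : lo' < lo) (hhi : hi < hi') (hκ : 0 < κ)
    (hκ1 : κ < 1 / 5) :
    ∃ lam0 : ℝ, 0 < lam0 ∧ ∀ lam : ℝ, 0 < lam → lam ≤ lam0 → ∀ E0 ε δ : ℝ,
      4 * d - hi ≤ E0 - δ → E0 + δ ≤ 4 * d - lo → 0 < ε → ε ≤ lam ^ (12 / 5 : ℝ) →
      lam ^ (2 + 2 * κ) ≤ δ →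
      ∀ L : ℝ → Site d → ℝ, (∀ E : ℝ, IsLyapunovNorm d μ lam (E + ε * Complex.I) (L E)) →
      ∀ x : Site d, IntervalIntegrable (fun E => L E x) volume (E0 - δ) (E0 + δ) ∧
        (2 * δ)⁻¹ * ∫ E in (E0 - δ)..(E0 + δ), L E x ≤ lam ^ (2 + κ) * ∑ j, |(x j : ℝ)| := by
  have : IsProbabilityMeasure (μ.map (fun x => -x)) :=
    Measure.isProbabilityMeasure_map measurable_neg.aemeasurable
  obtain ⟨lam0, h0, h⟩ := main_gen (μ := μ.map (fun x => -x)) hF.neg hd hFB hlo hhi hκ hκ1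
  refine ⟨lam0, h0, fun lam hlam hle E0 ε δ h1 h2 hε hε2 hδ L hL x => ?_⟩
  have h3 : ∀ E : ℝ, IsLyapunovNorm d (μ.map (fun x => -x)) lam (E + ε * Complex.I)
      ((fun E' : ℝ => L (4 * d - E')) E) := by
    intro E
    have h4 := hL (4 * d - E)
    have hz : 0 < (((4 * d - E : ℝ) : ℂ) + ε * Complex.I).im := by simpa using hε
    have h5 := lyap_symm (fins_boundedDensity hF) lam hz h4
    have h6 : (4 * (d : ℂ) - starRingEnd ℂ (((4 * d - E : ℝ) : ℂ) + ε * Complex.I)) =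
        (E : ℂ) + ε * Complex.I := by
      rw [map_add, map_mul, Complex.conj_ofReal, Complex.conj_ofReal, Complex.conj_I]
      push_cast
      ring
    rw [h6] at h5
    exact h5
  obtain ⟨h7, h8⟩ := h lam hlam hle (4 * d - E0) ε δ (by linarith) (by linarith) hε hε2 hδ _ h3 x
  constructor
  · have h9 := h7.comp_sub_left (4 * (d : ℝ))
    have e1 : 4 * (d : ℝ) - (4 * d - E0 - δ) = E0 + δ := by ring
    have e2 : 4 * (d : ℝ) - (4 * d - E0 + δ) = E0 - δ := by ring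
    simp only [sub_sub_cancel] at h9
    rw [e1, e2] at h9
    exact h9.symm
  · have h10 : ∫ E in (4 * (d : ℝ) - E0 - δ)..(4 * d - E0 + δ), L (4 * d - E) x =
        ∫ E in (E0 - δ)..(E0 + δ), L E x := by
      have := intervalIntegral.integral_comp_sub_left (a := 4 * (d : ℝ) - E0 - δ)
        (b := 4 * (d : ℝ) - E0 + δ) (fun E => L E x) (4 * (d : ℝ))
      rw [this]
      congr 1 <;> ring
    rw [h10] at h8
    exact h8

/-- The energy windows of the theorem: at distance `a` from the band edges and, for `d = 3`, in the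
lowest and highest part of the band. -/
def InWindow (d : ℕ) (a lo hi : ℝ) : Prop :=
  (3 ≤ d ∧ a ≤ lo ∧ hi ≤ 2 - a) ∨ (3 ≤ d ∧ 4 * d - 2 + a ≤ lo ∧ hi ≤ 4 * d - a) ∨
    (4 ≤ d ∧ a ≤ lo ∧ hi ≤ 4 * d - a)

theorem main_all {μ : Measure ℝ} [IsProbabilityMeasure μ] (hF : FatDensity μ) (d : ℕ)
    {a κ : ℝ} (ha : 0 < a) (hκ : 0 < κ) (hκ1 : κ < 1 / 5) :
    ∃ lam0 : ℝ, 0 < lam0 ∧ ∀ lam : ℝ, 0 < lam → lam ≤ lam0 → ∀ E0 ε δ : ℝ,
      InWindow d a (E0 - δ) (E0 + δ) → 0 < ε → ε ≤ lam ^ (12 / 5 : ℝ) → lam ^ (2 + 2 * κ) ≤ δ →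
      ∀ L : ℝ → Site d → ℝ, (∀ E : ℝ, IsLyapunovNorm d μ lam (E + ε * Complex.I) (L E)) →
      ∀ x : Site d, IntervalIntegrable (fun E => L E x) volume (E0 - δ) (E0 + δ) ∧
        (2 * δ)⁻¹ * ∫ E in (E0 - δ)..(E0 + δ), L E x ≤ lam ^ (2 + κ) * ∑ j, |(x j : ℝ)| := by
  -- replace `a` by `b = min a 1`
  have hb : 0 < min a 1 := lt_min ha one_pos
  have hb1 : min a 1 ≤ 1 := min_le_right _ _
  have hba : min a 1 ≤ a := min_le_left _ _
  have A1 : ∃ lam0 : ℝ, 0 < lam0 ∧ ∀ lam : ℝ, 0 < lam → lam ≤ lam0 → ∀ E0 ε δ : ℝ,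
      (3 ≤ d ∧ a ≤ E0 - δ ∧ E0 + δ ≤ 2 - a) → 0 < ε → ε ≤ lam ^ (12 / 5 : ℝ) →
      lam ^ (2 + 2 * κ) ≤ δ →
      ∀ L : ℝ → Site d → ℝ, (∀ E : ℝ, IsLyapunovNorm d μ lam (E + ε * Complex.I) (L E)) →
      ∀ x : Site d, IntervalIntegrable (fun E => L E x) volume (E0 - δ) (E0 + δ) ∧
        (2 * δ)⁻¹ * ∫ E in (E0 - δ)..(E0 + δ), L E x ≤ lam ^ (2 + κ) * ∑ j, |(x j : ℝ)| := by
    by_cases hd : 3 ≤ d
    · obtain ⟨l, hl, h⟩ := main_gen hF (d := d) (by omega) (lo := min a 1) (hi := 2 - min a 1)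
        (freeB (b := min a 1 / 2) (by linarith) (by linarith) hd) (by linarith) (by linarith) hκ hκ1
      exact ⟨l, hl, fun lam h1 h2 E0 ε δ h3 => h lam h1 h2 E0 ε δ (by linarith [h3.2.1])
        (by linarith [h3.2.2])⟩
    · exact ⟨1, one_pos, fun lam h1 h2 E0 ε δ h3 => absurd h3.1 hd⟩
  have A2 : ∃ lam0 : ℝ, 0 < lam0 ∧ ∀ lam : ℝ, 0 < lam → lam ≤ lam0 → ∀ E0 ε δ : ℝ,
      (3 ≤ d ∧ 4 * d - 2 + a ≤ E0 - δ ∧ E0 + δ ≤ 4 * d - a) → 0 < ε → ε ≤ lam ^ (12 / 5 : ℝ) →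
      lam ^ (2 + 2 * κ) ≤ δ →
      ∀ L : ℝ → Site d → ℝ, (∀ E : ℝ, IsLyapunovNorm d μ lam (E + ε * Complex.I) (L E)) →
      ∀ x : Site d, IntervalIntegrable (fun E => L E x) volume (E0 - δ) (E0 + δ) ∧
        (2 * δ)⁻¹ * ∫ E in (E0 - δ)..(E0 + δ), L E x ≤ lam ^ (2 + κ) * ∑ j, |(x j : ℝ)| := by
    by_cases hd : 3 ≤ d
    · obtain ⟨l, hl, h⟩ := main_refl hF (d := d) (by omega) (lo := min a 1) (hi := 2 - min a 1)
        (freeB (b := min a 1 / 2) (by linarith) (by linarith) hd) (by linarith) (by linarith) hκ hκ1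
      exact ⟨l, hl, fun lam h1 h2 E0 ε δ h3 => h lam h1 h2 E0 ε δ (by linarith [h3.2.1])
        (by linarith [h3.2.2])⟩
    · exact ⟨1, one_pos, fun lam h1 h2 E0 ε δ h3 => absurd h3.1 hd⟩
  have A3 : ∃ lam0 : ℝ, 0 < lam0 ∧ ∀ lam : ℝ, 0 < lam → lam ≤ lam0 → ∀ E0 ε δ : ℝ,
      (4 ≤ d ∧ a ≤ E0 - δ ∧ E0 + δ ≤ 4 * d - a) → 0 < ε → ε ≤ lam ^ (12 / 5 : ℝ) →
      lam ^ (2 + 2 * κ) ≤ δ →
      ∀ L : ℝ → Site d → ℝ, (∀ E : ℝ, IsLyapunovNorm d μ lam (E + ε * Complex.I) (L E)) →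
      ∀ x : Site d, IntervalIntegrable (fun E => L E x) volume (E0 - δ) (E0 + δ) ∧
        (2 * δ)⁻¹ * ∫ E in (E0 - δ)..(E0 + δ), L E x ≤ lam ^ (2 + κ) * ∑ j, |(x j : ℝ)| := by
    by_cases hd : 4 ≤ d
    · obtain ⟨l, hl, h⟩ := main_gen hF (d := d) (by omega) (lo := min a 1) (hi := 4 * d - min a 1)
        (freeB4 (b := min a 1 / 2) (by linarith) (by linarith) hd) (by linarith) (by linarith) hκ
        hκ1
      exact ⟨l, hl, fun lam h1 h2 E0 ε δ h3 => h lam h1 h2 E0 ε δ (by linarith [h3.2.1])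
        (by linarith [h3.2.2])⟩
    · exact ⟨1, one_pos, fun lam h1 h2 E0 ε δ h3 => absurd h3.1 hd⟩
  obtain ⟨l1, hl1, B1⟩ := A1
  obtain ⟨l2, hl2, B2⟩ := A2
  obtain ⟨l3, hl3, B3⟩ := A3
  refine ⟨min l1 (min l2 l3), lt_min hl1 (lt_min hl2 hl3), fun lam h1 h2 E0 ε δ h3 => ?_⟩
  have e1 : lam ≤ l1 := h2.trans (min_le_left _ _)
  have e2 : lam ≤ l2 := h2.trans ((min_le_right _ _).trans (min_le_left _ _))
  have e3 : lam ≤ l3 := h2.trans ((min_le_right _ _).trans (min_le_right _ _))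
  rcases h3 with h3 | h3 | h3
  · exact B1 lam h1 e1 E0 ε δ h3
  · exact B2 lam h1 e2 E0 ε δ h3
  · exact B3 lam h1 e3 E0 ε δ h3

end Pool.Agent.BK
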