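import Pool.Agent.BK.C1c

/-! BK module IBP: integration by parts in one coordinate of a product measure.
`E[V_u F] = E[τ(V_u) ∂_u F]`: Fubini in the coordinate `u`, then the
one-dimensional identity `NiceLaw.stein` applied to `t ↦ F (update V u t)`. -/

open MeasureTheory Finset

noncomputable section

namespace Pool.Agent.BK

variable {X : Type} [Fintype X] [DecidableEq X] {ν : Measure ℝ} {R s2 C : ℝ} {τ τ' : ℝ → ℝ}

private lemma meas_upd (u : X) :
    Measurable fun p : (X → ℝ) × ℝ => Function.update p.1 u p.2 := by
  refine measurable_pi_lambda _ fun i => ?_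
  by_cases h : i = u
  · subst h
    simpa using measurable_snd
  · simp only [Function.update_of_ne h]
    exact (measurable_pi_apply i).comp measurable_fst

private lemma map_upd [IsProbabilityMeasure ν] (u : X) :
    ((Measure.pi fun _ : X => ν).prod ν).map
      (fun p : (X → ℝ) × ℝ => Function.update p.1 u p.2) = Measure.pi fun _ : X => ν := by
  symm
  refine Measure.pi_eq fun s hs => ?_
  rw [Measure.map_apply (meas_upd u) (MeasurableSet.univ_pi hs)]
  have hset : (fun p : (X → ℝ) × ℝ => Function.update p.1 u p.2) ⁻¹' (Set.pi Set.univ s) =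
      (Set.pi Set.univ (Function.update s u Set.univ)) ×ˢ (s u) := by
    ext p
    simp only [Set.mem_preimage, Set.mem_pi, Set.mem_univ, true_imp_iff, Set.mem_prod]
    constructor
    · intro h
      refine ⟨fun i => ?_, by simpa using h u⟩
      by_cases hi : i = u
      · subst hi
        simp
      · have := h i
        rw [Function.update_of_ne hi] at this
        rw [Function.update_of_ne hi]
        exact this
    · rintro ⟨h1, h2⟩ i
      by_cases hi : i = u
      · subst hi
        simpa using h2
      · have := h1 i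
        rw [Function.update_of_ne hi] at this
        rw [Function.update_of_ne hi]
        exact this
  rw [hset, Measure.prod_prod, Measure.pi_pi]
  rw [← Finset.mul_prod_erase Finset.univ (fun i => ν (s i)) (Finset.mem_univ u),
    ← Finset.mul_prod_erase Finset.univ (fun i => ν (Function.update s u Set.univ i))
      (Finset.mem_univ u)]
  have h1 : ∏ i ∈ Finset.univ.erase u, ν (Function.update s u Set.univ i) =
      ∏ i ∈ Finset.univ.erase u, ν (s i) := by
    refine Finset.prod_congr rfl fun i hi => ?_
    rw [Function.update_of_ne (Finset.ne_of_mem_erase hi)]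
  rw [h1, Function.update_self, measure_univ, one_mul, mul_comm]

/-- Fubini in one coordinate. -/
lemma Ex_update (hν : NiceLaw ν R s2 C τ τ') (u : X) {F : (X → ℝ) → ℂ}
    (hF : Integrable F (Measure.pi fun _ : X => ν)) :
    Ex ν F = Ex ν (fun V : X → ℝ => ∫ t, F (Function.update V u t) ∂ν) := by
  haveI := hν.prob
  unfold Ex
  have hm := map_upd (ν := ν) u
  have hF' : Integrable F (((Measure.pi fun _ : X => ν).prod ν).map
      (fun p : (X → ℝ) × ℝ => Function.update p.1 u p.2)) := by
    rw [hm]; exact hF
  have h1 : Integrable (fun p : (X → ℝ) × ℝ => F (Function.update p.1 u p.2))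
      ((Measure.pi fun _ : X => ν).prod ν) := hF'.comp_measurable (meas_upd u)
  have h2 := integral_map (meas_upd u).aemeasurable hF'.aestronglyMeasurable
  rw [hm] at h2
  rw [h2, integral_prod _ h1]

private lemma slice {F : (X → ℝ) → ℂ} {F' : X → (X → ℝ) → ℂ} (hF : C1 F F') (u : X) (V : X → ℝ) :
    (∀ v : ℝ, HasDerivAt (fun t => F (Function.update V u t)) (F' u (Function.update V u v)) v) ∧
      Continuous fun v : ℝ => F' u (Function.update V u v) := by
  refine ⟨fun v => ?_, (hF.cont' u).comp (continuous_const.update u continuous_id)⟩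
  have h := hF.deriv (Function.update V u v) u
  simpa using h

theorem ibp (hν : NiceLaw ν R s2 C τ τ') {F : (X → ℝ) → ℂ} {F' : X → (X → ℝ) → ℂ} (hF : C1 F F')
    (u : X) : Ex ν (fun V => (V u : ℂ) * F V) = Ex ν (fun V => (τ (V u) : ℂ) * F' u V) := by
  have h1 : Integrable (fun V : X → ℝ => (V u : ℂ) * F V) (Measure.pi fun _ : X => ν) :=
    integrable_cont hν ((Complex.continuous_ofReal.comp (continuous_apply u)).mul hF.cont)
  have h2 := integrable_bdd_mul hν (hF.cont' u) hν.meas hν.bdd u
  rw [Ex_update hν u h1, Ex_update hν u h2]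
  congr 1
  funext V
  obtain ⟨a, b⟩ := slice hF u V
  have h := hν.stein _ _ a b
  simpa using h

theorem ibp' (hν : NiceLaw ν R s2 C τ τ') {F : (X → ℝ) → ℂ} {F' : X → (X → ℝ) → ℂ} (hF : C1 F F')
    (u : X) : Ex ν (fun V => ((τ (V u) - s2 : ℝ) : ℂ) * F V) =
      Ex ν (fun V => (τ' (V u) : ℂ) * F' u V) := by
  have h1 : Integrable (fun V : X → ℝ => ((τ (V u) - s2 : ℝ) : ℂ) * F V)
      (Measure.pi fun _ : X => ν) :=
    integrable_bdd_mul (h := fun v => τ v - s2) (B := C + |s2|) hν hF.cont
      (hν.meas.sub measurable_const)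
      (fun v => (abs_sub _ _).trans (add_le_add (hν.bdd v) le_rfl)) u
  have h2 := integrable_bdd_mul hν (hF.cont' u) hν.meas' hν.bdd' u
  rw [Ex_update hν u h1, Ex_update hν u h2]
  congr 1
  funext V
  obtain ⟨a, b⟩ := slice hF u V
  have h := hν.stein' _ _ a b
  simpa using h

end Pool.Agent.BK
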