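import Pool.Agent.BK.KDefs4
import Pool.Agent.BK.Vdc
import Pool.Agent.BK.Ker1

/-! BK module K4P: pointwise bound for the full kernel (Bessel function):
`|kf t m| ≤ C t^{-1/4} (1 + |2t - |m||)^{-1/4}` for `t ≥ 1`, all integers `m`.

By symmetry `m ≥ 0`. `ψ(θ) = mθ - 2t(1 - cos θ)`, `ψ' = m - 2t sin θ`, `ψ'' = -2t cos θ`, `D = |2t - m|`.
The circle is cut at `±α, ±π/2, ±(π-α)`, `α = arccos δ`. On `|cos θ| ≥ δ` (three intervals) vdc2 gives
`8/√(2tδ)`.
(A) `D³ ≤ t`: `δ = t^{-1/3}/2`, trivial bound on `|cos θ| ≤ δ`.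
(B) `D³ > t`, `D ≤ 2t`: `δ² = D/(16t)`. On `|cos θ| ≤ δ`, `2t(1 - |sin θ|) ≤ 2tδ² = D/8`, so `|ψ'| ≥ D/2` and
vdc1 on four pieces gives `8/D` each.
(C) `D > 2t` (so `m > 2t`): `ψ' ≥ D` everywhere, vdc1. -/

open MeasureTheory Set

noncomputable section

namespace Pool.Agent.BK

/-- The integrand. -/
private def K4P_E (t x θ : ℝ) : ℂ :=
  Complex.exp (Complex.I * ((x * θ - t * (2 - 2 * Real.cos θ) : ℝ) : ℂ))

private lemma K4P_E_cont (t x : ℝ) : Continuous (K4P_E t x) := Ker1_exp_cont t x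

private lemma K4P_E_norm (t x θ : ℝ) : ‖K4P_E t x θ‖ = 1 := by
  unfold K4P_E
  rw [mul_comm Complex.I, Complex.norm_exp_ofReal_mul_I]

private lemma K4P_v0 {t x a b : ℝ} (hab : a ≤ b) : ‖∫ θ in a..b, K4P_E t x θ‖ ≤ b - a := by
  have h := intervalIntegral.norm_integral_le_of_norm_le_const (C := 1) (a := a) (b := b)
    (f := K4P_E t x) (fun θ _ => (K4P_E_norm t x θ).le)
  rwa [one_mul, abs_of_nonneg (by linarith)] at h

private lemma K4P_v1 {t x a b μ : ℝ} (ht : 0 ≤ t) (hab : a ≤ b) (hμ : 0 < μ)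
    (hs : (∀ θ ∈ Icc a b, 0 ≤ Real.cos θ) ∨ (∀ θ ∈ Icc a b, Real.cos θ ≤ 0))
    (hd : (∀ θ ∈ Icc a b, μ ≤ x - 2 * t * Real.sin θ) ∨
      (∀ θ ∈ Icc a b, x - 2 * t * Real.sin θ ≤ -μ)) :
    ‖∫ θ in a..b, K4P_E t x θ‖ ≤ 4 / μ := by
  have hv := vdc1 (a := a) (b := b) (μ := μ) (G0 := 1) (G1 := 0) hab hμ
    (ψ := Ker1_psi t x) (ψ' := fun θ => x - 2 * t * Real.sin θ)
    (ψ'' := fun θ => -(2 * t * Real.cos θ)) (g := fun _ => 1) (g' := fun _ => 0)
    (fun θ _ => Ker1_psi_deriv t x θ) (fun θ _ => Ker1_psi_deriv2 t x θ)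
    (by fun_prop) (by
      rcases hs with h | h
      · right
        intro θ hθ
        have := h θ hθ
        have : 0 ≤ 2 * t * Real.cos θ := by positivity
        linarith
      · left
        intro θ hθ
        have h2 := h θ hθ
        nlinarith) hd
    (fun θ _ => hasDerivAt_const θ 1) continuousOn_const (fun θ _ => by simp) (by simp)
  have e : (4 : ℝ) * (1 + 0) / μ = 4 / μ := by ring
  rw [e] at hv
  simpa only [one_mul, Ker1_psi, K4P_E] using hv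

private lemma K4P_v2 {t x a b δ : ℝ} (ht : 0 < t) (hab : a ≤ b) (hδ : 0 < δ)
    (hs : (∀ θ ∈ Icc a b, δ ≤ Real.cos θ) ∨ (∀ θ ∈ Icc a b, Real.cos θ ≤ -δ)) :
    ‖∫ θ in a..b, K4P_E t x θ‖ ≤ 8 / √(2 * t * δ) := by
  have hv := vdc2 (a := a) (b := b) (μ := 2 * t * δ) (G0 := 1) (G1 := 0) hab (by positivity)
    (ψ := Ker1_psi t x) (ψ' := fun θ => x - 2 * t * Real.sin θ)
    (ψ'' := fun θ => -(2 * t * Real.cos θ)) (g := fun _ => 1) (g' := fun _ => 0)
    (fun θ _ => Ker1_psi_deriv t x θ) (fun θ _ => Ker1_psi_deriv2 t x θ)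
    (by fun_prop) (by
      rcases hs with h | h
      · right
        intro θ hθ
        have h2 := mul_le_mul_of_nonneg_left (h θ hθ) (by positivity : (0 : ℝ) ≤ 2 * t)
        linarith
      · left
        intro θ hθ
        have h2 := mul_le_mul_of_nonneg_left (h θ hθ) (by positivity : (0 : ℝ) ≤ 2 * t)
        linarith)
    (fun θ _ => hasDerivAt_const θ 1) continuousOn_const (fun θ _ => by simp) (by simp)
  have e : (8 : ℝ) * (1 + 0) / √(2 * t * δ) = 8 / √(2 * t * δ) := by ring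
  rw [e] at hv
  simpa only [one_mul, Ker1_psi, K4P_E] using hv

private lemma K4P_add (t x a b c : ℝ) : ‖∫ θ in a..c, K4P_E t x θ‖ ≤
    ‖∫ θ in a..b, K4P_E t x θ‖ + ‖∫ θ in b..c, K4P_E t x θ‖ := by
  rw [← intervalIntegral.integral_add_adjacent_intervals
    ((K4P_E_cont t x).intervalIntegrable a b) ((K4P_E_cont t x).intervalIntegrable b c)]
  exact norm_add_le _ _

/-- Geometry of the cut points. -/
private lemma K4P_geo {δ : ℝ} (h0 : 0 < δ) (h1 : δ ≤ 1 / 2) : ∃ α : ℝ, 0 < α ∧ α ≤ Real.pi / 2 ∧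
    Real.pi / 2 - α ≤ 2 * δ ∧
    (∀ θ ∈ Icc (-α) α, δ ≤ Real.cos θ) ∧
    (∀ θ ∈ Icc (Real.pi - α) Real.pi, Real.cos θ ≤ -δ) ∧
    (∀ θ ∈ Icc (-Real.pi) (-(Real.pi - α)), Real.cos θ ≤ -δ) ∧
    (∀ θ ∈ Icc α (Real.pi / 2), 0 ≤ Real.cos θ ∧ 1 - δ ^ 2 ≤ Real.sin θ) ∧
    (∀ θ ∈ Icc (Real.pi / 2) (Real.pi - α), Real.cos θ ≤ 0 ∧ 1 - δ ^ 2 ≤ Real.sin θ) ∧
    (∀ θ ∈ Icc (-(Real.pi / 2)) (-α), 0 ≤ Real.cos θ ∧ Real.sin θ ≤ -(1 - δ ^ 2)) ∧
    (∀ θ ∈ Icc (-(Real.pi - α)) (-(Real.pi / 2)), Real.cos θ ≤ 0 ∧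
      Real.sin θ ≤ -(1 - δ ^ 2)) := by
  have hpi := Real.pi_pos
  have hpi4 := Real.pi_le_four
  have hα0 : 0 < Real.arccos δ := Real.arccos_pos.2 (by linarith)
  have hα1 : Real.arccos δ ≤ Real.pi / 2 := Real.arccos_le_pi_div_two.2 h0.le
  have hc : Real.cos (Real.arccos δ) = δ := Real.cos_arccos (by linarith) (by linarith)
  have hs1 : ∀ s c : ℝ, s ^ 2 + c ^ 2 = 1 → 0 ≤ s → c ^ 2 ≤ δ ^ 2 → 1 - δ ^ 2 ≤ s := by
    intro s c h2 h3 h4
    nlinarith
  have g1 : ∀ θ ∈ Icc (Real.arccos δ) (Real.pi / 2), 0 ≤ Real.cos θ ∧ 1 - δ ^ 2 ≤ Real.sin θ := by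
    intro θ hθ
    have k1 : 0 ≤ Real.cos θ := Real.cos_nonneg_of_mem_Icc ⟨by linarith [hθ.1], hθ.2⟩
    have k2 : Real.cos θ ≤ δ := by
      rw [← hc]
      exact Real.cos_le_cos_of_nonneg_of_le_pi hα0.le (by linarith [hθ.2]) hθ.1
    have k3 : 0 ≤ Real.sin θ := Real.sin_nonneg_of_nonneg_of_le_pi (by linarith [hθ.1])
      (by linarith [hθ.2])
    exact ⟨k1, hs1 _ _ (Real.sin_sq_add_cos_sq θ) k3 (by nlinarith)⟩
  have g2 : ∀ θ ∈ Icc (Real.pi / 2) (Real.pi - Real.arccos δ),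
      Real.cos θ ≤ 0 ∧ 1 - δ ^ 2 ≤ Real.sin θ := by
    intro θ hθ
    have k := g1 (Real.pi - θ) ⟨by linarith [hθ.2], by linarith [hθ.1]⟩
    rw [Real.cos_pi_sub, Real.sin_pi_sub] at k
    exact ⟨by linarith [k.1], k.2⟩
  refine ⟨Real.arccos δ, hα0, hα1, ?_, ?_, ?_, ?_, g1, g2, ?_, ?_⟩
  · have h2 : Real.pi / 2 - Real.arccos δ = Real.arcsin δ := by
      rw [Real.arccos_eq_pi_div_two_sub_arcsin]; ring
    rw [h2]
    have h3 : 0 ≤ Real.arcsin δ := Real.arcsin_nonneg.2 h0.le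
    have h4 := Real.mul_le_sin h3 (Real.arcsin_le_pi_div_two δ)
    rw [Real.sin_arcsin (by linarith) (by linarith)] at h4
    have h5 : Real.arcsin δ = (Real.pi / 2) * (2 / Real.pi * Real.arcsin δ) := by
      field_simp
    rw [h5]
    calc (Real.pi / 2) * (2 / Real.pi * Real.arcsin δ) ≤ (Real.pi / 2) * δ := by gcongr
      _ ≤ 2 * δ := by nlinarith
  · intro θ hθ
    calc δ = Real.cos (Real.arccos δ) := hc.symm
      _ ≤ Real.cos |θ| := Real.cos_le_cos_of_nonneg_of_le_pi (abs_nonneg _)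
          (by linarith) (abs_le.2 ⟨hθ.1, hθ.2⟩)
      _ = Real.cos θ := Real.cos_abs θ
  · intro θ hθ
    have k : δ ≤ Real.cos (Real.pi - θ) := by
      calc δ = Real.cos (Real.arccos δ) := hc.symm
        _ ≤ _ := Real.cos_le_cos_of_nonneg_of_le_pi (by linarith [hθ.2]) (by linarith)
          (by linarith [hθ.1])
    rw [Real.cos_pi_sub] at k
    linarith
  · intro θ hθ
    have k : δ ≤ Real.cos (Real.pi + θ) := by
      calc δ = Real.cos (Real.arccos δ) := hc.symm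
        _ ≤ _ := Real.cos_le_cos_of_nonneg_of_le_pi (by linarith [hθ.1]) (by linarith)
          (by linarith [hθ.2])
    rw [add_comm, Real.cos_add_pi] at k
    linarith
  · intro θ hθ
    have k := g1 (-θ) ⟨by linarith [hθ.2], by linarith [hθ.1]⟩
    rw [Real.cos_neg, Real.sin_neg] at k
    exact ⟨k.1, by linarith [k.2]⟩
  · intro θ hθ
    have k := g2 (-θ) ⟨by linarith [hθ.2], by linarith [hθ.1]⟩
    rw [Real.cos_neg, Real.sin_neg] at k
    exact ⟨k.1, by linarith [k.2]⟩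

/-- Fourth power criterion. -/
private lemma K4P_crit {T P Q c : ℝ} (hP : 0 < P) (hPQ : P ^ 4 = Q) (_hT : 0 ≤ T) (hc : 0 ≤ c)
    (h : T ^ 4 * Q ≤ c ^ 4) : T ≤ c / P := by
  rw [le_div_iff₀ hP]
  have h1 : (T * P) ^ 4 ≤ c ^ 4 := by
    rw [mul_pow, hPQ]
    exact h
  exact le_of_pow_le_pow_left₀ (by norm_num) hc h1

private lemma K4P_t2 {t δ Q P : ℝ} (ht : 0 < t) (hδ : 0 < δ) (hP : 0 < P) (hPQ : P ^ 4 = Q)
    (h : Q ≤ 37 * (t * δ) ^ 2) : 8 / √(2 * t * δ) ≤ 14 / P := by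
  refine K4P_crit hP hPQ (by positivity) (by norm_num) ?_
  have e : (8 / √(2 * t * δ)) ^ 4 = 1024 / (t * δ) ^ 2 := by
    have h2 : √(2 * t * δ) ^ 4 = (2 * t * δ) ^ 2 := by
      rw [show (4 : ℕ) = 2 * 2 from rfl, pow_mul, Real.sq_sqrt (by positivity)]
    rw [div_pow, h2]
    field_simp
    norm_num
  rw [e, div_mul_eq_mul_div, div_le_iff₀ (by positivity)]
  nlinarith

private theorem K4P_main {t x : ℝ} (ht : 1 ≤ t) (hx : 0 ≤ x) :
    ‖∫ θ in (-Real.pi)..Real.pi, K4P_E t x θ‖ ≤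
      100 / (t * (1 + |2 * t - x|)) ^ (1 / 4 : ℝ) := by
  have hpi := Real.pi_pos
  have ht0 : 0 < t := by linarith
  obtain ⟨D, hD⟩ : ∃ D, D = |2 * t - x| := ⟨_, rfl⟩
  rw [← hD]
  have hD0 : 0 ≤ D := by rw [hD]; exact abs_nonneg _
  obtain ⟨P, hPdef⟩ : ∃ P, P = (t * (1 + D)) ^ (1 / 4 : ℝ) := ⟨_, rfl⟩
  rw [← hPdef]
  have hQ0 : 0 < t * (1 + D) := by positivity
  have hP : 0 < P := by rw [hPdef]; exact Real.rpow_pos_of_pos hQ0 _
  have hPQ : P ^ 4 = t * (1 + D) := by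
    rw [hPdef, ← Real.rpow_natCast, ← Real.rpow_mul hQ0.le]
    norm_num
  -- cutting
  have hcut : ∀ α : ℝ, ‖∫ θ in (-Real.pi)..Real.pi, K4P_E t x θ‖ ≤
      ‖∫ θ in (-Real.pi)..(-(Real.pi - α)), K4P_E t x θ‖ +
      (‖∫ θ in (-(Real.pi - α))..(-(Real.pi / 2)), K4P_E t x θ‖ +
      (‖∫ θ in (-(Real.pi / 2))..(-α), K4P_E t x θ‖ +
      (‖∫ θ in (-α)..α, K4P_E t x θ‖ +
      (‖∫ θ in α..(Real.pi / 2), K4P_E t x θ‖ +
      (‖∫ θ in (Real.pi / 2)..(Real.pi - α), K4P_E t x θ‖ +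
      ‖∫ θ in (Real.pi - α)..Real.pi, K4P_E t x θ‖))))) := by
    intro α
    refine (K4P_add t x _ (-(Real.pi - α)) _).trans (add_le_add_right ?_ _)
    refine (K4P_add t x _ (-(Real.pi / 2)) _).trans (add_le_add_right ?_ _)
    refine (K4P_add t x _ (-α) _).trans (add_le_add_right ?_ _)
    refine (K4P_add t x _ α _).trans (add_le_add_right ?_ _)
    refine (K4P_add t x _ (Real.pi / 2) _).trans (add_le_add_right ?_ _)
    exact K4P_add t x _ (Real.pi - α) _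
  have hfin : ∀ c : ℝ, c ≤ 100 → c / P ≤ 100 / P := fun c hc => by gcongr
  rcases le_or_gt (D ^ 3) t with hA | hA
  · -- case A
    obtain ⟨τ, hτ⟩ : ∃ τ, τ = t ^ (1 / 3 : ℝ) := ⟨_, rfl⟩
    have hτ3 : τ ^ 3 = t := by
      rw [hτ, ← Real.rpow_natCast, ← Real.rpow_mul ht0.le]
      norm_num
    have hτ1 : 1 ≤ τ := by rw [hτ]; exact Real.one_le_rpow ht (by norm_num)
    have hDτ : D ≤ τ := by
      refine le_of_pow_le_pow_left₀ (n := 3) (by norm_num) (by linarith) ?_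
      rw [hτ3]; exact hA
    have hδ0 : 0 < 1 / (2 * τ) := by positivity
    have hδ1 : 1 / (2 * τ) ≤ 1 / 2 := by
      rw [div_le_div_iff₀ (by positivity) (by norm_num)]
      linarith
    obtain ⟨α, hα0, hα1, hα2, c1, c2, c3, c4, c5, c6, c7⟩ := K4P_geo hδ0 hδ1
    have hQ : t * (1 + D) ≤ 2 * τ ^ 4 := by
      rw [← hτ3]
      nlinarith [pow_pos (by linarith : (0 : ℝ) < τ) 3]
    have hv2 : 8 / √(2 * t * (1 / (2 * τ))) ≤ 14 / P := by
      refine K4P_t2 ht0 hδ0 hP hPQ (hQ.trans ?_)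
      have e : (t * (1 / (2 * τ))) ^ 2 = τ ^ 4 / 4 := by
        rw [← hτ3]
        field_simp
        ring
      rw [e]
      nlinarith [pow_pos (by linarith : (0 : ℝ) < τ) 4]
    have hv0 : Real.pi / 2 - α ≤ 3 / P := by
      refine K4P_crit hP hPQ (by linarith) (by norm_num) ?_
      have h1 : Real.pi / 2 - α ≤ 1 / τ := by
        refine hα2.trans (le_of_eq ?_)
        field_simp
      have h2 : (Real.pi / 2 - α) ^ 4 ≤ (1 / τ) ^ 4 := pow_le_pow_left₀ (by linarith) h1 4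
      calc (Real.pi / 2 - α) ^ 4 * (t * (1 + D)) ≤ (1 / τ) ^ 4 * (2 * τ ^ 4) := by gcongr
        _ = 2 := by field_simp
        _ ≤ _ := by norm_num
    have n1 := (K4P_v2 (x := x) ht0 (by linarith) hδ0 (Or.inr c3)).trans hv2
    have n2 := (K4P_v0 (t := t) (x := x) (a := -(Real.pi - α)) (b := -(Real.pi / 2))
      (by linarith))
    have n3 := (K4P_v0 (t := t) (x := x) (a := -(Real.pi / 2)) (b := -α) (by linarith))
    have n4 := (K4P_v2 (x := x) ht0 (by linarith) hδ0 (Or.inl c1)).trans hv2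
    have n5 := (K4P_v0 (t := t) (x := x) (a := α) (b := Real.pi / 2) (by linarith))
    have n6 := (K4P_v0 (t := t) (x := x) (a := Real.pi / 2) (b := Real.pi - α) (by linarith))
    have n7 := (K4P_v2 (x := x) ht0 (by linarith) hδ0 (Or.inr c2)).trans hv2
    have h8 := hcut α
    have h9 : ‖∫ θ in (-Real.pi)..Real.pi, K4P_E t x θ‖ ≤ 54 / P := by
      have e : 54 / P = 3 * (14 / P) + 4 * (3 / P) := by ring
      rw [e]
      linarith
    exact h9.trans (hfin 54 (by norm_num))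
  -- D is large
  have hDpos : 0 < D := by
    by_contra h
    have : D = 0 := le_antisymm (not_lt.1 h) hD0
    rw [this] at hA
    norm_num at hA
    linarith
  have hD1 : 1 ≤ D := by
    by_contra h
    push Not at h
    have : D ^ 3 ≤ 1 := pow_le_one₀ hD0 h.le
    linarith
  have hterm : ∀ μ : ℝ, D / 2 ≤ μ → 4 / μ ≤ 10 / P := by
    intro μ hμ
    have hμ0 : 0 < μ := by linarith
    refine K4P_crit hP hPQ (by positivity) (by norm_num) ?_
    have h1 : 4 / μ ≤ 8 / D := by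
      rw [div_le_div_iff₀ hμ0 hDpos]
      linarith
    have h2 : (4 / μ) ^ 4 ≤ (8 / D) ^ 4 := pow_le_pow_left₀ (by positivity) h1 4
    calc (4 / μ) ^ 4 * (t * (1 + D)) ≤ (8 / D) ^ 4 * (D ^ 3 * (2 * D)) := by
          gcongr
          linarith
      _ = 8192 := by
          field_simp
          norm_num
      _ ≤ _ := by norm_num
  rcases le_or_gt D (2 * t) with hB | hB
  · -- case B
    obtain ⟨δ, hδ⟩ : ∃ δ, δ = √(D / (16 * t)) := ⟨_, rfl⟩
    have hδ0 : 0 < δ := by rw [hδ]; exact Real.sqrt_pos.2 (by positivity)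
    have hδ2 : δ ^ 2 = D / (16 * t) := by rw [hδ]; exact Real.sq_sqrt (by positivity)
    have hδ1 : δ ≤ 1 / 2 := by
      refine le_of_pow_le_pow_left₀ (n := 2) (by norm_num) (by norm_num) ?_
      rw [hδ2, div_le_iff₀ (by positivity)]
      linarith
    obtain ⟨α, hα0, hα1, hα2, c1, c2, c3, c4, c5, c6, c7⟩ := K4P_geo hδ0 hδ1
    have htδ : 2 * t * δ ^ 2 = D / 8 := by
      rw [hδ2]
      field_simp
      ring
    have hv2 : 8 / √(2 * t * δ) ≤ 14 / P := by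
      refine K4P_t2 ht0 hδ0 hP hPQ ?_
      have e : (t * δ) ^ 2 = t * D / 16 := by
        rw [mul_pow, hδ2]
        field_simp
      rw [e]
      nlinarith
    -- the sign of `x - 2t sin θ` near `π/2`
    have hder : (∀ s : ℝ, 1 - δ ^ 2 ≤ s → s ≤ 1 → D / 2 ≤ x - 2 * t * s) ∨
        (∀ s : ℝ, 1 - δ ^ 2 ≤ s → s ≤ 1 → x - 2 * t * s ≤ -(D / 2)) := by
      rcases le_or_gt (2 * t) x with h | h
      · left
        intro s hs hs1
        have hDx : D = x - 2 * t := by rw [hD, abs_of_nonpos (by linarith)]; ring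
        have : 2 * t * s ≤ 2 * t * 1 := by gcongr
        linarith
      · right
        intro s hs hs1
        have hDx : D = 2 * t - x := by rw [hD, abs_of_pos (by linarith)]
        have : 2 * t * (1 - δ ^ 2) ≤ 2 * t * s := by gcongr
        have e : 2 * t * (1 - δ ^ 2) = 2 * t - D / 8 := by rw [mul_sub, htδ]; ring
        linarith
    have hder2 : ∀ s : ℝ, s ≤ -(1 - δ ^ 2) → D / 2 ≤ x - 2 * t * s := by
      intro s hs
      have h1 : 2 * t * s ≤ 2 * t * (-(1 - δ ^ 2)) := by gcongr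
      have e : 2 * t * (-(1 - δ ^ 2)) = -(2 * t) + D / 8 := by
        have : 2 * t * (-(1 - δ ^ 2)) = -(2 * t) + 2 * t * δ ^ 2 := by ring
        rw [this, htδ]
      linarith
    have n1 := (K4P_v2 (x := x) ht0 (by linarith) hδ0 (Or.inr c3)).trans hv2
    have n2 := (K4P_v1 (x := x) ht0.le (a := -(Real.pi - α)) (b := -(Real.pi / 2))
      (by linarith) (by positivity : 0 < D / 2) (Or.inr fun θ hθ => (c7 θ hθ).1)
      (Or.inl fun θ hθ => hder2 _ (c7 θ hθ).2)).trans (hterm _ le_rfl)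
    have n3 := (K4P_v1 (x := x) ht0.le (a := -(Real.pi / 2)) (b := -α)
      (by linarith) (by positivity : 0 < D / 2) (Or.inl fun θ hθ => (c6 θ hθ).1)
      (Or.inl fun θ hθ => hder2 _ (c6 θ hθ).2)).trans (hterm _ le_rfl)
    have n4 := (K4P_v2 (x := x) ht0 (by linarith) hδ0 (Or.inl c1)).trans hv2
    have n5 := (K4P_v1 (x := x) ht0.le (a := α) (b := Real.pi / 2)
      (by linarith) (by positivity : 0 < D / 2) (Or.inl fun θ hθ => (c4 θ hθ).1)
      (hder.imp (fun h θ hθ => h _ (c4 θ hθ).2 (Real.sin_le_one _))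
        (fun h θ hθ => h _ (c4 θ hθ).2 (Real.sin_le_one _)))).trans (hterm _ le_rfl)
    have n6 := (K4P_v1 (x := x) ht0.le (a := Real.pi / 2) (b := Real.pi - α)
      (by linarith) (by positivity : 0 < D / 2) (Or.inr fun θ hθ => (c5 θ hθ).1)
      (hder.imp (fun h θ hθ => h _ (c5 θ hθ).2 (Real.sin_le_one _))
        (fun h θ hθ => h _ (c5 θ hθ).2 (Real.sin_le_one _)))).trans (hterm _ le_rfl)
    have n7 := (K4P_v2 (x := x) ht0 (by linarith) hδ0 (Or.inr c2)).trans hv2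
    have h8 := hcut α
    have h9 : ‖∫ θ in (-Real.pi)..Real.pi, K4P_E t x θ‖ ≤ 82 / P := by
      have e : 82 / P = 3 * (14 / P) + 4 * (10 / P) := by ring
      rw [e]
      linarith
    exact h9.trans (hfin 82 (by norm_num))
  · -- case C
    have hx2 : 2 * t < x := by
      by_contra h
      push Not at h
      have : D = 2 * t - x := by rw [hD, abs_of_nonneg (by linarith)]
      linarith
    have hDx : D = x - 2 * t := by rw [hD, abs_of_neg (by linarith)]; ring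
    have hd : ∀ θ : ℝ, D / 2 ≤ x - 2 * t * Real.sin θ := by
      intro θ
      have : 2 * t * Real.sin θ ≤ 2 * t * 1 := by
        have := Real.sin_le_one θ
        gcongr
      linarith
    have h0 := K4P_add t x (-Real.pi) (-(Real.pi / 2)) Real.pi
    have h1 := K4P_add t x (-(Real.pi / 2)) (Real.pi / 2) Real.pi
    have n1 := (K4P_v1 (x := x) ht0.le (a := -Real.pi) (b := -(Real.pi / 2))
      (by linarith) (by positivity : 0 < D / 2) (Or.inr fun θ hθ => by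
        have := Real.cos_nonpos_of_pi_div_two_le_of_le (x := -θ) (by linarith [hθ.2])
          (by linarith [hθ.1])
        rwa [Real.cos_neg] at this)
      (Or.inl fun θ _ => hd θ)).trans (hterm _ le_rfl)
    have n2 := (K4P_v1 (x := x) ht0.le (a := -(Real.pi / 2)) (b := Real.pi / 2)
      (by linarith) (by positivity : 0 < D / 2) (Or.inl fun θ hθ =>
        Real.cos_nonneg_of_mem_Icc ⟨by linarith [hθ.1], hθ.2⟩)
      (Or.inl fun θ _ => hd θ)).trans (hterm _ le_rfl)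
    have n3 := (K4P_v1 (x := x) ht0.le (a := Real.pi / 2) (b := Real.pi)
      (by linarith) (by positivity : 0 < D / 2) (Or.inr fun θ hθ =>
        Real.cos_nonpos_of_pi_div_two_le_of_le hθ.1 (by linarith [hθ.2]))
      (Or.inl fun θ _ => hd θ)).trans (hterm _ le_rfl)
    have h9 : ‖∫ θ in (-Real.pi)..Real.pi, K4P_E t x θ‖ ≤ 30 / P := by
      have e : 30 / P = 3 * (10 / P) := by ring
      rw [e]
      linarith
    exact h9.trans (hfin 30 (by norm_num))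

/-- Symmetry in `x`. -/
private lemma K4P_neg (t x : ℝ) : ∫ θ in (-Real.pi)..Real.pi, K4P_E t (-x) θ =
    ∫ θ in (-Real.pi)..Real.pi, K4P_E t x θ := by
  have h := intervalIntegral.integral_comp_neg (a := -Real.pi) (b := Real.pi) (f := K4P_E t x)
  rw [neg_neg] at h
  rw [← h]
  refine intervalIntegral.integral_congr fun θ _ => ?_
  simp only [K4P_E, Real.cos_neg, mul_neg, neg_mul]

private lemma K4P_kf (t : ℝ) (m : ℤ) : ‖kf t m‖ =
    1 / (2 * Real.pi) * ‖∫ θ in (-Real.pi)..Real.pi, K4P_E t m θ‖ := by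
  have hpi := Real.pi_pos
  unfold kf
  rw [norm_smul, Real.norm_of_nonneg (by positivity)]
  rfl

lemma kf_one (t : ℝ) (m : ℤ) : ‖kf t m‖ ≤ 1 := by
  have hpi := Real.pi_pos
  rw [K4P_kf]
  have h := K4P_v0 (t := t) (x := m) (a := -Real.pi) (b := Real.pi) (by linarith)
  calc 1 / (2 * Real.pi) * ‖∫ θ in (-Real.pi)..Real.pi, K4P_E t m θ‖
      ≤ 1 / (2 * Real.pi) * (Real.pi - -Real.pi) := by gcongr
    _ = 1 := by field_simp; ring

theorem kf_le : ∃ C : ℝ, 0 < C ∧ ∀ (t : ℝ) (m : ℤ), 1 ≤ t →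
    ‖kf t m‖ ≤ C * t ^ (-(1 / 4 : ℝ)) * (1 + abs (2 * t - abs (m : ℝ))) ^ (-(1 / 4 : ℝ)) := by
  refine ⟨100, by norm_num, fun t m ht => ?_⟩
  have hpi := Real.pi_pos
  have hpi3 := Real.pi_gt_three
  have h1 : ‖∫ θ in (-Real.pi)..Real.pi, K4P_E t m θ‖ ≤
      100 / (t * (1 + abs (2 * t - abs (m : ℝ)))) ^ (1 / 4 : ℝ) := by
    rcases le_or_gt 0 (m : ℝ) with h | h
    · rw [abs_of_nonneg h]
      exact K4P_main ht h
    · have h2 := K4P_main (x := -(m : ℝ)) ht (by linarith)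
      rw [K4P_neg] at h2
      rw [abs_of_neg h]
      exact h2
  have hQ : 0 < 1 + abs (2 * t - abs (m : ℝ)) := by positivity
  have ht0 : 0 < t := by linarith
  have e : 100 / (t * (1 + abs (2 * t - abs (m : ℝ)))) ^ (1 / 4 : ℝ) =
      100 * t ^ (-(1 / 4 : ℝ)) * (1 + abs (2 * t - abs (m : ℝ))) ^ (-(1 / 4 : ℝ)) := by
    rw [Real.mul_rpow ht0.le hQ.le, Real.rpow_neg ht0.le, Real.rpow_neg hQ.le]
    field_simp
  rw [K4P_kf, ← e]
  have h3 : 1 / (2 * Real.pi) ≤ 1 := by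
    rw [div_le_one (by positivity)]
    linarith
  calc 1 / (2 * Real.pi) * ‖∫ θ in (-Real.pi)..Real.pi, K4P_E t m θ‖
      ≤ 1 * ‖∫ θ in (-Real.pi)..Real.pi, K4P_E t m θ‖ := by gcongr
    _ ≤ _ := by rw [one_mul]; exact h1

end Pool.Agent.BK
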