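import Pool.Agent.BK.Defs

/-! BK: the cut-off one-dimensional kernels. -/

open MeasureTheory Set

noncomputable section

namespace Pool.Agent.BK

/-- Smooth cutoff: `0` where `cos θ ≤ b/16`, `1` where `cos θ ≥ b/8`. -/
def chi (b θ : ℝ) : ℝ := Real.smoothTransition ((Real.cos θ - b / 16) / (b / 16))

/-- `s₁ = √(1 - (b/32)²) < 1`; on the support of `chi b`, `|sin θ| ≤ √(1 - (b/16)²) < s₁`. -/
def s1 (b : ℝ) : ℝ := √(1 - (b / 32) ^ 2)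

/-- The kernel on the line:
`(1/2π) ∫_{-π}^{π} chi(θ) exp(i(xθ - t(2 - 2 cos θ))) dθ`. -/
def kz (b t x : ℝ) : ℂ := (1 / (2 * Real.pi) : ℝ) • ∫ θ in (-Real.pi)..Real.pi,
  (chi b θ : ℂ) * Complex.exp (Complex.I * ((x * θ - t * (2 - 2 * Real.cos θ) : ℝ) : ℂ))

/-- The kernel on the cycle `ℤ/(2n+1)`. -/
def kn (b : ℝ) (n : ℕ) (t : ℝ) (m : ZMod (2 * n + 1)) : ℂ :=
  (1 / (2 * n + 1) : ℝ) • ∑ q : ZMod (2 * n + 1),
    (chi b (ang n q) : ℂ) * Complex.exp (Complex.I *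
      ((ang n q * (m.valMinAbs : ℝ) - t * (2 - 2 * Real.cos (ang n q)) : ℝ) : ℂ))

/-- The phase `φ_x(t) = x θ_c - t (2 - 2 cos θ_c)`, `θ_c = arcsin (x/2t)`. -/
def phs (x t : ℝ) : ℝ :=
  x * Real.arcsin (x / (2 * t)) - t * (2 - 2 * Real.cos (Real.arcsin (x / (2 * t))))

/-- Time block integral of the free kernel on the torus. -/
def blk (b : ℝ) {d n : ℕ} (ζ : ℂ) (T : ℝ) (x : Tor d n) : ℂ :=
  ∫ t in T..(2 * T), Complex.exp (Complex.I * ζ * (t : ℂ)) * ∏ l, kn b n t (x l)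

/-- Symbol of the time block (without cutoff). -/
def fblk {d n : ℕ} (ζ : ℂ) (T : ℝ) (q : Tor d n) : ℂ :=
  ∫ t in T..(2 * T), Complex.exp (Complex.I * (ζ - (omg q : ℂ)) * (t : ℂ))

/-- Product cutoff on the dual torus. -/
def Chi (b : ℝ) {d n : ℕ} (q : Tor d n) : ℝ := ∏ l, chi b (ang n (q l))

end Pool.Agent.BK
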