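import Pool.Agent.BK.KDefs

/-! BK: the full one-dimensional kernels (no cutoff), used for `d ≥ 4` and the whole band. -/

open MeasureTheory Set

noncomputable section

namespace Pool.Agent.BK

/-- The full kernel on the line: `(1/2π) ∫_{-π}^{π} exp(i(mθ - t(2 - 2 cos θ))) dθ` (a Bessel function up
to a phase). -/
def kf (t : ℝ) (m : ℤ) : ℂ := (1 / (2 * Real.pi) : ℝ) • ∫ θ in (-Real.pi)..Real.pi,
  Complex.exp (Complex.I * ((m * θ - t * (2 - 2 * Real.cos θ) : ℝ) : ℂ))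

/-- The full kernel on the cycle `ℤ/(2n+1)`. -/
def knf (n : ℕ) (t : ℝ) (m : ZMod (2 * n + 1)) : ℂ :=
  (1 / (2 * n + 1) : ℝ) • ∑ q : ZMod (2 * n + 1), Complex.exp (Complex.I *
      ((ang n q * (m.valMinAbs : ℝ) - t * (2 - 2 * Real.cos (ang n q)) : ℝ) : ℂ))

/-- Time block of the full kernel on the torus. -/
def blkf {d n : ℕ} (ζ : ℂ) (T : ℝ) (x : Tor d n) : ℂ :=
  ∫ t in T..(2 * T), Complex.exp (Complex.I * ζ * (t : ℂ)) * ∏ l, knf n t (x l)

end Pool.Agent.BK
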