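import Pool.Agent.BK.FinS

open MeasureTheory Pool.Agent.Helper3.Anderson Pool.Agent.BK

namespace Pool.Agent.BK.KeptLyapunovBeyond

/-- Beyond the kinetic scale: for single-site laws with a density between two positive constants on
a compact interval, the Lyapunov norm `L z` of the Green function of the Anderson model
`-Δ + λ V_ω` on `ℤ^d`, `d ≥ 3`, averaged over an energy window of half-width `δ ≥ λ^(2+2κ)` in the
spectrum, at any height `ε ≤ λ^(12/5)`, is at most `λ^(2+κ) |x|₁`, for every `κ < 1/5`. -/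
theorem result (μ : Measure ℝ) [IsProbabilityMeasure μ] (hμ : FatDensity μ)
    (d : ℕ) (a κ : ℝ) (ha : 0 < a) (hκ : 0 < κ) (hκ1 : κ < 1 / 5) :
    ∃ lam0 : ℝ, 0 < lam0 ∧ ∀ lam : ℝ, 0 < lam → lam ≤ lam0 →
      ∃ L : ℂ → Site d → ℝ, (∀ z : ℂ, 0 < z.im → IsLyapunovNorm d μ lam z (L z)) ∧
        ∀ E0 ε δ : ℝ, InWindow d a (E0 - δ) (E0 + δ) →
          0 < ε → ε ≤ lam ^ (12 / 5 : ℝ) → lam ^ (2 + 2 * κ) ≤ δ →
          ∀ x : Site d,
            IntervalIntegrable (fun E : ℝ => L (E + ε * Complex.I) x) volume (E0 - δ) (E0 + δ) ∧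
            (2 * δ)⁻¹ * ∫ E in (E0 - δ)..(E0 + δ), L (E + ε * Complex.I) x ≤
              lam ^ (2 + κ) * ∑ j, |(x j : ℝ)| := by
  obtain ⟨lam0, hlam0, hmain⟩ := main_all hμ d ha hκ hκ1
  refine ⟨lam0, hlam0, fun lam hlam hlam1 => ?_⟩
  obtain ⟨M, K, h⟩ := fin_goodLaw hμ
  have hex : ∀ z : ℂ, ∃ L : Site d → ℝ, 0 < z.im → IsLyapunovNorm d μ lam z L := by
    intro z
    by_cases hz : 0 < z.im
    · exact ⟨_, fun _ => isLyapunovNorm_LL h hlam d hz⟩
    · exact ⟨0, fun h0 => absurd h0 hz⟩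
  choose L hL using hex
  refine ⟨L, hL, fun E0 ε δ h1 hε hε2 hδ x => ?_⟩
  exact hmain lam hlam hlam1 E0 ε δ h1 hε hε2 hδ (fun E => L (E + ε * Complex.I))
    (fun E => hL _ (by simpa using hε)) x

end Pool.Agent.BK.KeptLyapunovBeyond
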