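import Pool.Agent.BK.KDefs

/-! BK module PHASE: the phase `phs x t`: `∂_t φ = -(2 - 2 cos θ_c) = -2 + 2√(1-(x/2t)²)`
(envelope: `x = 2t sin θ_c`), `∂_t² φ = x² / (2 t³ √(1 - (x/2t)²)) ≥ x²/(2t³)`. -/

open MeasureTheory Set

noncomputable section

namespace Pool.Agent.BK

/-- First derivative of the phase. -/
def phs' (x t : ℝ) : ℝ := -2 + 2 * √(1 - (x / (2 * t)) ^ 2)

/-- Second derivative of the phase. -/
def phs'' (x t : ℝ) : ℝ := x ^ 2 / (2 * t ^ 3 * √(1 - (x / (2 * t)) ^ 2))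

private lemma abs_div_lt {x t : ℝ} (ht : 0 < t) (h : |x| < 2 * t) : |x / (2 * t)| < 1 := by
  rw [abs_div, abs_of_pos (by positivity : (0:ℝ) < 2 * t), div_lt_one (by positivity)]
  exact h

private lemma one_sub_pos {x t : ℝ} (ht : 0 < t) (h : |x| < 2 * t) :
    0 < 1 - (x / (2 * t)) ^ 2 := by
  have h1 := abs_div_lt ht h
  have h2 : (x / (2 * t)) ^ 2 < 1 := by
    rw [← sq_abs]
    have h3 := abs_nonneg (x / (2 * t))
    nlinarith
  linarith

private lemma hasDerivAt_u {x t : ℝ} (ht : 0 < t) :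
    HasDerivAt (fun s : ℝ => x / (2 * s)) (-(x / (2 * t)) / t) t := by
  have h := (hasDerivAt_const t x).div ((hasDerivAt_id t).const_mul 2)
    (by simpa using ht.ne' : (2 : ℝ) * id t ≠ 0)
  refine h.congr_deriv ?_
  simp only [id]
  field_simp
  ring

private lemma hasDerivAt_s {x t : ℝ} (ht : 0 < t) (h : |x| < 2 * t) :
    HasDerivAt (fun s : ℝ => √(1 - (x / (2 * s)) ^ 2))
      ((x / (2 * t)) ^ 2 / (t * √(1 - (x / (2 * t)) ^ 2))) t := by
  have hp := one_sub_pos ht h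
  have h1 := ((hasDerivAt_u (x := x) ht).pow 2).const_sub 1
  have h2 : HasDerivAt (fun s : ℝ => √(1 - (x / (2 * s)) ^ 2)) _ t := h1.sqrt hp.ne'
  have hs : √(1 - (x / (2 * t)) ^ 2) ≠ 0 := (Real.sqrt_pos.2 hp).ne'
  refine h2.congr_deriv ?_
  simp only [Pi.pow_apply]
  push_cast
  field_simp

lemma phs_eq {x t : ℝ} (ht : 0 < t) (h : |x| < 2 * t) :
    phs x t = x * Real.arcsin (x / (2 * t)) - 2 * t + 2 * t * √(1 - (x / (2 * t)) ^ 2) := by
  unfold phs
  rw [Real.cos_arcsin]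
  ring

lemma hasDerivAt_phs {x t : ℝ} (ht : 0 < t) (h : |x| < 2 * t) :
    HasDerivAt (phs x) (phs' x t) t := by
  have hp := one_sub_pos ht h
  have hs : 0 < √(1 - (x / (2 * t)) ^ 2) := Real.sqrt_pos.2 hp
  have hne1 : x / (2 * t) ≠ -1 := by
    intro h1; rw [h1] at hp; norm_num at hp
  have hne2 : x / (2 * t) ≠ 1 := by
    intro h1; rw [h1] at hp; norm_num at hp
  have hf : phs x = fun s : ℝ => x * Real.arcsin (x / (2 * s)) -
      s * (2 - 2 * √(1 - (x / (2 * s)) ^ 2)) := by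
    funext s
    unfold phs
    rw [Real.cos_arcsin]
  rw [hf]
  have ha := ((Real.hasDerivAt_arcsin hne1 hne2).comp t (hasDerivAt_u (x := x) ht)).const_mul x
  have hb := (hasDerivAt_id t).mul (((hasDerivAt_s ht h).const_mul 2).const_sub 2)
  have hc := ha.sub hb
  refine (hc.congr_deriv ?_)
  unfold phs'
  simp only [id]
  have hx : x = 2 * t * (x / (2 * t)) := by field_simp
  set u : ℝ := x / (2 * t) with hu
  set s : ℝ := √(1 - u ^ 2) with hsdef
  rw [hx]
  field_simp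
  ring

lemma hasDerivAt_phs' {x t : ℝ} (ht : 0 < t) (h : |x| < 2 * t) :
    HasDerivAt (phs' x) (phs'' x t) t := by
  have hp := one_sub_pos ht h
  have hs : 0 < √(1 - (x / (2 * t)) ^ 2) := Real.sqrt_pos.2 hp
  have h1 := ((hasDerivAt_s ht h).const_mul 2).const_add (-2)
  refine h1.congr_deriv ?_
  unfold phs''
  have : √(1 - (x / (2 * t)) ^ 2) ≠ 0 := hs.ne'
  field_simp

lemma phs''_ge {x t : ℝ} (ht : 0 < t) (h : |x| < 2 * t) : x ^ 2 / (2 * t ^ 3) ≤ phs'' x t := by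
  have hp := one_sub_pos ht h
  have hs : 0 < √(1 - (x / (2 * t)) ^ 2) := Real.sqrt_pos.2 hp
  have hs1 : √(1 - (x / (2 * t)) ^ 2) ≤ 1 := by
    apply Real.sqrt_le_one.mpr
    have := sq_nonneg (x / (2 * t))
    linarith
  unfold phs''
  apply div_le_div_of_nonneg_left (sq_nonneg x) (by positivity)
  have : 0 < 2 * t ^ 3 := by positivity
  nlinarith

lemma phs'_ge {x t : ℝ} (ht : 0 < t) (h : |x| < 2 * t) : -2 * (x / (2 * t)) ^ 2 ≤ phs' x t := by
  have hp := one_sub_pos ht h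
  have hs : 0 < √(1 - (x / (2 * t)) ^ 2) := Real.sqrt_pos.2 hp
  have hs2 : √(1 - (x / (2 * t)) ^ 2) ^ 2 = 1 - (x / (2 * t)) ^ 2 := Real.sq_sqrt hp.le
  have hs1 : √(1 - (x / (2 * t)) ^ 2) ≤ 1 := by
    apply Real.sqrt_le_one.mpr
    have := sq_nonneg (x / (2 * t))
    linarith
  unfold phs'
  nlinarith

lemma continuousOn_phs'' (x : ℝ) : ContinuousOn (phs'' x) {t | 0 < t ∧ |x| < 2 * t} := by
  unfold phs''
  have hd : ∀ t ∈ {t : ℝ | 0 < t ∧ |x| < 2 * t}, 2 * t ≠ 0 := by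
    intro t ht; have := ht.1; positivity
  have hu : ContinuousOn (fun t : ℝ => x / (2 * t)) {t | 0 < t ∧ |x| < 2 * t} :=
    continuousOn_const.div (continuousOn_const.mul continuousOn_id) hd
  refine continuousOn_const.div ?_ ?_
  · exact ((continuousOn_const.mul (continuousOn_id.pow 3)).mul
      ((continuousOn_const.sub (hu.pow 2)).sqrt))
  · intro t ht
    have h1 := ht.1
    have hs : 0 < √(1 - (x / (2 * t)) ^ 2) := Real.sqrt_pos.2 (one_sub_pos h1 ht.2)
    positivity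

end Pool.Agent.BK
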