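import Pool.Agent.BK.Ker1
import Pool.Agent.BK.Phase

/-! BK module KER2: amplitude and phase of the kernel in the stationary regime `|x| ≤ 2 t s₁`.

Put `A(t) = kz b t x · exp(-i φ_x(t))`. Then `|A| ≤ C/√t` (`kz_le`). With `θ_c = arcsin(x/2t)`,
`ψ(θ) = xθ - t ω(θ)`, `ω = 2 - 2cos`, one has `φ' = -ω(θ_c)` and
`ω(θ) - ω(θ_c) = 4 sin((θ+θ_c)/2) sin((θ-θ_c)/2)`, `ψ'(θ) = -4t cos((θ+θ_c)/2) sin((θ-θ_c)/2)`, so
`ω(θ) - ω(θ_c) = - tan((θ+θ_c)/2) ψ'(θ) / t`. Hence
`A'(t) = (1/2π) ∫ chi (-i)(ω(θ) - ω(θ_c)) e^{iψ} dθ e^{-iφ} = (1/(2π t)) ∫ chi tan((θ+θ_c)/2) (e^{iψ})' dθ e^{-iφ}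
= -(1/(2π t)) ∫ (chi tan((θ+θ_c)/2))' e^{iψ} dθ e^{-iφ}`,
which is `≤ C t^{-3/2}` by `osc_le` (`|θ| ≤ arccos(b/16)`, `|θ_c| ≤ arcsin s₁ = arccos(b/32) < π/2`,
so `(θ+θ_c)/2` stays in a compact subset of `(-π/2, π/2)`; extend the amplitude by `0` where
`chi = 0`: it is `C²` on all of `ℝ` e.g. because `chi` vanishes near the boundary of its support; or
use `tan(u) = sin(2u)/(1+cos(2u)) = (sin(θ+θ_c))/(1 + cos(θ+θ_c))`). -/

open MeasureTheory Set

noncomputable section

namespace Pool.Agent.BK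

lemma ker2_cd (b : ℝ) : ContDiff ℝ 2 (chi b) := by
  have h1 : ContDiff ℝ 2 Real.smoothTransition := Real.smoothTransition.contDiff (n := 2)
  have h2 : ContDiff ℝ 2 (fun θ : ℝ => (Real.cos θ - b / 16) / (b / 16)) :=
    (Real.contDiff_cos.sub contDiff_const).div_const _
  exact h1.comp h2

lemma ker2_cd1 (b : ℝ) : ContDiff ℝ 1 (deriv (chi b)) := by
  have h : ContDiff ℝ (1 + 1) (chi b) := by
    have := ker2_cd b
    norm_num
    exact this
  exact (contDiff_succ_iff_deriv.1 h).2.2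

lemma ker2_d1 (b θ : ℝ) : HasDerivAt (chi b) (deriv (chi b) θ) θ :=
  ((ker2_cd b).differentiable (by norm_num) θ).hasDerivAt

lemma ker2_d2 (b θ : ℝ) : HasDerivAt (deriv (chi b)) (deriv (deriv (chi b)) θ) θ :=
  ((ker2_cd1 b).differentiable (by norm_num) θ).hasDerivAt

lemma ker2_c0 (b : ℝ) : Continuous (chi b) := (ker2_cd b).continuous

lemma ker2_c1 (b : ℝ) : Continuous (deriv (chi b)) := (ker2_cd1 b).continuous

lemma ker2_c2 (b : ℝ) : Continuous (deriv (deriv (chi b))) :=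
  (ker2_cd1 b).continuous_deriv (by norm_num)

lemma ker2_z1 {b θ : ℝ} (hb : 0 < b) (h : Real.cos θ ≤ b / 16) : deriv (chi b) θ = 0 := by
  apply IsLocalMin.deriv_eq_zero
  apply Filter.Eventually.of_forall
  intro y
  rw [chi_zero hb h]
  exact chi_nonneg b y

lemma ker2_z2 {b θ : ℝ} (hb : 0 < b) (h : Real.cos θ < b / 16) :
    deriv (deriv (chi b)) θ = 0 := by
  have h1 : deriv (chi b) =ᶠ[nhds θ] fun _ => 0 := by
    have h2 : ∀ᶠ y in nhds θ, Real.cos y < b / 16 :=
      Real.continuous_cos.continuousAt.eventually (gt_mem_nhds h)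
    filter_upwards [h2] with y hy
    exact ker2_z1 hb hy.le
  rw [h1.deriv_eq]
  simp

lemma ker2_bd (b : ℝ) : ∃ K : ℝ, 0 ≤ K ∧ ∀ θ ∈ Icc (-Real.pi) Real.pi,
    |deriv (chi b) θ| ≤ K ∧ |deriv (deriv (chi b)) θ| ≤ K := by
  obtain ⟨K1, hK1⟩ := isCompact_Icc.exists_bound_of_continuousOn (s := Icc (-Real.pi) Real.pi)
    (ker2_c1 b).continuousOn
  obtain ⟨K2, hK2⟩ := isCompact_Icc.exists_bound_of_continuousOn (s := Icc (-Real.pi) Real.pi)
    (ker2_c2 b).continuousOn
  refine ⟨max 0 (max K1 K2), le_max_left _ _, fun θ hθ => ⟨?_, ?_⟩⟩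
  · exact (hK1 θ hθ).trans ((le_max_left _ _).trans (le_max_right _ _))
  · exact (hK2 θ hθ).trans ((le_max_right _ _).trans (le_max_right _ _))

/-- Denominator `1 + cos(θ+θ_c)`. -/
def ker2D (k u θ : ℝ) : ℝ := 1 + (Real.cos θ * k - Real.sin θ * u)

/-- Numerator `sin(θ+θ_c)`. -/
def ker2N (k u θ : ℝ) : ℝ := Real.sin θ * k + Real.cos θ * u

lemma ker2_sq (k u θ : ℝ) (h : k ^ 2 + u ^ 2 = 1) :
    ker2N k u θ ^ 2 + (ker2D k u θ - 1) ^ 2 = 1 := by
  have h1 := Real.sin_sq_add_cos_sq θ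
  unfold ker2N ker2D
  linear_combination (k ^ 2 + u ^ 2) * h1 + h

lemma ker2_N_le (k u θ : ℝ) (h : k ^ 2 + u ^ 2 = 1) : |ker2N k u θ| ≤ 1 := by
  have h1 := ker2_sq k u θ h
  apply abs_le_one_iff_mul_self_le_one.2
  nlinarith [sq_nonneg (ker2D k u θ - 1)]

lemma ker2_D_ge (k u θ : ℝ) (h : k ^ 2 + u ^ 2 = 1) : Real.cos θ * k ≤ ker2D k u θ := by
  have h1 := Real.sin_sq_add_cos_sq θ
  unfold ker2D
  have h2 : Real.sin θ * u ≤ 1 := by
    nlinarith [sq_nonneg (Real.sin θ - u), sq_nonneg k, sq_nonneg (Real.cos θ)]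
  linarith

lemma ker2_D_der (k u θ : ℝ) : HasDerivAt (ker2D k u) (-ker2N k u θ) θ := by
  have h1 := ((Real.hasDerivAt_cos θ).mul_const k).sub ((Real.hasDerivAt_sin θ).mul_const u)
  have h2 := h1.const_add 1
  unfold ker2D
  refine h2.congr_deriv ?_
  unfold ker2N
  ring

lemma ker2_N_der (k u θ : ℝ) : HasDerivAt (ker2N k u) (ker2D k u θ - 1) θ := by
  have h1 := ((Real.hasDerivAt_sin θ).mul_const k).add ((Real.hasDerivAt_cos θ).mul_const u)
  unfold ker2N
  refine h1.congr_deriv ?_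
  unfold ker2D
  ring

/-- Quotient rule with a cutoff. -/
lemma ker2_quot {b k u : ℝ} (hb : 0 < b) (hk : 0 < k) (h : k ^ 2 + u ^ 2 = 1)
    {f f' : ℝ → ℝ} (hf : ∀ θ, HasDerivAt f (f' θ) θ)
    (h0 : ∀ θ, Real.cos θ < b / 16 → f θ = 0) (θ : ℝ) :
    HasDerivAt (fun y => f y / ker2D k u y)
      (f' θ / ker2D k u θ + f θ * ker2N k u θ / ker2D k u θ ^ 2) θ := by
  by_cases hc : Real.cos θ < b / 16
  · have h2 : ∀ᶠ y in nhds θ, Real.cos y < b / 16 :=
      Real.continuous_cos.continuousAt.eventually (gt_mem_nhds hc)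
    have hf0 : f =ᶠ[nhds θ] fun _ => 0 := by
      filter_upwards [h2] with y hy
      exact h0 y hy
    have hf'0 : f' θ = 0 := by
      rw [← (hf θ).deriv, hf0.deriv_eq]
      simp
    have h3 : (fun y => f y / ker2D k u y) =ᶠ[nhds θ] fun _ => 0 := by
      filter_upwards [hf0] with y hy
      simp [hy]
    rw [hf'0, h0 θ hc]
    simp only [zero_div, zero_mul, add_zero]
    exact (hasDerivAt_const θ (0 : ℝ)).congr_of_eventuallyEq h3
  · have hc' : 0 < Real.cos θ := by
      have : 0 < b / 16 := by positivity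
      linarith [not_lt.1 hc]
    have hD : 0 < ker2D k u θ := lt_of_lt_of_le (mul_pos hc' hk) (ker2_D_ge k u θ h)
    refine ((hf θ).div (ker2_D_der k u θ) hD.ne').congr_deriv ?_
    field_simp
    ring

lemma ker2_cont {b k u : ℝ} (hb : 0 < b) (hk : 0 < k) (h : k ^ 2 + u ^ 2 = 1)
    {f : ℝ → ℝ} (hf : Continuous f) (h0 : ∀ θ, Real.cos θ < b / 16 → f θ = 0) (n : ℕ) :
    Continuous (fun y => f y / ker2D k u y ^ n) := by
  rw [continuous_iff_continuousAt]
  intro θ
  by_cases hc : Real.cos θ < b / 16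
  · have h2 : ∀ᶠ y in nhds θ, Real.cos y < b / 16 :=
      Real.continuous_cos.continuousAt.eventually (gt_mem_nhds hc)
    have h3 : (fun y => f y / ker2D k u y ^ n) =ᶠ[nhds θ] fun _ => 0 := by
      filter_upwards [h2] with y hy
      simp [h0 y hy]
    exact continuousAt_const.congr h3.symm
  · have hc' : 0 < Real.cos θ := by
      have : 0 < b / 16 := by positivity
      linarith [not_lt.1 hc]
    have hD : 0 < ker2D k u θ := lt_of_lt_of_le (mul_pos hc' hk) (ker2_D_ge k u θ h)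
    have hDc : Continuous (ker2D k u) :=
      continuous_iff_continuousAt.2 fun y => (ker2_D_der k u y).continuousAt
    exact hf.continuousAt.div (hDc.continuousAt.pow n) (pow_ne_zero n hD.ne')

/-- The amplitude `chi tan((θ+θ_c)/2)`. -/
def ker2h (b k u θ : ℝ) : ℝ := chi b θ * ker2N k u θ / ker2D k u θ

/-- Its derivative. -/
def ker2g (b k u θ : ℝ) : ℝ := (deriv (chi b) θ * ker2N k u θ + chi b θ) / ker2D k u θ

/-- Its second derivative. -/
def ker2g' (b k u θ : ℝ) : ℝ :=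
  (deriv (deriv (chi b)) θ * ker2N k u θ + deriv (chi b) θ * ker2D k u θ) / ker2D k u θ +
    (deriv (chi b) θ * ker2N k u θ + chi b θ) * ker2N k u θ / ker2D k u θ ^ 2

lemma ker2_h_der {b k u : ℝ} (hb : 0 < b) (hk : 0 < k) (h : k ^ 2 + u ^ 2 = 1) (θ : ℝ) :
    HasDerivAt (ker2h b k u) (ker2g b k u θ) θ := by
  have h1 : ∀ θ, HasDerivAt (fun y => chi b y * ker2N k u y)
      (deriv (chi b) θ * ker2N k u θ + chi b θ * (ker2D k u θ - 1)) θ := fun θ =>
    (ker2_d1 b θ).mul (ker2_N_der k u θ)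
  have h2 := ker2_quot hb hk h h1 (fun θ hθ => by rw [chi_zero hb hθ.le]; simp) θ
  refine h2.congr_deriv ?_
  unfold ker2g
  by_cases hc : Real.cos θ < b / 16
  · rw [chi_zero hb hc.le, ker2_z1 hb hc.le]
    simp
  · have hc' : 0 < Real.cos θ := by
      have : 0 < b / 16 := by positivity
      linarith [not_lt.1 hc]
    have hD : 0 < ker2D k u θ := lt_of_lt_of_le (mul_pos hc' hk) (ker2_D_ge k u θ h)
    have hsq := ker2_sq k u θ h
    field_simp
    linear_combination (chi b θ) * hsq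

lemma ker2_f_der (b k u θ : ℝ) :
    HasDerivAt (fun y => deriv (chi b) y * ker2N k u y + chi b y)
      (deriv (deriv (chi b)) θ * ker2N k u θ + deriv (chi b) θ * ker2D k u θ) θ := by
  refine (((ker2_d2 b θ).mul (ker2_N_der k u θ)).add (ker2_d1 b θ)).congr_deriv ?_
  ring

lemma ker2_g_der {b k u : ℝ} (hb : 0 < b) (hk : 0 < k) (h : k ^ 2 + u ^ 2 = 1) (θ : ℝ) :
    HasDerivAt (ker2g b k u) (ker2g' b k u θ) θ := by
  refine ker2_quot hb hk h (ker2_f_der b k u) (fun θ hθ => ?_) θ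
  rw [chi_zero hb hθ.le, ker2_z1 hb hθ.le]
  simp

lemma ker2_g'_cont {b k u : ℝ} (hb : 0 < b) (hk : 0 < k) (h : k ^ 2 + u ^ 2 = 1) :
    Continuous (ker2g' b k u) := by
  have hDc : Continuous (ker2D k u) :=
    continuous_iff_continuousAt.2 fun y => (ker2_D_der k u y).continuousAt
  have hNc : Continuous (ker2N k u) :=
    continuous_iff_continuousAt.2 fun y => (ker2_N_der k u y).continuousAt
  have h1 := ker2_cont hb hk h (f := fun θ => deriv (deriv (chi b)) θ * ker2N k u θ +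
    deriv (chi b) θ * ker2D k u θ)
    (((ker2_c2 b).mul hNc).add ((ker2_c1 b).mul hDc))
    (fun θ hθ => by rw [ker2_z2 hb hθ, ker2_z1 hb hθ.le]; simp) 1
  have h2 := ker2_cont hb hk h (f := fun θ => (deriv (chi b) θ * ker2N k u θ + chi b θ) *
    ker2N k u θ)
    ((((ker2_c1 b).mul hNc).add (ker2_c0 b)).mul hNc)
    (fun θ hθ => by rw [chi_zero hb hθ.le, ker2_z1 hb hθ.le]; simp) 2
  simp only [pow_one] at h1
  exact h1.add h2

lemma ker2_g_zero {b k u θ : ℝ} (hb : 0 < b) (hθ : Real.cos θ ≤ b / 16) : ker2g b k u θ = 0 := by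
  unfold ker2g
  rw [chi_zero hb hθ, ker2_z1 hb hθ]
  simp

lemma ker2_g_bd {b : ℝ} (hb : 0 < b) : ∃ G : ℝ, 0 < G ∧ ∀ k u : ℝ, b / 32 ≤ k →
    k ^ 2 + u ^ 2 = 1 → ∀ θ ∈ Icc (-Real.pi) Real.pi,
      |ker2g b k u θ| ≤ G ∧ |ker2g' b k u θ| ≤ G := by
  obtain ⟨K, hK0, hK⟩ := ker2_bd b
  have hm : 0 < b / 16 * (b / 32) := by positivity
  set m : ℝ := b / 16 * (b / 32) with hmdef
  refine ⟨(K + 1) / m + (K / m + K + (K + 1) / m ^ 2), by positivity, fun k u hk h θ hθ => ?_⟩
  have hk0 : 0 < k := lt_of_lt_of_le (by positivity) hk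
  obtain ⟨h1, h2⟩ := hK θ hθ
  by_cases hc : Real.cos θ < b / 16
  · have e1 : ker2g b k u θ = 0 := ker2_g_zero hb hc.le
    have e2 : ker2g' b k u θ = 0 := by
      unfold ker2g'
      rw [chi_zero hb hc.le, ker2_z1 hb hc.le, ker2_z2 hb hc]
      simp
    rw [e1, e2, abs_zero]
    constructor <;> positivity
  · have hc' := not_lt.1 hc
    have hDm : m ≤ ker2D k u θ := by
      refine le_trans ?_ (ker2_D_ge k u θ h)
      exact mul_le_mul hc' hk (by positivity) (by linarith [show 0 < b / 16 by positivity])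
    have hD : 0 < ker2D k u θ := lt_of_lt_of_le hm hDm
    have hN := ker2_N_le k u θ h
    have hc0 : |chi b θ| ≤ 1 := by
      rw [abs_of_nonneg (chi_nonneg b θ)]
      exact chi_le_one b θ
    have hf : |deriv (chi b) θ * ker2N k u θ + chi b θ| ≤ K + 1 := by
      refine (abs_add_le _ _).trans ?_
      rw [abs_mul]
      have := mul_le_mul h1 hN (abs_nonneg _) hK0
      linarith
    have hg : |ker2g b k u θ| ≤ (K + 1) / m := by
      unfold ker2g
      rw [abs_div, abs_of_pos hD]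
      exact div_le_div₀ (by positivity) hf hm hDm
    refine ⟨hg.trans (by
      have : 0 ≤ K / m + K + (K + 1) / m ^ 2 := by positivity
      linarith), ?_⟩
    have hg2 : |ker2g' b k u θ| ≤ (K / m + K) + (K + 1) / m ^ 2 := by
      unfold ker2g'
      refine (abs_add_le _ _).trans (add_le_add ?_ ?_)
      · have e : (deriv (deriv (chi b)) θ * ker2N k u θ + deriv (chi b) θ * ker2D k u θ) /
            ker2D k u θ = deriv (deriv (chi b)) θ * ker2N k u θ / ker2D k u θ +
            deriv (chi b) θ := by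
          field_simp
        rw [e]
        refine (abs_add_le _ _).trans (add_le_add ?_ h1)
        rw [abs_div, abs_of_pos hD, abs_mul]
        refine div_le_div₀ hK0 ?_ hm hDm
        have := mul_le_mul h2 hN (abs_nonneg _) hK0
        linarith
      · rw [abs_div, abs_mul, abs_of_pos (pow_pos hD 2)]
        refine div_le_div₀ (by positivity) ?_ (pow_pos hm 2) (pow_le_pow_left₀ hm.le hDm 2)
        have := mul_le_mul hf hN (abs_nonneg _) (by positivity)
        linarith
    refine hg2.trans ?_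
    have : 0 ≤ (K + 1) / m := by positivity
    linarith

/-- The integrand's exponential factor. -/
def ker2e (x t θ : ℝ) : ℂ :=
  Complex.exp (Complex.I * ((x * θ - t * (2 - 2 * Real.cos θ) : ℝ) : ℂ))

lemma ker2_e_cont (x : ℝ) : Continuous (fun p : ℝ × ℝ => ker2e x p.1 p.2) := by
  unfold ker2e
  refine Complex.continuous_exp.comp (continuous_const.mul (Complex.continuous_ofReal.comp ?_))
  have := Real.continuous_cos
  fun_prop

lemma ker2_e_norm (x t θ : ℝ) : ‖ker2e x t θ‖ = 1 := by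
  unfold ker2e
  rw [mul_comm]
  exact Complex.norm_exp_ofReal_mul_I _

lemma ker2_e_dt (x t θ : ℝ) : HasDerivAt (fun s => ker2e x s θ)
    (ker2e x t θ * (-(Complex.I * ((2 - 2 * Real.cos θ : ℝ) : ℂ)))) t := by
  have h1 : HasDerivAt (fun s : ℝ => x * θ - s * (2 - 2 * Real.cos θ))
      (-(2 - 2 * Real.cos θ)) t := by
    have := ((hasDerivAt_id t).mul_const (2 - 2 * Real.cos θ)).const_sub (x * θ)
    simpa using this
  have h2 := (h1.ofReal_comp.const_mul Complex.I).cexp
  unfold ker2e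
  refine h2.congr_deriv ?_
  push_cast
  ring

lemma ker2_e_dθ (x t θ : ℝ) : HasDerivAt (fun y => ker2e x t y)
    (ker2e x t θ * (Complex.I * ((x - 2 * t * Real.sin θ : ℝ) : ℂ))) θ := by
  have h1 : HasDerivAt (fun y : ℝ => x * y - t * (2 - 2 * Real.cos y))
      (x - 2 * t * Real.sin θ) θ := by
    have h := ((hasDerivAt_id θ).const_mul x).sub
      ((((Real.hasDerivAt_cos θ).const_mul 2).const_sub 2).const_mul t)
    refine h.congr_deriv ?_
    ring
  have h2 := (h1.ofReal_comp.const_mul Complex.I).cexp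
  unfold ker2e
  exact h2

/-- The integral in `kz`. -/
def ker2F (b x t : ℝ) : ℂ := ∫ θ in (-Real.pi)..Real.pi, (chi b θ : ℂ) * ker2e x t θ

/-- Its `t`-derivative. -/
def ker2F1 (b x t : ℝ) : ℂ := ∫ θ in (-Real.pi)..Real.pi, (chi b θ : ℂ) *
  (ker2e x t θ * (-(Complex.I * ((2 - 2 * Real.cos θ : ℝ) : ℂ))))

lemma ker2_kz (b t x : ℝ) : kz b t x = ((1 / (2 * Real.pi) : ℝ) : ℂ) * ker2F b x t := by
  unfold kz ker2F ker2e
  exact Complex.real_smul

lemma ker2_chi_cont (b : ℝ) : Continuous (fun θ => (chi b θ : ℂ)) :=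
  Complex.continuous_ofReal.comp (ker2_c0 b)

lemma ker2_F_der (b x t : ℝ) : HasDerivAt (ker2F b x) (ker2F1 b x t) t := by
  have hc := ker2_e_cont x
  have hχ := ker2_chi_cont b
  have hcos := Real.continuous_cos
  have hct : ∀ s, Continuous (fun θ => ker2e x s θ) := fun s =>
    hc.comp (Continuous.prodMk_right s)
  have hw : Continuous (fun θ : ℝ => (-(Complex.I * ((2 - 2 * Real.cos θ : ℝ) : ℂ)))) :=
    (continuous_const.mul (Complex.continuous_ofReal.comp (by fun_prop))).neg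
  refine (intervalIntegral.hasDerivAt_integral_of_dominated_loc_of_deriv_le
    (F := fun s θ => (chi b θ : ℂ) * ker2e x s θ)
    (F' := fun s θ => (chi b θ : ℂ) *
      (ker2e x s θ * (-(Complex.I * ((2 - 2 * Real.cos θ : ℝ) : ℂ)))))
    (bound := fun _ => 4) (s := univ) Filter.univ_mem ?_ ?_ ?_ ?_ ?_ ?_).2
  · exact Filter.Eventually.of_forall fun s => (hχ.mul (hct s)).aestronglyMeasurable
  · exact (hχ.mul (hct t)).intervalIntegrable _ _
  · exact (hχ.mul ((hct t).mul hw)).aestronglyMeasurable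
  · refine Filter.Eventually.of_forall fun θ _ s _ => ?_
    rw [norm_mul, norm_mul, ker2_e_norm, norm_neg, norm_mul, Complex.norm_I, Complex.norm_real,
      Complex.norm_real, one_mul, one_mul, Real.norm_eq_abs, Real.norm_eq_abs,
      abs_of_nonneg (chi_nonneg b θ)]
    have h1 := chi_le_one b θ
    have h0 := chi_nonneg b θ
    have h2 : |2 - 2 * Real.cos θ| ≤ 4 := by
      rw [abs_le]
      constructor <;> linarith [Real.cos_le_one θ, Real.neg_one_le_cos θ]
    calc chi b θ * |2 - 2 * Real.cos θ| ≤ 1 * 4 :=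
          mul_le_mul h1 h2 (abs_nonneg _) (by norm_num)
      _ = 4 := by norm_num
  · exact intervalIntegrable_const
  · exact Filter.Eventually.of_forall fun θ _ s _ => (ker2_e_dt x s θ).const_mul _

lemma ker2_F1_cont (b x : ℝ) : Continuous (ker2F1 b x) := by
  unfold ker2F1
  apply intervalIntegral.continuous_parametric_intervalIntegral_of_continuous'
  have hc := ker2_e_cont x
  have hχ := ker2_chi_cont b
  have hcos := Real.continuous_cos
  have hw : Continuous (fun θ : ℝ => (-(Complex.I * ((2 - 2 * Real.cos θ : ℝ) : ℂ)))) :=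
    (continuous_const.mul (Complex.continuous_ofReal.comp (by fun_prop))).neg
  exact (hχ.comp continuous_snd).mul (hc.mul (hw.comp continuous_snd))

/-- The integration by parts. -/
lemma ker2_ibp {b k u t : ℝ} (hb : 0 < b) (hk : 0 < k) (h : k ^ 2 + u ^ 2 = 1) (ht : 0 < t) :
    ker2F1 b (2 * t * u) t + ker2F b (2 * t * u) t * (-(Complex.I * ((-2 + 2 * k : ℝ) : ℂ))) =
      -(1 / (t : ℂ)) * ∫ θ in (-Real.pi)..Real.pi, (ker2g b k u θ : ℂ) * ker2e (2 * t * u) t θ := by
  have hc := ker2_e_cont (2 * t * u)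
  have hχ := ker2_chi_cont b
  have hcos := Real.continuous_cos
  have hsin := Real.continuous_sin
  have hct : Continuous (fun θ => ker2e (2 * t * u) t θ) := hc.comp (Continuous.prodMk_right t)
  have hw : Continuous (fun θ : ℝ => (-(Complex.I * ((2 - 2 * Real.cos θ : ℝ) : ℂ)))) :=
    (continuous_const.mul (Complex.continuous_ofReal.comp (by fun_prop))).neg
  have hw2 : Continuous (fun θ : ℝ => (Complex.I * ((2 * t * u - 2 * t * Real.sin θ : ℝ) : ℂ))) :=
    (continuous_const.mul (Complex.continuous_ofReal.comp (by fun_prop)))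
  have hgc : Continuous (fun θ => (ker2g b k u θ : ℂ)) :=
    Complex.continuous_ofReal.comp
      (continuous_iff_continuousAt.2 fun y => (ker2_g_der hb hk h y).continuousAt)
  have hhc : Continuous (fun θ => (ker2h b k u θ : ℂ)) :=
    Complex.continuous_ofReal.comp
      (continuous_iff_continuousAt.2 fun y => (ker2_h_der hb hk h y).continuousAt)
  -- FTC
  have hder : ∀ θ ∈ uIcc (-Real.pi) Real.pi, HasDerivAt
      (fun θ => (ker2h b k u θ : ℂ) * ker2e (2 * t * u) t θ)
      ((ker2g b k u θ : ℂ) * ker2e (2 * t * u) t θ + (ker2h b k u θ : ℂ) *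
        (ker2e (2 * t * u) t θ * (Complex.I * ((2 * t * u - 2 * t * Real.sin θ : ℝ) : ℂ)))) θ :=
    fun θ _ => (ker2_h_der hb hk h θ).ofReal_comp.mul (ker2_e_dθ (2 * t * u) t θ)
  have hint1 : IntervalIntegrable (fun θ => (ker2g b k u θ : ℂ) * ker2e (2 * t * u) t θ) volume
      (-Real.pi) Real.pi := (hgc.mul hct).intervalIntegrable _ _
  have hint2 : IntervalIntegrable (fun θ => (ker2h b k u θ : ℂ) *
        (ker2e (2 * t * u) t θ * (Complex.I * ((2 * t * u - 2 * t * Real.sin θ : ℝ) : ℂ)))) volume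
      (-Real.pi) Real.pi := (hhc.mul (hct.mul hw2)).intervalIntegrable _ _
  have hftc := intervalIntegral.integral_eq_sub_of_hasDerivAt hder (hint1.add hint2)
  rw [intervalIntegral.integral_add hint1 hint2] at hftc
  have hz : ∀ θ : ℝ, Real.cos θ = -1 → ker2h b k u θ = 0 := by
    intro θ hθ
    unfold ker2h
    rw [chi_zero hb (by rw [hθ]; linarith [show 0 < b / 16 by positivity])]
    simp
  rw [hz Real.pi Real.cos_pi, hz (-Real.pi) (by rw [Real.cos_neg, Real.cos_pi])] at hftc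
  simp only [Complex.ofReal_zero, zero_mul, sub_zero] at hftc
  -- pointwise identity
  have hpt : ∀ θ : ℝ, (chi b θ : ℂ) *
      (ker2e (2 * t * u) t θ * (-(Complex.I * ((2 - 2 * Real.cos θ : ℝ) : ℂ)))) +
      (chi b θ : ℂ) * ker2e (2 * t * u) t θ * (-(Complex.I * ((-2 + 2 * k : ℝ) : ℂ))) =
      (1 / (t : ℂ)) * ((ker2h b k u θ : ℂ) *
        (ker2e (2 * t * u) t θ * (Complex.I * ((2 * t * u - 2 * t * Real.sin θ : ℝ) : ℂ)))) := by
    intro θ
    have hreal : chi b θ * (-(2 - 2 * Real.cos θ) - (-2 + 2 * k)) =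
        (1 / t) * (ker2h b k u θ * (2 * t * u - 2 * t * Real.sin θ)) := by
      unfold ker2h
      by_cases hc : Real.cos θ < b / 16
      · rw [chi_zero hb hc.le]
        simp
      · have hc' : 0 < Real.cos θ := by
          have : 0 < b / 16 := by positivity
          linarith [not_lt.1 hc]
        have hD : 0 < ker2D k u θ := lt_of_lt_of_le (mul_pos hc' hk) (ker2_D_ge k u θ h)
        have hsc := Real.sin_sq_add_cos_sq θ
        have key : (Real.cos θ - k) * ker2D k u θ = ker2N k u θ * (u - Real.sin θ) := by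
          unfold ker2D ker2N
          linear_combination k * hsc - Real.cos θ * h
        field_simp
        linear_combination (chi b θ) * key
    have hC : (chi b θ : ℂ) * (-((2 - 2 * Real.cos θ : ℝ) : ℂ) - ((-2 + 2 * k : ℝ) : ℂ)) =
        (1 / (t : ℂ)) * ((ker2h b k u θ : ℂ) * ((2 * t * u - 2 * t * Real.sin θ : ℝ) : ℂ)) := by
      exact_mod_cast hreal
    linear_combination (ker2e (2 * t * u) t θ * Complex.I) * hC
  have hI1 : IntervalIntegrable (fun θ => (chi b θ : ℂ) *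
      (ker2e (2 * t * u) t θ * (-(Complex.I * ((2 - 2 * Real.cos θ : ℝ) : ℂ))))) volume
      (-Real.pi) Real.pi := (hχ.mul (hct.mul hw)).intervalIntegrable _ _
  have hI2 : IntervalIntegrable (fun θ => (chi b θ : ℂ) * ker2e (2 * t * u) t θ *
      (-(Complex.I * ((-2 + 2 * k : ℝ) : ℂ)))) volume
      (-Real.pi) Real.pi := ((hχ.mul hct).mul continuous_const).intervalIntegrable _ _
  unfold ker2F1 ker2F
  rw [← intervalIntegral.integral_mul_const, ← intervalIntegral.integral_add hI1 hI2]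
  rw [intervalIntegral.integral_congr (g := fun θ => (1 / (t : ℂ)) * ((ker2h b k u θ : ℂ) *
        (ker2e (2 * t * u) t θ * (Complex.I * ((2 * t * u - 2 * t * Real.sin θ : ℝ) : ℂ)))))
      (fun θ _ => hpt θ), intervalIntegral.integral_const_mul]
  linear_combination (1 / (t : ℂ)) * hftc

lemma ker2_s1 {b : ℝ} (hb : 0 < b) (hb1 : b ≤ 1) {x t : ℝ} (ht : 0 < t)
    (hx : |x| ≤ 2 * t * s1 b) : |x| < 2 * t ∧ b / 32 ≤ √(1 - (x / (2 * t)) ^ 2) ∧
      √(1 - (x / (2 * t)) ^ 2) ^ 2 + (x / (2 * t)) ^ 2 = 1 := by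
  have hs0 : 0 ≤ s1 b := Real.sqrt_nonneg _
  have hs2 : s1 b ^ 2 = 1 - (b / 32) ^ 2 := by
    unfold s1
    rw [Real.sq_sqrt]
    nlinarith
  have hs1 : s1 b < 1 := by
    have : (0 : ℝ) < (b / 32) ^ 2 := by positivity
    nlinarith
  have h1 : |x| < 2 * t := by nlinarith
  have h2 : (x / (2 * t)) ^ 2 ≤ 1 - (b / 32) ^ 2 := by
    rw [← hs2, ← sq_abs (x / (2 * t)), abs_div, abs_of_pos (show 0 < 2 * t by positivity)]
    apply pow_le_pow_left₀ (by positivity)
    rw [div_le_iff₀ (by positivity)]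
    linarith
  have h3 : 0 ≤ 1 - (x / (2 * t)) ^ 2 := by
    have : (0 : ℝ) < (b / 32) ^ 2 := by positivity
    linarith
  refine ⟨h1, ?_, ?_⟩
  · apply Real.le_sqrt_of_sq_le
    linarith
  · rw [Real.sq_sqrt h3]
    ring

theorem kz_near {b : ℝ} (hb : 0 < b) (hb1 : b ≤ 1) :
    ∃ C : ℝ, 0 < C ∧ ∀ x : ℝ, ∃ A A' : ℝ → ℂ,
      (∀ t, 1 ≤ t → |x| ≤ 2 * t * s1 b → kz b t x = A t * Complex.exp (Complex.I * (phs x t : ℝ))) ∧
      (∀ t, 1 ≤ t → |x| ≤ 2 * t * s1 b → HasDerivAt A (A' t) t ∧ ‖A t‖ ≤ C / √t ∧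
        ‖A' t‖ ≤ C / (t * √t)) ∧
      ContinuousOn A' {t | 1 ≤ t ∧ |x| ≤ 2 * t * s1 b} := by
  obtain ⟨C0, hC0, hkz⟩ := kz_le hb hb1
  obtain ⟨C1, hC1, hosc⟩ := osc_le hb hb1
  obtain ⟨G, hG, hgb⟩ := ker2_g_bd hb
  refine ⟨C0 + C1 * G, by positivity, fun x => ?_⟩
  set c : ℂ := ((1 / (2 * Real.pi) : ℝ) : ℂ) with hc
  have hcn : ‖c‖ ≤ 1 := by
    rw [hc, Complex.norm_real, Real.norm_eq_abs, abs_of_pos (by positivity)]
    rw [div_le_one (by positivity)]
    linarith [Real.pi_gt_three]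
  set E : ℝ → ℂ := fun t => Complex.exp (-(Complex.I * (phs x t : ℝ))) with hE
  have hEn : ∀ t, ‖E t‖ = 1 := by
    intro t
    simp only [hE]
    have : -(Complex.I * (phs x t : ℝ)) = ((-(phs x t) : ℝ) : ℂ) * Complex.I := by
      push_cast
      ring
    rw [this]
    exact Complex.norm_exp_ofReal_mul_I _
  refine ⟨fun t => c * ker2F b x t * E t, fun t => c * ker2F1 b x t * E t +
    c * ker2F b x t * (E t * (-(Complex.I * (phs' x t : ℝ)))), ?_, ?_, ?_⟩
  · intro t ht hx
    simp only [hE]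
    rw [ker2_kz, mul_assoc _ (Complex.exp _) (Complex.exp _), ← Complex.exp_add]
    simp [hc]
  · intro t ht hx
    have ht0 : 0 < t := by linarith
    obtain ⟨h1, h2, h3⟩ := ker2_s1 hb hb1 ht0 hx
    set u : ℝ := x / (2 * t) with hu
    set k : ℝ := √(1 - u ^ 2) with hk
    have hxu : x = 2 * t * u := by
      rw [hu]
      field_simp
    have hk0 : 0 < k := lt_of_lt_of_le (by positivity) h2
    refine ⟨?_, ?_, ?_⟩
    · have hd1 := (ker2_F_der b x t).const_mul c
      have hd2 : HasDerivAt E (E t * (-(Complex.I * (phs' x t : ℝ)))) t :=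
        (((hasDerivAt_phs ht0 h1).ofReal_comp.const_mul Complex.I).neg).cexp
      exact hd1.mul hd2
    · rw [norm_mul, hEn, mul_one, ← ker2_kz]
      refine (hkz t x ht).trans ?_
      apply div_le_div_of_nonneg_right _ (Real.sqrt_nonneg _)
      have : 0 < C1 * G := by positivity
      linarith
    · have hibp := ker2_ibp hb hk0 h3 ht0
      rw [← hxu] at hibp
      have hph : phs' x t = -2 + 2 * k := by
        unfold phs'
        rw [← hu]
      have e1 : c * ker2F1 b x t * E t + c * ker2F b x t *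
          (E t * (-(Complex.I * (phs' x t : ℝ)))) = c * E t * (-(1 / (t : ℂ)) *
          ∫ θ in (-Real.pi)..Real.pi, (ker2g b k u θ : ℂ) * ker2e x t θ) := by
        rw [← hibp, hph]
        ring
      show ‖c * ker2F1 b x t * E t + c * ker2F b x t *
          (E t * (-(Complex.I * (phs' x t : ℝ))))‖ ≤ _
      have htn : ‖(t : ℂ)‖ = t := by
        rw [Complex.norm_real, Real.norm_eq_abs, abs_of_pos ht0]
      rw [e1, norm_mul, norm_mul, norm_mul, hEn, mul_one, norm_neg, norm_div, norm_one, htn]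
      have hosc' := hosc t x G (fun θ => (ker2g b k u θ : ℂ)) (fun θ => (ker2g' b k u θ : ℂ)) ht
        (fun θ => (ker2_g_der hb hk0 h3 θ).ofReal_comp)
        (Complex.continuous_ofReal.comp (ker2_g'_cont hb hk0 h3))
        (fun θ hθ => by simp [ker2_g_zero hb hθ])
        (fun θ hθ => by
          rw [Complex.norm_real]
          exact (hgb k u h2 h3 θ hθ).1)
        (fun θ hθ => by
          rw [Complex.norm_real]
          exact (hgb k u h2 h3 θ hθ).2)
      have hst : 0 < √t := Real.sqrt_pos.2 ht0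
      calc ‖c‖ * (1 / t * ‖∫ θ in (-Real.pi)..Real.pi, (ker2g b k u θ : ℂ) * ker2e x t θ‖)
          ≤ 1 * (1 / t * (C1 * G / √t)) := by
            apply mul_le_mul hcn _ (by positivity) (by norm_num)
            exact mul_le_mul_of_nonneg_left hosc' (by positivity)
        _ = C1 * G / (t * √t) := by
            field_simp
        _ ≤ (C0 + C1 * G) / (t * √t) := by
            apply div_le_div_of_nonneg_right _ (by positivity)
            linarith
  · have hF : Continuous (ker2F b x) :=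
      continuous_iff_continuousAt.2 fun t => (ker2_F_der b x t).continuousAt
    have hF1 := ker2_F1_cont b x
    intro t ht
    have ht0 : 0 < t := by linarith [ht.1]
    obtain ⟨h1, h2, h3⟩ := ker2_s1 hb hb1 ht0 ht.2
    have hEc : ContinuousAt E t :=
      (((hasDerivAt_phs ht0 h1).ofReal_comp.const_mul Complex.I).neg).cexp.continuousAt
    have hpc : ContinuousAt (fun t => (-(Complex.I * (phs' x t : ℝ)) : ℂ)) t :=
      ((hasDerivAt_phs' ht0 h1).ofReal_comp.const_mul Complex.I).neg.continuousAt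
    exact (((continuousAt_const.mul hF1.continuousAt).mul hEc).add
      ((continuousAt_const.mul hF.continuousAt).mul (hEc.mul hpc))).continuousWithinAt

end Pool.Agent.BK
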