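import Pool.Agent.BK.LawDefs

/-! BK module LAW: the centred version of a law with density between two positive constants on an
interval is a `NiceLaw`.

Proof. Let `ρ` be the density of the centred law on `[α, β]` (`α < 0 < β`), `∫ v dν = 0`. For a
bounded measurable `h` on `[α, β]` with `∫ h dν = 0` put `T(v) = ∫_v^β h ρ dw` (so
`T(v) = -∫_α^v h ρ`) and `τ_h = T / ρ` on `[α, β]`, `0` outside: `|τ_h| ≤ ‖h‖_∞ (β - α) c2 / c1`.
For `f` with continuous derivative, `f(w) = f(α) + ∫_α^w f'`, so by Fubini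
`∫ h f dν = f(α) ∫ h dν + ∫_α^β f'(v) ∫_v^β h ρ dw dv = ∫ τ_h f' dν`. Apply this to `h(v) = v`
(`τ`), and then to `h = τ - s2` (`∫ τ dν = ∫ v² dν = s2` by the case `f(v) = v`), giving `τ'`.
Poincaré: `∫ f² - (∫ f)² ≤ ∫ (f - f(α))²` and `(f(v)-f(α))² ≤ (β-α) ∫_α^β f'²`
(Cauchy-Schwarz) `≤ (β - α) / c1 ∫ f'² dν`. Take `C` the maximum of the three bounds, `R` large. -/

open MeasureTheory Set

noncomputable section

namespace Pool.Agent.BK

namespace LawAux

variable {a b c1 c2 : ℝ} {ρ : ℝ → ℝ}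

/-- the law -/
def mu (a b : ℝ) (ρ : ℝ → ℝ) : Measure ℝ :=
  (volume.restrict (Icc a b)).withDensity (fun x => ENNReal.ofReal (ρ x))

theorem int_mu {E : Type} [NormedAddCommGroup E] [NormedSpace ℝ E] (hρm : Measurable ρ)
    (hc1 : 0 < c1) (hρ : ∀ x ∈ Icc a b, c1 ≤ ρ x ∧ ρ x ≤ c2) (g : ℝ → E) :
    ∫ x, g x ∂(mu a b ρ) = ∫ x in Icc a b, ρ x • g x := by
  rw [mu, integral_withDensity_eq_integral_toReal_smul (by fun_prop)
    (Filter.Eventually.of_forall fun x => ENNReal.ofReal_lt_top)]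
  refine setIntegral_congr_fun measurableSet_Icc fun x hx => ?_
  rw [ENNReal.toReal_ofReal (hc1.le.trans (hρ x hx).1)]

theorem integrable_mu {E : Type} [NormedAddCommGroup E] [NormedSpace ℝ E] (hρm : Measurable ρ)
    (hc1 : 0 < c1) (hρ : ∀ x ∈ Icc a b, c1 ≤ ρ x ∧ ρ x ≤ c2) {g : ℝ → E}
    (hg : AEStronglyMeasurable g) {M : ℝ} (hM : ∀ x ∈ Icc a b, ‖g x‖ ≤ M) :
    Integrable g (mu a b ρ) := by
  rw [mu, integrable_withDensity_iff_integrable_smul' (by fun_prop)
    (Filter.Eventually.of_forall fun x => ENNReal.ofReal_lt_top)]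
  refine Integrable.of_bound (C := c2 * M) ?_ ?_
  · exact ((by fun_prop : Measurable fun x => (ENNReal.ofReal (ρ x)).toReal).aestronglyMeasurable).smul
      hg.restrict
  · refine (ae_restrict_iff' measurableSet_Icc).2 (Filter.Eventually.of_forall fun x hx => ?_)
    have h1 := hρ x hx
    rw [norm_smul, ENNReal.toReal_ofReal (hc1.le.trans h1.1), Real.norm_of_nonneg (hc1.le.trans h1.1)]
    exact mul_le_mul h1.2 (hM x hx) (norm_nonneg _) (hc1.le.trans (h1.1.trans h1.2))

/-- the tail integral -/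
def T (a b : ℝ) (ρ h : ℝ → ℝ) (v : ℝ) : ℝ :=
  - ∫ w in b..v, (Icc a b).indicator (fun w => ρ w * h w) w

/-- the kernel -/
def ker (a b : ℝ) (ρ h : ℝ → ℝ) (v : ℝ) : ℝ :=
  (Icc a b).indicator (fun v => T a b ρ h v / ρ v) v

theorem integrable_k (hρm : Measurable ρ) (hc1 : 0 < c1)
    (hρ : ∀ x ∈ Icc a b, c1 ≤ ρ x ∧ ρ x ≤ c2) {h : ℝ → ℝ} (hm : Measurable h) {M : ℝ}
    (hM : ∀ x ∈ Icc a b, |h x| ≤ M) :
    IntegrableOn (fun w => ρ w * h w) (Icc a b) := by
  refine Integrable.of_bound (C := c2 * M) (hρm.mul hm).aestronglyMeasurable ?_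
  refine (ae_restrict_iff' measurableSet_Icc).2 (Filter.Eventually.of_forall fun x hx => ?_)
  have h1 := hρ x hx
  rw [norm_mul, Real.norm_of_nonneg (hc1.le.trans h1.1)]
  exact mul_le_mul h1.2 (hM x hx) (norm_nonneg _) (hc1.le.trans (h1.1.trans h1.2))

theorem continuous_T (hρm : Measurable ρ) (hc1 : 0 < c1)
    (hρ : ∀ x ∈ Icc a b, c1 ≤ ρ x ∧ ρ x ≤ c2) {h : ℝ → ℝ} (hm : Measurable h) {M : ℝ}
    (hM : ∀ x ∈ Icc a b, |h x| ≤ M) : Continuous (T a b ρ h) := by
  unfold T
  refine Continuous.neg (intervalIntegral.continuous_primitive (fun x y => ?_) b)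
  exact ((integrable_indicator_iff measurableSet_Icc).2
    (integrable_k hρm hc1 hρ hm hM)).intervalIntegrable

theorem T_bound (hc1 : 0 < c1)
    (hρ : ∀ x ∈ Icc a b, c1 ≤ ρ x ∧ ρ x ≤ c2) {h : ℝ → ℝ} {M : ℝ} (hM0 : 0 ≤ M) (hc2 : 0 ≤ c2)
    (hM : ∀ x ∈ Icc a b, |h x| ≤ M) {v : ℝ} (hv : v ∈ Icc a b) :
    |T a b ρ h v| ≤ c2 * M * (b - a) := by
  unfold T
  rw [abs_neg, ← Real.norm_eq_abs]
  refine (intervalIntegral.norm_integral_le_of_norm_le_const (C := c2 * M) fun x _ => ?_).trans ?_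
  · by_cases hx : x ∈ Icc a b
    · have h1 := hρ x hx
      rw [indicator_of_mem hx, norm_mul, Real.norm_of_nonneg (hc1.le.trans h1.1)]
      exact mul_le_mul h1.2 (hM x hx) (norm_nonneg _) hc2
    · rw [indicator_of_notMem hx, norm_zero]
      positivity
  · refine mul_le_mul_of_nonneg_left ?_ (by positivity)
    rw [abs_of_nonpos (by linarith [hv.2])]
    linarith [hv.1]

theorem ker_meas (hρm : Measurable ρ) (hc1 : 0 < c1)
    (hρ : ∀ x ∈ Icc a b, c1 ≤ ρ x ∧ ρ x ≤ c2) {h : ℝ → ℝ} (hm : Measurable h) {M : ℝ}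
    (hM : ∀ x ∈ Icc a b, |h x| ≤ M) : Measurable (ker a b ρ h) := by
  unfold ker
  exact ((continuous_T hρm hc1 hρ hm hM).measurable.div hρm).indicator measurableSet_Icc

theorem ker_bound (hab : a < b) (hc1 : 0 < c1)
    (hρ : ∀ x ∈ Icc a b, c1 ≤ ρ x ∧ ρ x ≤ c2) {h : ℝ → ℝ} {M : ℝ} (hM0 : 0 ≤ M) (hc2 : 0 ≤ c2)
    (hM : ∀ x ∈ Icc a b, |h x| ≤ M) (v : ℝ) :
    |ker a b ρ h v| ≤ c2 * M * (b - a) / c1 := by
  unfold ker
  have hb : 0 < b - a := by linarith
  by_cases hx : v ∈ Icc a b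
  · rw [indicator_of_mem hx, abs_div]
    have h1 := hρ v hx
    rw [abs_of_nonneg (hc1.le.trans h1.1)]
    exact div_le_div₀ (by positivity) (T_bound hc1 hρ hM0 hc2 hM hx) hc1 h1.1
  · rw [indicator_of_notMem hx, abs_zero]
    positivity

theorem T_eq {h : ℝ → ℝ} {v : ℝ} (hv : v ∈ Icc a b) :
    T a b ρ h v = ∫ x in Icc a b, {x | v ≤ x}.indicator (fun x => ρ x * h x) x := by
  have hms : MeasurableSet {x : ℝ | v ≤ x} := measurableSet_Ici
  rw [T, ← intervalIntegral.integral_symm, setIntegral_indicator hms,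
    intervalIntegral.integral_of_le hv.2, ← integral_Icc_eq_integral_Ioc,
    setIntegral_indicator measurableSet_Icc]
  congr 2
  ext x
  simp only [mem_inter_iff, mem_Icc, mem_ofPred_eq]
  constructor
  · rintro ⟨h1, h2⟩; exact ⟨h2, h1.1⟩
  · rintro ⟨h1, h2⟩; exact ⟨⟨h2, h1.2⟩, h1⟩

theorem stein_core (hρm : Measurable ρ) (hc1 : 0 < c1)
    (hρ : ∀ x ∈ Icc a b, c1 ≤ ρ x ∧ ρ x ≤ c2) {h : ℝ → ℝ} (hm : Measurable h) {M : ℝ}
    (hM : ∀ x ∈ Icc a b, |h x| ≤ M) (h0 : ∫ x, h x ∂(mu a b ρ) = 0)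
    (f f' : ℝ → ℂ) (hf : ∀ v, HasDerivAt f (f' v) v) (hf' : Continuous f') :
    ∫ x, (h x : ℂ) * f x ∂(mu a b ρ) = ∫ x, (ker a b ρ h x : ℂ) * f' x ∂(mu a b ρ) := by
  rw [int_mu hρm hc1 hρ, int_mu hρm hc1 hρ]
  have hfc : Continuous f := continuous_iff_continuousAt.2 fun v => (hf v).continuousAt
  set K : ℝ → ℂ := fun x => ((ρ x * h x : ℝ) : ℂ) with hK
  have hKi : IntegrableOn K (Icc a b) := (integrable_k hρm hc1 hρ hm hM).ofReal
  have hK0 : ∫ x in Icc a b, K x = 0 := by
    rw [int_mu hρm hc1 hρ] at h0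
    have e0 : ∫ x in Icc a b, K x = ((∫ x in Icc a b, ρ x * h x : ℝ) : ℂ) := by
      rw [← integral_complex_ofReal]
    rw [e0]
    simp only [smul_eq_mul] at h0
    rw [h0, Complex.ofReal_zero]
  have hF : Integrable (Function.uncurry fun x v => if v ≤ x then K x * f' v else 0)
      ((volume.restrict (Icc a b)).prod (volume.restrict (Icc a b))) := by
    have h1 : Integrable (fun z : ℝ × ℝ => K z.1 * f' z.2)
        ((volume.restrict (Icc a b)).prod (volume.restrict (Icc a b))) :=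
      Integrable.mul_prod hKi (hf'.continuousOn.integrableOn_Icc)
    have h2 : MeasurableSet {z : ℝ × ℝ | z.2 ≤ z.1} :=
      measurableSet_le measurable_snd measurable_fst
    refine (h1.indicator h2).congr (Filter.Eventually.of_forall fun z => ?_)
    obtain ⟨x, v⟩ := z
    by_cases hx : v ≤ x <;> simp [indicator, hx]
  -- left side
  have hL : ∫ x in Icc a b, ρ x • ((h x : ℂ) * f x) =
      ∫ x in Icc a b, ∫ v in Icc a b, (if v ≤ x then K x * f' v else 0) := by
    have e1 : ∫ x in Icc a b, ρ x • ((h x : ℂ) * f x) =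
        ∫ x in Icc a b, (K x * f a + ∫ v in Icc a b, (if v ≤ x then K x * f' v else 0)) := by
      refine setIntegral_congr_fun measurableSet_Icc fun x hx => ?_
      have e2 : ∫ v in Icc a b, (if v ≤ x then K x * f' v else 0) = K x * (f x - f a) := by
        have e3 : ∀ v, (if v ≤ x then K x * f' v else 0) =
            (Iic x).indicator (fun v => K x * f' v) v := fun v => by
          simp [indicator]
        simp only [e3]
        rw [setIntegral_indicator measurableSet_Iic]
        have e4 : Icc a b ∩ Iic x = Icc a x := by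
          ext y
          simp only [mem_inter_iff, mem_Icc, mem_Iic]
          constructor
          · rintro ⟨h1, h2⟩; exact ⟨h1.1, h2⟩
          · rintro ⟨h1, h2⟩; exact ⟨⟨h1, h2.trans hx.2⟩, h2⟩
        rw [e4, integral_const_mul, integral_Icc_eq_integral_Ioc,
          ← intervalIntegral.integral_of_le hx.1,
          intervalIntegral.integral_eq_sub_of_hasDerivAt (fun y _ => hf y)
            (hf'.intervalIntegrable _ _)]
      rw [e2]
      simp only [hK, Complex.real_smul]
      push_cast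
      ring
    rw [e1, integral_add]
    · rw [integral_mul_const, hK0, zero_mul, zero_add]
    · exact hKi.mul_const _
    · exact hF.integral_prod_left
  rw [hL, integral_integral_swap]
  · refine setIntegral_congr_fun measurableSet_Icc fun v hv => ?_
    have e5 : ∀ x, (if v ≤ x then K x * f' v else 0) =
        {x | v ≤ x}.indicator (fun x => K x) x * f' v := fun x => by
      by_cases hx : v ≤ x <;> simp [indicator, hx]
    simp only [e5]
    rw [integral_mul_const]
    have e6 : ∫ x in Icc a b, {x | v ≤ x}.indicator (fun x => K x) x = ((T a b ρ h v : ℝ) : ℂ) := by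
      rw [T_eq hv, ← integral_complex_ofReal]
      refine integral_congr_ae (Filter.Eventually.of_forall fun x => ?_)
      by_cases hx : v ≤ x <;> simp [indicator, hx, hK]
    rw [e6, ker, indicator_of_mem hv]
    have h1 : ρ v ≠ 0 := (hc1.trans_le (hρ v hv).1).ne'
    rw [Complex.real_smul]
    push_cast
    have h2 : (ρ v : ℂ) ≠ 0 := by exact_mod_cast h1
    field_simp
  · exact hF

theorem cs_interval {x : ℝ} (hx : a ≤ x) {g : ℝ → ℝ} (hg : Continuous g) :
    (∫ y in a..x, g y) ^ 2 ≤ (x - a) * ∫ y in a..x, g y ^ 2 := by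
  rcases hx.eq_or_lt with rfl | hlt
  · simp
  set I := ∫ y in a..x, g y with hI
  set c := I / (x - a) with hc
  have hL : 0 < x - a := by linarith
  have h0 : 0 ≤ ∫ y in a..x, (g y - c) ^ 2 :=
    intervalIntegral.integral_nonneg hx fun y _ => sq_nonneg _
  have h1 : ∫ y in a..x, (g y - c) ^ 2 = (∫ y in a..x, g y ^ 2) - 2 * c * I + c ^ 2 * (x - a) := by
    have e : ∀ y, (g y - c) ^ 2 = g y ^ 2 - 2 * c * g y + c ^ 2 := fun y => by ring
    simp only [e]
    rw [intervalIntegral.integral_add, intervalIntegral.integral_sub,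
      intervalIntegral.integral_const_mul, intervalIntegral.integral_const, smul_eq_mul]
    · ring
    · exact (hg.pow 2).intervalIntegrable _ _
    · exact (hg.const_mul _).intervalIntegrable _ _
    · exact ((hg.pow 2).sub (hg.const_mul _)).intervalIntegrable _ _
    · exact intervalIntegrable_const
  rw [h1] at h0
  have h2 : c * (x - a) = I := by rw [hc]; field_simp
  nlinarith [h0, h2, mul_pos hL hL]

theorem poinc_core (hab : a < b) (hρm : Measurable ρ) (hc1 : 0 < c1)
    (hρ : ∀ x ∈ Icc a b, c1 ≤ ρ x ∧ ρ x ≤ c2) [IsProbabilityMeasure (mu a b ρ)]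
    (f f' : ℝ → ℝ) (hf : ∀ v, HasDerivAt f (f' v) v) (hf' : Continuous f') :
    ∫ v, f v ^ 2 ∂(mu a b ρ) - (∫ v, f v ∂(mu a b ρ)) ^ 2 ≤
      (b - a) / c1 * ∫ v, f' v ^ 2 ∂(mu a b ρ) := by
  have hfc : Continuous f := continuous_iff_continuousAt.2 fun v => (hf v).continuousAt
  have hbd : ∀ g : ℝ → ℝ, Continuous g → Integrable g (mu a b ρ) := fun g hg => by
    obtain ⟨M, hM⟩ := (isCompact_Icc (a := a) (b := b)).exists_bound_of_continuousOn hg.continuousOn
    exact integrable_mu hρm hc1 hρ hg.aestronglyMeasurable hM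
  set c := f a with hc
  have h1 : ∫ v, f v ^ 2 ∂(mu a b ρ) - (∫ v, f v ∂(mu a b ρ)) ^ 2 ≤
      ∫ v, (f v - c) ^ 2 ∂(mu a b ρ) := by
    have e : ∀ y, (f y - c) ^ 2 = f y ^ 2 - 2 * c * f y + c ^ 2 := fun y => by ring
    simp only [e]
    rw [integral_add, integral_sub, integral_const_mul, integral_const, smul_eq_mul,
      probReal_univ]
    · nlinarith [sq_nonneg ((∫ v, f v ∂(mu a b ρ)) - c)]
    · exact hbd _ (hfc.pow 2)
    · exact hbd _ (hfc.const_mul _)
    · exact hbd _ ((hfc.pow 2).sub (hfc.const_mul _))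
    · exact integrable_const _
  refine h1.trans ?_
  set J := ∫ y in a..b, f' y ^ 2 with hJ
  have hJ0 : 0 ≤ J := intervalIntegral.integral_nonneg hab.le fun y _ => sq_nonneg _
  have h2 : ∀ x ∈ Icc a b, (f x - c) ^ 2 ≤ (b - a) * J := fun x hx => by
    have e1 : f x - c = ∫ y in a..x, f' y := by
      rw [intervalIntegral.integral_eq_sub_of_hasDerivAt (fun y _ => hf y)
        (hf'.intervalIntegrable _ _)]
    rw [e1]
    refine (cs_interval hx.1 hf').trans ?_
    have e2 : ∫ y in a..x, f' y ^ 2 ≤ J := by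
      refine intervalIntegral.integral_mono_interval le_rfl hx.1 hx.2 ?_
        ((hf'.pow 2).intervalIntegrable _ _)
      exact Filter.Eventually.of_forall fun y => sq_nonneg _
    exact mul_le_mul (by linarith [hx.2]) e2
      (intervalIntegral.integral_nonneg hx.1 fun y _ => sq_nonneg _) (by linarith)
  have h3 : c1 * J ≤ ∫ v, f' v ^ 2 ∂(mu a b ρ) := by
    rw [int_mu hρm hc1 hρ, hJ, intervalIntegral.integral_of_le hab.le,
      ← integral_Icc_eq_integral_Ioc, ← integral_const_mul]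
    refine setIntegral_mono_on ?_ ?_ measurableSet_Icc fun x hx => ?_
    · exact ((hf'.pow 2).const_mul _).continuousOn.integrableOn_Icc
    · obtain ⟨M, hM⟩ := (isCompact_Icc (a := a) (b := b)).exists_bound_of_continuousOn
        (hf'.pow 2).continuousOn
      exact integrable_k hρm hc1 hρ (hf'.pow 2).measurable hM
    · exact mul_le_mul_of_nonneg_right (hρ x hx).1 (sq_nonneg _)
  have h4 : ∫ v, (f v - c) ^ 2 ∂(mu a b ρ) ≤ (b - a) * J := by
    have e3 : ∀ᵐ x ∂(mu a b ρ), (f x - c) ^ 2 ≤ (b - a) * J := by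
      have : ∀ᵐ x ∂(volume.restrict (Icc a b)), (f x - c) ^ 2 ≤ (b - a) * J :=
        (ae_restrict_iff' measurableSet_Icc).2 (Filter.Eventually.of_forall h2)
      exact (withDensity_absolutelyContinuous _ _).ae_le this
    have e4 := integral_mono_ae (hbd _ ((hfc.sub continuous_const).pow 2))
      (integrable_const ((b - a) * J)) e3
    simpa using e4
  refine h4.trans ?_
  rw [div_mul_eq_mul_div, le_div_iff₀ hc1]
  have hb : 0 ≤ b - a := by linarith
  nlinarith [mul_le_mul_of_nonneg_left h3 hb]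

theorem var_pos (hab : a < b) (hρm : Measurable ρ) (hc1 : 0 < c1)
    (hρ : ∀ x ∈ Icc a b, c1 ≤ ρ x ∧ ρ x ≤ c2) (m : ℝ) :
    0 < ∫ v, (v - m) ^ 2 ∂(mu a b ρ) := by
  have hcont : Continuous fun v : ℝ => (v - m) ^ 2 := by fun_prop
  have h3 : c1 * ∫ y in a..b, (y - m) ^ 2 ≤ ∫ v, (v - m) ^ 2 ∂(mu a b ρ) := by
    rw [int_mu hρm hc1 hρ, intervalIntegral.integral_of_le hab.le,
      ← integral_Icc_eq_integral_Ioc, ← integral_const_mul]
    refine setIntegral_mono_on ?_ ?_ measurableSet_Icc fun x hx => ?_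
    · exact (hcont.const_mul _).continuousOn.integrableOn_Icc
    · obtain ⟨M, hM⟩ := (isCompact_Icc (a := a) (b := b)).exists_bound_of_continuousOn
        hcont.continuousOn
      exact integrable_k hρm hc1 hρ hcont.measurable hM
    · exact mul_le_mul_of_nonneg_right (hρ x hx).1 (sq_nonneg _)
  refine lt_of_lt_of_le (mul_pos hc1 ?_) h3
  have e : ∫ y in a..b, (y - m) ^ 2 = (b - m) ^ 3 / 3 - (a - m) ^ 3 / 3 := by
    refine intervalIntegral.integral_eq_sub_of_hasDerivAt (f := fun y => (y - m) ^ 3 / 3)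
      (fun y _ => ?_) (hcont.intervalIntegrable _ _)
    have := (((hasDerivAt_id y).sub_const m).pow 3).div_const 3
    refine this.congr_deriv ?_
    simp
  rw [e]
  have h5 : (a - m) ^ 3 < (b - m) ^ 3 := by
    have : Odd 3 := by decide
    exact this.strictMono_pow (by linarith)
  linarith

end LawAux

open LawAux

theorem exists_niceLaw (μ : Measure ℝ) [IsProbabilityMeasure μ] (hμ : FatDensity μ) :
    ∃ (R s2 C : ℝ) (τ τ' : ℝ → ℝ),
      NiceLaw (μ.map (fun x => x - ∫ t, t ∂μ)) R s2 C τ τ' := by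
  obtain ⟨α, β, c1, c2, hab, hc1, ρ, hρm, hρ, hμe⟩ := hμ
  have hμ' : μ = mu α β ρ := hμe
  clear hμe
  subst hμ'
  set μ := mu α β ρ with hμd
  set m : ℝ := ∫ t, t ∂μ with hm
  have hc2 : 0 ≤ c2 := by
    have := hρ α (left_mem_Icc.2 hab.le)
    linarith
  have hba : 0 < β - α := by linarith
  have hint : ∀ {E : Type} [NormedAddCommGroup E] [NormedSpace ℝ E] (g : ℝ → E),
      ∫ v, g v ∂(μ.map (fun x => x - m)) = ∫ x, g (x - m) ∂μ := fun g =>
    (Homeomorph.subRight m).measurableEmbedding.integral_map g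
  set M1 : ℝ := |α| + |β| + |m| with hM1
  have hM10 : 0 ≤ M1 := by positivity
  have hB1 : ∀ x ∈ Icc α β, |x - m| ≤ M1 := fun x hx => by
    have h1 : |x| ≤ |α| + |β| := by
      rw [abs_le]
      constructor
      · have := neg_abs_le α
        have := abs_nonneg β
        linarith [hx.1]
      · have := le_abs_self β
        have := abs_nonneg α
        linarith [hx.2]
    have h2 : |x - m| ≤ |x| + |m| := abs_sub x m
    linarith
  have hidint : Integrable (fun x : ℝ => x) μ := by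
    refine integrable_mu hρm hc1 hρ measurable_id.aestronglyMeasurable (M := |α| + |β|)
      fun x hx => ?_
    rw [Real.norm_eq_abs, abs_le]
    constructor
    · have := neg_abs_le α
      have := abs_nonneg β
      linarith [hx.1]
    · have := le_abs_self β
      have := abs_nonneg α
      linarith [hx.2]
  have h10 : ∫ x, (x - m) ∂μ = 0 := by
    rw [integral_sub hidint (integrable_const _)]
    simp [← hm]
  have hmeas1 : Measurable fun x : ℝ => x - m := by fun_prop
  set t1 : ℝ → ℝ := ker α β ρ (fun x => x - m) with ht1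
  have ht1m : Measurable t1 := ker_meas hρm hc1 hρ hmeas1 hB1
  set C1 : ℝ := c2 * M1 * (β - α) / c1 with hC1
  have hC10 : 0 ≤ C1 := by positivity
  have ht1b : ∀ v, |t1 v| ≤ C1 := ker_bound hab hc1 hρ hM10 hc2 hB1
  set s2 : ℝ := ∫ x, (x - m) ^ 2 ∂μ with hs2
  have hs2pos : 0 < s2 := var_pos hab hρm hc1 hρ m
  have ht1i : Integrable t1 μ :=
    Integrable.of_bound ht1m.aestronglyMeasurable C1 (Filter.Eventually.of_forall ht1b)
  have ht1s : ∫ x, t1 x ∂μ = s2 := by
    have h := stein_core hρm hc1 hρ hmeas1 hB1 h10 (fun x : ℝ => ((x - m : ℝ) : ℂ)) (fun _ => 1)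
      (fun v => by
        have := ((hasDerivAt_id v).sub_const m).ofReal_comp
        simpa using this) continuous_const
    have e1 : ∀ x : ℝ, ((x - m : ℝ) : ℂ) * ((x - m : ℝ) : ℂ) = (((x - m) ^ 2 : ℝ) : ℂ) := fun x => by
      push_cast; ring
    simp only [e1, mul_one] at h
    rw [integral_complex_ofReal, integral_complex_ofReal] at h
    exact (Complex.ofReal_injective h).symm
  set M2 : ℝ := C1 + s2 with hM2
  have hM20 : 0 ≤ M2 := by positivity
  have hB2 : ∀ x ∈ Icc α β, |t1 x - s2| ≤ M2 := fun x _ => by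
    have h2 : |t1 x - s2| ≤ |t1 x| + |s2| := abs_sub _ _
    rw [abs_of_pos hs2pos] at h2
    linarith [ht1b x]
  have h20 : ∫ x, (t1 x - s2) ∂μ = 0 := by
    rw [integral_sub ht1i (integrable_const _), ht1s]
    simp
  have hmeas2 : Measurable fun x : ℝ => t1 x - s2 := ht1m.sub_const _
  set t2 : ℝ → ℝ := ker α β ρ (fun x => t1 x - s2) with ht2
  have ht2m : Measurable t2 := ker_meas hρm hc1 hρ hmeas2 hB2
  set C2 : ℝ := c2 * M2 * (β - α) / c1 with hC2
  have hC20 : 0 ≤ C2 := by positivity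
  have ht2b : ∀ v, |t2 v| ≤ C2 := ker_bound hab hc1 hρ hM20 hc2 hB2
  have hC30 : 0 < (β - α) / c1 := by positivity
  refine ⟨M1 + 1, s2, C1 + C2 + (β - α) / c1, fun v => t1 (v + m), fun v => t2 (v + m), ?_⟩
  refine ⟨?_, by positivity, ?_, hs2pos, by positivity, by fun_prop, by fun_prop, ?_, ?_, ?_, ?_, ?_⟩
  · exact Measure.isProbabilityMeasure_map hmeas1.aemeasurable
  · rw [Measure.map_apply hmeas1 measurableSet_Icc.compl]
    refine (withDensity_absolutelyContinuous (volume.restrict (Icc α β))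
      (fun x => ENNReal.ofReal (ρ x))) ?_
    rw [Measure.restrict_apply (hmeas1 measurableSet_Icc.compl)]
    have : (fun x => x - m) ⁻¹' (Icc (-(M1 + 1)) (M1 + 1))ᶜ ∩ Icc α β = ∅ := by
      ext x
      simp only [mem_inter_iff, mem_preimage, mem_compl_iff, mem_empty_iff_false, iff_false,
        not_and]
      intro h1 h2
      have h3 := hB1 x h2
      rw [abs_le] at h3
      exact h1 ⟨by linarith [h3.1], by linarith [h3.2]⟩
    rw [this, measure_empty]
  · intro v
    linarith [ht1b (v + m)]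
  · intro v
    linarith [ht2b (v + m)]
  · intro f f' hf hf'
    rw [hint, hint]
    have h := stein_core hρm hc1 hρ hmeas1 hB1 h10 (fun x => f (x - m)) (fun x => f' (x - m))
      (fun v => (hf (v - m)).comp_sub_const v m) (by fun_prop)
    simpa using h
  · intro f f' hf hf'
    rw [hint, hint]
    have h := stein_core hρm hc1 hρ hmeas2 hB2 h20 (fun x => f (x - m)) (fun x => f' (x - m))
      (fun v => (hf (v - m)).comp_sub_const v m) (by fun_prop)
    simpa using h
  · intro f f' hf hf'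
    rw [hint, hint, hint]
    have h := poinc_core hab hρm hc1 hρ (fun x => f (x - m)) (fun x => f' (x - m))
      (fun v => (hf (v - m)).comp_sub_const v m) (by fun_prop)
    refine h.trans (mul_le_mul_of_nonneg_right (by linarith) (integral_nonneg fun x => sq_nonneg _))

end Pool.Agent.BK
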