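import Pool.Agent.BK.Defs

/-! BK: the class of single-site laws of the theorem. -/

open MeasureTheory

noncomputable section

namespace Pool.Agent.BK

/-- `μ` has a density between two positive constants on a compact interval `[α, β]` and no mass
outside of it (for instance: uniform on `[-1, 1]`). -/
def FatDensity (μ : Measure ℝ) : Prop :=
  ∃ α β c1 c2 : ℝ, α < β ∧ 0 < c1 ∧ ∃ ρ : ℝ → ℝ, Measurable ρ ∧
    (∀ x ∈ Set.Icc α β, c1 ≤ ρ x ∧ ρ x ≤ c2) ∧
    μ = (volume.restrict (Set.Icc α β)).withDensity (fun x => ENNReal.ofReal (ρ x))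

end Pool.Agent.BK
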