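import Pool.Agent.BK.TorCT
import Pool.Agent.Helper3.Anderson.Base

/-! BK module LIFT: the Green function of `ℤ^d` against that of the torus.

`u(y + r) = G^tor(prj r, 0)` for `|r_l| ≤ n` (all `l`), `0` outside, is in `ℓ²` and
`(-Δ + V - z) u = δ_y + err`, where `err(y + r) = 0` unless `n ≤ max|r_l| ≤ n + 1`, and
`|err| ≤ 4d sup` with `sup = max{|G^tor(r,0)| : some |r̂_l| ≥ n}` `≤ (2/η) e^{-ηn/8}` (`torus_ct`; for `r` with
all `|r_l| ≤ n - 1` the equation of the torus is the equation on `ℤ^d`; the wrong neighbours have some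
`|r̂_l| = n`). Hence `u - G^ℤ(·, y) = (H - z)⁻¹ err` and `|·| ≤ ‖err‖_2/η` with
`‖err‖_2 ≤ (2n+3)^{d/2} 4d (2/η) e^{-ηn/8}`. -/

open MeasureTheory Finset Matrix Pool.Agent.Helper3.Anderson

noncomputable section

namespace Pool.Agent.BK

/-- Representative in `ℤ^d` of a point of the torus. -/
def emb {d n : ℕ} (r : Tor d n) : Site d := fun l => (r l).valMinAbs

/-- Projection of `ℤ^d` to the torus. -/
def prj {d : ℕ} (n : ℕ) (x : Site d) : Tor d n := fun l => (x l : ZMod (2 * n + 1))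

lemma Lift_H0_mulVec {d n : ℕ} (c : Tor d n → ℂ) (t : Tor d n) :
    (H0 d n *ᵥ c) t = 2 * d * c t -
      ∑ j : Fin d, (c (t + Pi.single j 1) + c (t - Pi.single j 1)) := by
  simp only [Matrix.mulVec, dotProduct, H0, sub_mul, Finset.sum_sub_distrib]
  congr 1
  · simp
  · rw [show (∑ y : Tor d n, (∑ j : Fin d, ((if y = t + Pi.single j 1 then (1 : ℂ) else 0) +
        (if y = t - Pi.single j 1 then (1 : ℂ) else 0))) * c y) =
        ∑ j : Fin d, ∑ y : Tor d n, ((if y = t + Pi.single j 1 then (1 : ℂ) else 0) +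
        (if y = t - Pi.single j 1 then (1 : ℂ) else 0)) * c y by
      simp only [Finset.sum_mul]
      exact Finset.sum_comm]
    refine Finset.sum_congr rfl fun j _ => ?_
    simp [add_mul, Finset.sum_add_distrib]

/-- The equation on the torus. -/
lemma Lift_tor_eq {d n : ℕ} (v : Tor d n → ℝ) {z : ℂ} (hz : 0 < z.im) (t : Tor d n) :
    (2 * d + (v t : ℂ) - z) * Gr (H0 d n) v z t 0 -
      ∑ j : Fin d, (Gr (H0 d n) v z (t + Pi.single j 1) 0 + Gr (H0 d n) v z (t - Pi.single j 1) 0) =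
      if t = 0 then 1 else 0 := by
  have h := congrFun (congrFun (mul_Gr (RS_H0 d n) v hz.ne') t) 0
  rw [Matrix.one_apply] at h
  rw [← h, Matrix.sub_mul, Matrix.add_mul, Matrix.sub_apply, Matrix.add_apply, Matrix.diagonal_mul,
    Matrix.smul_mul, Matrix.one_mul, Matrix.smul_apply, smul_eq_mul]
  have h2 := Lift_H0_mulVec (fun s => Gr (H0 d n) v z s 0) t
  have h3 : (H0 d n * Gr (H0 d n) v z) t 0 = (H0 d n *ᵥ fun s => Gr (H0 d n) v z s 0) t := by
    rw [Matrix.mul_apply]
    rfl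
  rw [h3, h2]
  ring

lemma Lift_prj_add {d : ℕ} (n : ℕ) (x : Site d) (j : Fin d) :
    prj n (x + Pi.single j 1) = prj n x + Pi.single j 1 := by
  funext l
  rcases eq_or_ne l j with h | h
  · subst h; simp [prj]
  · simp [prj, Pi.single_eq_of_ne h]

lemma Lift_prj_sub {d : ℕ} (n : ℕ) (x : Site d) (j : Fin d) :
    prj n (x - Pi.single j 1) = prj n x - Pi.single j 1 := by
  funext l
  rcases eq_or_ne l j with h | h
  · subst h; simp [prj]
  · simp [prj, Pi.single_eq_of_ne h]

lemma Lift_vma {n : ℕ} {w : ℤ} (hw : |w| ≤ n) : ((w : ZMod (2 * n + 1))).valMinAbs = w := by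
  rw [ZMod.valMinAbs_spec]
  refine ⟨rfl, ?_⟩
  rw [abs_le] at hw
  constructor
  · push_cast; linarith [hw.1]
  · push_cast; linarith [hw.2]

lemma Lift_emb_prj {d n : ℕ} {x : Site d} (hx : ∀ l, |x l| ≤ n) : emb (prj n x) = x := by
  funext l
  exact Lift_vma (hx l)

lemma Lift_vma_abs {n : ℕ} {w : ℤ} (hw : |w| = n ∨ |w| = n + 1) :
    |(((w : ZMod (2 * n + 1))).valMinAbs : ℝ)| = n := by
  rcases hw with hw | hw
  · rw [Lift_vma hw.le]
    have : ((|w| : ℤ) : ℝ) = n := by rw [hw]; simp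
    rwa [Int.cast_abs] at this
  · have hz : ((2 * n + 1 : ℕ) : ZMod (2 * n + 1)) = 0 := ZMod.natCast_self _
    push_cast at hz
    rcases abs_eq (by positivity : (0 : ℤ) ≤ n + 1) |>.1 hw with h | h
    · have e : (w : ZMod (2 * n + 1)) = ((-(n : ℤ) : ℤ) : ZMod (2 * n + 1)) := by
        rw [h]; push_cast
        linear_combination hz
      rw [e, Lift_vma (by simp)]
      simp
    · have e : (w : ZMod (2 * n + 1)) = (((n : ℤ) : ℤ) : ZMod (2 * n + 1)) := by
        rw [h]; push_cast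
        linear_combination -hz
      rw [e, Lift_vma (by simp)]
      simp

lemma Lift_out {d n : ℕ} {x x' : Site d} {j : Fin d} (h : ∀ l, l ≠ j → x' l = x l)
    (h1 : |x' j - x j| ≤ 1) (hB : ∀ l, |x l| ≤ (n : ℤ)) (hB' : ¬ ∀ l, |x' l| ≤ (n : ℤ)) :
    |x' j| = n + 1 := by
  push Not at hB'
  obtain ⟨l, hl⟩ := hB'
  have hlj : l = j := by
    by_contra hne
    rw [h l hne] at hl
    exact absurd (hB l) (by omega)
  subst hlj
  have h2 := abs_sub_abs_le_abs_sub (x' l) (x l)
  have h3 := hB l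
  omega

lemma Lift_in {d n : ℕ} {x x' : Site d} {j : Fin d} (h : ∀ l, l ≠ j → x' l = x l)
    (h1 : |x' j - x j| ≤ 1) (hB : ¬ ∀ l, |x l| ≤ (n : ℤ)) (hB' : ∀ l, |x' l| ≤ (n : ℤ)) :
    |x' j| = n := by
  push Not at hB
  obtain ⟨l, hl⟩ := hB
  have hlj : l = j := by
    by_contra hne
    rw [← h l hne] at hl
    exact absurd (hB' l) (by omega)
  subst hlj
  have h2 := abs_sub_abs_le_abs_sub (x l) (x' l)
  rw [abs_sub_comm] at h2
  have h3 := hB' l
  omega

section

variable {d n : ℕ} (v : Tor d n → ℝ) (z : ℂ)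

/-- Periodic extension of the torus Green function. -/
def Lift_g (x : Site d) : ℂ := Gr (H0 d n) v z (prj n x) 0

/-- Truncation to the box. -/
def Lift_u (x : Site d) : ℂ := if ∀ l, |x l| ≤ (n : ℤ) then Lift_g v z x else 0

/-- Contribution of a neighbour to the error. -/
def Lift_T (x x' : Site d) : ℂ :=
  if ∀ l, |x l| ≤ (n : ℤ) then Lift_g v z x' - Lift_u v z x' else -Lift_u v z x'

variable {v z}

lemma Lift_g_le (hz : 0 < z.im) (hz1 : z.im ≤ 1) {x : Site d} {j : Fin d}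
    (h : |x j| = n ∨ |x j| = n + 1) :
    ‖Lift_g v z x‖ ≤ 2 / z.im * Real.exp (-(z.im / 8 * n)) := by
  have h1 := torus_ct v hz hz1 j (prj n x)
  have h2 : |((prj n x j).valMinAbs : ℝ)| = n := Lift_vma_abs h
  rw [h2] at h1
  exact h1

lemma Lift_T_le (hz : 0 < z.im) (hz1 : z.im ≤ 1) {x x' : Site d} {j : Fin d}
    (h : ∀ l, l ≠ j → x' l = x l) (h1 : |x' j - x j| ≤ 1) :
    ‖Lift_T v z x x'‖ ≤ 2 / z.im * Real.exp (-(z.im / 8 * n)) := by
  have h0 : 0 ≤ 2 / z.im * Real.exp (-(z.im / 8 * n)) := by positivity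
  unfold Lift_T
  split_ifs with hB
  · unfold Lift_u
    split_ifs with hB'
    · simpa using h0
    · rw [sub_zero]
      exact Lift_g_le hz hz1 (Or.inr (Lift_out h h1 hB hB'))
  · unfold Lift_u
    split_ifs with hB'
    · rw [norm_neg]
      exact Lift_g_le hz hz1 (Or.inl (Lift_in h h1 hB hB'))
    · simpa using h0

lemma Lift_T_zero {x x' : Site d} (h1 : ∀ l, |x' l - x l| ≤ 1)
    (hB : ¬ ∀ l, |x l| ≤ ((n + 1 : ℕ) : ℤ)) : Lift_T v z x x' = 0 := by
  push Not at hB
  obtain ⟨l, hl⟩ := hB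
  push_cast at hl
  have h2 := abs_sub_abs_le_abs_sub (x l) (x' l)
  rw [abs_sub_comm] at h2
  have h3 := h1 l
  have hx : ¬ ∀ l, |x l| ≤ (n : ℤ) := fun h => by have := h l; omega
  have hx' : ¬ ∀ l, |x' l| ≤ (n : ℤ) := fun h => by have := h l; omega
  unfold Lift_T Lift_u
  rw [if_neg hx, if_neg hx', neg_zero]

lemma Lift_nbr_add (x : Site d) (j : Fin d) :
    (∀ l, l ≠ j → (x + Pi.single j 1 : Site d) l = x l) ∧
      (∀ l, |(x + Pi.single j 1 : Site d) l - x l| ≤ 1) := by
  constructor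
  · intro l hl
    simp [Pi.single_eq_of_ne hl]
  · intro l
    rcases eq_or_ne l j with h | h
    · subst h; simp
    · simp [Pi.single_eq_of_ne h]

lemma Lift_nbr_sub (x : Site d) (j : Fin d) :
    (∀ l, l ≠ j → (x - Pi.single j 1 : Site d) l = x l) ∧
      (∀ l, |(x - Pi.single j 1 : Site d) l - x l| ≤ 1) := by
  constructor
  · intro l hl
    simp [Pi.single_eq_of_ne hl]
  · intro l
    rcases eq_or_ne l j with h | h
    · subst h; simp
    · simp [Pi.single_eq_of_ne h]

/-- The equation of the truncated function. -/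
lemma Lift_err (hz : 0 < z.im) (W : Site d → ℝ) (hW : ∀ x : Site d, (∀ l, |x l| ≤ (n : ℤ)) →
    v (prj n x) = W x) (x : Site d) :
    -lap (Lift_u v z) x + (W x : ℂ) * Lift_u v z x - z * Lift_u v z x =
      (if x = 0 then 1 else 0) +
      ∑ j : Fin d, (Lift_T v z x (x + Pi.single j 1) + Lift_T v z x (x - Pi.single j 1)) := by
  have hlap : lap (Lift_u v z) x = ∑ j : Fin d, (Lift_u v z (x + Pi.single j 1) +
      Lift_u v z (x - Pi.single j 1)) - 2 * d * Lift_u v z x := by
    rw [lap]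
    have : ∀ j : Fin d, (Lift_u v z (x + Pi.single j 1) - Lift_u v z x
        + (Lift_u v z (x - Pi.single j 1) - Lift_u v z x))
        = (Lift_u v z (x + Pi.single j 1) + Lift_u v z (x - Pi.single j 1))
          - 2 * Lift_u v z x := fun j => by ring
    rw [Finset.sum_congr rfl fun j _ => this j, Finset.sum_sub_distrib, Finset.sum_const,
      Finset.card_univ, Fintype.card_fin, nsmul_eq_mul]
    ring
  rw [hlap]
  by_cases hB : ∀ l, |x l| ≤ (n : ℤ)
  · have hu : Lift_u v z x = Lift_g v z x := if_pos hB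
    have hT : ∀ x', Lift_T v z x x' = Lift_g v z x' - Lift_u v z x' := fun x' => if_pos hB
    have heq := Lift_tor_eq v hz (prj n x)
    rw [hW x hB] at heq
    have h0 : (prj n x = 0) ↔ x = 0 := by
      constructor
      · intro h
        rw [← Lift_emb_prj hB, h]
        funext l
        simp [emb]
      · intro h
        rw [h]
        funext l
        simp [prj]
    simp only [h0] at heq
    have e1 : ∑ j : Fin d, (Lift_T v z x (x + Pi.single j 1) + Lift_T v z x (x - Pi.single j 1)) =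
        ∑ j : Fin d, (Lift_g v z (x + Pi.single j 1) + Lift_g v z (x - Pi.single j 1)) -
        ∑ j : Fin d, (Lift_u v z (x + Pi.single j 1) + Lift_u v z (x - Pi.single j 1)) := by
      rw [← Finset.sum_sub_distrib]
      refine Finset.sum_congr rfl fun j _ => ?_
      rw [hT, hT]; ring
    have e2 : ∑ j : Fin d, (Lift_g v z (x + Pi.single j 1) + Lift_g v z (x - Pi.single j 1)) =
        ∑ j : Fin d, (Gr (H0 d n) v z (prj n x + Pi.single j 1) 0 +
          Gr (H0 d n) v z (prj n x - Pi.single j 1) 0) := by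
      refine Finset.sum_congr rfl fun j _ => ?_
      unfold Lift_g
      rw [Lift_prj_add, Lift_prj_sub]
    rw [e1, e2, hu, ← heq]
    unfold Lift_g
    ring
  · have hu : Lift_u v z x = 0 := if_neg hB
    have hT : ∀ x', Lift_T v z x x' = -Lift_u v z x' := fun x' => if_neg hB
    have hx0 : x ≠ 0 := by
      rintro rfl
      exact hB fun l => by simp
    rw [hu, if_neg hx0]
    have e1 : ∑ j : Fin d, (Lift_T v z x (x + Pi.single j 1) + Lift_T v z x (x - Pi.single j 1)) =
        -∑ j : Fin d, (Lift_u v z (x + Pi.single j 1) + Lift_u v z (x - Pi.single j 1)) := by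
      rw [← Finset.sum_neg_distrib]
      refine Finset.sum_congr rfl fun j _ => ?_
      rw [hT, hT]; ring
    rw [e1]
    ring

end

/-- The box `[-n, n]^d` as a finite set. -/
def Lift_box (d n : ℕ) : Finset (Site d) := Fintype.piFinset fun _ => Finset.Icc (-(n : ℤ)) n

lemma Lift_mem_box {d n : ℕ} {x : Site d} : x ∈ Lift_box d n ↔ ∀ l, |x l| ≤ (n : ℤ) := by
  simp [Lift_box, Fintype.mem_piFinset, abs_le]

lemma Lift_card_box (d n : ℕ) : ((Lift_box d n).card : ℝ) = (2 * n + 1) ^ d := by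
  rw [Lift_box, Fintype.card_piFinset_const, Int.card_Icc]
  have : ((n : ℤ) + 1 - -(n : ℤ)).toNat = 2 * n + 1 := by omega
  rw [this]
  push_cast
  ring

/-- The vector with finitely many entries. -/
def Lift_vec {d : ℕ} (s : Finset (Site d)) (f : Site d → ℂ) : L2 d := ∑ x ∈ s, f x • dl x

lemma Lift_vec_apply {d : ℕ} (s : Finset (Site d)) (f : Site d → ℂ) (x : Site d) :
    Lift_vec s f x = if x ∈ s then f x else 0 := by
  rw [Lift_vec, coeFn_sum_apply]
  have : ∀ i ∈ s, (f i • dl i : L2 d) x = if x = i then f i else 0 := by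
    intro i _
    rw [lp.coeFn_smul, Pi.smul_apply, dl_apply, smul_eq_mul, mul_ite, mul_one, mul_zero]
  rw [Finset.sum_congr rfl this, Finset.sum_ite_eq]

lemma Lift_vec_norm {d : ℕ} (s : Finset (Site d)) (f : Site d → ℂ) {K : ℝ}
    (h : ∀ x ∈ s, ‖f x‖ ≤ K) : ‖Lift_vec s f‖ ≤ s.card * K := by
  refine (norm_sum_le _ _).trans ?_
  calc _ ≤ ∑ _x ∈ s, K := by
        refine Finset.sum_le_sum fun x hx => ?_
        rw [norm_smul, norm_dl, mul_one]
        exact h x hx
    _ = _ := by rw [Finset.sum_const, nsmul_eq_mul]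

lemma Lift_hz_apply {d : ℕ} (W : Site d → ℝ) (hW : Bdd W) (z : ℂ) (ψ : L2 d) (x : Site d) :
    (Helper3.Anderson.hz W hW z ψ : L2 d) x =
      -lap ψ x + (W x : ℂ) * ψ x - z * ψ x := by
  simp only [Helper3.Anderson.hz, _root_.sub_apply, _root_.smul_apply, lp.coeFn_sub, Pi.sub_apply,
    schr_apply, one_apply_eq_self, lp.coeFn_smul, Pi.smul_apply, smul_eq_mul]

/-- The case `y = 0`. -/
lemma Lift_zero {d n : ℕ} (W : Site d → ℝ) (hW : Bdd W) {z : ℂ} (hz : 0 < z.im)
    (hz1 : z.im ≤ 1) (x : Site d) (hx : ∀ l, |x l| ≤ n) :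
    ‖green W z x 0 - Gr (H0 d n) (fun r => W (emb r)) z (prj n x) 0‖ ≤
      4 * d / z.im ^ 2 * (2 * n + 3) ^ d * Real.exp (-(z.im / 8 * n)) := by
  obtain ⟨v, hv⟩ : ∃ v : Tor d n → ℝ, v = fun r => W (emb r) := ⟨_, rfl⟩
  obtain ⟨S, hS⟩ : ∃ S : ℝ, S = 2 / z.im * Real.exp (-(z.im / 8 * n)) := ⟨_, rfl⟩
  have hvW : ∀ x : Site d, (∀ l, |x l| ≤ (n : ℤ)) → v (prj n x) = W x := by
    intro x hx
    rw [hv]
    exact congrArg W (Lift_emb_prj hx)
  set E : Site d → ℂ := fun x => ∑ j : Fin d, (Lift_T v z x (x + Pi.single j 1) +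
    Lift_T v z x (x - Pi.single j 1)) with hE
  have hE1 : ∀ x, ‖E x‖ ≤ 2 * d * S := by
    intro x
    calc ‖E x‖ ≤ ∑ j : Fin d, ‖Lift_T v z x (x + Pi.single j 1) +
          Lift_T v z x (x - Pi.single j 1)‖ := norm_sum_le _ _
      _ ≤ ∑ _j : Fin d, (2 * S) := by
          refine Finset.sum_le_sum fun j _ => ?_
          have h1 := Lift_T_le (v := v) hz hz1 (Lift_nbr_add x j).1 ((Lift_nbr_add x j).2 j)
          have h2 := Lift_T_le (v := v) hz hz1 (Lift_nbr_sub x j).1 ((Lift_nbr_sub x j).2 j)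
          rw [← hS] at h1 h2
          have h3 := norm_add_le (Lift_T v z x (x + Pi.single j 1))
            (Lift_T v z x (x - Pi.single j 1))
          linarith
      _ = 2 * d * S := by
          rw [Finset.sum_const, Finset.card_univ, Fintype.card_fin, nsmul_eq_mul]; ring
  have hE0 : ∀ x, x ∉ Lift_box d (n + 1) → E x = 0 := by
    intro x hx
    rw [Lift_mem_box] at hx
    refine Finset.sum_eq_zero fun j _ => ?_
    rw [Lift_T_zero (Lift_nbr_add x j).2 hx, Lift_T_zero (Lift_nbr_sub x j).2 hx, add_zero]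
  set U : L2 d := Lift_vec (Lift_box d n) (Lift_u v z) with hU
  have hUa : ∀ x, U x = Lift_u v z x := by
    intro x
    rw [hU, Lift_vec_apply]
    split_ifs with h
    · rfl
    · rw [Lift_mem_box] at h
      exact (if_neg h).symm
  have hUf : (U : Site d → ℂ) = Lift_u v z := funext hUa
  have hmain : Helper3.Anderson.hz W hW z U = dl 0 + Lift_vec (Lift_box d (n + 1)) E := by
    ext x
    have h1 : (Helper3.Anderson.hz W hW z U : L2 d) x =
        -lap (Lift_u v z) x + (W x : ℂ) * Lift_u v z x - z * Lift_u v z x := by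
      rw [Lift_hz_apply, hUf]
    rw [h1, Lift_err hz W hvW x, lp.coeFn_add, Pi.add_apply, dl_apply, Lift_vec_apply]
    congr 1
    split_ifs with h
    · rfl
    · exact hE0 x h
  have h2 : U = res W hW z (dl 0) + res W hW z (Lift_vec (Lift_box d (n + 1)) E) := by
    rw [← map_add, ← hmain, res_hz W hW hz.ne']
  have h3 := congrArg (fun φ : L2 d => φ x) h2
  simp only [lp.coeFn_add, Pi.add_apply] at h3
  rw [hUa, ← green_eq W hW] at h3
  have h4 : Lift_u v z x = Gr (H0 d n) v z (prj n x) 0 := if_pos hx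
  rw [h4] at h3
  rw [← hv, h3, sub_add_cancel_left, norm_neg]
  calc _ ≤ ‖res W hW z (Lift_vec (Lift_box d (n + 1)) E)‖ :=
        lp.norm_apply_le_norm (by norm_num) _ x
    _ ≤ ‖Lift_vec (Lift_box d (n + 1)) E‖ / z.im := norm_res_le W hW hz _
    _ ≤ ((Lift_box d (n + 1)).card * (2 * d * S)) / z.im := by
        gcongr
        exact Lift_vec_norm _ _ fun x _ => hE1 x
    _ = _ := by
        rw [Lift_card_box, hS]
        push_cast
        have : (2 * ((n : ℝ) + 1) + 1) = 2 * n + 3 := by ring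
        rw [this]
        field_simp
        ring

theorem lift {d n : ℕ} (hn : 1 ≤ n) (V : Site d → ℝ) (hV : Bdd V) {z : ℂ} (hz : 0 < z.im)
    (hz1 : z.im ≤ 1) (y x : Site d) (hx : ∀ l, |x l| ≤ n) :
    ‖green V z (y + x) y - Gr (H0 d n) (fun r => V (y + emb r)) z (prj n x) 0‖ ≤
      8 * d / z.im ^ 2 * (2 * n + 3) ^ d * Real.exp (-(z.im / 8 * n)) := by
  have h1 := Lift_zero (n := n) (fun w => V (w + y)) (hV.comp_add y) hz hz1 x hx
  have h2 := green_translate V hV hz y x 0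
  rw [zero_add] at h2
  rw [h2] at h1
  have e1 : x + y = y + x := add_comm _ _
  have e2 : (fun r : Tor d n => V (emb r + y)) = fun r => V (y + emb r) := by
    funext r; rw [add_comm]
  rw [e1, e2] at h1
  refine h1.trans ?_
  have h3 : 4 * (d : ℝ) / z.im ^ 2 ≤ 8 * d / z.im ^ 2 := by
    have : (0 : ℝ) ≤ d := by positivity
    gcongr
    norm_num
  gcongr

end Pool.Agent.BK
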