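import Pool.Agent.BK.Defs

/-! BK module NRM: elementary facts on `supN`, `rowN`, `diagN` (finite suprema; the index type may be
empty, then all are `0`). Minkowski: `Real.Lp_add_le`. -/

open Finset Matrix

set_option linter.unusedSectionVars false

noncomputable section

namespace Pool.Agent.BK

variable {X : Type} [Fintype X] [DecidableEq X]

lemma norm_le_supN (A : Matrix X X ℂ) (x y : X) : ‖A x y‖ ≤ supN A :=
  le_ciSup (f := fun p : X × X => ‖A p.1 p.2‖) (Finite.bddAbove_range _) (x, y)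

lemma supN_le {A : Matrix X X ℂ} {b : ℝ} (hb : 0 ≤ b) (h : ∀ x y, ‖A x y‖ ≤ b) : supN A ≤ b :=
  Real.iSup_le (fun p => h p.1 p.2) hb

lemma supN_nonneg (A : Matrix X X ℂ) : 0 ≤ supN A :=
  Real.iSup_nonneg fun _ => norm_nonneg _

lemma norm_le_diagN (A : Matrix X X ℂ) (g : ℂ) (x : X) : ‖A x x - g‖ ≤ diagN A g :=
  le_ciSup (f := fun x : X => ‖A x x - g‖) (Finite.bddAbove_range _) x

lemma diagN_le {A : Matrix X X ℂ} {g : ℂ} {b : ℝ} (hb : 0 ≤ b) (h : ∀ x, ‖A x x - g‖ ≤ b) :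
    diagN A g ≤ b := Real.iSup_le h hb

lemma diagN_nonneg (A : Matrix X X ℂ) (g : ℂ) : 0 ≤ diagN A g :=
  Real.iSup_nonneg fun _ => norm_nonneg _

lemma rowN_nonneg (q : ℕ) (A : Matrix X X ℂ) : 0 ≤ rowN q A :=
  Real.iSup_nonneg fun _ => Real.rpow_nonneg (sum_nonneg fun _ _ => pow_nonneg (norm_nonneg _) _) _

private lemma sum_nn (q : ℕ) (A : Matrix X X ℂ) (x : X) : 0 ≤ ∑ y, ‖A x y‖ ^ q :=
  sum_nonneg fun _ _ => pow_nonneg (norm_nonneg _) _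

lemma sum_pow_le_rowN {q : ℕ} (hq : 0 < q) (A : Matrix X X ℂ) (x : X) :
    ∑ y, ‖A x y‖ ^ q ≤ rowN q A ^ q := by
  have h1 : (∑ y, ‖A x y‖ ^ q) ^ (1 / (q : ℝ)) ≤ rowN q A :=
    le_ciSup (f := fun x : X => (∑ y, ‖A x y‖ ^ q) ^ (1 / (q : ℝ))) (Finite.bddAbove_range _) x
  have h2 : ((∑ y, ‖A x y‖ ^ q) ^ (1 / (q : ℝ))) ^ q = ∑ y, ‖A x y‖ ^ q := by
    rw [one_div]
    exact Real.rpow_inv_natCast_pow (sum_nn q A x) hq.ne'
  rw [← h2]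
  exact pow_le_pow_left₀ (Real.rpow_nonneg (sum_nn q A x) _) h1 q

lemma rowN_le {q : ℕ} (hq : 0 < q) {A : Matrix X X ℂ} {b : ℝ} (hb : 0 ≤ b)
    (h : ∀ x, ∑ y, ‖A x y‖ ^ q ≤ b ^ q) : rowN q A ≤ b := by
  refine Real.iSup_le (fun x => ?_) hb
  have h1 : (b ^ q) ^ (1 / (q : ℝ)) = b := by
    rw [one_div]
    exact Real.pow_rpow_inv_natCast hb hq.ne'
  rw [← h1]
  exact Real.rpow_le_rpow (sum_nn q A x) (h x) (by positivity)

/-- Every entry is bounded by the row norm. -/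
lemma norm_le_rowN {q : ℕ} (hq : 0 < q) (A : Matrix X X ℂ) (x y : X) : ‖A x y‖ ≤ rowN q A := by
  have h1 : ‖A x y‖ ^ q ≤ ∑ y, ‖A x y‖ ^ q :=
    single_le_sum (f := fun y => ‖A x y‖ ^ q) (fun _ _ => pow_nonneg (norm_nonneg _) _) (mem_univ y)
  exact (pow_le_pow_iff_left₀ (norm_nonneg _) (rowN_nonneg q A) hq.ne').1
    (h1.trans (sum_pow_le_rowN hq A x))

/-- Minkowski for rows. -/
lemma rowN_add_le {q : ℕ} (hq : 0 < q) (A B : Matrix X X ℂ) :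
    rowN q (A + B) ≤ rowN q A + rowN q B := by
  have hA := rowN_nonneg q A
  have hB := rowN_nonneg q B
  refine rowN_le hq (add_nonneg hA hB) (fun x => ?_)
  have h1 : (1 : ℝ) ≤ q := by exact_mod_cast hq
  have h2 := Real.Lp_add_le_of_nonneg (s := univ) (f := fun y => ‖A x y‖) (g := fun y => ‖B x y‖)
    (p := (q : ℝ)) h1 (fun _ _ => norm_nonneg _) (fun _ _ => norm_nonneg _)
  simp only [Real.rpow_natCast] at h2
  have h3 : (∑ y, ‖A x y‖ ^ q) ^ (1 / (q : ℝ)) ≤ rowN q A :=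
    le_ciSup (f := fun x : X => (∑ y, ‖A x y‖ ^ q) ^ (1 / (q : ℝ))) (Finite.bddAbove_range _) x
  have h4 : (∑ y, ‖B x y‖ ^ q) ^ (1 / (q : ℝ)) ≤ rowN q B :=
    le_ciSup (f := fun x : X => (∑ y, ‖B x y‖ ^ q) ^ (1 / (q : ℝ))) (Finite.bddAbove_range _) x
  have h5 : 0 ≤ ∑ y, (‖A x y‖ + ‖B x y‖) ^ q :=
    sum_nonneg fun _ _ => pow_nonneg (add_nonneg (norm_nonneg _) (norm_nonneg _)) _
  have h6 : ((∑ y, (‖A x y‖ + ‖B x y‖) ^ q) ^ (1 / (q : ℝ))) ^ q =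
      ∑ y, (‖A x y‖ + ‖B x y‖) ^ q := by
    rw [one_div]
    exact Real.rpow_inv_natCast_pow h5 hq.ne'
  calc ∑ y, ‖(A + B) x y‖ ^ q ≤ ∑ y, (‖A x y‖ + ‖B x y‖) ^ q :=
        sum_le_sum fun y _ => pow_le_pow_left₀ (norm_nonneg _) (norm_add_le _ _) q
    _ = ((∑ y, (‖A x y‖ + ‖B x y‖) ^ q) ^ (1 / (q : ℝ))) ^ q := h6.symm
    _ ≤ (rowN q A + rowN q B) ^ q :=
        pow_le_pow_left₀ (Real.rpow_nonneg h5 _) (h2.trans (add_le_add h3 h4)) q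

/-- `‖A_x‖_4 ≤ ‖A_x‖_3` type monotonicity. -/
lemma rowN_anti {q r : ℕ} (hq : 0 < q) (hqr : q ≤ r) (A : Matrix X X ℂ) :
    rowN r A ≤ rowN q A := by
  refine rowN_le (hq.trans_le hqr) (rowN_nonneg q A) (fun x => ?_)
  obtain ⟨s, rfl⟩ := Nat.exists_eq_add_of_le hqr
  calc ∑ y, ‖A x y‖ ^ (q + s) ≤ ∑ y, ‖A x y‖ ^ q * rowN q A ^ s := by
        refine sum_le_sum fun y _ => ?_
        rw [pow_add]
        exact mul_le_mul_of_nonneg_left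
          (pow_le_pow_left₀ (norm_nonneg _) (norm_le_rowN hq A x y) s) (by positivity)
    _ = (∑ y, ‖A x y‖ ^ q) * rowN q A ^ s := by rw [sum_mul]
    _ ≤ rowN q A ^ q * rowN q A ^ s :=
        mul_le_mul_of_nonneg_right (sum_pow_le_rowN hq A x) (pow_nonneg (rowN_nonneg q A) _)
    _ = rowN q A ^ (q + s) := by rw [pow_add]

/-- `‖A_x‖_4⁴ ≤ sup² ‖A_x‖_2²`. -/
lemma rowN_four_le (A : Matrix X X ℂ) : rowN 4 A ^ 4 ≤ supN A ^ 2 * rowN 2 A ^ 2 := by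
  have h0 : 0 ≤ supN A ^ 2 * rowN 2 A ^ 2 := by positivity
  have h1 : ((supN A ^ 2 * rowN 2 A ^ 2) ^ (1 / ((4 : ℕ) : ℝ))) ^ 4 =
      supN A ^ 2 * rowN 2 A ^ 2 := by
    rw [one_div]
    exact Real.rpow_inv_natCast_pow h0 (by norm_num)
  have h2 : rowN 4 A ≤ (supN A ^ 2 * rowN 2 A ^ 2) ^ (1 / ((4 : ℕ) : ℝ)) := by
    refine rowN_le (by norm_num) (Real.rpow_nonneg h0 _) (fun x => ?_)
    rw [h1]
    calc ∑ y, ‖A x y‖ ^ 4 ≤ ∑ y, supN A ^ 2 * ‖A x y‖ ^ 2 := by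
          refine sum_le_sum fun y _ => ?_
          have h3 := pow_le_pow_left₀ (norm_nonneg _) (norm_le_supN A x y) 2
          calc ‖A x y‖ ^ 4 = ‖A x y‖ ^ 2 * ‖A x y‖ ^ 2 := by ring
            _ ≤ supN A ^ 2 * ‖A x y‖ ^ 2 := mul_le_mul_of_nonneg_right h3 (by positivity)
      _ = supN A ^ 2 * ∑ y, ‖A x y‖ ^ 2 := by rw [mul_sum]
      _ ≤ supN A ^ 2 * rowN 2 A ^ 2 :=
          mul_le_mul_of_nonneg_left (sum_pow_le_rowN (by norm_num) A x) (by positivity)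
  calc rowN 4 A ^ 4 ≤ ((supN A ^ 2 * rowN 2 A ^ 2) ^ (1 / ((4 : ℕ) : ℝ))) ^ 4 :=
        pow_le_pow_left₀ (rowN_nonneg 4 A) h2 4
    _ = supN A ^ 2 * rowN 2 A ^ 2 := h1

end Pool.Agent.BK
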