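import Pool.Agent.BK.Tw1
import Pool.Agent.BK.Res3

/-! BK module NUA: gradient of `n_x = (N Gᴴ)_xx`.
(C1_n) `∂_v n_x = -lam (N Gᴴ)_xv (Gᴴ)_vx`.
(grad_n) `∑_v |∂_v n_x|² ≤ lam² (∑_v |(NGᴴ)_xv|⁴)^{1/2} (∑_v |G_xv|⁴)^{1/2}`; the vector
`r = (N Gᴴ)_{x·}` has `‖r‖_∞ ≤ rho · rowN 2 G`, `‖r‖_2 ≤ rho/η` (`rho` bounds the `ℓ²` norm of the rows of
`N`, `‖Gᴴ‖ ≤ 1/η`), so `(∑|r|⁴)^{1/2} ≤ ‖r‖_∞ ‖r‖_2 ≤ rho² rowN 2 G/η`. -/

open MeasureTheory Finset Matrix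

noncomputable section

namespace Pool.Agent.BK

variable {X : Type} [Fintype X] [DecidableEq X] {H : Matrix X X ℂ} {z : ℂ}

lemma NuA_entry (N G : Matrix X X ℂ) (x v : X) :
    (N * Gᴴ) x v = ∑ y, N x y * starRingEnd ℂ (G v y) := by
  simp [Matrix.mul_apply, Matrix.conjTranspose_apply]

theorem C1_n (hH : RS H) (lam : ℝ) (hz : z.im ≠ 0) (N : Matrix X X ℂ) (x : X) :
    C1 (fun V : X → ℝ => (N * (Gr H (fun x => lam * V x) z)ᴴ) x x)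
      (fun v V => -(lam : ℂ) * (N * (Gr H (fun x => lam * V x) z)ᴴ) x v *
        starRingEnd ℂ (Gr H (fun x => lam * V x) z x v)) := by
  have h := C1.sum Finset.univ
    (F := fun y V => N x y * starRingEnd ℂ (Gr H (fun x => lam * V x) z x y))
    (F' := fun y u V => N x y * starRingEnd ℂ
      (-(lam : ℂ) * Gr H (fun x => lam * V x) z x u * Gr H (fun x => lam * V x) z u y))
    (fun y _ => C1.const_mul (N x y) (C1.conj (C1_Gr hH lam hz x y)))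
  have e1 : (fun V : X → ℝ => (N * (Gr H (fun x => lam * V x) z)ᴴ) x x) =
      fun V => ∑ y, N x y * starRingEnd ℂ (Gr H (fun x => lam * V x) z x y) := by
    funext V
    exact NuA_entry _ _ _ _
  have e2 : (fun v (V : X → ℝ) => -(lam : ℂ) * (N * (Gr H (fun x => lam * V x) z)ᴴ) x v *
        starRingEnd ℂ (Gr H (fun x => lam * V x) z x v)) =
      fun u V => ∑ y, N x y * starRingEnd ℂ
      (-(lam : ℂ) * Gr H (fun x => lam * V x) z x u * Gr H (fun x => lam * V x) z u y) := by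
    funext v V
    rw [NuA_entry, Finset.mul_sum, Finset.sum_mul]
    refine Finset.sum_congr rfl fun y _ => ?_
    simp only [map_mul, map_neg, Complex.conj_ofReal]
    ring
  rw [e1, e2]
  exact h

theorem grad_n (hH : RS H) (lam : ℝ) (hz : 0 < z.im) (N : Matrix X X ℂ) {rho : ℝ} (hr : 0 ≤ rho)
    (hrho : ∀ x, ∑ y, ‖N x y‖ ^ 2 ≤ rho ^ 2) (x : X) (V : X → ℝ) :
    ∑ v, ‖-(lam : ℂ) * (N * (Gr H (fun x => lam * V x) z)ᴴ) x v *
        starRingEnd ℂ (Gr H (fun x => lam * V x) z x v)‖ ^ 2 ≤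
      lam ^ 2 * rho ^ 2 * rowN 2 (Gr H (fun x => lam * V x) z) / z.im *
        rowN 4 (Gr H (fun x => lam * V x) z) ^ 2 := by
  set G := Gr H (fun x => lam * V x) z with hG
  set r : X → ℂ := fun v => (N * Gᴴ) x v with hrd
  have hn2 : 0 ≤ rowN 2 G := rowN_nonneg 2 G
  -- sup bound
  have h1 : ∀ v, ‖r v‖ ^ 2 ≤ (rho * rowN 2 G) ^ 2 := by
    intro v
    have ha : ‖r v‖ ≤ ∑ y, ‖N x y‖ * ‖G v y‖ := by
      rw [hrd]
      simp only [NuA_entry]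
      refine (norm_sum_le _ _).trans (le_of_eq ?_)
      refine Finset.sum_congr rfl fun y _ => ?_
      rw [norm_mul, RCLike.norm_conj]
    have hb : (∑ y, ‖N x y‖ * ‖G v y‖) ^ 2 ≤ (∑ y, ‖N x y‖ ^ 2) * ∑ y, ‖G v y‖ ^ 2 :=
      Finset.sum_mul_sq_le_sq_mul_sq _ _ _
    have hc : ∑ y, ‖G v y‖ ^ 2 ≤ rowN 2 G ^ 2 := sum_pow_le_rowN (by norm_num) G v
    calc ‖r v‖ ^ 2 ≤ (∑ y, ‖N x y‖ * ‖G v y‖) ^ 2 := by gcongr
      _ ≤ (∑ y, ‖N x y‖ ^ 2) * ∑ y, ‖G v y‖ ^ 2 := hb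
      _ ≤ rho ^ 2 * rowN 2 G ^ 2 := by
        gcongr
        exact hrho x
      _ = _ := by ring
  -- l2 bound
  have h2 : ∑ v, ‖r v‖ ^ 2 ≤ (1 / z.im) ^ 2 * rho ^ 2 := by
    have h := nsq_Gr_mulVec hH (fun x => lam * V x) hz (fun y => starRingEnd ℂ (N x y))
    rw [← hG] at h
    have e : ∑ v, ‖r v‖ ^ 2 = nsq (G *ᵥ fun y => starRingEnd ℂ (N x y)) := by
      unfold nsq
      refine Finset.sum_congr rfl fun v _ => ?_
      have : r v = starRingEnd ℂ ((G *ᵥ fun y => starRingEnd ℂ (N x y)) v) := by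
        rw [hrd]
        simp only [NuA_entry, Matrix.mulVec, dotProduct, map_sum, map_mul]
        refine Finset.sum_congr rfl fun y _ => ?_
        rw [Complex.conj_conj]
        ring
      rw [this, RCLike.norm_conj]
    rw [e]
    refine h.trans ?_
    have : nsq (fun y => starRingEnd ℂ (N x y)) = ∑ y, ‖N x y‖ ^ 2 := by
      unfold nsq
      refine Finset.sum_congr rfl fun y _ => ?_
      rw [RCLike.norm_conj]
    rw [this]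
    gcongr
    exact hrho x
  have h3 : ∑ v, ‖r v‖ ^ 4 ≤ (rho ^ 2 * rowN 2 G / z.im) ^ 2 := by
    calc ∑ v, ‖r v‖ ^ 4 = ∑ v, ‖r v‖ ^ 2 * ‖r v‖ ^ 2 := by
          refine Finset.sum_congr rfl fun v _ => by ring
      _ ≤ ∑ v, (rho * rowN 2 G) ^ 2 * ‖r v‖ ^ 2 := by
          exact Finset.sum_le_sum fun v _ => mul_le_mul_of_nonneg_right (h1 v) (by positivity)
      _ = (rho * rowN 2 G) ^ 2 * ∑ v, ‖r v‖ ^ 2 := by rw [Finset.mul_sum]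
      _ ≤ (rho * rowN 2 G) ^ 2 * ((1 / z.im) ^ 2 * rho ^ 2) := by gcongr
      _ = _ := by field_simp
  have h4 : ∑ v, ‖G x v‖ ^ 4 ≤ (rowN 4 G ^ 2) ^ 2 := by
    have := sum_pow_le_rowN (q := 4) (by norm_num) G x
    calc _ ≤ rowN 4 G ^ 4 := this
      _ = _ := by ring
  have h5 : (∑ v, ‖r v‖ ^ 2 * ‖G x v‖ ^ 2) ^ 2 ≤
      (rho ^ 2 * rowN 2 G / z.im * rowN 4 G ^ 2) ^ 2 := by
    calc (∑ v, ‖r v‖ ^ 2 * ‖G x v‖ ^ 2) ^ 2 ≤
          (∑ v, (‖r v‖ ^ 2) ^ 2) * ∑ v, (‖G x v‖ ^ 2) ^ 2 :=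
          Finset.sum_mul_sq_le_sq_mul_sq _ _ _
      _ = (∑ v, ‖r v‖ ^ 4) * ∑ v, ‖G x v‖ ^ 4 := by
          congr 1 <;> exact Finset.sum_congr rfl fun v _ => by ring
      _ ≤ (rho ^ 2 * rowN 2 G / z.im) ^ 2 * (rowN 4 G ^ 2) ^ 2 := by gcongr
      _ = _ := by ring
  have h6 : ∑ v, ‖r v‖ ^ 2 * ‖G x v‖ ^ 2 ≤ rho ^ 2 * rowN 2 G / z.im * rowN 4 G ^ 2 :=
    le_of_sq_le_sq h5 (by positivity)
  calc ∑ v, ‖-(lam : ℂ) * (N * Gᴴ) x v * starRingEnd ℂ (G x v)‖ ^ 2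
      = lam ^ 2 * ∑ v, ‖r v‖ ^ 2 * ‖G x v‖ ^ 2 := by
        rw [Finset.mul_sum]
        refine Finset.sum_congr rfl fun v _ => ?_
        rw [norm_mul, norm_mul, RCLike.norm_conj, norm_neg, Complex.norm_real]
        rw [mul_pow, mul_pow, Real.norm_eq_abs, sq_abs]
        ring
    _ ≤ lam ^ 2 * (rho ^ 2 * rowN 2 G / z.im * rowN 4 G ^ 2) := by gcongr
    _ = _ := by ring

end Pool.Agent.BK
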