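import Pool.Agent.BK.C1c

/-! BK module POIN: Poincaré inequality for the product measure (tensorisation), real `F`.
`E|F - EF|² ≤ C E ∑_u |∂_u F|²`. Efron-Stein by doubling: on the product measure of `ν × ν` put
`c(s) = E[F(V) F(V^s)]`, where `V^s` is `V` with the coordinates in `s` replaced by the independent
copy. `c(∅) = E F²`, `c(univ) = (E F)²`, and by the exchange symmetries in the coordinate `u` and in
the coordinates `s`, `2 (c(s) - c(s ∪ u)) = E [F(V) - F(V^u)][F(V^s) - F(V^{s ∪ u})] ≤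
E [F(V) - F(V^u)]² = 2 (c(∅) - c(u))`, and `c(∅) - c(u) = E Var_u F ≤ C E |∂_u F|²`. -/

open MeasureTheory Finset

noncomputable section

namespace Pool.Agent.BK

namespace Poin

lemma int4 {α : Type*} [MeasurableSpace α] {P : Measure α} {f1 f2 f3 f4 : α → ℝ}
    (h1 : Integrable f1 P) (h2 : Integrable f2 P) (h3 : Integrable f3 P) (h4 : Integrable f4 P) :
    ∫ Z, (f1 Z - f2 Z - f3 Z + f4 Z) ∂P = ∫ Z, f1 Z ∂P - ∫ Z, f2 Z ∂P - ∫ Z, f3 Z ∂P +
      ∫ Z, f4 Z ∂P := by
  rw [integral_add (f := fun Z => f1 Z - f2 Z - f3 Z) ((h1.sub h2).sub h3) h4,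
    integral_sub (f := fun Z => f1 Z - f2 Z) (h1.sub h2) h3, integral_sub h1 h2]

lemma int6 {α : Type*} [MeasurableSpace α] {P : Measure α} {f1 f2 f3 f4 f5 f6 : α → ℝ}
    (h1 : Integrable f1 P) (h2 : Integrable f2 P) (h3 : Integrable f3 P) (h4 : Integrable f4 P)
    (h5 : Integrable f5 P) (h6 : Integrable f6 P) :
    ∫ Z, (1 / 2 * f1 Z - f2 Z + 1 / 2 * f3 Z + 1 / 2 * f4 Z - f5 Z + 1 / 2 * f6 Z) ∂P =
      1 / 2 * ∫ Z, f1 Z ∂P - ∫ Z, f2 Z ∂P + 1 / 2 * ∫ Z, f3 Z ∂P + 1 / 2 * ∫ Z, f4 Z ∂P -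
      ∫ Z, f5 Z ∂P + 1 / 2 * ∫ Z, f6 Z ∂P := by
  have g1 := h1.const_mul (1 / 2)
  have g3 := h3.const_mul (1 / 2)
  have g4 := h4.const_mul (1 / 2)
  have g6 := h6.const_mul (1 / 2)
  rw [integral_add (f := fun Z => 1 / 2 * f1 Z - f2 Z + 1 / 2 * f3 Z + 1 / 2 * f4 Z - f5 Z)
      ((((g1.sub h2).add g3).add g4).sub h5) g6,
    integral_sub (f := fun Z => 1 / 2 * f1 Z - f2 Z + 1 / 2 * f3 Z + 1 / 2 * f4 Z)
      (((g1.sub h2).add g3).add g4) h5,
    integral_add (f := fun Z => 1 / 2 * f1 Z - f2 Z + 1 / 2 * f3 Z) ((g1.sub h2).add g3) g4,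
    integral_add (f := fun Z => 1 / 2 * f1 Z - f2 Z) (g1.sub h2) g3,
    integral_sub g1 h2, integral_const_mul, integral_const_mul, integral_const_mul,
    integral_const_mul]

section Double

variable {X : Type} [Fintype X] [DecidableEq X] (ν : Measure ℝ) [IsProbabilityMeasure ν]

/-- The vector `V^s`. -/
def mix (s : Finset X) (Z : X → ℝ × ℝ) : X → ℝ := fun x => if x ∈ s then (Z x).2 else (Z x).1

/-- Exchange of the two copies in the coordinates of `s`. -/
def swp (s : Finset X) (Z : X → ℝ × ℝ) : X → ℝ × ℝ := fun x => if x ∈ s then (Z x).swap else Z x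

lemma mix_mp (s : Finset X) : MeasurePreserving (mix s)
    (Measure.pi fun _ : X => ν.prod ν) (Measure.pi fun _ : X => ν) := by
  refine measurePreserving_pi (fun _ : X => ν.prod ν) (fun _ : X => ν)
    (f := fun x z => if x ∈ s then z.2 else z.1) ?_
  intro x
  by_cases h : x ∈ s
  · simp only [h, if_true]; exact measurePreserving_snd
  · simp only [h, if_false]; exact measurePreserving_fst

lemma swp_mp (s : Finset X) : MeasurePreserving (swp s)
    (Measure.pi fun _ : X => ν.prod ν) (Measure.pi fun _ : X => ν.prod ν) := by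
  refine measurePreserving_pi (fun _ : X => ν.prod ν) (fun _ : X => ν.prod ν)
    (f := fun x z => if x ∈ s then z.swap else z) ?_
  intro x
  by_cases h : x ∈ s
  · simp only [h, if_true]; exact Measure.measurePreserving_swap
  · simp only [h, if_false]; exact MeasurePreserving.id _

lemma integral_swp (s : Finset X) (f : (X → ℝ × ℝ) → ℝ)
    (hf : AEStronglyMeasurable f (Measure.pi fun _ : X => ν.prod ν)) :
    ∫ Z, f (swp s Z) ∂(Measure.pi fun _ : X => ν.prod ν) =
      ∫ Z, f Z ∂(Measure.pi fun _ : X => ν.prod ν) := by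
  have h := swp_mp ν s
  rw [← integral_map h.measurable.aemeasurable (by rw [h.map_eq]; exact hf), h.map_eq]

omit [Fintype X] in
lemma mix_swp {r s t : Finset X} (h : ∀ x, x ∈ r ↔ ¬(x ∈ s ↔ x ∈ t)) (Z : X → ℝ × ℝ) :
    mix t (swp s Z) = mix r Z := by
  funext x
  have hx := h x
  unfold mix swp
  by_cases h1 : x ∈ s <;> by_cases h2 : x ∈ t <;> simp_all

/-- `c(s) = E[F(V) F(V^s)]`. -/
def cc (F : (X → ℝ) → ℝ) (s : Finset X) : ℝ :=
  ∫ Z, F (mix ∅ Z) * F (mix s Z) ∂(Measure.pi fun _ : X => ν.prod ν)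

variable {F : (X → ℝ) → ℝ} (hF : MemLp F 2 (Measure.pi fun _ : X => ν))

include hF in
lemma int_mix (s t : Finset X) : Integrable (fun Z => F (mix s Z) * F (mix t Z))
    (Measure.pi fun _ : X => ν.prod ν) :=
  (hF.comp_measurePreserving (mix_mp ν s)).integrable_mul
    (hF.comp_measurePreserving (mix_mp ν t))

include hF in
lemma swap_int {s t s' t' : Finset X} (r : Finset X) (hs : ∀ x, x ∈ s' ↔ ¬(x ∈ r ↔ x ∈ s))
    (ht : ∀ x, x ∈ t' ↔ ¬(x ∈ r ↔ x ∈ t)) :
    ∫ Z, F (mix s' Z) * F (mix t' Z) ∂(Measure.pi fun _ : X => ν.prod ν) =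
      ∫ Z, F (mix s Z) * F (mix t Z) ∂(Measure.pi fun _ : X => ν.prod ν) := by
  rw [← integral_swp ν r _ (int_mix ν hF s t).aestronglyMeasurable]
  refine integral_congr_ae (Filter.Eventually.of_forall fun Z => ?_)
  simp only [mix_swp hs, mix_swp ht]

include hF in
lemma cc_step {u : X} {s : Finset X} (hu : u ∉ s) :
    cc ν F s - cc ν F (insert u s) ≤ cc ν F ∅ - cc ν F {u} := by
  have hI := int_mix ν hF
  have e1 : ∫ Z, F (mix {u} Z) * F (mix (insert u s) Z) ∂(Measure.pi fun _ : X => ν.prod ν) =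
      cc ν F s := by
    refine swap_int ν hF {u} ?_ ?_
    · intro x; simp
    · intro x
      by_cases h : x = u
      · subst h; simp [hu]
      · simp [h]
  have e2 : ∫ Z, F (mix {u} Z) * F (mix s Z) ∂(Measure.pi fun _ : X => ν.prod ν) =
      cc ν F (insert u s) := by
    refine swap_int ν hF {u} ?_ ?_
    · intro x; simp
    · intro x
      by_cases h : x = u
      · subst h; simp [hu]
      · simp [h]
  have e3 : ∫ Z, F (mix {u} Z) * F (mix {u} Z) ∂(Measure.pi fun _ : X => ν.prod ν) =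
      cc ν F ∅ := by
    refine swap_int ν hF {u} ?_ ?_ <;> intro x <;> simp
  have e4 : ∫ Z, F (mix s Z) * F (mix s Z) ∂(Measure.pi fun _ : X => ν.prod ν) =
      cc ν F ∅ := by
    refine swap_int ν hF s ?_ ?_ <;> intro x <;> simp
  have e5 : ∫ Z, F (mix (insert u s) Z) * F (mix (insert u s) Z)
      ∂(Measure.pi fun _ : X => ν.prod ν) = cc ν F ∅ := by
    refine swap_int ν hF (insert u s) ?_ ?_ <;> intro x <;> simp <;> tauto
  have e6 : ∫ Z, F (mix s Z) * F (mix (insert u s) Z) ∂(Measure.pi fun _ : X => ν.prod ν) =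
      cc ν F {u} := by
    refine swap_int ν hF s ?_ ?_
    · intro x; simp
    · intro x
      by_cases h : x = u
      · subst h; simp [hu]
      · simp [h]
  have hmono : ∫ Z, (F (mix ∅ Z) * F (mix s Z) - F (mix ∅ Z) * F (mix (insert u s) Z)
        - F (mix {u} Z) * F (mix s Z) + F (mix {u} Z) * F (mix (insert u s) Z))
        ∂(Measure.pi fun _ : X => ν.prod ν) ≤
      ∫ Z, (1 / 2 * (F (mix ∅ Z) * F (mix ∅ Z)) - F (mix ∅ Z) * F (mix {u} Z)
        + 1 / 2 * (F (mix {u} Z) * F (mix {u} Z))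
        + 1 / 2 * (F (mix s Z) * F (mix s Z)) - F (mix s Z) * F (mix (insert u s) Z)
        + 1 / 2 * (F (mix (insert u s) Z) * F (mix (insert u s) Z)))
        ∂(Measure.pi fun _ : X => ν.prod ν) := by
    refine integral_mono ((((hI _ _).sub (hI _ _)).sub (hI _ _)).add (hI _ _))
      ((((((hI _ _).const_mul _).sub (hI _ _)).add ((hI _ _).const_mul _)).add
        ((hI _ _).const_mul _)).sub (hI _ _) |>.add ((hI _ _).const_mul _)) ?_
    intro Z
    simp only
    nlinarith [sq_nonneg ((F (mix ∅ Z) - F (mix {u} Z)) - (F (mix s Z) - F (mix (insert u s) Z)))]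
  rw [int4 (hI _ _) (hI _ _) (hI _ _) (hI _ _),
    int6 (hI _ _) (hI _ _) (hI _ _) (hI _ _) (hI _ _) (hI _ _), e1, e2, e3, e4, e5, e6] at hmono
  change cc ν F s - cc ν F (insert u s) - cc ν F (insert u s) + cc ν F s ≤
    1 / 2 * cc ν F ∅ - cc ν F {u} + 1 / 2 * cc ν F ∅ + 1 / 2 * cc ν F ∅ - cc ν F {u} +
      1 / 2 * cc ν F ∅ at hmono
  linarith

include hF in
lemma cc_sum (s : Finset X) : cc ν F ∅ - cc ν F s ≤ ∑ u ∈ s, (cc ν F ∅ - cc ν F {u}) := by
  induction s using Finset.induction_on with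
  | empty => simp
  | insert u s hu ih =>
    rw [Finset.sum_insert hu]
    have := cc_step ν hF hu
    linarith

omit [Fintype X] in
lemma mix_empty (Z : X → ℝ × ℝ) : mix ∅ Z = fun x => (Z x).1 := by
  funext x; simp [mix]

lemma mix_univ (Z : X → ℝ × ℝ) : mix Finset.univ Z = fun x => (Z x).2 := by
  funext x; simp [mix]

omit [Fintype X] in
lemma mix_single (u : X) (Z : X → ℝ × ℝ) :
    mix {u} Z = Function.update (fun x => (Z x).1) u (Z u).2 := by
  funext x
  by_cases h : x = u
  · subst h; simp [mix]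
  · simp [mix, h]

include hF in
lemma cc_empty : cc ν F ∅ = ∫ V, F V ^ 2 ∂(Measure.pi fun _ : X => ν) := by
  have h := mix_mp ν (∅ : Finset X)
  have hF2 : AEStronglyMeasurable (fun V => F V ^ 2) (Measure.pi fun _ : X => ν) :=
    hF.aestronglyMeasurable.pow 2
  unfold cc
  rw [← h.map_eq, integral_map h.measurable.aemeasurable (by rw [h.map_eq]; exact hF2)]
  refine integral_congr_ae (Filter.Eventually.of_forall fun Z => ?_)
  simp only [sq]

lemma cc_univ : cc ν F Finset.univ = (∫ V, F V ∂(Measure.pi fun _ : X => ν)) ^ 2 := by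
  have h := measurePreserving_arrowProdEquivProdArrow ℝ ℝ X (fun _ => ν) (fun _ => ν)
  unfold cc
  rw [sq, ← integral_prod_mul, ← h.integral_comp']
  refine integral_congr_ae (Filter.Eventually.of_forall fun Z => ?_)
  simp only [mix_empty, mix_univ]
  rfl

omit [DecidableEq X] in
/-- The map `Z ↦ (V, W_u)`. -/
lemma pr_mp (u : X) : MeasurePreserving (fun Z : X → ℝ × ℝ => ((fun x => (Z x).1), (Z u).2))
    (Measure.pi fun _ : X => ν.prod ν) ((Measure.pi fun _ : X => ν).prod ν) := by
  have h := measurePreserving_arrowProdEquivProdArrow ℝ ℝ X (fun _ => ν) (fun _ => ν)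
  have h2 := (MeasurePreserving.id (Measure.pi fun _ : X => ν)).prod
    (measurePreserving_eval (fun _ : X => ν) u)
  exact h2.comp h

/-- `(V, t) ↦ V` with the coordinate `u` replaced by `t` preserves the product measures. -/
lemma upd_mp (u : X) : MeasurePreserving (fun p : (X → ℝ) × ℝ => Function.update p.1 u p.2)
    ((Measure.pi fun _ : X => ν).prod ν) (Measure.pi fun _ : X => ν) := by
  have hm : Measurable (fun p : (X → ℝ) × ℝ => Function.update p.1 u p.2) := measurable_update'
  refine ⟨hm, ?_⟩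
  rw [← (pr_mp ν u).map_eq, Measure.map_map hm (pr_mp ν u).measurable, ← (mix_mp ν {u}).map_eq]
  congr 1
  funext Z
  rw [mix_single]
  rfl

include hF in
/-- `E F² - c(u) = E Var_u F`. -/
lemma cc_single (u : X) (hc : Continuous F) :
    cc ν F ∅ - cc ν F {u} = ∫ V, ((∫ t, F (Function.update V u t) ^ 2 ∂ν) -
      (∫ t, F (Function.update V u t) ∂ν) ^ 2) ∂(Measure.pi fun _ : X => ν) ∧
    Integrable (fun V => ((∫ t, F (Function.update V u t) ^ 2 ∂ν) -
      (∫ t, F (Function.update V u t) ∂ν) ^ 2)) (Measure.pi fun _ : X => ν) := by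
  set μ : Measure (X → ℝ) := Measure.pi fun _ : X => ν with hμ
  have hU : MeasurePreserving (fun p : (X → ℝ) × ℝ => Function.update p.1 u p.2) (μ.prod ν) μ :=
    upd_mp ν u
  have hupd : ∀ (V : X → ℝ) (t s : ℝ), Function.update (Function.update V u t) u s =
      Function.update V u s := fun V t s => Function.update_idem _ _ _
  -- the functions of two variables
  have h1 : MemLp (fun p : (X → ℝ) × ℝ => F (Function.update p.1 u p.2)) 2 (μ.prod ν) :=
    hF.comp_measurePreserving hU
  have h2 : MemLp (fun p : (X → ℝ) × ℝ => F p.1) 2 (μ.prod ν) :=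
    hF.comp_measurePreserving measurePreserving_fst
  have h12 : Integrable (fun p : (X → ℝ) × ℝ => F p.1 * F (Function.update p.1 u p.2))
      (μ.prod ν) := h2.integrable_mul h1
  have h11 : Integrable (fun p : (X → ℝ) × ℝ => F (Function.update p.1 u p.2) ^ 2)
      (μ.prod ν) := h1.integrable_sq
  have hA : Integrable (fun V => ∫ t, F (Function.update V u t) ^ 2 ∂ν) μ := h11.integral_prod_left
  have hFG : Integrable (fun V => F V * ∫ t, F (Function.update V u t) ∂ν) μ := by
    have := h12.integral_prod_left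
    simpa only [integral_const_mul] using this
  have hFG2 : Integrable (fun p : (X → ℝ) × ℝ => F (Function.update p.1 u p.2) *
      ∫ s, F (Function.update p.1 u s) ∂ν) (μ.prod ν) := by
    have := (hU.integrable_comp hFG.aestronglyMeasurable).2 hFG
    refine this.congr (Filter.Eventually.of_forall fun p => ?_)
    simp only [Function.comp, hupd]
  have hG : Integrable (fun V => (∫ t, F (Function.update V u t) ∂ν) ^ 2) μ := by
    have := hFG2.integral_prod_left
    simpa only [integral_mul_const, ← sq] using this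
  refine ⟨?_, hA.sub hG⟩
  rw [integral_sub hA hG]
  have eA : cc ν F ∅ = ∫ V, ∫ t, F (Function.update V u t) ^ 2 ∂ν ∂μ := by
    rw [cc_empty ν hF, ← integral_prod (μ := μ) (ν := ν) _ h11]
    have hF2 : AEStronglyMeasurable (fun V => F V ^ 2) μ := hF.aestronglyMeasurable.pow 2
    change ∫ V, F V ^ 2 ∂μ = _
    conv_lhs => rw [← hU.map_eq]
    rw [integral_map hU.measurable.aemeasurable (by rw [hU.map_eq]; exact hF2)]
  have eB : cc ν F {u} = ∫ V, (∫ t, F (Function.update V u t) ∂ν) ^ 2 ∂μ := by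
    have hp : MeasurePreserving (fun Z : X → ℝ × ℝ => ((fun x => (Z x).1), (Z u).2))
      (Measure.pi fun _ : X => ν.prod ν) (μ.prod ν) := pr_mp ν u
    have e1 : cc ν F {u} = ∫ p, F p.1 * F (Function.update p.1 u p.2) ∂(μ.prod ν) := by
      rw [← hp.map_eq, integral_map hp.measurable.aemeasurable
        (by rw [hp.map_eq]; exact h12.aestronglyMeasurable)]
      unfold cc
      refine integral_congr_ae (Filter.Eventually.of_forall fun Z => ?_)
      simp only [mix_empty, mix_single]
    rw [e1, integral_prod _ h12]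
    simp only [integral_const_mul]
    conv_lhs => rw [← hU.map_eq]
    rw [integral_map hU.measurable.aemeasurable (by rw [hU.map_eq]; exact hFG.aestronglyMeasurable)]
    simp only [hupd]
    rw [integral_prod _ hFG2]
    simp only [integral_mul_const, ← sq]
  rw [eA, eB]

end Double

end Poin

variable {X : Type} [Fintype X] [DecidableEq X] {ν : Measure ℝ} {R s2 C : ℝ} {τ τ' : ℝ → ℝ}

/-- Real version: `F` real valued, with real partial derivatives `F'`. -/
theorem poinc_real (hν : NiceLaw ν R s2 C τ τ') {F : (X → ℝ) → ℝ} {F' : X → (X → ℝ) → ℝ}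
    (hF : Continuous F) (hF' : ∀ u, Continuous (F' u))
    (hd : ∀ (V : X → ℝ) (u : X), HasDerivAt (fun t : ℝ => F (Function.update V u t)) (F' u V) (V u)) :
    Ex ν (fun V => F V ^ 2) - Ex ν F ^ 2 ≤ C * Ex ν (fun V => ∑ u, F' u V ^ 2) := by
  have := hν.prob
  have hL : MemLp F 2 (Measure.pi fun _ : X => ν) :=
    (memLp_two_iff_integrable_sq hF.aestronglyMeasurable).2 (integrable_cont hν (hF.pow 2))
  have h0 := Poin.cc_sum ν hL Finset.univ
  rw [Poin.cc_univ, Poin.cc_empty ν hL] at h0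
  change Ex ν (fun V => F V ^ 2) - Ex ν F ^ 2 ≤ _ at h0
  refine h0.trans ?_
  have hs : Ex ν (fun V => ∑ u, F' u V ^ 2) =
      ∑ u, ∫ V, F' u V ^ 2 ∂(Measure.pi fun _ : X => ν) :=
    integral_finsetSum _ fun u _ => integrable_cont hν ((hF' u).pow 2)
  rw [hs, Finset.mul_sum]
  refine Finset.sum_le_sum fun u _ => ?_
  obtain ⟨e, hi⟩ := Poin.cc_single ν hL u hF
  rw [← Poin.cc_empty ν hL, e]
  have hU := Poin.upd_mp (X := X) ν u
  have hI2 : Integrable (fun V => F' u V ^ 2) (Measure.pi fun _ : X => ν) :=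
    integrable_cont hν ((hF' u).pow 2)
  have hI : Integrable (fun p : (X → ℝ) × ℝ => F' u (Function.update p.1 u p.2) ^ 2)
      ((Measure.pi fun _ : X => ν).prod ν) :=
    (hU.integrable_comp hI2.aestronglyMeasurable).2 hI2
  have e2 : ∫ V, F' u V ^ 2 ∂(Measure.pi fun _ : X => ν) =
      ∫ V, ∫ t, F' u (Function.update V u t) ^ 2 ∂ν ∂(Measure.pi fun _ : X => ν) := by
    rw [← integral_prod (μ := Measure.pi fun _ : X => ν) (ν := ν) _ hI]
    conv_lhs => rw [← hU.map_eq]
    rw [integral_map hU.measurable.aemeasurable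
      (by rw [hU.map_eq]; exact hI2.aestronglyMeasurable)]
  rw [e2, ← integral_const_mul]
  refine integral_mono hi (hI.integral_prod_left.const_mul C) fun V => ?_
  refine hν.poinc (fun t => F (Function.update V u t)) (fun t => F' u (Function.update V u t))
    (fun t => ?_) ((hF' u).comp (by fun_prop))
  have := hd (Function.update V u t) u
  simpa only [Function.update_idem, Function.update_self] using this

end Pool.Agent.BK
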