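import Pool.Agent.BK.Bridge
import Pool.Agent.BK.BS
import Pool.Agent.BK.FB34
import Pool.Agent.BK.Law
import Pool.Agent.Helper3.Weak.PtMain

/-! BK module PT1: the pointwise bound for the Lyapunov norm at height `η ∈ [lam^A, 2 lam^A]`.

Given the probabilistic input `hT` (this is `orth_whp` for the centred law) we apply `chain_bound`
with `z = E + iη`, `π = (lam, n, E - lam m, η)`, `2n+1` of size `lam^(-40)`,
`s = sk A δ1 π`, `ρ = ⌈lam^(-3)⌉`, `b = lam^(10 d + 10)` (small `lam`; `htail`, `hlift`, `hbm` of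
`det_bridge` hold because `η ρ ≥ lam^(A-3) ≥ lam^(-1/2)` and `exp(-lam^(-1/2)/8)` beats all powers),
bad events: `Vof n m y ω` in the bad set for some `σ`,
`p = 2^d K lam^m0`, `θ = lam^(40 d + 10)`, `Q2` from `Weak.integral_pl_sq`; `LL_nsmul`:
`s · LL(e_j) = LL(s e_j) ≤ C log(1/lam)`, and `s ≥ lam^(-(1+A/2-δ1))/4`. -/

open MeasureTheory Finset Matrix Pool.Agent.Helper3.Anderson Pool.Agent.Helper3.Weak
open scoped NNReal Topology

noncomputable section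

namespace Pool.Agent.BK

/-- Constant in the bound of the exponential. -/
def pt1EC (k : ℕ) : ℝ := ((2 * k).factorial : ℝ) * 64 ^ k

lemma pt1EC_pos (k : ℕ) : 0 < pt1EC k := by
  unfold pt1EC
  positivity

lemma pt1_exp (k : ℕ) {lam : ℝ} (hl : 0 < lam) :
    Real.exp (-(√(lam⁻¹) / 8)) ≤ pt1EC k * lam ^ k := by
  have h1 : 0 < √(lam⁻¹) := Real.sqrt_pos.2 (inv_pos.2 hl)
  have h2 := Real.pow_div_factorial_le_exp (√(lam⁻¹) / 8) (by positivity) (2 * k)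
  have h3 : (√(lam⁻¹) / 8) ^ (2 * k) = (64 ^ k * lam ^ k)⁻¹ := by
    rw [pow_mul, div_pow, Real.sq_sqrt (inv_pos.2 hl).le, ← mul_pow, ← inv_pow]
    congr 1
    rw [mul_inv]
    ring
  rw [h3] at h2
  rw [Real.exp_neg]
  have h4 : 0 < (64 ^ k * lam ^ k)⁻¹ / ((2 * k).factorial : ℝ) := by positivity
  refine (inv_anti₀ h4 h2).trans (le_of_eq ?_)
  unfold pt1EC
  rw [inv_div, div_eq_mul_inv, inv_inv]
  ring

lemma pt1_ev (C : ℝ) {α : ℝ} (hα : 0 < α) : ∀ᶠ lam in 𝓝[>] (0 : ℝ), C * lam ^ α ≤ 1 := by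
  have h1 : Filter.Tendsto (fun x : ℝ => x ^ α) (𝓝[>] 0) (𝓝 (0 ^ α)) :=
    (Real.continuousAt_rpow_const 0 α (Or.inr hα.le)).tendsto.mono_left nhdsWithin_le_nhds
  rw [Real.zero_rpow hα.ne'] at h1
  have h2 := h1.const_mul C
  rw [mul_zero] at h2
  exact (h2.eventually (gt_mem_nhds zero_lt_one)).mono fun _ h => le_of_lt h

lemma pt1_ev_log (C : ℝ) {α : ℝ} (hα : 0 < α) :
    ∀ᶠ lam in 𝓝[>] (0 : ℝ), C * (ell lam * lam ^ α) ≤ 1 := by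
  have h1 := (tendsto_log_mul_rpow_nhdsGT_zero hα).neg
  have h2 := h1.const_mul C
  rw [neg_zero, mul_zero] at h2
  refine (h2.eventually (gt_mem_nhds zero_lt_one)).mono fun lam h => le_of_lt ?_
  have : C * (ell lam * lam ^ α) = C * -(Real.log lam * lam ^ α) := by
    unfold ell
    rw [one_div, Real.log_inv]
    ring
  rw [this]
  exact h

lemma pt1_ev_lin (C : ℝ) : ∀ᶠ lam in 𝓝[>] (0 : ℝ), C * lam ≤ 1 := by
  filter_upwards [pt1_ev C zero_lt_one] with lam h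
  rwa [Real.rpow_one] at h

/-- Choice of the size of the torus. -/
lemma pt1_n {u : ℝ} (hu : 7 ≤ u) : ∃ n : ℕ, u ^ 40 ≤ 2 * (n : ℝ) + 1 ∧ 2 * (n : ℝ) + 3 ≤ u ^ 43 ∧
    u ^ 3 + 1 ≤ (n : ℝ) := by
  have h1 := Nat.le_ceil (u ^ 40 / 2)
  have h2 := Nat.ceil_lt_add_one (show 0 ≤ u ^ 40 / 2 by positivity)
  have h3 : (1 : ℝ) ≤ u ^ 40 := one_le_pow₀ (by linarith)
  have h4 : (7 : ℝ) ^ 3 ≤ u ^ 3 := pow_le_pow_left₀ (by norm_num) hu 3
  have h5 : u ^ 43 = u ^ 40 * u ^ 3 := by rw [← pow_add]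
  have h6 : u ^ 40 = u ^ 3 * u ^ 37 := by rw [← pow_add]
  have h7 : (7 : ℝ) ≤ u ^ 37 := hu.trans (le_self_pow₀ (by linarith) (by norm_num))
  refine ⟨⌈u ^ 40 / 2⌉₊, by linarith, ?_, ?_⟩
  · rw [h5]
    nlinarith
  · have : u ^ 3 * 7 ≤ u ^ 40 := by rw [h6]; gcongr
    linarith

/-- Size of the length scale. -/
lemma pt1_sk {A δ1 lam E η : ℝ} {n : ℕ} (hl : 0 < lam) (h7 : 7 * lam ≤ 1)
    (he2 : 2 ≤ 1 + A / 2 - δ1) (he3 : 1 + A / 2 - δ1 < 3) (hn : lam⁻¹ ^ 40 ≤ 2 * (n : ℝ) + 1)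
    (h3 : 2 * lam ^ (3 - (1 + A / 2 - δ1)) ≤ 1) :
    lam ^ (-(1 + A / 2 - δ1)) / 4 ≤ (sk A δ1 ⟨lam, n, E, η⟩ : ℝ) ∧
      (sk A δ1 ⟨lam, n, E, η⟩ : ℝ) ≤ lam⁻¹ ^ 3 := by
  have hp := Real.pi_gt_three
  have hp4 := Real.pi_lt_four
  set e : ℝ := 1 + A / 2 - δ1 with he
  have hl1 : lam ≤ 1 := by linarith
  have hle : 0 < lam ^ e := Real.rpow_pos_of_pos hl e
  have hN : (0 : ℝ) < 2 * n + 1 := by positivity
  -- the momentum
  set k : ℝ := kk A δ1 ⟨lam, n, E, η⟩ with hk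
  have hk0 : k = 2 * Real.pi * ((⌈lam ^ e * (2 * n + 1) / (2 * Real.pi)⌉₊ : ℕ) : ℝ) / (2 * n + 1) := by
    rw [hk]
    unfold kk kof mk
    rfl
  have hc1 := Nat.le_ceil (lam ^ e * (2 * n + 1) / (2 * Real.pi))
  have hc2 := Nat.ceil_lt_add_one (show 0 ≤ lam ^ e * (2 * n + 1) / (2 * Real.pi) by positivity)
  have hk1 : lam ^ e ≤ k := by
    rw [hk0, le_div_iff₀ hN]
    rw [div_le_iff₀ (by positivity)] at hc1
    linarith
  have h40 : (2 * (n : ℝ) + 1)⁻¹ ≤ lam ^ 40 := by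
    have : (2 * (n : ℝ) + 1)⁻¹ ≤ (lam⁻¹ ^ 40)⁻¹ := inv_anti₀ (by positivity) hn
    rwa [← inv_pow, inv_inv] at this
  have hle3 : lam ^ 3 ≤ lam ^ e := by
    rw [← Real.rpow_natCast lam 3]
    exact Real.rpow_le_rpow_of_exponent_ge hl hl1 (by push_cast; exact he3.le)
  have hk2 : k ≤ 2 * lam ^ e := by
    have e1 : 2 * Real.pi * ((⌈lam ^ e * (2 * n + 1) / (2 * Real.pi)⌉₊ : ℕ) : ℝ) ≤
        lam ^ e * (2 * n + 1) + 2 * Real.pi := by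
      have e2 : 2 * Real.pi * (lam ^ e * (2 * n + 1) / (2 * Real.pi) + 1) =
          lam ^ e * (2 * n + 1) + 2 * Real.pi := by
        field_simp
      rw [← e2]
      gcongr
    have e3 : k ≤ lam ^ e + 2 * Real.pi * (2 * (n : ℝ) + 1)⁻¹ := by
      rw [hk0, div_le_iff₀ hN]
      refine e1.trans (le_of_eq ?_)
      field_simp
    have e4 : 2 * Real.pi * (2 * (n : ℝ) + 1)⁻¹ ≤ lam ^ 3 := by
      have e5 : lam ^ 40 ≤ lam ^ 5 := pow_le_pow_of_le_one hl.le hl1 (by norm_num)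
      have e6 : 2 * Real.pi * (2 * (n : ℝ) + 1)⁻¹ ≤ 2 * 4 * lam ^ 5 := by gcongr; linarith
      have e7 : 2 * 4 * lam ^ 5 = (8 * lam ^ 2) * lam ^ 3 := by ring
      have e8 : 8 * lam ^ 2 ≤ 1 := by nlinarith
      have e9 : (8 * lam ^ 2) * lam ^ 3 ≤ 1 * lam ^ 3 := by gcongr
      linarith
    linarith
  have hk3 : 0 < k := lt_of_lt_of_le hle hk1
  have hsd : (sk A δ1 ⟨lam, n, E, η⟩ : ℝ) = ((⌊Real.pi / (3 * k)⌋₊ : ℕ) : ℝ) := rfl
  have hneg : lam ^ (-e) = (lam ^ e)⁻¹ := Real.rpow_neg hl.le e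
  rw [hsd]
  constructor
  · have f1 := Nat.lt_floor_add_one (Real.pi / (3 * k))
    have f2 : (lam ^ e)⁻¹ / 2 ≤ Real.pi / (3 * k) := by
      rw [div_le_div_iff₀ (by norm_num) (by positivity)]
      have : (lam ^ e)⁻¹ * k ≤ 2 := by
        rw [inv_mul_le_iff₀ hle]
        linarith
      nlinarith
    have f3 : (4 : ℝ) ≤ (lam ^ e)⁻¹ := by
      have f4 : lam ^ e ≤ lam ^ 2 := by
        rw [← Real.rpow_natCast lam 2]
        exact Real.rpow_le_rpow_of_exponent_ge hl hl1 (by push_cast; exact he2)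
      have f5 : lam ^ e ≤ 4⁻¹ := by nlinarith
      have := inv_anti₀ hle f5
      rwa [inv_inv] at this
    rw [hneg]
    linarith
  · have f1 := Nat.floor_le (show 0 ≤ Real.pi / (3 * k) by positivity)
    refine f1.trans ?_
    rw [div_le_iff₀ (by positivity)]
    have f2 : lam⁻¹ ^ 3 * lam ^ e = (lam ^ (3 - e))⁻¹ := by
      rw [← Real.rpow_neg hl.le, ← Real.rpow_natCast, Real.inv_rpow hl.le, ← Real.rpow_neg hl.le,
        ← Real.rpow_add hl]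
      congr 1
      push_cast
      ring
    have f3 : 0 < lam ^ (3 - e) := Real.rpow_pos_of_pos hl _
    have f4 : (2 : ℝ) ≤ (lam ^ (3 - e))⁻¹ := by
      rw [le_inv_comm₀ (by norm_num) f3]
      linarith
    have f5 : lam⁻¹ ^ 3 * lam ^ e ≤ lam⁻¹ ^ 3 * k := by gcongr
    rw [f2] at f5
    nlinarith

/-- The bad event. -/
lemma pt1_bad {μ : Measure ℝ} [IsProbabilityMeasure μ] {d : ℕ} (π : Par) (m c0 p0 : ℝ) (s : ℕ)
    (j : Fin d) (hp0 : 0 ≤ p0)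
    (h : ∀ σ : Fin d → ℤˣ, ((Measure.pi fun _ : Tor d π.n => μ.map (fun x => x - m))
      {V | msT π σ j s V < c0}).toReal ≤ p0) (y : Site d) :
    ∃ B : Set (Site d → ℝ), MeasurableSet B ∧ (PP d μ).real B ≤ 2 ^ d * p0 ∧
      ∀ ω, ω ∉ B → ∀ σ : Fin d → ℤˣ, c0 ≤ msT π σ j s (Vof π.n m y ω) := by
  have hm : Measurable (fun x : ℝ => x - m) := measurable_id.sub_const m
  have hprob : IsProbabilityMeasure (μ.map (fun x => x - m)) :=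
    Measure.isProbabilityMeasure_map hm.aemeasurable
  have hb := law_bridge μ d π.n m y
  refine ⟨toMeasurable (PP d μ) (⋃ σ : Fin d → ℤˣ, {ω | msT π σ j s (Vof π.n m y ω) < c0}),
    measurableSet_toMeasurable _ _, ?_, ?_⟩
  · rw [measureReal_def, measure_toMeasurable]
    apply ENNReal.toReal_le_of_le_ofReal (by positivity)
    refine (measure_iUnion_fintype_le _ _).trans ?_
    have h1 : ∀ σ : Fin d → ℤˣ, PP d μ {ω | msT π σ j s (Vof π.n m y ω) < c0} ≤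
        ENNReal.ofReal p0 := by
      intro σ
      have h2 : PP d μ (Vof π.n m y ⁻¹' {V | msT π σ j s V < c0}) ≤
          (PP d μ).map (Vof π.n m y) {V | msT π σ j s V < c0} :=
        Measure.le_map_apply hb.measurable.aemeasurable _
      rw [hb.map_eq] at h2
      refine h2.trans ?_
      rw [← ENNReal.ofReal_toReal (measure_ne_top (Measure.pi fun _ : Tor d π.n =>
        μ.map (fun x => x - m)) {V | msT π σ j s V < c0})]
      exact ENNReal.ofReal_le_ofReal (h σ)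
    refine (Finset.sum_le_sum fun σ _ => h1 σ).trans ?_
    rw [Finset.sum_const, Finset.card_univ, nsmul_eq_mul, Fintype.card_fun,
      Fintype.card_fin, ENNReal.ofReal_mul (by positivity)]
    refine mul_le_mul_left (le_of_eq ?_) _
    rw [ENNReal.ofReal_pow (by norm_num)]
    have : Fintype.card ℤˣ = 2 := by decide
    rw [this]
    push_cast
    simp
  · intro ω hω σ
    by_contra hlt
    push Not at hlt
    exact hω (subset_toMeasurable _ _ (Set.mem_iUnion.2 ⟨σ, hlt⟩))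

/-- Smallness conditions. `B` is a bound for all constants. -/
structure Pt1S (d : ℕ) (A e2 e c M Z lam Kp lam1 κ : ℝ) (K : ℝ≥0) : Prop where
  h0 : 0 < lam
  h7 : 7 * lam ≤ 1
  h1 : lam ≤ lam1
  hA : 2 * lam ^ (A - e2) ≤ 1
  h3 : 2 * lam ^ (3 - e) ≤ 1
  ht : 8 * pt1EC (43 * d + 7) * lam ≤ c
  hl : 16 * d * pt1EC (53 * d + 17) * lam ≤ 1
  hc : 2 * lam ≤ c
  hq : 128 * (1 + cP d M Z K + 2 * (Helper3.Anderson.C1 M K).toReal) * lam ≤ 1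
  hK : 2 ^ d * Kp * lam ≤ 1
  he : 28 * (42 * d + 20) * (ell lam * lam ^ (e - 2 - κ)) ≤ 1

lemma pt1_small (d : ℕ) {A e2 e c lam1 κ : ℝ} (M Z Kp : ℝ) (K : ℝ≥0) (hc : 0 < c) (hl1 : 0 < lam1)
    (hA : e2 < A) (h3 : e < 3) (he : κ < e - 2) :
    ∃ l0 : ℝ, 0 < l0 ∧ l0 ≤ 1 ∧ ∀ lam : ℝ, 0 < lam → lam ≤ l0 →
      Pt1S d A e2 e c M Z lam Kp lam1 κ K := by
  have key : ∀ᶠ lam in 𝓝[>] (0 : ℝ), Pt1S d A e2 e c M Z lam Kp lam1 κ K := by
    filter_upwards [self_mem_nhdsWithin, pt1_ev_lin 7, pt1_ev_lin (1 / lam1),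
      pt1_ev 2 (show 0 < A - e2 by linarith), pt1_ev 2 (show 0 < 3 - e by linarith),
      pt1_ev_lin (8 * pt1EC (43 * d + 7) / c), pt1_ev_lin (16 * d * pt1EC (53 * d + 17)),
      pt1_ev_lin (2 / c), pt1_ev_lin (128 * (1 + cP d M Z K + 2 * (Helper3.Anderson.C1 M K).toReal)),
      pt1_ev_lin (2 ^ d * Kp), pt1_ev_log (28 * (42 * d + 20)) (show 0 < e - 2 - κ by linarith)]
      with lam g0 g7 g1 gA g3 gt gl gc gq gK ge
    have hdiv : ∀ a b : ℝ, 0 < b → a / b * lam ≤ 1 → a * lam ≤ b := by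
      intro a b hb hab
      rw [div_mul_eq_mul_div, div_le_one hb] at hab
      exact hab
    refine ⟨g0, g7, ?_, gA, g3, hdiv _ _ hc gt, gl, hdiv _ _ hc gc, gq, gK, ge⟩
    have := hdiv 1 lam1 hl1 g1
    linarith
  obtain ⟨l0, hl0, h⟩ := mem_nhdsGT_iff_exists_Ioc_subset.1 key
  have hl0' : (0 : ℝ) < l0 := hl0
  refine ⟨min l0 1, lt_min hl0' one_pos, min_le_right _ _, fun lam h1 h2 => ?_⟩
  exact h ⟨h1, h2.trans (min_le_left _ _)⟩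

/-- The second moment. -/
lemma pt1_Q2 {d : ℕ} {M Z lam s : ℝ} {K : ℝ≥0} (hM : 1 ≤ M) (hZ : 1 ≤ Z) (hlam : 0 < lam) (hlam1 : lam ≤ 1)
    (hs0 : 0 ≤ s) (hs : s ≤ lam⁻¹ ^ 3)
    (h5 : 128 * (1 + cP d M Z K + 2 * (Helper3.Anderson.C1 M K).toReal) * lam ≤ 1) :
    128 * s ^ 2 * (1 + PN d M Z K (lam⁻¹ ^ 3) + (C2 M lam K).toReal) ≤
      lam⁻¹ ^ (36 * d + 10) := by
  have h1 : (1 : ℝ) ≤ lam⁻¹ := (one_le_inv₀ hlam).2 hlam1
  have hcP := cP_nonneg (d := d) (K := K) hM hZ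
  have hC2 := C2_le (M := M) (K := K) hlam hlam1
  have hC1 : 0 ≤ (Helper3.Anderson.C1 M K).toReal := ENNReal.toReal_nonneg
  have hPN : PN d M Z K (lam⁻¹ ^ 3) = cP d M Z K * lam⁻¹ ^ (36 * d + 3) := by
    unfold PN cP
    rw [mul_pow, ← pow_mul, ← pow_mul]
    rw [show 36 * d + 3 = 3 * 6 * (2 * d) + 3 by ring, pow_add]
    ring
  have h2 : 1 + PN d M Z K (lam⁻¹ ^ 3) + (C2 M lam K).toReal ≤
      (1 + cP d M Z K + 2 * (Helper3.Anderson.C1 M K).toReal) * lam⁻¹ ^ (36 * d + 3) := by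
    rw [hPN]
    have h3 : lam⁻¹ ≤ lam⁻¹ ^ (36 * d + 3) := le_self_pow₀ h1 (by omega)
    have h4 : (1 : ℝ) ≤ lam⁻¹ ^ (36 * d + 3) := one_le_pow₀ h1
    nlinarith
  have h3 : 0 ≤ 1 + PN d M Z K (lam⁻¹ ^ 3) + (C2 M lam K).toReal := by
    have := PN_nonneg (d := d) (K := K) hM hZ (one_le_pow₀ h1 : 1 ≤ lam⁻¹ ^ 3)
    have := (ENNReal.toReal_nonneg : 0 ≤ (C2 M lam K).toReal)
    positivity
  calc 128 * s ^ 2 * (1 + PN d M Z K (lam⁻¹ ^ 3) + (C2 M lam K).toReal)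
      ≤ 128 * (lam⁻¹ ^ 3) ^ 2 *
        ((1 + cP d M Z K + 2 * (Helper3.Anderson.C1 M K).toReal) * lam⁻¹ ^ (36 * d + 3)) := by gcongr
    _ = 128 * (1 + cP d M Z K + 2 * (Helper3.Anderson.C1 M K).toReal) * (lam * lam⁻¹) *
          lam⁻¹ ^ (36 * d + 9) := by
        rw [mul_inv_cancel₀ hlam.ne', show 36 * d + 9 = 36 * d + 3 + 6 by ring,
          pow_add lam⁻¹ (36 * d + 3) 6]
        ring
    _ = (128 * (1 + cP d M Z K + 2 * (Helper3.Anderson.C1 M K).toReal) * lam) * lam⁻¹ ^ (36 * d + 10) := by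
        rw [show 36 * d + 10 = 36 * d + 9 + 1 by ring, pow_succ lam⁻¹ (36 * d + 9)]
        ring
    _ ≤ 1 * lam⁻¹ ^ (36 * d + 10) := by gcongr
    _ = _ := one_mul _

/-- The cost of a step. -/
lemma pt1_cost {d : ℕ} {M Z lam N Q Kp : ℝ} {K : ℝ≥0} (hM : 1 ≤ M) (hZ : 1 ≤ Z) (hlam : 0 < lam)
    (hlam1 : lam ≤ 1) (hell : 1 ≤ ell lam) (hKp : 0 ≤ Kp)
    (h5 : 128 * (1 + cP d M Z K + 2 * (Helper3.Anderson.C1 M K).toReal) * lam ≤ 1)
    (hK : 2 ^ d * Kp * lam ≤ 1)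
    (hN0 : 0 ≤ N) (hN : N ≤ lam⁻¹ ^ (4 * d)) (hQ0 : 0 ≤ Q) (hQ : Q ≤ lam⁻¹ ^ (36 * d + 10)) :
    Dcost M lam K N ((10 * d + 11) * ell lam) (2 ^ d * (Kp * lam ^ (44 * d + 11)))
      (lam ^ (40 * d + 10)) Q ≤ (42 * d + 20) * ell lam := by
  have h1 : (1 : ℝ) ≤ lam⁻¹ := (one_le_inv₀ hlam).2 hlam1
  have hcP := cP_nonneg (d := d) (K := K) hM hZ
  have hC2 := C2_le (M := M) (K := K) hlam hlam1
  have hC1 : 0 ≤ (Helper3.Anderson.C1 M K).toReal := ENNReal.toReal_nonneg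
  have hC20 : 0 ≤ (C2 M lam K).toReal := ENNReal.toReal_nonneg
  unfold Dcost
  have e2 : N * (1 / 2 * (2 ^ d * (Kp * lam ^ (44 * d + 11)) / lam ^ (40 * d + 10) +
      lam ^ (40 * d + 10) * Q)) ≤ 1 := by
    have e1 : 2 ^ d * (Kp * lam ^ (44 * d + 11)) / lam ^ (40 * d + 10) =
        (2 ^ d * Kp * lam) * lam ^ (4 * d) := by
      rw [show 44 * d + 11 = (40 * d + 10) + 4 * d + 1 by ring, pow_succ, pow_add]
      field_simp
    have e3 : (2 ^ d * Kp * lam) * lam ^ (4 * d) ≤ lam ^ (4 * d) :=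
      mul_le_of_le_one_left (by positivity) hK
    have h2 : lam ^ (40 * d + 10) * Q ≤ lam ^ (4 * d) := by
      calc lam ^ (40 * d + 10) * Q ≤ lam ^ (40 * d + 10) * lam⁻¹ ^ (36 * d + 10) := by gcongr
        _ = lam ^ (4 * d) := by
            rw [mul_comm, inv_pow_mul_pow hlam _ _ (by omega)]
            congr 1
            omega
    rw [e1]
    calc N * (1 / 2 * ((2 ^ d * Kp * lam) * lam ^ (4 * d) + lam ^ (40 * d + 10) * Q))
        ≤ lam⁻¹ ^ (4 * d) * (1 / 2 * (lam ^ (4 * d) + lam ^ (4 * d))) := by gcongr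
      _ = lam⁻¹ ^ (4 * d) * lam ^ (4 * d) := by ring
      _ = 1 := by rw [inv_pow_mul_pow hlam _ _ le_rfl]; simp
  have e3 : 4 * Real.log (1 + N * N * (C2 M lam K).toReal) ≤ 4 * ((8 * d + 2) * ell lam) := by
    have h3 : 1 + N * N * (C2 M lam K).toReal ≤ lam⁻¹ ^ (8 * d + 2) := by
      calc 1 + N * N * (C2 M lam K).toReal
          ≤ lam⁻¹ ^ (8 * d + 1) + lam⁻¹ ^ (4 * d) * lam⁻¹ ^ (4 * d) *
            (2 * (Helper3.Anderson.C1 M K).toReal * lam⁻¹) := by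
            gcongr
            exact one_le_pow₀ h1
        _ = (1 + 2 * (Helper3.Anderson.C1 M K).toReal) * lam⁻¹ ^ (8 * d + 1) := by
            rw [show 8 * d + 1 = 4 * d + 4 * d + 1 by ring, pow_add, pow_add]
            ring
        _ = ((1 + 2 * (Helper3.Anderson.C1 M K).toReal) * lam) * lam⁻¹ ^ (8 * d + 2) := by
            rw [show 8 * d + 2 = 8 * d + 1 + 1 by ring, pow_succ lam⁻¹ (8 * d + 1)]
            field_simp
        _ ≤ 1 * lam⁻¹ ^ (8 * d + 2) := by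
            gcongr
            nlinarith [mul_nonneg hcP hlam.le, mul_nonneg hC1 hlam.le]
        _ = _ := one_mul _
    have h4 : Real.log (1 + N * N * (C2 M lam K).toReal) ≤ Real.log (lam⁻¹ ^ (8 * d + 2)) :=
      Real.log_le_log (by positivity) h3
    rw [Real.log_pow] at h4
    unfold ell
    rw [one_div]
    push_cast at h4
    linarith
  nlinarith

/-- The numerical hypotheses of `det_bridge`. -/
lemma pt1_num {d n R : ℕ} {A e2 e c M Z lam Kp lam1 κ η : ℝ} {K : ℝ≥0}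
    (hS : Pt1S d A e2 e c M Z lam Kp lam1 κ K) (hc : 0 < c) (hA2 : 2 < A) (hA : A < 12 / 5)
    (hη1 : lam ^ A ≤ η) (hη2 : η ≤ 2 * lam ^ A) (hn2 : 2 * (n : ℝ) + 3 ≤ lam⁻¹ ^ 43)
    (hn3 : lam⁻¹ ^ 3 + 1 ≤ (n : ℝ)) (hR1 : lam⁻¹ ^ 3 ≤ (R : ℝ)) (hR2 : (R : ℝ) ≤ lam⁻¹ ^ 3 + 1) :
    0 < η ∧ η ≤ 1 ∧ 1 ≤ n ∧ (1 : ℝ) ≤ R ∧ (R : ℝ) ≤ n ∧
    (2 * (n : ℝ) + 1) ^ d * (2 / η) ^ 2 * Real.exp (-(η / 4 * R)) ≤ c / 2 * lam ^ (-A) ∧
    8 * (d : ℝ) / η ^ 2 * (2 * (n : ℝ) + 3) ^ d * Real.exp (-(η / 8 * n)) ≤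
      lam ^ (10 * d + 10) / 2 ∧
    (lam ^ (10 * d + 10)) ^ 2 * (2 * (R : ℝ) + 1) ^ d ≤ c / 2 * lam ^ (-A) := by
  have h0 := hS.h0
  have h7 := hS.h7
  have hl1 : lam ≤ 1 := by linarith
  have hu7 : 7 ≤ lam⁻¹ := by rw [le_inv_comm₀ (by norm_num) h0]; linarith
  have hu1 : 1 ≤ lam⁻¹ := by linarith
  have hu0 : 0 < lam⁻¹ := by linarith
  have hlA : 0 < lam ^ A := Real.rpow_pos_of_pos h0 A
  have hη : 0 < η := lt_of_lt_of_le hlA hη1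
  have hlA2 : lam ^ A ≤ lam ^ 2 := by
    rw [← Real.rpow_natCast lam 2]
    exact Real.rpow_le_rpow_of_exponent_ge h0 hl1 (by push_cast; linarith)
  have hlA3 : lam ^ 3 ≤ lam ^ A := by
    rw [← Real.rpow_natCast lam 3]
    exact Real.rpow_le_rpow_of_exponent_ge h0 hl1 (by push_cast; linarith)
  have hηle : η ≤ 1 := by nlinarith
  have hηinv : 1 / η ≤ lam⁻¹ ^ 3 := by
    rw [one_div, inv_pow]
    exact inv_anti₀ (by positivity) (hlA3.trans hη1)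
  have hlnA : 1 ≤ lam ^ (-A) := by
    rw [Real.rpow_neg h0.le]
    apply (one_le_inv₀ hlA).2
    nlinarith
  have hu3 : (1 : ℝ) ≤ lam⁻¹ ^ 3 := one_le_pow₀ hu1
  have hRn : (R : ℝ) ≤ n := hR2.trans hn3
  have hn1 : (1 : ℝ) ≤ n := by linarith
  have hsq : √(lam⁻¹) ≤ η * R := by
    have e1 : lam ^ A * lam⁻¹ ^ 3 = lam⁻¹ ^ (3 - A) := by
      rw [Real.inv_rpow h0.le, ← Real.rpow_neg h0.le, ← Real.rpow_natCast, Real.inv_rpow h0.le,
        ← Real.rpow_neg h0.le, ← Real.rpow_add h0]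
      congr 1
      push_cast
      ring
    have e2 : √(lam⁻¹) ≤ lam⁻¹ ^ (3 - A) := by
      rw [Real.sqrt_eq_rpow]
      exact Real.rpow_le_rpow_of_exponent_le hu1 (by linarith)
    calc √(lam⁻¹) ≤ lam ^ A * lam⁻¹ ^ 3 := by rw [e1]; exact e2
      _ ≤ η * R := by gcongr
  have hcanc : ∀ a b : ℕ, a ≤ b → lam⁻¹ ^ a * lam ^ b = lam ^ (b - a) := fun a b hab =>
    inv_pow_mul_pow h0 a b hab
  refine ⟨hη, hηle, by exact_mod_cast hn1, hu3.trans hR1, hRn, ?_, ?_, ?_⟩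
  · have e1 : Real.exp (-(η / 4 * R)) ≤ pt1EC (43 * d + 7) * lam ^ (43 * d + 7) := by
      refine le_trans (Real.exp_le_exp.2 ?_) (pt1_exp _ h0)
      have : 0 ≤ √(lam⁻¹) := Real.sqrt_nonneg _
      linarith
    have e2 : (2 / η) ^ 2 ≤ (2 * lam⁻¹ ^ 3) ^ 2 := by
      have : 2 / η = 2 * (1 / η) := by ring
      rw [this]
      gcongr
    have e3 : (2 * (n : ℝ) + 1) ^ d ≤ (lam⁻¹ ^ 43) ^ d := by
      gcongr
      linarith
    have e4 := pt1EC_pos (43 * d + 7)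
    have ht := hS.ht
    generalize pt1EC (43 * d + 7) = EC at e1 e4 ht
    calc (2 * (n : ℝ) + 1) ^ d * (2 / η) ^ 2 * Real.exp (-(η / 4 * R))
        ≤ (lam⁻¹ ^ 43) ^ d * (2 * lam⁻¹ ^ 3) ^ 2 * (EC * lam ^ (43 * d + 7)) := by
          gcongr
      _ = 4 * EC * (lam⁻¹ ^ (43 * d + 6) * lam ^ (43 * d + 7)) := by
          rw [← pow_mul, mul_pow, ← pow_mul, pow_add lam⁻¹ (43 * d) 6]
          ring
      _ = 4 * EC * lam := by
          rw [hcanc _ _ (by omega), show 43 * d + 7 - (43 * d + 6) = 1 by omega, pow_one]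
      _ ≤ c / 2 * 1 := by linarith
      _ ≤ c / 2 * lam ^ (-A) := by gcongr
  · have e1 : Real.exp (-(η / 8 * n)) ≤ pt1EC (53 * d + 17) * lam ^ (53 * d + 17) := by
      refine le_trans (Real.exp_le_exp.2 ?_) (pt1_exp _ h0)
      have e2 : η * R ≤ η * n := by gcongr
      linarith
    have e2 : 8 * (d : ℝ) / η ^ 2 ≤ 8 * d * (lam⁻¹ ^ 3) ^ 2 := by
      have : 8 * (d : ℝ) / η ^ 2 = 8 * d * (1 / η) ^ 2 := by
        rw [one_div, inv_pow, div_eq_mul_inv]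
      rw [this]
      gcongr
    have e3 : (2 * (n : ℝ) + 3) ^ d ≤ (lam⁻¹ ^ 43) ^ d := by gcongr
    have e4 := pt1EC_pos (53 * d + 17)
    have hl := hS.hl
    generalize pt1EC (53 * d + 17) = EC at e1 e4 hl
    calc 8 * (d : ℝ) / η ^ 2 * (2 * (n : ℝ) + 3) ^ d * Real.exp (-(η / 8 * n))
        ≤ 8 * d * (lam⁻¹ ^ 3) ^ 2 * (lam⁻¹ ^ 43) ^ d * (EC * lam ^ (53 * d + 17)) := by gcongr
      _ = 8 * d * EC * (lam⁻¹ ^ (43 * d + 6) * lam ^ (53 * d + 17)) := by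
          rw [← pow_mul, ← pow_mul, pow_add lam⁻¹ (43 * d) 6]
          ring
      _ = (16 * d * EC * lam) * (lam ^ (10 * d + 10) / 2) := by
          rw [hcanc _ _ (by omega), show 53 * d + 17 - (43 * d + 6) = 10 * d + 10 + 1 by omega,
            pow_succ]
          ring
      _ ≤ 1 * (lam ^ (10 * d + 10) / 2) := by gcongr
      _ = _ := one_mul _
  · have e1 : 2 * (R : ℝ) + 1 ≤ lam⁻¹ ^ 4 := by
      have e2 : lam⁻¹ ^ 4 = lam⁻¹ * lam⁻¹ ^ 3 := by ring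
      rw [e2]
      nlinarith
    have e2 : (2 * (R : ℝ) + 1) ^ d ≤ (lam⁻¹ ^ 4) ^ d := by gcongr
    calc (lam ^ (10 * d + 10)) ^ 2 * (2 * (R : ℝ) + 1) ^ d
        ≤ (lam ^ (10 * d + 10)) ^ 2 * (lam⁻¹ ^ 4) ^ d := by gcongr
      _ = lam⁻¹ ^ (4 * d) * lam ^ (20 * d + 20) := by
          rw [← pow_mul, ← pow_mul, show (10 * d + 10) * 2 = 20 * d + 20 by ring]
          ring
      _ = lam ^ (16 * d + 20) := by
          rw [hcanc _ _ (by omega)]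
          congr 1
          omega
      _ ≤ lam ^ 1 := pow_le_pow_of_le_one h0.le hl1 (by omega)
      _ ≤ c / 2 * 1 := by
          have := hS.hc
          linarith
      _ ≤ c / 2 * lam ^ (-A) := by gcongr

lemma pt1_log {d : ℕ} {lam : ℝ} (h0 : 0 < lam) (h7 : 7 * lam ≤ 1) :
    Real.log (2 / lam ^ (10 * d + 10)) ≤ (10 * d + 11) * ell lam := by
  have hu7 : 7 ≤ lam⁻¹ := by rw [le_inv_comm₀ (by norm_num) h0]; linarith
  have hb : 2 / lam ^ (10 * d + 10) ≤ lam⁻¹ ^ (10 * d + 11) := by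
    rw [pow_succ lam⁻¹ (10 * d + 10), div_eq_mul_inv, ← inv_pow, mul_comm]
    gcongr
    linarith
  have hlog : Real.log (2 / lam ^ (10 * d + 10)) ≤ Real.log (lam⁻¹ ^ (10 * d + 11)) :=
    Real.log_le_log (by positivity) hb
  rw [Real.log_pow] at hlog
  unfold ell
  rw [one_div]
  push_cast at hlog
  exact hlog

lemma pt1_det {d : ℕ} {A e2 e c M Z m Kp lam1 κ : ℝ} {K : ℝ≥0} (hM : 0 ≤ M) (π : Par) (R : ℕ)
    (hS : Pt1S d A e2 e c M Z π.lam Kp lam1 κ K) (hc : 0 < c) (hA2 : 2 < A) (hA : A < 12 / 5)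
    (hη1 : π.lam ^ A ≤ π.eta) (hη2 : π.eta ≤ 2 * π.lam ^ A)
    (hn2 : 2 * (π.n : ℝ) + 3 ≤ π.lam⁻¹ ^ 43) (hn3 : π.lam⁻¹ ^ 3 + 1 ≤ (π.n : ℝ))
    (hR1 : π.lam⁻¹ ^ 3 ≤ (R : ℝ)) (hR2 : (R : ℝ) ≤ π.lam⁻¹ ^ 3 + 1)
    (σ : Fin d → ℤˣ) (j : Fin d) (s : ℕ) (y : Site d)
    (ω : Site d → ℝ) (hω : ∀ x, |ω x| ≤ M)
    (hms : c * π.lam ^ (-A) ≤ msT π σ j s (Vof π.n m y ω)) :
    ∃ x : Site d, (∀ l, |x l| ≤ (R : ℤ)) ∧ (s : ℤ) ≤ (σ j : ℤ) * x j ∧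
      (∀ l, 0 ≤ (σ l : ℤ) * x l) ∧
      pl M π.lam (π.z + ((π.lam * m : ℝ) : ℂ)) ω (y + x) y ≤ (10 * d + 11) * ell π.lam := by
  obtain ⟨hη, hηle, hn1, hRR, hRn, htail, hlift, hbm⟩ :=
    pt1_num hS hc hA2 hA hη1 hη2 hn2 hn3 hR1 hR2
  have h0 := hS.h0
  have h7 := hS.h7
  have hb1 : π.lam ^ (10 * d + 10) ≤ 1 := pow_le_one₀ h0.le (by linarith)
  have hb0 : 0 < π.lam ^ (10 * d + 10) := pow_pos h0 _
  have hlog := pt1_log (d := d) h0 h7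
  generalize π.lam ^ (10 * d + 10) = b at hlift hbm hb1 hb0 hlog
  obtain ⟨x, hx1, hx2, hx3, hx4⟩ := det_bridge (m := m) (A := A) (ρ := (R : ℝ))
    (b := b) hM π hη hηle hb0 hb1 hn1 hRR hRn htail hlift hbm σ j s y ω hω hms
  exact ⟨x, fun l => by exact_mod_cast hx1 l, hx2, hx3, hx4.trans hlog⟩

/-- The pointwise bound, without restrictions on `lo` and `hi`. -/
theorem pt1_gen {μ : Measure ℝ} [IsProbabilityMeasure μ] {M : ℝ} {K : ℝ≥0} (hμ : GoodLaw μ M K)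
    {d : ℕ} (_hd : 1 ≤ d) {lo hi lam0 A e2 δ1 κ c : ℝ} (_hl0 : 0 < lam0) (hA2 : 2 < A) (hA : A < 12 / 5)
    (he2 : e2 < A) (_hδ1 : 0 < δ1) (hκ : κ < A / 2 - 1 - δ1) (hκ0 : 0 < κ) (hc : 0 < c)
    (hT : ∀ m0 : ℝ, ∃ K lam1 : ℝ, 0 < K ∧ 0 < lam1 ∧ lam1 ≤ lam0 ∧
      ∀ π ∈ PS lo hi lam1 A e2, π.eta ≤ 2 * π.lam ^ A → ∀ (σ : Fin d → ℤˣ) (j : Fin d),
        ((Measure.pi fun _ : Tor d π.n => μ.map (fun x => x - ∫ t, t ∂μ))
          {V | msT π σ j (sk A δ1 π) V < c * π.lam ^ (-A)}).toReal ≤ K * π.lam ^ m0) :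
    ∃ lam1 : ℝ, 0 < lam1 ∧ lam1 ≤ 1 ∧ ∀ (lam : ℝ) (hlam : 0 < lam), lam ≤ lam1 →
      ∀ E η : ℝ, lo ≤ E - lam * ∫ t, t ∂μ → E - lam * ∫ t, t ∂μ ≤ hi → lam ^ A ≤ η →
        η ≤ 2 * lam ^ A → ∀ (hz0 : 0 < ((E : ℂ) + η * Complex.I).im) (j : Fin d),
          LL μ M lam K ((E : ℂ) + η * Complex.I) hμ hlam hz0 (Pi.single j 1) ≤
            lam ^ (2 + κ) / 7 := by
  have hM1 := hμ.one_le
  have hM : 0 ≤ M := by linarith
  obtain ⟨Kp, lam1, hKp, hlam1, -, hT'⟩ := hT ((44 * d + 11 : ℕ) : ℝ)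
  obtain ⟨l0, hl00, hl01, hsm⟩ := pt1_small d (A := A) (e2 := e2) (e := 1 + A / 2 - δ1) (κ := κ)
    M (|lo| + |hi| + M + 4) Kp K hc hlam1 he2 (by linarith) (by linarith)
  refine ⟨l0, hl00, hl01, fun lam hlam hle E η hE1 hE2 hη1 hη2 hz0 j => ?_⟩
  have hS := hsm lam hlam hle
  have h7 := hS.h7
  have hl1 : lam ≤ 1 := by linarith
  have hu7 : 7 ≤ lam⁻¹ := by rw [le_inv_comm₀ (by norm_num) hlam]; linarith
  have hu1 : 1 ≤ lam⁻¹ := by linarith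
  obtain ⟨n, hn1, hn2, hn3⟩ := pt1_n hu7
  set m : ℝ := ∫ t, t ∂μ with hm
  set π : Par := ⟨lam, n, E - lam * m, η⟩ with hπ
  obtain ⟨R, hR1, hR2⟩ : ∃ R : ℕ, lam⁻¹ ^ 3 ≤ (R : ℝ) ∧ (R : ℝ) ≤ lam⁻¹ ^ 3 + 1 :=
    ⟨⌈lam⁻¹ ^ 3⌉₊, Nat.le_ceil _, (Nat.ceil_lt_add_one (by positivity)).le⟩
  obtain ⟨hη, hηle, -, hRR, -, -, -, -⟩ := pt1_num (d := d) (n := n) (R := R) hS hc hA2 hA hη1 hη2
    hn2 hn3 hR1 hR2
  -- the parameters are admissible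
  have hPS : π ∈ PS lo hi lam1 A e2 := by
    refine ⟨hlam, hS.h1, ?_, ?_, hE1, hE2, hη1, ?_⟩
    · have : lam ^ (-(40 : ℝ)) = lam⁻¹ ^ 40 := by
        rw [Real.rpow_neg hlam.le, inv_pow]
        congr 1
        exact_mod_cast Real.rpow_natCast lam 40
      change lam ^ (-(40 : ℝ)) ≤ 2 * (n : ℝ) + 1
      rw [this]
      exact hn1
    · have : lam ^ (-(43 : ℝ)) = lam⁻¹ ^ 43 := by
        rw [Real.rpow_neg hlam.le, inv_pow]
        congr 1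
        exact_mod_cast Real.rpow_natCast lam 43
      change 2 * (n : ℝ) + 1 ≤ lam ^ (-(43 : ℝ))
      rw [this]
      linarith
    · refine hη2.trans ?_
      have h1 : lam ^ A = lam ^ (A - e2) * lam ^ e2 := by
        rw [← Real.rpow_add hlam]
        congr 1
        ring
      have h2 : 0 < lam ^ e2 := Real.rpow_pos_of_pos hlam _
      change 2 * lam ^ A ≤ lam ^ e2
      rw [h1]
      have := hS.hA
      nlinarith
  have hTπ := fun σ => hT' π hPS hη2 σ j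
  -- the length scale
  obtain ⟨hs1, hs2⟩ := pt1_sk (E := E - lam * m) (η := η) (n := n) hlam h7
    (show 2 ≤ 1 + A / 2 - δ1 by linarith) (by linarith) hn1 hS.h3
  rw [← hπ] at hs1 hs2
  generalize hsdef : sk A δ1 π = s at hTπ hs1 hs2
  have hlpos : 0 < lam ^ (1 + A / 2 - δ1) := Real.rpow_pos_of_pos hlam _
  have hneg : lam ^ (-(1 + A / 2 - δ1)) = (lam ^ (1 + A / 2 - δ1))⁻¹ := Real.rpow_neg hlam.le _
  have hs0 : 0 < (s : ℝ) := lt_of_lt_of_le (by positivity) hs1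
  have hs00 : 0 < s := by exact_mod_cast hs0
  obtain ⟨n0, rfl⟩ : ∃ n0, s = n0 + 1 := ⟨s - 1, by omega⟩
  -- norm of z
  have himz : ((E : ℂ) + η * Complex.I).im = η := by simp
  have hlh1 := abs_nonneg lo
  have hlh2 := abs_nonneg hi
  have hlh3 := neg_abs_le lo
  have hlh4 := le_abs_self hi
  set Z : ℝ := |lo| + |hi| + M + 4 with hZdef
  have hZ : (1 : ℝ) ≤ Z := by linarith
  have hzZ : ‖(E : ℂ) + η * Complex.I‖ ≤ Z := by
    have h1 : |lam * m| ≤ M := by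
      rw [abs_mul, abs_of_pos hlam]
      have := abs_mean_le hμ
      have h2 : 0 ≤ |m| := abs_nonneg _
      nlinarith
    rw [abs_le] at h1
    have h3 : |E| ≤ |lo| + |hi| + M := by
      rw [abs_le]
      constructor <;> linarith
    calc ‖(E : ℂ) + η * Complex.I‖ ≤ ‖(E : ℂ)‖ + ‖(η : ℂ) * Complex.I‖ := norm_add_le _ _
      _ = |E| + η := by
          rw [Complex.norm_real, norm_mul, Complex.norm_I, mul_one, Complex.norm_real,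
            Real.norm_eq_abs, Real.norm_of_nonneg hη.le]
      _ ≤ _ := by linarith
  have hηinv : η⁻¹ ≤ lam⁻¹ ^ 3 := by
    rw [inv_pow]
    refine inv_anti₀ (by positivity) (le_trans ?_ hη1)
    rw [← Real.rpow_natCast lam 3]
    exact Real.rpow_le_rpow_of_exponent_ge hlam hl1 (by push_cast; linarith)
  have hQ := integral_pl_sq (d := d) (Z := Z) (t := lam⁻¹ ^ 3) hμ hlam hl1 hz0 hZ
    hzZ (one_le_pow₀ hu1) (le_self_pow₀ hu1 (by norm_num)) (by rw [himz]; exact hηinv) j n0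
  push_cast at hs0 hs1 hs2
  have hQ2 := pt1_Q2 (d := d) (K := K) hM1 hZ hlam hl1 (s := (n0 : ℝ) + 1) hs0.le hs2 hS.hq
  have hzeq : π.z + ((π.lam * m : ℝ) : ℂ) = (E : ℂ) + η * Complex.I := by
    apply Complex.ext
    · simp [Par.z, hπ]
    · simp [Par.z, hπ]
  have hbound := chain_bound (M := M) (K := K) hμ hlam hz0 j ((n0 : ℤ) + 1) (R : ℤ) (by positivity)
    (by positivity) ((10 * d + 11) * ell lam) (2 ^ d * (Kp * lam ^ (44 * d + 11)))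
    (lam ^ (40 * d + 10))
    (128 * ((n0 : ℝ) + 1) ^ 2 * (1 + PN d M Z K (lam⁻¹ ^ 3) + (C2 M lam K).toReal))
    (by
      have : 0 ≤ ell lam := by
        unfold ell
        rw [one_div]
        exact Real.log_nonneg hu1
      positivity) (by positivity) (fun y => by
      obtain ⟨B, hB1, hB2, hB3⟩ := pt1_bad (μ := μ) π m (c * π.lam ^ (-A))
        (Kp * lam ^ (44 * d + 11)) (n0 + 1) j (by positivity) (fun σ => by
          have := hTπ σ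
          rw [Real.rpow_natCast] at this
          exact this) y
      refine ⟨B, hB1, hB2, ?_⟩
      filter_upwards [ae_bdd (d := d) hμ.supp] with ω hω hωB σ hσ
      obtain ⟨x, h1, h2, h3, h4⟩ := pt1_det (m := m) hM π R hS hc hA2 hA hη1 hη2 hn2 hn3 hR1 hR2
        σ j (n0 + 1) y ω hω (hB3 ω hωB σ)
      rw [hzeq] at h4
      refine ⟨x, h1, ?_, h3, h4⟩
      rw [hσ] at h2
      simpa using h2) hQ
  have hell : 1 ≤ ell lam := by
    unfold ell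
    rw [one_div, Real.le_log_iff_exp_le (by linarith)]
    have := Real.exp_one_lt_d9
    linarith
  have hρ0 : (0 : ℝ) ≤ 2 * ((R : ℤ) : ℝ) + 1 := by positivity
  have hN : (2 * ((R : ℤ) : ℝ) + 1) ^ d ≤ lam⁻¹ ^ (4 * d) := by
    rw [pow_mul]
    refine pow_le_pow_left₀ hρ0 ?_ d
    have e2 : lam⁻¹ ^ 4 = lam⁻¹ * lam⁻¹ ^ 3 := by ring
    have e3 : (1 : ℝ) ≤ lam⁻¹ ^ 3 := one_le_pow₀ hu1
    rw [e2]
    push_cast
    nlinarith
  have hQ0 : 0 ≤ 128 * ((n0 : ℝ) + 1) ^ 2 * (1 + PN d M Z K (lam⁻¹ ^ 3) +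
      (C2 M lam K).toReal) := by
    have h1 := PN_nonneg (d := d) (K := K) hM1 hZ (one_le_pow₀ hu1 : 1 ≤ lam⁻¹ ^ 3)
    have h2 := (ENNReal.toReal_nonneg : 0 ≤ (C2 M lam K).toReal)
    positivity
  have hD := pt1_cost (d := d) (M := M) (K := K) hM1 hZ hlam hl1 hell hKp.le hS.hq hS.hK
    (pow_nonneg hρ0 d) hN hQ0 hQ2
  have hLL := hbound.trans hD
  have hsm' : (Pi.single j ((n0 : ℤ) + 1) : Site d) = (n0 + 1) • (Pi.single j 1 : Site d) := by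
    rw [← Pi.single_smul]
    congr 1
    simp
  rw [hsm', LL_nsmul] at hLL
  push_cast at hLL
  have hLL0 := LL_nonneg hμ hlam hz0 (Pi.single j 1 : Site d)
  generalize LL μ M lam K ((E : ℂ) + η * Complex.I) hμ hlam hz0 (Pi.single j 1) = X at hLL hLL0 ⊢
  have h5 : (lam ^ (1 + A / 2 - δ1))⁻¹ / 4 * X ≤ (42 * d + 20) * ell lam := by
    rw [hneg] at hs1
    exact (mul_le_mul_of_nonneg_right hs1 hLL0).trans hLL
  have h6 : X ≤ 4 * ((42 * d + 20) * ell lam) * lam ^ (1 + A / 2 - δ1) := by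
    have : X = (lam ^ (1 + A / 2 - δ1))⁻¹ / 4 * X * (4 * lam ^ (1 + A / 2 - δ1)) := by
      field_simp
    rw [this]
    calc (lam ^ (1 + A / 2 - δ1))⁻¹ / 4 * X * (4 * lam ^ (1 + A / 2 - δ1))
        ≤ (42 * d + 20) * ell lam * (4 * lam ^ (1 + A / 2 - δ1)) := by gcongr
      _ = _ := by ring
  have h8 : lam ^ (1 + A / 2 - δ1) = lam ^ (2 + κ) * lam ^ (1 + A / 2 - δ1 - 2 - κ) := by
    rw [← Real.rpow_add hlam]
    congr 1
    ring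
  have h9 : 0 < lam ^ (2 + κ) := Real.rpow_pos_of_pos hlam _
  have h10 := hS.he
  rw [h8] at h6
  calc X ≤ 4 * ((42 * d + 20) * ell lam) *
        (lam ^ (2 + κ) * lam ^ (1 + A / 2 - δ1 - 2 - κ)) := h6
    _ = (28 * (42 * d + 20) * (ell lam * lam ^ (1 + A / 2 - δ1 - 2 - κ))) *
        (lam ^ (2 + κ) / 7) := by ring
    _ ≤ 1 * (lam ^ (2 + κ) / 7) := by gcongr
    _ = _ := one_mul _

theorem pt1 {μ : Measure ℝ} [IsProbabilityMeasure μ] {M : ℝ} {K : ℝ≥0} (hμ : GoodLaw μ M K)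
    {d : ℕ} (hd : 1 ≤ d) {lo hi lam0 A e2 δ1 κ c : ℝ} (hl0 : 0 < lam0) (hA2 : 2 < A) (hA : A < 12 / 5)
    (he2 : e2 < A) (hδ1 : 0 < δ1) (hκ : κ < A / 2 - 1 - δ1) (hκ0 : 0 < κ) (hc : 0 < c)
    (_hlo : -1 ≤ lo) (_hhi : hi ≤ 3)
    (hT : ∀ m0 : ℝ, ∃ K lam1 : ℝ, 0 < K ∧ 0 < lam1 ∧ lam1 ≤ lam0 ∧
      ∀ π ∈ PS lo hi lam1 A e2, π.eta ≤ 2 * π.lam ^ A → ∀ (σ : Fin d → ℤˣ) (j : Fin d),
        ((Measure.pi fun _ : Tor d π.n => μ.map (fun x => x - ∫ t, t ∂μ))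
          {V | msT π σ j (sk A δ1 π) V < c * π.lam ^ (-A)}).toReal ≤ K * π.lam ^ m0) :
    ∃ lam1 : ℝ, 0 < lam1 ∧ lam1 ≤ 1 ∧ ∀ (lam : ℝ) (hlam : 0 < lam), lam ≤ lam1 →
      ∀ E η : ℝ, lo ≤ E - lam * ∫ t, t ∂μ → E - lam * ∫ t, t ∂μ ≤ hi → lam ^ A ≤ η →
        η ≤ 2 * lam ^ A → ∀ (hz0 : 0 < ((E : ℂ) + η * Complex.I).im) (j : Fin d),
          LL μ M lam K ((E : ℂ) + η * Complex.I) hμ hlam hz0 (Pi.single j 1) ≤
            lam ^ (2 + κ) / 7 :=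
  pt1_gen hμ hd hl0 hA2 hA he2 hδ1 hκ hκ0 hc hT

end Pool.Agent.BK
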