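import Pool.Agent.BK.Defs

/-! BK module RES1: the resolvent of a real symmetric matrix with real diagonal potential.
All statements are standard linear algebra: `H + v` is hermitian, so `‖(H+v-z)c‖ ≥ |Im z| ‖c‖`
(imaginary part of `⟨c, (H+v-z)c⟩`), hence the matrix is invertible; symmetry gives `G_xy = G_yx`,
conjugation gives `Gᴴ = G(z̄)`, the Ward identity is `G Gᴴ = Im G / Im z` on the diagonal. -/

open Finset Matrix

noncomputable section

namespace Pool.Agent.BK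

variable {X : Type} [Fintype X] [DecidableEq X] {H : Matrix X X ℂ} {v : X → ℝ} {z ζ : ℂ}

/-- The matrix `H + v - z`. -/
def res1A (H : Matrix X X ℂ) (v : X → ℝ) (z : ℂ) : Matrix X X ℂ :=
  H + Matrix.diagonal (fun x => (v x : ℂ)) - z • (1 : Matrix X X ℂ)

omit [DecidableEq X] in
lemma res1_nsq_nonneg (c : X → ℂ) : 0 ≤ nsq c := by
  unfold nsq; positivity

omit [DecidableEq X] in
lemma res1_nsq_eq_zero {c : X → ℂ} (h : nsq c = 0) : c = 0 := by
  unfold nsq at h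
  rw [Finset.sum_eq_zero_iff_of_nonneg (fun _ _ => by positivity)] at h
  funext x
  have := h x (Finset.mem_univ x)
  simpa using this

omit [DecidableEq X] in
lemma res1_nsq_dot (c : X → ℂ) : ∑ x, starRingEnd ℂ (c x) * c x = (nsq c : ℂ) := by
  unfold nsq
  push_cast
  refine Finset.sum_congr rfl fun x _ => ?_
  rw [mul_comm, Complex.mul_conj, Complex.normSq_eq_norm_sq]
  push_cast
  ring

omit [DecidableEq X] in
lemma res1_herm_im {A : Matrix X X ℂ} (hA : A.IsHermitian) (c : X → ℂ) :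
    (∑ x, starRingEnd ℂ (c x) * (A *ᵥ c) x).im = 0 := by
  have h : starRingEnd ℂ (∑ x, starRingEnd ℂ (c x) * (A *ᵥ c) x) =
      ∑ x, starRingEnd ℂ (c x) * (A *ᵥ c) x := by
    rw [map_sum]
    simp only [map_mul, Complex.conj_conj, Matrix.mulVec, dotProduct, map_sum, Finset.mul_sum]
    rw [Finset.sum_comm]
    refine Finset.sum_congr rfl fun x _ => Finset.sum_congr rfl fun y _ => ?_
    have : starRingEnd ℂ (A y x) = A x y := by
      have := congrFun (congrFun hA x) y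
      simpa [Matrix.conjTranspose_apply] using this
    rw [this]
    ring
  exact Complex.conj_eq_iff_im.mp h

omit [Fintype X] in
lemma res1_herm (hH : RS H) (v : X → ℝ) :
    (H + Matrix.diagonal (fun x => (v x : ℂ))).IsHermitian := by
  refine hH.herm.add ?_
  unfold Matrix.IsHermitian
  rw [Matrix.diagonal_conjTranspose]
  congr 1
  funext x
  simp

lemma res1_im_form (hH : RS H) (v : X → ℝ) (z : ℂ) (c : X → ℂ) :
    (∑ x, starRingEnd ℂ (c x) * (res1A H v z *ᵥ c) x).im = - z.im * nsq c := by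
  have h1 : ∑ x, starRingEnd ℂ (c x) * (res1A H v z *ᵥ c) x =
      ∑ x, starRingEnd ℂ (c x) * ((H + Matrix.diagonal (fun x => (v x : ℂ))) *ᵥ c) x
        - z * (nsq c : ℂ) := by
    rw [← res1_nsq_dot, Finset.mul_sum, ← Finset.sum_sub_distrib]
    refine Finset.sum_congr rfl fun x _ => ?_
    simp only [res1A, Matrix.sub_mulVec, Matrix.smul_mulVec, Matrix.one_mulVec, Pi.sub_apply,
      Pi.smul_apply, smul_eq_mul]
    ring
  rw [h1, Complex.sub_im, res1_herm_im (res1_herm hH v), Complex.mul_im]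
  simp

lemma res1_isUnit (hH : RS H) (v : X → ℝ) (hz : z.im ≠ 0) : IsUnit (res1A H v z) := by
  rw [← Matrix.mulVec_injective_iff_isUnit]
  intro c c' h
  have h0 : res1A H v z *ᵥ (c - c') = 0 := by
    rw [Matrix.mulVec_sub]
    exact sub_eq_zero.mpr h
  have h1 := res1_im_form hH v z (c - c')
  rw [h0] at h1
  simp only [Pi.zero_apply, mul_zero, Finset.sum_const_zero, Complex.zero_im] at h1
  have h2 : nsq (c - c') = 0 := by
    rcases mul_eq_zero.mp h1.symm with h | h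
    · exact absurd (neg_eq_zero.mp h) hz
    · exact h
  exact sub_eq_zero.mp (res1_nsq_eq_zero h2)

lemma Gr_isUnit (hH : RS H) (v : X → ℝ) (hz : z.im ≠ 0) :
    IsUnit (H + Matrix.diagonal (fun x => (v x : ℂ)) - z • (1 : Matrix X X ℂ)) :=
  res1_isUnit hH v hz

lemma mul_Gr (hH : RS H) (v : X → ℝ) (hz : z.im ≠ 0) :
    (H + Matrix.diagonal (fun x => (v x : ℂ)) - z • (1 : Matrix X X ℂ)) * Gr H v z = 1 :=
  Matrix.mul_nonsing_inv _ ((Matrix.isUnit_iff_isUnit_det _).mp (Gr_isUnit hH v hz))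

lemma Gr_mul (hH : RS H) (v : X → ℝ) (hz : z.im ≠ 0) :
    Gr H v z * (H + Matrix.diagonal (fun x => (v x : ℂ)) - z • (1 : Matrix X X ℂ)) = 1 :=
  Matrix.nonsing_inv_mul _ ((Matrix.isUnit_iff_isUnit_det _).mp (Gr_isUnit hH v hz))

lemma Gr_symm (hH : RS H) (v : X → ℝ) (hz : z.im ≠ 0) (x y : X) : Gr H v z x y = Gr H v z y x := by
  have h : (Gr H v z)ᵀ = Gr H v z := by
    unfold Gr
    rw [Matrix.transpose_nonsing_inv]
    congr 1
    rw [Matrix.transpose_sub, Matrix.transpose_add, Matrix.diagonal_transpose,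
      Matrix.transpose_smul, Matrix.transpose_one, hH.symm]
  conv_lhs => rw [← h]
  rfl

lemma Gr_conjTranspose (hH : RS H) (v : X → ℝ) (hz : z.im ≠ 0) :
    (Gr H v z)ᴴ = Gr H v (starRingEnd ℂ z) := by
  unfold Gr
  rw [Matrix.conjTranspose_nonsing_inv]
  congr 1
  rw [Matrix.conjTranspose_sub, (res1_herm hH v).eq, Matrix.conjTranspose_smul,
    Matrix.conjTranspose_one]
  rfl

/-- Resolvent identity in the spectral parameter. -/
lemma Gr_resolvent (hH : RS H) (v : X → ℝ) (hz : z.im ≠ 0) (hζ : ζ.im ≠ 0) :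
    Gr H v z - Gr H v ζ = (z - ζ) • (Gr H v z * Gr H v ζ) := by
  have h1 := Gr_mul hH v hz
  have h2 := mul_Gr hH v hζ
  set B := H + Matrix.diagonal (fun x => (v x : ℂ))
  have h3 : (B - ζ • (1 : Matrix X X ℂ)) - (B - z • (1 : Matrix X X ℂ)) =
      (z - ζ) • (1 : Matrix X X ℂ) := by
    rw [sub_smul]; abel
  generalize B - ζ • (1 : Matrix X X ℂ) = P at h2 h3
  generalize B - z • (1 : Matrix X X ℂ) = Q at h1 h3
  calc Gr H v z - Gr H v ζ
      = Gr H v z * (P * Gr H v ζ) - (Gr H v z * Q) * Gr H v ζ := by rw [h1, h2]; simp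
    _ = Gr H v z * (P - Q) * Gr H v ζ := by
        rw [Matrix.mul_sub, Matrix.sub_mul, Matrix.mul_assoc, Matrix.mul_assoc]
    _ = (z - ζ) • (Gr H v z * Gr H v ζ) := by
        rw [h3]; simp

lemma Gr_sub_conj (hH : RS H) (v : X → ℝ) (hz : z.im ≠ 0) :
    Gr H v z - (Gr H v z)ᴴ = (2 * z.im * Complex.I : ℂ) • (Gr H v z * (Gr H v z)ᴴ) := by
  rw [Gr_conjTranspose hH v hz, Gr_resolvent hH v hz (by simpa using hz)]
  congr 1
  rw [Complex.sub_conj]
  push_cast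
  ring

/-- Ward identity. -/
lemma ward (hH : RS H) (v : X → ℝ) (hz : 0 < z.im) (x : X) :
    ∑ y, ‖Gr H v z x y‖ ^ 2 = (Gr H v z x x).im / z.im := by
  have h := congrFun (congrFun (Gr_sub_conj hH v hz.ne') x) x
  rw [Matrix.sub_apply, Matrix.conjTranspose_apply, Matrix.smul_apply, Matrix.mul_apply] at h
  have h1 : ∑ y, Gr H v z x y * (Gr H v z)ᴴ y x = ((∑ y, ‖Gr H v z x y‖ ^ 2 : ℝ) : ℂ) := by
    push_cast
    refine Finset.sum_congr rfl fun y _ => ?_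
    rw [Matrix.conjTranspose_apply]
    change Gr H v z x y * starRingEnd ℂ (Gr H v z x y) = _
    rw [Complex.mul_conj, Complex.normSq_eq_norm_sq]
    push_cast
    rfl
  rw [h1] at h
  have h2 := congrArg Complex.im h
  have h3 : (Gr H v z x x - star (Gr H v z x x)).im = 2 * (Gr H v z x x).im := by
    change (Gr H v z x x - starRingEnd ℂ (Gr H v z x x)).im = _
    rw [Complex.sub_im, Complex.conj_im]
    ring
  rw [h3] at h2
  have h4 : ((2 * (z.im : ℂ) * Complex.I) • ((∑ y, ‖Gr H v z x y‖ ^ 2 : ℝ) : ℂ)).im =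
      2 * z.im * ∑ y, ‖Gr H v z x y‖ ^ 2 := by
    rw [smul_eq_mul, Complex.mul_im, Complex.ofReal_re, Complex.ofReal_im]
    simp
  rw [h4] at h2
  rw [eq_div_iff hz.ne']
  linarith

lemma res1_nsq_Gr_eq (hH : RS H) (v : X → ℝ) (hz : z.im ≠ 0) (c : X → ℂ) :
    z.im * nsq (Gr H v z *ᵥ c) = (∑ x, starRingEnd ℂ (c x) * (Gr H v z *ᵥ c) x).im := by
  set u := Gr H v z *ᵥ c with hu
  have hc : c = res1A H v z *ᵥ u := by
    rw [hu, Matrix.mulVec_mulVec]
    have := mul_Gr hH v hz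
    unfold res1A
    rw [this, Matrix.one_mulVec]
  have h1 := res1_im_form hH v z u
  rw [← hc] at h1
  have h2 : ∑ x, starRingEnd ℂ (c x) * u x =
      starRingEnd ℂ (∑ x, starRingEnd ℂ (u x) * c x) := by
    rw [map_sum]
    refine Finset.sum_congr rfl fun x _ => ?_
    rw [map_mul, Complex.conj_conj]
    ring
  rw [h2, Complex.conj_im, h1]
  ring

omit [DecidableEq X] in
lemma res1_cs (c u : X → ℂ) :
    ‖∑ x, starRingEnd ℂ (c x) * u x‖ ^ 2 ≤ nsq c * nsq u := by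
  have h1 : ‖∑ x, starRingEnd ℂ (c x) * u x‖ ≤ ∑ x, ‖c x‖ * ‖u x‖ := by
    refine (norm_sum_le _ _).trans (le_of_eq ?_)
    refine Finset.sum_congr rfl fun x _ => ?_
    rw [norm_mul, RCLike.norm_conj]
  calc ‖∑ x, starRingEnd ℂ (c x) * u x‖ ^ 2 ≤ (∑ x, ‖c x‖ * ‖u x‖) ^ 2 := by
        gcongr
    _ ≤ (∑ x, ‖c x‖ ^ 2) * ∑ x, ‖u x‖ ^ 2 := Finset.sum_mul_sq_le_sq_mul_sq _ _ _
    _ = nsq c * nsq u := rfl

lemma res1_nsq_le (hH : RS H) (v : X → ℝ) (hz : z.im ≠ 0) (c : X → ℂ) :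
    nsq (Gr H v z *ᵥ c) ≤ (1 / z.im) ^ 2 * nsq c := by
  have h1 := res1_nsq_Gr_eq hH v hz c
  have h2 := res1_cs c (Gr H v z *ᵥ c)
  set u := Gr H v z *ᵥ c
  have h3 : (z.im * nsq u) ^ 2 ≤ nsq c * nsq u := by
    rw [h1]
    refine le_trans ?_ h2
    have := Complex.abs_im_le_norm (∑ x, starRingEnd ℂ (c x) * u x)
    rw [← sq_abs]
    gcongr
  have hu := res1_nsq_nonneg u
  have hz2 : 0 < z.im ^ 2 := by positivity
  rcases hu.eq_or_lt with h | h
  · rw [← h]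
    have := res1_nsq_nonneg c
    positivity
  · have h4 : z.im ^ 2 * nsq u ≤ nsq c := by
      have : (z.im ^ 2 * nsq u) * nsq u ≤ nsq c * nsq u := by nlinarith
      exact le_of_mul_le_mul_right this h
    rw [div_pow, one_pow, one_div, inv_mul_eq_div, le_div_iff₀ hz2]
    linarith

/-- `‖G c‖ ≤ ‖c‖ / Im z`. -/
lemma nsq_Gr_mulVec (hH : RS H) (v : X → ℝ) (hz : 0 < z.im) (c : X → ℂ) :
    nsq (Gr H v z *ᵥ c) ≤ (1 / z.im) ^ 2 * nsq c :=
  res1_nsq_le hH v hz.ne' c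

lemma nsq_Gr_conj_mulVec (hH : RS H) (v : X → ℝ) (hz : 0 < z.im) (c : X → ℂ) :
    nsq ((Gr H v z)ᴴ *ᵥ c) ≤ (1 / z.im) ^ 2 * nsq c := by
  rw [Gr_conjTranspose hH v hz.ne']
  have h := res1_nsq_le (z := starRingEnd ℂ z) hH v (by simpa using hz.ne') c
  rw [Complex.conj_im] at h
  refine h.trans (le_of_eq ?_)
  congr 1
  rw [one_div, one_div, inv_neg, neg_sq]

lemma res1_mulVec_single (A : Matrix X X ℂ) (x y : X) :
    (A *ᵥ Pi.single x (1 : ℂ)) y = A y x := by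
  rw [Matrix.mulVec_single_one]
  rfl

lemma res1_nsq_single (x : X) : nsq (Pi.single x (1 : ℂ)) = 1 := by
  unfold nsq
  rw [Finset.sum_eq_single x]
  · simp
  · intro y _ hy
    simp [Pi.single_eq_of_ne hy]
  · simp

lemma norm_Gr_le (hH : RS H) (v : X → ℝ) (hz : 0 < z.im) (x y : X) :
    ‖Gr H v z x y‖ ≤ 1 / z.im := by
  have h1 := nsq_Gr_mulVec hH v hz (Pi.single y 1)
  rw [res1_nsq_single, mul_one] at h1
  have h2 : ‖Gr H v z x y‖ ^ 2 ≤ nsq (Gr H v z *ᵥ Pi.single y 1) := by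
    unfold nsq
    have := Finset.single_le_sum (f := fun w => ‖(Gr H v z *ᵥ Pi.single y 1) w‖ ^ 2)
      (fun _ _ => by positivity) (Finset.mem_univ x)
    simpa only [res1_mulVec_single] using this
  exact (sq_le_sq₀ (norm_nonneg _) (by positivity)).mp (h2.trans h1)

lemma res1_im_diag (hH : RS H) (v : X → ℝ) (hz : 0 < z.im) (x : X) :
    (Gr H v z x x).im = z.im * nsq (Gr H v z *ᵥ Pi.single x 1) := by
  rw [res1_nsq_Gr_eq hH v hz.ne']
  congr 1
  rw [Finset.sum_eq_single x]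
  · rw [res1_mulVec_single]
    simp
  · intro y _ hy
    simp [Pi.single_eq_of_ne hy]
  · simp

lemma res1_unit_eq (hH : RS H) (v : X → ℝ) (hz : z.im ≠ 0) (c : X → ℂ) :
    (H + Matrix.diagonal (fun x => (v x : ℂ)) - z • (1 : Matrix X X ℂ)) *ᵥ (Gr H v z *ᵥ c) = c := by
  rw [Matrix.mulVec_mulVec, mul_Gr hH v hz, Matrix.one_mulVec]

lemma im_Gr_pos (hH : RS H) (v : X → ℝ) (hz : 0 < z.im) (x : X) : 0 < (Gr H v z x x).im := by
  rw [res1_im_diag hH v hz x]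
  refine mul_pos hz ((res1_nsq_nonneg _).lt_of_ne' fun h => ?_)
  have h1 := res1_unit_eq hH v hz.ne' (Pi.single x 1)
  rw [res1_nsq_eq_zero h, Matrix.mulVec_zero] at h1
  have h2 := congrFun h1 x
  simp at h2

/-- Lower bound for the diagonal: `Im G_xx = η ‖G e_x‖² ≥ η / ‖H + v - z‖²`. -/
lemma im_Gr_lower (hH : RS H) (v : X → ℝ) (hz : 0 < z.im) {B : ℝ} (hB : 0 < B)
    (hb : ∀ c : X → ℂ, nsq ((H + Matrix.diagonal (fun x => (v x : ℂ)) -
      z • (1 : Matrix X X ℂ)) *ᵥ c) ≤ B ^ 2 * nsq c) (x : X) :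
    z.im / B ^ 2 ≤ (Gr H v z x x).im := by
  have h1 := hb (Gr H v z *ᵥ Pi.single x 1)
  rw [res1_unit_eq hH v hz.ne', res1_nsq_single] at h1
  rw [res1_im_diag hH v hz x, div_le_iff₀ (by positivity)]
  nlinarith

/-- `⟨g, M g⟩` controls `‖M g‖²`: `γ ‖M g‖² = Im ⟨g, M g⟩`. -/
lemma nsq_Gr_eq (hH : RS H) (v : X → ℝ) (hz : 0 < z.im) (c : X → ℂ) :
    z.im * nsq (Gr H v z *ᵥ c) = (∑ x, starRingEnd ℂ (c x) * (Gr H v z *ᵥ c) x).im :=
  res1_nsq_Gr_eq hH v hz.ne' c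

omit [Fintype X] in
lemma res1_K (H : Matrix X X ℂ) (v : X → ℝ) (z ζ : ℂ) :
    (H + Matrix.diagonal (fun x => (((0 : X → ℝ) x : ℝ) : ℂ)) - ζ • (1 : Matrix X X ℂ)) -
      (H + Matrix.diagonal (fun x => (v x : ℂ)) - z • (1 : Matrix X X ℂ)) =
      Matrix.diagonal (fun x => z - ζ - (v x : ℂ)) := by
  ext x y
  by_cases h : x = y
  · subst h
    simp
    ring
  · simp [h]

/-- Expansion `G - M = M K G`, `K = z - ζ - v`. -/
lemma Gr_expand (hH : RS H) (v : X → ℝ) (hz : z.im ≠ 0) (hζ : ζ.im ≠ 0) :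
    Gr H v z - Gr H 0 ζ =
      Gr H 0 ζ * Matrix.diagonal (fun x => z - ζ - (v x : ℂ)) * Gr H v z := by
  rw [← res1_K H v z ζ, Matrix.mul_sub, Matrix.sub_mul, Gr_mul hH 0 hζ, Matrix.one_mul,
    Matrix.mul_assoc, mul_Gr hH v hz, Matrix.mul_one]

/-- Expansion `G - M = G K M`, `K = z - ζ - v`. -/
lemma Gr_expand' (hH : RS H) (v : X → ℝ) (hz : z.im ≠ 0) (hζ : ζ.im ≠ 0) :
    Gr H v z - Gr H 0 ζ =
      Gr H v z * Matrix.diagonal (fun x => z - ζ - (v x : ℂ)) * Gr H 0 ζ := by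
  rw [← res1_K H v z ζ, Matrix.mul_sub, Matrix.sub_mul, Gr_mul hH v hz, Matrix.one_mul,
    Matrix.mul_assoc, mul_Gr hH 0 hζ, Matrix.mul_one]

end Pool.Agent.BK
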