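import Pool.Agent.BK.Res1
import Pool.Agent.BK.Nrm

/-! BK module RES2: comparison of `G(E + iη')` and `G(E + iη)` for `η' ≤ η`, and norms.

Proofs. `G(z') = G(z) + (z'-z) G(z') G(z)`, `|z'-z| = η - η'`, `‖G(z')‖ ≤ 1/η'`, so
`‖G(z') e_x‖ ≤ ‖G(z) e_x‖ (1 + (η-η')/η') = (η/η') ‖G(z) e_x‖`. Conversely
`‖G(z) e_x‖ ≤ ‖G(z') e_x‖ (1 + (η-η')/η) ≤ 2 ‖G(z') e_x‖`; with the Ward identity
`Im G_xx(z') = η' ‖G(z')e_x‖² ≥ (η'/4) ‖G(z)e_x‖² = (η'/(4η)) Im G_xx(z)`.
Entries: `|G_xy(z')| ≤ |G_xy(z)| + (η-η') ‖G(z')e_x‖ ‖G(z)e_y‖ ≤ s + (η-η')(η/η')(s/η) = (η/η') s`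
with `s = supN G(z)` and `‖G(z)e_x‖² = Im G_xx(z)/η ≤ s/η`. -/

open Finset Matrix

noncomputable section

namespace Pool.Agent.BK

variable {X : Type} [Fintype X] [DecidableEq X] {H : Matrix X X ℂ} {v : X → ℝ} {z z' : ℂ}

lemma res2_add (a b : X → ℂ) : √(nsq (a + b)) ≤ √(nsq a) + √(nsq b) := by
  have h := norm_add_le (WithLp.toLp 2 a : EuclideanSpace ℂ X) (WithLp.toLp 2 b)
  rw [EuclideanSpace.norm_eq, EuclideanSpace.norm_eq, EuclideanSpace.norm_eq] at h
  exact h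

lemma res2_smul (t : ℂ) (a : X → ℂ) : √(nsq (t • a)) = ‖t‖ * √(nsq a) := by
  have h := norm_smul t (WithLp.toLp 2 a : EuclideanSpace ℂ X)
  rw [EuclideanSpace.norm_eq, EuclideanSpace.norm_eq] at h
  exact h

lemma res2_nn (a : X → ℂ) : 0 ≤ nsq a := Finset.sum_nonneg fun _ _ => by positivity

lemma res2_mulVec (hH : RS H) (v : X → ℝ) (hz : 0 < z.im) (c : X → ℂ) :
    √(nsq (Gr H v z *ᵥ c)) ≤ 1 / z.im * √(nsq c) := by
  have h := nsq_Gr_mulVec hH v hz c
  have h1 := Real.sqrt_le_sqrt h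
  rwa [Real.sqrt_mul (by positivity), Real.sqrt_sq (by positivity)] at h1

/-- the row of the product -/
lemma res2_row (hH : RS H) (v : X → ℝ) (hz : 0 < z.im) (hz' : 0 < z'.im) (x : X) :
    (fun y => Gr H v z' x y) = (fun y => Gr H v z x y) +
      (z' - z) • (Gr H v z' *ᵥ fun y => Gr H v z x y) := by
  have h := Gr_resolvent (z := z) (ζ := z') hH v hz.ne' hz'.ne'
  funext y
  have h1 := congrFun (congrFun h x) y
  rw [Matrix.sub_apply, Matrix.smul_apply, Matrix.mul_apply, smul_eq_mul] at h1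
  simp only [Pi.add_apply, Pi.smul_apply, smul_eq_mul, Matrix.mulVec, dotProduct]
  have h2 : ∑ u, Gr H v z' y u * Gr H v z x u = ∑ u, Gr H v z x u * Gr H v z' u y := by
    refine Finset.sum_congr rfl fun u _ => ?_
    rw [Gr_symm hH v hz'.ne' y u, mul_comm]
  rw [h2]
  linear_combination -h1

lemma res2_norm_sub (hre : z'.re = z.re) (hle : z'.im ≤ z.im) : ‖z' - z‖ = z.im - z'.im := by
  have h : z' - z = ((z'.im - z.im : ℝ) : ℂ) * Complex.I := by
    apply Complex.ext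
    · simp [hre]
    · simp
  rw [h, norm_mul, Complex.norm_I, mul_one, Complex.norm_real, Real.norm_eq_abs,
    abs_of_nonpos (by linarith)]
  ring

lemma res2_row_le (hH : RS H) (v : X → ℝ) (hre : z'.re = z.re) (hz' : 0 < z'.im)
    (hle : z'.im ≤ z.im) (x : X) :
    √(nsq fun y => Gr H v z' x y) ≤ z.im / z'.im * √(nsq fun y => Gr H v z x y) := by
  have hz : 0 < z.im := hz'.trans_le hle
  rw [res2_row hH v hz hz' x]
  refine (res2_add _ _).trans ?_
  rw [res2_smul, res2_norm_sub hre hle]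
  have h1 := res2_mulVec hH v hz' (fun y => Gr H v z x y)
  have h2 : (z.im - z'.im) * √(nsq (Gr H v z' *ᵥ fun y => Gr H v z x y)) ≤
      (z.im - z'.im) * (1 / z'.im * √(nsq fun y => Gr H v z x y)) :=
    mul_le_mul_of_nonneg_left h1 (by linarith)
  have h3 : z.im / z'.im * √(nsq fun y => Gr H v z x y) = √(nsq fun y => Gr H v z x y) +
      (z.im - z'.im) * (1 / z'.im * √(nsq fun y => Gr H v z x y)) := by
    field_simp
    ring
  rw [h3]
  linarith

lemma row_up (hH : RS H) (v : X → ℝ) (hre : z'.re = z.re) (hz' : 0 < z'.im) (hle : z'.im ≤ z.im)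
    (x : X) : ∑ y, ‖Gr H v z' x y‖ ^ 2 ≤ (z.im / z'.im) ^ 2 * ∑ y, ‖Gr H v z x y‖ ^ 2 := by
  have h := res2_row_le hH v hre hz' hle x
  have hz : 0 < z.im := hz'.trans_le hle
  have h1 := pow_le_pow_left₀ (Real.sqrt_nonneg _) h 2
  rwa [mul_pow, Real.sq_sqrt (res2_nn _), Real.sq_sqrt (res2_nn _)] at h1

lemma im_down (hH : RS H) (v : X → ℝ) (hre : z'.re = z.re) (hz' : 0 < z'.im) (hle : z'.im ≤ z.im)
    (x : X) : z'.im / (4 * z.im) * (Gr H v z x x).im ≤ (Gr H v z' x x).im := by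
  have hz : 0 < z.im := hz'.trans_le hle
  have h0 : √(nsq fun y => Gr H v z x y) ≤ 2 * √(nsq fun y => Gr H v z' x y) := by
    rw [res2_row (z := z') (z' := z) hH v hz' hz x]
    refine (res2_add _ _).trans ?_
    rw [res2_smul, norm_sub_rev, res2_norm_sub hre hle]
    have h1 := res2_mulVec hH v hz (fun y => Gr H v z' x y)
    have hs := Real.sqrt_nonneg (nsq fun y => Gr H v z' x y)
    have h2 : (z.im - z'.im) * √(nsq (Gr H v z *ᵥ fun y => Gr H v z' x y)) ≤
        z.im * (1 / z.im * √(nsq fun y => Gr H v z' x y)) :=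
      mul_le_mul (by linarith) h1 (Real.sqrt_nonneg _) hz.le
    have h3 : z.im * (1 / z.im * √(nsq fun y => Gr H v z' x y)) =
        √(nsq fun y => Gr H v z' x y) := by
      field_simp
    linarith
  have h1 := pow_le_pow_left₀ (Real.sqrt_nonneg _) h0 2
  rw [mul_pow, Real.sq_sqrt (res2_nn _), Real.sq_sqrt (res2_nn _)] at h1
  have w1 := ward hH v hz x
  have w2 := ward hH v hz' x
  have h2 : (Gr H v z x x).im / z.im ≤ 2 ^ 2 * ((Gr H v z' x x).im / z'.im) := by
    rw [← w1, ← w2]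
    exact h1
  rw [div_mul_eq_mul_div, div_le_iff₀ (by positivity)]
  rw [div_le_iff₀ hz] at h2
  have h3 : 2 ^ 2 * ((Gr H v z' x x).im / z'.im) * z.im * z'.im =
      (Gr H v z' x x).im * (4 * z.im) := by
    field_simp
    ring
  have h4 := mul_le_mul_of_nonneg_right h2 hz'.le
  rw [h3] at h4
  linarith

lemma res2_row_sup (hH : RS H) (v : X → ℝ) (hz : 0 < z.im) (x : X) :
    nsq (fun y => Gr H v z x y) ≤ supN (Gr H v z) / z.im := by
  have h := ward hH v hz x
  have h1 : nsq (fun y => Gr H v z x y) = (Gr H v z x x).im / z.im := h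
  rw [h1]
  have h2 : (Gr H v z x x).im ≤ supN (Gr H v z) :=
    (le_abs_self _).trans ((Complex.abs_im_le_norm _).trans (norm_le_supN _ x x))
  exact div_le_div_of_nonneg_right h2 hz.le

/-- `‖G_x‖_2² ≤ sup |G| / Im z`. -/
lemma rowN_two_Gr (hH : RS H) (v : X → ℝ) (hz : 0 < z.im) :
    rowN 2 (Gr H v z) ^ 2 ≤ supN (Gr H v z) / z.im := by
  have hs : 0 ≤ supN (Gr H v z) / z.im := div_nonneg (supN_nonneg _) hz.le
  have h := rowN_le (q := 2) (A := Gr H v z) (b := √(supN (Gr H v z) / z.im)) two_pos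
    (Real.sqrt_nonneg _) (by
      intro x
      rw [Real.sq_sqrt hs]
      exact res2_row_sup hH v hz x)
  have h1 := pow_le_pow_left₀ (rowN_nonneg _ _) h 2
  rwa [Real.sq_sqrt hs] at h1

lemma supN_up (hH : RS H) (v : X → ℝ) (hre : z'.re = z.re) (hz' : 0 < z'.im) (hle : z'.im ≤ z.im) :
    supN (Gr H v z') ≤ z.im / z'.im * supN (Gr H v z) := by
  have hz : 0 < z.im := hz'.trans_le hle
  have hs0 := supN_nonneg (Gr H v z)
  refine supN_le (mul_nonneg (by positivity) hs0) ?_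
  intro x y
  have h := Gr_resolvent (z := z') (ζ := z) hH v hz'.ne' hz.ne'
  have h1 := congrFun (congrFun h x) y
  rw [Matrix.sub_apply, Matrix.smul_apply, Matrix.mul_apply, smul_eq_mul] at h1
  have h2 : Gr H v z' x y = Gr H v z x y + (z' - z) * ∑ u, Gr H v z' x u * Gr H v z u y := by
    linear_combination h1
  have h3 : ‖∑ u, Gr H v z' x u * Gr H v z u y‖ ≤
      √(nsq fun u => Gr H v z' x u) * √(nsq fun u => Gr H v z y u) := by
    refine (norm_sum_le _ _).trans ?_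
    have h4 := Real.sum_mul_le_sqrt_mul_sqrt Finset.univ (fun u => ‖Gr H v z' x u‖)
      (fun u => ‖Gr H v z y u‖)
    refine le_trans (le_of_eq ?_) h4
    refine Finset.sum_congr rfl fun u _ => ?_
    rw [norm_mul, Gr_symm hH v hz.ne' u y]
  have h5 : √(nsq fun u => Gr H v z y u) ≤ √(supN (Gr H v z) / z.im) :=
    Real.sqrt_le_sqrt (res2_row_sup hH v hz y)
  have h6 : √(nsq fun u => Gr H v z' x u) ≤ z.im / z'.im * √(supN (Gr H v z) / z.im) := by
    refine (res2_row_le hH v hre hz' hle x).trans ?_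
    exact mul_le_mul_of_nonneg_left (Real.sqrt_le_sqrt (res2_row_sup hH v hz x)) (by positivity)
  have h7 : ‖∑ u, Gr H v z' x u * Gr H v z u y‖ ≤
      z.im / z'.im * (supN (Gr H v z) / z.im) := by
    refine h3.trans ?_
    have h8 := mul_le_mul h6 h5 (Real.sqrt_nonneg _) (by positivity)
    refine h8.trans (le_of_eq ?_)
    rw [mul_assoc, Real.mul_self_sqrt (div_nonneg hs0 hz.le)]
  calc ‖Gr H v z' x y‖ = ‖Gr H v z x y + (z' - z) * ∑ u, Gr H v z' x u * Gr H v z u y‖ := by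
        rw [← h2]
    _ ≤ ‖Gr H v z x y‖ + ‖z' - z‖ * ‖∑ u, Gr H v z' x u * Gr H v z u y‖ := by
        refine (norm_add_le _ _).trans ?_
        rw [norm_mul]
    _ ≤ supN (Gr H v z) + (z.im - z'.im) * (z.im / z'.im * (supN (Gr H v z) / z.im)) := by
        rw [res2_norm_sub hre hle]
        exact add_le_add (norm_le_supN _ x y) (mul_le_mul_of_nonneg_left h7 (by linarith))
    _ = z.im / z'.im * supN (Gr H v z) := by
        field_simp
        ring

end Pool.Agent.BK
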