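import Pool.Agent.BK.W1

/-! BK module TW1: twisted resolvents. `u : X → ℂ`, `|u x| = 1`; `tw u A x y = conj(u x) A x y u y`.

`tw u` is conjugation by the diagonal unitary `u`, so `tw u (A B) = tw u A · tw u B`, it fixes
diagonal matrices, and `tw u (Gr H v z)` is the inverse of `tw u H + v - z = (H + v - z) + W`,
`W = tw u H - H`.
(cur_id) `tw u G - Gᴴ = tw u G ((H + v - z̄) - (H + W + v - z)) Gᴴ = tw u G (2iη - W) Gᴴ`; take diagonal
entries: `2iη (tw u G Gᴴ)_xx - (tw u G W Gᴴ)_xx = G_xx - conj G_xx = 2i Im G_xx`.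
(tw_expand) `tw u G = tw u M + tw u G · K · tw u M`, `K = diag(z - ζ - v)` (conjugate `Gr_expand'`). -/

open MeasureTheory Finset Matrix

noncomputable section

namespace Pool.Agent.BK

variable {X : Type} [Fintype X] [DecidableEq X] {H : Matrix X X ℂ} {v : X → ℝ} {z ζ : ℂ}

/-- Conjugation by a diagonal unitary. -/
def tw (u : X → ℂ) (A : Matrix X X ℂ) : Matrix X X ℂ := fun x y =>
  starRingEnd ℂ (u x) * A x y * u y

omit [Fintype X] [DecidableEq X] in
lemma tw1_conj {u : X → ℂ} (hu : ∀ x, ‖u x‖ = 1) (x : X) : starRingEnd ℂ (u x) * u x = 1 := by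
  rw [← Complex.normSq_eq_conj_mul_self, Complex.normSq_eq_norm_sq, hu x]
  simp

omit [Fintype X] [DecidableEq X] in
lemma tw1_conj' {u : X → ℂ} (hu : ∀ x, ‖u x‖ = 1) (x : X) : u x * starRingEnd ℂ (u x) = 1 := by
  rw [mul_comm]
  exact tw1_conj hu x

omit [Fintype X] [DecidableEq X] in
lemma tw1_apply (u : X → ℂ) (A : Matrix X X ℂ) (x y : X) :
    tw u A x y = starRingEnd ℂ (u x) * A x y * u y := rfl

lemma tw_mul {u : X → ℂ} (hu : ∀ x, ‖u x‖ = 1) (A B : Matrix X X ℂ) :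
    tw u (A * B) = tw u A * tw u B := by
  funext x y
  rw [tw1_apply, Matrix.mul_apply, Matrix.mul_apply, Finset.mul_sum, Finset.sum_mul]
  refine Finset.sum_congr rfl fun k _ => ?_
  rw [tw1_apply, tw1_apply]
  have h := tw1_conj' hu k
  linear_combination (-(starRingEnd ℂ (u x) * A x k * B k y * u y)) * h

lemma norm_tw {u : X → ℂ} (hu : ∀ x, ‖u x‖ = 1) (A : Matrix X X ℂ) (x y : X) :
    ‖tw u A x y‖ = ‖A x y‖ := by
  rw [tw1_apply, norm_mul, norm_mul, hu y, RCLike.norm_conj, hu x]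
  ring

lemma tw_diag {u : X → ℂ} (hu : ∀ x, ‖u x‖ = 1) (A : Matrix X X ℂ) (x : X) :
    tw u A x x = A x x := by
  rw [tw1_apply]
  have h := tw1_conj hu x
  linear_combination (A x x) * h

/-- `‖tw u A c‖` is controlled as `A`. -/
lemma nsq_tw_mulVec {u : X → ℂ} (hu : ∀ x, ‖u x‖ = 1) {A : Matrix X X ℂ} {B : ℝ}
    (hA : ∀ c : X → ℂ, nsq (A *ᵥ c) ≤ B ^ 2 * nsq c) (c : X → ℂ) :
    nsq (tw u A *ᵥ c) ≤ B ^ 2 * nsq c := by
  have h := hA fun y => u y * c y
  have h1 : nsq (fun y => u y * c y) = nsq c := by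
    unfold nsq
    refine Finset.sum_congr rfl fun x _ => ?_
    rw [norm_mul, hu x, one_mul]
  have h2 : nsq (tw u A *ᵥ c) = nsq (A *ᵥ fun y => u y * c y) := by
    unfold nsq
    refine Finset.sum_congr rfl fun x _ => ?_
    have h3 : (tw u A *ᵥ c) x = starRingEnd ℂ (u x) * (A *ᵥ fun y => u y * c y) x := by
      simp only [Matrix.mulVec, dotProduct]
      rw [Finset.mul_sum]
      refine Finset.sum_congr rfl fun y _ => ?_
      rw [tw1_apply]
      ring
    rw [h3, norm_mul, RCLike.norm_conj, hu x, one_mul]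
  rw [h2, ← h1]
  exact h

omit [Fintype X] [DecidableEq X] in
lemma tw1_add (u : X → ℂ) (A B : Matrix X X ℂ) : tw u (A + B) = tw u A + tw u B := by
  funext x y
  simp only [tw1_apply, Matrix.add_apply]
  ring

omit [Fintype X] in
lemma tw1_diagonal {u : X → ℂ} (hu : ∀ x, ‖u x‖ = 1) (k : X → ℂ) :
    tw u (Matrix.diagonal k) = Matrix.diagonal k := by
  funext x y
  rw [tw1_apply]
  by_cases h : x = y
  · subst h
    have h1 := tw1_conj hu x
    linear_combination (Matrix.diagonal k x x) * h1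
  · rw [Matrix.diagonal_apply_ne _ h]
    ring

omit [Fintype X] in
lemma tw1_one {u : X → ℂ} (hu : ∀ x, ‖u x‖ = 1) : tw u (1 : Matrix X X ℂ) = 1 := by
  rw [← Matrix.diagonal_one]
  exact tw1_diagonal hu _

/-- Exact current identity. -/
theorem cur_id (hH : RS H) (v : X → ℝ) (hz : 0 < z.im) {u : X → ℂ} (hu : ∀ x, ‖u x‖ = 1) (x : X) :
    2 * Complex.I * z.im * (tw u (Gr H v z) * (Gr H v z)ᴴ) x x -
      (tw u (Gr H v z) * (tw u H - H) * (Gr H v z)ᴴ) x x = 2 * Complex.I * (Gr H v z x x).im := by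
  have hz' : (starRingEnd ℂ z).im ≠ 0 := by
    rw [Complex.conj_im]
    exact neg_ne_zero.2 hz.ne'
  -- the two inverses
  have h1 : (H + Matrix.diagonal (fun x => (v x : ℂ)) - (starRingEnd ℂ z) • (1 : Matrix X X ℂ)) *
      (Gr H v z)ᴴ = 1 := by
    rw [Gr_conjTranspose hH v hz.ne']
    exact mul_Gr hH v hz'
  have h2 : tw u (Gr H v z) * (tw u H + Matrix.diagonal (fun x => (v x : ℂ)) -
      z • (1 : Matrix X X ℂ)) = 1 := by
    have h3 : tw u H + Matrix.diagonal (fun x => (v x : ℂ)) - z • (1 : Matrix X X ℂ) =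
        tw u (H + Matrix.diagonal (fun x => (v x : ℂ)) - z • (1 : Matrix X X ℂ)) := by
      have h4 : H + Matrix.diagonal (fun x => (v x : ℂ)) - z • (1 : Matrix X X ℂ) =
          H + Matrix.diagonal (fun x => (v x : ℂ) - z) := by
        rw [add_sub_assoc, ← Matrix.diagonal_one, ← Matrix.diagonal_smul, Matrix.diagonal_sub]
        congr 2
        funext x
        simp
      have h5 : tw u H + Matrix.diagonal (fun x => (v x : ℂ)) - z • (1 : Matrix X X ℂ) =
          tw u H + Matrix.diagonal (fun x => (v x : ℂ) - z) := by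
        rw [add_sub_assoc, ← Matrix.diagonal_one, ← Matrix.diagonal_smul, Matrix.diagonal_sub]
        congr 2
        funext x
        simp
      rw [h4, h5, tw1_add, tw1_diagonal hu]
    rw [h3, ← tw_mul hu, Gr_mul hH v hz.ne', tw1_one hu]
  have h6 : tw u (Gr H v z) - (Gr H v z)ᴴ =
      tw u (Gr H v z) * ((2 * Complex.I * z.im) • (1 : Matrix X X ℂ) - (tw u H - H)) *
        (Gr H v z)ᴴ := by
    have h7 : (2 * Complex.I * z.im) • (1 : Matrix X X ℂ) - (tw u H - H) =
        (H + Matrix.diagonal (fun x => (v x : ℂ)) - (starRingEnd ℂ z) • (1 : Matrix X X ℂ)) -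
          (tw u H + Matrix.diagonal (fun x => (v x : ℂ)) - z • (1 : Matrix X X ℂ)) := by
      have h8 : (2 * Complex.I * z.im : ℂ) = z - starRingEnd ℂ z := by
        rw [Complex.sub_conj]
        push_cast
        ring
      rw [h8, sub_smul]
      abel
    rw [h7, mul_sub, sub_mul, mul_assoc (tw u (Gr H v z)), h1, h2, mul_one, one_mul]
  have h9 := congrFun (congrFun h6 x) x
  rw [Matrix.sub_apply, tw_diag hu, Matrix.conjTranspose_apply, mul_sub, sub_mul,
    Matrix.sub_apply, Matrix.mul_smul, mul_one, Matrix.smul_mul, Matrix.smul_apply,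
    smul_eq_mul] at h9
  rw [← h9]
  have h10 : star (Gr H v z x x) = starRingEnd ℂ (Gr H v z x x) := rfl
  rw [h10, Complex.sub_conj]
  push_cast
  ring

theorem tw_expand (hH : RS H) (v : X → ℝ) (hz : z.im ≠ 0) (hζ : ζ.im ≠ 0) {u : X → ℂ}
    (hu : ∀ x, ‖u x‖ = 1) :
    tw u (Gr H v z) = tw u (Gr H 0 ζ) + tw u (Gr H v z) *
      Matrix.diagonal (fun x => z - ζ - (v x : ℂ)) * tw u (Gr H 0 ζ) := by
  have h := Gr_expand' hH v hz hζ
  have h1 : Gr H v z = Gr H 0 ζ + Gr H v z *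
      Matrix.diagonal (fun x => z - ζ - (v x : ℂ)) * Gr H 0 ζ := by
    rw [← h]
    abel
  have h2 := congrArg (tw u) h1
  rw [tw1_add, tw_mul hu, tw_mul hu, tw1_diagonal hu] at h2
  exact h2

/-- The diagonal of `tw u G Gᴴ`: `∑_y conj(u x) u y |G_xy|²`. -/
lemma tw_diag_sum (u : X → ℂ) (A : Matrix X X ℂ) (x : X) :
    (tw u A * Aᴴ) x x = ∑ y, starRingEnd ℂ (u x) * u y * (‖A x y‖ ^ 2 : ℝ) := by
  rw [Matrix.mul_apply]
  refine Finset.sum_congr rfl fun y _ => ?_
  rw [tw1_apply, Matrix.conjTranspose_apply]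
  have h : A x y * star (A x y) = ((‖A x y‖ ^ 2 : ℝ) : ℂ) := by
    have h1 : star (A x y) = starRingEnd ℂ (A x y) := rfl
    rw [h1, Complex.mul_conj, Complex.normSq_eq_norm_sq]
  rw [← h]
  ring

end Pool.Agent.BK
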