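import Pool.Agent.BK.WDefs

/-! BK module W1: the integration by parts identity for the moments of
`W(V) = ∑_y |Z_y|⁴`, `Z_y = (G - M)_yw` (`w` fixed), as an inequality.

Notation: `G = Gr H (lam V) z`, `ζ = z + lam² s2 g`, `M = Gr H 0 ζ`, `g = E G_xx` (all `x`).
`Z_y = ∑_x M_yx K_x G_xw`, `K_x = -lam V_x - lam² s2 g` (`Gr_expand`). Put
`Ψ_y = W^(q+1) Z_y conj(Z_y)²`, so `W^(q+2) = ∑_y Z_y Ψ_y`. By `ibp` for `F = G_xw Ψ_y`
(`∂_x F = -lam G_xx G_xw Ψ_y + G_xw ∂_xΨ_y`):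
`E[-lam V_x F] = lam² E[τ_x G_xx G_xw Ψ_y] - lam E[τ_x G_xw ∂_xΨ_y]`, hence
`E[K_x F] = lam² E[τ_x (G_xx - g) G_xw Ψ_y] + lam² g E[(τ_x - s2) G_xw Ψ_y] - lam E[τ_x G_xw ∂_xΨ_y]`
and by `ibp'` the middle term is `lam² g E[τ'_x (-lam G_xx G_xw Ψ_y + G_xw ∂_xΨ_y)]`. So
`E W^(q+2) = E ∑_y Ψ_y (M c)_y + E ∑_{x,y} M_yx (lam² g τ'_x - lam τ_x) G_xw ∂_xΨ_y`,
`c_x = lam² τ_x (G_xx - g) G_xw - lam³ g τ'_x G_xx G_xw`.
Finally `|∂_xΨ_y| ≤ Dd V x y` below, because `∂_x Z_y = -lam G_yx G_xw` and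
`|∂_x W| ≤ 4 ∑_u |Z_u|³ |∂_x Z_u|`. -/

open MeasureTheory Finset Matrix

noncomputable section

namespace Pool.Agent.BK

variable {X : Type} [Fintype X] [DecidableEq X]

/-- The derivative of `∑ |Z_u|⁴`. -/
private def dW1 (Z Z' : X → ℂ) : ℂ :=
  ∑ u, ((2 : ℕ) : ℂ) * (((‖Z u‖ ^ 2 : ℝ) : ℂ)) ^ (2 - 1) *
    ((2 * (starRingEnd ℂ (Z u) * Z' u).re : ℝ) : ℂ)

/-- The derivative of `W^(q+1) Z_y conj(Z_y)²`. -/
private def dPsi (q : ℕ) (W : ℂ) (Z Z' : X → ℂ) (y : X) : ℂ :=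
  (((q + 1 : ℕ) : ℂ) * W ^ (q + 1 - 1) * dW1 Z Z') * (Z y * starRingEnd ℂ (Z y) ^ 2) +
    W ^ (q + 1) * (Z' y * starRingEnd ℂ (Z y) ^ 2 +
      Z y * (((2 : ℕ) : ℂ) * starRingEnd ℂ (Z y) ^ (2 - 1) * starRingEnd ℂ (Z' y)))

private lemma norm_dW1 (Z Z' : X → ℂ) : ‖dW1 Z Z'‖ ≤ 4 * ∑ u, ‖Z u‖ ^ 3 * ‖Z' u‖ := by
  unfold dW1
  refine (norm_sum_le _ _).trans ?_
  rw [mul_sum]
  refine sum_le_sum fun u _ => ?_
  rw [norm_mul, norm_mul, Complex.norm_natCast, show (2 - 1 : ℕ) = 1 from rfl, pow_one,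
    Complex.norm_real, Complex.norm_real, Real.norm_eq_abs, Real.norm_eq_abs,
    abs_of_nonneg (sq_nonneg ‖Z u‖), abs_mul, abs_of_pos (by norm_num : (0:ℝ) < 2)]
  have h : |(starRingEnd ℂ (Z u) * Z' u).re| ≤ ‖Z u‖ * ‖Z' u‖ := by
    refine (Complex.abs_re_le_norm _).trans ?_
    rw [norm_mul, RCLike.norm_conj]
  push_cast
  have h2 : 0 ≤ ‖Z u‖ ^ 2 := by positivity
  nlinarith [mul_le_mul_of_nonneg_left h h2]

private lemma norm_dPsi (q : ℕ) (Z Z' : X → ℂ) (y : X) (L : X → ℝ) (hL : ∀ u, ‖Z' u‖ ≤ L u) :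
    ‖dPsi q ((∑ u, ‖Z u‖ ^ 4 : ℝ) : ℂ) Z Z' y‖ ≤
      (q + 1) * (∑ u, ‖Z u‖ ^ 4) ^ q * (4 * ∑ u, ‖Z u‖ ^ 3 * L u) * ‖Z y‖ ^ 3 +
        (∑ u, ‖Z u‖ ^ 4) ^ (q + 1) * (3 * ‖Z y‖ ^ 2 * L y) := by
  have hW : 0 ≤ ∑ u, ‖Z u‖ ^ 4 := sum_nonneg fun u _ => by positivity
  set W : ℝ := ∑ u, ‖Z u‖ ^ 4 with hWdef
  have nW : ‖((W : ℝ) : ℂ)‖ = W := by rw [Complex.norm_real, Real.norm_of_nonneg hW]
  unfold dPsi
  refine (norm_add_le _ _).trans (add_le_add ?_ ?_)
  · rw [norm_mul, norm_mul, norm_mul, norm_mul, norm_pow, norm_pow, nW, RCLike.norm_conj,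
      Complex.norm_natCast, Nat.add_sub_cancel]
    push_cast
    have h1 : ‖dW1 Z Z'‖ ≤ 4 * ∑ u, ‖Z u‖ ^ 3 * L u := by
      refine (norm_dW1 Z Z').trans ?_
      refine mul_le_mul_of_nonneg_left ?_ (by norm_num)
      exact sum_le_sum fun u _ => mul_le_mul_of_nonneg_left (hL u) (by positivity)
    have e : ‖Z y‖ * ‖Z y‖ ^ 2 = ‖Z y‖ ^ 3 := by ring
    rw [e]
    refine mul_le_mul_of_nonneg_right ?_ (by positivity)
    exact mul_le_mul_of_nonneg_left h1 (by positivity)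
  · rw [norm_mul, norm_pow, nW]
    refine mul_le_mul_of_nonneg_left ?_ (by positivity)
    refine (norm_add_le _ _).trans ?_
    rw [norm_mul, norm_mul, norm_mul, norm_mul, norm_pow, norm_pow, RCLike.norm_conj,
      RCLike.norm_conj, Complex.norm_natCast, show (2 - 1 : ℕ) = 1 from rfl, pow_one]
    push_cast
    have h := hL y
    nlinarith [mul_le_mul_of_nonneg_left h (by positivity : (0:ℝ) ≤ ‖Z y‖ ^ 2)]

section

variable {H : Matrix X X ℂ} {z : ℂ}

private lemma C1_Zv (hH : RS H) (M : Matrix X X ℂ) (lam : ℝ) (hz : z.im ≠ 0) (w y : X) :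
    C1 (fun V : X → ℝ => Zv H M lam z w V y)
      (fun u V => -(lam : ℂ) * Gr H (fun x => lam * V x) z y u *
        Gr H (fun x => lam * V x) z u w) :=
  C1_Gr_sub hH lam hz M y w

private lemma C1_Wv (hH : RS H) (M : Matrix X X ℂ) (lam : ℝ) (hz : z.im ≠ 0) (w : X) :
    C1 (fun V : X → ℝ => ((Wv H M lam z w V : ℝ) : ℂ))
      (fun u V => dW1 (fun y => Zv H M lam z w V y)
        (fun y => -(lam : ℂ) * Gr H (fun x => lam * V x) z y u *
          Gr H (fun x => lam * V x) z u w)) := by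
  have h := C1.sum (univ : Finset X) (fun y _ => ((C1_Zv hH M lam hz w y).normSq).pow 2)
  have e : (fun V : X → ℝ => ((Wv H M lam z w V : ℝ) : ℂ)) =
      fun V => ∑ y, (((‖Zv H M lam z w V y‖ ^ 2 : ℝ) : ℂ)) ^ 2 := by
    funext V
    unfold Wv
    push_cast
    exact sum_congr rfl fun y _ => by ring
  rw [e]
  exact h

private lemma C1_Psv (hH : RS H) (M : Matrix X X ℂ) (lam : ℝ) (hz : z.im ≠ 0) (w : X) (q : ℕ)
    (y : X) :
    C1 (fun V : X → ℝ => Psv H M lam z w q V y)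
      (fun u V => dPsi q ((Wv H M lam z w V : ℝ) : ℂ) (fun y => Zv H M lam z w V y)
        (fun y => -(lam : ℂ) * Gr H (fun x => lam * V x) z y u *
          Gr H (fun x => lam * V x) z u w) y) :=
  ((C1_Wv hH M lam hz w).pow (q + 1)).mul
    ((C1_Zv hH M lam hz w y).mul ((C1_Zv hH M lam hz w y).conj.pow 2))

private lemma norm_dPsv_le (hH : RS H) (M : Matrix X X ℂ) {lam : ℝ} (hlam : 0 < lam) (w : X)
    (q : ℕ) (V : X → ℝ) (x y : X) :
    ‖dPsi q ((Wv H M lam z w V : ℝ) : ℂ) (fun y => Zv H M lam z w V y)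
        (fun y => -(lam : ℂ) * Gr H (fun x => lam * V x) z y x *
          Gr H (fun x => lam * V x) z x w) y‖ ≤ Dd H M lam z w q V x y := by
  have h := norm_dPsi q (fun y => Zv H M lam z w V y)
    (fun y => -(lam : ℂ) * Gr H (fun x => lam * V x) z y x *
          Gr H (fun x => lam * V x) z x w) y
    (fun y => lam * ‖Gr H (fun x => lam * V x) z y x‖ * ‖Gr H (fun x => lam * V x) z x w‖)
    (fun u => by
      rw [norm_mul, norm_mul, norm_neg, Complex.norm_real, Real.norm_of_nonneg hlam.le])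
  refine h.trans (le_of_eq ?_)
  unfold Dd Wv
  have e : ∑ u, ‖Zv H M lam z w V u‖ ^ 3 * (lam * ‖Gr H (fun x => lam * V x) z u x‖ *
      ‖Gr H (fun x => lam * V x) z x w‖) =
      lam * ‖Gr H (fun x => lam * V x) z x w‖ *
        ∑ u, ‖Zv H M lam z w V u‖ ^ 3 * ‖Gr H (fun x => lam * V x) z u x‖ := by
    rw [mul_sum]
    exact sum_congr rfl fun u _ => by ring
  rw [e]
  ring

/-- Pointwise: `W^(q+2) = ∑_y ∑_x M_yx K_x G_xw Ψ_y`. -/
private lemma W_expand (hH : RS H) (lam : ℝ) (hz : z.im ≠ 0) {ζ : ℂ} (hζ : ζ.im ≠ 0) (w : X)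
    (q : ℕ) (V : X → ℝ) :
    (((Wv H (Gr H 0 ζ) lam z w V) ^ (q + 2) : ℝ) : ℂ) =
      ∑ y, ∑ x, Gr H 0 ζ y x * ((z - ζ - ((lam * V x : ℝ) : ℂ)) *
        (Gr H (fun x => lam * V x) z x w * Psv H (Gr H 0 ζ) lam z w q V y)) := by
  set M := Gr H 0 ζ with hM
  have hexp := Gr_expand hH (fun x => lam * V x) hz hζ
  have hZy : ∀ y, Zv H M lam z w V y = ∑ x, M y x * (z - ζ - ((lam * V x : ℝ) : ℂ)) *
      Gr H (fun x => lam * V x) z x w := by
    intro y
    unfold Zv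
    rw [hM, hexp, Matrix.mul_apply]
    refine sum_congr rfl fun x _ => ?_
    rw [Matrix.mul_diagonal]
  have e1 : ∀ y, ∑ x, M y x * ((z - ζ - ((lam * V x : ℝ) : ℂ)) *
        (Gr H (fun x => lam * V x) z x w * Psv H M lam z w q V y)) =
      Zv H M lam z w V y * Psv H M lam z w q V y := by
    intro y
    rw [hZy y, sum_mul]
    exact sum_congr rfl fun x _ => by ring
  simp only [e1]
  have e2 : ∀ y, Zv H M lam z w V y * Psv H M lam z w q V y =
      ((Wv H M lam z w V : ℝ) : ℂ) ^ (q + 1) * ((‖Zv H M lam z w V y‖ ^ 4 : ℝ) : ℂ) := by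
    intro y
    unfold Psv
    have e3 : Zv H M lam z w V y * starRingEnd ℂ (Zv H M lam z w V y) =
        ((‖Zv H M lam z w V y‖ ^ 2 : ℝ) : ℂ) := by
      rw [Complex.mul_conj, Complex.normSq_eq_norm_sq]
    have e4 : ((‖Zv H M lam z w V y‖ ^ 4 : ℝ) : ℂ) =
        (((‖Zv H M lam z w V y‖ ^ 2 : ℝ) : ℂ)) ^ 2 := by push_cast; ring
    rw [e4, ← e3]
    ring
  simp only [e2]
  rw [← mul_sum, ← Complex.ofReal_sum]
  have : (∑ y, ‖Zv H M lam z w V y‖ ^ 4) = Wv H M lam z w V := rfl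
  rw [this]
  push_cast
  ring

end

private lemma int3 {α : Type} [MeasurableSpace α] {μ : Measure α} {A D T : α → ℂ}
    (hA : Integrable A μ) (hD : Integrable D μ) (hT : Integrable T μ) (a b : ℂ) :
    ∫ V, (a * A V + (b * D V - b * T V)) ∂μ = a * ∫ V, A V ∂μ + (b * ∫ V, D V ∂μ - b * ∫ V, T V ∂μ) := by
  have h1 : Integrable (fun V => a * A V) μ := hA.const_mul a
  have h2 : Integrable (fun V => b * D V) μ := hD.const_mul b
  have h3 : Integrable (fun V => b * T V) μ := hT.const_mul b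
  have h4 : Integrable (fun V => b * D V - b * T V) μ := h2.sub h3
  rw [integral_add h1 h4, integral_sub h2 h3, integral_const_mul, integral_const_mul,
    integral_const_mul]

private lemma int_dsum {α : Type} [MeasurableSpace α] {μ : Measure α} (M : Matrix X X ℂ)
    {f : X → X → α → ℂ} (hf : ∀ x y, Integrable (f x y) μ) :
    ∫ V, ∑ y, ∑ x, M y x * f x y V ∂μ = ∑ y, ∑ x, M y x * ∫ V, f x y V ∂μ := by
  have h1 : ∀ x y, Integrable (fun V => M y x * f x y V) μ := fun x y => (hf x y).const_mul _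
  have h2 : ∀ y, Integrable (fun V => ∑ x, M y x * f x y V) μ := fun y =>
    integrable_finsetSum _ fun x _ => h1 x y
  rw [integral_finsetSum _ (fun y _ => h2 y)]
  refine sum_congr rfl fun y _ => ?_
  rw [integral_finsetSum _ (fun x _ => h1 x y)]
  exact sum_congr rfl fun x _ => integral_const_mul _ _

theorem W1 {ν : Measure ℝ} {R s2 C : ℝ} {τ τ' : ℝ → ℝ} (hν : NiceLaw ν R s2 C τ τ')
    {H : Matrix X X ℂ} (hH : RS H) {lam : ℝ} (hlam : 0 < lam) {z g : ℂ} (hz : 0 < z.im)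
    (hg : ∀ x, Ex ν (fun V : X → ℝ => Gr H (fun x => lam * V x) z x x) = g)
    (hζ : 0 < (z + (lam ^ 2 * s2 : ℝ) * g).im) (w : X) (q : ℕ) :
    Ex ν (fun V => Wv H (Gr H 0 (z + (lam ^ 2 * s2 : ℝ) * g)) lam z w V ^ (q + 2)) ≤
      Ex ν (fun V => ‖∑ y, Psv H (Gr H 0 (z + (lam ^ 2 * s2 : ℝ) * g)) lam z w q V y *
        (Gr H 0 (z + (lam ^ 2 * s2 : ℝ) * g) *ᵥ cv H lam z g τ τ' w V) y‖) +
      Ex ν (fun V => C * (lam + lam ^ 2 * ‖g‖) * ∑ x, ∑ y,
        ‖Gr H 0 (z + (lam ^ 2 * s2 : ℝ) * g) y x‖ * ‖Gr H (fun x => lam * V x) z x w‖ *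
          Dd H (Gr H 0 (z + (lam ^ 2 * s2 : ℝ) * g)) lam z w q V x y) := by
  have hz0 : z.im ≠ 0 := hz.ne'
  set ζ : ℂ := z + (lam ^ 2 * s2 : ℝ) * g with hζdef
  have hζ0 : ζ.im ≠ 0 := hζ.ne'
  set M := Gr H 0 ζ with hM
  set μ : Measure (X → ℝ) := Measure.pi fun _ : X => ν with hμ
  have hprob := hν.prob
  -- abbreviations
  set G : (X → ℝ) → Matrix X X ℂ := fun V => Gr H (fun x => lam * V x) z with hG
  set Ψ : (X → ℝ) → X → ℂ := fun V y => Psv H M lam z w q V y with hΨ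
  set dΨ : X → (X → ℝ) → X → ℂ := fun u V y =>
    dPsi q ((Wv H M lam z w V : ℝ) : ℂ) (fun y => Zv H M lam z w V y)
        (fun y => -(lam : ℂ) * Gr H (fun x => lam * V x) z y u *
          Gr H (fun x => lam * V x) z u w) y with hdΨ
  have c1G : ∀ x y, C1 (fun V : X → ℝ => G V x y)
      (fun u V => -(lam : ℂ) * G V x u * G V u y) := fun x y => C1_Gr hH lam hz0 x y
  have c1Ψ : ∀ y, C1 (fun V : X → ℝ => Ψ V y) (fun u V => dΨ u V y) := fun y =>
    C1_Psv hH M lam hz0 w q y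
  have c1F : ∀ x y, C1 (fun V : X → ℝ => G V x w * Ψ V y)
      (fun u V => (-(lam : ℂ) * G V x u * G V u w) * Ψ V y + G V x w * dΨ u V y) :=
    fun x y => (c1G x w).mul (c1Ψ y)
  -- continuity
  have cG : ∀ x y, Continuous fun V : X → ℝ => G V x y := fun x y => (c1G x y).cont
  have cΨ : ∀ y, Continuous fun V : X → ℝ => Ψ V y := fun y => (c1Ψ y).cont
  have cdΨ : ∀ u y, Continuous fun V : X → ℝ => dΨ u V y := fun u y => (c1Ψ y).cont' u
  -- the identity for one pair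
  set R1 : X → X → (X → ℝ) → ℂ := fun x y V => cv H lam z g τ τ' w V x * Ψ V y with hR1
  set R2 : X → X → (X → ℝ) → ℂ := fun x y V =>
    ((lam : ℂ) ^ 2 * g * (τ' (V x) : ℂ) - (lam : ℂ) * (τ (V x) : ℂ)) * (G V x w * dΨ x V y) with hR2
  have iB : ∀ (F : (X → ℝ) → ℂ), Continuous F → ∀ x, Integrable (fun V => (τ (V x) : ℂ) * F V) μ :=
    fun F hF x => integrable_bdd_mul hν hF hν.meas hν.bdd x
  have iB' : ∀ (F : (X → ℝ) → ℂ), Continuous F → ∀ x,
      Integrable (fun V => (τ' (V x) : ℂ) * F V) μ :=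
    fun F hF x => integrable_bdd_mul hν hF hν.meas' hν.bdd' x
  have iR1 : ∀ x y, Integrable (R1 x y) μ := by
    intro x y
    have e : R1 x y = fun V => (τ (V x) : ℂ) * ((lam : ℂ) ^ 2 * (G V x x - g) * G V x w * Ψ V y) -
        (τ' (V x) : ℂ) * ((lam : ℂ) ^ 3 * g * G V x x * G V x w * Ψ V y) := by
      funext V
      simp only [hR1, cv, hG]
      ring
    rw [e]
    refine (iB _ ?_ x).sub (iB' _ ?_ x)
    · exact ((continuous_const.mul ((cG x x).sub continuous_const)).mul (cG x w)).mul (cΨ y)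
    · exact ((continuous_const.mul (cG x x)).mul (cG x w)).mul (cΨ y)
  have iR2 : ∀ x y, Integrable (R2 x y) μ := by
    intro x y
    have e : R2 x y = fun V => (τ' (V x) : ℂ) * ((lam : ℂ) ^ 2 * g * (G V x w * dΨ x V y)) -
        (τ (V x) : ℂ) * ((lam : ℂ) * (G V x w * dΨ x V y)) := by
      funext V
      simp only [hR2]
      ring
    rw [e]
    refine (iB' _ ?_ x).sub (iB _ ?_ x)
    · exact continuous_const.mul ((cG x w).mul (cdΨ x y))
    · exact continuous_const.mul ((cG x w).mul (cdΨ x y))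
  have key : ∀ x y, ∫ V, (z - ζ - ((lam * V x : ℝ) : ℂ)) * (G V x w * Ψ V y) ∂μ =
      ∫ V, R1 x y V + R2 x y V ∂μ := by
    intro x y
    set F : (X → ℝ) → ℂ := fun V => G V x w * Ψ V y with hF
    set F' : X → (X → ℝ) → ℂ := fun u V =>
      (-(lam : ℂ) * G V x u * G V u w) * Ψ V y + G V x w * dΨ u V y with hF'
    have hc : C1 F F' := c1F x y
    have I1 : ∫ V, (V x : ℂ) * F V ∂μ = ∫ V, (τ (V x) : ℂ) * F' x V ∂μ := ibp hν hc x
    have I2 : ∫ V, ((τ (V x) - s2 : ℝ) : ℂ) * F V ∂μ = ∫ V, (τ' (V x) : ℂ) * F' x V ∂μ :=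
      ibp' hν hc x
    have iA : Integrable (fun V : X → ℝ => (V x : ℂ) * F V) μ :=
      integrable_cont hν ((Complex.continuous_ofReal.comp (continuous_apply x)).mul hc.cont)
    have iT : Integrable (fun V : X → ℝ => (τ (V x) : ℂ) * F V) μ := iB F hc.cont x
    have iF : Integrable (fun V : X → ℝ => (s2 : ℂ) * F V) μ :=
      integrable_cont hν (continuous_const.mul hc.cont)
    have iD : Integrable (fun V : X → ℝ => ((τ (V x) - s2 : ℝ) : ℂ) * F V) μ := by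
      have e : (fun V : X → ℝ => ((τ (V x) - s2 : ℝ) : ℂ) * F V) =
          fun V => (τ (V x) : ℂ) * F V - (s2 : ℂ) * F V := by
        funext V; push_cast; ring
      rw [e]; exact iT.sub iF
    have iBF : Integrable (fun V : X → ℝ => (τ (V x) : ℂ) * F' x V) μ := iB _ (hc.cont' x) x
    have iEF : Integrable (fun V : X → ℝ => (τ' (V x) : ℂ) * F' x V) μ := iB' _ (hc.cont' x) x
    have e1 : (fun V : X → ℝ => (z - ζ - ((lam * V x : ℝ) : ℂ)) * (G V x w * Ψ V y)) =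
        fun V => (-(lam : ℂ)) * ((V x : ℂ) * F V) +
          ((lam : ℂ) ^ 2 * g * (((τ (V x) - s2 : ℝ) : ℂ) * F V) -
            (lam : ℂ) ^ 2 * g * ((τ (V x) : ℂ) * F V)) := by
      funext V
      simp only [hF, hζdef]
      push_cast
      ring
    have e2 : (fun V : X → ℝ => R1 x y V + R2 x y V) =
        fun V => (-(lam : ℂ)) * ((τ (V x) : ℂ) * F' x V) +
          ((lam : ℂ) ^ 2 * g * ((τ' (V x) : ℂ) * F' x V) -
            (lam : ℂ) ^ 2 * g * ((τ (V x) : ℂ) * F V)) := by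
      funext V
      simp only [hR1, hR2, hF, hF', cv, hG]
      ring
    rw [e1, e2, int3 iA iD iT, int3 iBF iEF iT, I1, I2]
  -- sum up
  set P1 : (X → ℝ) → ℂ := fun V => ∑ y, Psv H M lam z w q V y *
    (M *ᵥ cv H lam z g τ τ' w V) y with hP1
  set P2 : (X → ℝ) → ℂ := fun V => ∑ y, ∑ x, M y x * R2 x y V with hP2
  have eP1 : P1 = fun V => ∑ y, ∑ x, M y x * R1 x y V := by
    funext V
    simp only [hP1, hR1, hΨ, Matrix.mulVec, dotProduct]
    refine sum_congr rfl fun y _ => ?_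
    rw [mul_sum]
    exact sum_congr rfl fun x _ => by ring
  have iP1 : Integrable P1 μ := by
    rw [eP1]
    exact integrable_finsetSum _ fun y _ => integrable_finsetSum _ fun x _ =>
      (iR1 x y).const_mul _
  have iP2 : Integrable P2 μ :=
    integrable_finsetSum _ fun y _ => integrable_finsetSum _ fun x _ => (iR2 x y).const_mul _
  have iK : ∀ x y, Integrable (fun V : X → ℝ =>
      (z - ζ - ((lam * V x : ℝ) : ℂ)) * (G V x w * Ψ V y)) μ := fun x y =>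
    integrable_cont hν (((continuous_const.sub (Complex.continuous_ofReal.comp
      (continuous_const.mul (continuous_apply x))))).mul ((cG x w).mul (cΨ y)))
  have main : ∫ V, (((Wv H M lam z w V) ^ (q + 2) : ℝ) : ℂ) ∂μ = ∫ V, P1 V ∂μ + ∫ V, P2 V ∂μ := by
    have e0 : (fun V : X → ℝ => (((Wv H M lam z w V) ^ (q + 2) : ℝ) : ℂ)) =
        fun V => ∑ y, ∑ x, M y x * ((z - ζ - ((lam * V x : ℝ) : ℂ)) * (G V x w * Ψ V y)) := by
      funext V
      exact W_expand hH lam hz0 hζ0 w q V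
    rw [e0, ← integral_add iP1 iP2]
    have e3 : (fun V => P1 V + P2 V) = fun V => ∑ y, ∑ x, M y x * (R1 x y V + R2 x y V) := by
      funext V
      rw [eP1]
      simp only [hP2]
      rw [← sum_add_distrib]
      refine sum_congr rfl fun y _ => ?_
      rw [← sum_add_distrib]
      exact sum_congr rfl fun x _ => by ring
    rw [e3, int_dsum M (f := fun x y V => (z - ζ - ((lam * V x : ℝ) : ℂ)) * (G V x w * Ψ V y)) iK,
      int_dsum M (f := fun x y V => R1 x y V + R2 x y V) (fun x y => (iR1 x y).add (iR2 x y))]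
    exact sum_congr rfl fun y _ => sum_congr rfl fun x _ => by rw [key x y]
  -- norms
  have hWnn : ∀ V, 0 ≤ Wv H M lam z w V := fun V => sum_nonneg fun y _ => by positivity
  have hEnn : 0 ≤ ∫ V, Wv H M lam z w V ^ (q + 2) ∂μ :=
    integral_nonneg fun V => pow_nonneg (hWnn V) _
  have hE : ∫ V, Wv H M lam z w V ^ (q + 2) ∂μ =
      ‖∫ V, (((Wv H M lam z w V) ^ (q + 2) : ℝ) : ℂ) ∂μ‖ := by
    rw [integral_complex_ofReal, Complex.norm_real, Real.norm_of_nonneg hEnn]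
  have hWc : Continuous fun V : X → ℝ => Wv H M lam z w V := by
    unfold Wv
    exact continuous_finsetSum _ fun y _ => ((C1_Zv hH M lam hz0 w y).cont.norm).pow 4
  have hZc : ∀ y, Continuous fun V : X → ℝ => Zv H M lam z w V y := fun y =>
    (C1_Zv hH M lam hz0 w y).cont
  have hDc : ∀ x y, Continuous fun V : X → ℝ => Dd H M lam z w q V x y := by
    intro x y
    unfold Dd
    refine Continuous.add ?_ ?_
    · refine Continuous.mul (Continuous.mul (continuous_const.mul (hWc.pow q))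
        ((hZc y).norm.pow 3)) ?_
      refine Continuous.mul (continuous_const.mul (cG x w).norm) ?_
      exact continuous_finsetSum _ fun u _ => ((hZc u).norm.pow 3).mul (cG u x).norm
    · refine Continuous.mul (Continuous.mul (continuous_const.mul (hWc.pow (q + 1)))
        ((hZc y).norm.pow 2)) ?_
      exact (continuous_const.mul (cG y x).norm).mul (cG x w).norm
  show ∫ V, Wv H M lam z w V ^ (q + 2) ∂μ ≤ ∫ V, ‖P1 V‖ ∂μ + ∫ V, C * (lam + lam ^ 2 * ‖g‖) *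
    ∑ x, ∑ y, ‖M y x‖ * ‖G V x w‖ * Dd H M lam z w q V x y ∂μ
  rw [hE, main]
  refine (norm_add_le _ _).trans (add_le_add (norm_integral_le_integral_norm _) ?_)
  refine (norm_integral_le_integral_norm _).trans ?_
  refine integral_mono iP2.norm ?_ ?_
  · refine integrable_cont hν (continuous_const.mul ?_)
    exact continuous_finsetSum _ fun x _ => continuous_finsetSum _ fun y _ =>
      (continuous_const.mul (cG x w).norm).mul (hDc x y)
  · intro V
    show ‖P2 V‖ ≤ C * (lam + lam ^ 2 * ‖g‖) *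
      ∑ x, ∑ y, ‖M y x‖ * ‖G V x w‖ * Dd H M lam z w q V x y
    simp only [hP2]
    rw [sum_comm, mul_sum]
    refine (norm_sum_le _ _).trans (sum_le_sum fun x _ => ?_)
    rw [mul_sum]
    refine (norm_sum_le _ _).trans (sum_le_sum fun y _ => ?_)
    simp only [hR2]
    rw [norm_mul, norm_mul, norm_mul]
    have hd : ‖dΨ x V y‖ ≤ Dd H M lam z w q V x y := norm_dPsv_le hH M hlam w q V x y
    have hk : ‖(lam : ℂ) ^ 2 * g * (τ' (V x) : ℂ) - (lam : ℂ) * (τ (V x) : ℂ)‖ ≤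
        C * (lam + lam ^ 2 * ‖g‖) := by
      refine (norm_sub_le _ _).trans ?_
      rw [norm_mul, norm_mul, norm_mul, norm_pow, Complex.norm_real, Complex.norm_real,
        Complex.norm_real, Real.norm_of_nonneg hlam.le]
      have b1 := hν.bdd (V x)
      have b2 := hν.bdd' (V x)
      rw [Real.norm_eq_abs, Real.norm_eq_abs]
      have : lam ^ 2 * ‖g‖ * |τ' (V x)| ≤ lam ^ 2 * ‖g‖ * C :=
        mul_le_mul_of_nonneg_left b2 (by positivity)
      have : lam * |τ (V x)| ≤ lam * C := mul_le_mul_of_nonneg_left b1 hlam.le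
      nlinarith
    have hC0 : 0 ≤ C * (lam + lam ^ 2 * ‖g‖) := (norm_nonneg _).trans hk
    calc ‖M y x‖ * (‖(lam : ℂ) ^ 2 * g * (τ' (V x) : ℂ) - (lam : ℂ) * (τ (V x) : ℂ)‖ *
          (‖G V x w‖ * ‖dΨ x V y‖))
        ≤ ‖M y x‖ * ((C * (lam + lam ^ 2 * ‖g‖)) * (‖G V x w‖ * Dd H M lam z w q V x y)) := by
          refine mul_le_mul_of_nonneg_left ?_ (norm_nonneg _)
          exact mul_le_mul hk (mul_le_mul_of_nonneg_left hd (norm_nonneg _))
            (mul_nonneg (norm_nonneg _) (norm_nonneg _)) hC0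
      _ = C * (lam + lam ^ 2 * ‖g‖) * (‖M y x‖ * ‖G V x w‖ * Dd H M lam z w q V x y) := by ring

end Pool.Agent.BK
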