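import Pool.Agent.BK.Res3
import Pool.Agent.BK.Ibp

/-! BK: definitions for the W-lemma. -/

open MeasureTheory Finset Matrix

noncomputable section

namespace Pool.Agent.BK

variable {X : Type} [Fintype X] [DecidableEq X]

/-- `Z_y = (G - M)_yw`. -/
def Zv (H M : Matrix X X ℂ) (lam : ℝ) (z : ℂ) (w : X) (V : X → ℝ) (y : X) : ℂ :=
  (Gr H (fun x => lam * V x) z - M) y w

/-- `W = ∑_y |Z_y|⁴`. -/
def Wv (H M : Matrix X X ℂ) (lam : ℝ) (z : ℂ) (w : X) (V : X → ℝ) : ℝ :=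
  ∑ y, ‖Zv H M lam z w V y‖ ^ 4

/-- `Ψ_y = W^(q+1) Z_y conj(Z_y)²`. -/
def Psv (H M : Matrix X X ℂ) (lam : ℝ) (z : ℂ) (w : X) (q : ℕ) (V : X → ℝ) (y : X) : ℂ :=
  (Wv H M lam z w V : ℂ) ^ (q + 1) * (Zv H M lam z w V y * starRingEnd ℂ (Zv H M lam z w V y) ^ 2)

/-- `c_x = lam² τ_x (G_xx - g) G_xw - lam³ g τ'_x G_xx G_xw`. -/
def cv (H : Matrix X X ℂ) (lam : ℝ) (z g : ℂ) (τ τ' : ℝ → ℝ) (w : X) (V : X → ℝ) (x : X) : ℂ :=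
  lam ^ 2 * τ (V x) * (Gr H (fun x => lam * V x) z x x - g) * Gr H (fun x => lam * V x) z x w -
    lam ^ 3 * g * τ' (V x) * Gr H (fun x => lam * V x) z x x * Gr H (fun x => lam * V x) z x w

/-- Bound for `|∂_xΨ_y|`. -/
def Dd (H M : Matrix X X ℂ) (lam : ℝ) (z : ℂ) (w : X) (q : ℕ) (V : X → ℝ) (x y : X) : ℝ :=
  4 * (q + 1) * Wv H M lam z w V ^ q * ‖Zv H M lam z w V y‖ ^ 3 *
      (lam * ‖Gr H (fun x => lam * V x) z x w‖ *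
        ∑ u, ‖Zv H M lam z w V u‖ ^ 3 * ‖Gr H (fun x => lam * V x) z u x‖) +
    3 * Wv H M lam z w V ^ (q + 1) * ‖Zv H M lam z w V y‖ ^ 2 *
      (lam * ‖Gr H (fun x => lam * V x) z y x‖ * ‖Gr H (fun x => lam * V x) z x w‖)

end Pool.Agent.BK
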